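import Pool.Agent.Lib.MP_f80667_ag.Gm.GeD
import Pool.Agent.Lib.MP_f80667_ag.Cv.Rcy
import Pool.Agent.Lib.MP_f80667_ag.Cv.Eis

/-! Norms of displacements and of cycles rationally equivalent to `0`; the degrees of unramified extensions. -/

open ZC BE PE CV IntermediateField

namespace GM

variable {F : Type} [Field F] {K Ω : Type} [Field K] [CharZero K] [Field Ω] [Algebra K Ω]
  [Algebra F K] [Algebra F Ω] [IsScalarTower F K Ω] [IsAlgClosure K Ω] {L : Ld K Ω} {V : Vr F}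
  [Hf V] {nr : V.pt Ω → V.pt Ω → Prop}

/-- Proof: `nm_add`, `nm_nsmul`: the norm is a homomorphism. -/
noncomputable def nmh (V : Vr F) [Hf V] (M : IntermediateField K Ω) [FiniteDimensional K M] :
    (V.pt Ω →₀ ℤ) →+ (V.pt Ω →₀ ℤ) where
  toFun := Nm (K := K) ⊥ M
  map_zero' := by
    have h := nm_nsmul (K := K) (Ω := Ω) (M := ⊥) (N := M) bot_le (0 : V.pt Ω →₀ ℤ) 0
    rwa [zero_smul, zero_smul] at h
  map_add' := nm_add bot_le

theorem nmh_apply (M : IntermediateField K Ω) [FiniteDimensional K M] (z : V.pt Ω →₀ ℤ) :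
    nmh V M z = Nm (K := K) ⊥ M z := rfl

/-- Proof: `dsp_gen`, `nm_tr`, `Um.up`. -/
theorem nm_dsp {M : IntermediateField K Ω} [FiniteDimensional K M] (hM : Um L M)
    {z : V.pt Ω →₀ ℤ} (hz : z ∈ Dsp L V nr M) : Nm (K := K) ⊥ M z ∈ Dsp L V nr ⊥ := by
  rw [dsp_gen] at hz
  induction hz using AddSubgroup.closure_induction with
  | mem z hz =>
    obtain ⟨M', y, y', he, h4, h5, h6, rfl⟩ := hz
    have hfd : FiniteDimensional K M' := he.fd
    have hfx : Fx M' (Finsupp.single y 1 - Finsupp.single y' 1 : V.pt Ω →₀ ℤ) :=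
      (fx_single h4 1).sub (fx_single h5 1)
    rw [← nm_tr bot_le he.1 hfx, dsp_gen]
    obtain ⟨N, hN, hM'⟩ := hM.up he
    exact AddSubgroup.subset_closure ⟨M', y, y', ⟨bot_le, N, hN, hM'⟩, h4, h5, h6, rfl⟩
  | zero =>
    rw [← nmh_apply, map_zero]
    exact zero_mem _
  | add a b _ _ ha hb =>
    rw [nm_add bot_le]
    exact add_mem ha hb
  | neg a _ ha =>
    have h := (nmh V M).map_neg a
    rw [nmh_apply, nmh_apply] at h
    rw [h]
    exact neg_mem ha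

/-- Proof: `z = d + e`, `e = z - d` is invariant (`dsp_fx`), `nm_dsp`, `nm_ratEq`, `nm_add`. -/
theorem nm_sup {M : IntermediateField K Ω} [FiniteDimensional K M] (hM : Um L M)
    {z : V.pt Ω →₀ ℤ} (hz : z ∈ Dsp L V nr M ⊔ V.ratEq M Ω) (hf : Fx M z) :
    Nm (K := K) ⊥ M z ∈ Dsp L V nr ⊥ ⊔ V.ratEq K Ω := by
  obtain ⟨d, hd, e, he, rfl⟩ := AddSubgroup.mem_sup.1 hz
  have hfe : Fx M e := by
    have h := hf.sub (dsp_fx hd)
    rwa [add_sub_cancel_left] at h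
  rw [nm_add bot_le]
  exact add_mem (AddSubgroup.mem_sup_left (nm_dsp hM hd)) (AddSubgroup.mem_sup_right (nm_ratEq he hfe))

/-- Proof: `nm_add`, `nm_nsmul`, `nm_dsp`, `nm_ratEq`. -/
theorem nm_div {M : IntermediateField K Ω} [FiniteDimensional K M] (hM : Um L M) {l : ℕ}
    {z : V.pt Ω →₀ ℤ} (hz : ∃ z' ∈ Dsp L V nr M, z - l • z' ∈ V.ratEq M Ω) (hf : Fx M z) :
    ∃ z' ∈ Dsp L V nr ⊥, Nm (K := K) ⊥ M z - l • z' ∈ V.ratEq K Ω := by
  obtain ⟨z', hz', h⟩ := hz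
  refine ⟨Nm (K := K) ⊥ M z', nm_dsp hM hz', ?_⟩
  have h1 := nm_ratEq h (hf.sub ((dsp_fx hz').nsmul l))
  have h2 := (nmh V M).map_sub z (l • z')
  rw [nmh_apply, nmh_apply, nmh_apply, nm_nsmul bot_le] at h2
  rwa [h2] at h1

/-- **Two coprime degrees.** Proof: `exists_frob`, `Ld.rf_frob`, `Ld.ur_nm`: `Nm M (Ur M (f d)) a = ∑ (i < d) φ ^ i • a = d • a`; `nm_tr`,
`nm_nsmul`; so `d • Nm ⊥ M a ∈ H` and `(d + 1) • Nm ⊥ M a ∈ H` for `d = d₀ + 1`. -/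
theorem nm_two {M : IntermediateField K Ω} [FiniteDimensional K M] {f : ℕ} (hf : L.Rf M f)
    {A : Type} [AddCommGroup A] [DistribMulAction (Ω ≃ₐ[K] Ω) A] {a : A} (ha : Fx M a)
    (H : AddSubgroup A) {d₀ : ℕ}
    (h : ∀ d, d₀ ≤ d → d ≠ 0 → Nm (K := K) ⊥ (L.Ur M (f * d)) a ∈ H) :
    Nm (K := K) ⊥ M a ∈ H := by
  obtain ⟨φ, q, hφ⟩ := exists_frob L.toLf M
  rw [Ld.rf_frob hf hφ] at hφ
  have key : ∀ d, d₀ ≤ d → d ≠ 0 → d • Nm (K := K) ⊥ M a ∈ H := by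
    intro d hd hd0
    have hfd : FiniteDimensional K (L.Ur M (f * d)) := Ld.ur_fin M _ (mul_ne_zero hf.ne hd0)
    have h1 := h d hd hd0
    rw [nm_tr bot_le Ld.ur_le (ha.mono Ld.ur_le), Ld.ur_nm hφ hf.ne hd0 (ha.mono Ld.ur_le)] at h1
    have h2 : ∀ i : ℕ, φ ^ i • a = a := fun i => ha _ (Subgroup.pow_mem _ hφ.mem i)
    rw [Finset.sum_congr rfl fun i _ => h2 i, Finset.sum_const, Finset.card_range,
      nm_nsmul bot_le] at h1
    exact h1
  have h1 := key (d₀ + 1) (by omega) (by omega)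
  have h2 := key (d₀ + 2) (by omega) (by omega)
  have h3 := sub_mem h2 h1
  have h4 : (d₀ + 2) • Nm (K := K) ⊥ M a - (d₀ + 1) • Nm (K := K) ⊥ M a = Nm (K := K) ⊥ M a := by
    rw [show d₀ + 2 = (d₀ + 1) + 1 from rfl, succ_nsmul (Nm (K := K) ⊥ M a) (d₀ + 1),
      add_sub_cancel_left]
  rwa [h4] at h3

omit [CharZero K] [IsAlgClosure K Ω] in
/-- The invariant cycles. -/
theorem cyc_iff {z : V.pt Ω →₀ ℤ} : z ∈ V.cyc K Ω ↔ Fx (⊥ : IntermediateField K Ω) z := by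
  constructor
  · intro h γ _
    exact h γ
  · intro h γ
    refine h γ ?_
    rw [IntermediateField.fixingSubgroup_bot]
    exact Subgroup.mem_top γ

end GM
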