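import Mathlib

/-!
Plane curves `g(z, Y) = 0`, the Hensel root at a point which is etale over the `z`-line, the order of a function there.

Polynomials in two variables are elements of `R[X][X]`, the inner variable is `z`, the outer variable is `Y`. A point is a pair
`P = (c, w)`.

* `ev₂ P A`: the value `A(c, w)`. `dY A`: the derivative with respect to `Y`.
* `pse c W A = A(c + t, W)`: a power series in `t`.
* `Hr g P W`: `W` is a power series with the constant coefficient `w` and `g(c + t, W) = 0`.
* `hrt g P`: the chosen Hensel root. `odp g P A`: the order of `A(c + t, W)` for `W = hrt g P`.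
* `Wl ρ D A`: the coefficients `A_j ≠ 0` satisfy `natDegree A_j + j ρ < D`. `Ut ρ D A`: `A` is `z ^ D` up to such a polynomial.
* `Crv ρ n g`: `g` is monic in `Y` of degree `n`, and the coefficient of `Y ^ j` has a degree `≤ (n - j) ρ`.
-/

open Polynomial

namespace GM

section defs

variable {R : Type} [CommRing R]

/-- The value at the point `P`. -/
noncomputable def ev₂ (P : R × R) : R[X][X] →+* R :=
  (evalRingHom P.1).comp (evalRingHom (C P.2))

theorem ev₂_eq (P : R × R) (A : R[X][X]) : ev₂ P A = A.evalEval P.1 P.2 := rfl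

/-- The derivative with respect to the outer variable. -/
noncomputable def dY (A : R[X][X]) : R[X][X] := derivative A

/-- The derivative with respect to the inner variable. -/
noncomputable def dZ (A : R[X][X]) : R[X][X] := A.sum fun j a => C (derivative a) * X ^ j

/-- The substitution of `c + t` and of the power series `W`. -/
noncomputable def pse (c : R) (W : PowerSeries R) : R[X][X] →+* PowerSeries R :=
  eval₂RingHom (eval₂RingHom (PowerSeries.C (R := R)) (PowerSeries.C c + PowerSeries.X)) W

theorem pse_Y (c : R) (W : PowerSeries R) : pse c W X = W := by simp [pse]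

theorem pse_z (c : R) (W : PowerSeries R) : pse c W (C X) = PowerSeries.C c + PowerSeries.X := by
  simp [pse]

theorem pse_C (c : R) (W : PowerSeries R) (a : R) : pse c W (C (C a)) = PowerSeries.C a := by
  simp [pse]

/-- `W` is a Hensel root of `g` at the point `P`. -/
def Hr (g : R[X][X]) (P : R × R) (W : PowerSeries R) : Prop :=
  PowerSeries.constantCoeff W = P.2 ∧ pse P.1 W g = 0

open Classical in
/-- The chosen Hensel root. -/
noncomputable def hrt (g : R[X][X]) (P : R × R) : PowerSeries R :=
  if h : ∃ W, Hr g P W then h.choose else 0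

/-- The order of `A` at the point `P` of the curve. -/
noncomputable def odp (g : R[X][X]) (P : R × R) (A : R[X][X]) : ℕ :=
  (pse P.1 (hrt g P) A).order.toNat

/-- The weight is smaller than `D`. -/
def Wl (ρ D : ℕ) (A : R[X][X]) : Prop :=
  ∀ j, A.coeff j ≠ 0 → (A.coeff j).natDegree + j * ρ < D

/-- `A` is `z ^ D` up to a polynomial of smaller weight. -/
def Ut (ρ D : ℕ) (A : R[X][X]) : Prop := Wl ρ D (A - C (X ^ D))

/-- `g` is monic in `Y` of degree `n`, the coefficient of `Y ^ j` has a degree `≤ (n - j) ρ`. -/
structure Mc (ρ n : ℕ) (g : R[X][X]) : Prop where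
  monic : g.Monic
  deg : g.natDegree = n
  le : ∀ j, (g.coeff j).natDegree ≤ (n - j) * ρ

/-- The change of the coefficients. -/
noncomputable def up₂ {R R' : Type} [CommRing R] [CommRing R'] (f : R →+* R') : R[X][X] →+* R'[X][X] :=
  mapRingHom (mapRingHom f)

end defs

section hens

variable {R : Type} [CommRing R]

/-- The constant coefficient is the value. -/
theorem cst_pse (P : R × R) {W : PowerSeries R} (h : PowerSeries.constantCoeff W = P.2)
    (A : R[X][X]) : PowerSeries.constantCoeff (pse P.1 W A) = ev₂ P A := by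
  have key : (PowerSeries.constantCoeff (R := R)).comp (pse P.1 W) = ev₂ P := by
    refine Polynomial.ringHom_ext' (Polynomial.ringHom_ext' (RingHom.ext fun a => ?_) ?_) ?_
    · change PowerSeries.constantCoeff (pse P.1 W (C (C a))) = ev₂ P (C (C a))
      rw [pse_C]
      simp [ev₂]
    · change PowerSeries.constantCoeff (pse P.1 W (C X)) = ev₂ P (C X)
      rw [pse_z]
      simp [ev₂]
    · change PowerSeries.constantCoeff (pse P.1 W X) = ev₂ P X
      rw [pse_Y, h]
      simp [ev₂]
  exact congrArg (fun φ => φ A) key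

private theorem pse_eval (c : R) (W : PowerSeries R) (A : R[X][X]) :
    pse c W A = (A.map (eval₂RingHom (PowerSeries.C (R := R))
      (PowerSeries.C c + PowerSeries.X))).eval W := by
  rw [eval_map]
  rfl

/-- Hensel's lemma for power series. -/
private theorem hens_ps (G : (PowerSeries R)[X]) (w : R)
    (h0 : PowerSeries.constantCoeff (G.eval (PowerSeries.C w)) = 0)
    (h1 : IsUnit (PowerSeries.constantCoeff (G.derivative.eval (PowerSeries.C w)))) :
    ∃ W, PowerSeries.constantCoeff W = w ∧ G.eval W = 0 := by
  obtain ⟨u, hu⟩ : ∃ u, G.derivative.eval (PowerSeries.C w) * u = 1 :=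
    (PowerSeries.isUnit_iff_constantCoeff.2 h1).exists_right_inv
  obtain ⟨s, hs0, hs⟩ : ∃ s : ℕ → PowerSeries R, s 0 = PowerSeries.C w ∧
      ∀ k, s (k + 1) = s k - G.eval (s k) * u :=
    ⟨fun k => Nat.rec (PowerSeries.C w) (fun _ y => y - G.eval y * u) k, rfl, fun _ => rfl⟩
  have inv : ∀ k, (PowerSeries.X : PowerSeries R) ^ (k + 1) ∣ G.eval (s k) ∧
      (PowerSeries.X : PowerSeries R) ∣ s k - PowerSeries.C w := by
    intro k
    induction k with
    | zero =>
      rw [hs0, zero_add, pow_one, sub_self]
      exact ⟨PowerSeries.X_dvd_iff.2 h0, dvd_zero _⟩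
    | succ k ih =>
      obtain ⟨⟨q, hq⟩, h3⟩ := ih
      have h4 : (PowerSeries.X : PowerSeries R) ∣ 1 - G.derivative.eval (s k) * u := by
        have h5 := (h3.trans (sub_dvd_eval_sub (s k) (PowerSeries.C w) G.derivative)).mul_right u
        rw [sub_mul, hu] at h5
        rw [← neg_sub, dvd_neg]
        exact h5
      constructor
      · obtain ⟨r, hr⟩ := G.binomExpansion (s k) (-(G.eval (s k) * u))
        rw [hs, sub_eq_add_neg, hr]
        obtain ⟨v, hv⟩ := h4
        have h6 : G.eval (s k) + G.derivative.eval (s k) * -(G.eval (s k) * u) +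
            r * (-(G.eval (s k) * u)) ^ 2 =
            PowerSeries.X ^ (k + 1 + 1) * (q * v + PowerSeries.X ^ k * (r * (q * u) ^ 2)) := by
          have h7 : G.eval (s k) + G.derivative.eval (s k) * -(G.eval (s k) * u) =
              G.eval (s k) * (1 - G.derivative.eval (s k) * u) := by ring
          rw [h7, hv, hq]
          ring
        exact ⟨_, h6⟩
      · rw [hs]
        have h6 : s k - G.eval (s k) * u - PowerSeries.C w =
            (s k - PowerSeries.C w) - PowerSeries.X * (PowerSeries.X ^ k * q * u) := by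
          rw [hq]
          ring
        rw [h6]
        exact dvd_sub h3 (dvd_mul_right _ _)
  have step : ∀ n k, n ≤ k → PowerSeries.coeff n (s k) = PowerSeries.coeff n (s n) := by
    intro n k hk
    induction k, hk using Nat.le_induction with
    | base => rfl
    | succ k hk ih =>
      have h2 : PowerSeries.coeff n (G.eval (s k) * u) = 0 :=
        PowerSeries.X_pow_dvd_iff.1 ((inv k).1.mul_right u) n (by omega)
      rw [hs, map_sub, h2, sub_zero, ih]
  have hW : ∀ k, (PowerSeries.X : PowerSeries R) ^ (k + 1) ∣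
      PowerSeries.mk (fun n => PowerSeries.coeff n (s n)) - s k := by
    intro k
    rw [PowerSeries.X_pow_dvd_iff]
    intro n hn
    rw [map_sub, PowerSeries.coeff_mk, step n k (by omega), sub_self]
  refine ⟨PowerSeries.mk fun n => PowerSeries.coeff n (s n), ?_, ?_⟩
  · rw [← PowerSeries.coeff_zero_eq_constantCoeff_apply, PowerSeries.coeff_mk, hs0,
      PowerSeries.coeff_zero_eq_constantCoeff_apply, PowerSeries.constantCoeff_C]
  · ext n
    have h2 := dvd_add ((hW n).trans (sub_dvd_eval_sub _ _ G)) (inv n).1
    rw [sub_add_cancel] at h2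
    rw [PowerSeries.X_pow_dvd_iff.1 h2 n (by omega), map_zero]

/-- **The Hensel root exists.** Proof: construct the coefficients one after the other: if `g(c + t, W_k) = 0` modulo `t ^ k`, `W_k` a polynomial of degree `< k`, then
`W_(k+1) = W_k + x t ^ k` with `x = - (coefficient of t ^ k of g(c + t, W_k)) / g_Y(c, w)`, because `g(c + t, W + x t ^ k) = g(c + t, W) + x t ^ k g_Y(c + t, W)` modulo `t ^ (2 k)` (Taylor, `Polynomial.evalSubFactor`, `Polynomial.binomExpansion`); `k ≥ 1`. The
power series with the coefficients of the `W_k`; `PowerSeries.X_pow_dvd_iff`. -/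
theorem exists_hr {g : R[X][X]} {P : R × R} (h0 : ev₂ P g = 0) (h1 : IsUnit (ev₂ P (dY g))) :
    ∃ W, Hr g P W := by
  have hc : PowerSeries.constantCoeff (PowerSeries.C P.2) = P.2 :=
    PowerSeries.constantCoeff_C P.2
  obtain ⟨W, hW1, hW2⟩ := hens_ps (g.map (eval₂RingHom (PowerSeries.C (R := R))
      (PowerSeries.C P.1 + PowerSeries.X))) P.2
    (by rw [← pse_eval, cst_pse P hc, h0])
    (by rw [derivative_map, ← pse_eval, cst_pse P hc]; exact h1)
  exact ⟨W, hW1, by rw [pse_eval]; exact hW2⟩

/-- Proof: `0 = g(c + t, W) - g(c + t, W') = (W - W') U`, the constant coefficient of `U` is `g_Y(c, w)`. -/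
theorem Hr.uniq {g : R[X][X]} {P : R × R} {W W' : PowerSeries R} (h : Hr g P W) (h' : Hr g P W')
    (h1 : IsUnit (ev₂ P (dY g))) : W = W' := by
  obtain ⟨G, hG⟩ : ∃ G, G = g.map (eval₂RingHom (PowerSeries.C (R := R))
    (PowerSeries.C P.1 + PowerSeries.X)) := ⟨_, rfl⟩
  have e1 : G.eval W = 0 := by
    rw [hG, ← pse_eval]
    exact h.2
  have e2 : G.eval W' = 0 := by
    rw [hG, ← pse_eval]
    exact h'.2
  have e3 : PowerSeries.constantCoeff (G.derivative.eval W') = ev₂ P (dY g) := by
    rw [hG, derivative_map, ← pse_eval, cst_pse P h'.1]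
    rfl
  obtain ⟨r, hr⟩ := G.binomExpansion W' (W - W')
  rw [add_sub_cancel, e1, e2] at hr
  have h2 : IsUnit (G.derivative.eval W' + r * (W - W')) := by
    rw [PowerSeries.isUnit_iff_constantCoeff, map_add, map_mul, map_sub, h.1, h'.1, sub_self,
      mul_zero, add_zero, e3]
    exact h1
  have h3 : (W - W') * (G.derivative.eval W' + r * (W - W')) = 0 := by
    linear_combination -hr
  exact sub_eq_zero.1 ((h2.mul_left_eq_zero).1 h3)

theorem hrt_hr {g : R[X][X]} {P : R × R} (h0 : ev₂ P g = 0) (h1 : IsUnit (ev₂ P (dY g))) :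
    Hr g P (hrt g P) := by
  have h := exists_hr h0 h1
  unfold hrt
  rw [dif_pos h]
  exact h.choose_spec

theorem hrt_eq {g : R[X][X]} {P : R × R} {W : PowerSeries R} (h : Hr g P W)
    (h1 : IsUnit (ev₂ P (dY g))) : hrt g P = W := by
  have h0 : ∃ W, Hr g P W := ⟨W, h⟩
  unfold hrt
  rw [dif_pos h0]
  exact h0.choose_spec.uniq h h1

/-- Change of the coefficients. -/
theorem pse_map {R' : Type} [CommRing R'] (f : R →+* R') (c : R) (W : PowerSeries R) (A : R[X][X]) :
    pse (f c) (PowerSeries.map f W) (up₂ f A) = PowerSeries.map f (pse c W A) := by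
  have key : (pse (f c) (PowerSeries.map f W)).comp (up₂ f) = (PowerSeries.map f).comp (pse c W) := by
    refine Polynomial.ringHom_ext' (Polynomial.ringHom_ext' (RingHom.ext fun a => ?_) ?_) ?_
    · change pse (f c) (PowerSeries.map f W) (up₂ f (C (C a))) = PowerSeries.map f (pse c W (C (C a)))
      have e : up₂ f (C (C a)) = C (C (f a)) := by simp [up₂]
      rw [e, pse_C, pse_C, PowerSeries.map_C]
    · change pse (f c) (PowerSeries.map f W) (up₂ f (C X)) = PowerSeries.map f (pse c W (C X))
      have e : up₂ f (C X) = C X := by simp [up₂]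
      rw [e, pse_z, pse_z, map_add, PowerSeries.map_C, PowerSeries.map_X]
    · change pse (f c) (PowerSeries.map f W) (up₂ f X) = PowerSeries.map f (pse c W X)
      have e : up₂ f (X : R[X][X]) = X := by simp [up₂]
      rw [e, pse_Y, pse_Y]
  exact congrArg (fun φ => φ A) key

end hens

end GM
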