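import Pool.Agent.Lib.MP_f80667_ag.Gm.GxHb

/-! Cycles with reduction `0` (ZR). -/

open ZC BE PE CV IntermediateField Polynomial

namespace GM

variable {F : Type} [Field F] {N n : ℕ} {G : MvPolynomial (Fin N) F} {K Ω : Type} [Field K]
  [CharZero K] [Field Ω] [Algebra K Ω] [Algebra F K] [Algebra F Ω] [IsScalarTower F K Ω]
  [IsAlgClosure K Ω] {L : Ld K Ω}

/-- **ZR.** Proof: `s` from `exists_eqs`; `z = z - mapDomain s z` (`zr_map`). For all invariant `z` (`cyc_iff`) the cycle `z - mapDomain s z` is in the group: `fx_gen` (`exists_fph`), closure induction; for `z = Nm ⊥ M (single x 1)`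
the cycle is `Nm ⊥ M (single x 1 - single (s x) 1)` (`s` is equivariant: `hom_nm`), `exists_ur`, `eqs_fp`, `ram_near`. -/
theorem gx_zr [L.Unr] (hG : Gi G L n) (hs : Sm G L) (hp : n < L.p) {z : (Xh G).pt Ω →₀ ℤ}
    (hz : z ∈ (Xh G).cyc K Ω) (h : Zr G L z) : z ∈ Dl G L 1 ⊥ ⊔ (Xh G).ratEq K Ω := by
  obtain ⟨s, hs1, hs2, hs3⟩ := exists_eqs (K := K) (L := L) hG hs
  have h0 : Finsupp.mapDomain s z = 0 := (zr_map hG hs2 hs3).1 h
  obtain ⟨T, hT⟩ : ∃ T : ((Xh G).pt Ω →₀ ℤ) →+ ((Xh G).pt Ω →₀ ℤ),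
    T = AddMonoidHom.id _ - Finsupp.mapDomain.addMonoidHom s := ⟨_, rfl⟩
  have hTa : ∀ y, T y = y - Finsupp.mapDomain s y := fun y => by
    rw [hT]
    rfl
  have key : ∀ y : (Xh G).pt Ω →₀ ℤ, Fx (⊥ : IntermediateField K Ω) y →
      T y ∈ Dl G L 1 ⊥ ⊔ (Xh G).ratEq K Ω := by
    intro y hy
    have h1 := fx_gen exists_fph hy
    clear hy
    induction h1 using AddSubgroup.closure_induction with
    | mem y hy =>
      obtain ⟨M, x, -, hM, hx, rfl⟩ := hy
      have h2 : T (Nm (K := K) ⊥ M (Finsupp.single x 1)) =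
          Nm (K := K) ⊥ M (T (Finsupp.single x 1)) := by
        refine hom_nm T bot_le (fun γ _ a => ?_) _
        rw [hTa, hTa, smul_sub, CV.smul_def, CV.smul_def, ← Finsupp.mapDomain_comp,
          ← Finsupp.mapDomain_comp]
        congr 2
        funext P
        exact hs1 γ P
      rw [h2, hTa, Finsupp.mapDomain_single]
      obtain ⟨f, hf0, hf⟩ := exists_ur (L := L) M
      obtain ⟨r, hr, hr1⟩ := hs2 x
      exact ram_near hG hs hp hf hx (eqs_fp hG hs1 hs3 hf hx) hr hr1
    | zero =>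
      rw [map_zero]
      exact zero_mem _
    | add a b _ _ ha hb =>
      rw [map_add]
      exact add_mem ha hb
    | neg a _ ha =>
      rw [map_neg]
      exact neg_mem ha
  have h1 := key z (cyc_iff.1 hz)
  rwa [hTa, h0, sub_zero] at h1

open Classical in
/-- The sum of the coefficients of the points congruent to `y`. -/
private noncomputable def zrh (G : MvPolynomial (Fin N) F) (L : Ld K Ω) (y : (Xh G).pt Ω) :
    ((Xh G).pt Ω →₀ ℤ) →+ ℤ :=
  Finsupp.liftAddHom fun x => if Nea G L x y then AddMonoidHom.id ℤ else 0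

omit [CharZero K] [IsAlgClosure K Ω] in
open Classical in
private theorem zrh_single (y x : (Xh G).pt Ω) (n : ℤ) :
    zrh G L y (Finsupp.single x n) = if Nea G L x y then n else 0 := by
  rw [zrh, Finsupp.liftAddHom_apply_single]
  split_ifs <;> rfl

omit [CharZero K] [IsAlgClosure K Ω] in
private theorem zrh_iff {z : (Xh G).pt Ω →₀ ℤ} : Zr G L z ↔ ∀ y, zrh G L y z = 0 := by
  classical
  refine forall_congr' fun y => ?_
  have h : zrh G L y z =
      ∑ x ∈ z.support.filter (fun x => ∃ r < 1, Nrh G L r x y), z x := by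
    rw [Finset.sum_filter, zrh, Finsupp.liftAddHom_apply, Finsupp.sum]
    refine Finset.sum_congr rfl fun x _ => ?_
    change (if (∃ r < 1, Nrh G L r x y) then AddMonoidHom.id ℤ else 0) (z x) = _
    split_ifs <;> rfl
  rw [h]

/-- The functional `z ↦ ∑ z x`, `x` congruent to `y`, is a homomorphism. -/
theorem zr_add {z z' : (Xh G).pt Ω →₀ ℤ} (h : Zr G L z) (h' : Zr G L z') : Zr G L (z + z') := by
  rw [zrh_iff] at h h' ⊢
  intro y
  rw [map_add, h y, h' y, add_zero]

/-- Displacements are cycles with reduction `0`. Proof: `dsp_fx`, `cyc_iff`. `dsp_gen`, closure induction with `zr_add`; the generator is the sum of the `single (γ y) 1 - single (γ y') 1` (`nm_rep`) and `γ y`, `γ y'` are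
congruent. -/
theorem gx_dl_zr (hG : Gi G L n) {z : (Xh G).pt Ω →₀ ℤ} (hz : z ∈ Dl G L 1 ⊥) :
    z ∈ (Xh G).cyc K Ω ∧ Zr G L z := by
  classical
  refine ⟨cyc_iff.2 (dsp_fx hz), zrh_iff.2 fun c => ?_⟩
  have hz' : z ∈ Dsp L (Xh G) (Nrh G L (L.nm (L.p : Ω) ^ 1)) ⊥ := hz
  rw [dsp_gen] at hz'
  clear hz
  induction hz' using AddSubgroup.closure_induction with
  | mem z hz =>
    obtain ⟨M', y, y', he, h4, h5, h6, rfl⟩ := hz
    have := he.fd
    obtain ⟨t, -, -, -, h⟩ := nm_rep he.1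
    rw [h, map_sum]
    refine Finset.sum_eq_zero fun γ _ => ?_
    rw [smul_sub, smul_single, smul_single, map_sub, zrh_single, zrh_single]
    have h7 : Nea G L y y' := ⟨_, by rw [pow_one]; exact L.lt, h6⟩
    have h8 : Nea G L ((Xh G).act γ y) c ↔ Nea G L ((Xh G).act γ y') c :=
      ⟨fun h9 => Nea.trans hG (Nea.act γ h7).symm h9, fun h9 => Nea.trans hG (Nea.act γ h7) h9⟩
    rw [if_congr h8 rfl rfl, sub_self]
  | zero => exact map_zero _
  | add a b _ _ ha hb => rw [map_add, ha, hb, add_zero]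
  | neg a _ ha => rw [map_neg, ha, neg_zero]

end GM
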