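import Pool.Agent.Lib.MP_f80667_ag.Gm.GxFb
import Pool.Agent.Lib.MP_f80667_ag.Gm.GxHc

/-! Consequences of the moving lemma. -/

open ZC BE PE CV IntermediateField

namespace GM

variable {F : Type} [Field F] {N n : ℕ} {G : MvPolynomial (Fin N) F} {K Ω : Type} [Field K]
  [CharZero K] [Field Ω] [Algebra K Ω] [Algebra F K] [Algebra F Ω] [IsScalarTower F K Ω]
  [IsAlgClosure K Ω] {L : Ld K Ω}

/-- **JEN.** The points with the coordinates `x₁`, `x₂`, `x₃`, `x₃` the midpoint of `x₁` and `x₂` modulo `p ^ 2`. Proof: `la` with `a = x₁ + z (x₂ - x₁) / p`,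
`f = z (z - p)`, `g = (z - p / 2) ^ 2`, `l = 1`, `s = 2`. -/
theorem jen [L.Unr] (hG : Gi G L n) (hp : 2 < L.p) {M : IntermediateField K Ω} (hM : Um L M)
    {v : Fin N → Ω} (hv : Iv L M v) {x₁ x₂ x₃ : Fin N → Ω} (h₁ : Iv L M x₁) (h₂ : Iv L M x₂)
    (h₃ : Iv L M x₃) (hl : Gl G L x₁ v) (h₁₂ : ∀ i, L.nm (x₂ i - x₁ i) ≤ L.nm (L.p : Ω))
    (h₁₃ : ∀ i, L.nm (2 * x₃ i - x₁ i - x₂ i) ≤ L.nm (L.p : Ω) ^ 2) {P₁ P₂ P₃ : (Xh G).pt Ω}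
    (hP₁ : Co P₁ x₁) (hP₂ : Co P₂ x₂) (hP₃ : Co P₃ x₃) :
    (Finsupp.single P₁ 1 + Finsupp.single P₂ 1 - Finsupp.single P₃ 2 : (Xh G).pt Ω →₀ ℤ) ∈
      Dl G L 2 M ⊔ (Xh G).ratEq M Ω := by
  exact gx_jen hG hp hM hv h₁ h₂ h₃ hl h₁₂ h₁₃ hP₁ hP₂ hP₃

/-- **D1.** Displacements are divisible by `l`. -/
theorem d1 [L.Unr] (hG : Gi G L n) (hs : Sm G L) (hp : n < L.p) {l u s : ℕ} (hl : l.Prime)
    (hu : L.nm (l : Ω) = L.nm (L.p : Ω) ^ u) (hus : u < (l - 1) * s) :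
    ∀ z ∈ Dl G L (s + u) ⊥, ∃ z' ∈ Dl G L s ⊥, z - l • z' ∈ (Xh G).ratEq K Ω := by
  exact gx_d1 hG hs hp hl hu hus

/-- **RAM.** A point over `M` and a point over the unramified part of `M`. -/
theorem ram [L.Unr] (hG : Gi G L n) (hs : Sm G L) (hp : n < L.p) {M : IntermediateField K Ω}
    [FiniteDimensional K M] {x : (Xh G).pt Ω} (hx : Fp (Xh G) M x) :
    ∃ (M₀ : IntermediateField K Ω) (x₀ : (Xh G).pt Ω) (e : ℕ), M₀ ≤ M ∧ Um L M₀ ∧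
      Fp (Xh G) M₀ x₀ ∧ (∃ r < 1, Nrh G L r x x₀) ∧
      Module.finrank K M = e * Module.finrank K M₀ ∧
      rtr (Xh G) ⊥ M (Finsupp.single x 1) - e • rtr (Xh G) ⊥ M₀ (Finsupp.single x₀ 1) ∈
        Dl G L 1 ⊥ ⊔ (Xh G).ratEq K Ω := by
  exact gx_ram hG hs hp hx

/-- **ZR.** Cycles with reduction `0` are displacements. Proof: orbits, `ram`. -/
theorem zr [L.Unr] (hG : Gi G L n) (hs : Sm G L) (hp : n < L.p) {z : (Xh G).pt Ω →₀ ℤ}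
    (hz : z ∈ (Xh G).cyc K Ω) (h : Zr G L z) : z ∈ Dl G L 1 ⊥ ⊔ (Xh G).ratEq K Ω := by
  exact gx_zr hG hs hp hz h

/-- Displacements are cycles with reduction `0`. -/
theorem dl_zr (hG : Gi G L n) {z : (Xh G).pt Ω →₀ ℤ} (hz : z ∈ Dl G L 1 ⊥) :
    z ∈ (Xh G).cyc K Ω ∧ Zr G L z := by
  exact gx_dl_zr hG hz

end GM
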