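import Pool.Agent.Lib.MP_f80667_ag.Gm.GsBt

/-! Good lines and their points. -/

open ZC BE PE CV IntermediateField

namespace GM

section pol

variable {R : Type} [Field R] {N n : ℕ}

private theorem gsbg_one (a b : R) (d : ℕ) :
    ((Polynomial.C a + Polynomial.C b * Polynomial.X) ^ d).natDegree ≤ d ∧
    ((Polynomial.C a + Polynomial.C b * Polynomial.X) ^ d).coeff d = b ^ d := by
  have h1 : (Polynomial.C a + Polynomial.C b * Polynomial.X).natDegree ≤ 1 := by
    rw [add_comm]
    exact Polynomial.natDegree_linear_le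
  refine ⟨(Polynomial.natDegree_pow_le_of_le d h1).trans (by rw [mul_one]), ?_⟩
  have h2 := Polynomial.coeff_pow_of_natDegree_le (m := d) h1
  rw [mul_one] at h2
  rw [h2]
  simp

private theorem gsbg_prod (s : Finset (Fin N)) (b v : Fin N → R) (d : Fin N → ℕ) :
    (∏ i ∈ s, (Polynomial.C (b i) + Polynomial.C (v i) * Polynomial.X) ^ d i).natDegree ≤
      ∑ i ∈ s, d i ∧
    (∏ i ∈ s, (Polynomial.C (b i) + Polynomial.C (v i) * Polynomial.X) ^ d i).coeff
      (∑ i ∈ s, d i) = ∏ i ∈ s, v i ^ d i := by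
  classical
  induction s using Finset.induction_on with
  | empty => simp
  | insert a s ha ih =>
    rw [Finset.prod_insert ha, Finset.sum_insert ha, Finset.prod_insert ha]
    obtain ⟨h1, h2⟩ := gsbg_one (b a) (v a) (d a)
    refine ⟨Polynomial.natDegree_mul_le_of_le h1 ih.1, ?_⟩
    rw [Polynomial.coeff_mul_add_eq_of_natDegree_le h1 ih.1, h2, ih.2]

private theorem gsbg_sum {H : MvPolynomial (Fin N) R} (hH : H.IsHomogeneous n) {d : Fin N →₀ ℕ}
    (hd : d ∈ H.support) : ∑ i, d i = n := by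
  have h1 := hH (MvPolynomial.mem_support_iff.1 hd)
  rw [← h1]
  simp [Finsupp.weight_apply, Finsupp.sum_fintype]

private theorem gsbg_deg {H : MvPolynomial (Fin N) R} (hH : H.IsHomogeneous n)
    (v b : Fin N → R) :
    (gl H v b).natDegree ≤ n ∧ (gl H v b).coeff n = MvPolynomial.eval v H := by
  have h0 : gl H v b = ∑ d ∈ H.support, Polynomial.C (H.coeff d) *
      ∏ i, (Polynomial.C (b i) + Polynomial.C (v i) * Polynomial.X) ^ d i := by
    unfold gl
    rw [MvPolynomial.aeval_def, MvPolynomial.eval₂_eq']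
    rfl
  have h1 : ∀ d ∈ H.support,
      (∏ i, (Polynomial.C (b i) + Polynomial.C (v i) * Polynomial.X) ^ d i).natDegree ≤ n ∧
      (∏ i, (Polynomial.C (b i) + Polynomial.C (v i) * Polynomial.X) ^ d i).coeff n =
        ∏ i, v i ^ d i := by
    intro d hd
    have h2 := gsbg_prod Finset.univ b v d
    rw [gsbg_sum hH hd] at h2
    exact h2
  constructor
  · rw [h0]
    refine Polynomial.natDegree_sum_le_of_forall_le _ _ fun d hd => ?_
    exact (Polynomial.natDegree_C_mul_le _ _).trans (h1 d hd).1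
  · rw [h0, Polynomial.finsetSum_coeff, MvPolynomial.eval_eq']
    refine Finset.sum_congr rfl fun d hd => ?_
    rw [Polynomial.coeff_C_mul, (h1 d hd).2]

private theorem gsbg_smul {H : MvPolynomial (Fin N) R} (hH : H.IsHomogeneous n) (c : R)
    (y : Fin N → R) : MvPolynomial.eval (fun i => c * y i) H = c ^ n * MvPolynomial.eval y H := by
  rw [MvPolynomial.eval_eq', MvPolynomial.eval_eq', Finset.mul_sum]
  refine Finset.sum_congr rfl fun d hd => ?_
  have h1 : ∏ i, (c * y i) ^ d i = c ^ n * ∏ i, y i ^ d i := by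
    rw [Finset.prod_congr rfl fun i _ => mul_pow c (y i) (d i), Finset.prod_mul_distrib,
      Finset.prod_pow_eq_pow_sum, gsbg_sum hH hd]
  rw [h1]
  ring

private theorem gsbg_map {S : Type} [Field S] (f : R →+* S) (H : MvPolynomial (Fin N) R)
    (v b : Fin N → R) :
    gl (MvPolynomial.map f H) (fun i => f (v i)) (fun i => f (b i)) = (gl H v b).map f := by
  unfold gl
  induction H using MvPolynomial.induction_on with
  | C a => simp
  | add p q hp hq => rw [map_add, map_add, hp, hq, map_add, Polynomial.map_add]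
  | mul_X p i hp =>
    rw [map_mul, MvPolynomial.map_X, map_mul, MvPolynomial.aeval_X, hp, map_mul,
      MvPolynomial.aeval_X, Polynomial.map_mul]
    simp

end pol

variable {F : Type} [Field F] {N n : ℕ} {G : MvPolynomial (Fin N) F} {K Ω : Type} [Field K]
  [CharZero K] [Field Ω] [Algebra K Ω] [Algebra F K] [Algebra F Ω] [IsScalarTower F K Ω]
  [IsAlgClosure K Ω] {L : Ld K Ω} {k : Subfield L.κ} {g : MvPolynomial (Fin N) k}

omit [CharZero K] [Algebra F K] [IsScalarTower F K Ω] [IsAlgClosure K Ω] [Field K] [Algebra K Ω] in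
private theorem gsbg_ev (y : Fin N → Ω) : MvPolynomial.aeval y G =
    MvPolynomial.eval y (MvPolynomial.map (algebraMap F Ω) G) := by
  rw [MvPolynomial.eval_map, MvPolynomial.aeval_def]

omit [CharZero K] [Algebra F K] [IsScalarTower F K Ω] [IsAlgClosure K Ω] in
private theorem gsbg_top (hg : Rdp L k G g) : Rdp L (⊤ : Subfield L.κ) G
    (MvPolynomial.map (Subfield.inclusion (le_top : k ≤ ⊤)) g) := by
  intro d
  rw [MvPolynomial.coeff_map]
  exact hg d

/-- **Good lines.** Proof: the residues of `G (x + w v)` and `dGo G (x + w v) v` are the values of `gl g v y` and its derivative at the residue of `w` (`Rdp.aeval`, `Rdp.dG` with `w` in `L.κ`: extend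
`k` to `⊤`, or directly); `gl g v y` is separable over `k`, so it has no double roots in `L.κ`. -/
theorem gl_lift (hG : Gi G L n) (hg : Rdp L k G g) {x v : Fin N → Ω} {y u : Fin N → k}
    (hx : Rdv L k x y) (hv : Rdv L k v u) (h0 : MvPolynomial.eval u g ≠ 0)
    (h : (gl g u y).Separable) : Gl G L x v := by
  refine ⟨(L.hv_ne (hg.aeval hv)).1 fun h1 => h0 (Subtype.ext h1), fun w hw hGw => ?_⟩
  set f : k →+* (⊤ : Subfield L.κ) := Subfield.inclusion (le_top : k ≤ ⊤) with hf
  have hg' := gsbg_top hg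
  rw [← hf] at hg'
  have hx' : Rdv L (⊤ : Subfield L.κ) x (fun i => f (y i)) := hx
  have hv' : Rdv L (⊤ : Subfield L.κ) v (fun i => f (u i)) := hv
  obtain ⟨r, hr⟩ := L.hv_of hw
  have hr' : L.rs.Hv w (((⟨r, trivial⟩ : (⊤ : Subfield L.κ)) : L.κ)) := hr
  have hX := hx'.add (hv'.smul hr')
  have hX2 : Rdv L (⊤ : Subfield L.κ) (fun i => x i + w * v i)
      ((fun i => f (y i)) + (⟨r, trivial⟩ : (⊤ : Subfield L.κ)) • fun i => f (u i)) := hX
  have h2 := hg'.aeval hX2
  have hsep : (gl (MvPolynomial.map f g) (fun i => f (u i)) (fun i => f (y i))).Separable := by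
    rw [gsbg_map]
    exact h.map
  have hroot : (gl (MvPolynomial.map f g) (fun i => f (u i)) (fun i => f (y i))).IsRoot
      (⟨r, trivial⟩ : (⊤ : Subfield L.κ)) := by
    rw [Polynomial.IsRoot.def, gl_eval]
    refine Subtype.ext ?_
    exact h2.uniq (L.hv_zero.2 hGw)
  have h3 := (tg_pw (u := 0) (hg'.hom hG.hom) hG.two hsep hroot).2
  have h4 := hg'.dG hX2 hv'
  exact (L.hv_ne h4).1 fun h5 => h3 (Subtype.ext h5)

/-- Roots are integral. Proof: `G (x + w v) = w ^ n G (v) + ..`. -/
private theorem gsbg_int (hG : Gi G L n) {x v : Fin N → Ω} (hx : ∀ i, L.nm (x i) ≤ 1)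
    (hv : ∀ i, L.nm (v i) ≤ 1) (hl : L.nm (MvPolynomial.aeval v G) = 1) {w : Ω}
    (hw : MvPolynomial.aeval (fun i => x i + w * v i) G = 0) : L.nm w ≤ 1 := by
  by_contra hcon
  rw [not_le] at hcon
  have hw0 : w ≠ 0 := L.ne_zero (zero_lt_one.trans hcon)
  have hu : L.nm w⁻¹ < 1 := by
    rw [L.inv]
    exact inv_lt_one_of_one_lt₀ hcon
  have h1 : MvPolynomial.aeval (fun i => w⁻¹ * (x i + w * v i)) G = 0 := by
    rw [gsbg_ev, gsbg_smul (hG.hom.map _), ← gsbg_ev, hw, mul_zero]
  have h2 : ∀ i, L.nm (w⁻¹ * (x i + w * v i) - v i) ≤ L.nm w⁻¹ := by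
    intro i
    have e : w⁻¹ * (x i + w * v i) - v i = w⁻¹ * x i := by
      field_simp
      ring
    rw [e, L.mul]
    exact mul_le_of_le_one_right (L.nonneg _) (hx i)
  have h3 : ∀ i, L.nm (w⁻¹ * (x i + w * v i)) ≤ 1 := by
    intro i
    have e : w⁻¹ * (x i + w * v i) = (w⁻¹ * (x i + w * v i) - v i) + v i := by ring
    rw [e]
    exact (L.add _ _).trans (max_le ((h2 i).trans hu.le) (hv i))
  have h4 := gi_cong hG h3 hv (L.nonneg _) h2
  rw [h1, zero_sub, L.neg, hl] at h4
  exact absurd hu (not_lt.2 h4)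

/-- Roots with the same residue are equal. -/
private theorem gsbg_uniq (hG : Gi G L n) {x v : Fin N → Ω} (hx : ∀ i, L.nm (x i) ≤ 1)
    (hv : ∀ i, L.nm (v i) ≤ 1) (hl : Gl G L x v) {w w' : Ω}
    (hw : MvPolynomial.aeval (fun i => x i + w * v i) G = 0)
    (hw' : MvPolynomial.aeval (fun i => x i + w' * v i) G = 0)
    (hww : L.nm (w - w') < 1) : w = w' := by
  have hi' := gsbg_int hG hx hv hl.lead hw'
  have hX : ∀ i, L.nm (x i + w' * v i) ≤ 1 := fun i =>
    (L.add _ _).trans (max_le (hx i) (by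
      rw [L.mul]
      exact mul_le_one₀ hi' (L.nonneg _) (hv i)))
  have h1 := gi_taylor hG hX hv hww.le
  have e : (fun i => (x i + w' * v i) + (w - w') * v i) = fun i => x i + w * v i := by
    funext i
    ring
  rw [e, hw, hw', sub_zero, zero_sub, L.neg, L.mul,
    hl.sep w' hi' (by rw [hw', L.zero]; exact zero_lt_one), mul_one] at h1
  by_contra hne
  have h2 : 0 < L.nm (w - w') := L.pos (sub_ne_zero.2 hne)
  rw [pow_two] at h1
  exact absurd (mul_lt_of_lt_one_right h2 hww) (not_lt.2 h1)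

/-- A root of a good line whose residue is the residue of an element of `M` is in `M`. Proof: it is fixed by the automorphisms over `M`: its conjugates over `M` are roots
of the same line with the same residue (`w` is congruent to an element of `M`), and congruent roots are equal (`Gl.sep`, `gi_taylor` in one variable). -/
theorem root_mem (hG : Gi G L n) {M : IntermediateField K Ω} {x v : Fin N → Ω} (hx : Iv L M x)
    (hv : Iv L M v) (hl : Gl G L x v) {w w' : Ω}
    (hw : MvPolynomial.aeval (fun i => x i + w * v i) G = 0) (hw' : w' ∈ M)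
    (hww : L.nm (w - w') < 1) : w ∈ M := by
  have hgal : IsGalois K Ω := by
    have hn : Normal K Ω := IsAlgClosure.normal K Ω
    exact ⟨⟩
  rw [← InfiniteGalois.fixedField_fixingSubgroup M, IntermediateField.mem_fixedField_iff]
  intro γ hγ
  have hfix : ∀ z ∈ M, γ z = z := fun z hz =>
    (IntermediateField.mem_fixingSubgroup_iff M γ).1 hγ z hz
  have h1 : MvPolynomial.aeval (fun i => x i + γ w * v i) G = 0 := by
    have h2 := congrArg ((γ.restrictScalars F : Ω ≃ₐ[F] Ω) : Ω →ₐ[F] Ω) hw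
    rw [map_zero, MvPolynomial.comp_aeval_apply] at h2
    have e : (fun i => ((γ.restrictScalars F : Ω ≃ₐ[F] Ω) : Ω →ₐ[F] Ω) (x i + w * v i)) =
        fun i => x i + γ w * v i := by
      funext i
      change γ (x i + w * v i) = _
      rw [map_add, map_mul, hfix _ (hx i).1, hfix _ (hv i).1]
    rw [e] at h2
    exact h2
  have h2 : L.nm (γ w - w) < 1 := by
    have h3 : L.nm (γ w - w') < 1 := by
      have e : γ w - w' = γ (w - w') := by rw [map_sub, hfix _ hw']
      rw [e, L.act]
      exact hww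
    have e : γ w - w = (γ w - w') - (w - w') := by ring
    rw [e]
    exact (L.sub _ _).trans_lt (max_lt h3 hww)
  exact gsbg_uniq hG (fun i => (hx i).2) (fun i => (hv i).2) hl h1 hw h2

/-- Roots with the same residue are equal. -/
theorem root_uniq (hG : Gi G L n) {x v : Fin N → Ω} (hx : ∀ i, L.nm (x i) ≤ 1)
    (hv : ∀ i, L.nm (v i) ≤ 1) (hl : Gl G L x v) {w w' : Ω}
    (hw : MvPolynomial.aeval (fun i => x i + w * v i) G = 0)
    (hw' : MvPolynomial.aeval (fun i => x i + w' * v i) G = 0)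
    (hww : L.nm (w - w') < 1) : w = w' := gsbg_uniq hG hx hv hl hw hw' hww

/-- Roots are integral. Proof: `G (x + w v) = w ^ n G (v) + ..`. -/
theorem root_int (hG : Gi G L n) {x v : Fin N → Ω} (hx : ∀ i, L.nm (x i) ≤ 1)
    (hv : ∀ i, L.nm (v i) ≤ 1) (hl : L.nm (MvPolynomial.aeval v G) = 1) {w : Ω}
    (hw : MvPolynomial.aeval (fun i => x i + w * v i) G = 0) : L.nm w ≤ 1 :=
  gsbg_int hG hx hv hl hw

omit [CharZero K] [IsAlgClosure K Ω] in
private theorem gsbg_ms (t : Ω) (s : Multiset Ω) (h : ∀ w ∈ s, 1 ≤ L.nm (t - w)) :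
    1 ≤ L.nm (s.map fun w => t - w).prod := by
  induction s using Multiset.induction_on with
  | empty => simp [L.one]
  | cons a s ih =>
    rw [Multiset.map_cons, Multiset.prod_cons, L.mul]
    exact one_le_mul_of_one_le_of_one_le (h a (Multiset.mem_cons_self a s))
      (ih fun w hw => h w (Multiset.mem_cons_of_mem hw))

/-- Every root of the reduction is the residue of a root. Proof: `Ω` and `L.κ` are algebraically closed: the polynomial `G (x + Y v)` is `G (v) ∏ (Y - w_i)`, its reduction is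
`gl g u y`. -/
theorem root_lift (hG : Gi G L n) (hg : Rdp L k G g) {x v : Fin N → Ω} {y u : Fin N → k}
    (hx : Rdv L k x y) (hv : Rdv L k v u) (h0 : MvPolynomial.eval u g ≠ 0) {t : k}
    (ht : (gl g u y).IsRoot t) :
    ∃ w, MvPolynomial.aeval (fun i => x i + w * v i) G = 0 ∧ L.rs.Hv w (t : L.κ) := by
  have hcl : IsAlgClosed Ω := IsAlgClosure.isAlgClosed K
  obtain ⟨t0, ht0⟩ := L.hv_surj (t : L.κ)
  have hl : L.nm (MvPolynomial.aeval v G) = 1 :=
    (L.hv_ne (hg.aeval hv)).1 fun h1 => h0 (Subtype.ext h1)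
  set H : MvPolynomial (Fin N) Ω := MvPolynomial.map (algebraMap F Ω) G with hH
  have hev : ∀ w, (gl H v x).eval w = MvPolynomial.aeval (fun i => x i + w * v i) G := by
    intro w
    rw [gl_eval, gsbg_ev]
    rfl
  obtain ⟨hd1, hd2⟩ := gsbg_deg (n := n) (hG.hom.map (algebraMap F Ω)) v x
  rw [← hH, ← gsbg_ev] at hd2
  rw [← hH] at hd1
  have hd3 : (gl H v x).coeff n ≠ 0 := by
    rw [hd2]
    exact L.ne_zero (by rw [hl]; exact zero_lt_one)
  have hd4 : (gl H v x).natDegree = n :=
    le_antisymm hd1 (Polynomial.le_natDegree_of_ne_zero hd3)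
  have hlead : L.nm (gl H v x).leadingCoeff = 1 := by
    rw [Polynomial.leadingCoeff, hd4, hd2, hl]
  have hne : gl H v x ≠ 0 := fun h => hd3 (by rw [h, Polynomial.coeff_zero])
  have hsmall : L.nm ((gl H v x).eval t0) < 1 := by
    rw [hev]
    have h1 := hg.aeval (hx.add (hv.smul ht0))
    have h2 : MvPolynomial.eval (y + t • u) g = 0 := by
      rw [← gl_eval]
      exact ht
    rw [h2] at h1
    exact L.hv_zero.1 h1
  have hprod := (IsAlgClosed.splits (gl H v x)).eq_prod_roots
  have hev2 : (gl H v x).eval t0 =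
      (gl H v x).leadingCoeff * ((gl H v x).roots.map fun w => t0 - w).prod := by
    conv_lhs => rw [hprod]
    rw [Polynomial.eval_mul, Polynomial.eval_C, Polynomial.eval_multiset_prod, Multiset.map_map]
    simp
  have hex : ∃ w ∈ (gl H v x).roots, L.nm (t0 - w) < 1 := by
    by_contra hcon
    push Not at hcon
    have h1 := gsbg_ms (L := L) t0 _ hcon
    rw [hev2, L.mul, hlead, one_mul] at hsmall
    exact absurd hsmall (not_lt.2 h1)
  obtain ⟨w, hw, hwt⟩ := hex
  refine ⟨w, ?_, ?_⟩
  · rw [← hev]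
    exact (Polynomial.mem_roots hne).1 hw
  · have h1 : L.rs.Hv (w - t0) 0 := L.hv_zero.2 (by
      rw [← L.neg, neg_sub]
      exact hwt)
    have h2 := ht0.add h1
    rwa [add_zero, add_sub_cancel] at h2

end GM
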