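import Pool.Agent.Lib.MP_f80667_ag.Gm.GsBh
import Pool.Agent.Lib.MP_f80667_ag.Gm.GsBg
import Pool.Agent.Lib.MP_f80667_ag.Gm.GeB

/-!
The function `T` of a homomorphism `λ` from the cycles to an abelian group which is `0` on the cycles rationally equivalent to `0` and on the displacements of
level `2`.

* `Lm G L lam`: the hypotheses on `lam`. `Mu L M R s`: the extension `L.Ur M (R s)` of degree `s` of `M`.
* `vl lam M R s P P'`: `s⁻¹ lam (tr ([P'] - [P]))`, the trace from `Mu L M R s` to `K`.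
* `Tv lam M R y u b`: `b` is the value of `T` at the point `y` and the tangent vector `u`. `Tf lam M R g`: the function `T`.
-/

open ZC BE PE CV IntermediateField

namespace GM

variable {F : Type} [Field F] {N n : ℕ} (G : MvPolynomial (Fin N) F) {K Ω : Type} [Field K]
  [CharZero K] [Field Ω] [Algebra K Ω] [Algebra F K] [Algebra F Ω] [IsScalarTower F K Ω]
  [IsAlgClosure K Ω] (L : Ld K Ω)

/-- The hypotheses on `lam`. -/
structure Lm {B : Type} [AddCommGroup B] (lam : ((Xh G).pt Ω →₀ ℤ) →+ B) : Prop where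
  rat : ∀ z ∈ (Xh G).ratEq K Ω, lam z = 0
  two : ∀ z ∈ Dl G L 2 (⊥ : IntermediateField K Ω), lam z = 0
  tor : ∀ z ∈ Dl G L 1 (⊥ : IntermediateField K Ω), L.p • lam z = 0

/-- The union of the extensions of degree prime to `p` of the residue field of `M`, `R` the degree of the residue field. -/
noncomputable abbrev kI (R : ℕ) : Subfield L.κ := kJ L R (Jc L.p L.pp)

/-- The extension of degree `s`. -/
noncomputable abbrev Mu (M : IntermediateField K Ω) (R s : ℕ) : IntermediateField K Ω :=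
  L.Ur M (R * s)

variable {G} in
/-- `s⁻¹ lam (tr ([P'] - [P]))`. -/
noncomputable def vl {B : Type} [AddCommGroup B] (lam : ((Xh G).pt Ω →₀ ℤ) →+ B)
    (M : IntermediateField K Ω) (R s : ℕ) (P P' : (Xh G).pt Ω) : B :=
  ((s : ZMod L.p)⁻¹).val •
    lam (rtr (Xh G) ⊥ (Mu L M R s) (Finsupp.single P' 1 - Finsupp.single P 1))

variable {G} in
/-- `b` is the value of `T` at `y`, `u`. -/
def Tv {B : Type} [AddCommGroup B] (lam : ((Xh G).pt Ω →₀ ℤ) →+ B)
    (M : IntermediateField K Ω) (R : ℕ) (y u : Fin N → kI L R) (b : B) : Prop :=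
  ∃ s : ℕ, ¬ L.p ∣ s ∧ ∃ (x x' : Fin N → Ω) (P P' : (Xh G).pt Ω), Iv L (Mu L M R s) x ∧
    Iv L (Mu L M R s) x' ∧ Co P x ∧ Co P' x' ∧ Rdv L (kI L R) x y ∧
    (∀ i, L.rs.Hv ((x' i - x i) / (L.p : Ω)) (u i : L.κ)) ∧ b = vl L lam M R s P P'

open Classical in
variable {G} in
/-- The function `T`. -/
noncomputable def Tf {B : Type} [AddCommGroup B] (lam : ((Xh G).pt Ω →₀ ℤ) →+ B)
    (M : IntermediateField K Ω) (R : ℕ) (g : MvPolynomial (Fin N) (kI L R))
    (y u : Fin N → kI L R) : B :=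
  if h : Tg g y u ∧ ∃ b, Tv L lam M R y u b then h.2.choose else 0

variable {G L}

/-- The unramified extension `Mu`. -/
theorem mu_um {M : IntermediateField K Ω} (hM : Um L M) {R s : ℕ} (hR : R ≠ 0) (hs : s ≠ 0) :
    Um L (Mu L M R s) :=
  hM.up ⟨Ld.ur_le, R * s, mul_ne_zero hR hs, le_rfl⟩

theorem mu_mono {M : IntermediateField K Ω} {R s : ℕ} (s' : ℕ) :
    Mu L M R s ≤ Mu L M R (s * s') :=
  Ld.ur_dvd M ⟨s', (mul_assoc R s s').symm⟩

/-- Proof: `Ld.ur_cyc`, `rf_frob` or `ur_nm`: the degree of `Mu L M R s` over `M` is `s`. -/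
theorem mu_rank {M : IntermediateField K Ω} (hM : Um L M) {R s : ℕ} (hR : L.Rf M R)
    (hs : s ≠ 0) : Module.finrank K (Mu L M R s) = s * Module.finrank K M := by
  have hfM : FiniteDimensional K M := hM.fd
  obtain ⟨φ, q, hφ⟩ := exists_frob L.toLf M
  rw [Ld.rf_frob hR hφ] at hφ
  have hfd : FiniteDimensional K (L.Ur M (R * s)) := Ld.ur_fin M _ (mul_ne_zero hR.ne hs)
  obtain ⟨S, h1, -, -, h2⟩ := nm_rep (K := K) (Ω := Ω) (M := M) (N := L.Ur M (R * s)) Ld.ur_le
  have hP : Fx (L.Ur M (R * s)) (1 : Ω) := fun γ _ => map_one γ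
  have h3 := Ld.ur_nm hφ hR.ne hs hP
  have h6 : ∀ γ : Ω ≃ₐ[K] Ω, γ • (1 : Ω) = 1 := fun γ => map_one γ
  rw [h2 Ω 1, Finset.sum_congr rfl fun γ _ => h6 γ] at h3
  rw [Finset.sum_congr (g := fun _ => (1 : Ω)) rfl fun i _ => h6 (φ ^ i), Finset.sum_const,
    Finset.sum_const, Finset.card_range, nsmul_eq_mul, nsmul_eq_mul, mul_one, mul_one] at h3
  have hcz : CharZero Ω := charZero_of_injective_algebraMap (algebraMap K Ω).injective
  have h4 : S.card = s := by exact_mod_cast h3
  have h5 := relIndex_fix (K := K) (Ω := Ω) (M := M) (N := L.Ur M (R * s)) Ld.ur_le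
  rw [← h1, h4] at h5
  exact h5.symm

/-- The trace of a cycle over `M` from `M'` is a multiple of the trace from `M`. Proof: `rtr_eq`, `Pe`: the norm from `M'` to `M` of an invariant cycle is the multiple by the degree
(`nm_tr` and the norm of a fixed element). -/
theorem rtr_mul {V : Vr F} [Hf V] {M M' : IntermediateField K Ω} [FiniteDimensional K M']
    (h : M ≤ M') {d : ℕ} (hd : Module.finrank K M' = d * Module.finrank K M)
    {z : V.pt Ω →₀ ℤ} (hz : Fx M z) : rtr V ⊥ M' z = d • rtr V ⊥ M z := by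
  have hfM : FiniteDimensional K M :=
    FiniteDimensional.of_injective (IntermediateField.inclusion h).toLinearMap
      (IntermediateField.inclusion_injective h)
  rw [rtr_eq bot_le, rtr_eq bot_le, nm_tr bot_le h (hz.mono h), ← nm_nsmul bot_le]
  congr 1
  obtain ⟨S, h1, h3, -, h2⟩ := nm_rep (K := K) (Ω := Ω) h
  rw [h2 _ z, Finset.sum_congr rfl fun γ hγ => hz γ (h3 γ hγ), Finset.sum_const, h1]
  have h5 := relIndex_fix h
  rw [hd] at h5
  rw [mul_right_cancel₀ (Module.finrank_pos (R := K) (M := M)).ne' h5]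

end GM
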