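import Pool.Agent.Lib.MP_f80667_ag.Gm.GyA

/-!
The order of a function with a simple zero.
-/

open Polynomial

namespace GM

section ring

variable {R : Type} [CommRing R]

private theorem gyAo_pse (c : R) (W : PowerSeries R) (A : R[X][X]) :
    pse c W A = ev₂ (PowerSeries.C c + PowerSeries.X, W) (up₂ (PowerSeries.C (R := R)) A) := by
  have key : pse c W = (ev₂ (PowerSeries.C c + PowerSeries.X, W)).comp
      (up₂ (PowerSeries.C (R := R))) := by
    refine Polynomial.ringHom_ext' (Polynomial.ringHom_ext' (RingHom.ext fun a => ?_) ?_) ?_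
    · change pse c W (C (C a)) = ev₂ _ (up₂ (PowerSeries.C (R := R)) (C (C a)))
      rw [pse_C]
      simp [up₂, ev₂]
    · change pse c W (C X) = ev₂ _ (up₂ (PowerSeries.C (R := R)) (C X))
      rw [pse_z]
      simp [up₂, ev₂]
    · change pse c W X = ev₂ _ (up₂ (PowerSeries.C (R := R)) X)
      rw [pse_Y]
      simp [up₂, ev₂]
  exact congrArg (fun φ => φ A) key

/-- The coefficient of `t` of `A(c + t, W)`. Proof: `tay₂` in the ring of power series. -/
theorem cf_one {P : R × R} {W : PowerSeries R} (h : PowerSeries.constantCoeff W = P.2)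
    (A : R[X][X]) : PowerSeries.coeff 1 (pse P.1 W A) =
      ev₂ P (dZ A) + ev₂ P (dY A) * PowerSeries.coeff 1 W := by
  obtain ⟨V, hV⟩ : (PowerSeries.X : PowerSeries R) ∣ W - PowerSeries.C P.2 := by
    rw [PowerSeries.X_dvd_iff, map_sub, h, PowerSeries.constantCoeff_C, sub_self]
  have hW : W = PowerSeries.C P.2 + PowerSeries.X * V := by
    rw [← hV]
    ring
  have hW1 : PowerSeries.coeff 1 W = PowerSeries.constantCoeff V := by
    rw [hW, map_add, PowerSeries.coeff_C, if_neg one_ne_zero, zero_add,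
      show (1 : ℕ) = 0 + 1 from rfl, PowerSeries.coeff_succ_X_mul,
      PowerSeries.coeff_zero_eq_constantCoeff_apply]
  obtain ⟨k₁, k₂, k₃, hk⟩ := tay₂ (up₂ (PowerSeries.C (R := R)) A) (PowerSeries.C P.1)
    (PowerSeries.C P.2) PowerSeries.X (PowerSeries.X * V)
  rw [ev_up, dZ_up, dY_up, ev_up, ev_up, ← hW, ← gyAo_pse] at hk
  have e : pse P.1 W A = PowerSeries.C (ev₂ P A) + PowerSeries.X *
      (PowerSeries.C (ev₂ P (dZ A)) + PowerSeries.C (ev₂ P (dY A)) * V +
        PowerSeries.X * (k₁ + k₂ * V + k₃ * V ^ 2)) := by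
    rw [hk]
    ring
  rw [e, map_add, PowerSeries.coeff_C, if_neg one_ne_zero, zero_add,
    show (1 : ℕ) = 0 + 1 from rfl, PowerSeries.coeff_succ_X_mul,
    PowerSeries.coeff_zero_eq_constantCoeff_apply, map_add, map_add, map_mul, map_mul,
    PowerSeries.constantCoeff_C, PowerSeries.constantCoeff_C, PowerSeries.constantCoeff_X,
    zero_mul, add_zero, ← hW1]

end ring

section fld

variable {k : Type} [Field k] {g x : k[X][X]} {P : k × k}

/-- Proof: `cst_pse`, `hrt_hr`. -/
theorem odp_zero (h0 : ev₂ P g = 0) (h1 : ev₂ P (dY g) ≠ 0) (hx : ev₂ P x ≠ 0) :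
    odp g P x = 0 := by
  have hr := hrt_hr h0 (isUnit_iff_ne_zero.2 h1)
  have h2 : (pse P.1 (hrt g P) x).order = ((0 : ℕ) : ℕ∞) := by
    rw [PowerSeries.order_eq_nat]
    refine ⟨?_, fun i hi => absurd hi (Nat.not_lt_zero i)⟩
    rw [PowerSeries.coeff_zero_eq_constantCoeff_apply, cst_pse P hr.1]
    exact hx
  unfold odp
  rw [h2]
  rfl

/-- **A simple zero.** Proof: `cf_one` for `g` and for `x`. -/
theorem odp_one (h0 : ev₂ P g = 0) (h1 : ev₂ P (dY g) ≠ 0) (hx : ev₂ P x = 0)
    (hJ : ev₂ P (dZ x) * ev₂ P (dY g) - ev₂ P (dY x) * ev₂ P (dZ g) ≠ 0) :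
    odp g P x = 1 := by
  have hr := hrt_hr h0 (isUnit_iff_ne_zero.2 h1)
  have h3 := cf_one hr.1 g
  rw [hr.2, map_zero] at h3
  have h4 := cf_one hr.1 x
  have h2 : (pse P.1 (hrt g P) x).order = ((1 : ℕ) : ℕ∞) := by
    rw [PowerSeries.order_eq_nat]
    refine ⟨?_, fun i hi => ?_⟩
    · rw [h4]
      intro h5
      apply hJ
      linear_combination (ev₂ P (dY g)) * h5 + (ev₂ P (dY x)) * h3
    · have hi0 : i = 0 := by omega
      subst hi0
      rw [PowerSeries.coeff_zero_eq_constantCoeff_apply, cst_pse P hr.1]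
      exact hx
  unfold odp
  rw [h2]
  rfl

end fld

end GM
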