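import Pool.Agent.Lib.MP_f80667_ag.Gm.GlE

/-! **The moving lemma (LA)** with coordinates. -/

open ZC BE PE CV Polynomial IntermediateField IsLocalRing

namespace GM

section

variable {K Ω : Type} [Field K] [Field Ω] [Algebra K Ω] {L : Ld K Ω} {M : IntermediateField K Ω}

theorem up2_inj : Function.Injective (up₂ (om L M)) :=
  Polynomial.map_injective _ (Polynomial.map_injective _ om_inj)

theorem exists_up1 {f : Polynomial Ω} (h : ∀ j, f.coeff j ∈ M ∧ L.nm (f.coeff j) ≤ 1) :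
    ∃ f₀ : (OM L M)[X], f₀.map (om L M) = f := by
  have h1 : f ∈ lifts (om L M) := by
    rw [lifts_iff_coeff_lifts]
    intro i
    exact ⟨⟨⟨f.coeff i, (h i).1⟩, (h i).2⟩, rfl⟩
  exact (mem_lifts f).1 h1

theorem exists_up2 {A : Polynomial (Polynomial Ω)}
    (h : ∀ i j, (A.coeff i).coeff j ∈ M ∧ L.nm ((A.coeff i).coeff j) ≤ 1) :
    ∃ A₀ : (OM L M)[X][X], up₂ (om L M) A₀ = A := by
  have h1 : A ∈ lifts (mapRingHom (om L M)) := by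
    rw [lifts_iff_coeff_lifts]
    intro i
    obtain ⟨f, hf⟩ := exists_up1 (h i)
    exact ⟨f, hf⟩
  exact (mem_lifts A).1 h1

theorem mc_of_up {ρ n : ℕ} {g : (OM L M)[X][X]} (h : Mc ρ n (up₂ (om L M) g)) : Mc ρ n g where
  monic := Polynomial.monic_of_injective (Polynomial.map_injective _ om_inj) h.monic
  deg := by
    have h1 := h.deg
    change (g.map (mapRingHom (om L M))).natDegree = n at h1
    rwa [natDegree_map_eq_of_injective (Polynomial.map_injective _ om_inj)] at h1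
  le j := by
    have h1 := h.le j
    rwa [up_cf, natDegree_map_eq_of_injective om_inj] at h1

end

variable {F : Type} [Field F] {K Ω : Type} [Field K] [CharZero K] [Field Ω] [Algebra K Ω]
  [Algebra F K] [Algebra F Ω] [IsScalarTower F K Ω] [IsAlgClosure K Ω] {L : Ld K Ω}
  {M : IntermediateField K Ω} {l u s ρ n N : ℕ}

/-- **The moving lemma.** `Cx p x`: `x` are coordinates of the point `p`; the points of the curve `g = 0` where `δ` is a unit give the points with the coordinates `A (c, w)`. -/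
theorem la_co [FiniteDimensional K M] {V : Vr F} {Cx : V.pt Ω → (Fin N → Ω) → Prop}
    {nr : V.pt Ω → V.pt Ω → Prop} {g : Polynomial (Polynomial Ω)} {δ : Polynomial Ω}
    {A : Fin N → Polynomial (Polynomial Ω)} (mc : Mc ρ n g)
    (ig : ∀ i j, (g.coeff i).coeff j ∈ M ∧ L.nm ((g.coeff i).coeff j) ≤ 1)
    (iδ : ∀ j, δ.coeff j ∈ M ∧ L.nm (δ.coeff j) ≤ 1)
    (iA : ∀ k i j, ((A k).coeff i).coeff j ∈ M ∧ L.nm (((A k).coeff i).coeff j) ≤ 1)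
    (bez : ∃ B B' : Polynomial (Polynomial Ω),
      (∀ i j, (B.coeff i).coeff j ∈ M ∧ L.nm ((B.coeff i).coeff j) ≤ 1) ∧
      (∀ i j, (B'.coeff i).coeff j ∈ M ∧ L.nm ((B'.coeff i).coeff j) ≤ 1) ∧
        B * g + B' * derivative g = C δ)
    (ex : ∀ Q : Ω × Ω, L.nm Q.1 ≤ 1 → L.nm Q.2 ≤ 1 → ev₂ Q g = 0 → L.nm (δ.eval Q.1) = 1 →
      (∃ j, L.nm (ev₂ Q (A j)) = 1) ∧ ∃ p, Cx p fun j => ev₂ Q (A j))
    (uq : ∀ p p' x, Cx p x → Cx p' x → p = p')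
    (ac : ∀ γ ∈ M.fixingSubgroup, ∀ p x, Cx p x → Cx (V.act γ p) fun j => γ (x j))
    (gp : ∀ (Φ : Finset (Ω × Ω)) (pt : Ω × Ω → V.pt Ω), (∀ P ∈ Φ, δ.eval P.1 ≠ 0) →
      (∀ P ∈ Φ, Cx (pt P) fun j => ev₂ P (A j)) → Gpm V M g Φ pt)
    {π : Ω} (hM : π ∈ M) (h0 : 0 < L.nm π) (h1 : L.nm π < 1)
    (hπ : ∀ x ∈ M, x ≠ 0 → ∃ k : ℤ, L.nm x = L.nm π ^ k)
    (near : ∀ p p' x x', Cx p x → Cx p' x' → (∀ i, L.nm (x i) ≤ 1) → (∀ i, L.nm (x' i) ≤ 1) →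
      (∃ i, L.nm (x i) = 1) → (∃ i, L.nm (x' i) = 1) →
        (∀ i, L.nm (x i - x' i) ≤ L.nm π ^ s) → nr p p')
    (hδ : L.nm (δ.eval 0) = 1) {w₀ : Ω} (hw : w₀ ∈ M) (hw1 : L.nm w₀ ≤ 1)
    (hw0 : L.nm (ev₂ (0, w₀) g) < 1) {P : Ω → V.pt Ω}
    (hP : ∀ c, L.nm c < 1 → ∃ w, L.nm (w - w₀) < 1 ∧ ev₂ (c, w) g = 0 ∧
      Cx (P c) fun j => ev₂ (c, w) (A j)) {q q' : Polynomial Ω} (hq : Dpo L M q)
    (hq' : Dpo L M q')
    (hs : (l = 1 ∧ u = 0 ∧ s ≠ 0) ∨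
      (l.Prime ∧ L.nm (l : Ω) = L.nm π ^ u ∧ u < (l - 1) * s))
    (hqq : ∀ i, L.nm (q.coeff i - q'.coeff i) ≤ L.nm π ^ (s + u)) :
    ∃ z ∈ Dsp L V nr M, rcy P q - rcy P q' - l • z ∈ V.ratEq M Ω := by
  classical
  obtain ⟨g₀, rfl⟩ := exists_up2 ig
  obtain ⟨δ₀, rfl⟩ := exists_up1 iδ
  choose A₀ hA₀ using fun k => exists_up2 (iA k)
  obtain ⟨B, B', iB, iB', hB⟩ := bez
  obtain ⟨B₁, rfl⟩ := exists_up2 iB
  obtain ⟨B₂, rfl⟩ := exists_up2 iB'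
  obtain ⟨w₁, rfl⟩ : ∃ w₁ : OM L M, om L M w₁ = w₀ := ⟨⟨⟨w₀, hw⟩, hw1⟩, rfl⟩
  obtain ⟨π₁, rfl⟩ : ∃ π₁ : OM L M, om L M π₁ = π := ⟨⟨⟨π, hM⟩, h1.le⟩, rfl⟩
  have hirr : Irreducible π₁ := by
    refine irr_of_nm L M h0 h1 fun x hx => ?_
    have hx' : om L M x ≠ 0 := by
      intro h
      apply hx
      apply om_inj
      rw [h, map_zero]
    obtain ⟨k, hk⟩ := hπ _ (om_mem x) hx'
    obtain ⟨m, rfl | rfl⟩ := k.eq_nat_or_neg
    · exact ⟨m, by rw [zpow_natCast] at hk; exact hk⟩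
    · refine ⟨0, ?_⟩
      have h2 : L.nm (om L M x) ≤ 1 := om_le x
      have h3 : 1 ≤ (L.nm (om L M π₁))⁻¹ ^ m := one_le_pow₀ (one_le_inv_iff₀.2 ⟨h0, h1.le⟩)
      rw [zpow_neg, zpow_natCast, ← inv_pow] at hk
      have h4 : L.nm (om L M x) = 1 := le_antisymm h2 (by rw [hk]; exact h3)
      rw [pow_zero]
      exact h4
  have z0 : ((0 : Ω), om L M w₁) = (om L M 0, om L M w₁) := by rw [map_zero]
  have hbz : B₁ * g₀ + B₂ * dY g₀ = C δ₀ := by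
    apply up2_inj
    rw [map_add, map_mul, map_mul, up_dY, up_C]
    exact hB
  have hδe : ∀ c : Ω, (δ₀.map (om L M)).eval c = δ₀.eval₂ (om L M) c := fun c => eval_map _ _
  have hd : ∀ Q, Gd L M g₀ δ₀ Q → (∃ j, L.nm (ev₂ Q (A j)) = 1) ∧
      ∃ p, Cx p fun j => ev₂ Q (A j) := by
    intro Q hQ
    refine ex Q hQ.le₁ hQ.le₂ hQ.eq ?_
    rw [hδe, ← e2_C (L := L) (M := M) Q]
    exact hQ.unit
  let pt : Ω × Ω → V.pt Ω := fun Q =>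
    if h : ∃ p, Cx p fun j => ev₂ Q (A j) then h.choose else P 0
  have hpt : ∀ Q, (∃ p, Cx p fun j => ev₂ Q (A j)) → Cx (pt Q) fun j => ev₂ Q (A j) := by
    intro Q h
    have e1 : pt Q = h.choose := dif_pos h
    rw [e1]
    exact h.choose_spec
  have hA : ∀ (Q : Ω × Ω) j, ev₂ Q (A j) = e2 L M Q (A₀ j) := fun Q j => by
    rw [e2_eq, hA₀]
  refine la_abs (L := L) (M := M) (V := V) (nr := nr) (g := g₀) (δ := δ₀) (w₀ := w₁) (π := π₁)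
    (pt := pt) hirr (mc_of_up mc) ⟨B₁, B₂, hbz⟩ ?_ ?_ ?_ ?_ ?_ ?_ hq hq' hs hqq
  · rw [hδe] at hδ
    have h2 := ev_zero (c := 0) (by rw [L.zero]; exact zero_lt_one) δ₀
    have h3 := nm_sub_unit hδ h2
    rwa [sub_sub_cancel] at h3
  · rw [← e2_om, ← z0]
    exact hw0
  · intro γ hγ Q hQ
    have h2 := hpt Q (hd Q hQ).2
    have hγQ : Gd L M g₀ δ₀ (γ Q.1, γ Q.2) := by
      refine ⟨?_, ?_, ?_, ?_⟩
      · change L.nm (γ Q.1) ≤ 1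
        rw [L.act]
        exact hQ.le₁
      · change L.nm (γ Q.2) ≤ 1
        rw [L.act]
        exact hQ.le₂
      · rw [e2_act hγ, hQ.eq, map_zero]
      · rw [e2_act hγ, L.act]
        exact hQ.unit
    have h3 := hpt (γ Q.1, γ Q.2) (hd _ hγQ).2
    refine uq _ _ _ (ac γ hγ _ _ h2) ?_
    have e1 : (fun j => γ (ev₂ Q (A j))) = fun j => ev₂ (γ Q.1, γ Q.2) (A j) := by
      funext j
      rw [hA, hA, e2_act hγ]
    rw [e1]
    exact h3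
  · intro Φ hΦ
    refine gp Φ pt (fun Q hQ h2 => ?_) fun Q hQ => hpt Q (hd Q (hΦ Q hQ)).2
    have h3 := (hΦ Q hQ).unit
    rw [e2_C, ← hδe, h2, L.zero] at h3
    exact zero_ne_one h3
  · intro Q Q' hQ hQ' h2 h3
    refine near _ _ _ _ (hpt Q' (hd Q' hQ').2) (hpt Q (hd Q hQ).2) (fun j => ?_) (fun j => ?_)
      (hd Q' hQ').1 (hd Q hQ).1 fun j => ?_
    · rw [hA]
      exact e2_le hQ'.le₁ hQ'.le₂ _
    · rw [hA]
      exact e2_le hQ.le₁ hQ.le₂ _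
    · rw [hA, hA]
      exact e2_near hQ'.le₁ hQ'.le₂ hQ.le₁ hQ.le₂ h2 h3 _
  · intro c hc
    obtain ⟨w, h2, h3, h4⟩ := hP c hc
    exact ⟨w, h2, h3, uq _ _ _ h4 (hpt (c, w) ⟨_, h4⟩)⟩

end GM
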