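import Pool.Agent.Lib.MP_f80667_ag.Gm.GpK

/-!
**PR** for polynomials over `Ω` with coefficients in an intermediate field `M`.
-/

open Polynomial ZC BE CV

namespace GM

section

variable {K Ω : Type} [Field K] [Field Ω] [Algebra K Ω]

/-- The coefficients are in `M`. -/
def Rm (M : IntermediateField K Ω) (A : Polynomial (Polynomial Ω)) : Prop := ∀ i j, (A.coeff i).coeff j ∈ M

theorem exists_up {M : IntermediateField K Ω} {A : Polynomial (Polynomial Ω)} (h : Rm M A) :
    ∃ A' : M[X][X], up₂ (algebraMap M Ω) A' = A := by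
  have h1 : A ∈ lifts (mapRingHom (algebraMap M Ω)) := by
    rw [lifts_iff_coeff_lifts]
    intro i
    have h2 : A.coeff i ∈ lifts (algebraMap M Ω) := by
      rw [lifts_iff_coeff_lifts]
      intro j
      exact ⟨⟨_, h i j⟩, rfl⟩
    exact (mem_lifts _).1 h2
  exact (mem_lifts _).1 h1

variable {M : IntermediateField K Ω}

theorem up_inj {k : Type} [Field k] [Algebra k Ω] :
    Function.Injective (mapRingHom (algebraMap k Ω)) :=
  Polynomial.map_injective _ (algebraMap k Ω).injective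

theorem up_coeff {k : Type} [Field k] [Algebra k Ω] (A : k[X][X]) (j : ℕ) :
    (up₂ (algebraMap k Ω) A).coeff j = (A.coeff j).map (algebraMap k Ω) := by
  simp [up₂]

theorem Mc.of_up {k : Type} [Field k] [Algebra k Ω] {ρ n : ℕ} {g : k[X][X]}
    (h : Mc ρ n (up₂ (algebraMap k Ω) g)) : Mc ρ n g where
  monic := Polynomial.monic_of_injective up_inj h.monic
  deg := by
    have h1 := h.deg
    change (g.map (mapRingHom (algebraMap k Ω))).natDegree = n at h1
    rwa [natDegree_map_eq_of_injective up_inj] at h1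
  le j := by
    have h1 := h.le j
    rwa [up_coeff, natDegree_map] at h1

theorem dvd_up {k : Type} [Field k] [Algebra k Ω] {g x : k[X][X]} (hg : g.Monic)
    (h : up₂ (algebraMap k Ω) g ∣ up₂ (algebraMap k Ω) x) : g ∣ x :=
  (Polynomial.map_dvd_map _ up_inj hg).1 h

theorem Wl.of_up {k : Type} [Field k] [Algebra k Ω] {ρ D : ℕ} {x : k[X][X]}
    (h : Wl ρ D (up₂ (algebraMap k Ω) x)) : Wl ρ D x := by
  intro j hj
  have h1 := h j
  rw [up_coeff, natDegree_map] at h1
  exact h1 ((Polynomial.map_ne_zero_iff (algebraMap k Ω).injective).2 hj)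

theorem Ut.of_up {k : Type} [Field k] [Algebra k Ω] {ρ D : ℕ} {x : k[X][X]}
    (h : Ut ρ D (up₂ (algebraMap k Ω) x)) : Ut ρ D x := by
  have h1 : up₂ (algebraMap k Ω) (x - C (X ^ D)) = up₂ (algebraMap k Ω) x - C (X ^ D) := by
    rw [map_sub]
    simp [up₂]
  refine Wl.of_up (Ω := Ω) ?_
  rw [h1]
  exact h

end

section

variable {F : Type} [Field F] {K Ω : Type} [Field K] [Field Ω] [Algebra K Ω] [Algebra F K]
  [Algebra F Ω] [IsScalarTower F K Ω]

/-- `V` has points over the function fields of the components of the curve `g = 0` with the values `pt P` at the points `P ∈ Φ`. -/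
def Gpm (V : Vr F) (M : IntermediateField K Ω) (g : Polynomial (Polynomial Ω)) (Φ : Finset (Ω × Ω))
    (pt : Ω × Ω → V.pt Ω) : Prop :=
  ∀ g₁ : M[X][X], g₁.Monic → Prime g₁ → up₂ (algebraMap M Ω) g₁ ∣ g →
    (∃ P ∈ Φ, evk P g₁ = 0) → Gpt V g₁ Φ pt

/-- **PR.** The divisor of the function `x / y` on the curve `g = 0`, for any variety `V`. -/
theorem pr_m [CharZero K] [IsAlgClosure K Ω] (V : Vr F) {M : IntermediateField K Ω}
    {g x y : Polynomial (Polynomial Ω)} (mg : Rm M g) (mx : Rm M x) (my : Rm M y) {ρ n D : ℕ} (hg : Mc ρ n g)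
    (hx : Ut ρ D x) (hy : Ut ρ D y) {Φ : Finset (Ω × Ω)}
    (hΦ : ∀ P ∈ Φ, ev₂ P g = 0 ∧ ev₂ P (dY g) ≠ 0)
    (hall : ∀ P : Ω × Ω, ev₂ P g = 0 → ev₂ P x = 0 ∨ ev₂ P y = 0 → P ∈ Φ)
    {pt : Ω × Ω → V.pt Ω} (hpt : Gpm V M g Φ pt) :
    ∑ P ∈ Φ, Finsupp.single (pt P) ((odp g P x : ℤ) - odp g P y) ∈ V.ratEq M Ω := by
  have : CharZero M := charZero_of_injective_algebraMap (algebraMap K M).injective
  have : IsAlgClosure M Ω :=
    ⟨IsAlgClosure.isAlgClosed K, (IsAlgClosure.isAlgebraic (R := K)).tower_top M⟩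
  obtain ⟨g', rfl⟩ := exists_up mg
  obtain ⟨x', rfl⟩ := exists_up mx
  obtain ⟨y', rfl⟩ := exists_up my
  have hdY : dY (up₂ (algebraMap M Ω) g') = up₂ (algebraMap M Ω) (dY g') := by
    change derivative (g'.map _) = (derivative g').map _
    rw [derivative_map]
  refine pr_gen V (k := M) hg.of_up hx.of_up hy.of_up Φ (fun P hP => ?_) (fun P h1 h2 => ?_) pt
    fun g₁ h1 h2 h3 h4 => hpt g₁ h1 h2 (_root_.map_dvd _ h3) h4
  · have h1 := hΦ P hP
    rw [hdY] at h1
    exact h1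
  · exact hall P h1 h2

theorem up_alg {M : IntermediateField K Ω} (c : F) :
    up₂ (algebraMap M Ω) (algebraMap F M[X][X] c) =
      algebraMap F (Polynomial (Polynomial Ω)) c := by
  have h1 : algebraMap F M[X][X] c = C (C (algebraMap F M c)) := rfl
  have h2 : algebraMap F (Polynomial (Polynomial Ω)) c = C (C (algebraMap F Ω c)) := rfl
  have h3 : algebraMap F Ω c = algebraMap M Ω (algebraMap F M c) := rfl
  rw [h1, h2, h3]
  simp [up₂]

/-- The hypothesis of `pr_m` for hypersurfaces. The points have the coordinates `A_i(P)`. -/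
theorem gpm_h [IsAlgClosure K Ω] {N : ℕ} {G : MvPolynomial (Fin N) F}
    {M : IntermediateField K Ω} {g B : Polynomial (Polynomial Ω)} {A : Fin N → Polynomial (Polynomial Ω)} (mg : Rm M g)
    (hg : g.Monic) (mB : Rm M B) (mA : ∀ i, Rm M (A i)) (hA : g ∣ B * MvPolynomial.aeval A G)
    {Φ : Finset (Ω × Ω)} (hB : ∀ P ∈ Φ, ev₂ P B ≠ 0) {pt : Ω × Ω → (Xh G).pt Ω}
    (hpt : ∀ P ∈ Φ, Co (pt P) fun i => ev₂ P (A i)) : Gpm (Xh G) M g Φ pt := by
  have : IsAlgClosed Ω := IsAlgClosure.isAlgClosed K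
  obtain ⟨g', rfl⟩ := exists_up mg
  obtain ⟨B', rfl⟩ := exists_up mB
  choose A' hA' using fun i => exists_up (mA i)
  obtain rfl : (fun i => up₂ (algebraMap M Ω) (A' i)) = A := funext hA'
  rw [gpk_eq (up₂ (algebraMap M Ω)) (fun c => up_alg c) A' G, ← map_mul] at hA
  intro g₁ h1 h2 h3 h4
  exact gpt_h h2 (dvd_up h1 h3) (dvd_up (Polynomial.monic_of_injective up_inj hg) hA) hB hpt h4

end

end GM
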