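import Pool.Agent.Lib.MP_f80667_ag.Gm.GxB

/-! The polynomial `lp G x v = G(x + Y v)`. -/

open ZC BE PE CV IntermediateField Polynomial

namespace GM

variable {F : Type} [Field F] {N n : ℕ} {G : MvPolynomial (Fin N) F} {K Ω : Type} [Field K]
  [Field Ω] [Algebra K Ω] [Algebra F K] [Algebra F Ω] [IsScalarTower F K Ω] {L : Ld K Ω}

variable (G) in
/-- The polynomial `G(x + Y v)`. -/
noncomputable def lp (x v : Fin N → Ω) : Polynomial Ω :=
  MvPolynomial.aeval (fun i => C (x i) + X * C (v i)) G

private theorem aux_eval (a : Fin N → Polynomial Ω) (c : Ω) (G : MvPolynomial (Fin N) F) :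
    (MvPolynomial.aeval a G : Polynomial Ω).eval c =
      MvPolynomial.aeval (fun i => (a i).eval c) G := by
  induction G using MvPolynomial.induction_on with
  | C r => rw [MvPolynomial.aeval_C, MvPolynomial.aeval_C, Polynomial.algebraMap_apply, eval_C]
  | add p q hp hq => rw [map_add, map_add, eval_add, hp, hq]
  | mul_X p i hp => rw [map_mul, map_mul, eval_mul, hp, MvPolynomial.aeval_X, MvPolynomial.aeval_X]

private theorem aux_deriv (a : Fin N → Polynomial Ω) (G : MvPolynomial (Fin N) F) :
    derivative (MvPolynomial.aeval a G : Polynomial Ω) =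
      ∑ i, MvPolynomial.aeval a (MvPolynomial.pderiv i G) * derivative (a i) := by
  induction G using MvPolynomial.induction_on with
  | C r =>
    rw [MvPolynomial.aeval_C, Polynomial.algebraMap_apply, derivative_C]
    refine (Finset.sum_eq_zero fun i _ => ?_).symm
    rw [MvPolynomial.pderiv_C, map_zero, zero_mul]
  | add p q hp hq =>
    rw [map_add, map_add, hp, hq, ← Finset.sum_add_distrib]
    refine Finset.sum_congr rfl fun i _ => ?_
    rw [map_add, map_add, add_mul]
  | mul_X p j hp =>
    rw [map_mul, MvPolynomial.aeval_X, derivative_mul, hp]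
    have h : ∀ i, MvPolynomial.aeval a (MvPolynomial.pderiv i (p * MvPolynomial.X j)) *
        derivative (a i) = MvPolynomial.aeval a (MvPolynomial.pderiv i p) * derivative (a i) * a j +
        (if i = j then MvPolynomial.aeval a p * derivative (a j) else 0) := by
      intro i
      rw [MvPolynomial.pderiv_mul, map_add, map_mul, map_mul, MvPolynomial.aeval_X,
        MvPolynomial.pderiv_X]
      by_cases hij : i = j
      · subst hij
        rw [Pi.single_eq_same, map_one, if_pos rfl]
        ring
      · rw [Pi.single_eq_of_ne (Ne.symm hij), map_zero, if_neg hij]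
        ring
    rw [Finset.sum_congr rfl fun i _ => h i, Finset.sum_add_distrib, ← Finset.sum_mul,
      Finset.sum_ite_eq' Finset.univ j, if_pos (Finset.mem_univ j)]

private theorem prod_deg {ι : Type} (s : Finset ι) (f : ι → Polynomial Ω) (m : ι → ℕ)
    (h : ∀ i ∈ s, (f i).natDegree ≤ m i) :
    (∏ i ∈ s, f i).natDegree ≤ ∑ i ∈ s, m i ∧
      (∏ i ∈ s, f i).coeff (∑ i ∈ s, m i) = ∏ i ∈ s, (f i).coeff (m i) := by
  classical
  induction s using Finset.induction_on with
  | empty => simp
  | insert a s ha ih =>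
    obtain ⟨h1, h2⟩ := ih fun i hi => h i (Finset.mem_insert_of_mem hi)
    have h3 := h a (Finset.mem_insert_self a s)
    rw [Finset.prod_insert ha, Finset.sum_insert ha, Finset.prod_insert ha]
    exact ⟨natDegree_mul_le_of_le h3 h1,
      by rw [coeff_mul_add_eq_of_natDegree_le h3 h1, h2]⟩

private theorem aux_int (V : ValuationSubring Ω) {G : MvPolynomial (Fin N) F}
    (hG : ∀ d, (algebraMap F Ω (G.coeff d)) ∈ V) {a : Fin N → Polynomial Ω}
    (ha : ∀ i j, ((a i).coeff j) ∈ V) (j : ℕ) :
    ((MvPolynomial.aeval a G : Polynomial Ω).coeff j) ∈ V := by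
  have hmul : ∀ q r : Polynomial Ω, (∀ j, q.coeff j ∈ V) → (∀ j, r.coeff j ∈ V) →
      ∀ j, (q * r).coeff j ∈ V := by
    intro q r hq hr j
    rw [coeff_mul]
    exact sum_mem fun c _ => V.mul_mem _ _ (hq _) (hr _)
  have hone : ∀ j, (1 : Polynomial Ω).coeff j ∈ V := by
    intro j
    rw [coeff_one]
    split_ifs
    · exact V.one_mem
    · exact V.zero_mem
  have hpow : ∀ (q : Polynomial Ω) (k : ℕ), (∀ j, q.coeff j ∈ V) → ∀ j, (q ^ k).coeff j ∈ V := by
    intro q k hq
    induction k with
    | zero => rw [pow_zero]; exact hone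
    | succ k ih => rw [pow_succ]; exact hmul _ _ ih hq
  have hprod : ∀ (s : Finset (Fin N)) (f : Fin N → Polynomial Ω), (∀ i j, (f i).coeff j ∈ V) →
      ∀ j, (∏ i ∈ s, f i).coeff j ∈ V := by
    intro s f hf
    induction s using Finset.induction_on with
    | empty => rw [Finset.prod_empty]; exact hone
    | insert b s hb ih => rw [Finset.prod_insert hb]; exact hmul _ _ (hf b) ih
  rw [MvPolynomial.aeval_def, MvPolynomial.eval₂_eq', finsetSum_coeff]
  refine sum_mem fun d _ => hmul _ _ (fun k => ?_) (hprod _ _ fun i => hpow _ _ (ha i)) j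
  rw [Polynomial.algebraMap_apply, coeff_C]
  split_ifs
  · exact hG d
  · exact V.zero_mem

theorem lp_eval (x v : Fin N → Ω) (w : Ω) :
    (lp G x v).eval w = MvPolynomial.aeval (fun i => x i + w * v i) G := by
  rw [lp, aux_eval]
  congr 2
  funext i
  rw [eval_add, eval_mul, eval_C, eval_C, eval_X]

/-- Proof: the chain rule (`MvPolynomial.aeval` and derivations: induction on `G`). -/
theorem lp_deriv (x v : Fin N → Ω) (w : Ω) :
    (derivative (lp G x v)).eval w = dGo G (fun i => x i + w * v i) v := by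
  rw [lp, aux_deriv, dGo, eval_finsetSum]
  refine Finset.sum_congr rfl fun i _ => ?_
  have h := lp_eval (G := MvPolynomial.pderiv i G) x v w
  rw [lp] at h
  rw [eval_mul, h]
  congr 1
  rw [derivative_add, derivative_C, zero_add, derivative_mul, derivative_X, derivative_C, one_mul,
    mul_zero, add_zero, eval_C]

/-- Proof: the coefficients of the factors are integral; induction on `G`. -/
theorem lp_int (hG : ∀ d, L.nm (algebraMap F Ω (G.coeff d)) ≤ 1) {x v : Fin N → Ω}
    (hx : ∀ i, L.nm (x i) ≤ 1) (hv : ∀ i, L.nm (v i) ≤ 1) (j : ℕ) :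
    L.nm ((lp G x v).coeff j) ≤ 1 := by
  refine aux_int L.V hG (fun i j => ?_) j
  rw [coeff_add, coeff_C]
  cases j with
  | zero =>
    rw [if_pos rfl, coeff_X_mul_zero, add_zero]
    exact hx i
  | succ j =>
    rw [if_neg (Nat.succ_ne_zero j), zero_add, coeff_X_mul, coeff_C]
    split_ifs
    · exact hv i
    · exact L.V.zero_mem

/-- The general form: integral polynomials. -/
theorem lp_arc (hG : ∀ d, L.nm (algebraMap F Ω (G.coeff d)) ≤ 1) {a : Fin N → Polynomial Ω}
    (ha : ∀ i j, L.nm ((a i).coeff j) ≤ 1) (j : ℕ) :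
    L.nm ((MvPolynomial.aeval a G : Polynomial Ω).coeff j) ≤ 1 :=
  aux_int L.V hG ha j

theorem ae_eval (a : Fin N → Polynomial Ω) (c : Ω) :
    (MvPolynomial.aeval a G : Polynomial Ω).eval c =
      MvPolynomial.aeval (fun i => (a i).eval c) G :=
  aux_eval a c G

/-- Proof: `n` homogeneous: the coefficient of `Y ^ n` is `G(v)`, `natDegree ≤ n` (induction on monomials of degree `n`). -/
theorem lp_deg (hG : G.IsHomogeneous n) (x v : Fin N → Ω) :
    (lp G x v).natDegree ≤ n ∧ (lp G x v).coeff n = MvPolynomial.aeval v G := by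
  have hl : ∀ i, (C (x i) + X * C (v i)).natDegree ≤ 1 := by
    intro i
    refine (natDegree_add_le _ _).trans (max_le ?_ ?_)
    · rw [natDegree_C]
      exact zero_le_one
    · refine (natDegree_mul_le).trans ?_
      rw [natDegree_C, add_zero]
      exact natDegree_X_le
  have hc : ∀ i, (C (x i) + X * C (v i)).coeff 1 = v i := by
    intro i
    rw [coeff_add, coeff_C_succ, coeff_X_mul, coeff_C_zero, zero_add]
  have hm : ∀ d : Fin N →₀ ℕ, G.coeff d ≠ 0 →
      (∏ i, (C (x i) + X * C (v i)) ^ d i).natDegree ≤ n ∧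
      (∏ i, (C (x i) + X * C (v i)) ^ d i).coeff n = ∏ i, v i ^ d i := by
    intro d hd
    have h1 : ∑ i, d i = n := by
      have h2 : Finsupp.weight (fun _ => 1) d = n := hG hd
      rw [← Finsupp.degree_eq_weight_one] at h2
      rw [← h2, Finsupp.degree_eq_sum]
    have h3 := prod_deg Finset.univ (fun i => (C (x i) + X * C (v i)) ^ d i) (fun i => d i)
      fun i _ => by
        have h4 := natDegree_pow_le_of_le (d i) (hl i)
        rwa [mul_one] at h4
    rw [h1] at h3
    refine ⟨h3.1, h3.2.trans (Finset.prod_congr rfl fun i _ => ?_)⟩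
    have h5 := coeff_pow_of_natDegree_le (m := d i) (hl i)
    rw [mul_one] at h5
    rw [h5, hc]
  constructor
  · rw [lp, MvPolynomial.aeval_def, MvPolynomial.eval₂_eq']
    refine natDegree_sum_le_of_forall_le _ _ fun d hd => ?_
    refine (natDegree_mul_le).trans ?_
    rw [Polynomial.algebraMap_apply, natDegree_C, zero_add]
    exact (hm d (MvPolynomial.mem_support_iff.1 hd)).1
  · rw [lp, MvPolynomial.aeval_def, MvPolynomial.eval₂_eq', finsetSum_coeff,
      MvPolynomial.aeval_def, MvPolynomial.eval₂_eq']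
    refine Finset.sum_congr rfl fun d hd => ?_
    rw [Polynomial.algebraMap_apply, coeff_C_mul, (hm d (MvPolynomial.mem_support_iff.1 hd)).2]

end GM
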