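import Pool.Agent.Lib.MP_f80667_ag.Gm.GsJ

/-! Residues of elements of `Te`. -/

open ZC BE PE CV IntermediateField

namespace GM

variable {K Ω : Type} [Field K] [CharZero K] [Field Ω] [Algebra K Ω] [IsAlgClosure K Ω]
  {L : Ld K Ω} {N : ℕ} {J : Submonoid ℕ}

private theorem res_iter {r : L.κ} {m : ℕ} (h : r ^ L.p ^ m = r) (d : ℕ) :
    r ^ L.p ^ (m * d) = r := by
  rw [pow_mul]
  induction d with
  | zero => rw [pow_zero, pow_one]
  | succ d ih => rw [pow_succ, pow_mul, ih, h]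

private theorem te_pow {m : ℕ} {z : Ω} (h : z ∈ L.Te m) (k : ℕ) : z ^ k ∈ L.Te m := by
  change (z ^ k) ^ L.p ^ m = z ^ k
  rw [← pow_mul, mul_comm, pow_mul, show z ^ L.p ^ m = z from h]

/-- Finitely many residues are the residues of elements of one `Te (N s)`. Proof: the residue map `Te (N s) → {x | x ^ p ^ (N s) = x}` is surjective: `te_rep`,
`te_inj`: for a representative `z ∈ Te M'` of `x`, `z ^ p ^ (N s)` and `z` are in `Te M'` and congruent, so equal. -/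
theorem kJ_te (hN : N ≠ 0) (h0 : 0 ∉ J) {ι : Type} [Finite ι] (f : ι → kJ L N J) :
    ∃ s ∈ J, ∀ i, ∃ x ∈ L.Te (N * s), L.rs.Hv x (f i : L.κ) := by
  classical
  have := Fintype.ofFinite ι
  have h1 : ∀ i, ∃ s ∈ J, (f i : L.κ) ^ L.p ^ (N * s) = (f i : L.κ) := fun i => (mem_kJ L N J).1 (f i).2
  choose s hs hf using h1
  have hP : ∏ i, s i ∈ J := prod_mem fun i _ => hs i
  have hP0 : ∏ i, s i ≠ 0 := fun h => h0 (h ▸ hP)
  refine ⟨∏ i, s i, hP, fun i => ?_⟩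
  have h2 : (f i : L.κ) ^ L.p ^ (N * ∏ i, s i) = (f i : L.κ) := by
    obtain ⟨d, hd⟩ := Finset.dvd_prod_of_mem s (Finset.mem_univ i)
    rw [hd, ← mul_assoc]
    exact res_iter (hf i) d
  obtain ⟨y, hy⟩ := L.hv_surj (f i : L.κ)
  obtain ⟨N', hN', z, hz, hyz⟩ := Ld.te_rep (L.hv_int hy)
  obtain ⟨r, hr⟩ := L.hv_of (Ld.te_int hN' hz)
  have h3 : (f i : L.κ) = r := (L.hv_sub hy hr).2 hyz
  rw [← h3] at hr
  refine ⟨z, ?_, hr⟩
  have h4 : L.rs.Hv (z ^ L.p ^ (N * ∏ i, s i)) (f i : L.κ) := by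
    have h5 := hr.pow (L.p ^ (N * ∏ i, s i))
    rwa [h2] at h5
  have h6 := (L.hv_sub h4 hr).1 rfl
  exact Ld.te_inj hN' (te_pow hz _) hz h6

/-- Proof: `Ld.rf_ur`. -/
theorem kJ_res {M : IntermediateField K Ω} [FiniteDimensional K M] (hR : L.Rf M N) {s : ℕ}
    (hs : s ∈ J) (hs0 : s ≠ 0) {x : Ω} (hx : x ∈ L.Ur M (N * s)) (hx1 : L.nm x ≤ 1) :
    ∃ t : kJ L N J, L.rs.Hv x (t : L.κ) := by
  obtain ⟨z, hz, hxz⟩ := (Ld.rf_ur hR hs0).res x hx hx1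
  have hNs : N * s ≠ 0 := mul_ne_zero hR.ne hs0
  obtain ⟨r, hr⟩ := L.hv_of hx1
  obtain ⟨r', hr'⟩ := L.hv_of (Ld.te_int hNs hz)
  have h1 : r = r' := (L.hv_sub hr hr').2 hxz
  rw [← h1] at hr'
  refine ⟨⟨r, (mem_kJ L N J).2 ⟨s, hs, ?_⟩⟩, hr⟩
  have h2 := hr'.pow (L.p ^ (N * s))
  rw [show z ^ L.p ^ (N * s) = z from hz] at h2
  exact h2.uniq hr'

end GM
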