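import Pool.Agent.Lib.MP_f80667_ag.Gm.GpD

/-!
Two variables: the Taylor formula, the derivatives.
-/

open Polynomial

namespace GM

section ring

variable {R : Type} [CommRing R]

private theorem gya_coeff (A : R[X][X]) (j : ℕ) : (dZ A).coeff j = derivative (A.coeff j) := by
  classical
  rw [dZ, Polynomial.sum_def, finsetSum_coeff]
  have h1 : ∀ i ∈ A.support, (C (derivative (A.coeff i)) * X ^ i : R[X][X]).coeff j =
      if j = i then derivative (A.coeff i) else 0 := fun i _ => coeff_C_mul_X_pow _ _ _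
  rw [Finset.sum_congr rfl h1, Finset.sum_ite_eq]
  split_ifs with h
  · rfl
  · rw [notMem_support_iff.1 h, derivative_zero]

private theorem gya_add (A B : R[X][X]) : dZ (A + B) = dZ A + dZ B := by
  ext1 j
  rw [coeff_add, gya_coeff, gya_coeff, gya_coeff, coeff_add, derivative_add]

private theorem gya_eval (A : R[X][X]) (w : R) :
    derivative (A.eval (C w)) = (dZ A).eval (C w) := by
  induction A using Polynomial.induction_on' with
  | add p q hp hq => rw [eval_add, derivative_add, hp, hq, gya_add, eval_add]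
  | monomial n a =>
    have h1 : dZ (monomial n a : R[X][X]) = monomial n (derivative a) := by
      ext1 j
      rw [gya_coeff, coeff_monomial, coeff_monomial]
      split_ifs
      · rfl
      · exact derivative_zero
    rw [h1, eval_monomial, eval_monomial, ← C_pow, derivative_mul, derivative_C, mul_zero,
      add_zero]

/-- **Taylor.** Proof: `A(c + s, w + t) = (A.map (evalRingHom (c + s))).eval (w + t)`; `Polynomial.binomExpansion` in the variable `Y` at `w`, then for `A(z, w)` and `A_Y(z, w)`
in the variable `z` at `c`. -/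
theorem tay₂ (A : R[X][X]) (c w s t : R) : ∃ k₁ k₂ k₃ : R,
    ev₂ (c + s, w + t) A = ev₂ (c, w) A + ev₂ (c, w) (dZ A) * s + ev₂ (c, w) (dY A) * t +
      k₁ * s ^ 2 + k₂ * (s * t) + k₃ * t ^ 2 := by
  obtain ⟨k, hk⟩ := A.binomExpansion (C w) (C t)
  obtain ⟨k', hk'⟩ := (A.eval (C w)).binomExpansion c s
  obtain ⟨k'', hk''⟩ := ((derivative A).eval (C w)).binomExpansion c s
  refine ⟨k', (derivative ((derivative A).eval (C w))).eval c + k'' * s, k.eval (c + s), ?_⟩
  rw [ev₂_eq, ev₂_eq, ev₂_eq, ev₂_eq, dY, evalEval, evalEval, evalEval, evalEval, ← gya_eval,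
    C_add, hk, eval_add, eval_add, eval_mul, eval_mul, eval_pow, eval_C, hk', hk'']
  ring

theorem dZ_add (A B : R[X][X]) : dZ (A + B) = dZ A + dZ B := gya_add A B

/-- Proof: coefficientwise. -/
theorem dZ_mul (A B : R[X][X]) : dZ (A * B) = dZ A * B + A * dZ B := by
  ext1 j
  rw [gya_coeff, coeff_add, coeff_mul, coeff_mul, coeff_mul, map_sum, ← Finset.sum_add_distrib]
  refine Finset.sum_congr rfl fun i _ => ?_
  rw [gya_coeff, gya_coeff, derivative_mul]

theorem dZ_C (f : R[X]) : dZ (C f) = C (derivative f) := by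
  ext1 j
  rw [gya_coeff, coeff_C, coeff_C]
  split_ifs
  · rfl
  · exact derivative_zero

theorem dZ_X : dZ (X : R[X][X]) = 0 := by
  ext1 j
  rw [gya_coeff, coeff_X, coeff_zero]
  split_ifs
  · exact derivative_one
  · exact derivative_zero

theorem dZ_up {R' : Type} [CommRing R'] (f : R →+* R') (A : R[X][X]) :
    dZ (up₂ f A) = up₂ f (dZ A) := by
  ext1 j
  rw [gya_coeff, up₂, coe_mapRingHom, coeff_map, coeff_map, gya_coeff, coe_mapRingHom,
    derivative_map]

theorem dY_up {R' : Type} [CommRing R'] (f : R →+* R') (A : R[X][X]) :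
    dY (up₂ f A) = up₂ f (dY A) := by
  rw [dY, dY, up₂, coe_mapRingHom, derivative_map]

theorem ev_up {R' : Type} [CommRing R'] (f : R →+* R') (P : R × R) (A : R[X][X]) :
    ev₂ (f P.1, f P.2) (up₂ f A) = f (ev₂ P A) := by
  have h1 : (C (f P.2) : R'[X]) = mapRingHom f (C P.2) := by rw [coe_mapRingHom, map_C]
  rw [ev₂_eq, ev₂_eq, evalEval, evalEval, up₂, coe_mapRingHom, h1, eval_map_apply,
    coe_mapRingHom, eval_map_apply]

end ring

end GM
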