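import Pool.Agent.Lib.MP_f80667_ag.Gm.GpL
import Pool.Agent.Lib.MP_f80667_ag.Gm.GyA
import Pool.Agent.Lib.MP_f80667_ag.Cv.MdL

/-!
Two variables over a local field: zeros near approximate zeros.
-/

open ZC BE PE CV IntermediateField

namespace GM

variable {K Ω : Type} [Field K] [Field Ω] [Algebra K Ω]

/-- Integral coefficients. -/
def In₂ (L : Ld K Ω) (A : Polynomial (Polynomial Ω)) : Prop :=
  ∀ i j, L.nm ((A.coeff i).coeff j) ≤ 1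

/-- The point is integral. -/
def Ip (L : Ld K Ω) (P : Ω × Ω) : Prop := L.nm P.1 ≤ 1 ∧ L.nm P.2 ≤ 1

/-- The Jacobian determinant. -/
noncomputable def jac (x g : Polynomial (Polynomial Ω)) (P : Ω × Ω) : Ω :=
  ev₂ P (dZ x) * ev₂ P (dY g) - ev₂ P (dY x) * ev₂ P (dZ g)

variable {L : Ld K Ω} {A x g : Polynomial (Polynomial Ω)} {P Q Q' : Ω × Ω}

/-- Proof: `A` is the image of a polynomial over `L.V` (as `exists_up`). -/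
theorem in_up : In₂ L A ↔ ∃ A' : Polynomial (Polynomial L.V), up₂ L.V.subtype A' = A := by
  constructor
  · intro h
    have h1 : A ∈ Polynomial.lifts (Polynomial.mapRingHom L.V.subtype) := by
      rw [Polynomial.lifts_iff_coeff_lifts]
      intro i
      have h2 : A.coeff i ∈ Polynomial.lifts L.V.subtype := by
        rw [Polynomial.lifts_iff_coeff_lifts]
        intro j
        exact ⟨⟨_, h i j⟩, rfl⟩
      exact (Polynomial.mem_lifts _).1 h2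
    exact (Polynomial.mem_lifts _).1 h1
  · rintro ⟨A', rfl⟩ i j
    have h1 : ((up₂ L.V.subtype A').coeff i).coeff j = L.V.subtype ((A'.coeff i).coeff j) := by
      simp [up₂]
    rw [h1]
    exact ((A'.coeff i).coeff j).2

theorem In₂.dZ (h : In₂ L A) : In₂ L (dZ A) := by
  obtain ⟨A', rfl⟩ := in_up.1 h
  exact in_up.2 ⟨_, (dZ_up _ _).symm⟩

theorem In₂.dY (h : In₂ L A) : In₂ L (dY A) := by
  obtain ⟨A', rfl⟩ := in_up.1 h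
  exact in_up.2 ⟨_, (dY_up _ _).symm⟩

theorem In₂.add (h : In₂ L x) (h' : In₂ L g) : In₂ L (x + g) := by
  obtain ⟨x', rfl⟩ := in_up.1 h
  obtain ⟨g', rfl⟩ := in_up.1 h'
  exact in_up.2 ⟨x' + g', map_add _ _ _⟩

theorem In₂.sub (h : In₂ L x) (h' : In₂ L g) : In₂ L (x - g) := by
  obtain ⟨x', rfl⟩ := in_up.1 h
  obtain ⟨g', rfl⟩ := in_up.1 h'
  exact in_up.2 ⟨x' - g', map_sub _ _ _⟩

theorem In₂.mul (h : In₂ L x) (h' : In₂ L g) : In₂ L (x * g) := by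
  obtain ⟨x', rfl⟩ := in_up.1 h
  obtain ⟨g', rfl⟩ := in_up.1 h'
  exact in_up.2 ⟨x' * g', map_mul _ _ _⟩

theorem ev_le (hA : In₂ L A) (hP : Ip L P) : L.nm (ev₂ P A) ≤ 1 := by
  obtain ⟨A', rfl⟩ := in_up.1 hA
  have h := ev_up L.V.subtype ((⟨P.1, hP.1⟩ : L.V), (⟨P.2, hP.2⟩ : L.V)) A'
  change ev₂ P (up₂ L.V.subtype A') = _ at h
  rw [h]
  exact (ev₂ ((⟨P.1, hP.1⟩ : L.V), (⟨P.2, hP.2⟩ : L.V)) A').2

private theorem tay_aux (hA : In₂ L A) (hP : Ip L P) (hQ : Ip L Q) : ∃ k₁ k₂ k₃ : Ω,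
    L.nm k₁ ≤ 1 ∧ L.nm k₂ ≤ 1 ∧ L.nm k₃ ≤ 1 ∧
    ev₂ Q A = ev₂ P A + ev₂ P (dZ A) * (Q.1 - P.1) + ev₂ P (dY A) * (Q.2 - P.2) +
      k₁ * (Q.1 - P.1) ^ 2 + k₂ * ((Q.1 - P.1) * (Q.2 - P.2)) + k₃ * (Q.2 - P.2) ^ 2 := by
  obtain ⟨A', rfl⟩ := in_up.1 hA
  obtain ⟨c, hc⟩ : ∃ c : L.V, (c : Ω) = P.1 := ⟨⟨P.1, hP.1⟩, rfl⟩
  obtain ⟨w, hw⟩ : ∃ w : L.V, (w : Ω) = P.2 := ⟨⟨P.2, hP.2⟩, rfl⟩
  obtain ⟨c', hc'⟩ : ∃ c' : L.V, (c' : Ω) = Q.1 := ⟨⟨Q.1, hQ.1⟩, rfl⟩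
  obtain ⟨w', hw'⟩ : ∃ w' : L.V, (w' : Ω) = Q.2 := ⟨⟨Q.2, hQ.2⟩, rfl⟩
  obtain ⟨k₁, k₂, k₃, h⟩ := tay₂ A' c w (c' - c) (w' - w)
  rw [add_sub_cancel, add_sub_cancel] at h
  refine ⟨k₁, k₂, k₃, k₁.2, k₂.2, k₃.2, ?_⟩
  have h1 := congrArg L.V.subtype h
  have hP' : P = (L.V.subtype c, L.V.subtype w) := Prod.ext hc.symm hw.symm
  have hQ' : Q = (L.V.subtype c', L.V.subtype w') := Prod.ext hc'.symm hw'.symm
  rw [hP', hQ', dZ_up, dY_up, ev_up L.V.subtype (c', w'), ev_up L.V.subtype (c, w),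
    ev_up L.V.subtype (c, w), ev_up L.V.subtype (c, w), h1]
  simp only [map_add, map_mul, map_sub, map_pow]
  rfl

/-- **Taylor.** Proof: `tay₂` over the ring `L.V`. -/
theorem tay_nm (hA : In₂ L A) (hP : Ip L P) (hQ : Ip L Q) {r : ℝ} (h1 : L.nm (Q.1 - P.1) ≤ r)
    (h2 : L.nm (Q.2 - P.2) ≤ r) :
    L.nm (ev₂ Q A - ev₂ P A - (ev₂ P (dZ A) * (Q.1 - P.1) + ev₂ P (dY A) * (Q.2 - P.2))) ≤
      r ^ 2 := by
  obtain ⟨k₁, k₂, k₃, hk1, hk2, hk3, h⟩ := tay_aux hA hP hQ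
  have hr : 0 ≤ r := (L.nonneg _).trans h1
  have e : ev₂ Q A - ev₂ P A - (ev₂ P (dZ A) * (Q.1 - P.1) + ev₂ P (dY A) * (Q.2 - P.2)) =
      k₁ * (Q.1 - P.1) ^ 2 + k₂ * ((Q.1 - P.1) * (Q.2 - P.2)) + k₃ * (Q.2 - P.2) ^ 2 := by
    rw [h]
    ring
  rw [e]
  refine (L.add _ _).trans (max_le ((L.add _ _).trans (max_le ?_ ?_)) ?_)
  · rw [L.mul, L.pow]
    calc L.nm k₁ * L.nm (Q.1 - P.1) ^ 2 ≤ 1 * r ^ 2 :=
          mul_le_mul hk1 (pow_le_pow_left₀ (L.nonneg _) h1 2) (pow_nonneg (L.nonneg _) 2)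
            zero_le_one
      _ = r ^ 2 := one_mul _
  · rw [L.mul, L.mul]
    calc L.nm k₂ * (L.nm (Q.1 - P.1) * L.nm (Q.2 - P.2)) ≤ 1 * (r * r) :=
          mul_le_mul hk2 (mul_le_mul h1 h2 (L.nonneg _) hr)
            (mul_nonneg (L.nonneg _) (L.nonneg _)) zero_le_one
      _ = r ^ 2 := by ring
  · rw [L.mul, L.pow]
    calc L.nm k₃ * L.nm (Q.2 - P.2) ^ 2 ≤ 1 * r ^ 2 :=
          mul_le_mul hk3 (pow_le_pow_left₀ (L.nonneg _) h2 2) (pow_nonneg (L.nonneg _) 2)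
            zero_le_one
      _ = r ^ 2 := one_mul _

theorem ev_sub_le (hA : In₂ L A) (hP : Ip L P) (hQ : Ip L Q) {r : ℝ}
    (h1 : L.nm (Q.1 - P.1) ≤ r) (h2 : L.nm (Q.2 - P.2) ≤ r) :
    L.nm (ev₂ Q A - ev₂ P A) ≤ r := by
  obtain ⟨k₁, k₂, k₃, hk1, hk2, hk3, h⟩ := tay_aux hA hP hQ
  have hs : L.nm (Q.1 - P.1) ≤ 1 := (L.sub _ _).trans (max_le hQ.1 hP.1)
  have ht : L.nm (Q.2 - P.2) ≤ 1 := (L.sub _ _).trans (max_le hQ.2 hP.2)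
  have e : ev₂ Q A - ev₂ P A =
      (ev₂ P (GM.dZ A) + k₁ * (Q.1 - P.1)) * (Q.1 - P.1) +
        (ev₂ P (GM.dY A) + k₂ * (Q.1 - P.1) + k₃ * (Q.2 - P.2)) * (Q.2 - P.2) := by
    rw [h]
    ring
  have key : ∀ {a b : Ω}, L.nm a ≤ 1 → L.nm b ≤ 1 → L.nm (a * b) ≤ 1 := fun {a b} ha hb => by
    rw [L.mul]
    exact mul_le_one₀ ha (L.nonneg _) hb
  have key' : ∀ {a b : Ω}, L.nm a ≤ 1 → L.nm b ≤ r → L.nm (a * b) ≤ r := fun {a b} ha hb => by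
    rw [L.mul]
    exact (mul_le_of_le_one_left (L.nonneg _) ha).trans hb
  rw [e]
  refine (L.add _ _).trans (max_le (key' ?_ h1) (key' ?_ h2))
  · exact (L.add _ _).trans (max_le (ev_le hA.dZ hP) (key hk1 hs))
  · exact (L.add _ _).trans (max_le ((L.add _ _).trans (max_le (ev_le hA.dY hP) (key hk2 hs)))
      (key hk3 ht))

end GM
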