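import Pool.Agent.Lib.MP_f80667_ag.Cv.Newton
import Pool.Agent.Lib.MP_f80667_ag.Gm.GyA

/-!
Newton's lemma in two variables.
-/

open Polynomial

namespace GM

section ring

variable {R : Type} [CommRing R]

/-- The polynomials in one variable as polynomials in `X 0`. -/
private noncomputable def gyP : R[X] →+* MvPolynomial (Fin 2) R :=
  eval₂RingHom MvPolynomial.C (MvPolynomial.X 0)

/-- The isomorphism with the polynomials in two variables. -/
private noncomputable def gyQ : R[X][X] →+* MvPolynomial (Fin 2) R :=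
  eval₂RingHom gyP (MvPolynomial.X 1)

private theorem gyP_mon (n : ℕ) (r : R) :
    gyP (monomial n r) = MvPolynomial.C r * MvPolynomial.X 0 ^ n := by
  unfold gyP
  rw [coe_eval₂RingHom, eval₂_monomial]

private theorem gyQ_mon (n : ℕ) (f : R[X]) :
    gyQ (monomial n f) = gyP f * MvPolynomial.X 1 ^ n := by
  unfold gyQ
  rw [coe_eval₂RingHom, eval₂_monomial]

private theorem gyQ_eval (a : Fin 2 → R) (A : R[X][X]) :
    MvPolynomial.eval a (gyQ A) = ev₂ (a 0, a 1) A := by
  have h : (MvPolynomial.eval a).comp gyQ = ev₂ (a 0, a 1) := by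
    unfold gyQ gyP ev₂
    refine Polynomial.ringHom_ext' (Polynomial.ringHom_ext' ?_ ?_) ?_
    · ext r
      simp
    · simp
    · simp
  exact DFunLike.congr_fun h A

private theorem gyP_one (f : R[X]) : MvPolynomial.pderiv 1 (gyP f) = 0 := by
  induction f using Polynomial.induction_on' with
  | add p q hp hq => rw [map_add, map_add, hp, hq, add_zero]
  | monomial n r =>
    rw [gyP_mon, Derivation.leibniz, Derivation.leibniz_pow, MvPolynomial.pderiv_C,
      MvPolynomial.pderiv_X_of_ne (by decide : (0 : Fin 2) ≠ 1)]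
    simp

private theorem gyP_zero (f : R[X]) :
    MvPolynomial.pderiv 0 (gyP f) = gyP (derivative f) := by
  induction f using Polynomial.induction_on' with
  | add p q hp hq => rw [map_add, map_add, hp, hq, derivative_add, map_add]
  | monomial n r =>
    rw [gyP_mon, derivative_monomial, gyP_mon, Derivation.leibniz, Derivation.leibniz_pow,
      MvPolynomial.pderiv_C, MvPolynomial.pderiv_X_self]
    simp
    ring

private theorem gyQ_one (A : R[X][X]) :
    MvPolynomial.pderiv 1 (gyQ A) = gyQ (dY A) := by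
  unfold dY
  induction A using Polynomial.induction_on' with
  | add p q hp hq => rw [map_add, map_add, hp, hq, derivative_add, map_add]
  | monomial n r =>
    rw [gyQ_mon, derivative_monomial, gyQ_mon, Derivation.leibniz, Derivation.leibniz_pow,
      gyP_one, MvPolynomial.pderiv_X_self, map_mul, map_natCast]
    simp
    ring

private theorem gyQ_zero (A : R[X][X]) :
    MvPolynomial.pderiv 0 (gyQ A) = gyQ (dZ A) := by
  induction A using Polynomial.induction_on' with
  | add p q hp hq => rw [map_add, map_add, hp, hq, dZ_add, map_add]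
  | monomial n r =>
    have h1 : dZ (monomial n r) = C (derivative r) * X ^ n := by
      unfold dZ
      rw [sum_monomial_index]
      rw [derivative_zero, C_0, zero_mul]
    rw [h1, Polynomial.C_mul_X_pow_eq_monomial, gyQ_mon, gyQ_mon, Derivation.leibniz, Derivation.leibniz_pow,
      gyP_zero, MvPolynomial.pderiv_X_of_ne (by decide : (1 : Fin 2) ≠ 0)]
    simp
    ring

/-- **Newton's lemma.** Proof: `CV.newton_zero` with `e = 0` for the images of `x`, `g` in `MvPolynomial (Fin 2) R` (`z ↦ X 0`, `Y ↦ X 1`; `pderiv 0`, `pderiv 1` correspond to `dZ`, `dY`), `W` the inverse of the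
Jacobian matrix. (Or directly: the iteration, `CV.adic_limit` and `tay₂`.) -/
theorem newt₂ {π : R} [IsAdicComplete (Ideal.span {π}) R] {x g : R[X][X]} {P : R × R}
    (hx : π ∣ ev₂ P x) (hg : π ∣ ev₂ P g)
    (hu : IsUnit (ev₂ P (dZ x) * ev₂ P (dY g) - ev₂ P (dY x) * ev₂ P (dZ g))) :
    ∃ Q : R × R, π ∣ Q.1 - P.1 ∧ π ∣ Q.2 - P.2 ∧ ev₂ Q x = 0 ∧ ev₂ Q g = 0 := by
  obtain ⟨u, hu⟩ := hu
  have hP : ∀ A : R[X][X], MvPolynomial.eval ![P.1, P.2] (gyQ A) = ev₂ P A := fun A =>
    gyQ_eval ![P.1, P.2] A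
  have hui : (ev₂ P (dZ x) * ev₂ P (dY g) - ev₂ P (dY x) * ev₂ P (dZ g)) * ↑u⁻¹ = 1 := by
    rw [← hu]
    exact u.mul_inv
  obtain ⟨b, hb, hF⟩ := CV.newton_zero π 0 (![gyQ x, gyQ g] : Fin 2 → MvPolynomial (Fin 2) R)
    ![P.1, P.2] (![![ev₂ P (dY g) * ↑u⁻¹, -ev₂ P (dY x) * ↑u⁻¹],
      ![-ev₂ P (dZ g) * ↑u⁻¹, ev₂ P (dZ x) * ↑u⁻¹]] : Fin 2 → Fin 2 → R) (by
      intro i j
      rw [Fin.sum_univ_two, pow_zero]
      fin_cases i <;> fin_cases j
      · simp only [Fin.zero_eta, Matrix.cons_val_zero, Matrix.cons_val_one]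
        rw [gyQ_zero, gyQ_one, hP, hP, if_pos trivial]
        linear_combination hui
      · simp only [Fin.zero_eta, Fin.mk_one, Matrix.cons_val_zero, Matrix.cons_val_one]
        rw [gyQ_zero, gyQ_one, hP, hP, if_neg (by decide)]
        ring
      · simp only [Fin.zero_eta, Fin.mk_one, Matrix.cons_val_zero, Matrix.cons_val_one]
        rw [gyQ_zero, gyQ_one, hP, hP, if_neg (by decide)]
        ring
      · simp only [Fin.mk_one, Matrix.cons_val_zero, Matrix.cons_val_one]
        rw [gyQ_zero, gyQ_one, hP, hP, if_pos trivial]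
        linear_combination hui) (by
      intro i
      rw [mul_zero, zero_add, pow_one]
      fin_cases i
      · change π ∣ MvPolynomial.eval ![P.1, P.2] (gyQ x)
        rw [hP]
        exact hx
      · change π ∣ MvPolynomial.eval ![P.1, P.2] (gyQ g)
        rw [hP]
        exact hg)
  have h0 := hb 0
  have h1 := hb 1
  rw [zero_add, pow_one] at h0 h1
  refine ⟨(b 0, b 1), h0, h1, ?_, ?_⟩
  · rw [← gyQ_eval]
    exact hF 0
  · rw [← gyQ_eval]
    exact hF 1

end ring

end GM
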