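import Pool.Agent.Lib.MP_f80667_ag.Gm.GyB
import Pool.Agent.Lib.MP_f80667_ag.Gm.GyAn

/-!
Zeros near approximate zeros exist over complete fields.
-/

open ZC BE PE CV IntermediateField

namespace GM

variable {K Ω : Type} [Field K] [Field Ω] [Algebra K Ω] {L : Ld K Ω}
  {A x g : Polynomial (Polynomial Ω)} {P Q Q' : Ω × Ω}

/-- Polynomials with coefficients in the range of a ring homomorphism. -/
private theorem up_range {R R' : Type} [CommRing R] [CommRing R'] (f : R →+* R')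
    {B : Polynomial (Polynomial R')} (h : ∀ i j, ∃ c, f c = (B.coeff i).coeff j) :
    ∃ B' : Polynomial (Polynomial R), up₂ f B' = B := by
  have h1 : B ∈ Polynomial.lifts (Polynomial.mapRingHom f) := by
    rw [Polynomial.lifts_iff_coeff_lifts]
    intro i
    have h2 : B.coeff i ∈ Polynomial.lifts f := by
      rw [Polynomial.lifts_iff_coeff_lifts]
      intro j
      exact h i j
    exact (Polynomial.mem_lifts _).1 h2
  exact (Polynomial.mem_lifts _).1 h1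

/-- Proof: `newt₂` over the ring `OM L M`, `(π)` its maximal ideal (`exists_up`, `acOM`, `unitOM`, `maxOM` of `Cv/MdL.lean`). -/
theorem near_ex {M : IntermediateField K Ω} [FiniteDimensional K M] (hx : In₂ L x)
    (hg : In₂ L g) (mx : Rm M x) (mg : Rm M g) (hP : Ip L P) (m1 : P.1 ∈ M) (m2 : P.2 ∈ M)
    (hJ : L.nm (jac x g P) = 1) (h3 : L.nm (ev₂ P x) < 1) (h4 : L.nm (ev₂ P g) < 1) :
    ∃ Q : Ω × Ω, Q.1 ∈ M ∧ Q.2 ∈ M ∧ L.nm (Q.1 - P.1) < 1 ∧ L.nm (Q.2 - P.2) < 1 ∧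
      ev₂ Q x = 0 ∧ ev₂ Q g = 0 := by
  obtain ⟨f, hf⟩ : ∃ f : OM L M →+* Ω, ∀ z : OM L M, f z = ((z : M) : Ω) :=
    ⟨(algebraMap M Ω).comp (OM L M).subtype, fun _ => rfl⟩
  have hrg : ∀ c : Ω, c ∈ M → L.nm c ≤ 1 → ∃ z : OM L M, f z = c := fun c hc h1 =>
    ⟨⟨⟨c, hc⟩, h1⟩, hf _⟩
  obtain ⟨x', rfl⟩ := up_range f fun i j => hrg _ (mx i j) (hx i j)
  obtain ⟨g', rfl⟩ := up_range f fun i j => hrg _ (mg i j) (hg i j)
  obtain ⟨c, hc⟩ := hrg _ m1 hP.1
  obtain ⟨w, hw⟩ := hrg _ m2 hP.2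
  obtain rfl : (f c, f w) = P := Prod.ext hc hw
  obtain ⟨π, hπ⟩ := IsDiscreteValuationRing.exists_irreducible (OM L M)
  have hmax := (IsDiscreteValuationRing.irreducible_iff_uniformizer π).1 hπ
  have : IsAdicComplete (Ideal.span {π}) (OM L M) := by
    rw [← hmax]
    exact acOM L M
  have hdvd : ∀ z : OM L M, π ∣ z ↔ L.nm (f z) < 1 := fun z => by
    rw [← Ideal.mem_span_singleton, ← hmax, maxOM, hf]
  have h5 : IsUnit (ev₂ (c, w) (dZ x') * ev₂ (c, w) (dY g') -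
      ev₂ (c, w) (dY x') * ev₂ (c, w) (dZ g')) := by
    rw [unitOM, ← hf, map_sub, map_mul, map_mul, ← ev_up, ← ev_up, ← ev_up, ← ev_up, ← dZ_up,
      ← dZ_up, ← dY_up, ← dY_up]
    exact hJ
  obtain ⟨Q, q1, q2, q3, q4⟩ := newt₂ (π := π) (x := x') (g := g') (P := (c, w))
    ((hdvd _).2 (by rw [← ev_up]; exact h3)) ((hdvd _).2 (by rw [← ev_up]; exact h4)) h5
  rw [hdvd, map_sub] at q1 q2
  have hM : ∀ z : OM L M, f z ∈ M := fun z => by
    rw [hf]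
    exact (z : M).2
  refine ⟨(f Q.1, f Q.2), hM _, hM _, q1, q2, ?_, ?_⟩
  · rw [ev_up, q3, map_zero]
  · rw [ev_up, q4, map_zero]

end GM
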