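import Pool.Agent.Lib.MP_f80667_ag.Gm.GyB

/-!
Zeros are integral.
-/

open ZC BE PE CV IntermediateField

namespace GM

variable {K Ω : Type} [Field K] [Field Ω] [Algebra K Ω] {L : Ld K Ω}
  {A x g : Polynomial (Polynomial Ω)} {P Q Q' : Ω × Ω}

private theorem gybz_ev (c w : Ω) (A : Polynomial (Polynomial Ω)) :
    ev₂ (c, w) A = (A.map (Polynomial.evalRingHom c)).eval w := by
  rw [ev₂_eq, Polynomial.map_evalRingHom_eval]

private theorem gybz_sum (c w : Ω) (A : Polynomial (Polynomial Ω)) :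
    ev₂ (c, w) A = ∑ j ∈ Finset.range (A.natDegree + 1), (A.coeff j).eval c * w ^ j := by
  rw [gybz_ev, Polynomial.eval_map, Polynomial.eval₂_eq_sum_range]
  rfl

private theorem gybz_big (f : Polynomial Ω) (hf : ∀ i, L.nm (f.coeff i) ≤ 1) {c : Ω}
    (hc : 1 ≤ L.nm c) : L.nm (f.eval c) ≤ L.nm c ^ f.natDegree := by
  rw [Polynomial.eval_eq_sum_range]
  refine L.sum_le _ _ (pow_nonneg (L.nonneg _) _) fun i hi => ?_
  rw [L.mul, L.pow]
  refine (mul_le_of_le_one_left (pow_nonneg (L.nonneg _) i) (hf i)).trans ?_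
  exact pow_le_pow_right₀ hc (Nat.lt_succ_iff.1 (Finset.mem_range.1 hi))

/-- **Zeros are integral.** Proof: let `P = (c, w)`. If `nm c ≤ 1` then `nm w ≤ 1`, because `g` is monic in `Y` with integral coefficients. Let `nm c > 1`. If `nm w > nm c ^ ρ` then the term `w ^ n` of `g (c, w)` is
larger than all others (`Mc.le`). So `nm w ≤ nm c ^ ρ`, and the term `c ^ D` of `x (c, w)` is larger than all others (`Ut`). -/
theorem z_int {ρ n D : ℕ} (hg : Mc ρ n g) (ig : In₂ L g) (hx : Ut ρ D x) (ix : In₂ L x)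
    (h0 : ev₂ P g = 0) (h1 : ev₂ P x = 0) : Ip L P := by
  obtain ⟨c, w⟩ := P
  rcases le_or_gt (L.nm c) 1 with hc | hc
  · refine ⟨hc, ?_⟩
    rw [gybz_ev] at h0
    refine L.root_le (hg.monic.map _) (fun i => ?_) h0
    rw [Polynomial.coeff_map]
    exact L.eval_le (ig i) hc
  · exfalso
    have hc0 : 0 ≤ L.nm c := L.nonneg c
    have hw : L.nm w ≤ L.nm c ^ ρ := by
      by_contra hlt
      rw [not_le] at hlt
      have hw0 : 0 < L.nm w := (pow_nonneg hc0 ρ).trans_lt hlt
      have hm := hg.monic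
      rw [gybz_sum, Finset.sum_range_succ, hg.deg] at h0
      have hcn : g.coeff n = 1 := by
        have h := hm.coeff_natDegree
        rwa [hg.deg] at h
      rw [hcn, Polynomial.eval_one, one_mul] at h0
      have h2 : w ^ n = -∑ j ∈ Finset.range n, (g.coeff j).eval c * w ^ j :=
        eq_neg_of_add_eq_zero_right h0
      rcases n with _ | n
      · rw [pow_zero, Finset.range_zero, Finset.sum_empty, neg_zero] at h2
        exact one_ne_zero h2
      · have h3 : L.nm (w ^ (n + 1)) ≤ L.nm c ^ ρ * L.nm w ^ n := by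
          rw [h2, L.neg]
          refine L.sum_le _ _ (mul_nonneg (pow_nonneg hc0 ρ) (pow_nonneg hw0.le n)) fun j hj => ?_
          have hj' : j ≤ n := Nat.lt_succ_iff.1 (Finset.mem_range.1 hj)
          rw [L.mul, L.pow]
          obtain ⟨k, rfl⟩ := Nat.exists_eq_add_of_le hj'
          have h4 : L.nm ((g.coeff j).eval c) ≤ (L.nm c ^ ρ) ^ (k + 1) := by
            refine (gybz_big _ (ig j) hc.le).trans ?_
            rw [← pow_mul]
            refine pow_le_pow_right₀ hc.le ((hg.le j).trans (le_of_eq ?_))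
            have h5 : j + k + 1 - j = k + 1 := by omega
            rw [h5, mul_comm]
          calc L.nm ((g.coeff j).eval c) * L.nm w ^ j
              ≤ (L.nm c ^ ρ) ^ (k + 1) * L.nm w ^ j :=
                mul_le_mul_of_nonneg_right h4 (pow_nonneg hw0.le j)
            _ = L.nm c ^ ρ * ((L.nm c ^ ρ) ^ k * L.nm w ^ j) := by ring
            _ ≤ L.nm c ^ ρ * (L.nm w ^ k * L.nm w ^ j) := by
                refine mul_le_mul_of_nonneg_left ?_ (pow_nonneg hc0 ρ)
                refine mul_le_mul_of_nonneg_right ?_ (pow_nonneg hw0.le j)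
                exact pow_le_pow_left₀ (pow_nonneg hc0 ρ) hlt.le k
            _ = L.nm c ^ ρ * L.nm w ^ (j + k) := by rw [← pow_add, add_comm k j]
        rw [L.pow, pow_succ'] at h3
        exact absurd (mul_lt_mul_of_pos_right hlt (pow_pos hw0 n)) (not_lt.2 h3)
    obtain ⟨y, hy⟩ : ∃ y, y = x - Polynomial.C (Polynomial.X ^ D) := ⟨_, rfl⟩
    have iy : In₂ L y := by
      intro i j
      rw [hy, Polynomial.coeff_sub, Polynomial.coeff_sub]
      refine (L.sub _ _).trans (max_le (ix i j) ?_)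
      rw [Polynomial.coeff_C]
      split_ifs
      · rw [Polynomial.coeff_X_pow]
        split_ifs
        · exact L.one.le
        · rw [(L.zero_iff 0).2 rfl]
          exact zero_le_one
      · rw [Polynomial.coeff_zero, (L.zero_iff 0).2 rfl]
        exact zero_le_one
    have hx' : Wl ρ D y := by
      rw [hy]
      exact hx
    have e1 : x = y + Polynomial.C (Polynomial.X ^ D) := by
      rw [hy]
      ring
    have e2 : ev₂ (c, w) (Polynomial.C (Polynomial.X ^ D)) = c ^ D := by
      simp [ev₂]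
    rw [e1, map_add, e2] at h1
    have h2 : c ^ D = -ev₂ (c, w) y := eq_neg_of_add_eq_zero_right h1
    have hterm : ∀ j, y.coeff j ≠ 0 → L.nm ((y.coeff j).eval c * w ^ j) ≤ L.nm c ^ (D - 1) := by
      intro j hj
      have h3 := hx' j hj
      rw [L.mul, L.pow]
      calc L.nm ((y.coeff j).eval c) * L.nm w ^ j
          ≤ L.nm c ^ (y.coeff j).natDegree * (L.nm c ^ ρ) ^ j := by
            refine mul_le_mul (gybz_big _ (iy j) hc.le) ?_ (pow_nonneg (L.nonneg _) j)
              (pow_nonneg hc0 _)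
            exact pow_le_pow_left₀ (L.nonneg _) hw j
        _ = L.nm c ^ ((y.coeff j).natDegree + j * ρ) := by
            rw [← pow_mul, ← pow_add, mul_comm ρ j]
        _ ≤ L.nm c ^ (D - 1) := pow_le_pow_right₀ hc.le (by omega)
    have h3 : L.nm (ev₂ (c, w) y) ≤ L.nm c ^ (D - 1) := by
      rw [gybz_sum]
      refine L.sum_le _ _ (pow_nonneg hc0 _) fun j _ => ?_
      by_cases hj : y.coeff j = 0
      · rw [hj, Polynomial.eval_zero, zero_mul, (L.zero_iff 0).2 rfl]
        exact pow_nonneg hc0 _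
      · exact hterm j hj
    rcases Nat.eq_zero_or_pos D with rfl | hD
    · have hy0 : y = 0 := by
        ext1 j
        by_contra hj
        rw [Polynomial.coeff_zero] at hj
        exact absurd (hx' j hj) (by omega)
      rw [hy0, map_zero, pow_zero, neg_zero] at h2
      exact one_ne_zero h2
    · have h4 : L.nm (c ^ D) ≤ L.nm c ^ (D - 1) := by
        rw [h2, L.neg]
        exact h3
      rw [L.pow] at h4
      exact absurd (pow_lt_pow_right₀ hc (by omega : D - 1 < D)) (not_lt.2 h4)

/-- Proof: `g (c, Y)` is monic with integral coefficients. -/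
theorem w_int (hg : g.Monic) (ig : In₂ L g) {c w : Ω} (hc : L.nm c ≤ 1)
    (h0 : ev₂ (c, w) g = 0) : L.nm w ≤ 1 := by
  rw [gybz_ev] at h0
  refine L.root_le (hg.map _) (fun i => ?_) h0
  rw [Polynomial.coeff_map]
  exact L.eval_le (ig i) hc

/-- The root near an approximate root. Proof: `g (c', Y) = ∏ (Y - w')`, and `nm (g (c', w)) < 1`. -/
theorem near_root [IsAlgClosed Ω] (hg : g.Monic) (ig : In₂ L g) {c w : Ω} (hc : L.nm c ≤ 1)
    (hw : L.nm w ≤ 1) (h0 : L.nm (ev₂ (c, w) g) < 1) :
    ∃ w', ev₂ (c, w') g = 0 ∧ L.nm (w - w') < 1 := by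
  obtain ⟨f, hf⟩ : ∃ f, f = g.map (Polynomial.evalRingHom c) := ⟨_, rfl⟩
  have hm : f.Monic := by
    rw [hf]
    exact hg.map _
  rw [gybz_ev, ← hf, (IsAlgClosed.splits f).eval_eq_prod_roots_of_monic hm] at h0
  have key : ∀ s : Multiset Ω, L.nm ((s.map fun a => w - a).prod) < 1 →
      ∃ w' ∈ s, L.nm (w - w') < 1 := by
    intro s
    induction s using Multiset.induction_on with
    | empty =>
      intro h
      rw [Multiset.map_zero, Multiset.prod_zero, L.one] at h
      exact absurd h (lt_irrefl _)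
    | cons a s ih =>
      intro h
      rw [Multiset.map_cons, Multiset.prod_cons, L.mul] at h
      rcases lt_or_ge (L.nm (w - a)) 1 with h1 | h1
      · exact ⟨a, Multiset.mem_cons_self a s, h1⟩
      · obtain ⟨w', hw', h2⟩ := ih (lt_of_le_of_lt (le_mul_of_one_le_left (L.nonneg _) h1) h)
        exact ⟨w', Multiset.mem_cons_of_mem hw', h2⟩
  obtain ⟨w', hw', h2⟩ := key _ h0
  refine ⟨w', ?_, h2⟩
  rw [gybz_ev, ← hf]
  exact (Polynomial.mem_roots'.1 hw').2

end GM
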