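import Mathlib

/-!
Pure algebra for hypersurfaces: functions `ℓ` on the pairs (point of a hypersurface, tangent vector) which are linear in the
tangent vector and satisfy the relations of the curves (`Fn`).
-/

open MvPolynomial

namespace GM

variable {κ : Type} [Field κ] {N : ℕ}

/-- The derivative of `G` at `y` in the direction `u`. -/
noncomputable def dG (G : MvPolynomial (Fin N) κ) (y u : Fin N → κ) : κ :=
  ∑ i, eval y (pderiv i G) * u i

/-- The restriction of `G` to the line `b + Y e_m`. -/
noncomputable def gp (G : MvPolynomial (Fin N) κ) (m : Fin N) (b : Fin N → κ) : Polynomial κ :=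
  aeval (fun i => Polynomial.C (b i) + if i = m then Polynomial.X else 0) G

/-- The point `b + w e_m`. -/
def sh (m : Fin N) (b : Fin N → κ) (w : κ) : Fin N → κ := fun i => b i + if i = m then w else 0

/-- `Δ` shows that the lines in the direction `m` meet the hypersurface in distinct points. -/
structure Dsc (G : MvPolynomial (Fin N) κ) (m : Fin N) (Δ : MvPolynomial (Fin N) κ) : Prop where
  ne : Δ ≠ 0
  hom : ∃ e, Δ.IsHomogeneous e
  free : degreeOf m Δ = 0
  bez : ∃ A B, A * G + B * pderiv m G = Δ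

/-- `u` is a tangent vector at the point `y` of the hypersurface. -/
def Tg (G : MvPolynomial (Fin N) κ) (y u : Fin N → κ) : Prop :=
  y ≠ 0 ∧ eval y G = 0 ∧ dG G y u = 0

/-- The projection of `u` to the tangent space along `e_m`. -/
noncomputable def pv (G : MvPolynomial (Fin N) κ) (m : Fin N) (y u : Fin N → κ) : Fin N → κ :=
  fun i => u i - if i = m then dG G y u / eval y (pderiv m G) else 0

/-- The sum over the points of the hypersurface on the line `b + Y e_m`. -/
noncomputable def Pj (G : MvPolynomial (Fin N) κ) (ℓ : (Fin N → κ) → (Fin N → κ) → κ) (m : Fin N)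
    (j : ℕ) (b u : Fin N → κ) : κ :=
  ((gp G m b).roots.map fun w => w ^ j * ℓ (sh m b w) (pv G m (sh m b w) u)).sum

/-- The values of an arc. -/
noncomputable def av (a : Fin N → Polynomial κ) (c : κ) : Fin N → κ := fun i => (a i).eval c

/-- The values of the derivative of an arc. -/
noncomputable def dv (a : Fin N → Polynomial κ) (c : κ) : Fin N → κ :=
  fun i => (Polynomial.derivative (a i)).eval c

open Classical in
/-- The divided difference of `T` on the set `s`. -/
noncomputable def dd (s : Finset κ) (T : κ → κ) : κ :=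
  ∑ c ∈ s, (∏ c' ∈ s.erase c, (c - c'))⁻¹ * T c

/-- `ℓ` is linear in the tangent vector, homogeneous, `0` on the radial vectors and satisfies the relations of the curves
`{G (a(z) + w e_m) = 0}`. -/
structure Fn (G : MvPolynomial (Fin N) κ) (Δ : Fin N → MvPolynomial (Fin N) κ)
    (ℓ : (Fin N → κ) → (Fin N → κ) → κ) : Prop where
  add : ∀ y u u', Tg G y u → Tg G y u' → ℓ y (u + u') = ℓ y u + ℓ y u'
  smul : ∀ y u (t : κ), Tg G y u → ℓ y (t • u) = t * ℓ y u
  hom : ∀ y u (t : κ), t ≠ 0 → Tg G y u → ℓ (t • y) (t • u) = ℓ y u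
  rad : ∀ y, Tg G y y → ℓ y y = 0
  crv : ∀ (m : Fin N) (a : Fin N → Polynomial κ) (ρ j : ℕ) (s : Finset κ),
    (∀ i, (a i).natDegree ≤ ρ) → j * ρ < s.card → (∀ c ∈ s, eval (av a c) (Δ m) ≠ 0) →
    dd s (fun c => Pj G ℓ m j (av a c) (dv a c)) = 0

/-- The hypersurface: hypotheses. -/
structure Hy (p n : ℕ) (G : MvPolynomial (Fin N) κ) (Δ : Fin N → MvPolynomial (Fin N) κ) :
    Prop where
  two : 2 ≤ n
  dim : 4 ≤ N
  prime : p.Prime
  char : CharP κ p
  lt : n < p
  inf : Infinite κ
  root : ∀ x : κ, ∃ y, y ^ p = x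
  spl : ∀ f : Polynomial κ, f ≠ 0 → f.natDegree ≤ n → Multiset.card f.roots = f.natDegree
  hom : G.IsHomogeneous n
  ne : ∀ i, coeff (Finsupp.single i n) G ≠ 0
  smooth : ∃ s : ℕ, ∀ i, (X i : MvPolynomial (Fin N) κ) ^ s ∈
    Ideal.span (Set.range fun j => pderiv j G)
  dsc : ∀ m, Dsc G m (Δ m)

end GM
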