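import Pool.Agent.Lib.MP_f80667_ag.Gm.GsA

/-! Residues of polynomials; smoothness. -/

open ZC BE PE CV IntermediateField

namespace GM

variable {F : Type} [Field F] {n : ℕ} {K Ω : Type} [Field K] [Field Ω] [Algebra K Ω]
  [Algebra F K] [Algebra F Ω] [IsScalarTower F K Ω] {L : Ld K Ω} {k : Subfield L.κ}

/-- The residue of a polynomial exists. -/
theorem exists_rdp {G : MvPolynomial (Fin n) F} (hG : ∀ d, L.nm (algebraMap F Ω (G.coeff d)) ≤ 1)
    (hk : ∀ x : K, L.nm (algebraMap K Ω x) ≤ 1 →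
      ∃ t : k, L.rs.Hv (algebraMap K Ω x) (t : L.κ)) :
    ∃ g : MvPolynomial (Fin n) k, Rdp L k G g := by
  classical
  have h1 : ∀ d, ∃ t : k, L.rs.Hv (algebraMap F Ω (G.coeff d)) (t : L.κ) := by
    intro d
    rw [IsScalarTower.algebraMap_apply F K Ω]
    refine hk _ ?_
    rw [← IsScalarTower.algebraMap_apply F K Ω]
    exact hG d
  choose t ht using h1
  refine ⟨∑ d ∈ G.support, MvPolynomial.monomial d (t d), fun d => ?_⟩
  have h2 : MvPolynomial.coeff d (∑ d ∈ G.support, MvPolynomial.monomial d (t d)) =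
      if d ∈ G.support then t d else 0 := by
    rw [MvPolynomial.coeff_sum]
    simp only [MvPolynomial.coeff_monomial]
    rw [Finset.sum_ite_eq']
  rw [h2]
  by_cases hd : d ∈ G.support
  · rw [if_pos hd]
    exact ht d
  · rw [if_neg hd, MvPolynomial.notMem_support_iff.1 hd, map_zero]
    exact Rs.Hv.zero

omit [Algebra F K] [IsScalarTower F K Ω] in
private theorem gsas_sum {ι : Type*} {s : Finset ι} {f : ι → Ω} {g : ι → L.κ}
    (h : ∀ i ∈ s, L.rs.Hv (f i) (g i)) : L.rs.Hv (∑ i ∈ s, f i) (∑ i ∈ s, g i) := by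
  classical
  induction s using Finset.induction_on with
  | empty =>
    rw [Finset.sum_empty, Finset.sum_empty]
    exact Rs.Hv.zero
  | insert a s ha ih =>
    rw [Finset.sum_insert ha, Finset.sum_insert ha]
    exact (h a (Finset.mem_insert_self a s)).add
      (ih fun i hi => h i (Finset.mem_insert_of_mem hi))

omit [Algebra F K] [IsScalarTower F K Ω] in
private theorem gsas_mul {A B : MvPolynomial (Fin n) F} {a b : MvPolynomial (Fin n) k}
    (hA : Rdp L k A a) (hB : Rdp L k B b) : Rdp L k (A * B) (a * b) := by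
  intro d
  have h1 : (((a * b).coeff d : k) : L.κ) = ∑ x ∈ Finset.HasAntidiagonal.antidiagonal d,
      ((a.coeff x.1 : k) : L.κ) * ((b.coeff x.2 : k) : L.κ) := by
    change k.subtype ((a * b).coeff d) = _
    rw [MvPolynomial.coeff_mul, map_sum]
    exact Finset.sum_congr rfl fun x _ => map_mul k.subtype _ _
  rw [h1, MvPolynomial.coeff_mul, map_sum]
  refine gsas_sum fun x _ => ?_
  rw [map_mul]
  exact (hA x.1).mul (hB x.2)

omit [Algebra F K] [IsScalarTower F K Ω] in
private theorem gsas_fsum {A : Fin n → MvPolynomial (Fin n) F} {a : Fin n → MvPolynomial (Fin n) k}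
    (h : ∀ j, Rdp L k (A j) (a j)) : Rdp L k (∑ j, A j) (∑ j, a j) := by
  intro d
  have h1 : (((∑ j, a j).coeff d : k) : L.κ) = ∑ j, (((a j).coeff d : k) : L.κ) := by
    change k.subtype ((∑ j, a j).coeff d) = _
    rw [MvPolynomial.coeff_sum, map_sum]
    rfl
  rw [h1, MvPolynomial.coeff_sum, map_sum]
  exact gsas_sum fun j _ => h j d

omit [Algebra F K] [IsScalarTower F K Ω] in
private theorem gsas_X (i : Fin n) (s : ℕ) :
    Rdp L k ((MvPolynomial.X i : MvPolynomial (Fin n) F) ^ s) (MvPolynomial.X i ^ s) := by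
  classical
  intro d
  rw [MvPolynomial.coeff_X_pow, MvPolynomial.coeff_X_pow]
  split_ifs
  · rw [map_one]
    exact Rs.Hv.one
  · rw [map_zero]
    exact Rs.Hv.zero

omit [Algebra F K] [IsScalarTower F K Ω] in
private theorem gsas_uniq {A : MvPolynomial (Fin n) F} {a b : MvPolynomial (Fin n) k}
    (h : Rdp L k A a) (h' : Rdp L k A b) : a = b := by
  ext d
  exact (h d).uniq (h' d)

/-- Smoothness. Proof: the reductions of the identities `X_i ^ s = ∑ c_j G_j`; the coefficients of the `c_j` are elements of `F`, so elements of `K`, of norm `≤ 1`: by `hk`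
their residues are in `k` (`exists_rdp`). -/
theorem Rdp.sm {G : MvPolynomial (Fin n) F} {g : MvPolynomial (Fin n) k} (h : Rdp L k G g)
    (hs : Sm G L) (hk : ∀ x : K, L.nm (algebraMap K Ω x) ≤ 1 →
      ∃ t : k, L.rs.Hv (algebraMap K Ω x) (t : L.κ)) :
    ∃ s : ℕ, ∀ i, (MvPolynomial.X i : MvPolynomial (Fin n) k) ^ s ∈
      Ideal.span (Set.range fun j => MvPolynomial.pderiv j g) := by
  obtain ⟨s, hs⟩ := hs
  refine ⟨s, fun i => ?_⟩
  obtain ⟨c, hc, hX⟩ := hs i
  have h0 : ∀ j, ∃ g : MvPolynomial (Fin n) k, Rdp L k (c j) g := fun j => exists_rdp (hc j) hk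
  choose c' hc' using h0
  have h1 : (MvPolynomial.X i : MvPolynomial (Fin n) k) ^ s =
      ∑ j, c' j * MvPolynomial.pderiv j g := by
    refine gsas_uniq (L := L) (A := (MvPolynomial.X i : MvPolynomial (Fin n) F) ^ s)
      (gsas_X i s) ?_
    rw [hX]
    exact gsas_fsum fun j => gsas_mul (hc' j) (h.pderiv j)
  rw [h1]
  exact Ideal.sum_mem _ fun j _ => Ideal.mul_mem_left _ _ (Ideal.subset_span ⟨j, rfl⟩)

end GM
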