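import Pool.Agent.Lib.MP_f80667_ag.Gm.AlD

/-! Elementary facts on the lines in the direction `m`. -/

open MvPolynomial

namespace GM

variable {κ : Type} [Field κ] {N : ℕ} {G : MvPolynomial (Fin N) κ}

private theorem ala_eval_smul {n : ℕ} {F : MvPolynomial (Fin N) κ} (hF : F.IsHomogeneous n)
    (t : κ) (y : Fin N → κ) : eval (t • y) F = t ^ n * eval y F := by
  rw [eval_eq', eval_eq', Finset.mul_sum]
  refine Finset.sum_congr rfl fun d hd => ?_
  have h1 : d.degree = n := by
    rw [← hF (mem_support_iff.1 hd), Finsupp.degree_eq_weight_one]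
    rfl
  have h2 : ∑ i, d i = n := by
    rw [← h1, Finsupp.degree_eq_sum]
  have h3 : ∏ i, (t • y) i ^ d i = t ^ n * ∏ i, y i ^ d i := by
    simp only [Pi.smul_apply, smul_eq_mul, mul_pow]
    rw [Finset.prod_mul_distrib, Finset.prod_pow_eq_pow_sum, h2]
  rw [h3]
  ring

private theorem ala_gp_mon (m : Fin N) (b : Fin N → κ) (d : Fin N →₀ ℕ) :
    ∃ K : κ, (gp (monomial d 1) m b = Polynomial.C K * (Polynomial.X + Polynomial.C (b m)) ^ d m) ∧
      ((∀ i, i ≠ m → d i = 0) → K = 1) := by
  classical
  refine ⟨∏ i ∈ Finset.univ.erase m, b i ^ d i, ?_, fun h => ?_⟩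
  · unfold gp
    rw [aeval_monomial, map_one, one_mul, Finsupp.prod_fintype _ _ (fun i => pow_zero _),
      ← Finset.prod_erase_mul _ _ (Finset.mem_univ m), map_prod]
    congr 1
    · refine Finset.prod_congr rfl fun i hi => ?_
      rw [if_neg (Finset.ne_of_mem_erase hi), add_zero, map_pow]
    · rw [if_pos rfl, add_comm]
  · refine Finset.prod_eq_one fun i hi => ?_
    rw [h i (Finset.ne_of_mem_erase hi), pow_zero]

private theorem ala_gp_deg (m : Fin N) (b : Fin N → κ) (d : Fin N →₀ ℕ) :
    (gp (monomial d 1 : MvPolynomial (Fin N) κ) m b).natDegree ≤ d.degree ∧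
      (gp (monomial d 1 : MvPolynomial (Fin N) κ) m b).coeff d.degree =
        coeff (Finsupp.single m d.degree) (monomial d 1 : MvPolynomial (Fin N) κ) := by
  classical
  obtain ⟨K, h1, h2⟩ := ala_gp_mon m b d
  have hdm : d m ≤ d.degree := Finsupp.le_degree m d
  have h3 : (gp (monomial d 1 : MvPolynomial (Fin N) κ) m b).natDegree ≤ d m := by
    rw [h1]
    refine (Polynomial.natDegree_C_mul_le _ _).trans ?_
    rw [Polynomial.natDegree_pow_X_add_C]
  refine ⟨h3.trans hdm, ?_⟩
  rw [coeff_monomial]
  by_cases hd : d m = d.degree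
  · have h4 : ∀ i, i ≠ m → d i = 0 := by
      intro i hi
      have h5 : ∑ j, d j = d m := by rw [hd, Finsupp.degree_eq_sum]
      rw [← Finset.add_sum_erase _ _ (Finset.mem_univ m)] at h5
      have h6 : ∑ j ∈ Finset.univ.erase m, d j = 0 := by omega
      exact Finset.sum_eq_zero_iff.1 h6 i (Finset.mem_erase.2 ⟨hi, Finset.mem_univ i⟩)
    have h7 : d = Finsupp.single m d.degree := by
      ext i
      by_cases hi : i = m
      · rw [hi, hd, Finsupp.single_eq_same]
      · rw [h4 i hi, Finsupp.single_eq_of_ne (by simpa using hi)]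
    rw [if_pos h7, h1, h2 h4, Polynomial.C_1, one_mul, ← hd]
    have h8 := (Polynomial.monic_X_add_C (b m)).pow (d m)
    have h9 : ((Polynomial.X + Polynomial.C (b m)) ^ d m).natDegree = d m := by
      rw [Polynomial.natDegree_pow_X_add_C]
    rw [Polynomial.Monic, Polynomial.leadingCoeff, h9] at h8
    exact h8
  · rw [Polynomial.coeff_eq_zero_of_natDegree_lt (by omega), if_neg]
    intro h
    apply hd
    have h5 := DFunLike.congr_fun h m
    rwa [Finsupp.single_eq_same] at h5

private theorem aeval_eq_sum_ala (F : MvPolynomial (Fin N) κ) (f : Fin N → Polynomial κ) :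
    aeval f F = ∑ d ∈ F.support, Polynomial.C (coeff d F) * ∏ i, f i ^ d i := by
  conv_lhs => rw [F.as_sum]
  rw [map_sum]
  refine Finset.sum_congr rfl fun d _ => ?_
  rw [aeval_monomial, Finsupp.prod_fintype _ _ (fun i => pow_zero _)]
  rfl

private theorem ala_gp_sum (G : MvPolynomial (Fin N) κ) (m : Fin N) (b : Fin N → κ) :
    gp G m b = ∑ d ∈ G.support, Polynomial.C (coeff d G) * gp (monomial d 1) m b := by
  conv_lhs => rw [G.as_sum]
  unfold gp
  rw [map_sum]
  refine Finset.sum_congr rfl fun d _ => ?_
  rw [aeval_monomial, aeval_monomial, map_one, one_mul]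
  rfl

theorem gp_eval (G : MvPolynomial (Fin N) κ) (m : Fin N) (b : Fin N → κ) (w : κ) :
    (gp G m b).eval w = eval (sh m b w) G := by
  have h : (Polynomial.evalRingHom w).comp
      (aeval (fun i => Polynomial.C (b i) + if i = m then Polynomial.X else 0) :
        MvPolynomial (Fin N) κ →ₐ[κ] Polynomial κ).toRingHom = MvPolynomial.eval (sh m b w) := by
    apply MvPolynomial.ringHom_ext
    · intro r
      simp
    · intro i
      by_cases hi : i = m <;> simp [sh, hi]
  exact DFunLike.congr_fun h G

/-- Proof: check for `G = C c`, `X i`, sums and products (`MvPolynomial.induction_on`). -/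
theorem gp_der (G : MvPolynomial (Fin N) κ) (m : Fin N) (b : Fin N → κ) :
    Polynomial.derivative (gp G m b) = gp (pderiv m G) m b := by
  induction G using MvPolynomial.induction_on with
  | C a => simp [gp]
  | add p q hp hq =>
    have h1 : gp (p + q) m b = gp p m b + gp q m b := by simp [gp]
    have h2 : gp (pderiv m (p + q)) m b = gp (pderiv m p) m b + gp (pderiv m q) m b := by
      simp [gp]
    rw [h1, h2, map_add, hp, hq]
  | mul_X p i hp =>
    have h1 : gp (p * X i) m b =
        gp p m b * (Polynomial.C (b i) + if i = m then Polynomial.X else 0) := by simp [gp]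
    have h2 : gp (pderiv m (p * X i)) m b =
        gp (pderiv m p) m b * (Polynomial.C (b i) + if i = m then Polynomial.X else 0) +
          gp p m b * (if i = m then 1 else 0) := by
      rw [Derivation.leibniz, pderiv_X]
      simp only [gp, smul_eq_mul, map_add, map_mul, aeval_X]
      by_cases hi : i = m
      · subst hi
        simp
        ring
      · simp [hi]
        ring
    rw [h1, h2, Polynomial.derivative_mul, hp]
    by_cases hi : i = m <;> simp [hi]

/-- Proof: the monomials of `G` have degree `n`. -/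
theorem gp_deg {n : ℕ} (hG : G.IsHomogeneous n) (m : Fin N) (b : Fin N → κ) :
    (gp G m b).natDegree ≤ n ∧ (gp G m b).coeff n = coeff (Finsupp.single m n) G := by
  have hdeg : ∀ d ∈ G.support, d.degree = n := by
    intro d hd
    rw [← hG (mem_support_iff.1 hd), Finsupp.degree_eq_weight_one]
    rfl
  constructor
  · rw [ala_gp_sum]
    refine Polynomial.natDegree_sum_le_of_forall_le _ _ fun d hd => ?_
    refine (Polynomial.natDegree_C_mul_le _ _).trans ?_
    rw [← hdeg d hd]
    exact (ala_gp_deg m b d).1
  · rw [ala_gp_sum, Polynomial.finsetSum_coeff]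
    conv_rhs => rw [G.as_sum, coeff_sum]
    refine Finset.sum_congr rfl fun d hd => ?_
    have h1 := (ala_gp_deg (κ := κ) m b d).2
    rw [hdeg d hd] at h1
    rw [Polynomial.coeff_C_mul, h1, coeff_monomial, coeff_monomial]
    split_ifs <;> simp

theorem gp_smul {n : ℕ} (hG : G.IsHomogeneous n) (m : Fin N) (b : Fin N → κ) {t : κ} (ht : t ≠ 0) :
    (gp G m (t • b)).roots = (gp G m b).roots.map fun w => t * w := by
  have h1 : (gp G m (t • b)).comp (Polynomial.C t * Polynomial.X + Polynomial.C 0) =
      Polynomial.C (t ^ n) * gp G m b := by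
    have h2 : ∀ w : Polynomial κ, (gp G m (t • b)).comp w =
        aeval (fun i => Polynomial.C ((t • b) i) + if i = m then w else 0) G := by
      intro w
      have h : (Polynomial.compRingHom w).comp
          (aeval (fun i => Polynomial.C ((t • b) i) + if i = m then Polynomial.X else 0) :
            MvPolynomial (Fin N) κ →ₐ[κ] Polynomial κ).toRingHom =
          (aeval (fun i => Polynomial.C ((t • b) i) + if i = m then w else 0) :
            MvPolynomial (Fin N) κ →ₐ[κ] Polynomial κ).toRingHom := by
        apply MvPolynomial.ringHom_ext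
        · intro r
          simp
        · intro i
          by_cases hi : i = m <;> simp [hi]
      exact DFunLike.congr_fun h G
    rw [h2]
    have h3 : (fun i => Polynomial.C ((t • b) i) +
        if i = m then Polynomial.C t * Polynomial.X + Polynomial.C 0 else 0) =
        fun i => Polynomial.C t * (Polynomial.C (b i) + if i = m then Polynomial.X else 0) := by
      funext i
      by_cases hi : i = m <;> simp [hi, mul_add]
    rw [h3]
    unfold gp
    rw [aeval_eq_sum_ala, aeval_eq_sum_ala, Finset.mul_sum]
    refine Finset.sum_congr rfl fun d hd => ?_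
    have h4 : ∑ i, d i = n := by
      rw [← hG (mem_support_iff.1 hd), ← Finsupp.degree_eq_sum, Finsupp.degree_eq_weight_one]
      rfl
    simp only [mul_pow]
    rw [Finset.prod_mul_distrib, Finset.prod_pow_eq_pow_sum, h4, map_pow]
    ring
  have h5 := Polynomial.map_roots_comp_C_mul_X_add_C (gp G m (t • b)) t 0 ht.isUnit
  rw [h1, Polynomial.roots_C_mul _ (pow_ne_zero n ht)] at h5
  rw [← h5]
  refine Multiset.map_congr rfl fun w _ => ?_
  rw [add_zero]

theorem dG_add (G : MvPolynomial (Fin N) κ) (y u u' : Fin N → κ) :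
    dG G y (u + u') = dG G y u + dG G y u' := by
  unfold dG
  rw [← Finset.sum_add_distrib]
  refine Finset.sum_congr rfl fun i _ => ?_
  rw [Pi.add_apply, mul_add]

theorem dG_smul (G : MvPolynomial (Fin N) κ) (y u : Fin N → κ) (t : κ) :
    dG G y (t • u) = t * dG G y u := by
  unfold dG
  rw [Finset.mul_sum]
  refine Finset.sum_congr rfl fun i _ => ?_
  rw [Pi.smul_apply, smul_eq_mul]
  ring

/-- Euler. -/
theorem dG_self {n : ℕ} (hG : G.IsHomogeneous n) (y : Fin N → κ) : dG G y y = n * eval y G := by
  have h := congrArg (eval y) hG.sum_X_mul_pderiv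
  rw [map_sum, map_nsmul, nsmul_eq_mul] at h
  rw [← h]
  unfold dG
  refine Finset.sum_congr rfl fun i _ => ?_
  rw [map_mul, eval_X, mul_comm]

/-- Proof: `G` has partial derivatives of degree `n - 1`. -/
theorem dG_hom {n : ℕ} (hG : G.IsHomogeneous (n + 1)) (y u : Fin N → κ) (t : κ) :
    dG G (t • y) u = t ^ n * dG G y u := by
  unfold dG
  rw [Finset.mul_sum]
  refine Finset.sum_congr rfl fun i _ => ?_
  have h : (pderiv i G).IsHomogeneous n := by
    simpa using hG.pderiv (i := i)
  rw [ala_eval_smul h]
  ring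

theorem dG_pv {m : Fin N} {y : Fin N → κ} (h : eval y (pderiv m G) ≠ 0) (u : Fin N → κ) :
    dG G y (pv G m y u) = 0 := by
  have h1 : dG G y (pv G m y u) =
      dG G y u - ∑ i, eval y (pderiv i G) *
        (if i = m then dG G y u / eval y (pderiv m G) else 0) := by
    conv_lhs => rw [dG]
    conv_rhs => enter [1]; rw [dG]
    rw [← Finset.sum_sub_distrib]
    refine Finset.sum_congr rfl fun i _ => ?_
    rw [pv, mul_sub]
  rw [h1]
  simp only [mul_ite, mul_zero, Finset.sum_ite_eq', Finset.mem_univ, if_true]
  rw [mul_div_cancel₀ _ h, sub_self]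

theorem pv_add (m : Fin N) (y u u' : Fin N → κ) :
    pv G m y (u + u') = pv G m y u + pv G m y u' := by
  funext i
  simp only [pv, Pi.add_apply, dG_add]
  split_ifs
  · ring
  · ring

theorem pv_smul (m : Fin N) (y u : Fin N → κ) (t : κ) : pv G m y (t • u) = t • pv G m y u := by
  funext i
  simp only [pv, Pi.smul_apply, smul_eq_mul, dG_smul]
  split_ifs
  · ring
  · ring

theorem pv_self {m : Fin N} {y : Fin N → κ} (h : eval y (pderiv m G) ≠ 0) :
    pv G m y (Pi.single m 1) = 0 := by
  have h1 : dG G y (Pi.single m 1) = eval y (pderiv m G) := by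
    unfold dG
    simp [Pi.single_apply]
  funext i
  simp only [pv, h1, div_self h, Pi.zero_apply, Pi.single_apply, sub_self]

/-- `Δ` does not contain the variable `m`. -/
theorem eval_free {m : Fin N} {Δ : MvPolynomial (Fin N) κ} (h : degreeOf m Δ = 0) {b b' : Fin N → κ}
    (hb : ∀ i, i ≠ m → b i = b' i) : eval b Δ = eval b' Δ := by
  rw [eval_eq', eval_eq']
  refine Finset.sum_congr rfl fun d hd => ?_
  congr 1
  refine Finset.prod_congr rfl fun i _ => ?_
  by_cases hi : i = m
  · have h1 : d i ≤ degreeOf i Δ := by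
      rw [degreeOf_eq_sup]
      exact Finset.le_sup (f := fun d : Fin N →₀ ℕ => d i) hd
    rw [hi, h] at h1
    rw [hi, Nat.le_zero.1 h1, pow_zero, pow_zero]
  · rw [hb i hi]

end GM
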