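import Pool.Agent.Lib.MP_f80667_ag.Gm.AlA

/-! The functions `Pj`. -/

open MvPolynomial

namespace GM

variable {κ : Type} [Field κ] {N p n : ℕ} {G : MvPolynomial (Fin N) κ}
  {Δ : Fin N → MvPolynomial (Fin N) κ} (H : Hy p n G Δ) {ℓ : (Fin N → κ) → (Fin N → κ) → κ}

private theorem alb_free {m : Fin N} {D : MvPolynomial (Fin N) κ} (h : degreeOf m D = 0)
    (b : Fin N → κ) : gp D m b = Polynomial.C (eval b D) := by
  have h1 : gp D m b = aeval (fun i => Polynomial.C (b i)) D := by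
    unfold gp
    refine eval₂Hom_congr' rfl (fun i hi _ => ?_) rfl
    have h2 : i ≠ m := by
      rintro rfl
      obtain ⟨d, hd, hi⟩ := (mem_vars i).1 hi
      exact Finsupp.mem_support_iff.1 hi (Nat.le_zero.1 (degreeOf_le_iff.1 h.le d hd))
    rw [if_neg h2, add_zero]
  rw [h1]
  exact aeval_algebraMap_apply (A := κ) (B := Polynomial κ) b D

private theorem alb_sh (m : Fin N) (b : Fin N → κ) (t w : κ) :
    sh m (t • b) (t * w) = t • sh m b w := by
  funext i
  simp only [sh, Pi.smul_apply, smul_eq_mul, mul_add, mul_ite, mul_zero]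

private theorem alb_dG (G : MvPolynomial (Fin N) κ) (m : Fin N) (y : Fin N → κ) :
    dG G y (Pi.single m 1) = eval y (pderiv m G) := by
  unfold dG
  rw [Finset.sum_eq_single m]
  · rw [Pi.single_eq_same, mul_one]
  · intro i _ hi
    rw [Pi.single_eq_of_ne hi, mul_zero]
  · intro h
    exact absurd (Finset.mem_univ m) h

include H

theorem Hy.eval_sh (m : Fin N) (b : Fin N → κ) (w : κ) : eval (sh m b w) (Δ m) = eval b (Δ m) :=
  eval_free (H.dsc m).free fun i hi => by rw [sh, if_neg hi, add_zero]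

/-- Proof: `bez` on the line: `A G + B G_m = Δ` is a constant different from `0`. -/
theorem Hy.sep {m : Fin N} {b : Fin N → κ} (h : eval b (Δ m) ≠ 0) : (gp G m b).Separable := by
  obtain ⟨A, B, hAB⟩ := (H.dsc m).bez
  have h1 : gp A m b * gp G m b + gp B m b * gp (pderiv m G) m b =
      Polynomial.C (eval b (Δ m)) := by
    rw [← alb_free (H.dsc m).free b, ← hAB]
    unfold gp
    rw [map_add, map_mul, map_mul]
  refine ⟨Polynomial.C (eval b (Δ m))⁻¹ * gp A m b, Polynomial.C (eval b (Δ m))⁻¹ * gp B m b, ?_⟩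
  rw [gp_der, mul_assoc, mul_assoc, ← mul_add, h1, ← Polynomial.C_mul, inv_mul_cancel₀ h,
    Polynomial.C_1]

/-- There are `n` points on the line. Proof: `sep`, `spl`, `gp_deg`, `ne`. -/
theorem Hy.roots {m : Fin N} {b : Fin N → κ} (h : eval b (Δ m) ≠ 0) :
    (gp G m b).roots.Nodup ∧ Multiset.card (gp G m b).roots = n := by
  have h1 := H.sep h
  obtain ⟨h2, h3⟩ := gp_deg H.hom m b
  have h4 : (gp G m b).coeff n ≠ 0 := by
    rw [h3]
    exact H.ne m
  have h5 : (gp G m b).natDegree = n := le_antisymm h2 (Polynomial.le_natDegree_of_ne_zero h4)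
  refine ⟨Polynomial.nodup_roots h1, ?_⟩
  rw [H.spl _ h1.ne_zero h2, h5]

/-- Proof: `bez`, `eval_sh`. -/
theorem Hy.der {m : Fin N} {y : Fin N → κ} (hy : eval y G = 0) (h : eval y (Δ m) ≠ 0) :
    eval y (pderiv m G) ≠ 0 := by
  obtain ⟨A, B, hAB⟩ := (H.dsc m).bez
  intro h1
  refine h ?_
  rw [← hAB, map_add, map_mul, map_mul, hy, h1, mul_zero, mul_zero, add_zero]

/-- Proof: `G (c e_m) = c ^ n (coefficient)`, so `y = sh m b w ≠ 0`: otherwise all partial derivatives are `0` at `y` (`n ≥ 2`) and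
`eval y (Δ m) = 0` by `bez`. -/
theorem Hy.nz {m : Fin N} {y : Fin N → κ} (h : eval y (Δ m) ≠ 0) : y ≠ 0 := by
  rintro rfl
  have h2 := H.two
  have h0 : ∀ {d : ℕ} {P : MvPolynomial (Fin N) κ}, P.IsHomogeneous d → d ≠ 0 →
      eval (0 : Fin N → κ) P = 0 := by
    intro d P hP hd
    rw [eval_zero, constantCoeff_eq]
    refine hP.coeff_eq_zero ?_
    rw [map_zero]
    exact hd.symm
  refine H.der (m := m) (y := 0) (h0 H.hom (by omega)) h ?_
  exact h0 (H.hom.pderiv (i := m)) (by omega)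

/-- The points of the line are points of the hypersurface. -/
theorem Hy.tg {m : Fin N} {b u : Fin N → κ} (h : eval b (Δ m) ≠ 0) {w : κ}
    (hw : w ∈ (gp G m b).roots) : Tg G (sh m b w) (pv G m (sh m b w) u) := by
  have h1 : eval (sh m b w) G = 0 := by
    rw [← gp_eval]
    exact (Polynomial.mem_roots'.1 hw).2
  have h2 : eval (sh m b w) (Δ m) ≠ 0 := by rwa [H.eval_sh]
  exact ⟨H.nz h2, h1, dG_pv (H.der h1 h2) u⟩

variable (hℓ : Fn G Δ ℓ)

include hℓ

theorem Hy.pj_add {m : Fin N} {b : Fin N → κ} (h : eval b (Δ m) ≠ 0) (j : ℕ) (u u' : Fin N → κ) :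
    Pj G ℓ m j b (u + u') = Pj G ℓ m j b u + Pj G ℓ m j b u' := by
  unfold Pj
  rw [← Multiset.sum_map_add]
  refine congrArg _ (Multiset.map_congr rfl fun w hw => ?_)
  rw [pv_add, hℓ.add _ _ _ (H.tg h hw) (H.tg h hw), mul_add]

theorem Hy.pj_smul {m : Fin N} {b : Fin N → κ} (h : eval b (Δ m) ≠ 0) (j : ℕ) (u : Fin N → κ)
    (t : κ) : Pj G ℓ m j b (t • u) = t * Pj G ℓ m j b u := by
  unfold Pj
  rw [← Multiset.sum_map_mul_left]
  refine congrArg _ (Multiset.map_congr rfl fun w hw => ?_)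
  rw [pv_smul, hℓ.smul _ _ _ (H.tg h hw)]
  ring

theorem Hy.pj_self {m : Fin N} {b : Fin N → κ} (h : eval b (Δ m) ≠ 0) (j : ℕ) :
    Pj G ℓ m j b (Pi.single m 1) = 0 := by
  unfold Pj
  refine Multiset.sum_eq_zero fun x hx => ?_
  obtain ⟨w, hw, rfl⟩ := Multiset.mem_map.1 hx
  have h1 := H.tg (u := 0) h hw
  have h2 : eval (sh m b w) (Δ m) ≠ 0 := by rwa [H.eval_sh]
  have h3 := hℓ.smul _ _ 0 h1
  rw [zero_smul, zero_mul] at h3
  rw [pv_self (H.der h1.2.1 h2), h3, mul_zero]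

/-- Homogeneity. Proof: `gp_smul`; `sh m (t b) (t w) = t (sh m b w)`, `pv G m (t y) u = pv G m y u` (`dG_hom`), `hom` and `smul`:
`ℓ (t y) u = t⁻¹ ℓ y u`. -/
theorem Hy.pj_hom {m : Fin N} {b : Fin N → κ} (h : eval b (Δ m) ≠ 0) (j : ℕ) (u : Fin N → κ)
    {t : κ} (ht : t ≠ 0) : t * Pj G ℓ m j (t • b) u = t ^ j * Pj G ℓ m j b u := by
  obtain ⟨k, hk⟩ : ∃ k, n = k + 1 := ⟨n - 1, by have := H.two; omega⟩
  have hG : G.IsHomogeneous (k + 1) := hk ▸ H.hom
  unfold Pj
  rw [gp_smul H.hom m b ht, Multiset.map_map, ← Multiset.sum_map_mul_left,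
    ← Multiset.sum_map_mul_left]
  refine congrArg _ (Multiset.map_congr rfl fun w hw => ?_)
  have h1 := H.tg (u := u) h hw
  have hpv : pv G m (t • sh m b w) u = pv G m (sh m b w) u := by
    unfold pv
    rw [← alb_dG, ← alb_dG, dG_hom hG, dG_hom hG, mul_div_mul_left _ _ (pow_ne_zero k ht)]
  simp only [Function.comp_apply]
  rw [alb_sh, hpv]
  have h2 : Tg G (sh m b w) (t⁻¹ • pv G m (sh m b w) u) :=
    ⟨h1.1, h1.2.1, by rw [dG_smul, h1.2.2, mul_zero]⟩
  have h3 := hℓ.hom _ _ t ht h2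
  rw [smul_smul, mul_inv_cancel₀ ht, one_smul, hℓ.smul _ _ _ h1] at h3
  rw [h3, mul_pow]
  field_simp

end GM
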