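import Pool.Agent.Lib.MP_f80667_ag.Gm.AlB

/-! Vanishing divided differences. -/

open MvPolynomial

namespace GM

variable {κ : Type} [Field κ]

private theorem dd_ev {s : Finset κ} {q : Polynomial κ} {D : ℕ} (hs : s.card = D + 1)
    (hq : q.degree < (D : ℕ)) : dd s (fun c => q.eval c) = 0 := by
  classical
  have h1 : q.degree < (s.card : ℕ) := by
    rw [hs]
    exact hq.trans_le (by exact_mod_cast Nat.le_succ D)
  have h2 := Lagrange.coeff_eq_sum (s := s) (v := fun x : κ => x) (fun _ _ _ _ h => h) h1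
  rw [hs, Nat.add_sub_cancel, Polynomial.coeff_eq_zero_of_degree_lt hq] at h2
  rw [dd, h2]
  refine Finset.sum_congr rfl fun c _ => ?_
  rw [div_eq_inv_mul]

/-- A function whose divided differences of all orders `≥ D` vanish is a polynomial of degree `≤ D`. Proof: if `S` has at most `D` elements interpolate
on `S`; otherwise let `q` be the interpolation polynomial (`Lagrange.interpolate`) on a subset `s₀` with `D` elements; for `c ∈ S` outside
`s₀` the set `s = insert c s₀` has more than `D` elements; the divided difference of `T` on `s` vanishes by hypothesis, that of `q` because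
`q` has degree `< D` (`Lagrange.sum_..`: the coefficient of degree `card s - 1` of the interpolation polynomial on `s`);
so `T c = q c`. For `D = 0`: `s = {c}` gives `T c = 0`. -/
theorem dd_poly (S : Set κ) (T : κ → κ) (D : ℕ)
    (h : ∀ s : Finset κ, (s : Set κ) ⊆ S → D < s.card → dd s T = 0) :
    ∃ q : Polynomial κ, q.natDegree ≤ D ∧ ∀ c ∈ S, T c = q.eval c := by
  classical
  have hinj : ∀ s : Finset κ, Set.InjOn (fun x : κ => x) s := fun _ _ _ _ _ h => h
  by_cases hD : ∃ s₀ : Finset κ, (s₀ : Set κ) ⊆ S ∧ s₀.card = D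
  · obtain ⟨s₀, hs₀, hc₀⟩ := hD
    have hdeg : (Lagrange.interpolate s₀ (fun x : κ => x) T).degree < (D : ℕ) := by
      have := Lagrange.degree_interpolate_lt (r := T) (hinj s₀)
      rwa [hc₀] at this
    refine ⟨Lagrange.interpolate s₀ (fun x : κ => x) T,
      Polynomial.natDegree_le_of_degree_le hdeg.le, fun c hc => ?_⟩
    set q := Lagrange.interpolate s₀ (fun x : κ => x) T with hq
    by_cases hcs : c ∈ s₀
    · rw [hq]
      exact (Lagrange.eval_interpolate_at_node T (hinj s₀) hcs).symm
    · have hcard : (insert c s₀).card = D + 1 := by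
        rw [Finset.card_insert_of_notMem hcs, hc₀]
      have h1 : dd (insert c s₀) T = 0 := by
        refine h _ ?_ (by omega)
        intro x hx
        rcases Finset.mem_insert.1 (Finset.mem_coe.1 hx) with rfl | hx
        · exact hc
        · exact hs₀ hx
      have h2 : dd (insert c s₀) (fun c => q.eval c) = 0 := dd_ev hcard hdeg
      have h3 : ∑ x ∈ insert c s₀, (∏ c' ∈ (insert c s₀).erase x, (x - c'))⁻¹ *
          (T x - q.eval x) = 0 := by
        simp only [mul_sub, Finset.sum_sub_distrib]
        rw [← dd, ← dd, h1, h2, sub_zero]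
      rw [Finset.sum_insert hcs, Finset.sum_eq_zero, add_zero] at h3
      · refine sub_eq_zero.1 ((mul_eq_zero.1 h3).resolve_left (inv_ne_zero ?_))
        rw [Finset.prod_ne_zero_iff]
        intro x hx
        exact sub_ne_zero.2 (Finset.ne_of_mem_erase hx).symm
      · intro x hx
        rw [hq, Lagrange.eval_interpolate_at_node T (hinj s₀) hx, sub_self, mul_zero]
  · have hfin : S.Finite := by
      by_contra hinf
      obtain ⟨t, ht, htc⟩ := (show S.Infinite from hinf).exists_subset_card_eq D
      exact hD ⟨t, ht, htc⟩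
    have hlt : hfin.toFinset.card ≤ D := by
      by_contra hlt
      obtain ⟨t, ht, htc⟩ := Finset.exists_subset_card_eq (show D ≤ hfin.toFinset.card by omega)
      exact hD ⟨t, fun x hx => hfin.mem_toFinset.1 (ht hx), htc⟩
    refine ⟨Lagrange.interpolate hfin.toFinset (fun x : κ => x) T,
      Polynomial.natDegree_le_of_degree_le ?_, fun c hc => ?_⟩
    · refine (Lagrange.degree_interpolate_lt (r := T) (hinj _)).le.trans ?_
      exact_mod_cast hlt
    · exact (Lagrange.eval_interpolate_at_node T (hinj _) (hfin.mem_toFinset.2 hc)).symm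

variable {N p n : ℕ} {G : MvPolynomial (Fin N) κ}
  {Δ : Fin N → MvPolynomial (Fin N) κ} {ℓ : (Fin N → κ) → (Fin N → κ) → κ}

/-- Proof: `dd_poly` with `D = j ρ` and `crv`. -/
theorem Fn.arc (hℓ : Fn G Δ ℓ) (m : Fin N) (j : ℕ) (a : Fin N → Polynomial κ) {ρ : ℕ}
    (ha : ∀ i, (a i).natDegree ≤ ρ) :
    ∃ q : Polynomial κ, q.natDegree ≤ j * ρ ∧ ∀ c, eval (av a c) (Δ m) ≠ 0 →
      Pj G ℓ m j (av a c) (dv a c) = q.eval c :=
  dd_poly {c | eval (av a c) (Δ m) ≠ 0} (fun c => Pj G ℓ m j (av a c) (dv a c)) (j * ρ)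
    fun s hs hc => hℓ.crv m a ρ j s ha hc fun c hc => hs (Finset.mem_coe.2 hc)

/-- `Pj` with `j = 0` is `0`. Proof: `crv` with the arc `b + (z - c) u` (`ρ = 1`, `s = {c}`, `c = 0`). -/
theorem Fn.zero (hℓ : Fn G Δ ℓ) (m : Fin N) {b : Fin N → κ} (h : eval b (Δ m) ≠ 0)
    (u : Fin N → κ) : Pj G ℓ m 0 b u = 0 := by
  let a : Fin N → Polynomial κ := fun i => Polynomial.C (u i) * Polynomial.X + Polynomial.C (b i)
  have ha : av a 0 = b := by
    funext i
    simp [av, a]
  have hd : dv a 0 = u := by
    funext i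
    simp [dv, a]
  have h1 := hℓ.crv m a 1 0 {0} (fun i => Polynomial.natDegree_linear_le) (by simp) (by
    intro c hc
    rw [Finset.mem_singleton.1 hc, ha]
    exact h)
  simpa [dd, ha, hd] using h1

end GM
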