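import Pool.Agent.Lib.MP_f80667_ag.Gm.PlB

/-! The planar lemma: the derivatives. -/

open MvPolynomial

namespace GM

variable {κ : Type} [Field κ] {σ : Type} [Fintype σ] [DecidableEq σ]

variable {Δ : MvPolynomial σ κ} {C e : ℕ} {P : (σ → κ) → (σ → κ) → κ}

omit [Fintype σ] [DecidableEq σ] in
private theorem PlC_eval_aeval (f : σ → Polynomial κ) (Δ : MvPolynomial σ κ) (z : κ) :
    (aeval f Δ : Polynomial κ).eval z = eval (fun j => (f j).eval z) Δ := by
  induction Δ using MvPolynomial.induction_on with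
  | C a => simp
  | add p q hp hq => rw [map_add, Polynomial.eval_add, hp, hq, map_add]
  | mul_X p i hp => rw [map_mul, Polynomial.eval_mul, hp, map_mul, aeval_X, eval_X]

private theorem PlC_deriv_lin {p : ℕ} [CharP κ p] (a b : κ) (r : ℕ) :
    Polynomial.derivative ((Polynomial.C a + Polynomial.C b * Polynomial.X ^ p) ^ r) = 0 := by
  rw [Polynomial.derivative_pow, Polynomial.derivative_add, Polynomial.derivative_C,
    Polynomial.derivative_C_mul, Polynomial.derivative_X_pow, CharP.cast_eq_zero κ p, map_zero,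
    zero_mul, mul_zero, add_zero, mul_zero]

/-- The point with the coordinates `x`, `y`. -/
private def PlC_pt (b : σ → κ) (i s : σ) (x y : κ) : σ → κ :=
  Function.update (Function.update b i x) s y

/-- The key identity. -/
private theorem PlC_key [Infinite κ] (h : Ar Δ C P) {p : ℕ} (hp : p.Prime)
    [CharP κ p] {i s : σ} (his : s ≠ i) (b : σ → κ)
    (ci cs : ℕ → Polynomial κ)
    (hci : ∀ x Y : κ, eval (PlC_pt b i s x (Y ^ p)) Δ ≠ 0 →
      P (PlC_pt b i s x (Y ^ p)) (Pi.single i 1) =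
        ∑ r ∈ Finset.range (C + 1), (ci r).eval Y * x ^ r)
    (hcs : ∀ X y : κ, eval (PlC_pt b i s (X ^ p) y) Δ ≠ 0 →
      P (PlC_pt b i s (X ^ p) y) (Pi.single s 1) =
        ∑ r ∈ Finset.range (C + 1), (cs r).eval X * y ^ r) (X₀ Y₀ α β : κ)
    (hgood : eval (PlC_pt b i s (X₀ ^ p) (Y₀ ^ p)) Δ ≠ 0) :
    α ^ p * (β * ∑ r ∈ Finset.range (C + 1),
      (Polynomial.derivative (ci r)).eval Y₀ * (X₀ ^ p) ^ r) +
    β ^ p * (α * ∑ r ∈ Finset.range (C + 1),
      (Polynomial.derivative (cs r)).eval X₀ * (Y₀ ^ p) ^ r) = 0 := by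
  have hpF : Fact p.Prime := ⟨hp⟩
  have hp0 : p ≠ 0 := hp.ne_zero
  -- the arc
  obtain ⟨a, ha⟩ : ∃ a : σ → Polynomial κ, a = Function.update
    (Function.update (fun j => Polynomial.C (b j)) i
      (Polynomial.C (X₀ ^ p) + Polynomial.C (α ^ p) * Polynomial.X)) s
      (Polynomial.C (Y₀ ^ p) + Polynomial.C (β ^ p) * Polynomial.X) := ⟨_, rfl⟩
  have hdeg : ∀ j, (a j).natDegree ≤ 1 := by
    intro j
    have hlin : ∀ u v : κ, (Polynomial.C u + Polynomial.C v * Polynomial.X).natDegree ≤ 1 := by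
      intro u v
      rw [add_comm]
      exact Polynomial.natDegree_linear_le
    rw [ha]
    simp only [Function.update_apply]
    split_ifs
    · exact hlin _ _
    · exact hlin _ _
    · rw [Polynomial.natDegree_C]
      exact Nat.zero_le _
  obtain ⟨q, -, hq⟩ := h.arc 1 a hdeg
  have hval : ∀ c : κ, (fun j => (a j).eval c) =
      PlC_pt b i s (X₀ ^ p + α ^ p * c) (Y₀ ^ p + β ^ p * c) := by
    intro c
    funext j
    unfold PlC_pt
    rw [ha]
    simp only [Function.update_apply]
    split_ifs <;> simp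
  have hlin' : ∀ u v c : κ, (Polynomial.derivative
      (Polynomial.C u + Polynomial.C v * Polynomial.X)).eval c = v := by
    intro u v c
    rw [Polynomial.derivative_add, Polynomial.derivative_C, zero_add, Polynomial.derivative_C_mul,
      Polynomial.derivative_X, mul_one, Polynomial.eval_C]
  have hder : ∀ c : κ, (fun j => (Polynomial.derivative (a j)).eval c) =
      α ^ p • (Pi.single i 1 : σ → κ) + β ^ p • (Pi.single s 1 : σ → κ) := by
    intro c
    funext j
    rw [ha]
    simp only [Function.update_apply, Pi.add_apply, Pi.smul_apply, Pi.single_apply, smul_eq_mul]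
    by_cases hjs : j = s
    · subst hjs
      rw [if_pos rfl, if_neg his, if_pos rfl, hlin', mul_zero, zero_add, mul_one]
    · by_cases hji : j = i
      · subst hji
        rw [if_neg hjs, if_pos rfl, if_pos rfl, if_neg hjs, hlin', mul_zero, add_zero, mul_one]
      · rw [if_neg hjs, if_neg hji, if_neg hji, if_neg hjs]
        simp
  -- the polynomials in `Z`
  obtain ⟨lx, hlx⟩ : ∃ lx : Polynomial κ, lx =
    Polynomial.C (X₀ ^ p) + Polynomial.C (α ^ p) * Polynomial.X ^ p := ⟨_, rfl⟩
  obtain ⟨ly, hly⟩ : ∃ ly : Polynomial κ, ly =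
    Polynomial.C (Y₀ ^ p) + Polynomial.C (β ^ p) * Polynomial.X ^ p := ⟨_, rfl⟩
  obtain ⟨mx, hmx⟩ : ∃ mx : Polynomial κ, mx =
    Polynomial.C X₀ + Polynomial.C α * Polynomial.X := ⟨_, rfl⟩
  obtain ⟨my, hmy⟩ : ∃ my : Polynomial κ, my =
    Polynomial.C Y₀ + Polynomial.C β * Polynomial.X := ⟨_, rfl⟩
  obtain ⟨F, hF⟩ : ∃ F : Polynomial κ, F =
    Polynomial.C (α ^ p) * ∑ r ∈ Finset.range (C + 1), (ci r).comp my * lx ^ r +
      Polynomial.C (β ^ p) * ∑ r ∈ Finset.range (C + 1), (cs r).comp mx * ly ^ r -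
      q.comp (Polynomial.X ^ p) := ⟨_, rfl⟩
  obtain ⟨D, hD⟩ : ∃ D : Polynomial κ, D = aeval (fun j => (a j).comp (Polynomial.X ^ p)) Δ :=
    ⟨_, rfl⟩
  have hDe : ∀ z : κ, D.eval z =
      eval (PlC_pt b i s (X₀ ^ p + α ^ p * z ^ p) (Y₀ ^ p + β ^ p * z ^ p)) Δ := by
    intro z
    rw [hD, PlC_eval_aeval, ← hval]
    simp only [Polynomial.eval_comp, Polynomial.eval_pow, Polynomial.eval_X]
  have hFz : ∀ z : κ, D.eval z ≠ 0 → F.eval z = 0 := by
    intro z hz
    rw [hDe] at hz
    have e1 : (X₀ + α * z) ^ p = X₀ ^ p + α ^ p * z ^ p := by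
      rw [add_pow_char, mul_pow]
    have e2 : (Y₀ + β * z) ^ p = Y₀ ^ p + β ^ p * z ^ p := by
      rw [add_pow_char, mul_pow]
    have h1 := hq (z ^ p)
    rw [hval, hder] at h1
    have h2 := h1 hz
    rw [h.add _ hz, h.smul _ hz, h.smul _ hz] at h2
    have h3 := hci (X₀ ^ p + α ^ p * z ^ p) (Y₀ + β * z)
    rw [e2] at h3
    have h4 := hcs (X₀ + α * z) (Y₀ ^ p + β ^ p * z ^ p)
    rw [e1] at h4
    rw [h3 hz, h4 hz] at h2
    rw [hF, hlx, hly, hmx, hmy]
    simp only [Polynomial.eval_sub, Polynomial.eval_add, Polynomial.eval_mul, Polynomial.eval_C,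
      Polynomial.eval_finsetSum, Polynomial.eval_comp, Polynomial.eval_pow, Polynomial.eval_X]
    rw [h2, sub_self]
  have hD0 : D ≠ 0 := by
    rintro h0
    apply hgood
    have h1 := hDe 0
    rw [h0, Polynomial.eval_zero, zero_pow hp0, mul_zero, mul_zero, add_zero, add_zero] at h1
    exact h1.symm
  have hF0 : F = 0 := by
    have h1 : D * F = 0 := by
      apply Polynomial.funext
      intro z
      rw [Polynomial.eval_mul, Polynomial.eval_zero]
      by_cases hz : D.eval z = 0
      · rw [hz, zero_mul]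
      · rw [hFz z hz, mul_zero]
    exact (mul_eq_zero.1 h1).resolve_left hD0
  -- the derivative
  have hdx : ∀ r, Polynomial.derivative (lx ^ r) = 0 := fun r => by
    rw [hlx]
    exact PlC_deriv_lin _ _ _
  have hdy : ∀ r, Polynomial.derivative (ly ^ r) = 0 := fun r => by
    rw [hly]
    exact PlC_deriv_lin _ _ _
  have hdq : Polynomial.derivative (q.comp (Polynomial.X ^ p)) = 0 := by
    rw [Polynomial.derivative_comp, Polynomial.derivative_X_pow, CharP.cast_eq_zero, map_zero,
      zero_mul, zero_mul]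
  have hmx' : Polynomial.derivative mx = Polynomial.C α := by
    rw [hmx]
    simp
  have hmy' : Polynomial.derivative my = Polynomial.C β := by
    rw [hmy]
    simp
  have hdF := congrArg (fun f : Polynomial κ => (Polynomial.derivative f).eval 0) (hF.symm.trans hF0)
  simp only [Polynomial.derivative_sub, Polynomial.derivative_add, Polynomial.derivative_C,
    Polynomial.derivative_sum, Polynomial.derivative_mul, hdx, hdy, hdq, mul_zero, add_zero,
    sub_zero, zero_mul, zero_add, Polynomial.derivative_comp, hmx', hmy', Polynomial.derivative_zero,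
    Polynomial.eval_zero, Polynomial.eval_add, Polynomial.eval_mul, Polynomial.eval_C,
    Polynomial.eval_finsetSum, Polynomial.eval_comp, Polynomial.eval_pow] at hdF
  have ex : lx.eval 0 = X₀ ^ p := by
    rw [hlx]
    simp [hp0]
  have ey : ly.eval 0 = Y₀ ^ p := by
    rw [hly]
    simp [hp0]
  have ex' : mx.eval 0 = X₀ := by
    rw [hmx]
    simp
  have ey' : my.eval 0 = Y₀ := by
    rw [hmy]
    simp
  rw [ex, ey, ex', ey'] at hdF
  rw [← hdF]
  congr 2
  · rw [Finset.mul_sum]
    exact Finset.sum_congr rfl fun r _ => by rw [mul_assoc]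
  · rw [Finset.mul_sum]
    exact Finset.sum_congr rfl fun r _ => by rw [mul_assoc]

/-- Proof. Let `x`, `y` be the coordinates `i`, `s` of `b` (the others are fixed) and `ci r`, `cs r` the polynomials of `Ar.root` for the components
`i` and `s`: for good points with the coordinates `(x, Y ^ p)` resp. `(X ^ p, y)`
`P e_i = ∑ r, (ci r)(Y) x ^ r =: U(x, Y)` and `P e_s = ∑ r, (cs r)(X) y ^ r =: V(X, y)`.
Let `(X₀ ^ p, Y₀ ^ p)` be good and `α`, `β` not both `0`. The arc with `a i = C (X₀ ^ p) + C (α ^ p) X`, `a s = C (Y₀ ^ p) + C (β ^ p) X`: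
`α ^ p U(X₀ ^ p + α ^ p Z ^ p, Y₀ + β Z) + β ^ p V(X₀ + α Z, Y₀ ^ p + β ^ p Z ^ p) = q(Z ^ p)` for infinitely many `Z`
(`Δ` on the arc is not the polynomial `0`: it is not `0` at `0`), so as polynomials in `Z`. The derivative at `Z = 0`:
`α ^ p β U_Y(X₀ ^ p, Y₀) + β ^ p α V_X(X₀, Y₀ ^ p) = 0`. With `(α, β) = (1, 1)` and `(1, τ)`, `τ ^ p ≠ τ` (`κ` is infinite): `U_Y(X₀ ^ p, Y₀) = 0`.
For fixed `Y₀` this holds for infinitely many `X₀ ^ p` (all `x` are `p`-th powers, `line_fin`), so `(ci r)'(Y₀) = 0` for all `r ≤ C`. -/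
theorem Ar.der [Infinite κ] (h : Ar Δ C P) (hΔ : Δ.IsHomogeneous e) {p : ℕ} (hp : p.Prime)
    [CharP κ p] (hpf : ∀ x : κ, ∃ y, y ^ p = x) {i s : σ} (his : s ≠ i)
    (hi : eval (Pi.single i 1) Δ ≠ 0) (hs : eval (Pi.single s 1) Δ ≠ 0) (b : σ → κ)
    (ci cs : ℕ → Polynomial κ)
    (hci : ∀ x Y : κ, eval (Function.update (Function.update b i x) s (Y ^ p)) Δ ≠ 0 →
      P (Function.update (Function.update b i x) s (Y ^ p)) (Pi.single i 1) =
        ∑ r ∈ Finset.range (C + 1), (ci r).eval Y * x ^ r)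
    (hcs : ∀ X y : κ, eval (Function.update (Function.update b i (X ^ p)) s y) Δ ≠ 0 →
      P (Function.update (Function.update b i (X ^ p)) s y) (Pi.single s 1) =
        ∑ r ∈ Finset.range (C + 1), (cs r).eval X * y ^ r) {r : ℕ} (hr : r ≤ C) :
    Polynomial.derivative (ci r) = 0 := by
  classical
  -- an element with `τ ^ p ≠ τ`
  obtain ⟨τ, hτ⟩ : ∃ τ : κ, τ ^ p ≠ τ := by
    by_contra hcon
    push Not at hcon
    have h1 : (Polynomial.X ^ p - Polynomial.X : Polynomial κ) = 0 := by
      apply Polynomial.funext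
      intro z
      simp [hcon z]
    have h2 := congrArg (fun f : Polynomial κ => f.coeff 1) h1
    simp only [Polynomial.coeff_sub, Polynomial.coeff_X_pow, Polynomial.coeff_X_one,
      Polynomial.coeff_zero] at h2
    rw [if_neg hp.one_lt.ne] at h2
    simp at h2
  have hM : ∀ X₀ Y₀ : κ, eval (PlC_pt b i s (X₀ ^ p) (Y₀ ^ p)) Δ ≠ 0 →
      ∑ r ∈ Finset.range (C + 1), (Polynomial.derivative (ci r)).eval Y₀ * (X₀ ^ p) ^ r = 0 := by
    intro X₀ Y₀ hgood
    have h1 := PlC_key h hp his b ci cs hci hcs X₀ Y₀ 1 1 hgood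
    have h2 := PlC_key h hp his b ci cs hci hcs X₀ Y₀ 1 τ hgood
    obtain ⟨M, hM⟩ : ∃ M, M = ∑ r ∈ Finset.range (C + 1),
      (Polynomial.derivative (ci r)).eval Y₀ * (X₀ ^ p) ^ r := ⟨_, rfl⟩
    obtain ⟨N, hN⟩ : ∃ N, N = ∑ r ∈ Finset.range (C + 1),
      (Polynomial.derivative (cs r)).eval X₀ * (Y₀ ^ p) ^ r := ⟨_, rfl⟩
    rw [← hM, ← hN, one_pow] at h1 h2
    rw [← hM]
    have h3 : (τ - τ ^ p) * M = 0 := by linear_combination h2 - τ ^ p * h1
    exact (mul_eq_zero.1 h3).resolve_left (sub_ne_zero.2 hτ.symm)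
  apply Polynomial.funext
  intro Y₀
  rw [Polynomial.eval_zero]
  obtain ⟨S, -, hS⟩ := line_fin hΔ hi (Function.update b s (Y₀ ^ p))
  obtain ⟨R, hR⟩ : ∃ R : Polynomial κ, R = ∑ r ∈ Finset.range (C + 1),
    Polynomial.C ((Polynomial.derivative (ci r)).eval Y₀) * Polynomial.X ^ r := ⟨_, rfl⟩
  have hR0 : R = 0 := by
    refine Polynomial.eq_zero_of_infinite_isRoot R
      (Set.Infinite.mono (fun x hx => ?_) (S.finite_toSet.infinite_compl))
    obtain ⟨X₀, hX₀⟩ := hpf x
    have h1 := hS x hx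
    rw [Function.update_comm his] at h1
    have h2 := hM X₀ Y₀ (by rw [hX₀]; exact h1)
    rw [hX₀] at h2
    change R.eval x = 0
    rw [hR]
    simp only [Polynomial.eval_finsetSum, Polynomial.eval_mul, Polynomial.eval_C,
      Polynomial.eval_pow, Polynomial.eval_X]
    exact h2
  have h1 : R.coeff r = (Polynomial.derivative (ci r)).eval Y₀ := by
    rw [hR, Polynomial.finsetSum_coeff]
    simp only [Polynomial.coeff_C_mul_X_pow]
    rw [Finset.sum_ite_eq, if_pos (Finset.mem_range.2 (by omega))]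
  rw [← h1, hR0, Polynomial.coeff_zero]

/-- A polynomial with derivative `0` is a polynomial in `z ^ p`. Proof: `Polynomial.expand_contract`. -/
theorem exists_exp {p : ℕ} (hp : p.Prime) [CharP κ p] {q : Polynomial κ}
    (h : Polynomial.derivative q = 0) :
    ∃ q' : Polynomial κ, q'.natDegree ≤ q.natDegree ∧ ∀ z, q.eval z = q'.eval (z ^ p) := by
  have h1 := Polynomial.expand_contract p h hp.ne_zero
  refine ⟨Polynomial.contract p q, ?_, fun z => ?_⟩
  · conv_rhs => rw [← h1]
    rw [Polynomial.natDegree_expand]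
    exact Nat.le_mul_of_pos_right _ hp.pos
  · conv_lhs => rw [← h1]
    rw [Polynomial.expand_eval]

/-- **The planar lemma** if `Δ` is not `0` at the basis vectors. Proof: `cmp` for `i`: functions `E r`; they are polynomials of bounded degree in every
variable: in the variable `i` constant, in `s ≠ i` by `root` (for `i` and for `s`), `der`, `exists_exp` and `hpf`; `sep_poly`. -/
theorem Ar.planar₀ [Infinite κ] (h : Ar Δ C P) (hΔ : Δ.IsHomogeneous e) {p : ℕ} (hp : p.Prime)
    [CharP κ p] (hpf : ∀ x : κ, ∃ y, y ^ p = x) (hi : ∀ i, eval (Pi.single i 1) Δ ≠ 0) (i : σ) :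
    ∃ g : MvPolynomial σ κ, ∀ b, eval b Δ ≠ 0 → P b (Pi.single i 1) = eval b g := by
  obtain ⟨E, hE, hE'⟩ := h.cmp hΔ (hi i)
  have key : ∀ r, r ≤ C → ∀ (s : σ) (b : σ → κ), ∃ q : Polynomial κ, q.natDegree ≤ C * p + C ∧
      ∀ c, E r (Function.update b s c) = q.eval c := by
    intro r hr s b
    by_cases his : s = i
    · subst his
      refine ⟨Polynomial.C (E r b), ?_, fun c => ?_⟩
      · rw [Polynomial.natDegree_C]
        exact Nat.zero_le _
      · rw [Polynomial.eval_C]
        exact hE r b c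
    · obtain ⟨F, hF, hF'⟩ := h.cmp hΔ (hi s)
      have h1 : ∀ r : ℕ, ∃ q : Polynomial κ, r ≤ C → q.natDegree ≤ C * p + C ∧
          ∀ z : κ, E r (Function.update b s (z ^ p)) = q.eval z := by
        intro r
        by_cases hr : r ≤ C
        · obtain ⟨q, hq⟩ := h.root hΔ hp his (hi i) hE hE' b hr
          exact ⟨q, fun _ => hq⟩
        · exact ⟨0, fun h => absurd h hr⟩
      have h2 : ∀ r : ℕ, ∃ q : Polynomial κ, r ≤ C → q.natDegree ≤ C * p + C ∧
          ∀ z : κ, F r (Function.update b i (z ^ p)) = q.eval z := by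
        intro r
        by_cases hr : r ≤ C
        · obtain ⟨q, hq⟩ := h.root hΔ hp (Ne.symm his) (hi s) hF hF' b hr
          exact ⟨q, fun _ => hq⟩
        · exact ⟨0, fun h => absurd h hr⟩
      choose ci hci using h1
      choose cs hcs using h2
      have h3 : Polynomial.derivative (ci r) = 0 := by
        refine h.der hΔ hp hpf his (hi i) (hi s) b ci cs ?_ ?_ hr
        · intro x Y hxY
          rw [hE' _ hxY]
          refine Finset.sum_congr rfl fun r' hr' => ?_
          have hr'' : r' ≤ C := Nat.lt_succ_iff.1 (Finset.mem_range.1 hr')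
          rw [Function.update_of_ne (Ne.symm his), Function.update_self,
            Function.update_comm (Ne.symm his), hE, (hci r' hr'').2]
        · intro X y hXy
          rw [hF' _ hXy]
          refine Finset.sum_congr rfl fun r' hr' => ?_
          have hr'' : r' ≤ C := Nat.lt_succ_iff.1 (Finset.mem_range.1 hr')
          rw [Function.update_self, hF, (hcs r' hr'').2]
      obtain ⟨q', hq', hq''⟩ := exists_exp hp h3
      refine ⟨q', hq'.trans (hci r hr).1, fun c => ?_⟩
      obtain ⟨z, rfl⟩ := hpf c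
      rw [(hci r hr).2, hq'']
  have key2 : ∀ r : ℕ, ∃ g : MvPolynomial σ κ, r ≤ C → ∀ b, E r b = eval b g := by
    intro r
    by_cases hr : r ≤ C
    · obtain ⟨g, hg⟩ := sep_poly (E r) (C * p + C) (key r hr)
      exact ⟨g, fun _ => hg⟩
    · exact ⟨0, fun h => absurd h hr⟩
  choose g hg using key2
  refine ⟨∑ r ∈ Finset.range (C + 1), g r * X i ^ r, fun b hb => ?_⟩
  rw [hE' b hb, map_sum]
  refine Finset.sum_congr rfl fun r hr => ?_
  rw [map_mul, map_pow, eval_X, hg r (Nat.lt_succ_iff.1 (Finset.mem_range.1 hr))]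

/-- the linear forms of a linear map -/
private noncomputable def plCLin (T : (σ → κ) →ₗ[κ] (σ → κ)) (k : σ) : MvPolynomial σ κ :=
  ∑ j, X j * MvPolynomial.C (T (Pi.single j 1) k)

omit [Fintype σ] in
private theorem plC_single (j : σ) :
    (fun j' : σ => if j = j' then (1 : κ) else 0) = Pi.single j 1 := by
  funext j'
  rw [Pi.single_apply]
  by_cases h : j = j'
  · rw [if_pos h, if_pos h.symm]
  · rw [if_neg h, if_neg (Ne.symm h)]

private theorem plC_eval (T : (σ → κ) →ₗ[κ] (σ → κ)) (k : σ) (t : σ → κ) :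
    eval t (plCLin T k) = T t k := by
  rw [plCLin, map_sum, LinearMap.pi_apply_eq_sum_univ T t, Finset.sum_apply]
  refine Finset.sum_congr rfl fun j _ => ?_
  rw [map_mul, eval_X, eval_C, plC_single, Pi.smul_apply, smul_eq_mul]

private theorem plC_aeval (T : (σ → κ) →ₗ[κ] (σ → κ)) (g : MvPolynomial σ κ) (t : σ → κ) :
    eval t (aeval (plCLin T) g) = eval (T t) g := by
  have hae : ∀ (u : σ → κ) (G : MvPolynomial σ κ), aeval u G = eval u G :=
    fun u G => RingHom.congr_fun (coe_aeval_eq_eval u) G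
  have h1 : (aeval (R := κ) t).comp (aeval (plCLin T)) = aeval (R := κ) (T t) := by
    apply algHom_ext
    intro k
    rw [AlgHom.comp_apply, aeval_X, aeval_X, hae]
    exact plC_eval T k t
  have h2 := AlgHom.congr_fun h1 g
  rw [AlgHom.comp_apply, hae, hae] at h2
  exact h2

/-- **The planar lemma.** Proof: `exists_bs`, linear change of coordinates: `Δ' t = Δ (∑ t_i B_i)` (`MvPolynomial.aeval`, homogeneous),
`P' t u = P (∑ t_i B_i) (∑ u_i B_i)`; `planar₀`; back with the inverse matrix. -/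
theorem Ar.planar [Infinite κ] (h : Ar Δ C P) (h0 : Δ ≠ 0) (hΔ : Δ.IsHomogeneous e) {p : ℕ}
    (hp : p.Prime) [CharP κ p] (hpf : ∀ x : κ, ∃ y, y ^ p = x) (i : σ) :
    ∃ g : MvPolynomial σ κ, ∀ b, eval b Δ ≠ 0 → P b (Pi.single i 1) = eval b g := by
  obtain ⟨B, hB⟩ := exists_bs Δ h0
  obtain ⟨T, hT⟩ : ∃ T : (σ → κ) →ₗ[κ] (σ → κ), ∀ t, T t = B.equivFun.symm t :=
    ⟨B.equivFun.symm.toLinearMap, fun _ => rfl⟩
  obtain ⟨S, hS⟩ : ∃ S : (σ → κ) →ₗ[κ] (σ → κ), ∀ t, S t = B.equivFun t :=
    ⟨B.equivFun.toLinearMap, fun _ => rfl⟩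
  have hTS : ∀ b, T (S b) = b := by
    intro b
    rw [hT, hS, LinearEquiv.symm_apply_apply]
  have hTB : ∀ j, T (Pi.single j 1) = B j := by
    intro j
    rw [hT, Module.Basis.equivFun_symm_apply, Finset.sum_eq_single j]
    · rw [Pi.single_eq_same, one_smul]
    · intro k _ hk
      rw [Pi.single_eq_of_ne hk, zero_smul]
    · intro h
      exact absurd (Finset.mem_univ j) h
  have hev : ∀ t, eval t (aeval (plCLin T) Δ) = eval (T t) Δ := plC_aeval T Δ
  have h' : Ar (aeval (plCLin T) Δ) C (fun t u => P (T t) (T u)) := by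
    refine ⟨?_, ?_, ?_⟩
    · intro b hb u u'
      rw [hev] at hb
      rw [map_add, h.add _ hb]
    · intro b hb u t
      rw [hev] at hb
      rw [map_smul, h.smul _ hb]
    · intro ρ a ha
      have hsum : ∀ (c : κ), (fun k => (∑ j, a j * Polynomial.C (T (Pi.single j 1) k)).eval c) =
          T (fun j => (a j).eval c) := by
        intro c
        funext k
        rw [LinearMap.pi_apply_eq_sum_univ T, Finset.sum_apply, Polynomial.eval_finsetSum]
        refine Finset.sum_congr rfl fun j _ => ?_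
        rw [Polynomial.eval_mul, Polynomial.eval_C, plC_single, Pi.smul_apply, smul_eq_mul]
      have hder : ∀ (c : κ), (fun k => (Polynomial.derivative
          (∑ j, a j * Polynomial.C (T (Pi.single j 1) k))).eval c) =
          T (fun j => (Polynomial.derivative (a j)).eval c) := by
        intro c
        funext k
        rw [LinearMap.pi_apply_eq_sum_univ T, Finset.sum_apply, Polynomial.derivative_sum,
          Polynomial.eval_finsetSum]
        refine Finset.sum_congr rfl fun j _ => ?_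
        rw [Polynomial.derivative_mul, Polynomial.derivative_C, mul_zero, add_zero,
          Polynomial.eval_mul, Polynomial.eval_C, plC_single, Pi.smul_apply, smul_eq_mul]
      obtain ⟨q, hq, hq'⟩ := h.arc ρ
        (fun k => ∑ j, a j * Polynomial.C (T (Pi.single j 1) k)) (fun k => by
          refine Polynomial.natDegree_sum_le_of_forall_le _ _ fun j _ => ?_
          refine (Polynomial.natDegree_mul_C_le _ _).trans (ha j))
      refine ⟨q, hq, fun c hc => ?_⟩
      rw [hev] at hc
      have h1 := hq' c (by rw [hsum]; exact hc)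
      rw [hsum, hder] at h1
      exact h1
  have hΔ' : (aeval (plCLin T) Δ).IsHomogeneous e := by
    have h1 : ∀ k, (plCLin T k).IsHomogeneous 1 := by
      intro k
      refine IsHomogeneous.sum _ _ _ fun j _ => ?_
      exact (isHomogeneous_X κ j).mul (isHomogeneous_C σ _)
    have h2 := hΔ.aeval (plCLin T) h1
    rwa [one_mul] at h2
  have hi : ∀ j, eval (Pi.single j 1) (aeval (plCLin T) Δ) ≠ 0 := by
    intro j
    rw [hev, hTB]
    exact hB j
  have hg := fun j => h'.planar₀ hΔ' hp hpf hi j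
  choose g hg using hg
  refine ⟨∑ j, MvPolynomial.C (S (Pi.single i 1) j) * aeval (plCLin S) (g j), fun b hb => ?_⟩
  have hb' : eval (S b) (aeval (plCLin T) Δ) ≠ 0 := by
    rw [hev, hTS]
    exact hb
  obtain ⟨L, hL⟩ : ∃ L : (σ → κ) →ₗ[κ] κ, ∀ u, L u = P (T (S b)) (T u) :=
    ⟨{ toFun := fun u => P (T (S b)) (T u)
       map_add' := h'.add _ hb'
       map_smul' := fun t u => h'.smul _ hb' u t }, fun _ => rfl⟩
  have h3 : P b (Pi.single i 1) = L (S (Pi.single i 1)) := by
    rw [hL, hTS, hTS]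
  rw [h3, LinearMap.pi_apply_eq_sum_univ L, map_sum]
  refine Finset.sum_congr rfl fun j _ => ?_
  rw [plC_single, hL, smul_eq_mul, map_mul, eval_C, plC_aeval]
  have h4 := hg j (S b) hb'
  rw [← h4]

end GM
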