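import Pool.Agent.Lib.MP_f80667_ag.Gm.AlC
import Pool.Agent.Lib.MP_f80667_ag.Gm.PlC

/-!
The functions `M_y(e_i, e_m) = G_m ℓ_y(pv e_i) = ℓ_y(G_m e_i - G_i e_m)` are given by homogeneous polynomials of degree `n - 2`.
-/

open MvPolynomial

namespace GM

section Aux

variable {κ : Type} [Field κ]

private theorem hom_eval {σ : Type*} {φ : MvPolynomial σ κ} {n : ℕ} (h : φ.IsHomogeneous n)
    (t : κ) (b : σ → κ) : eval (t • b) φ = t ^ n * eval b φ := by
  rw [eval_eq, eval_eq, Finset.mul_sum]
  refine Finset.sum_congr rfl fun d hd => ?_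
  have hdeg : ∑ i ∈ d.support, d i = n := by
    have h1 : d.degree = n := by
      by_contra h2
      exact mem_support_iff.1 hd (h.coeff_eq_zero h2)
    rwa [Finsupp.degree_apply] at h1
  rw [← hdeg, ← Finset.prod_pow_eq_pow_sum]
  simp only [Pi.smul_apply, smul_eq_mul, mul_pow, Finset.prod_mul_distrib]
  ring

/-- Extension by `0` at `m`. -/
private def exz {M : Type*} [Zero M] {N : ℕ} (m : Fin N) (b : {i : Fin N // i ≠ m} → M) :
    Fin N → M := fun i => if h : i ≠ m then b ⟨i, h⟩ else 0

private theorem exz_of {M : Type*} [Zero M] {N : ℕ} (m : Fin N) {b : Fin N → M} (hb : b m = 0) :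
    exz m (fun i => b i.1) = b := by
  funext i
  by_cases h : i = m
  · subst h
    simp [exz, hb]
  · simp [exz, h]

private theorem exz_at {M : Type*} [Zero M] {N : ℕ} (m : Fin N) (b : {i : Fin N // i ≠ m} → M) :
    exz m b m = 0 := by
  simp [exz]

private theorem deg_comp {N : ℕ} {g : MvPolynomial (Fin N) κ} {m : Fin N} (h : degreeOf m g = 0)
    (r : ℕ) : degreeOf m (homogeneousComponent r g) = 0 := by
  have h1 : degreeOf m (homogeneousComponent r g) ≤ 0 := by
    rw [degreeOf_le_iff]
    intro d hd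
    rw [support_homogeneousComponent] at hd
    have := (degreeOf_le_iff (n := m) (f := g) (d := 0)).1 h.le d (Finset.mem_filter.1 hd).1
    exact this
  omega

private theorem deg_ren {N : ℕ} (m : Fin N) (g : MvPolynomial {i : Fin N // i ≠ m} κ) :
    degreeOf m (rename (Subtype.val : {i : Fin N // i ≠ m} → Fin N) g) = 0 := by
  classical
  have h1 : degreeOf m (rename (Subtype.val : {i : Fin N // i ≠ m} → Fin N) g) ≤ 0 := by
    rw [degreeOf_le_iff]
    intro d hd
    rw [support_rename_of_injective Subtype.val_injective] at hd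
    obtain ⟨d', -, rfl⟩ := Finset.mem_image.1 hd
    rw [Finsupp.mapDomain_of_notMem_range]
    rintro ⟨i, hi⟩
    exact i.2 hi
  omega

end Aux

private theorem ev_mon {κ : Type} [Field κ] {N : ℕ} {m : Fin N} {b : Fin N → κ} (hb : b m = 0)
    (w : κ) (d : Fin N →₀ ℕ) (c : κ) :
    eval (sh m b w) (monomial d c) = c * (∏ i ∈ Finset.univ.erase m, b i ^ d i) * w ^ d m := by
  rw [eval_monomial, Finsupp.prod_fintype _ _ (fun i => pow_zero _),
    ← Finset.mul_prod_erase Finset.univ _ (Finset.mem_univ m)]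
  have h1 : sh m b w m = w := by simp [sh, hb]
  have h2 : ∏ i ∈ Finset.univ.erase m, sh m b w i ^ d i =
      ∏ i ∈ Finset.univ.erase m, b i ^ d i := by
    refine Finset.prod_congr rfl fun i hi => ?_
    have hi' : i ≠ m := Finset.ne_of_mem_erase hi
    simp [sh, hi']
  rw [h1, h2]
  ring

/-- The coefficients of the dual basis. -/
private noncomputable def dbs {κ : Type} [Field κ] {N : ℕ} (G : MvPolynomial (Fin N) κ) (m : Fin N)
    (j : ℕ) : MvPolynomial (Fin N) κ :=
  ∑ d ∈ G.support.filter (fun d => j < d m),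
    monomial (d - Finsupp.single m (j + 1)) (coeff d G)

private theorem dbs_hom {κ : Type} [Field κ] {N n : ℕ} {G : MvPolynomial (Fin N) κ}
    (hG : G.IsHomogeneous n) (m : Fin N) (j : ℕ) : (dbs G m j).IsHomogeneous (n - 1 - j) := by
  refine IsHomogeneous.sum _ _ _ fun d hd => ?_
  rw [Finset.mem_filter, mem_support_iff] at hd
  have hdeg : d.degree = n := by
    rw [Finsupp.degree_eq_weight_one (R := ℕ)]
    exact hG hd.1
  refine isHomogeneous_monomial _ ?_
  have hle : Finsupp.single m (j + 1) ≤ d := by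
    rw [Finsupp.single_le_iff]
    exact hd.2
  have h2 : (d - Finsupp.single m (j + 1)).degree + (Finsupp.single m (j + 1)).degree = n := by
    rw [← map_add, tsub_add_cancel_of_le hle, hdeg]
  rw [Finsupp.degree_single] at h2
  omega

private theorem dbs_sum {κ : Type} [Field κ] {N n : ℕ} {G : MvPolynomial (Fin N) κ}
    (hG : G.IsHomogeneous n) {m : Fin N} {b : Fin N → κ} (hb : b m = 0) (w w' : κ) :
    ∑ j ∈ Finset.range n, eval (sh m b w) (dbs G m j) * w' ^ j =
      ∑ d ∈ G.support, coeff d G * (∏ i ∈ Finset.univ.erase m, b i ^ d i) *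
        ∑ j ∈ Finset.range (d m), w' ^ j * w ^ (d m - 1 - j) := by
  have h1 : ∀ j, eval (sh m b w) (dbs G m j) * w' ^ j = ∑ d ∈ G.support,
      if j < d m then coeff d G * (∏ i ∈ Finset.univ.erase m, b i ^ d i) *
        (w' ^ j * w ^ (d m - 1 - j)) else 0 := by
    intro j
    rw [dbs, map_sum, Finset.sum_mul, Finset.sum_filter]
    refine Finset.sum_congr rfl fun d _ => ?_
    by_cases hj : j < d m
    · rw [if_pos hj, if_pos hj, ev_mon hb]
      have h2 : ∏ i ∈ Finset.univ.erase m, b i ^ (d - Finsupp.single m (j + 1)) i =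
          ∏ i ∈ Finset.univ.erase m, b i ^ d i := by
        refine Finset.prod_congr rfl fun i hi => ?_
        have hi' : i ≠ m := Finset.ne_of_mem_erase hi
        rw [Finsupp.tsub_apply, Finsupp.single_eq_of_ne hi', Nat.sub_zero]
      have h3 : (d - Finsupp.single m (j + 1)) m = d m - 1 - j := by
        rw [Finsupp.tsub_apply, Finsupp.single_eq_same]
        omega
      rw [h2, h3]
      ring
    · rw [if_neg hj, if_neg hj]
  rw [Finset.sum_congr rfl fun j _ => h1 j, Finset.sum_comm]
  refine Finset.sum_congr rfl fun d hd => ?_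
  rw [mem_support_iff] at hd
  have hdeg : d.degree = n := by
    rw [Finsupp.degree_eq_weight_one (R := ℕ)]
    exact hG hd
  have hle : d m ≤ n := hdeg ▸ Finsupp.le_degree m d
  rw [← Finset.sum_filter, Finset.mul_sum]
  refine Finset.sum_congr ?_ fun j _ => rfl
  ext j
  simp only [Finset.mem_filter, Finset.mem_range]
  omega

variable {κ : Type} [Field κ] {N p n : ℕ} {G : MvPolynomial (Fin N) κ}
  {Δ : Fin N → MvPolynomial (Fin N) κ} (H : Hy p n G Δ) {ℓ : (Fin N → κ) → (Fin N → κ) → κ}
  (hℓ : Fn G Δ ℓ)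

include H hℓ

/-- `Pj` is a polynomial which does not contain the variable `m`. Proof: the planar lemma for `σ = {i // i ≠ m}` and
`P b u = Pj G ℓ m j (ext b) (ext u)`, where `ext` puts `0` at `m` (`Δ m` restricted to the vectors with `m`-th coordinate `0` is not `0` and homogeneous because
`Δ m` does not contain the variable `m`); `Fn.arc` (`C = j`), `pj_add`, `pj_smul`. The polynomial is the image under `rename Subtype.val`. For `b` with `b m ≠ 0`
nothing is claimed. -/
theorem Hy.pj_poly (m i : Fin N) (j : ℕ) :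
    ∃ g : MvPolynomial (Fin N) κ, degreeOf m g = 0 ∧
      ∀ b, b m = 0 → eval b (Δ m) ≠ 0 → Pj G ℓ m j b (Pi.single i 1) = eval b g := by
  classical
  have := H.inf
  have := H.char
  by_cases him : i = m
  · subst him
    refine ⟨0, by simp, fun b _ hb => ?_⟩
    rw [H.pj_self hℓ hb, map_zero]
  obtain ⟨e, he⟩ := (H.dsc m).hom
  obtain ⟨Δ', hΔ'⟩ : ∃ Δ' : MvPolynomial {i : Fin N // i ≠ m} κ,
      Δ' = aeval (exz m (fun s => (X s : MvPolynomial {i : Fin N // i ≠ m} κ))) (Δ m) := ⟨_, rfl⟩
  have hev : ∀ b, eval b Δ' = eval (exz m b) (Δ m) := by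
    intro b
    rw [hΔ', ← aeval_eq_eval, ← aeval_eq_eval]
    rw [← AlgHom.comp_apply, comp_aeval]
    congr 2
    funext s
    by_cases h : s ≠ m
    · simp [exz, h]
    · simp [exz, h]
  have hhom : Δ'.IsHomogeneous e := by
    rw [hΔ']
    have := he.aeval (exz m (fun s => (X s : MvPolynomial {i : Fin N // i ≠ m} κ))) (n := 1) (by
      intro s
      by_cases h : s ≠ m
      · simp only [exz, h, ne_eq, not_false_eq_true, dite_true]
        exact isHomogeneous_X _ _
      · simp only [exz, h, dite_false]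
        exact isHomogeneous_zero _ _ _)
    rwa [one_mul] at this
  have hne : Δ' ≠ 0 := by
    intro h0
    apply (H.dsc m).ne
    apply MvPolynomial.funext
    intro b
    rw [map_zero]
    have h1 : eval b (Δ m) = eval (exz m (fun s => b s.1)) (Δ m) := by
      refine eval_free (H.dsc m).free fun s hs => ?_
      simp [exz, hs]
    rw [h1, ← hev, h0, map_zero]
  have hAr : Ar Δ' j (fun b u => Pj G ℓ m j (exz m b) (exz m u)) := by
    refine ⟨?_, ?_, ?_⟩
    · intro b hb u u'
      rw [hev] at hb
      have : exz m (u + u') = exz m u + exz m u' := by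
        funext s
        by_cases h : s ≠ m
        · simp [exz, h]
        · simp [exz, h]
      simp only [this]
      exact H.pj_add hℓ hb j _ _
    · intro b hb u t
      rw [hev] at hb
      have : exz m (t • u) = t • exz m u := by
        funext s
        by_cases h : s ≠ m
        · simp [exz, h]
        · simp [exz, h]
      simp only [this]
      exact H.pj_smul hℓ hb j _ _
    · intro ρ a ha
      obtain ⟨q, hq, hq'⟩ := hℓ.arc m j (exz m a) (ρ := ρ) (by
        intro s
        by_cases h : s ≠ m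
        · simp only [exz, h, ne_eq, not_false_eq_true, dite_true]
          exact ha _
        · simp [exz, h])
      refine ⟨q, hq, fun c hc => ?_⟩
      have e1 : av (exz m a) c = exz m (fun s => (a s).eval c) := by
        funext s
        by_cases h : s ≠ m
        · simp [av, exz, h]
        · simp [av, exz, h]
      have e2 : dv (exz m a) c = exz m (fun s => (Polynomial.derivative (a s)).eval c) := by
        funext s
        by_cases h : s ≠ m
        · simp [dv, exz, h]
        · simp [dv, exz, h]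
      have := hq' c
      rw [e1, e2, ← hev] at this
      exact this hc
  obtain ⟨g', hg'⟩ := hAr.planar hne hhom H.prime H.root ⟨i, him⟩
  refine ⟨rename Subtype.val g', deg_ren m g', fun b hb hbΔ => ?_⟩
  have h1 : exz m (fun s : {i : Fin N // i ≠ m} => b s.1) = b := exz_of m hb
  have h2 := hg' (fun s => b s.1)
  rw [hev, h1] at h2
  have h3 : exz m (Pi.single (⟨i, him⟩ : {i : Fin N // i ≠ m}) (1 : κ)) = Pi.single i 1 := by
    funext s
    by_cases h : s = i
    · subst h
      simp [exz, him]
    · by_cases hs : s ≠ m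
      · simp [exz, hs, h]
      · simp [exz, hs, h]
  have h4 := h2 hbΔ
  rw [h3] at h4
  rw [h4, eval_rename]
  rfl

/-- The polynomial is homogeneous of degree `j - 1`. Proof: `pj_poly`; by `pj_hom` `t g(t b) = t ^ j g(b)` for all good `b` and `t ≠ 0`; so
`t ∑ t ^ r g_r(b) = t ^ j ∑ g_r(b)` (homogeneous components) for infinitely many `t`: `g_r(b) = 0` for `r + 1 ≠ j`; take the component of degree `j - 1`
(`homogeneousComponent`); for `j = 0` `Fn.zero`: `g = 0`. -/
theorem Hy.pj_hpoly (m i : Fin N) (j : ℕ) :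
    ∃ g : MvPolynomial (Fin N) κ, degreeOf m g = 0 ∧ (j = 0 → g = 0) ∧
      (j ≠ 0 → g.IsHomogeneous (j - 1)) ∧
      ∀ b, b m = 0 → eval b (Δ m) ≠ 0 → Pj G ℓ m j b (Pi.single i 1) = eval b g := by
  have := H.inf
  rcases Nat.eq_zero_or_pos j with hj | hj
  · subst hj
    refine ⟨0, by simp, fun _ => rfl, fun h => absurd rfl h, fun b _ hb => ?_⟩
    rw [hℓ.zero m hb, map_zero]
  obtain ⟨g, hg, hgb⟩ := H.pj_poly hℓ m i j
  refine ⟨homogeneousComponent (j - 1) g, deg_comp hg _, fun h => absurd h (by omega), fun _ =>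
    homogeneousComponent_isHomogeneous _ _, fun b hb hbΔ => ?_⟩
  rw [hgb b hb hbΔ]
  obtain ⟨e, he⟩ := (H.dsc m).hom
  have hpt : ∀ t : κ, t * eval (t • b) g = t ^ j * eval b g := by
    intro t
    by_cases ht : t = 0
    · subst ht
      rw [zero_mul, zero_pow (by omega), zero_mul]
    · have h1 : (t • b) m = 0 := by simp [hb]
      have h2 : eval (t • b) (Δ m) ≠ 0 := by
        rw [hom_eval he]
        exact mul_ne_zero (pow_ne_zero _ ht) hbΔ
      rw [← hgb _ h1 h2, ← hgb b hb hbΔ]
      exact H.pj_hom hℓ hbΔ j _ ht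
  obtain ⟨c, hc⟩ : ∃ c : ℕ → κ, c = fun r => eval b (homogeneousComponent r g) := ⟨_, rfl⟩
  have hexp : ∀ t : κ, eval (t • b) g = ∑ r ∈ Finset.range (g.totalDegree + 1), t ^ r * c r := by
    intro t
    conv_lhs => rw [← sum_homogeneousComponent g]
    rw [map_sum]
    refine Finset.sum_congr rfl fun r _ => ?_
    rw [hom_eval (homogeneousComponent_isHomogeneous r g), hc]
  have hpol : (∑ r ∈ Finset.range (g.totalDegree + 1),
      Polynomial.C (c r) * Polynomial.X ^ (r + 1)) =
        Polynomial.C (eval b g) * (Polynomial.X ^ j : Polynomial κ) := by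
    apply Polynomial.funext
    intro t
    have := hpt t
    rw [hexp, Finset.mul_sum] at this
    simp only [Polynomial.eval_finsetSum, Polynomial.eval_mul, Polynomial.eval_C,
      Polynomial.eval_pow, Polynomial.eval_X]
    rw [mul_comm (eval b g), ← this]
    refine Finset.sum_congr rfl fun r _ => ?_
    ring
  have hco := congrArg (fun q => q.coeff j) hpol
  simp only [Polynomial.finsetSum_coeff, Polynomial.coeff_C_mul, Polynomial.coeff_X_pow,
    if_true, mul_one] at hco
  rw [← hco]
  by_cases hr : j - 1 ∈ Finset.range (g.totalDegree + 1)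
  · rw [Finset.sum_eq_single_of_mem (j - 1) hr]
    · rw [if_pos (by omega), mul_one, hc]
    · intro r _ hr'
      rw [if_neg (by omega), mul_zero]
  · have hr2 : g.totalDegree < j - 1 := by
      rw [Finset.mem_range] at hr
      omega
    rw [homogeneousComponent_eq_zero _ _ hr2, map_zero]
    refine Finset.sum_eq_zero fun r hr' => ?_
    rw [if_neg, mul_zero]
    intro h
    apply hr
    have : j - 1 = r := by omega
    rwa [this]

omit hℓ in
/-- The dual basis. `β j = ∑ s > j, G_s X_m ^ (s - j - 1)` where `G = ∑ G_s X_m ^ s`. Proof: on the line `b + Y e_m` (`b m = 0`) the polynomial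
`g = gp G m b = ∑ G_s(b) Y ^ s` has `∑ j < n, β_j(w) w' ^ j = (g(w) - g(w')) / (w - w')` for `w ≠ w'` and `g'(w)` for `w = w'`. -/
theorem Hy.dual (m : Fin N) : ∃ β : ℕ → MvPolynomial (Fin N) κ,
    (∀ j, j < n → (β j).IsHomogeneous (n - 1 - j)) ∧
    ∀ (b : Fin N → κ), b m = 0 → ∀ w w' : κ, w ∈ (gp G m b).roots → w' ∈ (gp G m b).roots →
      (w = w' → ∑ j ∈ Finset.range n, eval (sh m b w) (β j) * w' ^ j =
        eval (sh m b w) (pderiv m G)) ∧
      (w ≠ w' → ∑ j ∈ Finset.range n, eval (sh m b w) (β j) * w' ^ j = 0) := by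
  refine ⟨dbs G m, fun j _ => dbs_hom H.hom m j, fun b hb w w' hw hw' => ⟨?_, ?_⟩⟩
  · rintro rfl
    rw [dbs_sum H.hom hb]
    conv_rhs => rw [G.as_sum, map_sum, map_sum]
    refine Finset.sum_congr rfl fun d _ => ?_
    rw [pderiv_monomial, ev_mon hb]
    have h2 : ∏ i ∈ Finset.univ.erase m, b i ^ ((d - Finsupp.single m 1 : Fin N →₀ ℕ) i) =
        ∏ i ∈ Finset.univ.erase m, b i ^ d i := by
      refine Finset.prod_congr rfl fun i hi => ?_
      have hi' : i ≠ m := Finset.ne_of_mem_erase hi
      rw [Finsupp.tsub_apply, Finsupp.single_eq_of_ne hi', Nat.sub_zero]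
    have h3 : (d - Finsupp.single m 1 : Fin N →₀ ℕ) m = d m - 1 := by
      rw [Finsupp.tsub_apply, Finsupp.single_eq_same]
    rw [h2, h3]
    have h4 : ∑ j ∈ Finset.range (d m), w ^ j * w ^ (d m - 1 - j) =
        (d m : κ) * w ^ (d m - 1) := by
      rw [Finset.sum_congr rfl (g := fun _ => w ^ (d m - 1)) ?_, Finset.sum_const,
        Finset.card_range, nsmul_eq_mul]
      intro j hj
      rw [Finset.mem_range] at hj
      rw [← pow_add]
      congr 1
      omega
    rw [h4]
    ring
  · intro hne
    rw [dbs_sum H.hom hb]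
    have hs : w' - w ≠ 0 := sub_ne_zero.2 (Ne.symm hne)
    refine (mul_eq_zero.1 ?_).resolve_right hs
    rw [Finset.sum_mul]
    have hE : ∀ v, v ∈ (gp G m b).roots →
        ∑ d ∈ G.support, coeff d G * (∏ i ∈ Finset.univ.erase m, b i ^ d i) * v ^ d m = 0 := by
      intro v hv
      have h0 : eval (sh m b v) G = 0 := by
        rw [← gp_eval]
        exact (Polynomial.mem_roots'.1 hv).2
      rw [← h0]
      conv_rhs => rw [G.as_sum, map_sum]
      exact Finset.sum_congr rfl fun d _ => (ev_mon hb v d _).symm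
    have h1 : ∀ d ∈ G.support, coeff d G * (∏ i ∈ Finset.univ.erase m, b i ^ d i) *
        (∑ j ∈ Finset.range (d m), w' ^ j * w ^ (d m - 1 - j)) * (w' - w) =
        coeff d G * (∏ i ∈ Finset.univ.erase m, b i ^ d i) * w' ^ d m -
        coeff d G * (∏ i ∈ Finset.univ.erase m, b i ^ d i) * w ^ d m := by
      intro d _
      rw [mul_assoc, (Commute.all w' w).geom_sum₂_mul, mul_sub]
    rw [Finset.sum_congr rfl h1, Finset.sum_sub_distrib, hE w' hw', hE w hw, sub_zero]

/-- Proof: `R = ∑ j < n, β j g j`, `g j` from `pj_hpoly` (degree `(n - 1 - j) + (j - 1) = n - 2`). For a point `y` let `b = y` with `m`-th coordinate `0`,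
`w = y m`: `y = sh m b w`, `w` a root. `eval y R = ∑ j, β_j(y) ∑ w', w' ^ j ℓ(..) = G_m(y) ℓ y (pv G m y e_i)` (`dual`, exchange the sums; the roots are
distinct: `Hy.roots`). -/
theorem Hy.exists_R (m i : Fin N) : ∃ R : MvPolynomial (Fin N) κ, R.IsHomogeneous (n - 2) ∧
    ∀ y, eval y G = 0 → eval y (Δ m) ≠ 0 →
      eval y (pderiv m G) * ℓ y (pv G m y (Pi.single i 1)) = eval y R := by
  classical
  obtain ⟨β, hβ, hd⟩ := H.dual m
  choose g hg0 hgz hgh hge using fun j => H.pj_hpoly hℓ m i j
  refine ⟨∑ j ∈ Finset.range n, β j * g j, ?_, ?_⟩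
  · refine IsHomogeneous.sum _ _ _ fun j hj => ?_
    rw [Finset.mem_range] at hj
    by_cases h0 : j = 0
    · rw [hgz j h0, mul_zero]
      exact isHomogeneous_zero _ _ _
    · have h1 := (hβ j hj).mul (hgh j h0)
      have h2 : n - 1 - j + (j - 1) = n - 2 := by omega
      rwa [h2] at h1
  · intro y hy hΔ
    set b : Fin N → κ := Function.update y m 0 with hbdef
    have hbm : b m = 0 := by simp [hbdef]
    have hysh : sh m b (y m) = y := by
      funext k
      by_cases hk : k = m
      · subst hk
        simp [sh, hbdef]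
      · simp [sh, hbdef, hk]
    have hΔb : eval b (Δ m) ≠ 0 := by
      rw [← H.eval_sh m b (y m), hysh]
      exact hΔ
    have hgp0 : gp G m b ≠ 0 := by
      intro h0
      have h1 := (gp_deg H.hom m b).2
      rw [h0, Polynomial.coeff_zero] at h1
      exact H.ne m h1.symm
    have hwr : y m ∈ (gp G m b).roots := by
      rw [Polynomial.mem_roots hgp0, Polynomial.IsRoot.def, gp_eval, hysh]
      exact hy
    have hnd := (H.roots hΔb).1
    have hval : (gp G m b).roots.toFinset.val = (gp G m b).roots := by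
      rw [Multiset.toFinset_val, Multiset.dedup_eq_self.2 hnd]
    have hPj : ∀ j, Pj G ℓ m j b (Pi.single i 1) = ∑ w' ∈ (gp G m b).roots.toFinset,
        w' ^ j * ℓ (sh m b w') (pv G m (sh m b w') (Pi.single i 1)) := by
      intro j
      rw [Pj, Finset.sum, hval]
    have hgj : ∀ j, eval y (g j) = ∑ w' ∈ (gp G m b).roots.toFinset,
        w' ^ j * ℓ (sh m b w') (pv G m (sh m b w') (Pi.single i 1)) := by
      intro j
      rw [← hPj, hge j b hbm hΔb]
      refine eval_free (hg0 j) fun k hk => ?_
      simp [hbdef, hk]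
    rw [map_sum]
    have h3 : ∀ j ∈ Finset.range n, eval y (β j * g j) =
        ∑ w' ∈ (gp G m b).roots.toFinset, eval y (β j) * w' ^ j *
          ℓ (sh m b w') (pv G m (sh m b w') (Pi.single i 1)) := by
      intro j _
      rw [map_mul, hgj, Finset.mul_sum]
      exact Finset.sum_congr rfl fun w' _ => by ring
    rw [Finset.sum_congr rfl h3, Finset.sum_comm]
    have h4 : ∀ w' ∈ (gp G m b).roots.toFinset, (∑ j ∈ Finset.range n, eval y (β j) * w' ^ j *
        ℓ (sh m b w') (pv G m (sh m b w') (Pi.single i 1))) =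
        if w' = y m then eval y (pderiv m G) * ℓ y (pv G m y (Pi.single i 1)) else 0 := by
      intro w' hw'
      rw [Multiset.mem_toFinset] at hw'
      have h5 := hd b hbm (y m) w' hwr hw'
      rw [hysh] at h5
      rw [← Finset.sum_mul]
      by_cases hww : w' = y m
      · rw [if_pos hww, h5.1 hww.symm, hww, hysh]
      · rw [if_neg hww, h5.2 (Ne.symm hww), zero_mul]
    rw [Finset.sum_congr rfl h4, Finset.sum_ite_eq' (gp G m b).roots.toFinset (y m),
      if_pos (Multiset.mem_toFinset.2 hwr)]

end GM
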