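import Pool.Agent.Lib.MP_f80667_ag.Gm.AlE

/-! Polynomials which vanish at the good points of the hypersurface are divisible by `G`. -/

open MvPolynomial

namespace GM

variable {κ : Type} [Field κ] {N p n : ℕ} {G : MvPolynomial (Fin N) κ}
  {Δ : Fin N → MvPolynomial (Fin N) κ} (H : Hy p n G Δ)

/-- The polynomials as polynomials in the variable `m`. -/
private noncomputable def alFe (κ : Type) [Field κ] {N : ℕ} (m : Fin N) :
    MvPolynomial (Fin N) κ ≃ₐ[κ] Polynomial (MvPolynomial {i : Fin N // i ≠ m} κ) :=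
  (renameEquiv κ (Equiv.optionSubtypeNe m).symm).trans (optionEquivLeft κ {i : Fin N // i ≠ m})

private theorem alFe_apply (m : Fin N) (f : MvPolynomial (Fin N) κ) :
    alFe κ m f = optionEquivLeft κ {i : Fin N // i ≠ m}
      (rename (Equiv.optionSubtypeNe m).symm f) := rfl

private theorem alFe_deg (m : Fin N) (f : MvPolynomial (Fin N) κ) :
    (alFe κ m f).natDegree = degreeOf m f := by
  rw [alFe_apply, natDegree_optionEquivLeft]
  have h := degreeOf_rename_of_injective (p := f)
    (Equiv.injective (Equiv.optionSubtypeNe m).symm) m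
  rw [Equiv.optionSubtypeNe_symm_self] at h
  exact h

private theorem alFe_eval (m : Fin N) (f : MvPolynomial (Fin N) κ) (b : Fin N → κ) (y : κ) :
    (Polynomial.map (eval fun i : {i : Fin N // i ≠ m} => b i) (alFe κ m f)).eval y =
      eval (fun i => if i = m then y else b i) f := by
  rw [alFe_apply, ← optionEquivLeft_elim_eval, eval_rename]
  congr 2
  funext i
  by_cases hi : i = m
  · subst hi
    simp
  · rw [Function.comp_apply, Equiv.optionSubtypeNe_symm_of_ne hi, if_neg hi]
    rfl

private theorem alF_lead (hG : G.IsHomogeneous n) (m : Fin N) :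
    (alFe κ m G).coeff n = C (coeff (Finsupp.single m n) G) := by
  have h1 : ((optionEquivLeft κ {i : Fin N // i ≠ m}).symm (alFe κ m G)).IsHomogeneous n := by
    rw [alFe_apply, AlgEquiv.symm_apply_apply]
    exact hG.rename_isHomogeneous
  have h2 := h1.coeff_isHomogeneous_of_optionEquivLeft_symm n 0 (by omega)
  have h3 : ((alFe κ m G).coeff n).totalDegree = 0 := Nat.le_zero.1 h2.totalDegree_le
  rw [totalDegree_eq_zero_iff_eq_C.1 h3, alFe_apply, optionEquivLeft_coeff_coeff]
  congr 1
  have h4 : (0 : {i : Fin N // i ≠ m} →₀ ℕ).optionElim n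
      = (Finsupp.single m n).mapDomain (Equiv.optionSubtypeNe m).symm := by
    rw [Finsupp.mapDomain_single, Equiv.optionSubtypeNe_symm_self]
    ext o
    cases o with
    | none => simp
    | some i => simp
  rw [h4, coeff_rename_mapDomain _ (Equiv.injective _)]

include H

private theorem Hy.alF_deg (m : Fin N) : (alFe κ m G).natDegree = n := by
  refine le_antisymm ?_ ?_
  · rw [alFe_deg]
    exact (degreeOf_le_totalDegree _ _).trans H.hom.totalDegree_le
  · refine Polynomial.le_natDegree_of_ne_zero ?_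
    rw [alF_lead H.hom]
    exact fun h => H.ne m (C_injective _ _ (by rw [h, map_zero]))

private theorem Hy.alF_div (m : Fin N) (Q : MvPolynomial (Fin N) κ) :
    ∃ A R : MvPolynomial (Fin N) κ, Q = G * A + R ∧ degreeOf m R < n := by
  obtain ⟨a, ha⟩ : ∃ a, a = coeff (Finsupp.single m n) G := ⟨_, rfl⟩
  have ha0 : a ≠ 0 := by rw [ha]; exact H.ne m
  obtain ⟨P1, hP1⟩ : ∃ P1, P1 = Polynomial.C (C a⁻¹) * alFe κ m G := ⟨_, rfl⟩
  have hu : (C a⁻¹ : MvPolynomial {i : Fin N // i ≠ m} κ) ≠ 0 := fun h =>
    inv_ne_zero ha0 (C_injective _ _ (by rw [h, map_zero]))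
  have hdeg : P1.natDegree = n := by
    rw [hP1, Polynomial.natDegree_C_mul hu, H.alF_deg]
  have hmon : P1.Monic := by
    rw [Polynomial.Monic, Polynomial.leadingCoeff, hdeg, hP1, Polynomial.coeff_C_mul,
      alF_lead H.hom, ← ha, ← C_mul, inv_mul_cancel₀ ha0, C_1]
  have h1 := Polynomial.modByMonic_add_div (alFe κ m Q) P1
  refine ⟨(alFe κ m).symm (Polynomial.C (C a⁻¹) * (alFe κ m Q /ₘ P1)),
    (alFe κ m).symm (alFe κ m Q %ₘ P1), ?_, ?_⟩
  · apply (alFe κ m).injective
    rw [map_add, map_mul, AlgEquiv.apply_symm_apply, AlgEquiv.apply_symm_apply]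
    have h2 : ∀ D, alFe κ m G * (Polynomial.C (C a⁻¹) * D) = P1 * D := fun D => by
      rw [hP1]
      ring
    rw [h2, add_comm]
    exact h1.symm
  · rw [← alFe_deg, AlgEquiv.apply_symm_apply, ← hdeg]
    refine Polynomial.natDegree_modByMonic_lt _ hmon ?_
    intro h
    have h2 := H.two
    rw [h, Polynomial.natDegree_one] at hdeg
    omega

/-- If `G` divides `c Q`, `c ≠ 0` without the variable `m`, then `G` divides `Q`. Proof: as polynomials in `X_m` over the polynomials in the other variables (`MvPolynomial`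
as `Polynomial`: e.g. `MvPolynomial.optionEquivLeft` or `finSuccEquiv` after a renaming) `G` is a unit times a monic polynomial of degree `n`
(`hom`, `ne`): `Q = G A + r` with `deg r < n`, `c r = G (B - c A)`, so `B = c A`, `c r = 0`, `r = 0`. -/
theorem Hy.dvd_of_free {m : Fin N} {c Q : MvPolynomial (Fin N) κ} (hc : c ≠ 0)
    (hm : degreeOf m c = 0) (h : G ∣ c * Q) : G ∣ Q := by
  obtain ⟨A, R, hQ, hR⟩ := H.alF_div m Q
  have h1 : G ∣ c * R := by
    have h2 : c * R = c * Q - G * (c * A) := by rw [hQ]; ring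
    rw [h2]
    exact dvd_sub h (dvd_mul_right _ _)
  have hR0 : R = 0 := by
    by_contra hne
    have h2 : alFe κ m (c * R) ≠ 0 := by
      rw [Ne, EmbeddingLike.map_eq_zero_iff]
      exact mul_ne_zero hc hne
    have h3 := Polynomial.natDegree_le_of_dvd (map_dvd (alFe κ m) h1) h2
    rw [H.alF_deg, alFe_deg] at h3
    have h4 := degreeOf_mul_le m c R
    omega
  rw [hQ, hR0, add_zero]
  exact dvd_mul_right _ _

/-- A polynomial which vanishes at all points `y` with `G(y) = 0`, `Δ_m(y) ≠ 0` is divisible by `G`. Proof: division by `G` as a polynomial in `X_m`: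
`Q = G A + r`, `r` of degree `< n` in `X_m`; for every good `b` the polynomial `r` on the line `b + Y e_m` has the `n` distinct roots of `gp G m b`
(`Hy.roots`), so it is `0`; hence `Δ_m r` vanishes everywhere, `r = 0`. -/
theorem Hy.dvd_of_zero (m : Fin N) {Q : MvPolynomial (Fin N) κ}
    (h : ∀ y, eval y G = 0 → eval y (Δ m) ≠ 0 → eval y Q = 0) : G ∣ Q := by
  classical
  have hinf := H.inf
  obtain ⟨A, R, hQ, hR⟩ := H.alF_div m Q
  have hline : ∀ b : Fin N → κ, ∀ w : κ,
      (fun i => if i = m then b m + w else b i) = sh m b w := by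
    intro b w
    funext i
    unfold sh
    by_cases hi : i = m
    · rw [if_pos hi, if_pos hi, hi]
    · rw [if_neg hi, if_neg hi, add_zero]
  have hgood : ∀ b : Fin N → κ, eval b (Δ m) ≠ 0 → eval b R = 0 := by
    intro b hb
    obtain ⟨hnd, hcard⟩ := H.roots hb
    obtain ⟨q, hq⟩ : ∃ q, q = Polynomial.map (eval fun i : {i : Fin N // i ≠ m} => b i)
      (alFe κ m R) := ⟨_, rfl⟩
    have hqe : ∀ w, q.eval (b m + w) = eval (sh m b w) R := by
      intro w
      rw [hq, alFe_eval, hline]
    have hqd : q.natDegree < n := by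
      rw [hq]
      refine lt_of_le_of_lt Polynomial.natDegree_map_le ?_
      rw [alFe_deg]
      exact hR
    have hq0 : q = 0 := by
      refine Polynomial.eq_zero_of_natDegree_lt_card_of_eval_eq_zero' q
        ((gp G m b).roots.toFinset.map ⟨fun w => b m + w, add_right_injective (b m)⟩) ?_ ?_
      · intro z hz
        obtain ⟨w, hw, rfl⟩ := Finset.mem_map.1 hz
        rw [Function.Embedding.coeFn_mk, hqe]
        have hw' : w ∈ (gp G m b).roots := Multiset.mem_toFinset.1 hw
        have h0 : eval (sh m b w) G = 0 := by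
          rw [← gp_eval]
          exact (Polynomial.mem_roots'.1 hw').2
        have h1 : eval (sh m b w) Q = 0 := h _ h0 (by rw [H.eval_sh]; exact hb)
        rw [hQ, map_add, map_mul, h0, zero_mul, zero_add] at h1
        exact h1
      · rw [Finset.card_map, Multiset.toFinset_card_of_nodup hnd, hcard]
        exact hqd
    have h2 := hqe 0
    rw [hq0, Polynomial.eval_zero] at h2
    have h3 : sh m b 0 = b := by
      funext i
      unfold sh
      rw [ite_self, add_zero]
    rw [h3] at h2
    exact h2.symm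
  have hR0 : R = 0 := by
    have h1 : Δ m * R = 0 := by
      apply MvPolynomial.funext
      intro y
      rw [map_mul, map_zero]
      by_cases hy : eval y (Δ m) = 0
      · rw [hy, zero_mul]
      · rw [hgood y hy, mul_zero]
    exact (mul_eq_zero.1 h1).resolve_left (H.dsc m).ne
  rw [hQ, hR0, add_zero]
  exact dvd_mul_right _ _

/-- Proof: `dvd_of_zero` for `Q ∏ Δ_m'` and `dvd_of_free`. -/
theorem Hy.dvd_of_good {Q : MvPolynomial (Fin N) κ}
    (h : ∀ y, eval y G = 0 → (∀ m, eval y (Δ m) ≠ 0) → eval y Q = 0) : G ∣ Q := by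
  classical
  have key : ∀ S : Finset (Fin N), G ∣ (∏ m ∈ S, Δ m) * Q → G ∣ Q := by
    intro S
    induction S using Finset.induction_on with
    | empty =>
      intro h1
      rwa [Finset.prod_empty, one_mul] at h1
    | insert a S ha ih =>
      intro h1
      rw [Finset.prod_insert ha, mul_assoc] at h1
      exact ih (H.dvd_of_free (H.dsc a).ne (H.dsc a).free h1)
  have hN := H.dim
  refine key Finset.univ (H.dvd_of_zero ⟨0, by omega⟩ fun y hy _ => ?_)
  rw [map_mul, map_prod]
  by_cases hall : ∀ m, eval y (Δ m) ≠ 0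
  · rw [h y hy hall, mul_zero]
  · push Not at hall
    obtain ⟨m, hm⟩ := hall
    rw [Finset.prod_eq_zero (Finset.mem_univ m) hm, zero_mul]

end GM
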