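import Pool.Agent.Lib.MP_f80667_ag.Gm.KoA

/-! The syzygies of the partial derivatives. -/

open MvPolynomial

namespace GM

variable {κ : Type} [Field κ] {N : ℕ}

/-- The powers of the variables are a regular sequence. Proof: the ideal of the `X_i ^ s`, `i < k`, consists of the polynomials all of whose monomials are divisible
by some `X_i ^ s` (`MvPolynomial.mem_ideal_span_monomial_image` or `mem_ideal_span_X_image`), and multiplication by `X_k ^ s` shifts the
monomials without changing the exponents of `X_i`, `i < k`. -/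
theorem reg_X (s k : ℕ) (hk : k < N) {x : MvPolynomial (Fin N) κ}
    (h : X ⟨k, hk⟩ ^ s * x ∈
      Ideal.span ((fun i : Fin N => (X i : MvPolynomial (Fin N) κ) ^ s) '' {i | (i : ℕ) < k})) :
    x ∈ Ideal.span ((fun i : Fin N => (X i : MvPolynomial (Fin N) κ) ^ s) '' {i | (i : ℕ) < k}) := by
  classical
  have himg : ((fun i : Fin N => (X i : MvPolynomial (Fin N) κ) ^ s) '' {i | (i : ℕ) < k}) =
      (fun m : Fin N →₀ ℕ => monomial m (1 : κ)) ''
        ((fun i : Fin N => Finsupp.single i s) '' {i | (i : ℕ) < k}) := by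
    rw [Set.image_image]
    refine Set.image_congr fun i _ => ?_
    exact X_pow_eq_monomial
  rw [himg, mem_ideal_span_monomial_image] at h ⊢
  intro m hm
  have h1 : Finsupp.single (⟨k, hk⟩ : Fin N) s + m ∈ ((X (⟨k, hk⟩ : Fin N) : MvPolynomial (Fin N) κ) ^ s * x).support := by
    rw [mem_support_iff, X_pow_eq_monomial, coeff_monomial_mul, one_mul]
    exact mem_support_iff.1 hm
  obtain ⟨_, ⟨i, hi, rfl⟩, hle⟩ := h _ h1
  refine ⟨_, ⟨i, hi, rfl⟩, ?_⟩
  intro j
  have h2 := hle j
  have hi' : (i : ℕ) < k := hi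
  have hne : i ≠ ⟨k, hk⟩ := by
    intro h3
    rw [h3] at hi'
    exact lt_irrefl _ hi'
  simp only at h2 ⊢
  by_cases hj : j = i
  · subst hj
    rw [Finsupp.add_apply, Finsupp.single_eq_of_ne hne, zero_add] at h2
    exact h2
  · rw [Finsupp.single_eq_of_ne hj]
    exact Nat.zero_le _

/-- Proof: `KEx b j (X_i ^ s, i < k)` for `j > k`, by downward induction on `k` (`kex_top` for `k = N`, `kex_step` with `a = X_k ^ s`, `reg_X`);
`k = 0`, `j = 1`. -/
theorem kex_one {b : Fin N → MvPolynomial (Fin N) κ} {s : ℕ}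
    (h : ∀ i, (X i : MvPolynomial (Fin N) κ) ^ s ∈ Ideal.span (Set.range b)) : KEx b 1 ⊥ := by
  classical
  have key : ∀ d : ℕ, d ≤ N → KEx b (N - d + 1)
      (Ideal.span ((fun i : Fin N => (X i : MvPolynomial (Fin N) κ) ^ s) ''
        {i | (i : ℕ) < N - d})) := by
    intro d
    induction d with
    | zero =>
      intro _
      exact kex_top b (by omega) _
    | succ d ih =>
      intro hd
      have hk : N - (d + 1) < N := by omega
      have hk1 : N - (d + 1) + 1 = N - d := by omega
      refine kex_step b (h ⟨N - (d + 1), hk⟩) (fun x hx => reg_X s _ hk hx) ?_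
      have h1 := ih (by omega)
      rw [← hk1] at h1
      have hset : {i : Fin N | (i : ℕ) < N - (d + 1) + 1} =
          {i : Fin N | (i : ℕ) < N - (d + 1)} ∪ {⟨N - (d + 1), hk⟩} := by
        ext i
        simp only [Set.mem_ofPred_eq, Set.mem_union, Set.mem_singleton_iff, Fin.ext_iff]
        omega
      rw [hset, Set.image_union, Set.image_singleton, Ideal.span_union] at h1
      exact h1
  have h1 := key N le_rfl
  have hset : {i : Fin N | (i : ℕ) < N - N} = ∅ := by
    ext i
    simp
  rw [hset, Set.image_empty, Ideal.span_empty, Nat.sub_self, zero_add] at h1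
  exact h1

/-- Homogeneous syzygies of degree `t < e` are `0`. Proof: `syz_of_kex`: `c i = ∑ A_j b_j`, all monomials of the right hand side have degree `≥ e`, those of `c i`
degree `t`. -/
theorem syz_zero {b c : Fin N → MvPolynomial (Fin N) κ} {s t e : ℕ}
    (h : ∀ i, (X i : MvPolynomial (Fin N) κ) ^ s ∈ Ideal.span (Set.range b))
    (hb : ∀ i, (b i).IsHomogeneous e) (hc : ∀ i, (c i).IsHomogeneous t) (hte : t < e)
    (hs : ∑ i, c i * b i = 0) (i : Fin N) : c i = 0 := by
  classical
  have h1 := syz_of_kex b (kex_one h) hs i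
  obtain ⟨A, hA⟩ := (Submodule.mem_span_range_iff_exists_fun _).1 h1
  ext m
  rw [coeff_zero]
  by_cases hm : m.degree = t
  · rw [← hA, coeff_sum]
    refine Finset.sum_eq_zero fun j _ => ?_
    rw [smul_eq_mul, coeff_mul]
    refine Finset.sum_eq_zero fun x hx => ?_
    rw [Finset.HasAntidiagonal.mem_antidiagonal] at hx
    have h2 : x.1.degree + x.2.degree = m.degree := by
      rw [← hx, map_add]
    rw [(hb j).coeff_eq_zero (d := x.2) (by omega), mul_zero]
  · exact (hc i).coeff_eq_zero hm

end GM
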