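import Pool.Agent.Lib.MP_f80667_ag.Gm.AlF
import Pool.Agent.Lib.MP_f80667_ag.Gm.KoB

/-! The function `ℓ` vanishes at the good points. -/

open MvPolynomial

namespace GM

section aux

variable {κ : Type} [Field κ] {N : ℕ}

private theorem alg_hc {n : ℕ} {G : MvPolynomial (Fin N) κ} (hG : G.IsHomogeneous n)
    (S : MvPolynomial (Fin N) κ) (k : ℕ) :
    homogeneousComponent (n + k) (G * S) = G * homogeneousComponent k S := by
  have h1 : ∀ r, homogeneousComponent (n + k) (G * homogeneousComponent r S) =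
      if r = k then G * homogeneousComponent k S else 0 := by
    intro r
    have h2 : G * homogeneousComponent r S ∈ homogeneousSubmodule (Fin N) κ (n + r) :=
      hG.mul (homogeneousComponent_isHomogeneous r S)
    rw [homogeneousComponent_of_mem h2]
    by_cases h : r = k
    · rw [if_pos h, if_pos (by omega), h]
    · rw [if_neg h, if_neg (by omega)]
  conv_lhs => rw [← sum_homogeneousComponent S, Finset.mul_sum, map_sum]
  simp only [h1]
  rw [Finset.sum_ite_eq']
  split_ifs with h
  · rfl
  · rw [Finset.mem_range] at h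
    rw [homogeneousComponent_eq_zero k S (by omega), mul_zero]

private theorem alg_dG_zero (G : MvPolynomial (Fin N) κ) (y : Fin N → κ) : dG G y 0 = 0 := by
  unfold dG
  exact Finset.sum_eq_zero fun i _ => by rw [Pi.zero_apply, mul_zero]

private theorem alg_dG_single (G : MvPolynomial (Fin N) κ) (m : Fin N) (y : Fin N → κ) :
    dG G y (Pi.single m 1) = eval y (pderiv m G) := by
  unfold dG
  rw [Finset.sum_eq_single m]
  · rw [Pi.single_eq_same, mul_one]
  · intro i _ hi
    rw [Pi.single_eq_of_ne hi, mul_zero]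
  · intro h
    exact absurd (Finset.mem_univ m) h

private theorem alg_tg_smul {G : MvPolynomial (Fin N) κ} {y u : Fin N → κ} (h : Tg G y u) (t : κ) :
    Tg G y (t • u) := ⟨h.1, h.2.1, by rw [dG_smul, h.2.2, mul_zero]⟩

private theorem alg_tg_add {G : MvPolynomial (Fin N) κ} {y u u' : Fin N → κ} (h : Tg G y u)
    (h' : Tg G y u') : Tg G y (u + u') := ⟨h.1, h.2.1, by rw [dG_add, h.2.2, h'.2.2, add_zero]⟩

/-- the tangent vector `G_m e_i - G_i e_m` -/
private theorem alg_T {G : MvPolynomial (Fin N) κ} {m : Fin N} {y : Fin N → κ}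
    (h : eval y (pderiv m G) ≠ 0) (i : Fin N) :
    eval y (pderiv m G) • pv G m y (Pi.single i 1) =
      eval y (pderiv m G) • (Pi.single i 1 : Fin N → κ) -
        eval y (pderiv i G) • (Pi.single m 1 : Fin N → κ) := by
  funext s
  simp only [pv, Pi.smul_apply, Pi.sub_apply, smul_eq_mul, alg_dG_single, mul_sub]
  congr 1
  by_cases hs : s = m
  · subst hs
    rw [if_pos rfl, Pi.single_eq_same, mul_one, mul_div_cancel₀ _ h]
  · rw [if_neg hs, Pi.single_eq_of_ne hs, mul_zero, mul_zero]

end aux

variable {κ : Type} [Field κ] {N p n : ℕ} {G : MvPolynomial (Fin N) κ}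
  {Δ : Fin N → MvPolynomial (Fin N) κ} (H : Hy p n G Δ) {ℓ : (Fin N → κ) → (Fin N → κ) → κ}
  (hℓ : Fn G Δ ℓ)

include H hℓ

/-- The polynomials `R i m` and their relations at the points which are good in all directions. Proof: `exists_R` (for `i ≠ m`);
`eval y (R i m) = ℓ y (G_m e_i - G_i e_m)` (`smul`; `G_m pv e_i = G_m e_i - G_i e_m`); the tangent vectors
`G_m e_i - G_i e_m` are antisymmetric and satisfy the cyclic relation. -/
theorem Hy.exists_RR : ∃ R : Fin N → Fin N → MvPolynomial (Fin N) κ,
    (∀ i m, (R i m).IsHomogeneous (n - 2)) ∧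
    (∀ m i y, eval y G = 0 → eval y (Δ m) ≠ 0 →
      eval y (pderiv m G) * ℓ y (pv G m y (Pi.single i 1)) = eval y (R i m)) ∧
    ∀ i j l, i ≠ j → j ≠ l → l ≠ i →
      G ∣ R i j * pderiv l G + R j l * pderiv i G + R l i * pderiv j G := by
  have hex : ∀ i m : Fin N, ∃ R : MvPolynomial (Fin N) κ, R.IsHomogeneous (n - 2) ∧
      ∀ y, eval y G = 0 → eval y (Δ m) ≠ 0 →
        eval y (pderiv m G) * ℓ y (pv G m y (Pi.single i 1)) = eval y R :=
    fun i m => H.exists_R hℓ m i
  choose R hR1 hR2 using hex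
  refine ⟨R, hR1, fun m i => hR2 i m, fun i j l _ _ _ => ?_⟩
  refine H.dvd_of_good fun y hy hD => ?_
  have hy0 : y ≠ 0 := H.nz (hD i)
  have hd : ∀ m, eval y (pderiv m G) ≠ 0 := fun m => H.der hy (hD m)
  have htg : ∀ a m : Fin N, Tg G y (pv G m y (Pi.single a 1)) :=
    fun a m => ⟨hy0, hy, dG_pv (hd m) _⟩
  -- the tangent vectors
  obtain ⟨T, hT⟩ : ∃ T : Fin N → Fin N → Fin N → κ, T = fun a m =>
      eval y (pderiv m G) • pv G m y (Pi.single a 1) := ⟨_, rfl⟩
  have hTt : ∀ a m, Tg G y (T a m) := by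
    intro a m
    rw [hT]
    exact alg_tg_smul (htg a m) _
  have hTe : ∀ a m, T a m = eval y (pderiv m G) • (Pi.single a 1 : Fin N → κ) -
      eval y (pderiv a G) • (Pi.single m 1 : Fin N → κ) := by
    intro a m
    rw [hT]
    exact alg_T (hd m) a
  have hTl : ∀ a m, ℓ y (T a m) = eval y (R a m) := by
    intro a m
    rw [hT, ← hR2 a m y hy (hD m)]
    exact hℓ.smul y _ _ (htg a m)
  have hz : ℓ y 0 = 0 := by
    have h1 := hℓ.smul y (T i j) 0 (hTt i j)
    rwa [zero_smul, zero_mul] at h1
  have hcyc : eval y (pderiv l G) • T i j + eval y (pderiv i G) • T j l +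
      eval y (pderiv j G) • T l i = 0 := by
    rw [hTe, hTe, hTe]
    simp only [smul_sub, smul_smul]
    rw [mul_comm (eval y (pderiv l G)) (eval y (pderiv i G)),
      mul_comm (eval y (pderiv i G)) (eval y (pderiv j G)),
      mul_comm (eval y (pderiv l G)) (eval y (pderiv j G))]
    abel
  have h1 := hℓ.add y _ _ (alg_tg_add (alg_tg_smul (hTt i j) (eval y (pderiv l G)))
    (alg_tg_smul (hTt j l) (eval y (pderiv i G)))) (alg_tg_smul (hTt l i) (eval y (pderiv j G)))
  rw [hcyc, hz, hℓ.add y _ _ (alg_tg_smul (hTt i j) (eval y (pderiv l G)))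
    (alg_tg_smul (hTt j l) (eval y (pderiv i G))), hℓ.smul y _ _ (hTt i j),
    hℓ.smul y _ _ (hTt j l), hℓ.smul y _ _ (hTt l i), hTl, hTl, hTl] at h1
  rw [map_add, map_add, map_mul, map_mul, map_mul, h1]
  ring

omit hℓ in
/-- Proof: `R_ij G_l + R_jl G_i + R_li G_j = G S`, `S` homogeneous of degree `n - 3` (or `0`: `n = 2`, the left hand side has degree `1`; take the homogeneous component of
`S`), `n G = ∑ X_s G_s` (Euler), `n ≠ 0` in `κ`; `syz_zero` for the family `G_s` with the coefficients
`n R_ij - S X_l` (at `l`), `n R_jl - S X_i` (at `i`), `n R_li - S X_j` (at `j`), `- S X_s` (at the other `s`; there is one because `N ≥ 4`), homogeneous of degree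
`n - 2 < n - 1`. -/
theorem Hy.R_zero {R : Fin N → Fin N → MvPolynomial (Fin N) κ}
    (hR : ∀ i m, (R i m).IsHomogeneous (n - 2))
    (hG : ∀ i j l, i ≠ j → j ≠ l → l ≠ i →
      G ∣ R i j * pderiv l G + R j l * pderiv i G + R l i * pderiv j G) {i j : Fin N}
    (hij : i ≠ j) : R i j = 0 := by
  classical
  have hn2 := H.two
  have hN := H.dim
  have hch := H.char
  -- two further indices
  have hcard : 2 ≤ (((Finset.univ : Finset (Fin N)).erase i).erase j).card := by
    rw [Finset.card_erase_of_mem (Finset.mem_erase.2 ⟨hij.symm, Finset.mem_univ j⟩),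
      Finset.card_erase_of_mem (Finset.mem_univ i), Finset.card_univ, Fintype.card_fin]
    omega
  obtain ⟨l, hl, s, hs, hls⟩ := Finset.one_lt_card.1 (by omega :
    1 < (((Finset.univ : Finset (Fin N)).erase i).erase j).card)
  have hlj : l ≠ j := Finset.ne_of_mem_erase hl
  have hli : l ≠ i := Finset.ne_of_mem_erase (Finset.mem_of_mem_erase hl)
  have hsj : s ≠ j := Finset.ne_of_mem_erase hs
  have hsi : s ≠ i := Finset.ne_of_mem_erase (Finset.mem_of_mem_erase hs)
  have hpd : ∀ a : Fin N, (pderiv a G).IsHomogeneous (n - 1) := fun a => H.hom.pderiv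
  have hG0 : G ≠ 0 := by
    intro h
    apply H.ne i
    rw [h, coeff_zero]
  -- the quotient, homogeneous
  obtain ⟨S, hSh, hSE⟩ : ∃ S : MvPolynomial (Fin N) κ,
      (∀ a : Fin N, (S * X a).IsHomogeneous (n - 2)) ∧
      R i j * pderiv l G + R j l * pderiv i G + R l i * pderiv j G = G * S := by
    obtain ⟨S, hS⟩ := hG i j l hij hlj.symm hli
    have hE : (R i j * pderiv l G + R j l * pderiv i G + R l i * pderiv j G).IsHomogeneous
        (n - 2 + (n - 1)) :=
      (((hR i j).mul (hpd l)).add ((hR j l).mul (hpd i))).add ((hR l i).mul (hpd j))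
    by_cases hn3 : 3 ≤ n
    · refine ⟨homogeneousComponent (n - 3) S, fun a => ?_, ?_⟩
      · have h1 := (homogeneousComponent_isHomogeneous (n - 3) S).mul (isHomogeneous_X κ a)
        rwa [show n - 3 + 1 = n - 2 by omega] at h1
      · rw [← alg_hc H.hom S (n - 3), ← hS]
        have h1 := homogeneousComponent_of_mem (m := n + (n - 3)) (n := n - 2 + (n - 1))
          ((mem_homogeneousSubmodule _ _).2 hE)
        rw [h1, if_pos (by omega)]
    · refine ⟨0, fun a => ?_, ?_⟩
      · rw [zero_mul]
        exact isHomogeneous_zero _ _ _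
      · rw [mul_zero]
        by_contra hne
        have hS0 : S ≠ 0 := by
          rintro rfl
          rw [mul_zero] at hS
          exact hne hS
        have h1 := hE.totalDegree hne
        rw [hS, totalDegree_mul_of_isDomain hG0 hS0, H.hom.totalDegree hG0] at h1
        omega
  -- the syzygy
  obtain ⟨c, hc⟩ : ∃ c : Fin N → MvPolynomial (Fin N) κ, c = fun a =>
      (if a = l then C (n : κ) * R i j else 0) + (if a = i then C (n : κ) * R j l else 0) +
        (if a = j then C (n : κ) * R l i else 0) - S * X a := ⟨_, rfl⟩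
  have hch : ∀ a, (c a).IsHomogeneous (n - 2) := by
    intro a
    rw [hc]
    have h1 : ∀ (q : Prop) [Decidable q] (Q : MvPolynomial (Fin N) κ), Q.IsHomogeneous (n - 2) →
        (if q then C (n : κ) * Q else 0).IsHomogeneous (n - 2) := by
      intro q _ Q hQ
      split_ifs
      · have h2 := (isHomogeneous_C (Fin N) (n : κ)).mul hQ
        rwa [zero_add] at h2
      · exact isHomogeneous_zero _ _ _
    exact (((h1 _ _ (hR i j)).add (h1 _ _ (hR j l))).add (h1 _ _ (hR l i))).sub (hSh a)
  have hsum : ∑ a, c a * pderiv a G = 0 := by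
    have hE : ∑ a, (X a : MvPolynomial (Fin N) κ) * pderiv a G = C (n : κ) * G := by
      have h1 := H.hom.sum_X_mul_pderiv
      rw [h1, nsmul_eq_mul]
      simp
    have h2 : ∑ a, S * X a * pderiv a G = S * (C (n : κ) * G) := by
      rw [← hE, Finset.mul_sum]
      exact Finset.sum_congr rfl fun a _ => mul_assoc _ _ _
    rw [hc]
    simp only [sub_mul, add_mul, ite_mul, zero_mul, Finset.sum_sub_distrib, Finset.sum_add_distrib,
      Finset.sum_ite_eq', Finset.mem_univ, if_true]
    rw [h2]
    linear_combination C (n : κ) * hSE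
  obtain ⟨e, he⟩ := H.smooth
  have hz := syz_zero (b := fun a => pderiv a G) (c := c) he hpd hch (by omega) hsum
  have hcs := hz s
  have hS0 : S = 0 := by
    rw [hc] at hcs
    simp only [if_neg hls.symm, if_neg hsi, if_neg hsj, zero_add, zero_sub, neg_eq_zero] at hcs
    exact (mul_eq_zero.1 hcs).resolve_right (X_ne_zero s)
  have hcl := hz l
  rw [hc] at hcl
  simp only [if_true, if_neg hli, if_neg hlj, add_zero, hS0, zero_mul, sub_zero] at hcl
  have hn0 : (n : κ) ≠ 0 := by
    have := H.char
    rw [Ne, CharP.cast_eq_zero_iff κ p n]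
    intro hdv
    have := Nat.le_of_dvd (by omega) hdv
    have := H.lt
    omega
  refine (mul_eq_zero.1 hcl).resolve_left fun h => hn0 ?_
  exact (map_eq_zero_iff C (C_injective (Fin N) κ)).1 h

/-- **The algebraic theorem.** Proof: `ℓ y (pv e_i) = 0` for `i ≠ m` (`R_zero`, `Hy.der`) and for `i = m` (`pv_self`), and
`u = pv G m y u = ∑ u_i pv e_i` for a tangent vector `u` (`dG G y u = 0`); `add`, `smul`. -/
theorem Hy.main {m : Fin N} {y u : Fin N → κ} (hu : Tg G y u) (h : eval y (Δ m) ≠ 0) :
    ℓ y u = 0 := by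
  classical
  obtain ⟨R, hR1, hR2, hR3⟩ := H.exists_RR hℓ
  have hd := H.der hu.2.1 h
  have hz : ℓ y 0 = 0 := by
    have h1 := hℓ.smul y u 0 hu
    rwa [zero_smul, zero_mul] at h1
  have htg : ∀ a : Fin N, Tg G y (pv G m y (Pi.single a 1)) :=
    fun a => ⟨hu.1, hu.2.1, dG_pv hd _⟩
  have hl : ∀ i, ℓ y (pv G m y (Pi.single i 1)) = 0 := by
    intro i
    by_cases hi : i = m
    · rw [hi, pv_self hd, hz]
    · have h1 := hR2 m i y hu.2.1 h
      rw [H.R_zero hR1 hR3 hi, map_zero] at h1
      exact (mul_eq_zero.1 h1).resolve_left hd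
  have hsum : ∀ s : Finset (Fin N),
      Tg G y (∑ i ∈ s, u i • pv G m y (Pi.single i 1)) ∧
        ℓ y (∑ i ∈ s, u i • pv G m y (Pi.single i 1)) = 0 := by
    intro s
    induction s using Finset.induction_on with
    | empty =>
      rw [Finset.sum_empty]
      exact ⟨⟨hu.1, hu.2.1, alg_dG_zero G y⟩, hz⟩
    | insert a s ha ih =>
      rw [Finset.sum_insert ha]
      have h1 := alg_tg_smul (htg a) (u a)
      refine ⟨alg_tg_add h1 ih.1, ?_⟩
      rw [hℓ.add y _ _ h1 ih.1, ih.2, hℓ.smul y _ _ (htg a), hl, mul_zero, add_zero]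
  have hu2 : u = ∑ i, u i • pv G m y (Pi.single i 1) := by
    have h1 : u = ∑ i, u i • (Pi.single i 1 : Fin N → κ) := by
      funext s
      rw [Finset.sum_apply, Finset.sum_eq_single s]
      · rw [Pi.smul_apply, Pi.single_eq_same, smul_eq_mul, mul_one]
      · intro b _ hb
        rw [Pi.smul_apply, Pi.single_eq_of_ne hb.symm, smul_zero]
      · intro hs
        exact absurd (Finset.mem_univ s) hs
    have h2 : pv G m y u = u := by
      funext s
      rw [pv, hu.2.2, zero_div]
      split_ifs
      · rw [sub_zero]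
      · rw [sub_zero]
    have h3 : ∀ s : Finset (Fin N), pv G m y (∑ i ∈ s, u i • (Pi.single i 1 : Fin N → κ)) =
        ∑ i ∈ s, u i • pv G m y (Pi.single i 1) := by
      intro s
      induction s using Finset.induction_on with
      | empty =>
        rw [Finset.sum_empty, Finset.sum_empty]
        funext t
        rw [pv, alg_dG_zero, zero_div]
        split_ifs
        · rw [sub_zero]
        · rw [sub_zero]
      | insert a s ha ih =>
        rw [Finset.sum_insert ha, Finset.sum_insert ha, pv_add, pv_smul, ih]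
    rw [← h3, ← h1, h2]
  rw [hu2]
  exact (hsum Finset.univ).2

end GM
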