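import Pool.Agent.Lib.MP_f80667_ag.Gm.GpD

/-!
The idempotent of a sheet: `V` a complete discrete valuation ring (or local ring), `g(z, Y)` with a simple root `w₀` at `z = 0` modulo the maximal
ideal, `F(z)` a distinguished polynomial.
-/

open Polynomial IsLocalRing

namespace GM

section root

variable {A : Type} [CommRing A]

/-- The idempotent of a simple root. -/
theorem ga_simple {G : A[X]} {w : A} (h0 : G.eval w = 0) (h1 : IsUnit (G.derivative.eval w)) :
    ∃ q E : A[X], q.eval w = G.derivative.eval w ∧ (∃ B, (X - C w) * E = G * B) ∧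
      ∃ B, q * (1 - E) = G * B := by
  obtain ⟨q, hq⟩ := dvd_iff_isRoot.2 h0
  obtain ⟨v, hv⟩ := h1.exists_right_inv
  have hqw : q.eval w = G.derivative.eval w := by
    rw [hq, derivative_mul, derivative_sub, derivative_X, derivative_C]
    simp
  obtain ⟨t, ht⟩ := X_sub_C_dvd_sub_C_eval (p := q) (a := w)
  refine ⟨q, C v * q, hqw, ⟨C v, ?_⟩, -(C v * t), ?_⟩
  · rw [hq]
    ring
  · rw [hqw] at ht
    have h2 : (1 : A[X]) = C (G.derivative.eval w) * C v := by rw [← C_mul, hv, C_1]
    have h3 : q * (1 - C v * q) = C v * q * (C (G.derivative.eval w) - q) := by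
      linear_combination q * h2
    rw [h3]
    conv_rhs => rw [hq]
    linear_combination (-(C v * q)) * ht

end root

variable {V : Type} [CommRing V]

theorem ev₂_map (P : V × V) (A : V[X][X]) : ev₂ P A = (A.map (evalRingHom P.1)).eval P.2 := by
  rw [ev₂_eq, map_evalRingHom_eval]

/-- Polynomials in two variables which are `0` modulo `F(z)`. -/
theorem ga_ker {F : V[X]} {P : V[X][X]} (h : P.map (Ideal.Quotient.mk (Ideal.span {F})) = 0) :
    ∃ B, P = C F * B := by
  have hd : C F ∣ P := by
    rw [C_dvd_iff_dvd_coeff]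
    intro j
    have h1 := congrArg (fun Q => Q.coeff j) h
    simp only [coeff_map, coeff_zero] at h1
    rw [Ideal.Quotient.eq_zero_iff_mem, Ideal.mem_span_singleton] at h1
    exact h1
  exact hd

theorem pse_coe (W : PowerSeries V) (f : V[X]) : pse 0 W (C f) = (f : PowerSeries V) := by
  have h : (pse 0 W).comp C = (Polynomial.coeToPowerSeries.ringHom : V[X] →+* PowerSeries V) := by
    ext1
    · ext1 a
      simp [pse_C]
    · simp only [RingHom.comp_apply]
      rw [pse_z]
      simp
  exact RingHom.congr_fun h f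

/-- **The idempotent of a sheet (A1).** Proof: the root `w₁` of `g(0, Y)` (Hensel), the Hensel root in `V[[z]]`, its class in `V[[z]] / (F) = V[z] / (F)` (Weierstrass), `ga_simple` over
`V[z] / (F)`. -/
theorem ga_idem [IsLocalRing V] [IsAdicComplete (maximalIdeal V) V] {g : V[X][X]} (hg : g.Monic)
    {w₀ : V} (h0 : ev₂ (0, w₀) g ∈ maximalIdeal V) (h1 : IsUnit (ev₂ (0, w₀) (dY g))) {F : V[X]}
    (hF : F.IsDistinguishedAt (maximalIdeal V)) :
    ∃ (W : V[X]) (q E : V[X][X]), W.eval 0 - w₀ ∈ maximalIdeal V ∧ IsUnit (ev₂ (0, w₀) q) ∧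
      (∃ A B, (X - C W) * E = g * A + C F * B) ∧ ∃ A B, q * (1 - E) = g * A + C F * B := by
  classical
  by_cases hd : F.natDegree = 0
  · have h2 : F = 1 := hF.monic.natDegree_eq_zero.1 hd
    refine ⟨C w₀, 1, 0, ?_, ?_, ⟨0, 0, by simp⟩, 0, 1, ?_⟩
    · rw [eval_C, sub_self]
      exact Ideal.zero_mem _
    · rw [map_one]
      exact isUnit_one
    · rw [h2]
      simp
  have hF0 : F.eval 0 ∈ maximalIdeal V := by
    rw [← coeff_zero_eq_eval_zero]
    exact hF.mem (Nat.pos_of_ne_zero hd)
  -- the root over `V`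
  have h2 : (g.map (evalRingHom (0 : V))).Monic := hg.map _
  obtain ⟨w₁, hw, hw'⟩ := HenselianRing.is_henselian (I := maximalIdeal V) _ h2 w₀ (by
    rw [ev₂_map] at h0
    exact h0) (by
    rw [ev₂_map] at h1
    have e : (g.map (evalRingHom (0 : V))).derivative = (dY g).map (evalRingHom 0) := by
      rw [dY, derivative_map]
    rw [e]
    exact h1.map _)
  have hloc : ∀ a b : V, a - b ∈ maximalIdeal V → IsUnit b → IsUnit a := by
    intro a b hab hb
    by_contra ha
    have h3 : b ∈ maximalIdeal V := by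
      have : b = a - (a - b) := by ring
      rw [this]
      exact Ideal.sub_mem _ ((mem_maximalIdeal a).2 ha) hab
    exact (mem_maximalIdeal b).1 h3 hb
  have hev : ∀ (A : V[X][X]) (a b : V), a - b ∈ maximalIdeal V →
      ev₂ (0, a) A - ev₂ (0, b) A ∈ maximalIdeal V := by
    intro A a b hab
    rw [ev₂_map, ev₂_map]
    obtain ⟨c, hc⟩ := sub_dvd_eval_sub a b (A.map (evalRingHom (0 : V)))
    rw [hc]
    exact Ideal.mul_mem_right _ _ hab
  have h3 : ev₂ (0, w₁) g = 0 := by
    rw [ev₂_map]
    exact hw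
  have h4 : IsUnit (ev₂ (0, w₁) (dY g)) := hloc _ _ (hev _ _ _ hw') h1
  obtain ⟨Ws, hWs, hWg⟩ := exists_hr h3 h4
  simp only at hWs hWg
  have h5 : IsUnit (pse 0 Ws (dY g)) := by
    rw [PowerSeries.isUnit_iff_constantCoeff]
    have := cst_pse (0, w₁) (W := Ws) hWs (dY g)
    simp only at this
    rw [this]
    exact h4
  -- the quotients
  let φ := hF.algEquivQuotient
  let mC := Ideal.Quotient.mk (Ideal.span {F})
  let mP := Ideal.Quotient.mk (Ideal.span {(F : PowerSeries V)})
  have hφ : ∀ f : V[X], φ (mC f) = mP (f : PowerSeries V) := by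
    intro f
    rfl
  have hφr : ∀ A : V[X][X], φ ((A.map mC).eval (φ.symm (mP Ws))) = mP (pse 0 Ws A) := by
    intro A
    have e : ((φ : _ →+* _).comp ((evalRingHom (φ.symm (mP Ws))).comp (mapRingHom mC))) =
        mP.comp (pse 0 Ws) := by
      refine Polynomial.ringHom_ext' (RingHom.ext fun f => ?_) ?_
      · simp only [RingHom.comp_apply]
        rw [pse_coe]
        simp only [coe_mapRingHom, map_C, coe_evalRingHom, eval_C]
        exact hφ f
      · simp only [RingHom.comp_apply]
        rw [pse_Y]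
        simp only [coe_mapRingHom, map_X, coe_evalRingHom, eval_X]
        exact φ.apply_symm_apply _
    exact RingHom.congr_fun e A
  have h6 : (g.map mC).eval (φ.symm (mP Ws)) = 0 := by
    apply φ.injective
    rw [hφr, hWg, map_zero, map_zero]
  have h7 : IsUnit ((g.map mC).derivative.eval (φ.symm (mP Ws))) := by
    have h8 : (g.map mC).derivative = (dY g).map mC := by rw [dY, derivative_map]
    rw [h8]
    have h9 := (h5.map mP).map φ.symm
    rw [← hφr, φ.symm_apply_apply] at h9
    exact h9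
  obtain ⟨q', E', h8, ⟨B₁, h9⟩, B₂, h10⟩ := ga_simple h6 h7
  have hsurj : Function.Surjective (mapRingHom mC) :=
    map_surjective _ Ideal.Quotient.mk_surjective
  obtain ⟨W, hW⟩ := Ideal.Quotient.mk_surjective (φ.symm (mP Ws))
  obtain ⟨q, rfl⟩ := hsurj q'
  obtain ⟨E, rfl⟩ := hsurj E'
  obtain ⟨B₁, rfl⟩ := hsurj B₁
  obtain ⟨B₂, rfl⟩ := hsurj B₂
  simp only [coe_mapRingHom] at h8 h9 h10
  have hW0 : W.eval 0 - w₁ ∈ maximalIdeal V := by
    have h11 : mP (W : PowerSeries V) = mP Ws := by
      rw [← hφ]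
      change φ (Ideal.Quotient.mk _ W) = _
      rw [hW, φ.apply_symm_apply]
    rw [Ideal.Quotient.eq, Ideal.mem_span_singleton] at h11
    obtain ⟨T, hT⟩ := h11
    have h12 := congrArg PowerSeries.constantCoeff hT
    rw [map_sub, map_mul, hWs] at h12
    have h13 : ∀ f : V[X], PowerSeries.constantCoeff (f : PowerSeries V) = f.eval 0 := by
      intro f
      rw [← coeff_zero_eq_eval_zero, ← PowerSeries.coeff_zero_eq_constantCoeff_apply,
        Polynomial.coeff_coe]
    rw [h13, h13] at h12
    rw [h12]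
    exact Ideal.mul_mem_right _ _ hF0
  refine ⟨W, q, E, ?_, ?_, ?_, ?_⟩
  · have e : W.eval 0 - w₀ = (W.eval 0 - w₁) + (w₁ - w₀) := by ring
    rw [e]
    exact Ideal.add_mem _ hW0 hw'
  · have h11 : (q - dY g).eval W ∈ Ideal.span {F} := by
      rw [← Ideal.Quotient.eq_zero_iff_mem]
      have e : ∀ A : V[X][X], Ideal.Quotient.mk (Ideal.span {F}) (A.eval W) =
          (A.map mC).eval (φ.symm (mP Ws)) := by
        intro A
        rw [← hW, eval_map]
        exact (eval₂_at_apply mC W).symm
      rw [e, Polynomial.map_sub, eval_sub, h8, dY, derivative_map, sub_self]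
    rw [Ideal.mem_span_singleton] at h11
    obtain ⟨T, hT⟩ := h11
    have h12 := congrArg (eval 0) hT
    rw [eval_mul, eval_sub, eval_sub] at h12
    have h13 : ∀ A : V[X][X], (A.eval W).eval 0 = ev₂ (0, W.eval 0) A := by
      intro A
      rw [ev₂_map, eval_map]
      exact (eval₂_at_apply (evalRingHom (0 : V)) W).symm
    rw [h13, h13] at h12
    have hW0' : W.eval 0 - w₀ ∈ maximalIdeal V := by
      have e : W.eval 0 - w₀ = (W.eval 0 - w₁) + (w₁ - w₀) := by ring
      rw [e]
      exact Ideal.add_mem _ hW0 hw'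
    refine hloc _ _ ?_ h1
    have e1 : ev₂ (0, w₀) q - ev₂ (0, w₀) (dY g) = -(ev₂ (0, W.eval 0) q - ev₂ (0, w₀) q) +
        F.eval 0 * T.eval 0 + (ev₂ (0, W.eval 0) (dY g) - ev₂ (0, w₀) (dY g)) := by
      linear_combination h12
    rw [e1]
    exact Ideal.add_mem _ (Ideal.add_mem _ ((Ideal.neg_mem_iff _).2 (hev _ _ _ hW0'))
      (Ideal.mul_mem_right _ _ hF0)) (hev _ _ _ hW0')
  · obtain ⟨B, hB⟩ := ga_ker (F := F) (P := (X - C W) * E - g * B₁) (by
      rw [Polynomial.map_sub, Polynomial.map_mul, Polynomial.map_mul, Polynomial.map_sub, map_X,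
        map_C]
      change (X - C (mC W)) * E.map mC - g.map mC * B₁.map mC = 0
      have : mC W = φ.symm (mP Ws) := hW
      rw [this, h9, sub_self])
    exact ⟨B₁, B, by linear_combination hB⟩
  · obtain ⟨B, hB⟩ := ga_ker (F := F) (P := q * (1 - E) - g * B₂) (by
      rw [Polynomial.map_sub, Polynomial.map_mul, Polynomial.map_mul, Polynomial.map_sub,
        Polynomial.map_one]
      change q.map mC * (1 - E.map mC) - g.map mC * B₂.map mC = 0
      rw [h10, sub_self])
    exact ⟨B₂, B, by linear_combination hB⟩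

end GM
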