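import Pool.Agent.Lib.MP_f80667_ag.Gm.GpD
import Pool.Agent.Lib.MP_f80667_ag.Cv.Newton

/-!
The main algebraic statement on functions with prescribed zeros (moving lemma and division by `l` in one): preparations.

`V` is a complete discrete valuation ring with the uniformizer `π`, polynomials in two variables are elements of `V[X][X]`.
-/

open Polynomial IsLocalRing

namespace GM

section ring

variable {A : Type} [CommRing A]

/-- The binomial formula up to the second term. Proof: all other terms are divisible by `l a ^ 2` or are `(- a) ^ l`. -/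
theorem ga_pow {l : ℕ} (hl : l = 1 ∨ l.Prime) {d a : A} (X : A) (h1 : l ≠ 1 → d ∣ (l : A) * a ^ 2)
    (h2 : l ≠ 1 → d ∣ a ^ l) : d ∣ (X - a) ^ l - (X ^ l - (l : A) * a * X ^ (l - 1)) := by
  rcases hl with rfl | hl
  · have : (X - a) ^ 1 - (X ^ 1 - ((1 : ℕ) : A) * a * X ^ (1 - 1)) = 0 := by
      rw [Nat.cast_one]
      ring
    rw [this]
    exact dvd_zero _
  replace h1 := h1 hl.one_lt.ne'
  replace h2 := h2 hl.one_lt.ne'
  obtain ⟨m, rfl⟩ : ∃ m, l = m + 2 := ⟨l - 2, by have := hl.two_le; omega⟩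
  have e1 : (X - a) ^ (m + 2) = ∑ i ∈ Finset.range (m + 1),
      ((-a) ^ (i + 1 + 1) * X ^ (m + 2 - (i + 1 + 1)) * ((m + 2).choose (i + 1 + 1) : A)) +
      ((-a) ^ (0 + 1) * X ^ (m + 2 - (0 + 1)) * ((m + 2).choose (0 + 1) : A)) +
      ((-a) ^ 0 * X ^ (m + 2 - 0) * ((m + 2).choose 0 : A)) := by
    rw [← Finset.sum_range_succ' (fun i => (-a) ^ (i + 1) * X ^ (m + 2 - (i + 1)) *
      ((m + 2).choose (i + 1) : A)), ← Finset.sum_range_succ' (fun i => (-a) ^ i *
        X ^ (m + 2 - i) * ((m + 2).choose i : A)), ← add_pow]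
    ring
  have e2 : (X - a) ^ (m + 2) - (X ^ (m + 2) - ((m + 2 : ℕ) : A) * a * X ^ (m + 2 - 1)) =
      ∑ i ∈ Finset.range (m + 1),
      ((-a) ^ (i + 1 + 1) * X ^ (m + 2 - (i + 1 + 1)) * ((m + 2).choose (i + 1 + 1) : A)) := by
    rw [e1]
    simp only [zero_add, Nat.choose_one_right, Nat.choose_zero_right, pow_one, pow_zero,
      Nat.sub_zero, Nat.cast_one]
    ring
  rw [e2]
  refine Finset.dvd_sum fun i hi => ?_
  have hi' : i < m + 1 := Finset.mem_range.1 hi
  by_cases him : i = m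
  · subst him
    have h3 : d ∣ (-a) ^ (i + 1 + 1) := by
      rw [neg_pow]
      exact Dvd.dvd.mul_left h2 _
    exact Dvd.dvd.mul_right (Dvd.dvd.mul_right h3 _) _
  · have h4 : (m + 2) ∣ (m + 2).choose (i + 1 + 1) :=
      hl.dvd_choose_self (by omega) (by omega)
    obtain ⟨t, ht⟩ := h4
    have h5 : (-a) ^ (i + 1 + 1) = a ^ 2 * ((-a) ^ i) := by
      rw [pow_succ, pow_succ]
      ring
    rw [ht, h5, Nat.cast_mul]
    have h6 : a ^ 2 * (-a) ^ i * X ^ (m + 2 - (i + 1 + 1)) * (((m + 2 : ℕ) : A) * (t : A)) =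
        ((m + 2 : ℕ) : A) * a ^ 2 * ((-a) ^ i * X ^ (m + 2 - (i + 1 + 1)) * (t : A)) := by
      ring
    rw [h6]
    exact Dvd.dvd.mul_right h1 _

/-- The function `(b - p ^ s X) ^ l (f + p ^ (s + u) E) (1 + p ^ (s + u) U)`. -/
def gaF (p b f E : A) (l u s : ℕ) (X U : A) : A :=
  (b - p ^ s * X) ^ l * (f + p ^ (s + u) * E) * (1 + p ^ (s + u) * U)

/-- The hypotheses on `l`, `u`, `s`. -/
def Lus (l u s : ℕ) : Prop := (l = 1 ∧ u = 0 ∧ s ≠ 0) ∨ (l.Prime ∧ u < (l - 1) * s)

theorem Lus.s_ne {l u s : ℕ} (h : Lus l u s) : s ≠ 0 := by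
  rcases h with h | h
  · exact h.2.2
  · rintro rfl
    exact absurd h.2 (by simp)

/-- The change of `gaF` if `X` and `U` are changed by multiples of `p ^ k`. -/
theorem ga_expand {p b f E ε : A} {l u s : ℕ} (h : Lus l u s) (hl : (l : A) = ε * p ^ u)
    (k : ℕ) (X U X' U' : A) : ∃ Θ : A, gaF p b f E l u s (X + p ^ k * X') (U + p ^ k * U') =
      gaF p b f E l u s X U + p ^ (s + u + k) * (-(ε * X' * b ^ (l - 1) * f) + b ^ l * f * U') +
        p ^ (s + u + k + 1) * Θ := by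
  have hs := h.s_ne
  obtain ⟨s', rfl⟩ := Nat.exists_eq_succ_of_ne_zero hs
  have hl' : l = 1 ∨ l.Prime := h.elim (fun h => Or.inl h.1) fun h => Or.inr h.1
  -- the power
  obtain ⟨Θ₁, h1⟩ : p ^ (s' + 1 + u + k + 1) ∣ (b - p ^ (s' + 1) * X - p ^ (s' + 1 + k) * X') ^ l -
      ((b - p ^ (s' + 1) * X) ^ l - (l : A) * (p ^ (s' + 1 + k) * X') *
        (b - p ^ (s' + 1) * X) ^ (l - 1)) := by
    refine ga_pow hl' _ (fun h1 => ?_) (fun h1 => ?_)
    · rw [hl]
      have e : ε * p ^ u * (p ^ (s' + 1 + k) * X') ^ 2 =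
          p ^ (s' + 1 + u + k + 1) * (p ^ (s' + k) * (ε * X' ^ 2)) := by
        rw [← mul_assoc (p ^ (s' + 1 + u + k + 1)), ← pow_add]
        have : s' + 1 + u + k + 1 + (s' + k) = u + 2 * (s' + 1 + k) := by ring
        rw [this]
        ring
      rw [e]
      exact dvd_mul_right _ _
    · rw [mul_pow, ← pow_mul]
      refine Dvd.dvd.mul_right (pow_dvd_pow _ ?_) _
      rcases h with h | h
      · exact absurd h.1 h1
      · obtain ⟨m, rfl⟩ : ∃ m, l = m + 2 := ⟨l - 2, by have := h.1.two_le; omega⟩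
        have h2 := h.2
        have e1 : (m + 2 - 1) * (s' + 1) = (m + 1) * (s' + 1) := rfl
        rw [e1] at h2
        have e2 : (s' + 1 + k) * (m + 2) = (m + 1) * (s' + 1) + (s' + 1) + k * (m + 2) := by ring
        have e3 : k ≤ k * (m + 2) := Nat.le_mul_of_pos_right _ (by omega)
        omega
  -- modulo `p`
  obtain ⟨Θ₂, h2⟩ : p ∣ (b - p ^ (s' + 1) * X) ^ l - b ^ l := by
    refine dvd_trans ?_ (sub_dvd_pow_sub_pow _ _ l)
    exact ⟨-(p ^ s' * X), by rw [pow_succ]; ring⟩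
  obtain ⟨Θ₃, h3⟩ : p ∣ (b - p ^ (s' + 1) * X) ^ (l - 1) - b ^ (l - 1) := by
    refine dvd_trans ?_ (sub_dvd_pow_sub_pow _ _ (l - 1))
    exact ⟨-(p ^ s' * X), by rw [pow_succ]; ring⟩
  have e1 : (b - p ^ (s' + 1) * (X + p ^ k * X')) ^ l = (b ^ l + p * Θ₂) -
      p ^ (s' + 1 + u + k) * (ε * X' * (b ^ (l - 1) + p * Θ₃)) +
        p ^ (s' + 1 + u + k + 1) * Θ₁ := by
    have e0 : b - p ^ (s' + 1) * (X + p ^ k * X') =
        b - p ^ (s' + 1) * X - p ^ (s' + 1 + k) * X' := by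
      rw [pow_add p (s' + 1) k]
      ring
    have e00 : p ^ (s' + 1 + u + k) = p ^ u * p ^ (s' + 1 + k) := by
      rw [← pow_add]
      congr 1
      ring
    rw [e0, e00]
    rw [hl] at h1
    linear_combination h1 + h2 - ε * p ^ u * p ^ (s' + 1 + k) * X' * h3
  have e2 : (b - p ^ (s' + 1) * X) ^ l = b ^ l + p * Θ₂ := by linear_combination h2
  obtain ⟨d, hd⟩ : ∃ d : A, d = p ^ (s' + u + k) := ⟨_, rfl⟩
  have e3 : p ^ (s' + 1 + u + k) = p * d := by
    rw [hd, ← pow_succ']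
    congr 1
    ring
  have e4 : p ^ (s' + 1 + u + k + 1) = p * (p * d) := by
    rw [pow_succ', e3]
  have e5 : p ^ (s' + 1 + u) = p * p ^ (s' + u) := by
    rw [← pow_succ']
    congr 1
    ring
  have e6 : p ^ (s' + u) * p ^ k = d := by rw [hd, ← pow_add]
  refine ⟨b ^ l * (p ^ (s' + u) * E) * U' + Θ₂ * (f + p * (p ^ (s' + u) * E)) * U' +
    (Θ₁ - ε * X' * Θ₃) * (f + p * (p ^ (s' + u) * E)) *
      (1 + p * (p ^ (s' + u) * U) + p * d * U') -
    ε * X' * b ^ (l - 1) * (p ^ (s' + u) * E * (1 + p * (p ^ (s' + u) * U) + p * d * U') +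
      f * (p ^ (s' + u) * U + d * U')), ?_⟩
  unfold gaF
  rw [Nat.succ_eq_add_one, e1, e2, e3, e4, e5]
  have e7 : (1 + p * p ^ (s' + u) * (U + p ^ k * U') : A) =
      1 + p * (p ^ (s' + u) * U) + p * d * U' := by
    rw [← e6]
    ring
  rw [e7]
  ring

end ring

section pol

variable {V : Type} [CommRing V]

/-- The coefficients of `A` are in the finite set `T`. -/
def Cin (T : Finset (ℕ × ℕ)) (A : V[X][X]) : Prop :=
  ∀ i j, (A.coeff j).coeff i ≠ 0 → (i, j) ∈ T

theorem cin_zero (T : Finset (ℕ × ℕ)) : Cin T (0 : V[X][X]) := fun i j h => by simp at h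

theorem cin_add {T : Finset (ℕ × ℕ)} {A B : V[X][X]} (hA : Cin T A) (hB : Cin T B) :
    Cin T (A + B) := by
  intro i j h
  by_contra h1
  apply h
  have h2 : (A.coeff j).coeff i = 0 := by
    by_contra h3
    exact h1 (hA i j h3)
  have h3 : (B.coeff j).coeff i = 0 := by
    by_contra h3
    exact h1 (hB i j h3)
  rw [coeff_add, coeff_add, h2, h3, add_zero]

theorem cin_smul {T : Finset (ℕ × ℕ)} {A : V[X][X]} (hA : Cin T A) (c : V) :
    Cin T (C (C c) * A) := by
  intro i j h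
  refine hA i j fun h1 => h ?_
  rw [coeff_C_mul, coeff_C_mul, h1, mul_zero]

/-- Division by a polynomial in `z`. -/
theorem divz {m : V[X]} (hm : m.Monic) {n : ℕ} {A : V[X][X]} (hA : ∀ j, n ≤ j → A.coeff j = 0) :
    ∃ R T : V[X][X], A = R + C m * T ∧ (∀ j, n ≤ j → R.coeff j = 0) ∧
      (∀ j, n ≤ j → T.coeff j = 0) ∧ ∀ i j, (R.coeff j).coeff i ≠ 0 → i < m.natDegree := by
  have hc : ∀ (f : ℕ → V[X]) (j : ℕ), (∑ i ∈ Finset.range n, C (f i) * X ^ i : V[X][X]).coeff j =
      if j < n then f j else 0 := by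
    intro f j
    rw [finsetSum_coeff]
    simp only [coeff_C_mul, coeff_X_pow, mul_ite, mul_one, mul_zero]
    rw [Finset.sum_ite_eq (Finset.range n) j f]
    simp only [Finset.mem_range]
  refine ⟨∑ j ∈ Finset.range n, C (A.coeff j %ₘ m) * X ^ j,
    ∑ j ∈ Finset.range n, C (A.coeff j /ₘ m) * X ^ j, ?_, ?_, ?_, ?_⟩
  · ext1 j
    rw [coeff_add, coeff_C_mul, hc, hc]
    split_ifs with h
    · exact (modByMonic_add_div (A.coeff j) m).symm
    · rw [hA j (not_lt.1 h), mul_zero, add_zero]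
  · intro j hj
    rw [hc, if_neg (not_lt.2 hj)]
  · intro j hj
    rw [hc, if_neg (not_lt.2 hj)]
  · intro i j h
    rw [hc] at h
    split_ifs at h with h1
    · have h2 : Nontrivial V := ⟨_, _, h⟩
      by_contra h3
      refine h (coeff_eq_zero_of_degree_lt ((degree_modByMonic_lt _ hm).trans_le ?_))
      rw [degree_eq_natDegree hm.ne_zero]
      exact_mod_cast not_lt.1 h3
    · simp at h

/-- A sequence of polynomials in two variables with coefficients in a finite set whose differences are divisible by higher and higher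
powers of `π` converges. -/
theorem lim2 [IsLocalRing V] [IsAdicComplete (maximalIdeal V) V] {π : V}
    (hπ : maximalIdeal V = Ideal.span {π}) {T : Finset (ℕ × ℕ)} {A : ℕ → V[X][X]}
    (hT : ∀ k, Cin T (A k)) (h : ∀ k, ∃ Z, A (k + 1) = A k + C (C (π ^ k)) * Z) :
    ∃ B : V[X][X], Cin T B ∧ ∀ k, ∃ Z, B = A k + C (C (π ^ k)) * Z := by
  classical
  obtain ⟨L, hL⟩ := CV.adic_limit (maximalIdeal V)
    (fun k (q : ℕ × ℕ) => ((A k).coeff q.2).coeff q.1) (by
      intro k q
      obtain ⟨Z, hZ⟩ := h k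
      have e : ((A (k + 1)).coeff q.2).coeff q.1 - ((A k).coeff q.2).coeff q.1 =
          π ^ k * (Z.coeff q.2).coeff q.1 := by
        rw [hZ, coeff_add, coeff_C_mul, coeff_add, coeff_C_mul, add_sub_cancel_left]
      rw [e, hπ, Ideal.span_singleton_pow]
      exact Ideal.mul_mem_right _ _ (Ideal.mem_span_singleton_self _))
  have hc : ∀ i j, ((∑ q ∈ T, C (C (L q) * X ^ q.1) * X ^ q.2 : V[X][X]).coeff j).coeff i =
      if (i, j) ∈ T then L (i, j) else 0 := by
    intro i j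
    rw [finsetSum_coeff, finsetSum_coeff]
    have e : ∀ q ∈ T, ((C (C (L q) * X ^ q.1) * X ^ q.2 : V[X][X]).coeff j).coeff i =
        if (i, j) = q then L (i, j) else 0 := by
      rintro ⟨a, b⟩ -
      rw [coeff_C_mul, coeff_X_pow]
      by_cases hj : j = b
      · subst hj
        rw [if_pos rfl, mul_one, coeff_C_mul, coeff_X_pow]
        by_cases hi : i = a
        · subst hi
          rw [if_pos rfl, if_pos rfl, mul_one]
        · rw [if_neg hi, if_neg, mul_zero]
          intro h1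
          exact hi (Prod.mk.inj h1).1
      · rw [if_neg hj, mul_zero, coeff_zero, if_neg]
        intro h1
        exact hj (Prod.mk.inj h1).2
    rw [Finset.sum_congr rfl e, Finset.sum_ite_eq]
  refine ⟨∑ q ∈ T, C (C (L q) * X ^ q.1) * X ^ q.2, ?_, fun k => ?_⟩
  · intro i j h1
    rw [hc] at h1
    by_contra h2
    rw [if_neg h2] at h1
    exact h1 rfl
  · have hd : C (C (π ^ k)) ∣ (∑ q ∈ T, C (C (L q) * X ^ q.1) * X ^ q.2 : V[X][X]) - A k := by
      rw [C_dvd_iff_dvd_coeff]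
      intro j
      rw [C_dvd_iff_dvd_coeff]
      intro i
      rw [coeff_sub, coeff_sub, hc]
      split_ifs with h1
      · have h2 := hL k (i, j)
        rw [hπ, Ideal.span_singleton_pow, Ideal.mem_span_singleton] at h2
        exact h2
      · have h2 : ((A k).coeff j).coeff i = 0 := by
          by_contra h3
          exact h1 (hT k i j h3)
        rw [h2, sub_zero]
        exact dvd_zero _
    obtain ⟨Z, hZ⟩ := hd
    exact ⟨Z, by linear_combination hZ⟩

end pol

end GM
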