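import Pool.Agent.Lib.MP_f80667_ag.Gm.GaB

/-!
The main algebraic statement: moving lemma and division by `l` in one (A2 of the text).
-/

open Polynomial IsLocalRing

namespace GM

variable {V : Type} [CommRing V]

/-- The coefficients of the polynomials of `Y`-degree `< n` and `z`-degree `< D`. -/
def Tb (n D : ℕ) : Finset (ℕ × ℕ) := Finset.range D ×ˢ Finset.range n

theorem wl_of_cin {ρ n m D : ℕ} (h : m + (n - 1) * ρ ≤ D) {A : V[X][X]} (hA : Cin (Tb n m) A) :
    Wl ρ D A := by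
  intro j hj
  have h1 : ((A.coeff j).coeff (A.coeff j).natDegree) ≠ 0 := by
    rw [coeff_natDegree]
    exact leadingCoeff_ne_zero.2 hj
  have h2 := hA _ _ h1
  rw [Tb, Finset.mem_product, Finset.mem_range, Finset.mem_range] at h2
  have h3 : j * ρ ≤ (n - 1) * ρ := Nat.mul_le_mul_right _ (by have := h2.2; omega)
  have h4 := h2.1
  simp only at h4
  omega

/-- Every polynomial is a sum of a polynomial of small degree, of one of `z`-degree `< natDegree b` multiplied by `c = b ^ (l - 1) f`, of a multiple of `b c`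
and of a multiple of `g`. -/
theorem ga_lin [Nontrivial V] {g : V[X][X]} (hg : g.Monic) {b c : V[X]} (hb : b.Monic)
    (hc : c.Monic) (y : V[X][X]) : ∃ H X U W : V[X][X], Cin (Tb g.natDegree c.natDegree) H ∧
      Cin (Tb g.natDegree b.natDegree) X ∧ y = H + C c * X + C (b * c) * U + g * W := by
  by_cases hg0 : g.natDegree = 0
  · have h1 : g = 1 := hg.natDegree_eq_zero.1 hg0
    exact ⟨0, 0, 0, y, cin_zero _, cin_zero _, by rw [h1]; ring⟩
  have hy : ∀ j, g.natDegree ≤ j → (y %ₘ g).coeff j = 0 := fun j hj =>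
    coeff_eq_zero_of_natDegree_lt ((natDegree_modByMonic_lt y hg (by
      rintro rfl
      exact hg0 natDegree_one)).trans_le hj)
  obtain ⟨R, T, h1, h2, h3, h4⟩ := divz hc hy
  obtain ⟨X, U, h5, h6, h7, h8⟩ := divz hb h3
  have key : ∀ {A : V[X][X]} {m : V[X]}, (∀ j, g.natDegree ≤ j → A.coeff j = 0) →
      (∀ i j, (A.coeff j).coeff i ≠ 0 → i < m.natDegree) →
      Cin (Tb g.natDegree m.natDegree) A := by
    intro A m ha hb i j h
    rw [Tb, Finset.mem_product, Finset.mem_range, Finset.mem_range]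
    refine ⟨hb i j h, ?_⟩
    by_contra h9
    rw [ha j (not_lt.1 h9)] at h
    simp at h
  refine ⟨R, X, U, y /ₘ g, key h2 h4, key h6 h8, ?_⟩
  have h9 := modByMonic_add_div y g
  rw [C_mul]
  linear_combination (-1 : V[X][X]) * h9 + h1 + C c * h5

/-- **The main algebraic statement.** Proof: iterate: `gaF - (b ^ l f - π ^ r H) = π ^ r (g W₁ + π ^ k W₂)`, `ga_lin` for `W₂` and `ga_expand`; `H` and `X` have bounded degrees and
converge (`lim2`). -/
theorem ga_main [IsDomain V] [IsDiscreteValuationRing V] [IsAdicComplete (maximalIdeal V) V] {π : V}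
    (hπ : Irreducible π) {ρ n : ℕ} {g : V[X][X]} (hg : Mc ρ n g) {b f : V[X]} (hb : b.Monic)
    (hf : f.Monic) (hn : (n - 1) * ρ ≤ b.natDegree) {l u s : ℕ} (hs : Lus l u s) {ε : V}
    (hε : IsUnit ε) (hl : (l : V) = ε * π ^ u) (E : V[X][X]) :
    ∃ H X : V[X][X], Wl ρ (l * b.natDegree + f.natDegree) H ∧ ∀ k : ℕ, ∃ U W₁ W₂ : V[X][X],
      C (b ^ l * f) - C (C (π ^ (s + u))) * H =
        (C b - C (C (π ^ s)) * X) ^ l * (C f + C (C (π ^ (s + u))) * E) * (1 + C (C π) * U) +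
          g * W₁ + C (C (π ^ k)) * W₂ := by
  classical
  obtain ⟨p, hp⟩ : ∃ p : V[X][X], p = C (C π) := ⟨_, rfl⟩
  have hpp : ∀ k, C (C (π ^ k)) = p ^ k := fun k => by rw [hp, ← C_pow, ← C_pow]
  have hlp : (l : V[X][X]) = C (C ε) * p ^ u := by
    rw [← hpp, ← C_mul, ← C_mul, ← hl]
    simp
  have hs0 := hs.s_ne
  have hl0 : l ≠ 0 := by
    rcases hs with h | h
    · rw [h.1]
      exact one_ne_zero
    · exact h.1.ne_zero
  obtain ⟨ε', hε'⟩ := hε.exists_right_inv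
  set c : V[X] := b ^ (l - 1) * f with hcdef
  have hc : c.Monic := (hb.pow _).mul hf
  have hbc : b * c = b ^ l * f := by
    rw [hcdef, ← mul_assoc, ← pow_succ']
    congr 2
    omega
  have hcd : c.natDegree = (l - 1) * b.natDegree + f.natDegree := by
    rw [hcdef, (hb.pow _).natDegree_mul hf, hb.natDegree_pow]
  set TH := Tb g.natDegree c.natDegree with hTH
  set TX := Tb g.natDegree b.natDegree with hTX
  -- the state
  let St : ℕ → V[X][X] × V[X][X] × V[X][X] → Prop := fun k q => Cin TH q.1 ∧ Cin TX q.2.1 ∧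
    ∃ W₁ W₂ : V[X][X], gaF p (C b) (C f) E l u s q.2.1 q.2.2 -
      (C (b ^ l * f) - p ^ (s + u) * q.1) = p ^ (s + u) * (g * W₁ + p ^ k * W₂)
  have h0 : St 0 (0, 0, 0) := by
    refine ⟨cin_zero _, cin_zero _, 0, C (b ^ l) * E, ?_⟩
    simp only [gaF]
    rw [C_mul, C_pow]
    ring
  have hstep : ∀ k q, St k q → ∃ q' : V[X][X] × V[X][X] × V[X][X], St (k + 1) q' ∧
      (∃ Z, q'.1 = q.1 + p ^ k * Z) ∧ ∃ Z, q'.2.1 = q.2.1 + p ^ k * Z := by
    rintro k ⟨H, X, U⟩ ⟨hH, hX, W₁, W₂, hW⟩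
    obtain ⟨H', X', U', W, hH', hX', hy⟩ := ga_lin hg.monic hb hc (-W₂)
    obtain ⟨Θ, hΘ⟩ := ga_expand (p := p) (b := C b) (f := C f) (E := E) hs hlp k X U
      (-(C (C ε') * X')) U'
    refine ⟨(H + p ^ k * H', X + p ^ k * (-(C (C ε') * X')), U + p ^ k * U'),
      ⟨?_, ?_, W₁ - p ^ k * W, Θ, ?_⟩, ⟨H', rfl⟩, ⟨_, rfl⟩⟩
    · rw [← hpp]
      exact cin_add hH (cin_smul hH' _)
    · have e : X + p ^ k * (-(C (C ε') * X')) = X + C (C (π ^ k)) * (C (C (-ε')) * X') := by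
        rw [hpp, C_neg, C_neg]
        ring
      change Cin TX (X + p ^ k * (-(C (C ε') * X')))
      rw [e]
      exact cin_add hX (cin_smul (cin_smul hX' _) _)
    · simp only at hW ⊢
      rw [hΘ]
      have e1 : C (C ε) * (-(C (C ε') * X')) = -X' := by
        have : C (C ε) * C (C ε') = (1 : V[X][X]) := by
          rw [← C_mul, ← C_mul, hε', C_1, C_1]
        linear_combination (-X') * this
      have e2 : C (b ^ l * f) = C b ^ l * C f := by rw [C_mul, C_pow]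
      have e3 : C (b * c) = C b ^ l * C f := by rw [hbc, e2]
      have e4 : C c = C b ^ (l - 1) * C f := by rw [hcdef, C_mul, C_pow]
      rw [e3, e4] at hy
      have e5 : p ^ (s + u + k + 1) = p ^ (s + u) * p ^ k * p := by
        rw [pow_succ, pow_add]
      have e6 : p ^ (s + u + k) = p ^ (s + u) * p ^ k := pow_add _ _ _
      rw [e5, e6, e1]
      rw [pow_succ p k]
      linear_combination hW - p ^ (s + u) * p ^ k * hy
  choose! nx hnx hnx1 hnx2 using hstep
  let σ : ℕ → V[X][X] × V[X][X] × V[X][X] := fun k => Nat.rec (0, 0, 0) (fun k q => nx k q) k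
  have hσ : ∀ k, St k (σ k) := by
    intro k
    induction k with
    | zero => exact h0
    | succ k ih => exact hnx k _ ih
  have hm : maximalIdeal V = Ideal.span {π} := hπ.maximalIdeal_eq
  obtain ⟨H, hH, hHk⟩ := lim2 hm (A := fun k => (σ k).1) (fun k => (hσ k).1) (fun k => by
    obtain ⟨Z, hZ⟩ := hnx1 k _ (hσ k)
    exact ⟨Z, by rw [hpp]; exact hZ⟩)
  obtain ⟨X, hX, hXk⟩ := lim2 hm (A := fun k => (σ k).2.1) (fun k => (hσ k).2.1) (fun k => by
    obtain ⟨Z, hZ⟩ := hnx2 k _ (hσ k)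
    exact ⟨Z, by rw [hpp]; exact hZ⟩)
  refine ⟨H, X, ?_, fun k => ?_⟩
  · rw [hTH, hg.deg] at hH
    refine wl_of_cin ?_ hH
    rw [hcd]
    have : l * b.natDegree = (l - 1) * b.natDegree + b.natDegree := by
      obtain ⟨m, rfl⟩ := Nat.exists_eq_succ_of_ne_zero hl0
      rw [Nat.succ_mul, Nat.succ_sub_one]
    omega
  · obtain ⟨-, -, W₁, W₂, hW⟩ := hσ k
    obtain ⟨Z₁, hZ₁⟩ := hHk k
    obtain ⟨Z₂, hZ₂⟩ := hXk k
    obtain ⟨Θ, hΘ⟩ := ga_expand (p := p) (b := C b) (f := C f) (E := E) hs hlp k (σ k).2.1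
      (σ k).2.2 Z₂ 0
    rw [mul_zero, add_zero, mul_zero, add_zero] at hΘ
    rw [hpp] at hZ₁ hZ₂
    rw [← hZ₂] at hΘ
    refine ⟨p ^ (s + u - 1) * (σ k).2.2, -(p ^ (s + u) * W₁),
      p ^ (s + u) * (-W₂ - Z₁ + C (C ε) * Z₂ * C b ^ (l - 1) * C f - p * Θ), ?_⟩
    have e5 : p ^ (s + u + k + 1) = p ^ (s + u) * p ^ k * p := by
      rw [pow_succ, pow_add]
    have e6 : p ^ (s + u + k) = p ^ (s + u) * p ^ k := pow_add _ _ _
    have e7 : p * (p ^ (s + u - 1) * (σ k).2.2) = p ^ (s + u) * (σ k).2.2 := by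
      rw [← mul_assoc, ← pow_succ']
      congr 2
      omega
    rw [hpp, hpp, hpp, ← hp, e7]
    have e8 : (C b - p ^ s * X) ^ l * (C f + p ^ (s + u) * E) *
        (1 + p ^ (s + u) * (σ k).2.2) = gaF p (C b) (C f) E l u s X (σ k).2.2 := rfl
    rw [e8, hΘ, e5, e6]
    rw [hZ₁]
    linear_combination (-1 : V[X][X]) * hW

end GM
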