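import Mathlib

/-! Squarefree polynomials over a factorial ring; the equation of a smooth hypersurface is squarefree. -/

namespace GM

section res

open Polynomial

/-- Proof: otherwise an irreducible polynomial `z` over the field of fractions divides `Q` and its derivative, so `z ^ 2` divides `Q` (the degree is small), and the
primitive part `P` of a multiple of `z` satisfies `P ^ 2 ∣ Q` (Gauss). So there are `A`, `B` over the field of fractions with
`A Q + B Q' = 1`; clear the denominators. -/
theorem exists_rsl {R : Type} [CommRing R] [IsDomain R] [UniqueFactorizationMonoid R]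
    {Q : Polynomial R} (h0 : Q ≠ 0) (hc : ∀ i : ℕ, i ≠ 0 → i ≤ Q.natDegree → (i : R) ≠ 0)
    (hsq : ∀ P : Polynomial R, P ^ 2 ∣ Q → P.natDegree = 0) :
    ∃ (A B : Polynomial R) (r : R), r ≠ 0 ∧ A * Q + B * derivative Q = C r := by
  classical
  obtain ⟨K, hK⟩ : ∃ K, K = FractionRing R := ⟨_, rfl⟩
  have inst : NormalizedGCDMonoid R := Classical.choice inferInstance
  obtain ⟨φ, hφ⟩ : ∃ φ : R →+* FractionRing R, φ = algebraMap R (FractionRing R) := ⟨_, rfl⟩
  have hinj : Function.Injective φ := by
    rw [hφ]
    exact IsFractionRing.injective R (FractionRing R)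
  have hQ : Q.map φ ≠ 0 := (Polynomial.map_ne_zero_iff hinj).2 h0
  have hcop : IsCoprime (Q.map φ) (derivative (Q.map φ)) := by
    refine isCoprime_of_irreducible_dvd (fun h => hQ h.1) fun z hz h1 h2 => ?_
    have hz0 : z ≠ 0 := hz.ne_zero
    have hdeg : 0 < z.natDegree := hz.natDegree_pos
    obtain ⟨S, hS⟩ := h1
    have h3 : z.natDegree ≤ Q.natDegree := by
      have h4 := natDegree_le_of_dvd ⟨S, hS⟩ hQ
      rwa [natDegree_map_eq_of_injective hinj] at h4
    have h4 : z ∣ derivative z * S := by
      rw [hS, derivative_mul] at h2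
      exact (dvd_add_left (dvd_mul_right z (derivative S))).1 h2
    have h5 : ¬ z ∣ derivative z := by
      intro h6
      have h7 : derivative z ≠ 0 := by
        intro h8
        have h9 := congrArg (fun q => coeff q (z.natDegree - 1)) h8
        simp only [coeff_derivative, coeff_zero] at h9
        rw [Nat.sub_add_cancel hdeg, coeff_natDegree] at h9
        rcases mul_eq_zero.1 h9 with h10 | h10
        · exact hz0 (leadingCoeff_eq_zero.1 h10)
        · have h11 : ((z.natDegree : ℕ) : FractionRing R) = 0 := by
            rw [← h10]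
            have : z.natDegree = (z.natDegree - 1) + 1 := (Nat.sub_add_cancel hdeg).symm
            rw [this]
            push_cast
            simp
          refine hc z.natDegree hdeg.ne' h3 (hinj ?_)
          rw [map_natCast, map_zero]
          exact h11
      have h8 := natDegree_le_of_dvd h6 h7
      have h9 := natDegree_derivative_lt hdeg.ne'
      omega
    obtain ⟨S', hS'⟩ := (hz.prime.dvd_or_dvd h4).resolve_left h5
    have h6 : z ^ 2 ∣ Q.map φ := ⟨S', by rw [hS, hS', pow_two, mul_assoc]⟩
    obtain ⟨b, hbM, hb⟩ := IsLocalization.integerNormalization_spec (nonZeroDivisors R) z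
    obtain ⟨z₁, hz₁⟩ : ∃ z₁, z₁ = IsLocalization.integerNormalization (nonZeroDivisors R) z :=
      ⟨_, rfl⟩
    rw [← hz₁, ← hφ] at hb
    have hb0 : b ≠ 0 := nonZeroDivisors.ne_zero hbM
    have hz₁0 : z₁ ≠ 0 := by
      intro h7
      rw [h7, Polynomial.map_zero] at hb
      have h8 : C (φ b) * z = 0 := by
        rw [hb, Algebra.smul_def, hφ]
        rfl
      rcases mul_eq_zero.1 h8 with h9 | h9
      · rw [C_eq_zero] at h9
        exact hb0 (hinj (by rw [h9, map_zero]))
      · exact hz0 h9
    have hc0 : z₁.content ≠ 0 := by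
      rwa [Ne, content_eq_zero_iff]
    have h7 : C (φ b) * z = C (φ z₁.content) * z₁.primPart.map φ := by
      have h8 := congrArg (Polynomial.map φ) z₁.eq_C_content_mul_primPart
      rw [Polynomial.map_mul, map_C] at h8
      rw [← h8, hb, Algebra.smul_def, hφ]
      rfl
    have h8 : z₁.primPart.map φ ∣ z := by
      have h9 : IsUnit (C (φ b) : Polynomial (FractionRing R)) := by
        rw [isUnit_C, isUnit_iff_ne_zero]
        intro h10
        exact hb0 (hinj (by rw [h10, map_zero]))
      refine (h9.dvd_mul_left).1 ?_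
      rw [h7]
      exact dvd_mul_left _ _
    have h9 : (z₁.primPart ^ 2).map φ ∣ Q.map φ := by
      rw [Polynomial.map_pow]
      exact (pow_dvd_pow_of_dvd h8 2).trans h6
    have h10 : (z₁.primPart ^ 2).IsPrimitive := by
      rw [pow_two]
      exact z₁.isPrimitive_primPart.mul z₁.isPrimitive_primPart
    have h11 : z₁.primPart ^ 2 ∣ Q := by
      rw [hφ] at h9
      exact h10.dvd_of_fraction_map_dvd_fraction_map h9
    have h12 := hsq _ h11
    have h13 : z₁.natDegree = z.natDegree := by
      have h14 := congrArg natDegree hb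
      rw [natDegree_map_eq_of_injective hinj] at h14
      rw [h14]
      have h15 : (b • z : Polynomial (FractionRing R)) = C (φ b) * z := by
        rw [Algebra.smul_def, hφ]
        rfl
      rw [h15, natDegree_C_mul]
      intro h16
      exact hb0 (hinj (by rw [h16, map_zero]))
    rw [natDegree_primPart, h13] at h12
    omega
  obtain ⟨a, b, hab⟩ := hcop
  obtain ⟨s, hsM, hs⟩ := IsLocalization.integerNormalization_spec (nonZeroDivisors R) a
  obtain ⟨t, htM, ht⟩ := IsLocalization.integerNormalization_spec (nonZeroDivisors R) b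
  have hs' : (IsLocalization.integerNormalization (nonZeroDivisors R) a).map φ = C (φ s) * a := by
    rw [hφ, hs, Algebra.smul_def]
    rfl
  have ht' : (IsLocalization.integerNormalization (nonZeroDivisors R) b).map φ = C (φ t) * b := by
    rw [hφ, ht, Algebra.smul_def]
    rfl
  refine ⟨C t * IsLocalization.integerNormalization (nonZeroDivisors R) a,
    C s * IsLocalization.integerNormalization (nonZeroDivisors R) b, s * t,
    mul_ne_zero (nonZeroDivisors.ne_zero hsM) (nonZeroDivisors.ne_zero htM), ?_⟩
  apply Polynomial.map_injective φ hinj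
  rw [Polynomial.map_add, Polynomial.map_mul, Polynomial.map_mul, Polynomial.map_mul,
    Polynomial.map_mul, hs', ht', map_C, map_C, map_C, ← derivative_map]
  have h1 : C (φ t) * (C (φ s) * a) * Q.map φ + C (φ s) * (C (φ t) * b) * derivative (Q.map φ) =
      C (φ s) * C (φ t) * (a * Q.map φ + b * derivative (Q.map φ)) := by ring
  rw [h1, hab, mul_one, map_mul, C_mul]

end res

section sq

open MvPolynomial

/-- Proof: `A` divides all partial derivatives, so `A ∣ X i ^ s` for all `i`; `X 0`, `X 1` are different primes. -/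
theorem sq_of_smooth {κ : Type} [Field κ] {N s : ℕ} (hN : 2 ≤ N) {G : MvPolynomial (Fin N) κ}
    (hs : ∀ i, (X i : MvPolynomial (Fin N) κ) ^ s ∈
      Ideal.span (Set.range fun j => pderiv j G))
    {A : MvPolynomial (Fin N) κ} (hA : A ^ 2 ∣ G) : IsUnit A := by
  obtain ⟨B, rfl⟩ := hA
  have h1 : ∀ j, A ∣ pderiv j (A ^ 2 * B) := by
    intro j
    refine ⟨A * pderiv j B + 2 * B * pderiv j A, ?_⟩
    rw [Derivation.leibniz, Derivation.leibniz_pow]
    simp only [smul_eq_mul, nsmul_eq_mul]
    push_cast
    ring
  have h2 : ∀ i, A ∣ (X i : MvPolynomial (Fin N) κ) ^ s := by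
    intro i
    have h3 : Ideal.span (Set.range fun j => pderiv j (A ^ 2 * B)) ≤ Ideal.span {A} := by
      rw [Ideal.span_le]
      rintro _ ⟨j, rfl⟩
      exact Ideal.mem_span_singleton.2 (h1 j)
    exact Ideal.mem_span_singleton.1 (h3 (hs i))
  have hp : ∀ i : Fin N, Prime (X i : MvPolynomial (Fin N) κ) := fun i => X_prime
  obtain ⟨i, -, hi⟩ := (dvd_prime_pow (hp ⟨0, by omega⟩) s).1 (h2 ⟨0, by omega⟩)
  rcases Nat.eq_zero_or_pos i with h0 | h0
  · rw [h0, pow_zero] at hi
    exact associated_one_iff_isUnit.1 hi
  · exfalso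
    have h3 : (X ⟨0, by omega⟩ : MvPolynomial (Fin N) κ) ∣ X ⟨1, by omega⟩ ^ s :=
      (dvd_pow_self _ h0.ne').trans ((hi.symm.dvd).trans (h2 ⟨1, by omega⟩))
    have h4 := (hp ⟨0, by omega⟩).dvd_of_dvd_pow h3
    rw [X_dvd_X] at h4
    have h5 := congrArg Fin.val h4
    simp at h5

end sq

end GM
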