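import Pool.Agent.Lib.MP_f80667_ag.Gm.GsD
import Pool.Agent.Lib.MP_f80667_ag.Gm.GdA

/-! Good directions at a point of a smooth hypersurface. -/

open MvPolynomial

namespace GM

variable {κ : Type} [Field κ] {N n : ℕ} {G : MvPolynomial (Fin N) κ}

/-- `G (v + t y)` as a polynomial in `t` with coefficients in `κ[v]`. -/
noncomputable def tq (G : MvPolynomial (Fin N) κ) (y : Fin N → κ) :
    Polynomial (MvPolynomial (Fin N) κ) :=
  aeval (fun i => Polynomial.C (X i) + Polynomial.C (C (y i)) * Polynomial.X) G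

theorem tq_map (G : MvPolynomial (Fin N) κ) (y v : Fin N → κ) :
    (tq G y).map (eval v) = gl G y v := by
  have h : (Polynomial.mapRingHom (eval v)).comp
      (aeval (fun i => Polynomial.C (X i) + Polynomial.C (C (y i)) * Polynomial.X) :
        MvPolynomial (Fin N) κ →ₐ[κ] Polynomial (MvPolynomial (Fin N) κ)).toRingHom =
      (aeval (fun i => Polynomial.C (v i) + Polynomial.C (y i) * Polynomial.X) :
        MvPolynomial (Fin N) κ →ₐ[κ] Polynomial κ).toRingHom := by
    apply MvPolynomial.ringHom_ext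
    · intro r
      simp [Polynomial.algebraMap_apply, MvPolynomial.algebraMap_eq]
    · intro i
      simp
  exact DFunLike.congr_fun h G

/-- The automorphism `v ↦ v + t y` of `κ[v][t]`. -/
noncomputable def tqa (y : Fin N → κ) :
    Polynomial (MvPolynomial (Fin N) κ) →+* Polynomial (MvPolynomial (Fin N) κ) :=
  Polynomial.eval₂RingHom
    (aeval (fun i => Polynomial.C (X i) + Polynomial.C (C (y i)) * Polynomial.X) :
      MvPolynomial (Fin N) κ →ₐ[κ] Polynomial (MvPolynomial (Fin N) κ)).toRingHom Polynomial.X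

theorem tqa_C (y : Fin N → κ) (P : MvPolynomial (Fin N) κ) :
    tqa y (Polynomial.C P) = tq P y := by
  unfold tqa tq
  simp

theorem tqa_tqa (y : Fin N → κ) (P : Polynomial (MvPolynomial (Fin N) κ)) :
    tqa (-y) (tqa y P) = P := by
  have h : (tqa (-y)).comp (tqa y) = RingHom.id (Polynomial (MvPolynomial (Fin N) κ)) := by
    apply Polynomial.ringHom_ext'
    · apply MvPolynomial.ringHom_ext
      · intro r
        simp [tqa, Polynomial.algebraMap_apply, MvPolynomial.algebraMap_eq]
      · intro i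
        simp [tqa]
        ring
    · simp [tqa]
  exact DFunLike.congr_fun h P

/-- Proof: the automorphism `v ↦ v + t y` of `κ[v][t]` maps `C G` to `tq G y`, and `C G` is squarefree in the required sense. -/
theorem tq_sq (hG : G ≠ 0) (h : ∀ A : MvPolynomial (Fin N) κ, A ^ 2 ∣ G → IsUnit A)
    (y : Fin N → κ) {P : Polynomial (MvPolynomial (Fin N) κ)} (hP : P ^ 2 ∣ tq G y) :
    P.natDegree = 0 := by
  have h1 : (tqa (-y) P) ^ 2 ∣ Polynomial.C G := by
    have h2 := map_dvd (tqa (-y)) hP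
    rwa [map_pow, ← tqa_C, tqa_tqa] at h2
  have hC : (Polynomial.C G : Polynomial (MvPolynomial (Fin N) κ)) ≠ 0 :=
    Polynomial.C_ne_zero.2 hG
  have h2 : (tqa (-y) P).natDegree = 0 := by
    have h3 : tqa (-y) P ∣ Polynomial.C G := (dvd_pow_self _ two_ne_zero).trans h1
    have h4 := Polynomial.natDegree_le_of_dvd h3 hC
    rw [Polynomial.natDegree_C] at h4
    omega
  obtain ⟨a, ha⟩ := Polynomial.natDegree_eq_zero.1 h2
  have h3 : a ^ 2 ∣ G := by
    rw [← ha, ← Polynomial.C_pow] at h1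
    exact Polynomial.C_dvd_iff_dvd_coeff _ _ |>.1 h1 0 |>.trans (by rw [Polynomial.coeff_C_zero])
  have h4 : IsUnit (tqa (-y) P) := by
    rw [← ha]
    exact Polynomial.isUnit_C.2 (h a h3)
  have h5 : IsUnit P := by
    have h6 := h4.map (tqa y)
    have h7 := tqa_tqa (-y) P
    rw [neg_neg] at h7
    rwa [h7] at h6
  exact Polynomial.natDegree_eq_zero_of_isUnit h5

/-- Proof: `G` has degree `n`. -/
theorem tq_deg (hG : G.IsHomogeneous n) (y : Fin N → κ) : (tq G y).natDegree ≤ n := by
  unfold tq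
  rw [aeval_def, eval₂_eq']
  refine Polynomial.natDegree_sum_le_of_forall_le _ _ fun d hd => ?_
  have h1 : ∑ i, d i = n := by
    have h2 : d.degree = n := by
      rw [← hG (mem_support_iff.1 hd), Finsupp.degree_eq_weight_one]
      rfl
    rw [← h2]
    exact (Finsupp.degree_eq_sum d).symm
  refine Polynomial.natDegree_mul_le.trans ?_
  have h3 : (algebraMap κ (Polynomial (MvPolynomial (Fin N) κ)) (coeff d G)).natDegree = 0 := by
    rw [Polynomial.algebraMap_apply]
    exact Polynomial.natDegree_C _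
  rw [h3, zero_add, ← h1]
  refine (Polynomial.natDegree_prod_le _ _).trans (Finset.sum_le_sum fun i _ => ?_)
  refine Polynomial.natDegree_pow_le.trans ?_
  have h4 : (Polynomial.C (X i) + Polynomial.C (C (y i)) * Polynomial.X :
      Polynomial (MvPolynomial (Fin N) κ)).natDegree ≤ 1 := by
    rw [add_comm]
    exact Polynomial.natDegree_linear_le
  calc d i * _ ≤ d i * 1 := Nat.mul_le_mul_left _ h4
    _ = d i := mul_one _

private theorem gdB_smul {k : Type} [Field k] {n : ℕ} {F : MvPolynomial (Fin N) k}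
    (hF : F.IsHomogeneous n) (t : k) (y : Fin N → k) : eval (t • y) F = t ^ n * eval y F := by
  rw [eval_eq', eval_eq', Finset.mul_sum]
  refine Finset.sum_congr rfl fun d hd => ?_
  have h1 : d.degree = n := by
    rw [← hF (mem_support_iff.1 hd), Finsupp.degree_eq_weight_one]
    rfl
  have h2 : ∑ i, d i = n := by
    rw [← h1, Finsupp.degree_eq_sum]
  have h3 : ∏ i, (t • y) i ^ d i = t ^ n * ∏ i, y i ^ d i := by
    simp only [Pi.smul_apply, smul_eq_mul, mul_pow]
    rw [Finset.prod_mul_distrib, Finset.prod_pow_eq_pow_sum, h2]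
  rw [h3]
  ring

/-- Exchange of the two points of a line. Proof: over the algebraic closure let `a` be a double root of `G (y + Y v)`. `a ≠ 0` because of `dG (y, v) ≠ 0`. For `z = y + a v` Euler gives `dG (z, y) = 0`, so
`a⁻¹` is a double root of `G (v + t y)`. -/
theorem gl_swap (hn : 2 ≤ n) (hG : G.IsHomogeneous n) {y v : Fin N → κ} (hy : dG G y v ≠ 0)
    (h : (gl G y v).Separable) : (gl G v y).Separable := by
  obtain ⟨K, hK⟩ : ∃ K, K = AlgebraicClosure κ := ⟨_, rfl⟩
  obtain ⟨φ, hφ⟩ : ∃ φ : κ →+* AlgebraicClosure κ, φ = algebraMap κ (AlgebraicClosure κ) :=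
    ⟨_, rfl⟩
  obtain ⟨m, rfl⟩ : ∃ m, n = m + 1 := ⟨n - 1, by omega⟩
  have hmap : ∀ u w : Fin N → κ,
      (gl G u w).map φ = gl (G.map φ) (fun i => φ (u i)) (fun i => φ (w i)) := by
    intro u w
    have h1 : (Polynomial.mapRingHom φ).comp
        (aeval (fun i => Polynomial.C (w i) + Polynomial.C (u i) * Polynomial.X) :
          MvPolynomial (Fin N) κ →ₐ[κ] Polynomial κ).toRingHom =
        (aeval (fun i => Polynomial.C (φ (w i)) + Polynomial.C (φ (u i)) * Polynomial.X) :
          MvPolynomial (Fin N) (AlgebraicClosure κ) →ₐ[AlgebraicClosure κ]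
            Polynomial (AlgebraicClosure κ)).toRingHom.comp (MvPolynomial.map φ) := by
      apply MvPolynomial.ringHom_ext
      · intro r
        simp
      · intro i
        simp
    exact DFunLike.congr_fun h1 G
  have hG' : (G.map φ).IsHomogeneous (m + 1) := hG.map φ
  have hdG : dG (G.map φ) (fun i => φ (y i)) (fun i => φ (v i)) = φ (dG G y v) := by
    unfold dG
    rw [map_sum]
    refine Finset.sum_congr rfl fun i _ => ?_
    rw [map_mul, pderiv_map, eval_map, MvPolynomial.eval₂_comp]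
    rfl
  unfold Polynomial.Separable
  rw [Polynomial.isCoprime_iff_aeval_ne_zero_of_isAlgClosed κ (AlgebraicClosure κ)]
  intro a
  by_contra hcon
  rw [not_or, not_not, not_not] at hcon
  obtain ⟨e1, e2⟩ := hcon
  have e1' : eval ((fun i => φ (y i)) + a • (fun i => φ (v i))) (G.map φ) = 0 := by
    rw [← gl_eval, ← hmap, Polynomial.eval_map, ← e1, hφ]
    rfl
  have e2' : dG (G.map φ) ((fun i => φ (y i)) + a • (fun i => φ (v i))) (fun i => φ (v i)) = 0 := by
    rw [← gl_der, ← hmap, Polynomial.derivative_map, Polynomial.eval_map, ← e2, hφ]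
    rfl
  have ha : a ≠ 0 := by
    intro h0
    rw [h0, zero_smul, add_zero, hdG] at e2'
    exact hy ((map_eq_zero φ).1 e2')
  obtain ⟨z, hz⟩ : ∃ z, z = (fun i => φ (y i)) + a • (fun i => φ (v i)) := ⟨_, rfl⟩
  rw [← hz] at e1' e2'
  have e3 : dG (G.map φ) z (fun i => φ (y i)) = 0 := by
    have h1 : (fun i => φ (y i)) = z + (-a) • (fun i => φ (v i)) := by
      rw [hz, neg_smul, add_neg_cancel_right]
    rw [h1, dG_add, dG_smul, e2', dG_self hG', e1', mul_zero, mul_zero, add_zero]
  have h2 : (fun i => φ (v i)) + a⁻¹ • (fun i => φ (y i)) = a⁻¹ • z := by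
    rw [hz, smul_add, smul_smul, inv_mul_cancel₀ ha, one_smul, add_comm]
  obtain ⟨c, d, hcd⟩ := h
  have h3 := congrArg (fun P => (Polynomial.map φ P).eval a⁻¹) hcd
  simp only [Polynomial.map_add, Polynomial.map_mul, Polynomial.eval_add, Polynomial.eval_mul,
    Polynomial.map_one, Polynomial.eval_one] at h3
  have h4 : ((gl G y v).map φ).eval a⁻¹ = 0 := by
    rw [hmap, gl_eval, h2]
    have h5 : eval (a⁻¹ • z) (G.map φ) = a⁻¹ ^ (m + 1) * eval z (G.map φ) := by
      exact gdB_smul hG' _ _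
    rw [h5, e1', mul_zero]
  have h5 : ((Polynomial.derivative (gl G y v)).map φ).eval a⁻¹ = 0 := by
    rw [← Polynomial.derivative_map, hmap, gl_der, h2, dG_hom hG', e3, mul_zero]
  rw [h4, h5, mul_zero, mul_zero, add_zero] at h3
  exact zero_ne_one h3

/-- **DIR.** Proof: `D = G · dG(y, v) · r` with `r` of `exists_rsl` for `tq G y`; `gl_swap`. `2 ≤ N`: if `N = 1` then `y 0 * ∂G (y) = n G(y) = 0`, so `y 0 ^ s = 0`. -/
theorem dir_pol (hn : 2 ≤ n) (hG : G.IsHomogeneous n) (hc : ∀ i : ℕ, i ≠ 0 → i ≤ n → (i : κ) ≠ 0)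
    (hs : ∃ s : ℕ, ∀ i, (X i : MvPolynomial (Fin N) κ) ^ s ∈
      Ideal.span (Set.range fun j => pderiv j G))
    {y : Fin N → κ} (hy : y ≠ 0) (hGy : eval y G = 0) :
    ∃ D : MvPolynomial (Fin N) κ, D ≠ 0 ∧ ∀ v, eval v D ≠ 0 → eval v G ≠ 0 ∧
      (gl G v y).Separable := by
  obtain ⟨s, hs⟩ := hs
  -- some partial derivative does not vanish at `y`
  have hpd : ∃ j, eval y (pderiv j G) ≠ 0 := by
    by_contra hcon
    push Not at hcon
    apply hy
    funext i
    have h1 : Ideal.span (Set.range fun j => pderiv j G) ≤ RingHom.ker (eval y) := by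
      rw [Ideal.span_le]
      rintro _ ⟨j, rfl⟩
      exact hcon j
    have h2 : eval y ((X i : MvPolynomial (Fin N) κ) ^ s) = 0 := h1 (hs i)
    rw [map_pow, eval_X] at h2
    exact eq_zero_of_pow_eq_zero h2
  have hN : 2 ≤ N := by
    by_contra hN
    obtain ⟨j, hj⟩ := hpd
    have h1 : ∀ i : Fin N, i = j := fun i => Fin.ext (by omega)
    have h2 := dG_self hG y
    rw [hGy, mul_zero] at h2
    unfold dG at h2
    rw [Finset.sum_eq_single j (fun i _ hi => absurd (h1 i) hi)
      (fun h => absurd (Finset.mem_univ _) h)] at h2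
    have h3 : y j = 0 := (mul_eq_zero.1 h2).resolve_left hj
    apply hy
    funext i
    rw [h1 i, h3]
    rfl
  have hG0 : G ≠ 0 := by
    rintro rfl
    obtain ⟨j, hj⟩ := hpd
    rw [map_zero, map_zero] at hj
    exact hj rfl
  have hsq : ∀ A : MvPolynomial (Fin N) κ, A ^ 2 ∣ G → IsUnit A := fun A hA =>
    sq_of_smooth hN hs hA
  have htq : tq G y ≠ 0 := by
    intro h0
    rw [← tqa_C] at h0
    have h1 := congrArg (tqa (-y)) h0
    rw [tqa_tqa, map_zero, Polynomial.C_eq_zero] at h1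
    exact hG0 h1
  obtain ⟨A, B, r, hr, hAB⟩ := exists_rsl htq (fun i hi hi' => by
    have h1 := hc i hi (hi'.trans (tq_deg hG y))
    rw [← C_eq_coe_nat]
    exact C_ne_zero.2 h1) (fun P hP => tq_sq hG0 hsq y hP)
  obtain ⟨ℓ, hℓ⟩ : ∃ ℓ : MvPolynomial (Fin N) κ, ℓ = ∑ j, C (eval y (pderiv j G)) * X j := ⟨_, rfl⟩
  have hℓv : ∀ v, eval v ℓ = dG G y v := by
    intro v
    rw [hℓ, map_sum]
    unfold dG
    refine Finset.sum_congr rfl fun j _ => ?_
    rw [map_mul, eval_C, eval_X]
  have hℓ0 : ℓ ≠ 0 := by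
    intro h0
    obtain ⟨j, hj⟩ := hpd
    apply hj
    have h1 := hℓv (Pi.single j 1)
    rw [h0, map_zero] at h1
    unfold dG at h1
    rw [Finset.sum_eq_single j] at h1
    · rw [Pi.single_eq_same, mul_one] at h1
      exact h1.symm
    · intro i _ hi
      rw [Pi.single_eq_of_ne hi, mul_zero]
    · intro h
      exact absurd (Finset.mem_univ _) h
  refine ⟨G * ℓ * r, mul_ne_zero (mul_ne_zero hG0 hℓ0) hr, fun v hv => ?_⟩
  rw [map_mul, map_mul] at hv
  have hv1 := left_ne_zero_of_mul (left_ne_zero_of_mul hv)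
  have hv2 := right_ne_zero_of_mul (left_ne_zero_of_mul hv)
  have hv3 := right_ne_zero_of_mul hv
  rw [hℓv] at hv2
  refine ⟨hv1, gl_swap hn hG hv2 ?_⟩
  have h1 := congrArg (Polynomial.map (eval v)) hAB
  rw [Polynomial.map_add, Polynomial.map_mul, Polynomial.map_mul, ← Polynomial.derivative_map,
    tq_map, Polynomial.map_C] at h1
  refine ⟨Polynomial.C (eval v r)⁻¹ * A.map (eval v), Polynomial.C (eval v r)⁻¹ * B.map (eval v), ?_⟩
  have h2 : Polynomial.C (eval v r)⁻¹ * A.map (eval v) * gl G y v +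
      Polynomial.C (eval v r)⁻¹ * B.map (eval v) * Polynomial.derivative (gl G y v) =
      Polynomial.C (eval v r)⁻¹ * (A.map (eval v) * gl G y v +
        B.map (eval v) * Polynomial.derivative (gl G y v)) := by ring
  rw [h2, h1, ← Polynomial.C_mul, inv_mul_cancel₀ hv3, Polynomial.C_1]

end GM
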