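import Pool.Agent.Lib.MP_f80667_ag.Gm.GsBt

/-! Hensel lemma for points over an unramified extension (uniformizer `p`). -/

open ZC BE PE CV IntermediateField

namespace GM

variable {F : Type} [Field F] {N n : ℕ} {G : MvPolynomial (Fin N) F} {K Ω : Type} [Field K]
  [CharZero K] [Field Ω] [Algebra K Ω] [Algebra F K] [Algebra F Ω] [IsScalarTower F K Ω]
  [IsAlgClosure K Ω] {L : Ld K Ω} {k : Subfield L.κ} {g : MvPolynomial (Fin N) k}

omit [CharZero K] [IsAlgClosure K Ω] [Algebra F K] [IsScalarTower F K Ω] in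
private theorem gh_sum_lt (L : Ld K Ω) {ι : Type} (s : Finset ι) (f : ι → Ω)
    (h : ∀ i ∈ s, L.nm (f i) < 1) : L.nm (∑ i ∈ s, f i) < 1 := by
  classical
  induction s using Finset.induction_on with
  | empty =>
    rw [Finset.sum_empty, L.zero]
    exact one_pos
  | insert a s ha ih =>
    rw [Finset.sum_insert ha]
    exact (L.add _ _).trans_lt (max_lt (h a (Finset.mem_insert_self a s))
      (ih fun i hi => h i (Finset.mem_insert_of_mem hi)))

omit [CharZero K] [IsAlgClosure K Ω] [Algebra F K] [IsScalarTower F K Ω] in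
private theorem gh_int (L : Ld K Ω) {f : MvPolynomial (Fin N) F}
    (hf : ∀ d, L.nm (algebraMap F Ω (f.coeff d)) ≤ 1) {x : Fin N → Ω}
    (hx : ∀ i, L.nm (x i) ≤ 1) : L.nm (MvPolynomial.aeval x f) ≤ 1 := by
  rw [MvPolynomial.aeval_def, MvPolynomial.eval₂_eq']
  refine L.sum_le _ _ zero_le_one fun d _ => ?_
  rw [L.mul]
  refine mul_le_one₀ (hf d) (L.nonneg _) ?_
  have h1 : (∏ i, x i ^ d i) ∈ L.V := prod_mem fun i _ => pow_mem (hx i : x i ∈ L.V) _
  exact h1

omit [CharZero K] [IsAlgClosure K Ω] [Algebra F K] [IsScalarTower F K Ω] in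
private theorem gh_pd (hG : Gi G L n) (j : Fin N) {x : Fin N → Ω} (hx : ∀ i, L.nm (x i) ≤ 1) :
    L.nm (MvPolynomial.aeval x (MvPolynomial.pderiv j G)) ≤ 1 := by
  refine gh_int L (fun d => ?_) hx
  have h1 : algebraMap F Ω ((d j : F) + 1) = ((d j + 1 : ℕ) : Ω) := by
    rw [map_add, map_natCast, map_one, Nat.cast_succ]
  rw [MvPolynomial.coeff_pderiv, map_mul, h1, L.mul]
  exact mul_le_one₀ (hG.int _) (L.nonneg _) (L.nat_le _)

omit [CharZero K] [IsAlgClosure K Ω] [Algebra K Ω] [Algebra F K] [IsScalarTower F K Ω] in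
private theorem gh_dGo (x : Fin N → Ω) (i : Fin N) :
    dGo G x (Pi.single i 1) = MvPolynomial.aeval x (MvPolynomial.pderiv i G) := by
  unfold dGo
  rw [Finset.sum_eq_single i]
  · rw [Pi.single_eq_same, mul_one]
  · intro j _ hj
    rw [Pi.single_eq_of_ne hj, mul_zero]
  · intro h
    exact absurd (Finset.mem_univ i) h

/-- **Hensel's lemma.** `G (x) = 0` modulo `p ^ r`, one partial derivative is a unit: there is a point congruent to `x` modulo `p ^ r`. Proof: the polynomial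
`G (x + Y e_i)` over the integers of `M` (complete: `acOM`), `Cv/Newton` with one variable, or iterate with `L.cpl`. -/
theorem lift_h [L.Unr] (hG : Gi G L n) {M : IntermediateField K Ω} (hM : Um L M)
    {x : Fin N → Ω} (hx : Iv L M x) {r : ℕ} (hr : r ≠ 0)
    (h : L.nm (MvPolynomial.aeval x G) ≤ L.nm (L.p : Ω) ^ r) {i : Fin N}
    (hi : L.nm (MvPolynomial.aeval x (MvPolynomial.pderiv i G)) = 1) :
    ∃ x', Iv L M x' ∧ MvPolynomial.aeval x' G = 0 ∧
      ∀ i, L.nm (x' i - x i) ≤ L.nm (L.p : Ω) ^ r := by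
  classical
  obtain ⟨c, hc⟩ : ∃ c, c = L.nm (L.p : Ω) := ⟨_, rfl⟩
  have hc0 : 0 ≤ c := by
    rw [hc]
    exact L.nonneg _
  have hc1 : c < 1 := by
    rw [hc]
    exact L.lt
  rw [← hc] at h ⊢
  have hcr : c ^ r < 1 := pow_lt_one₀ hc0 hc1 hr
  obtain ⟨e, he⟩ : ∃ e : Fin N → Ω, e = Pi.single i 1 := ⟨_, rfl⟩
  have he1 : Iv L M e := by
    intro j
    rw [he]
    by_cases hj : j = i
    · rw [hj, Pi.single_eq_same, L.one]
      exact ⟨one_mem _, le_rfl⟩
    · rw [Pi.single_eq_of_ne hj, L.zero]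
      exact ⟨zero_mem _, zero_le_one⟩
  have hfd := hM.fd
  obtain ⟨a, ha⟩ : ∃ a : Ω → Fin N → Ω, a = fun z j => x j + z * e j := ⟨_, rfl⟩
  obtain ⟨φ, hφ⟩ : ∃ φ : Ω → Ω, φ = fun z => MvPolynomial.aeval (a z) G := ⟨_, rfl⟩
  obtain ⟨ψ, hψ⟩ : ∃ ψ : Ω → Ω, ψ = fun z => dGo G (a z) e := ⟨_, rfl⟩
  have haz : ∀ z ∈ M, L.nm z ≤ 1 → Iv L M (a z) := by
    intro z hz hz1 j
    rw [ha]
    refine ⟨add_mem (hx j).1 (mul_mem hz (he1 j).1), ?_⟩
    refine (L.add _ _).trans (max_le (hx j).2 ?_)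
    rw [L.mul]
    exact mul_le_one₀ hz1 (L.nonneg _) (he1 j).2
  have hdist : ∀ z z' : Ω, ∀ j, L.nm (a z j - a z' j) ≤ L.nm (z - z') := by
    intro z z' j
    rw [ha]
    have h1 : x j + z * e j - (x j + z' * e j) = (z - z') * e j := by ring
    change L.nm (x j + z * e j - (x j + z' * e j)) ≤ _
    rw [h1, L.mul]
    exact mul_le_of_le_one_right (L.nonneg _) (he1 j).2
  have ha0 : a 0 = x := by
    funext j
    rw [ha]
    change x j + 0 * e j = x j
    rw [zero_mul, add_zero]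
  have hψ1 : ∀ z ∈ M, L.nm z ≤ c ^ r → L.nm (ψ z) = 1 := by
    intro z hz hz1
    have hz2 : L.nm z ≤ 1 := hz1.trans hcr.le
    have h1 : L.nm (ψ 0) = 1 := by
      rw [hψ]
      change L.nm (dGo G (a 0) e) = 1
      rw [ha0, he, gh_dGo]
      exact hi
    have h2 : L.nm (ψ z - ψ 0) ≤ c ^ r := by
      rw [hψ]
      refine gi_cong' hG (fun j => (haz z hz hz2 j).2) (fun j => ?_) (fun j => (he1 j).2)
        (pow_nonneg hc0 r) fun j => (hdist z 0 j).trans ?_
      · rw [ha0]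
        exact (hx j).2
      · rw [sub_zero]
        exact hz1
    rw [L.eq_of_close (y := ψ 0) (by rw [h1]; exact h2.trans_lt hcr), h1]
  have hφ0 : φ 0 = MvPolynomial.aeval x G := by
    rw [hφ]
    change MvPolynomial.aeval (a 0) G = _
    rw [ha0]
  -- the iteration
  obtain ⟨z, hz0, hzs⟩ : ∃ z : ℕ → Ω, z 0 = 0 ∧ ∀ m, z (m + 1) = z m - φ (z m) / ψ (z m) :=
    ⟨fun m => (fun w => w - φ w / ψ w)^[m] 0, rfl, fun m =>
      Function.iterate_succ_apply' (fun w => w - φ w / ψ w) m 0⟩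
  have key : ∀ m, z m ∈ M ∧ L.nm (z m) ≤ c ^ r ∧ L.nm (φ (z m)) ≤ c ^ (r + m) := by
    intro m
    induction m with
    | zero =>
      rw [hz0, hφ0, L.zero, add_zero]
      exact ⟨zero_mem _, pow_nonneg hc0 r, h⟩
    | succ m ih =>
      obtain ⟨h1, h2, h3⟩ := ih
      have h2' : L.nm (z m) ≤ 1 := h2.trans hcr.le
      have hIv := haz _ h1 h2'
      have hp1 := hψ1 _ h1 h2
      have hp0 : ψ (z m) ≠ 0 := L.ne_zero (by rw [hp1]; exact one_pos)
      have hφM : φ (z m) ∈ M := by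
        rw [hφ]
        exact gi_mem fun j => (hIv j).1
      have hψM : ψ (z m) ∈ M := by
        rw [hψ]
        exact (gi_dG hG hIv he1).1
      obtain ⟨t, ht⟩ : ∃ t, t = -(φ (z m) / ψ (z m)) := ⟨_, rfl⟩
      have htn : L.nm t = L.nm (φ (z m)) := by
        rw [ht, L.neg, L.div, hp1, div_one]
      have hzt : z (m + 1) = z m + t := by
        rw [hzs, ht, sub_eq_add_neg]
      have hcm : c ^ (r + m) ≤ c ^ r := pow_le_pow_of_le_one hc0 hc1.le (Nat.le_add_right r m)
      have ht1 : L.nm t ≤ c ^ (r + m) := by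
        rw [htn]
        exact h3
      have ht2 : L.nm t ≤ 1 := (ht1.trans hcm).trans hcr.le
      refine ⟨?_, ?_, ?_⟩
      · rw [hzs]
        exact sub_mem h1 (div_mem hφM hψM)
      · rw [hzt]
        exact (L.add _ _).trans (max_le h2 (ht1.trans hcm))
      · have h4 := gi_taylor hG (fun j => (hIv j).2) (fun j => (he1 j).2) ht2
        have h5 : (fun j => a (z m) j + t * e j) = a (z (m + 1)) := by
          funext j
          rw [ha, hzt]
          change x j + z m * e j + t * e j = x j + (z m + t) * e j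
          ring
        have h6 : t * ψ (z m) = -φ (z m) := by
          rw [ht]
          field_simp
        have h7 : MvPolynomial.aeval (a (z (m + 1))) G = φ (z (m + 1)) := by rw [hφ]
        have h8 : MvPolynomial.aeval (a (z m)) G = φ (z m) := by rw [hφ]
        have h9 : dGo G (a (z m)) e = ψ (z m) := by rw [hψ]
        rw [h5, h7, h8, h9, h6, sub_neg_eq_add, sub_add_cancel] at h4
        refine h4.trans ?_
        have h10 : L.nm t ^ 2 ≤ (c ^ (r + m)) ^ 2 := pow_le_pow_left₀ (L.nonneg _) ht1 2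
        refine h10.trans ?_
        rw [← pow_mul]
        exact pow_le_pow_of_le_one hc0 hc1.le (by
          have : 1 ≤ r := Nat.one_le_iff_ne_zero.2 hr
          omega)
  have hstep : ∀ m, L.nm (z (m + 1) - z m) ≤ c ^ m := by
    intro m
    obtain ⟨h1, h2, h3⟩ := key m
    have h4 : z (m + 1) - z m = -(φ (z m) / ψ (z m)) := by
      rw [hzs]
      ring
    rw [h4, L.neg, L.div, hψ1 _ h1 h2, div_one]
    exact h3.trans (pow_le_pow_of_le_one hc0 hc1.le (Nat.le_add_left m r))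
  obtain ⟨y, hyM, hy⟩ := L.cpl M hfd c hc0 hc1 z (fun m => (key m).1) hstep
  have hyr : L.nm y ≤ c ^ r := by
    have h1 := L.add (y - z r) (z r)
    rw [sub_add_cancel] at h1
    exact h1.trans (max_le (hy r) (key r).2.1)
  have hy1 : L.nm y ≤ 1 := hyr.trans hcr.le
  refine ⟨a y, haz y hyM hy1, ?_, fun j => ?_⟩
  · rw [← L.zero_iff]
    refine le_antisymm ?_ (L.nonneg _)
    have h1 : ∀ m : ℕ, L.nm (MvPolynomial.aeval (a y) G) ≤ c ^ m := by
      intro m
      obtain ⟨h2, h3, h4⟩ := key m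
      have h5 : L.nm (MvPolynomial.aeval (a y) G - MvPolynomial.aeval (a (z m)) G) ≤ c ^ m :=
        gi_cong hG (fun j => (haz y hyM hy1 j).2) (fun j => (haz _ h2 (h3.trans hcr.le) j).2)
          (pow_nonneg hc0 m) fun j => (hdist y (z m) j).trans (hy m)
      have h6 := L.add (MvPolynomial.aeval (a y) G - MvPolynomial.aeval (a (z m)) G)
        (MvPolynomial.aeval (a (z m)) G)
      rw [sub_add_cancel] at h6
      refine h6.trans (max_le h5 ?_)
      have h7 : MvPolynomial.aeval (a (z m)) G = φ (z m) := by rw [hφ]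
      rw [h7]
      exact h4.trans (pow_le_pow_of_le_one hc0 hc1.le (Nat.le_add_left m r))
    exact ge_of_tendsto' (tendsto_pow_atTop_nhds_zero_of_lt_one hc0 hc1) h1
  · have h1 := hdist y 0 j
    rw [ha0, sub_zero] at h1
    exact h1.trans hyr

/-- Smoothness: for a primitive vector with `G (x) = 0` modulo the maximal ideal one of the partial derivatives is a unit. Proof: `x_i ^ s = ∑ c_j(x) G_j(x)`. -/
theorem sm_unit (hG : Gi G L n) (hs : Sm G L) {x : Fin N → Ω} (hx : ∀ i, L.nm (x i) ≤ 1)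
    (h1 : ∃ i, L.nm (x i) = 1) :
    ∃ i, L.nm (MvPolynomial.aeval x (MvPolynomial.pderiv i G)) = 1 := by
  obtain ⟨s, hs⟩ := hs
  obtain ⟨i, hi⟩ := h1
  obtain ⟨c, hc, he⟩ := hs i
  have h2 := congrArg (MvPolynomial.aeval x) he
  rw [map_pow, MvPolynomial.aeval_X, map_sum] at h2
  by_contra hcon
  rw [not_exists] at hcon
  have h3 : L.nm (∑ j, MvPolynomial.aeval x (c j * MvPolynomial.pderiv j G)) < 1 :=
    gh_sum_lt L _ _ fun j _ => by
      rw [map_mul, L.mul]
      exact mul_lt_one_of_nonneg_of_lt_one_right (gh_int L (hc j) hx) (L.nonneg _)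
        (lt_of_le_of_ne (gh_pd hG j hx) (hcon j))
  rw [← h2, L.pow, hi, one_pow] at h3
  exact lt_irrefl _ h3

/-- A vector with residue `≠ 0` is primitive. -/
theorem rdv_prim {x : Fin N → Ω} {y : Fin N → k} (h : Rdv L k x y) (hy : y ≠ 0) :
    (∀ i, L.nm (x i) ≤ 1) ∧ ∃ i, L.nm (x i) = 1 := by
  refine ⟨fun i => L.hv_int (h i), ?_⟩
  obtain ⟨i, hi⟩ := Function.ne_iff.1 hy
  refine ⟨i, (L.hv_ne (h i)).1 fun h0 => hi ?_⟩
  exact Subtype.ext h0

end GM
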