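import Pool.Agent.Lib.MP_f80667_ag.Gm.GsAs
import Pool.Agent.Lib.MP_f80667_ag.Gm.GsBg
import Pool.Agent.Lib.MP_f80667_ag.Gm.GsBh
import Pool.Agent.Lib.MP_f80667_ag.Gm.GdB

/-! Good directions and lifts of points over unramified extensions. -/

open ZC BE PE CV IntermediateField

namespace GM

section hens

variable {K Ω : Type} [Field K] [Field Ω] [Algebra K Ω]

/-- The polynomial `∑ g_i a ^ i X ^ (m - i)`. -/
private noncomputable def gdR (g : Polynomial Ω) (a : Ω) (m : ℕ) : Polynomial Ω :=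
  ∑ i ∈ Finset.range (m + 1), Polynomial.C (g.coeff i * a ^ i) * Polynomial.X ^ (m - i)

private theorem gdR_eval (g : Polynomial Ω) (a u : Ω) {m : ℕ} (hm : g.natDegree ≤ m) (hu : u ≠ 0) :
    (gdR g a m).eval u = u ^ m * g.eval (a / u) := by
  unfold gdR
  rw [Polynomial.eval_finsetSum, Polynomial.eval_eq_sum_range' (Nat.lt_succ_of_le hm),
    Finset.mul_sum]
  refine Finset.sum_congr rfl fun i hi => ?_
  have hi' : i ≤ m := Nat.lt_succ_iff.1 (Finset.mem_range.1 hi)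
  rw [Polynomial.eval_mul, Polynomial.eval_C, Polynomial.eval_pow, Polynomial.eval_X, div_pow,
    ← Nat.sub_add_cancel hi', Nat.add_sub_cancel, pow_add]
  field_simp

private theorem gdR_deg (g : Polynomial Ω) (a : Ω) (m : ℕ) : (gdR g a m).natDegree ≤ m := by
  unfold gdR
  refine Polynomial.natDegree_sum_le_of_forall_le _ _ fun i _ => ?_
  exact (Polynomial.natDegree_C_mul_X_pow_le _ _).trans (Nat.sub_le _ _)

private theorem gd_lifts {S : Subring Ω} {f : Polynomial Ω} :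
    f ∈ Polynomial.lifts S.subtype ↔ ∀ i, f.coeff i ∈ S := by
  rw [Polynomial.lifts_iff_coeff_lifts]
  refine forall_congr' fun i => ?_
  constructor
  · rintro ⟨y, hy⟩
    rw [← hy]
    exact y.2
  · intro h
    exact ⟨⟨_, h⟩, rfl⟩

private theorem gd_C {S : Subring Ω} {c : Ω} (hc : c ∈ S) :
    (Polynomial.C c : Polynomial Ω) ∈ Polynomial.lifts S.subtype :=
  Polynomial.C_mem_lifts S.subtype ⟨c, hc⟩

private theorem gd_X {S : Subring Ω} :
    (Polynomial.X : Polynomial Ω) ∈ Polynomial.lifts S.subtype :=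
  Polynomial.X_mem_lifts _

private theorem gdR_lifts {S : Subring Ω} {g : Polynomial Ω} {a : Ω} {m : ℕ}
    (hg : ∀ i, g.coeff i ∈ S) (ha : a ∈ S) : gdR g a m ∈ Polynomial.lifts S.subtype := by
  unfold gdR
  exact sum_mem fun i _ => mul_mem (gd_C (mul_mem (hg i) (pow_mem ha i))) (pow_mem gd_X _)

/-- The integers of `M`. -/
private def gdS (L : Lf K Ω) (M : IntermediateField K Ω) : Subring Ω where
  carrier := {z | z ∈ M ∧ L.nm z ≤ 1}
  mul_mem' := fun {a b} ha hb => ⟨mul_mem ha.1 hb.1, by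
    rw [L.mul]
    exact mul_le_one₀ ha.2 (L.nonneg _) hb.2⟩
  one_mem' := ⟨one_mem _, by rw [L.one]⟩
  add_mem' := fun {a b} ha hb => ⟨add_mem ha.1 hb.1, (L.add _ _).trans (max_le ha.2 hb.2)⟩
  zero_mem' := ⟨zero_mem _, by rw [(L.zero_iff 0).2 rfl]; exact zero_le_one⟩
  neg_mem' := fun {a} ha => ⟨neg_mem ha.1, by rw [L.neg]; exact ha.2⟩

private theorem gdS_eval {L : Lf K Ω} {M : IntermediateField K Ω} {f : Polynomial Ω}
    (hf : ∀ i, f.coeff i ∈ gdS L M) {x : Ω} (hx : x ∈ gdS L M) : f.eval x ∈ gdS L M := by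
  rw [Polynomial.eval_eq_sum_range]
  exact sum_mem fun i _ => mul_mem (hf i) (pow_mem hx i)

/-- **Hensel's lemma** without leading coefficients. Proof: `h = X ^ (m + 2) + a₁ X ^ (m + 1) + a₀ R`, `R = ∑ g_i a₀ ^ i X ^ (m - i)`, `f = a₀ + a₁ X + X ^ 2 g`;
`x ^ (m + 2) f (a₀ / x) = a₀ h (x)`. -/
theorem hens_one (L : Lf K Ω) (M : IntermediateField K Ω) [FiniteDimensional K M]
    {f : Polynomial Ω} (hf : ∀ i, f.coeff i ∈ M ∧ L.nm (f.coeff i) ≤ 1)
    (h0 : L.nm (f.coeff 0) < 1) (h1 : L.nm (f.coeff 1) = 1) :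
    ∃ t ∈ M, f.eval t = 0 ∧ L.nm t ≤ L.nm (f.coeff 0) := by
  obtain ⟨a, ha⟩ : ∃ a, a = f.coeff 0 := ⟨_, rfl⟩
  obtain ⟨b, hb⟩ : ∃ b, b = f.coeff 1 := ⟨_, rfl⟩
  obtain ⟨g, hg⟩ : ∃ g, g = f.divX.divX := ⟨_, rfl⟩
  obtain ⟨m, hm⟩ : ∃ m, m = g.natDegree := ⟨_, rfl⟩
  have hf' : ∀ i, f.coeff i ∈ gdS L M := hf
  have hgS : ∀ i, g.coeff i ∈ gdS L M := by
    intro i
    rw [hg, Polynomial.coeff_divX, Polynomial.coeff_divX]
    exact hf' _
  have haS : a ∈ gdS L M := by
    rw [ha]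
    exact hf' 0
  have hbS : b ∈ gdS L M := by
    rw [hb]
    exact hf' 1
  have hfe : ∀ t, f.eval t = a + b * t + t ^ 2 * g.eval t := by
    intro t
    have e1 := Polynomial.divX_mul_X_add f
    have e2 := Polynomial.divX_mul_X_add f.divX
    rw [Polynomial.coeff_divX, zero_add, ← hg, ← hb] at e2
    rw [← ha] at e1
    rw [← e1, ← e2]
    simp only [Polynomial.eval_add, Polynomial.eval_mul, Polynomial.eval_X, Polynomial.eval_C]
    ring
  obtain ⟨R, hR⟩ : ∃ R, R = gdR g a m := ⟨_, rfl⟩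
  have hRS : ∀ i, R.coeff i ∈ gdS L M := by
    rw [hR]
    exact gd_lifts.1 (gdR_lifts hgS haS)
  obtain ⟨h, hh⟩ : ∃ h : Polynomial Ω, h = Polynomial.X ^ (m + 2) +
      (Polynomial.C b * Polynomial.X ^ (m + 1) + Polynomial.C a * R) := ⟨_, rfl⟩
  have hmon : h.Monic := by
    rw [hh]
    refine Polynomial.monic_X_pow_add ?_
    refine lt_of_le_of_lt (Polynomial.degree_add_le _ _) (max_lt ?_ ?_)
    · refine lt_of_le_of_lt (Polynomial.degree_C_mul_X_pow_le _ _) ?_
      exact_mod_cast Nat.lt_succ_self (m + 1)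
    · refine lt_of_le_of_lt Polynomial.degree_le_natDegree ?_
      have h2 : (Polynomial.C a * R).natDegree ≤ m :=
        (Polynomial.natDegree_C_mul_le _ _).trans (hR ▸ gdR_deg g a m)
      exact_mod_cast lt_of_le_of_lt h2 (by omega : m < m + 2)
  have hhS : ∀ i, h.coeff i ∈ gdS L M := by
    refine gd_lifts.1 ?_
    rw [hh]
    exact add_mem (pow_mem gd_X _) (add_mem (mul_mem (gd_C hbS) (pow_mem gd_X _))
      (mul_mem (gd_C haS) (gd_lifts.2 hRS)))
  have hlt : ∀ z ∈ gdS L M, L.nm (a * z) < 1 := by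
    intro z hz
    rw [L.mul, ha]
    exact lt_of_le_of_lt (mul_le_of_le_one_right (L.nonneg _) hz.2) h0
  have hnb : -b ∈ gdS L M := neg_mem hbS
  have he : h.eval (-b) = a * R.eval (-b) := by
    rw [hh]
    simp only [Polynomial.eval_add, Polynomial.eval_mul, Polynomial.eval_X, Polynomial.eval_C,
      Polynomial.eval_pow]
    ring
  have hd : h.derivative.eval (-b) = (-b) ^ (m + 1) + a * R.derivative.eval (-b) := by
    rw [hh]
    simp only [Polynomial.derivative_add, Polynomial.derivative_mul, Polynomial.derivative_C,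
      Polynomial.derivative_X_pow, Polynomial.eval_add, Polynomial.eval_mul, Polynomial.eval_X,
      Polynomial.eval_C, Polynomial.eval_pow, zero_mul, zero_add, Nat.add_sub_cancel]
    push_cast
    ring
  have hRd : ∀ i, R.derivative.coeff i ∈ gdS L M := by
    intro i
    rw [Polynomial.coeff_derivative]
    refine mul_mem (hRS _) (add_mem ?_ (one_mem _))
    exact natCast_mem _ i
  have hnb1 : L.nm ((-b) ^ (m + 1)) = 1 := by
    rw [L.pow, L.neg, hb, h1, one_pow]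
  obtain ⟨u, huM, hu0, hub⟩ := L.hens M inferInstance h hmon hhS (-b) hnb.1 hnb.2
    (by rw [he]; exact hlt _ (gdS_eval hRS hnb))
    (by
      rw [hd]
      have h2 := hlt _ (gdS_eval hRd hnb)
      rw [← hnb1] at h2
      rw [add_comm, L.add_eq h2, hnb1])
  have hu1 : L.nm u = 1 := by
    have e : u = (u - -b) + -b := by ring
    have h2 : L.nm (-b) = 1 := by rw [L.neg, hb, h1]
    rw [← h2] at hub
    rw [e, L.add_eq hub, h2]
  have hune : u ≠ 0 := L.ne_zero (by rw [hu1]; exact zero_lt_one)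
  refine ⟨a / u, div_mem haS.1 huM, ?_, ?_⟩
  · have h3 : u ^ (m + 2) * f.eval (a / u) = a * h.eval u := by
      rw [hfe, hh]
      simp only [Polynomial.eval_add, Polynomial.eval_mul, Polynomial.eval_X, Polynomial.eval_C,
        Polynomial.eval_pow]
      rw [hR, gdR_eval g a u hm.ge hune]
      field_simp
      ring
    rw [hu0, mul_zero] at h3
    exact (mul_eq_zero.1 h3).resolve_left (pow_ne_zero _ hune)
  · rw [L.div, hu1, div_one, ha]

end hens

variable {F : Type} [Field F] {N n : ℕ} {G : MvPolynomial (Fin N) F} {K Ω : Type} [Field K]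
  [CharZero K] [Field Ω] [Algebra K Ω] [Algebra F K] [Algebra F Ω] [IsScalarTower F K Ω]
  [IsAlgClosure K Ω] {L : Ld K Ω}

/-- **DIR.** Through every integral point of the special fibre there is a good line with a direction over every large
unramified extension. -/
theorem exists_dirx [L.Unr] (hG : Gi G L n) (hs : Sm G L) (hp : n < L.p)
    {M : IntermediateField K Ω} [FiniteDimensional K M] {x : Fin N → Ω} (hx : Iv L M x)
    (h1 : ∃ i, L.nm (x i) = 1) (h0 : L.nm (MvPolynomial.aeval x G) < 1) :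
    ∃ t₀ : ℕ, ∀ t, t₀ ≤ t → t ≠ 0 → ∃ v, Iv L (L.Ur M t) v ∧ Gl G L x v := by
  classical
  have hpF : Fact L.p.Prime := ⟨L.pp⟩
  have hc := L.char_κ
  have hΩ : IsAlgClosed Ω := IsAlgClosure.isAlgClosed K
  have hκ : IsAlgClosed L.κ := L.κ_closed
  have hk : ∀ z : K, L.nm (algebraMap K Ω z) ≤ 1 →
      ∃ t : (⊤ : Subfield L.κ), L.rs.Hv (algebraMap K Ω z) (t : L.κ) := by
    intro z hz
    obtain ⟨r, hr⟩ := L.hv_of hz
    exact ⟨⟨r, trivial⟩, hr⟩
  obtain ⟨g, hg⟩ := exists_rdp (k := (⊤ : Subfield L.κ)) hG.int hk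
  have hy : ∀ i, ∃ r : (⊤ : Subfield L.κ), L.rs.Hv (x i) (r : L.κ) := by
    intro i
    obtain ⟨r, hr⟩ := L.hv_of (hx i).2
    exact ⟨⟨r, trivial⟩, hr⟩
  choose y hy using hy
  have hyR : Rdv L (⊤ : Subfield L.κ) x y := hy
  have hy0 : y ≠ 0 := by
    rintro rfl
    obtain ⟨i, hi⟩ := h1
    exact (L.hv_ne (hy i)).2 hi rfl
  have hyg : MvPolynomial.eval y g = 0 := by
    have h2 := (hg.aeval hyR).uniq (L.hv_zero.2 h0)
    exact Subtype.ext h2
  have hcK : CharP (⊤ : Subfield L.κ) L.p :=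
    (RingHom.charP_iff (⊤ : Subfield L.κ).subtype Subtype.val_injective L.p).2 hc
  obtain ⟨D, hD, hDv⟩ := dir_pol hG.two (hg.hom hG.hom) (fun i hi hin h0 => by
    rw [CharP.cast_eq_zero_iff (⊤ : Subfield L.κ) L.p] at h0
    exact absurd (Nat.le_of_dvd (Nat.pos_of_ne_zero hi) h0) (by omega)) (hg.sm hs hk) hy0 hyg
  refine ⟨D.totalDegree, fun t ht ht0 => ?_⟩
  have hq : 1 < L.p ^ t := Nat.one_lt_pow ht0 L.pp.one_lt
  obtain ⟨S, hS⟩ : ∃ S, S = ((Polynomial.X ^ L.p ^ t - Polynomial.X :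
      Polynomial L.κ).rootSet L.κ).toFinset := ⟨_, rfl⟩
  have hcard : S.card = L.p ^ t := by
    rw [hS, Set.toFinset_card, Polynomial.card_rootSet_eq_natDegree
      (galois_poly_separable L.p _ (dvd_pow_self L.p ht0)) (IsAlgClosed.splits _),
      FiniteField.X_pow_card_sub_X_natDegree_eq L.κ hq]
  have hSm : ∀ r ∈ S, r ^ L.p ^ t = r := by
    intro r hr
    rw [hS, Set.mem_toFinset, Polynomial.mem_rootSet, map_sub, map_pow, Polynomial.aeval_X,
      sub_eq_zero] at hr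
    exact hr.2
  obtain ⟨w, hw, hwD⟩ : ∃ w : Fin N → (⊤ : Subfield L.κ), (∀ i, (w i : L.κ) ∈ S) ∧
      MvPolynomial.eval w D ≠ 0 := by
    by_contra hcon
    push Not at hcon
    refine hD (MvPolynomial.eq_zero_of_eval_zero_at_prod_finset D
      (fun _ => S.map ⟨fun r => (⟨r, trivial⟩ : (⊤ : Subfield L.κ)), fun a b hab =>
        congrArg Subtype.val hab⟩) (fun i => ?_) fun w hw => hcon w fun i => ?_)
    · rw [Finset.card_map, hcard]
      exact lt_of_le_of_lt (MvPolynomial.degreeOf_le_totalDegree D i)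
        (lt_of_le_of_lt ht (Nat.lt_pow_self L.pp.one_lt))
    · obtain ⟨r, hr, hrw⟩ := Finset.mem_map.1 (hw i)
      rw [← hrw]
      exact hr
  obtain ⟨s, hs1, hl⟩ := kJ_te (L := L) (N := t) (J := (⊥ : Submonoid ℕ)) ht0
    (fun h => zero_ne_one (Submonoid.mem_bot.1 h))
    (fun i : Fin N => (⟨(w i : L.κ), (mem_kJ L t ⊥).2
      ⟨1, one_mem _, by rw [mul_one]; exact hSm _ (hw i)⟩⟩ : kJ L t ⊥))
  rw [Submonoid.mem_bot] at hs1
  have hl' : ∀ i, ∃ z ∈ L.Te t, L.rs.Hv z (w i : L.κ) := by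
    intro i
    obtain ⟨z, hz, hzw⟩ := hl i
    rw [hs1, mul_one] at hz
    exact ⟨z, hz, hzw⟩
  choose v hv hvw using hl'
  have hvR : Rdv L (⊤ : Subfield L.κ) v w := hvw
  obtain ⟨h3, h4⟩ := hDv w hwD
  exact ⟨v, fun i => ⟨Ld.te_ur (hv i), L.hv_int (hvw i)⟩, gl_lift hG hg hyR hvR h3 h4⟩

/-- **LIFT** (Hensel). -/
theorem exists_lift (hG : Gi G L n) (hs : Sm G L) {M : IntermediateField K Ω}
    [FiniteDimensional K M] {x : Fin N → Ω} (hx : Iv L M x) (h1 : ∃ i, L.nm (x i) = 1)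
    (h0 : L.nm (MvPolynomial.aeval x G) < 1) :
    ∃ x' : Fin N → Ω, Iv L M x' ∧ MvPolynomial.aeval x' G = 0 ∧
      ∀ i, L.nm (x' i - x i) ≤ L.nm (MvPolynomial.aeval x G) := by
  classical
  obtain ⟨j, hj⟩ := sm_unit hG hs (fun i => (hx i).2) h1
  obtain ⟨H, hH⟩ : ∃ H, H = MvPolynomial.map (algebraMap F Ω) G := ⟨_, rfl⟩
  obtain ⟨v, hv⟩ : ∃ v : Fin N → Ω, v = Pi.single j 1 := ⟨_, rfl⟩
  have hvS : ∀ i, v i ∈ gdS L.toLf M := by
    intro i
    rw [hv, Pi.single_apply]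
    split_ifs
    · exact one_mem _
    · exact zero_mem _
  have hxS : ∀ i, x i ∈ gdS L.toLf M := hx
  have hev : ∀ t, (gl H v x).eval t = MvPolynomial.aeval (fun i => x i + t * v i) G := by
    intro t
    rw [gl_eval, hH, MvPolynomial.eval_map, MvPolynomial.aeval_def]
    rfl
  have hf : ∀ i, (gl H v x).coeff i ∈ gdS L.toLf M := by
    refine gd_lifts.1 ?_
    unfold gl
    rw [MvPolynomial.aeval_def, MvPolynomial.eval₂_eq', hH]
    refine sum_mem fun d _ => mul_mem ?_ (prod_mem fun i _ => pow_mem (add_mem (gd_C (hxS i))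
      (mul_mem (gd_C (hvS i)) gd_X)) _)
    rw [MvPolynomial.coeff_map]
    refine gd_C ⟨?_, hG.int d⟩
    rw [IsScalarTower.algebraMap_apply F K Ω]
    exact M.algebraMap_mem _
  have hc0 : (gl H v x).coeff 0 = MvPolynomial.aeval x G := by
    rw [Polynomial.coeff_zero_eq_eval_zero, hev]
    simp
  have hc1 : (gl H v x).coeff 1 = MvPolynomial.aeval x (MvPolynomial.pderiv j G) := by
    have h2 : (Polynomial.derivative (gl H v x)).coeff 0 = (gl H v x).coeff 1 := by
      rw [Polynomial.coeff_derivative]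
      simp
    rw [← h2, Polynomial.coeff_zero_eq_eval_zero, gl_der]
    unfold dG
    rw [Finset.sum_eq_single j]
    · rw [hv, Pi.single_eq_same, mul_one, zero_smul, add_zero, hH, MvPolynomial.pderiv_map,
        MvPolynomial.eval_map, MvPolynomial.aeval_def]
    · intro i _ hi
      rw [hv, Pi.single_eq_of_ne hi, mul_zero]
    · intro h
      exact absurd (Finset.mem_univ j) h
  obtain ⟨t, htM, ht0, ht1⟩ := hens_one L.toLf M (f := gl H v x) hf (by rw [hc0]; exact h0)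
    (by rw [hc1]; exact hj)
  rw [hc0] at ht1
  have htS : t ∈ gdS L.toLf M := ⟨htM, ht1.trans h0.le⟩
  refine ⟨fun i => x i + t * v i, fun i => add_mem (hxS i) (mul_mem htS (hvS i)), ?_, fun i => ?_⟩
  · rw [← hev]
    exact ht0
  · rw [add_sub_cancel_left, L.mul]
    exact (mul_le_of_le_one_right (L.nonneg _) (hvS i).2).trans ht1

end GM
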