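import Pool.Agent.Lib.MP_f80667_ag.Gm.GlB
import Mathlib.RingTheory.Polynomial.Resultant.Basic

/-! The discriminant of a family of polynomials. -/

open ZC BE PE CV Polynomial IntermediateField IsLocalRing

namespace GM

variable {K Ω : Type} [Field K] [Field Ω] [Algebra K Ω] {L : Ld K Ω} {M : IntermediateField K Ω}
  {g : (OM L M)[X][X]}

/-- The residue of the value at `z = 0`. -/
private noncomputable def glgφ (L : Ld K Ω) (M : IntermediateField K Ω) : (OM L M)[X] →+* L.κ :=
  ((residue L.V).comp (omV L M : OM L M →+* L.V)).comp constantCoeff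

private theorem glg_ev (w : L.V) (A : (OM L M)[X][X]) :
    residue L.V (ev₂ (0, w) (up₂ (omV L M : OM L M →+* L.V) A)) =
      (A.map (glgφ L M)).eval (residue L.V w) := by
  have key : (residue L.V).comp ((ev₂ (0, w)).comp (up₂ (omV L M : OM L M →+* L.V))) =
      (evalRingHom (residue L.V w)).comp (mapRingHom (glgφ L M)) := by
    refine Polynomial.ringHom_ext' (Polynomial.ringHom_ext' (RingHom.ext fun a => ?_) ?_) ?_
    · change residue L.V (ev₂ (0, w) (up₂ _ (C (C a)))) =
        ((C (C a) : (OM L M)[X][X]).map (glgφ L M)).eval _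
      rw [up_CC, map_C, eval_C]
      simp [ev₂, glgφ]
    · change residue L.V (ev₂ (0, w) (up₂ _ (C X))) =
        ((C X : (OM L M)[X][X]).map (glgφ L M)).eval _
      rw [up_C, map_C, eval_C, map_X]
      simp [ev₂, glgφ]
    · change residue L.V (ev₂ (0, w) (up₂ _ X)) = ((X : (OM L M)[X][X]).map (glgφ L M)).eval _
      rw [up_X, map_X, eval_X]
      simp [ev₂]
  exact congrArg (fun φ => φ A) key

private theorem glg_lt (x : L.V) : residue L.V x = 0 ↔ L.nm (x : Ω) < 1 := by
  rw [← L.hv_zero]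
  exact ⟨fun h => ⟨x.2, h⟩, fun ⟨_, h⟩ => h⟩

/-- **The discriminant.** -/
theorem exists_res [IsAlgClosed Ω] (hg : g.Monic)
    (hs : ∀ w : Ω, L.nm w ≤ 1 → L.nm (e2 L M (0, w) g) < 1 →
      L.nm (e2 L M (0, w) (dY g)) = 1) :
    ∃ δ : (OM L M)[X], (∃ B₁ B₂ : (OM L M)[X][X], B₁ * g + B₂ * dY g = C δ) ∧
      L.nm (om L M (δ.coeff 0)) = 1 := by
  by_cases hm : g.natDegree = 0
  · refine ⟨1, ⟨1, 0, ?_⟩, ?_⟩
    · rw [hg.natDegree_eq_zero.1 hm]
      simp
    · rw [coeff_one_zero, map_one, L.one]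
  obtain ⟨p, q, -, -, e⟩ := exists_mul_add_mul_eq_C_resultant (m := g.natDegree)
    (n := (dY g).natDegree) g (dY g) le_rfl le_rfl (Or.inl hm)
  refine ⟨_, ⟨p, q, by rw [mul_comm p, mul_comm q]; exact e⟩, ?_⟩
  have hcl := L.κ_closed
  have hfm : (g.map (glgφ L M)).Monic := hg.map _
  have hdeg : (g.map (glgφ L M)).natDegree = g.natDegree := hg.natDegree_map _
  have hco : IsCoprime (g.map (glgφ L M)) ((dY g).map (glgφ L M)) := by
    rw [Polynomial.isCoprime_iff_aeval_ne_zero_of_isAlgClosed L.κ L.κ]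
    intro a
    obtain ⟨w, rfl⟩ := residue_surjective (R := L.V) a
    rw [← not_and_or]
    rintro ⟨h1, h2⟩
    rw [coe_aeval_eq_eval, ← glg_ev, glg_lt, ← e2_V] at h1
    have h3 := hs (w : Ω) w.2 h1
    rw [coe_aeval_eq_eval, ← glg_ev, glg_lt, ← e2_V] at h2
    exact h2.ne h3
  have hu : IsUnit (glgφ L M (resultant g (dY g) g.natDegree (dY g).natDegree)) := by
    rw [← resultant_map_map]
    have h1 := (isUnit_resultant_iff_isCoprime hfm).2 hco
    obtain ⟨k, hk⟩ := Nat.exists_eq_add_of_le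
      (natDegree_map_le (f := glgφ L M) (p := dY g))
    rw [hk, resultant_add_right_deg _ _ _ _ _ le_rfl]
    rw [hdeg] at h1
    have h2 : (g.map (glgφ L M)).coeff g.natDegree = 1 := by
      rw [← hdeg]
      exact hfm.coeff_natDegree
    rw [h2, one_pow, one_mul]
    exact h1
  generalize resultant g (dY g) g.natDegree (dY g).natDegree = δ at hu ⊢
  have h1 : glgφ L M δ = residue L.V (omV L M (δ.coeff 0)) := rfl
  rw [h1] at hu
  refine le_antisymm (om_le _) (not_lt.1 fun h2 => ?_)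
  exact hu.ne_zero ((glg_lt _).2 h2)

end GM
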