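import Pool.Agent.Lib.MP_f80667_ag.Gm.GxA

/-! Values of polynomials with integral coefficients. -/

open ZC BE PE CV IntermediateField Polynomial

namespace GM

section ev

variable {F : Type} [Field F] {N n : ℕ} {G : MvPolynomial (Fin N) F} {K Ω : Type} [Field K]
  [Field Ω] [Algebra K Ω] [Algebra F K] [Algebra F Ω] [IsScalarTower F K Ω] {L : Ld K Ω}

private theorem gxb_prod_le {ι : Type} (s : Finset ι) (f : ι → Ω)
    (h : ∀ i ∈ s, L.nm (f i) ≤ 1) : L.nm (∏ i ∈ s, f i) ≤ 1 := by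
  classical
  induction s using Finset.induction_on with
  | empty =>
    rw [Finset.prod_empty, L.one]
  | insert a s ha ih =>
    rw [Finset.prod_insert ha, L.mul]
    exact mul_le_one₀ (h a (Finset.mem_insert_self _ _)) (L.nonneg _)
      (ih fun i hi => h i (Finset.mem_insert_of_mem hi))

private theorem gxb_prod_close {ι : Type} (s : Finset ι) {f g : ι → Ω}
    (hf : ∀ i ∈ s, L.nm (f i) ≤ 1) (hg : ∀ i ∈ s, L.nm (g i) ≤ 1) {r : ℝ} (hr : 0 ≤ r)
    (h : ∀ i ∈ s, L.nm (f i - g i) ≤ r) : L.nm (∏ i ∈ s, f i - ∏ i ∈ s, g i) ≤ r := by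
  classical
  induction s using Finset.induction_on with
  | empty =>
    rw [Finset.prod_empty, Finset.prod_empty, sub_self, (L.zero_iff 0).2 rfl]
    exact hr
  | insert a s ha ih =>
    rw [Finset.prod_insert ha, Finset.prod_insert ha]
    have h1 : f a * ∏ i ∈ s, f i - g a * ∏ i ∈ s, g i =
        f a * (∏ i ∈ s, f i - ∏ i ∈ s, g i) + (f a - g a) * ∏ i ∈ s, g i := by ring
    rw [h1]
    refine (L.add _ _).trans (max_le ?_ ?_)
    · rw [L.mul]
      exact (mul_le_of_le_one_left (L.nonneg _) (hf a (Finset.mem_insert_self _ _))).trans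
        (ih (fun i hi => hf i (Finset.mem_insert_of_mem hi))
          (fun i hi => hg i (Finset.mem_insert_of_mem hi))
          (fun i hi => h i (Finset.mem_insert_of_mem hi)))
    · rw [L.mul]
      exact (mul_le_of_le_one_right (L.nonneg _)
        (gxb_prod_le s g fun i hi => hg i (Finset.mem_insert_of_mem hi))).trans
        (h a (Finset.mem_insert_self _ _))

private theorem gxb_pow_close {x y : Ω} (hx : L.nm x ≤ 1) (hy : L.nm y ≤ 1) {r : ℝ} (hr : 0 ≤ r)
    (h : L.nm (x - y) ≤ r) (k : ℕ) : L.nm (x ^ k - y ^ k) ≤ r := by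
  induction k with
  | zero =>
    rw [pow_zero, pow_zero, sub_self, (L.zero_iff 0).2 rfl]
    exact hr
  | succ i ih =>
    have h1 : x ^ (i + 1) - y ^ (i + 1) = x * (x ^ i - y ^ i) + (x - y) * y ^ i := by ring
    rw [h1]
    refine (L.add _ _).trans (max_le ?_ ?_)
    · rw [L.mul]
      exact (mul_le_of_le_one_left (L.nonneg _) hx).trans ih
    · rw [L.mul, L.pow]
      exact (mul_le_of_le_one_right (L.nonneg _) (pow_le_one₀ (L.nonneg _) hy)).trans h

/-- Proof: the formula for the coefficients of `pderiv` (`MvPolynomial.coeff_pderiv` or `pderiv_monomial`): an integer times a coefficient of `G`; `L.nat_le`. -/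
theorem pd_int (hG : ∀ d, L.nm (algebraMap F Ω (G.coeff d)) ≤ 1) (i : Fin N) :
    ∀ d, L.nm (algebraMap F Ω ((MvPolynomial.pderiv i G).coeff d)) ≤ 1 := by
  intro d
  have h1 : algebraMap F Ω ((d i : F) + 1) = ((d i + 1 : ℕ) : Ω) := by
    rw [map_add, map_natCast, map_one, Nat.cast_add, Nat.cast_one]
  rw [MvPolynomial.coeff_pderiv, map_mul, L.mul, h1]
  exact mul_le_one₀ (hG _) (L.nonneg _) (L.nat_le _)

/-- Proof: `MvPolynomial.aeval_def`, `eval₂_eq`; `L.sum_le`. -/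
theorem ae_le (hG : ∀ d, L.nm (algebraMap F Ω (G.coeff d)) ≤ 1) {x : Fin N → Ω}
    (hx : ∀ i, L.nm (x i) ≤ 1) : L.nm (MvPolynomial.aeval x G) ≤ 1 := by
  rw [MvPolynomial.aeval_def, MvPolynomial.eval₂_eq']
  refine L.sum_le _ _ zero_le_one fun d _ => ?_
  rw [L.mul]
  refine mul_le_one₀ (hG d) (L.nonneg _) (gxb_prod_le _ _ fun i _ => ?_)
  rw [L.pow]
  exact pow_le_one₀ (L.nonneg _) (hx i)

/-- Proof: the products `∏ x i ^ d i` are congruent (induction). -/
theorem ae_close (hG : ∀ d, L.nm (algebraMap F Ω (G.coeff d)) ≤ 1) {x y : Fin N → Ω}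
    (hx : ∀ i, L.nm (x i) ≤ 1) (hy : ∀ i, L.nm (y i) ≤ 1) {r : ℝ} (hr : 0 ≤ r)
    (h : ∀ i, L.nm (x i - y i) ≤ r) :
    L.nm (MvPolynomial.aeval x G - MvPolynomial.aeval y G) ≤ r := by
  rw [MvPolynomial.aeval_def, MvPolynomial.aeval_def, MvPolynomial.eval₂_eq',
    MvPolynomial.eval₂_eq', ← Finset.sum_sub_distrib]
  refine L.sum_le _ _ hr fun d _ => ?_
  rw [← mul_sub, L.mul]
  refine (mul_le_of_le_one_left (L.nonneg _) (hG d)).trans ?_
  refine gxb_prod_close _ (fun i _ => ?_) (fun i _ => ?_) hr fun i _ => ?_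
  · rw [L.pow]
    exact pow_le_one₀ (L.nonneg _) (hx i)
  · rw [L.pow]
    exact pow_le_one₀ (L.nonneg _) (hy i)
  · exact gxb_pow_close (hx i) (hy i) hr (h i) _

/-- Proof: `ae_close` for the partial derivatives, `pd_int`. -/
theorem dGo_close (hG : ∀ d, L.nm (algebraMap F Ω (G.coeff d)) ≤ 1) {x y v : Fin N → Ω}
    (hx : ∀ i, L.nm (x i) ≤ 1) (hy : ∀ i, L.nm (y i) ≤ 1) (hv : ∀ i, L.nm (v i) ≤ 1) {r : ℝ}
    (hr : 0 ≤ r) (h : ∀ i, L.nm (x i - y i) ≤ r) : L.nm (dGo G x v - dGo G y v) ≤ r := by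
  unfold dGo
  rw [← Finset.sum_sub_distrib]
  refine L.sum_le _ _ hr fun i _ => ?_
  rw [← sub_mul, L.mul]
  exact (mul_le_of_le_one_right (L.nonneg _) (hv i)).trans (ae_close (pd_int hG i) hx hy hr h)

/-- Proof: otherwise the partial derivatives, homogeneous of degree `n - 1 ≥ 1`, have norms `< 1` at `x` (`ae_close` with `y = 0`: `r` the maximum of the `nm (x i)`). -/
theorem dGo_prim (hG : Gi G L n) {x v : Fin N → Ω} (hx : ∀ i, L.nm (x i) ≤ 1)
    (hv : ∀ i, L.nm (v i) ≤ 1) (h : L.nm (dGo G x v) = 1) : ∃ i, L.nm (x i) = 1 := by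
  by_contra hcon
  push Not at hcon
  have h1 : ∀ i, L.nm (x i) < 1 := fun i => lt_of_le_of_ne (hx i) (hcon i)
  obtain ⟨r, hr0, hr1, hr⟩ : ∃ r : ℝ, 0 ≤ r ∧ r < 1 ∧ ∀ i, L.nm (x i) ≤ r := by
    by_cases hN : (Finset.univ : Finset (Fin N)).Nonempty
    · obtain ⟨j, -, hj⟩ := Finset.exists_max_image Finset.univ (fun i => L.nm (x i)) hN
      exact ⟨L.nm (x j), L.nonneg _, h1 j, fun i => hj i (Finset.mem_univ i)⟩
    · exact ⟨0, le_rfl, zero_lt_one, fun i => absurd ⟨i, Finset.mem_univ i⟩ hN⟩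
  have h2 : dGo G (fun _ => 0) v = 0 := by
    unfold dGo
    refine Finset.sum_eq_zero fun i _ => ?_
    have h3 := hG.hom.pderiv (i := i)
    have h4 : (MvPolynomial.pderiv i G).coeff 0 = 0 := by
      refine h3.coeff_eq_zero ?_
      have h5 := hG.two
      rw [map_zero]
      omega
    have h5 : MvPolynomial.aeval (fun _ => (0 : Ω)) (MvPolynomial.pderiv i G) = 0 := by
      have h6 : MvPolynomial.aeval (0 : Fin N → Ω) (MvPolynomial.pderiv i G) = 0 := by
        rw [MvPolynomial.aeval_zero, MvPolynomial.constantCoeff_eq, h4, map_zero]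
      exact h6
    rw [h5, zero_mul]
  have h3 := dGo_close (G := G) (L := L) (x := x) (y := fun _ => 0) (v := v) hG.int hx
    (fun i => by rw [L.zero]; exact zero_le_one) hv hr0 (fun i => by rw [sub_zero]; exact hr i)
  rw [h2, sub_zero, h] at h3
  linarith

end ev

end GM
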