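import Pool.Agent.Lib.MP_f80667_ag.Gm.GyF

/-!
The derivatives of the polynomial `G (a (z) + Y v)`.
-/

open ZC BE PE CV IntermediateField

namespace GM

variable {F : Type} [Field F] {N : ℕ} {Ω : Type} [Field Ω] [Algebra F Ω]

variable (G : MvPolynomial (Fin N) F) (a : Fin N → Polynomial Ω) (v : Fin N → Ω)

private theorem gyfd_alg (a : F) : algebraMap F (Polynomial (Polynomial Ω)) a =
    Polynomial.C (Polynomial.C (algebraMap F Ω a)) := by
  rw [Polynomial.algebraMap_apply, Polynomial.algebraMap_apply]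

private theorem gyfd_CC (P : Ω × Ω) (c : Ω) : ev₂ P (Polynomial.C (Polynomial.C c)) = c := by
  simp [ev₂]

private theorem gyfd_C (P : Ω × Ω) (f : Polynomial Ω) : ev₂ P (Polynomial.C f) = f.eval P.1 := by
  simp [ev₂]

private theorem gyfd_ev (P : Ω × Ω) (u : Fin N → Polynomial (Polynomial Ω)) :
    ev₂ P (MvPolynomial.aeval u G) = MvPolynomial.aeval (fun i => ev₂ P (u i)) G := by
  rw [MvPolynomial.aeval_def, MvPolynomial.aeval_def, MvPolynomial.eval₂_comp_left]
  have h : (ev₂ P).comp (algebraMap F (Polynomial (Polynomial Ω))) = algebraMap F Ω := by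
    refine RingHom.ext fun a => ?_
    rw [RingHom.comp_apply, gyfd_alg, gyfd_CC]
  rw [h]
  rfl

/-- The chain rule. -/
private theorem gyfd_chain (P : Ω × Ω) (u : Fin N → Polynomial (Polynomial Ω))
    (T : Polynomial (Polynomial Ω) → Ω) (hadd : ∀ A B, T (A + B) = T A + T B)
    (hmul : ∀ A B, T (A * B) = T A * ev₂ P B + ev₂ P A * T B)
    (hC : ∀ c : Ω, T (Polynomial.C (Polynomial.C c)) = 0) :
    T (MvPolynomial.aeval u G) =
      ∑ i, MvPolynomial.aeval (fun i => ev₂ P (u i)) (MvPolynomial.pderiv i G) * T (u i) := by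
  induction G using MvPolynomial.induction_on with
  | C a =>
    rw [MvPolynomial.aeval_C, gyfd_alg, hC]
    refine (Finset.sum_eq_zero fun i _ => ?_).symm
    rw [MvPolynomial.pderiv_C, map_zero, zero_mul]
  | add p q hp hq =>
    rw [map_add, hadd, hp, hq, ← Finset.sum_add_distrib]
    refine Finset.sum_congr rfl fun i _ => ?_
    rw [map_add, map_add, add_mul]
  | mul_X p j hp =>
    rw [map_mul, MvPolynomial.aeval_X, hmul, hp, gyfd_ev, Finset.sum_mul]
    have h1 : MvPolynomial.aeval (fun i => ev₂ P (u i)) p * T (u j) =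
        ∑ i, MvPolynomial.aeval (fun i => ev₂ P (u i)) p *
          MvPolynomial.aeval (fun i => ev₂ P (u i))
            (MvPolynomial.pderiv i (MvPolynomial.X j : MvPolynomial (Fin N) F)) * T (u i) := by
      rw [Finset.sum_eq_single j]
      · rw [MvPolynomial.pderiv_X_self, map_one, mul_one]
      · intro i _ hij
        rw [MvPolynomial.pderiv_X_of_ne (Ne.symm hij), map_zero, mul_zero, zero_mul]
      · intro h
        exact absurd (Finset.mem_univ j) h
    rw [h1, ← Finset.sum_add_distrib]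
    refine Finset.sum_congr rfl fun i _ => ?_
    rw [MvPolynomial.pderiv_mul, map_add, map_mul, map_mul, MvPolynomial.aeval_X]
    ring

private theorem gyfd_pt (P : Ω × Ω) : (fun i => ev₂ P (cav a v i)) = ac a v P.1 P.2 :=
  funext fun i => ev_cav a v P i

/-- Proof: chain rule, `MvPolynomial.induction_on G` (or: derivations). -/
theorem dY_gav (P : Ω × Ω) : ev₂ P (dY (gav G a v)) =
    (MvPolynomial.aeval v G)⁻¹ * dGo G (ac a v P.1 P.2) v := by
  have h1 := gyfd_chain G P (cav a v) (fun A => ev₂ P (dY A))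
    (fun A B => by
      change ev₂ P (dY (A + B)) = ev₂ P (dY A) + ev₂ P (dY B)
      unfold dY
      rw [Polynomial.derivative_add, map_add])
    (fun A B => by
      change ev₂ P (dY (A * B)) = ev₂ P (dY A) * ev₂ P B + ev₂ P A * ev₂ P (dY B)
      unfold dY
      rw [Polynomial.derivative_mul, map_add, map_mul, map_mul])
    (fun c => by
      change ev₂ P (dY (Polynomial.C (Polynomial.C c))) = 0
      unfold dY
      rw [Polynomial.derivative_C, map_zero])
  have h2 : ∀ i, ev₂ P (dY (cav a v i)) = v i := by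
    intro i
    unfold dY cav
    rw [Polynomial.derivative_add, Polynomial.derivative_C, zero_add, Polynomial.derivative_mul,
      Polynomial.derivative_X, Polynomial.derivative_C, mul_zero, add_zero, one_mul, gyfd_CC]
  have h3 : ev₂ P (dY (gav G a v)) =
      (MvPolynomial.aeval v G)⁻¹ * ev₂ P (dY (MvPolynomial.aeval (cav a v) G)) := by
    unfold gav dY
    rw [Polynomial.derivative_mul, Polynomial.derivative_C, zero_mul, zero_add, map_mul, gyfd_CC]
  rw [h3]
  congr 1
  refine h1.trans ?_
  unfold dGo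
  rw [gyfd_pt]
  exact Finset.sum_congr rfl fun i _ => by rw [h2]

/-- Proof: the same with `dZ_add`, `dZ_mul`, `dZ_C`, `dZ_X`. -/
theorem dZ_gav (P : Ω × Ω) : ev₂ P (dZ (gav G a v)) =
    (MvPolynomial.aeval v G)⁻¹ *
      dGo G (ac a v P.1 P.2) fun i => (Polynomial.derivative (a i)).eval P.1 := by
  have h1 := gyfd_chain G P (cav a v) (fun A => ev₂ P (dZ A))
    (fun A B => by
      change ev₂ P (dZ (A + B)) = ev₂ P (dZ A) + ev₂ P (dZ B)
      rw [dZ_add, map_add])
    (fun A B => by
      change ev₂ P (dZ (A * B)) = ev₂ P (dZ A) * ev₂ P B + ev₂ P A * ev₂ P (dZ B)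
      rw [dZ_mul, map_add, map_mul, map_mul])
    (fun c => by
      change ev₂ P (dZ (Polynomial.C (Polynomial.C c))) = 0
      rw [dZ_C, Polynomial.derivative_C, map_zero, map_zero])
  have h2 : ∀ i, ev₂ P (dZ (cav a v i)) = (Polynomial.derivative (a i)).eval P.1 := by
    intro i
    unfold cav
    rw [dZ_add, dZ_C, dZ_mul, dZ_X, dZ_C, Polynomial.derivative_C, map_zero, mul_zero, zero_mul,
      add_zero, add_zero, gyfd_C]
  have h3 : ev₂ P (dZ (gav G a v)) =
      (MvPolynomial.aeval v G)⁻¹ * ev₂ P (dZ (MvPolynomial.aeval (cav a v) G)) := by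
    unfold gav
    rw [dZ_mul, dZ_C, Polynomial.derivative_C, map_zero, zero_mul, zero_add, map_mul, gyfd_CC]
  rw [h3]
  congr 1
  refine h1.trans ?_
  unfold dGo
  rw [gyfd_pt]
  exact Finset.sum_congr rfl fun i _ => by rw [h2]

end GM
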