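import Pool.Agent.Lib.MP_f80667_ag.Gm.GyF

/-!
The degrees of the coefficients of `G (a (z) + Y v)`.
-/

open ZC BE PE CV IntermediateField

namespace GM

variable {F : Type} [Field F] {N : ℕ} {Ω : Type} [Field Ω] [Algebra F Ω]

variable {G : MvPolynomial (Fin N) F} {a : Fin N → Polynomial Ω} {v : Fin N → Ω}

private def GyFm_W (ρ m : ℕ) (A : Polynomial (Polynomial Ω)) (c : Ω) : Prop :=
  A.natDegree ≤ m ∧ (∀ j, (A.coeff j).natDegree ≤ (m - j) * ρ) ∧ A.coeff m = Polynomial.C c

private theorem GyFm_zero (ρ m : ℕ) : GyFm_W ρ m (0 : Polynomial (Polynomial Ω)) 0 := by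
  refine ⟨?_, fun j => ?_, ?_⟩
  · rw [Polynomial.natDegree_zero]
    exact Nat.zero_le _
  · rw [Polynomial.coeff_zero, Polynomial.natDegree_zero]
    exact Nat.zero_le _
  · rw [Polynomial.coeff_zero, map_zero]

private theorem GyFm_C (ρ : ℕ) (c : Ω) :
    GyFm_W ρ 0 (Polynomial.C (Polynomial.C c) : Polynomial (Polynomial Ω)) c := by
  refine ⟨(Polynomial.natDegree_C _).le, fun j => ?_, Polynomial.coeff_C_zero⟩
  rw [Polynomial.coeff_C]
  by_cases h : j = 0
  · rw [if_pos h, Polynomial.natDegree_C]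
    exact Nat.zero_le _
  · rw [if_neg h, Polynomial.natDegree_zero]
    exact Nat.zero_le _

private theorem GyFm_add {ρ m : ℕ} {A B : Polynomial (Polynomial Ω)} {c d : Ω}
    (hA : GyFm_W ρ m A c) (hB : GyFm_W ρ m B d) : GyFm_W ρ m (A + B) (c + d) := by
  refine ⟨Polynomial.natDegree_add_le_of_degree_le hA.1 hB.1, fun j => ?_, ?_⟩
  · rw [Polynomial.coeff_add]
    exact Polynomial.natDegree_add_le_of_degree_le (hA.2.1 j) (hB.2.1 j)
  · rw [Polynomial.coeff_add, hA.2.2, hB.2.2, map_add]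

private theorem GyFm_mul {ρ m m' : ℕ} {A B : Polynomial (Polynomial Ω)} {c d : Ω}
    (hA : GyFm_W ρ m A c) (hB : GyFm_W ρ m' B d) : GyFm_W ρ (m + m') (A * B) (c * d) := by
  refine ⟨Polynomial.natDegree_mul_le_of_le hA.1 hB.1, fun j => ?_, ?_⟩
  · rw [Polynomial.coeff_mul]
    refine Polynomial.natDegree_sum_le_of_forall_le _ _ fun x hx => ?_
    rw [Finset.HasAntidiagonal.mem_antidiagonal] at hx
    by_cases h1 : x.1 ≤ m
    · by_cases h2 : x.2 ≤ m'
      · have h3 : (m + m' - j) * ρ = (m - x.1) * ρ + (m' - x.2) * ρ := by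
          rw [← add_mul]
          congr 1
          omega
        rw [h3]
        exact Polynomial.natDegree_mul_le_of_le (hA.2.1 x.1) (hB.2.1 x.2)
      · rw [Polynomial.coeff_eq_zero_of_natDegree_lt (hB.1.trans_lt (not_le.mp h2)), mul_zero,
          Polynomial.natDegree_zero]
        exact Nat.zero_le _
    · rw [Polynomial.coeff_eq_zero_of_natDegree_lt (hA.1.trans_lt (not_le.mp h1)), zero_mul,
        Polynomial.natDegree_zero]
      exact Nat.zero_le _
  · rw [Polynomial.coeff_mul_add_eq_of_natDegree_le hA.1 hB.1, hA.2.2, hB.2.2, ← map_mul]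

private theorem GyFm_sum {ι : Type} {ρ m : ℕ} (s : Finset ι) (A : ι → Polynomial (Polynomial Ω))
    (c : ι → Ω) (h : ∀ i ∈ s, GyFm_W ρ m (A i) (c i)) :
    GyFm_W ρ m (∑ i ∈ s, A i) (∑ i ∈ s, c i) := by
  classical
  induction s using Finset.induction_on with
  | empty =>
    rw [Finset.sum_empty, Finset.sum_empty]
    exact GyFm_zero ρ m
  | insert i s hi ih =>
    rw [Finset.sum_insert hi, Finset.sum_insert hi]
    exact GyFm_add (h i (Finset.mem_insert_self i s))
      (ih fun k hk => h k (Finset.mem_insert_of_mem hk))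

private theorem GyFm_pow {ρ : ℕ} {A : Polynomial (Polynomial Ω)} {c : Ω}
    (hA : GyFm_W ρ 1 A c) (k : ℕ) : GyFm_W ρ k (A ^ k) (c ^ k) := by
  induction k with
  | zero =>
    rw [pow_zero, pow_zero]
    have h := GyFm_C ρ (1 : Ω)
    rw [map_one, map_one] at h
    exact h
  | succ k ih =>
    rw [pow_succ, pow_succ]
    exact GyFm_mul ih hA

private theorem GyFm_prod {ι : Type} {ρ : ℕ} (s : Finset ι) (k : ι → ℕ)
    (A : ι → Polynomial (Polynomial Ω)) (c : ι → Ω) (h : ∀ i, GyFm_W ρ 1 (A i) (c i)) :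
    GyFm_W ρ (∑ i ∈ s, k i) (∏ i ∈ s, A i ^ k i) (∏ i ∈ s, c i ^ k i) := by
  classical
  induction s using Finset.induction_on with
  | empty =>
    rw [Finset.sum_empty, Finset.prod_empty, Finset.prod_empty]
    have h := GyFm_C ρ (1 : Ω)
    rw [map_one, map_one] at h
    exact h
  | insert i s hi ih =>
    rw [Finset.sum_insert hi, Finset.prod_insert hi, Finset.prod_insert hi]
    exact GyFm_mul (GyFm_pow (h i) (k i)) ih

private theorem GyFm_cav {ρ : ℕ} (ha : ∀ i, (a i).natDegree ≤ ρ) (i : Fin N) :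
    GyFm_W ρ 1 (cav a v i) (v i) := by
  have h0 : (cav a v i).coeff 0 = a i := by
    unfold cav
    rw [Polynomial.coeff_add, Polynomial.coeff_C_zero, Polynomial.coeff_X_mul_zero, add_zero]
  have h1 : (cav a v i).coeff 1 = Polynomial.C (v i) := by
    unfold cav
    rw [Polynomial.coeff_add, Polynomial.coeff_C_of_ne_zero one_ne_zero, zero_add,
      show (1 : ℕ) = 0 + 1 from rfl, Polynomial.coeff_X_mul, Polynomial.coeff_C_zero]
  have hd : (cav a v i).natDegree ≤ 1 := by
    unfold cav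
    refine Polynomial.natDegree_add_le_of_degree_le ?_ ?_
    · rw [Polynomial.natDegree_C]
      exact Nat.zero_le _
    · refine (Polynomial.natDegree_mul_C_le _ _).trans ?_
      exact Polynomial.natDegree_X_le
  refine ⟨hd, fun j => ?_, h1⟩
  by_cases hj0 : j = 0
  · rw [hj0, h0, Nat.sub_zero, one_mul]
    exact ha i
  · by_cases hj1 : j = 1
    · rw [hj1, h1, Polynomial.natDegree_C]
      exact Nat.zero_le _
    · rw [Polynomial.coeff_eq_zero_of_natDegree_lt (by omega), Polynomial.natDegree_zero]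
      exact Nat.zero_le _

private theorem GyFm_G {n ρ : ℕ} (hG : G.IsHomogeneous n) (ha : ∀ i, (a i).natDegree ≤ ρ) :
    GyFm_W ρ n (MvPolynomial.aeval (cav a v) G) (MvPolynomial.aeval v G) := by
  rw [MvPolynomial.aeval_def, MvPolynomial.eval₂_eq', MvPolynomial.aeval_def,
    MvPolynomial.eval₂_eq']
  refine GyFm_sum _ _ _ fun d hd => ?_
  have hdn : ∑ i : Fin N, d i = n := by
    have h := hG (MvPolynomial.mem_support_iff.mp hd)
    rw [Finsupp.weight_apply, Finsupp.sum_fintype d (fun i c => c • (1 : Fin N → ℕ) i)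
      (fun i => zero_smul _ _)] at h
    rw [← h]
    refine Finset.sum_congr rfl fun i _ => ?_
    rw [Pi.one_apply, smul_eq_mul, mul_one]
  have e : algebraMap F (Polynomial (Polynomial Ω)) (MvPolynomial.coeff d G) =
      Polynomial.C (Polynomial.C (algebraMap F Ω (MvPolynomial.coeff d G))) := by
    rw [Polynomial.algebraMap_apply, Polynomial.algebraMap_apply]
  rw [e]
  have h1 := GyFm_mul (GyFm_C ρ (algebraMap F Ω (MvPolynomial.coeff d G)))
    (GyFm_prod Finset.univ d (cav a v) v (GyFm_cav (v := v) ha))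
  rw [hdn, zero_add] at h1
  exact h1

/-- Proof: let `W m` be the set of the polynomials `A` whose coefficients `A_j` are `0` for `j > m` and have `natDegree A_j ≤ (m - j) ρ`; `W m W m' ⊆ W (m + m')`, `cav a v i ∈ W 1`, so `G (a + Y v) ∈ W n`. The coefficient of `Y ^ n` is
`G (v)`: the coefficient `m + m'` of `A B` is the product of the coefficients `m` of `A` and `m'` of `B`, for `A ∈ W m`, `B ∈ W m'`. -/
theorem mc_gav {n ρ : ℕ} (hG : G.IsHomogeneous n) (hv : MvPolynomial.aeval v G ≠ 0)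
    (ha : ∀ i, (a i).natDegree ≤ ρ) : Mc ρ n (gav G a v) := by
  have h := GyFm_mul (GyFm_C ρ (MvPolynomial.aeval v G)⁻¹) (GyFm_G (v := v) hG ha)
  rw [inv_mul_cancel₀ hv, zero_add] at h
  change GyFm_W ρ n (gav G a v) 1 at h
  obtain ⟨h1, h2, h3⟩ := h
  rw [map_one] at h3
  exact ⟨Polynomial.monic_of_natDegree_le_of_coeff_eq_one n h1 h3,
    Polynomial.natDegree_eq_of_le_of_coeff_ne_zero h1 (by rw [h3]; exact one_ne_zero), h2⟩

end GM
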