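import Pool.Agent.Lib.MP_f80667_ag.Gm.GlF
import Pool.Agent.Lib.MP_f80667_ag.Gm.GlG
import Pool.Agent.Lib.MP_f80667_ag.Gm.GxB
import Pool.Agent.Lib.MP_f80667_ag.Gm.GyFd
import Pool.Agent.Lib.MP_f80667_ag.Gm.GyFm

/-! **The moving lemma (LA)** for hypersurfaces. -/

open ZC BE PE CV IntermediateField

namespace GM

variable {F : Type} [Field F] {N n : ℕ} {G : MvPolynomial (Fin N) F} {K Ω : Type} [Field K]
  [CharZero K] [Field Ω] [Algebra K Ω] [Algebra F K] [Algebra F Ω] [IsScalarTower F K Ω]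
  [IsAlgClosure K Ω] {L : Ld K Ω}

/-- **The moving lemma (LA).** -/
theorem gl_la (hG : Gi G L n) {M : IntermediateField K Ω} [FiniteDimensional K M] {π : Ω}
    (hM : π ∈ M) (h0 : 0 < L.nm π) (h1 : L.nm π < 1)
    (hπ : ∀ x ∈ M, x ≠ 0 → ∃ k : ℤ, L.nm x = L.nm π ^ k)
    {a : Fin N → Polynomial Ω} (ha : Arc L M a) {v : Fin N → Ω} (hv : Iv L M v)
    (hl : Gl G L (fun i => (a i).eval 0) v)
    (hx : L.nm (MvPolynomial.aeval (fun i => (a i).eval 0) G) < 1) {P : Ω → (Xh G).pt Ω}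
    (hP : ∀ c, L.nm c < 1 → ∃ w, L.nm w < 1 ∧ Co (P c) (ac a v c w)) {f g : Polynomial Ω}
    (hf : Dpo L M f) (hg : Dpo L M g) {l u s : ℕ}
    (hs : (l = 1 ∧ u = 0 ∧ s ≠ 0) ∨ (l.Prime ∧ L.nm (l : Ω) = L.nm π ^ u ∧ u < (l - 1) * s))
    (hfg : ∀ i, L.nm (f.coeff i - g.coeff i) ≤ L.nm π ^ (s + u)) :
    ∃ z ∈ Dsp L (Xh G) (Nrh G L (L.nm π ^ s)) M,
      rcy P f - rcy P g - l • z ∈ (Xh G).ratEq M Ω := by
  have hcl : IsAlgClosed Ω := IsAlgClosure.isAlgClosed K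
  have hGv : MvPolynomial.aeval v G ≠ 0 := L.ne_zero (by rw [hl.lead]; exact zero_lt_one)
  have hGv' : L.nm (MvPolynomial.aeval v G)⁻¹ = 1 := by rw [L.inv, hl.lead, inv_one]
  obtain ⟨ρ, hρ⟩ : ∃ ρ : ℕ, ∀ i, (a i).natDegree ≤ ρ :=
    ⟨Finset.univ.sup fun i => (a i).natDegree, fun i => Finset.le_sup (f := fun i =>
      (a i).natDegree) (Finset.mem_univ i)⟩
  have mc : Mc ρ n (gav G a v) := mc_gav hG.hom hGv hρ
  have ig : ∀ i j, ((gav G a v).coeff i).coeff j ∈ M ∧ L.nm (((gav G a v).coeff i).coeff j) ≤ 1 :=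
    fun i j => ⟨rm_gav ha hv i j, in_gav hG.int ha hv hl.lead i j⟩
  obtain ⟨g₀, hg₀⟩ := exists_up2 ig
  have hgm : g₀.Monic := (mc_of_up (by rw [hg₀]; exact mc)).monic
  have hac : ∀ w, ac a v 0 w = fun i => (a i).eval 0 + w * v i := fun w => rfl
  have hsep : ∀ w : Ω, L.nm w ≤ 1 → L.nm (e2 L M (0, w) g₀) < 1 →
      L.nm (e2 L M (0, w) (dY g₀)) = 1 := by
    intro w h2 h3
    rw [e2_eq, hg₀, ev_gav, L.mul, hGv', one_mul, hac] at h3
    rw [e2_eq, up_dY, hg₀, dY_gav, L.mul, hGv', one_mul, hac]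
    exact hl.sep w h2 h3
  obtain ⟨δ₀, ⟨B₁, B₂, hB⟩, hδ₀⟩ := exists_res hgm hsep
  have hcf : ∀ (A : Polynomial (Polynomial (OM L M))) (i j : ℕ),
      ((up₂ (om L M) A).coeff i).coeff j ∈ M ∧
        L.nm (((up₂ (om L M) A).coeff i).coeff j) ≤ 1 := by
    intro A i j
    rw [up_cf, Polynomial.coeff_map]
    exact ⟨om_mem _, om_le _⟩
  have hB' : up₂ (om L M) B₁ * gav G a v + up₂ (om L M) B₂ * Polynomial.derivative (gav G a v) =
      Polynomial.C (δ₀.map (om L M)) := by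
    have h2 := congrArg (up₂ (om L M)) hB
    rw [map_add, map_mul, map_mul, up_dY, up_C, hg₀] at h2
    exact h2
  have hAe : ∀ (Q : Ω × Ω), (fun j => ev₂ Q (cav a v j)) = ac a v Q.1 Q.2 := fun Q =>
    funext fun j => ev_cav a v Q j
  have hz : ∀ Q : Ω × Ω, ev₂ Q (gav G a v) = 0 ↔ MvPolynomial.aeval (ac a v Q.1 Q.2) G = 0 := by
    intro Q
    rw [ev_gav, mul_eq_zero, or_iff_right (inv_ne_zero hGv)]
  refine la_co (V := Xh G) (Cx := Co) (nr := Nrh G L (L.nm π ^ s)) (A := cav a v)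
    (δ := δ₀.map (om L M)) (w₀ := 0) mc ig ?_ (fun k i j => ⟨rm_cav ha hv k i j, in_cav ha hv k i j⟩)
    ⟨_, _, hcf B₁, hcf B₂, hB'⟩ ?_ (fun p p' x h2 h3 => co_eq h2 h3)
    (fun γ _ p x h => co_act γ h) ?_ hM h0 h1 hπ
    (fun p p' x x' h1 h2 h3 h4 h5 h6 h7 => ⟨x, x', h1, h2, h3, h4, h5, h6, h7⟩) ?_ M.zero_mem
    (by rw [L.zero]; exact zero_le_one) ?_ ?_ hf hg hs hfg
  · intro j
    rw [Polynomial.coeff_map]
    exact ⟨om_mem _, om_le _⟩
  · intro Q h2 h3 h4 h5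
    have h6 : L.nm (ev₂ Q (dY (gav G a v))) = 1 := by
      have h7 := gy_unit (L := L) (M := M) (P := Q) hB h2 h3
        (by rw [e2_eq, hg₀, h4, L.zero]; exact zero_lt_one)
        (by rw [e2_C, ← Polynomial.eval_map]; exact h5)
      rwa [e2_eq, up_dY, hg₀] at h7
    rw [dY_gav, L.mul, hGv', one_mul] at h6
    have h7 : ∀ i, L.nm (ac a v Q.1 Q.2 i) ≤ 1 := by
      intro i
      rw [← ev_cav]
      obtain ⟨A₀, hA₀⟩ := exists_up2 (L := L) (M := M) (A := cav a v i) fun j k =>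
        ⟨rm_cav ha hv i j k, in_cav ha hv i j k⟩
      rw [← hA₀]
      exact e2_le h2 h3 A₀
    obtain ⟨i, hi⟩ := dGo_prim hG h7 (fun i => (hv i).2) h6
    refine ⟨⟨i, by rw [ev_cav]; exact hi⟩, ?_⟩
    rw [hAe]
    refine co_mk (fun h8 => ?_) ((hz Q).1 h4)
    rw [h8, Pi.zero_apply, L.zero] at hi
    exact zero_ne_one hi
  · intro Φ pt h2 h3
    have hinv : (MvPolynomial.aeval v G)⁻¹ ∈ M := by
      have h4 := rm_gav (G := G) ha hv n 0
      have h5 : ((gav G a v).coeff n).coeff 0 = 1 := by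
        have h6 := mc.monic.coeff_natDegree
        rw [mc.deg] at h6
        rw [h6, Polynomial.coeff_one_zero]
      have h6 : MvPolynomial.aeval v G ∈ M := by
        rw [MvPolynomial.aeval_def, MvPolynomial.eval₂_eq]
        refine sum_mem fun d _ => mul_mem ?_ (prod_mem fun i _ => pow_mem (hv i).1 _)
        rw [IsScalarTower.algebraMap_apply F K Ω]
        exact M.algebraMap_mem _
      exact M.inv_mem h6
    refine gpm_h (G := G) (B := Polynomial.C (Polynomial.C (MvPolynomial.aeval v G)⁻¹))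
      (A := cav a v) (rm_gav ha hv) mc.monic (fun i j => ?_) (fun i => rm_cav ha hv i)
      (dvd_refl _) (fun Q _ => ?_) h3
    · rw [Polynomial.coeff_C]
      split_ifs
      · rw [Polynomial.coeff_C]
        split_ifs
        · exact hinv
        · exact M.zero_mem
      · rw [Polynomial.coeff_zero]
        exact M.zero_mem
    · have h4 : ev₂ Q (Polynomial.C (Polynomial.C (MvPolynomial.aeval v G)⁻¹)) =
        (MvPolynomial.aeval v G)⁻¹ := by simp [ev₂]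
      rw [h4]
      exact inv_ne_zero hGv
  · rw [Polynomial.eval_map]
    exact unit_zero (by rw [L.zero]; exact zero_lt_one) hδ₀
  · rw [ev_gav, L.mul, hGv', one_mul, hac]
    have h2 : (fun i => (a i).eval 0 + (0 : Ω) * v i) = fun i => (a i).eval 0 :=
      funext fun i => by rw [zero_mul, add_zero]
    rw [h2]
    exact hx
  · intro c hc
    obtain ⟨w, h2, h3⟩ := hP c hc
    refine ⟨w, by rwa [sub_zero], (hz (c, w)).2 (co_zero h3), ?_⟩
    rw [hAe]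
    exact h3

end GM
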