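import Pool.Agent.Lib.MP_f80667_ag.Gm.GyE
import Pool.Agent.Lib.MP_f80667_ag.Gm.GyFd
import Pool.Agent.Lib.MP_f80667_ag.Gm.GyFm

/-!
The relation of the curves for hypersurfaces.
-/

open ZC BE PE CV IntermediateField

namespace GM

section ev

variable {K Ω : Type} [Field K] [Field Ω] [Algebra K Ω] {M : IntermediateField K Ω}

theorem rm_ev {A : Polynomial (Polynomial Ω)} (hA : Rm M A) {P : Ω × Ω} (h1 : P.1 ∈ M)
    (h2 : P.2 ∈ M) : ev₂ P A ∈ M := by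
  obtain ⟨A', rfl⟩ := exists_up hA
  have h := ev_up (algebraMap M Ω) ((⟨P.1, h1⟩, ⟨P.2, h2⟩) : M × M) A'
  have h3 : ev₂ P (up₂ (algebraMap M Ω) A') =
      algebraMap M Ω (ev₂ ((⟨P.1, h1⟩, ⟨P.2, h2⟩) : M × M) A') := h
  rw [h3]
  exact (ev₂ ((⟨P.1, h1⟩, ⟨P.2, h2⟩) : M × M) A').2

end ev

variable {F : Type} [Field F] {N n : ℕ} {G : MvPolynomial (Fin N) F} {K Ω : Type} [Field K]
  [CharZero K] [Field Ω] [Algebra K Ω] [Algebra F K] [Algebra F Ω] [IsScalarTower F K Ω]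
  [IsAlgClosure K Ω] {L : Ld K Ω}

theorem dGo_zero {N n : ℕ} {F Ω : Type} [Field F] [Field Ω] [Algebra F Ω]
    {G : MvPolynomial (Fin N) F} (hG : G.IsHomogeneous n) (hn : 2 ≤ n) (v : Fin N → Ω) :
    dGo G 0 v = 0 := by
  unfold dGo
  refine Finset.sum_eq_zero fun i _ => ?_
  rw [MvPolynomial.aeval_zero, MvPolynomial.constantCoeff_eq,
    (hG.pderiv (i := i)).coeff_eq_zero (d := 0) (by rw [map_zero]; omega), map_zero, zero_mul]

theorem dZ_cav (a : Fin N → Polynomial Ω) (v : Fin N → Ω) (P : Ω × Ω) (i : Fin N) :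
    ev₂ P (dZ (cav a v i)) = (Polynomial.derivative (a i)).eval P.1 := by
  rw [cav, dZ_add, dZ_mul, dZ_C, dZ_C, dZ_X, Polynomial.derivative_C, Polynomial.C_0, mul_zero,
    zero_mul, add_zero, add_zero]
  simp [ev₂]

theorem dY_cav (a : Fin N → Polynomial Ω) (v : Fin N → Ω) (P : Ω × Ω) (i : Fin N) :
    ev₂ P (dY (cav a v i)) = v i := by
  simp [cav, dY, ev₂]

omit [CharZero K] [IsAlgClosure K Ω] [Algebra F K] [IsScalarTower F K Ω] [Algebra F Ω] [Field F] in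
theorem gyG_est (L : Ld K Ω) {x' x v a' κ Δc Δw π τ w m' : Ω} {r : ℝ} (hv : L.nm v ≤ 1)
    (ha : L.nm a' ≤ 1) (hκ : L.nm κ ≤ 1) (h1 : L.nm (x' - x - (a' * Δc + v * Δw)) ≤ r)
    (h2 : L.nm (Δc - π * τ * w / m') ≤ r) (h3 : L.nm (Δw + κ * Δc) ≤ r) :
    L.nm (x' - (x + π * (τ * w / m') * (a' - κ * v))) ≤ r := by
  have e : x' - (x + π * (τ * w / m') * (a' - κ * v)) =
      (x' - x - (a' * Δc + v * Δw)) + (a' * (Δc - π * τ * w / m') +
        (v * (Δw + κ * Δc) - v * κ * (Δc - π * τ * w / m'))) := by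
    ring
  have hr : 0 ≤ r := (L.nonneg _).trans h1
  have hm : ∀ {y z : Ω}, L.nm y ≤ 1 → L.nm z ≤ r → L.nm (y * z) ≤ r := by
    intro y z hy hz
    rw [L.mul]
    exact (mul_le_of_le_one_left (L.nonneg _) hy).trans hz
  have hvκ : L.nm (v * κ) ≤ 1 := by
    rw [L.mul]
    exact mul_le_one₀ hv (L.nonneg _) hκ
  rw [e]
  exact (L.add _ _).trans (max_le h1 ((L.add _ _).trans (max_le (hm ha h2)
    ((L.sub _ _).trans (max_le (hm hv h3) (hm hvκ h2))))))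

/-- **The relation of the curves (CR)** for hypersurfaces. -/
theorem gy_cr (hG : Gi G L n) {M : IntermediateField K Ω} [FiniteDimensional K M] {π : Ω}
    (hM : π ∈ M) (h1 : L.nm π < 1)
    {a : Fin N → Polynomial Ω} (ha : Arc L M a) {ρ : ℕ} (hρ : ∀ i, (a i).natDegree ≤ ρ)
    {v : Fin N → Ω} (hv : Iv L M v) {S : Finset Ω}
    (hS : ∀ c ∈ S, c ∈ M ∧ L.nm c ≤ 1 ∧ Gl G L (fun i => (a i).eval c) v)
    (hS' : ∀ c ∈ S, ∀ c' ∈ S, c ≠ c' → L.nm (c - c') = 1) {j : ℕ} (hj : j * ρ < S.card) {τ : Ω}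
    (hτ : τ ∈ M) (hτ' : L.nm τ ≤ 1) {T : Finset (Ω × Ω)}
    (hT : ∀ q, q ∈ T ↔ q.1 ∈ S ∧ MvPolynomial.aeval (ac a v q.1 q.2) G = 0)
    (hT' : ∀ q ∈ T, q.2 ∈ M) :
    ∃ (P P' : Ω × Ω → (Xh G).pt Ω) (x' : Ω × Ω → Fin N → Ω),
      (∀ q ∈ T, Co (P q) (ac a v q.1 q.2) ∧ Co (P' q) (x' q) ∧ Iv L M (x' q) ∧
        ∀ i, L.nm (x' q i - (ac a v q.1 q.2 i +
          π * (τ * q.2 ^ j / (Polynomial.derivative (∏ c ∈ S, (Polynomial.X - Polynomial.C c))).eval q.1) *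
            ((Polynomial.derivative (a i)).eval q.1 -
              dGo G (ac a v q.1 q.2) (fun i => (Polynomial.derivative (a i)).eval q.1) /
                dGo G (ac a v q.1 q.2) v * v i))) ≤ L.nm π ^ 2) ∧
      ∑ q ∈ T, (Finsupp.single (P' q) (1 : ℤ) - Finsupp.single (P q) 1) ∈
        (Xh G).ratEq M Ω := by
  classical
  have hcl : IsAlgClosed Ω := IsAlgClosure.isAlgClosed K
  obtain ⟨c₀, hc₀⟩ : S.Nonempty := Finset.card_pos.1 (by omega)
  have hγ : L.nm (MvPolynomial.aeval v G) = 1 := (hS c₀ hc₀).2.2.lead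
  have hγ0 : MvPolynomial.aeval v G ≠ 0 := by
    intro h
    rw [h, L.zero] at hγ
    exact zero_ne_one hγ
  have hnn : ∀ z : Ω, L.nm ((MvPolynomial.aeval v G)⁻¹ * z) = L.nm z := by
    intro z
    rw [L.mul, L.inv, hγ, inv_one, one_mul]
  have hg0 : ∀ P : Ω × Ω, ev₂ P (gav G a v) = 0 ↔ MvPolynomial.aeval (ac a v P.1 P.2) G = 0 := by
    intro P
    rw [ev_gav, mul_eq_zero, or_iff_right (inv_ne_zero hγ0)]
  have hD : Crd L M ρ n (gav G a v) S T :=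
    { mc := mc_gav hG.hom hγ0 hρ
      ig := in_gav hG.int ha hv hγ
      rg := rm_gav ha hv
      mS := fun c hc => (hS c hc).1
      iS := fun c hc => (hS c hc).2.1
      dS := hS'
      good := fun c hc w hw h => by
        rw [ev_gav, hnn] at h
        rw [dY_gav, hnn]
        exact (hS c hc).2.2.sep w hw h
      mT := fun q => by rw [hT q, hg0]
      rT := hT' }
  -- a point
  obtain ⟨w₀, hw₀⟩ : ∃ w, ev₂ (c₀, w) (gav G a v) = 0 := by
    have h2 : ((gav G a v).map (Polynomial.evalRingHom c₀)).degree ≠ 0 := by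
      have h3 : ((gav G a v).map (Polynomial.evalRingHom c₀)).natDegree ≠ 0 := by
        rw [hD.mc.monic.natDegree_map, hD.mc.deg]
        have := hG.two
        omega
      exact fun h4 => h3 (Polynomial.natDegree_eq_of_degree_eq_some h4)
    obtain ⟨w, hw⟩ := IsAlgClosed.exists_root _ h2
    refine ⟨w, ?_⟩
    rw [ev₂_eq, ← Polynomial.map_evalRingHom_eval]
    exact hw
  have hne : ∀ P : Ω × Ω, ev₂ P (dY (gav G a v)) ≠ 0 → ac a v P.1 P.2 ≠ 0 := by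
    intro P h h2
    apply h
    rw [dY_gav, h2, dGo_zero hG.hom hG.two, mul_zero]
  have hq₀ : ((c₀, w₀) : Ω × Ω) ∈ T := (hD.mT _).2 ⟨hc₀, hw₀⟩
  have hnz : ∀ z : Ω, L.nm z = 1 → z ≠ 0 := by
    rintro z hz rfl
    rw [L.zero] at hz
    exact zero_ne_one hz
  have hQ₀ : ac a v c₀ w₀ ≠ 0 := hne (c₀, w₀) (hnz _ (hD.dy hq₀))
  have hQ₁ : MvPolynomial.aeval (ac a v c₀ w₀) G = 0 := (hg0 (c₀, w₀)).1 hw₀
  have hex : ∀ P : Ω × Ω, ∃ y : (Xh G).pt Ω, ev₂ P (gav G a v) = 0 →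
      ev₂ P (dY (gav G a v)) ≠ 0 → Co y (ac a v P.1 P.2) := by
    intro P
    by_cases h2 : ev₂ P (gav G a v) = 0 ∧ ev₂ P (dY (gav G a v)) ≠ 0
    · exact ⟨Quotient.mk _ ⟨ac a v P.1 P.2, hne P h2.2, (hg0 P).1 h2.1⟩, fun _ _ =>
        ⟨_, rfl, rfl⟩⟩
    · exact ⟨Quotient.mk _ ⟨ac a v c₀ w₀, hQ₀, hQ₁⟩, fun h3 h4 => absurd ⟨h3, h4⟩ h2⟩
  choose pt hpt using hex
  have hπτ : L.nm (π * τ) ≤ L.nm π := by
    rw [L.mul]
    exact mul_le_of_le_one_right (L.nonneg _) hτ'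
  have hπτ1 : L.nm (π * τ) < 1 := hπτ.trans_lt h1
  obtain ⟨φ, hφ, hrat⟩ := hD.cr (Xh G) (M.mul_mem hM hτ) hπτ1 hj
  have hsq : L.nm (π * τ) ^ 2 ≤ L.nm π ^ 2 := pow_le_pow_left₀ (L.nonneg _) hπτ 2
  have hφy : ∀ q ∈ T, ev₂ (φ q) (dY (gav G a v)) ≠ 0 := by
    intro q hq
    obtain ⟨-, -, -, h4, h5, -, -, -⟩ := hφ q hq
    exact hnz _ (hD.jac_near (a := 0) (by rw [L.zero]; exact one_pos) 0 hq
      (h4.trans_lt hπτ1) (h5.trans_lt hπτ1)).2
  refine ⟨pt, fun q => pt (φ q), fun q => ac a v (φ q).1 (φ q).2, fun q hq => ?_, ?_⟩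
  · obtain ⟨h2, h3, h4, h5, h6, h7, h8, h9⟩ := hφ q hq
    have hqz := (hD.mT q).1 hq
    refine ⟨hpt q hqz.2 (hnz _ (hD.dy hq)), hpt _ h7 (hφy q hq), fun i => ?_, fun i => ?_⟩
    · change ac a v (φ q).1 (φ q).2 i ∈ M ∧ L.nm (ac a v (φ q).1 (φ q).2 i) ≤ 1
      rw [← ev_cav]
      exact ⟨rm_ev (rm_cav ha hv i) h2 h3, ev_le (in_cav ha hv i) h4⟩
    · have ht := tay_nm (in_cav ha hv i) (hD.ip hq) h4 h5 h6
      rw [ev_cav, ev_cav, dZ_cav, dY_cav] at ht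
      have hκ1 : L.nm (ev₂ q (dZ (gav G a v)) / ev₂ q (dY (gav G a v))) ≤ 1 := by
        rw [L.div, hD.dy hq, div_one]
        exact ev_le hD.ig.dZ (hD.ip hq)
      have hκ : ev₂ q (dZ (gav G a v)) / ev₂ q (dY (gav G a v)) =
          dGo G (ac a v q.1 q.2) (fun i => (Polynomial.derivative (a i)).eval q.1) /
            dGo G (ac a v q.1 q.2) v := by
        rw [dZ_gav, dY_gav, mul_div_mul_left _ _ (inv_ne_zero hγ0)]
      rw [← hκ]
      exact (gyG_est L (hv i).2 (by rw [← dZ_cav a v q i]; exact ev_le (in_cav ha hv i).dZ (hD.ip hq))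
        hκ1 ht h8 h9).trans hsq
  · have m1 : Rm M (1 : Polynomial (Polynomial Ω)) := by
      intro i j
      rw [Polynomial.coeff_one]
      split_ifs
      · rw [Polynomial.coeff_one]
        split_ifs
        · exact M.one_mem
        · exact M.zero_mem
      · rw [Polynomial.coeff_zero]
        exact M.zero_mem
    have hdvd : gav G a v ∣ 1 * MvPolynomial.aeval (cav a v) G := by
      refine ⟨Polynomial.C (Polynomial.C (MvPolynomial.aeval v G)), ?_⟩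
      rw [gav, one_mul, mul_right_comm, ← Polynomial.C_mul, ← Polynomial.C_mul,
        inv_mul_cancel₀ hγ0, Polynomial.C_1, Polynomial.C_1, one_mul]
    refine hrat pt (gpm_h (B := 1) (A := cav a v) hD.rg hD.mc.monic m1
      (fun i => rm_cav ha hv i) hdvd (fun P _ => ?_) fun P hP => ?_)
    · rw [map_one]
      exact one_ne_zero
    · have h2 : ev₂ P (gav G a v) = 0 ∧ ev₂ P (dY (gav G a v)) ≠ 0 := by
        rcases Finset.mem_union.1 hP with hP | hP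
        · exact ⟨((hD.mT P).1 hP).2, hnz _ (hD.dy hP)⟩
        · obtain ⟨q, hq, rfl⟩ := Finset.mem_image.1 hP
          exact ⟨(hφ q hq).2.2.2.2.2.1, hφy q hq⟩
      have h3 : (fun i => ev₂ P (cav a v i)) = ac a v P.1 P.2 := funext fun i => ev_cav a v P i
      rw [h3]
      exact hpt P h2.1 h2.2

end GM
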