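import Pool.Agent.Lib.MP_f80667_ag.Gm.GeD
import Pool.Agent.Lib.MP_f80667_ag.Gm.GyG
import Pool.Agent.Lib.MP_f80667_ag.Gm.GlH

/-! The moving lemma and the relation of the curves. -/

open ZC BE PE CV IntermediateField

namespace GM

variable {F : Type} [Field F] {N n : ℕ} {G : MvPolynomial (Fin N) F} {K Ω : Type} [Field K]
  [CharZero K] [Field Ω] [Algebra K Ω] [Algebra F K] [Algebra F Ω] [IsScalarTower F K Ω]
  [IsAlgClosure K Ω] {L : Ld K Ω}

/-- **The moving lemma (LA).** `a` is an arc over `M`, the line `a(0) + Y v` is good, `P c` is the point of the sheet `w = 0` above `c`; `f`, `g` are congruent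
modulo `π ^ (s + u)`. `l = 1`: the difference of the cycles is a displacement of level `s` modulo rational equivalence; `l` prime: it is `l` times one. -/
theorem la (hG : Gi G L n) {M : IntermediateField K Ω} [FiniteDimensional K M] {π : Ω} (hM : π ∈ M)
    (h0 : 0 < L.nm π) (h1 : L.nm π < 1) (hπ : ∀ x ∈ M, x ≠ 0 → ∃ k : ℤ, L.nm x = L.nm π ^ k)
    {a : Fin N → Polynomial Ω} (ha : Arc L M a) {v : Fin N → Ω} (hv : Iv L M v)
    (hl : Gl G L (fun i => (a i).eval 0) v)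
    (hx : L.nm (MvPolynomial.aeval (fun i => (a i).eval 0) G) < 1) {P : Ω → (Xh G).pt Ω}
    (hP : ∀ c, L.nm c < 1 → ∃ w, L.nm w < 1 ∧ Co (P c) (ac a v c w)) {f g : Polynomial Ω}
    (hf : Dpo L M f) (hg : Dpo L M g) (hd : f.natDegree = g.natDegree) {l u s : ℕ}
    (hs : (l = 1 ∧ u = 0 ∧ s ≠ 0) ∨ (l.Prime ∧ L.nm (l : Ω) = L.nm π ^ u ∧ u < (l - 1) * s))
    (hfg : ∀ i, L.nm (f.coeff i - g.coeff i) ≤ L.nm π ^ (s + u)) :
    ∃ z ∈ Dsp L (Xh G) (Nrh G L (L.nm π ^ s)) M,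
      rcy P f - rcy P g - l • z ∈ (Xh G).ratEq M Ω := by
  exact gl_la hG hM h0 h1 hπ ha hv hl hx hP hf hg hs hfg

/-- **The relation of the curves (CR).** `a` is an arc of degree `≤ ρ` over `M`, the lines `a(c) + Y v`, `c ∈ S`, are good and all their points `q = (c, w) ∈ T` are rational
over `M`. The points `P q` and `P' q` are congruent modulo `π`; modulo `π ^ 2` the difference is the tangent vector of the curve multiplied
by `π τ w ^ j / m'(c)`, `m = ∏ (z - c)`. -/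
theorem cr (hG : Gi G L n) {M : IntermediateField K Ω} [FiniteDimensional K M] {π : Ω} (hM : π ∈ M)
    (h0 : 0 < L.nm π) (h1 : L.nm π < 1) (hπ : ∀ x ∈ M, x ≠ 0 → ∃ k : ℤ, L.nm x = L.nm π ^ k)
    {a : Fin N → Polynomial Ω} (ha : Arc L M a) {ρ : ℕ} (hρ : ∀ i, (a i).natDegree ≤ ρ)
    {v : Fin N → Ω} (hv : Iv L M v) {S : Finset Ω}
    (hS : ∀ c ∈ S, c ∈ M ∧ L.nm c ≤ 1 ∧ Gl G L (fun i => (a i).eval c) v)
    (hS' : ∀ c ∈ S, ∀ c' ∈ S, c ≠ c' → L.nm (c - c') = 1) {j : ℕ} (hj : j * ρ < S.card) {τ : Ω}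
    (hτ : τ ∈ M) (hτ' : L.nm τ ≤ 1) {T : Finset (Ω × Ω)}
    (hT : ∀ q, q ∈ T ↔ q.1 ∈ S ∧ MvPolynomial.aeval (ac a v q.1 q.2) G = 0)
    (hT' : ∀ q ∈ T, q.2 ∈ M) :
    ∃ (P P' : Ω × Ω → (Xh G).pt Ω) (x' : Ω × Ω → Fin N → Ω),
      (∀ q ∈ T, Co (P q) (ac a v q.1 q.2) ∧ Co (P' q) (x' q) ∧ Iv L M (x' q) ∧
        ∀ i, L.nm (x' q i - (ac a v q.1 q.2 i +
          π * (τ * q.2 ^ j / (Polynomial.derivative (∏ c ∈ S, (Polynomial.X - Polynomial.C c))).eval q.1) *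
            ((Polynomial.derivative (a i)).eval q.1 -
              dGo G (ac a v q.1 q.2) (fun i => (Polynomial.derivative (a i)).eval q.1) /
                dGo G (ac a v q.1 q.2) v * v i))) ≤ L.nm π ^ 2) ∧
      ∑ q ∈ T, (Finsupp.single (P' q) (1 : ℤ) - Finsupp.single (P q) 1) ∈
        (Xh G).ratEq M Ω :=
  gy_cr hG hM h1 ha hρ hv hS hS' hj hτ hτ' hT hT'

end GM
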