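import Pool.Agent.Lib.MP_f80667_ag.Gm.GsFl

/-! The local theorem. -/

open ZC BE PE CV IntermediateField

namespace GM

variable {F : Type} [Field F] {N n : ℕ} {G : MvPolynomial (Fin N) F} {K Ω : Type} [Field K]
  [CharZero K] [Field Ω] [Algebra K Ω] [Algebra F K] [Algebra F Ω] [IsScalarTower F K Ω]
  [IsAlgClosure K Ω] {L : Ld K Ω}

/-- Proof: let `H = D 2 ⊔ R ⊔ p D 1` and `z ∈ D 1` not in `H`: a character `lam` of the quotient by `H` (`CharacterModule.exists_character_apply_ne_zero_of_ne_zero`) with `lam z ≠ 0` satisfies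
`Lm`: contradiction to `lam_zero`. -/
theorem dl_le [L.Unr] (hN : 4 ≤ N) (hG : Gi G L n) (hs : Sm G L) (hp : n < L.p)
    {z : (Xh G).pt Ω →₀ ℤ} (hz : z ∈ Dl G L 1 (⊥ : IntermediateField K Ω)) :
    ∃ z₁ ∈ Dl G L 1 (⊥ : IntermediateField K Ω), ∃ z₂ ∈ Dl G L 2 (⊥ : IntermediateField K Ω),
      z - L.p • z₁ - z₂ ∈ (Xh G).ratEq K Ω := by
  let H : AddSubgroup ((Xh G).pt Ω →₀ ℤ) := (Dl G L 2 (⊥ : IntermediateField K Ω) ⊔
    (Xh G).ratEq K Ω) ⊔ (Dl G L 1 (⊥ : IntermediateField K Ω)).map (nsmulAddMonoidHom L.p)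
  have hlm : Lm G L (QuotientAddGroup.mk' H) := by
    refine ⟨fun y hy => ?_, fun y hy => ?_, fun y hy => ?_⟩
    · exact (QuotientAddGroup.eq_zero_iff y).2
        ((le_sup_right.trans le_sup_left : (Xh G).ratEq K Ω ≤ H) hy)
    · exact (QuotientAddGroup.eq_zero_iff y).2
        ((le_sup_left.trans le_sup_left : Dl G L 2 (⊥ : IntermediateField K Ω) ≤ H) hy)
    · rw [← map_nsmul]
      exact (QuotientAddGroup.eq_zero_iff _).2 ((le_sup_right :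
        (Dl G L 1 (⊥ : IntermediateField K Ω)).map (nsmulAddMonoidHom L.p) ≤ H) ⟨y, hy, rfl⟩)
  have h1 : z ∈ H := (QuotientAddGroup.eq_zero_iff z).1 (lam_zero hN hG hs hp hlm hz)
  obtain ⟨y, hy, w, ⟨z₁, hz₁, rfl⟩, rfl⟩ := AddSubgroup.mem_sup.1 h1
  obtain ⟨z₂, hz₂, r, hr, rfl⟩ := AddSubgroup.mem_sup.1 hy
  refine ⟨z₁, hz₁, z₂, hz₂, ?_⟩
  have e : z₂ + r + nsmulAddMonoidHom L.p z₁ - L.p • z₁ - z₂ = r := by
    change z₂ + r + L.p • z₁ - L.p • z₁ - z₂ = r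
    abel
  rw [e]
  exact hr

/-- Displacements are divisible by every prime. Proof: `l ≠ p`: `d1` with `u = 0`, `s = 1`; `l = p`: `dl_le` and `d1` with `u = 1`, `s = 1` (`1 < p - 1`). -/
theorem dl_div [L.Unr] (hN : 4 ≤ N) (hG : Gi G L n) (hs : Sm G L) (hp : n < L.p) {l : ℕ}
    (hl : l.Prime) {z : (Xh G).pt Ω →₀ ℤ} (hz : z ∈ Dl G L 1 (⊥ : IntermediateField K Ω)) :
    ∃ z' ∈ Dl G L 1 (⊥ : IntermediateField K Ω), z - l • z' ∈ (Xh G).ratEq K Ω := by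
  by_cases h : l = L.p
  · subst h
    obtain ⟨z₁, h₁, z₂, h₂, h3⟩ := dl_le hN hG hs hp hz
    have h2 := hG.two
    obtain ⟨z', h', h4⟩ := d1 hG hs hp (l := L.p) (u := 1) (s := 1) hl (by rw [pow_one])
      (by omega) z₂ h₂
    refine ⟨z₁ + z', add_mem h₁ h', ?_⟩
    have e : z - L.p • (z₁ + z') = (z - L.p • z₁ - z₂) + (z₂ - L.p • z') := by
      rw [nsmul_add]
      abel
    rw [e]
    exact add_mem h3 h4
  · have hnd : ¬ L.p ∣ l := fun hd =>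
      (hl.eq_one_or_self_of_dvd _ hd).elim L.pp.ne_one fun h1 => h h1.symm
    exact d1 hG hs hp (u := 0) (s := 1) hl (by rw [pow_zero]; exact L.nat_unit hnd)
      (by have := hl.two_le; omega) z hz

/-- **The local theorem.** Proof: `zr`, `dl_div`, induction on the prime factors of `m`, `dl_zr`. -/
theorem loc [L.Unr] (hN : 4 ≤ N) (hG : Gi G L n) (hs : Sm G L) (hp : n < L.p)
    {z : (Xh G).pt Ω →₀ ℤ} (hz : z ∈ (Xh G).cyc K Ω) (h : Zr G L z) {m : ℕ} (hm : m ≠ 0) :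
    ∃ z' ∈ (Xh G).cyc K Ω, Zr G L z' ∧ z - m • z' ∈ (Xh G).ratEq K Ω := by
  have key : ∀ m : ℕ, m ≠ 0 → ∀ d ∈ Dl G L 1 (⊥ : IntermediateField K Ω),
      ∃ d' ∈ Dl G L 1 (⊥ : IntermediateField K Ω), d - m • d' ∈ (Xh G).ratEq K Ω := by
    intro m
    induction m using Nat.recOnMul with
    | zero => exact fun h0 => absurd rfl h0
    | one => exact fun _ d hd => ⟨d, hd, by rw [one_nsmul, sub_self]; exact zero_mem _⟩
    | prime l hl => exact fun _ d hd => dl_div hN hG hs hp hl hd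
    | mul a b iha ihb =>
      intro hab d hd
      obtain ⟨d₁, h₁, e₁⟩ := iha (left_ne_zero_of_mul hab) d hd
      obtain ⟨d₂, h₂, e₂⟩ := ihb (right_ne_zero_of_mul hab) d₁ h₁
      refine ⟨d₂, h₂, ?_⟩
      have e : d - (a * b) • d₂ = (d - a • d₁) + a • (d₁ - b • d₂) := by
        rw [nsmul_sub, mul_nsmul']
        abel
      rw [e]
      exact add_mem e₁ (nsmul_mem e₂ a)
  obtain ⟨d, hd, r, hr, rfl⟩ := AddSubgroup.mem_sup.1 (zr hG hs hp hz h)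
  obtain ⟨d', hd', e⟩ := key m hm d hd
  obtain ⟨h1, h2⟩ := dl_zr hG hd'
  refine ⟨d', h1, h2, ?_⟩
  have e' : d + r - m • d' = (d - m • d') + r := by abel
  rw [e']
  exact add_mem e hr

end GM
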