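import Pool.Agent.Lib.MP_f80667_ag.Cv.EtC
import Pool.Agent.Lib.MP_f80667_ag.Cv.Ex
import Pool.Agent.Lib.MP_f80667_ag.Cv.HdA
import Pool.Agent.Lib.MP_f80667_ag.Gm.AlD

/-!
Hypersurfaces over local fields: definitions.

* `Hp G L`: homogeneous coordinates of an `L`-point of the hypersurface `G = 0`. `Xh G`: the hypersurface (`Vr`).
* `Co P x`: `x` are coordinates of the point `P`.
* `Nrh L G r`: the points have primitive integral coordinates which are congruent modulo the numbers of norm `≤ r`.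
* `Iv L M x`: the coordinates `x` are in the integers of `M`. `Arc L M a`: a vector of polynomials over the integers of `M`.
* `Gi L G n`: `G` is homogeneous of degree `n ≥ 2` with integral coefficients. `Sm L G`: smooth modulo the maximal ideal.
* `Gl L G x v`: the line `x + Y v` meets the special fibre in different points.
-/

open ZC BE PE CV IntermediateField

namespace GM

section var

variable {F : Type} [Field F] {N : ℕ}

/-- Homogeneous coordinates of a point of the hypersurface `G = 0`. -/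
structure Hp (G : MvPolynomial (Fin N) F) (L : Type) [Field L] [Algebra F L] where
  /-- the coordinates -/
  x : Fin N → L
  ne : x ≠ 0
  eq : MvPolynomial.aeval x G = 0

namespace Hp

variable {G : MvPolynomial (Fin N) F} {L : Type} [Field L] [Algebra F L]

/-- Coordinates of the same point. -/
def Rel (P Q : Hp G L) : Prop := ∃ c : L, c ≠ 0 ∧ Q.x = fun i => c * P.x i

theorem rel_refl (P : Hp G L) : P.Rel P :=
  ⟨1, one_ne_zero, funext fun i => (one_mul (P.x i)).symm⟩

theorem rel_symm {P Q : Hp G L} (h : P.Rel Q) : Q.Rel P := by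
  obtain ⟨c, hc, h1⟩ := h
  refine ⟨c⁻¹, inv_ne_zero hc, funext fun i => ?_⟩
  rw [h1]
  exact (inv_mul_cancel_left₀ hc _).symm

theorem rel_trans {P Q R : Hp G L} (h : P.Rel Q) (h' : Q.Rel R) : P.Rel R := by
  obtain ⟨c, hc, h1⟩ := h
  obtain ⟨c', hc', h1'⟩ := h'
  refine ⟨c' * c, mul_ne_zero hc' hc, funext fun i => ?_⟩
  rw [h1', h1]
  exact (mul_assoc _ _ _).symm

variable (G L) in
/-- The equality of points. -/
def sd : Setoid (Hp G L) where
  r := Rel
  iseqv := ⟨rel_refl, rel_symm, rel_trans⟩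

/-- The map induced by a homomorphism. -/
def mp {M : Type} [Field M] [Algebra F M] (σ : L →ₐ[F] M) (P : Hp G L) : Hp G M where
  x i := σ (P.x i)
  ne := by
    intro h
    apply P.ne
    funext i
    exact (map_eq_zero σ).1 (congrFun h i)
  eq := by
    have h := congrArg σ P.eq
    rw [map_zero, MvPolynomial.comp_aeval_apply] at h
    exact h

theorem mp_rel {M : Type} [Field M] [Algebra F M] (σ : L →ₐ[F] M) {P Q : Hp G L}
    (h : P.Rel Q) : (P.mp σ).Rel (Q.mp σ) := by
  obtain ⟨c, hc, h1⟩ := h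
  refine ⟨σ c, (map_ne_zero σ).2 hc, funext fun i => ?_⟩
  change σ (Q.x i) = σ c * σ (P.x i)
  rw [h1, map_mul]

end Hp

/-- The hypersurface `G = 0`. The reduction of a point at a place: all coordinates are integral and their residues are
the coordinates of the value. -/
def Xh (G : MvPolynomial (Fin N) F) : Vr F where
  pt L _ _ := Quotient (Hp.sd G L)
  map σ := Quotient.map (Hp.mp σ) fun _ _ h => Hp.mp_rel σ h
  red w x y := ∃ P Q, x = Quotient.mk _ P ∧ y = Quotient.mk _ Q ∧
    ∀ i, ∃ h : P.x i ∈ w.V, w.res ⟨P.x i, h⟩ = Q.x i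

/-- `x` are coordinates of the point `P`. -/
def Co {G : MvPolynomial (Fin N) F} {L : Type} [Field L] [Algebra F L] (P : (Xh G).pt L)
    (x : Fin N → L) : Prop := ∃ Q : Hp G L, P = Quotient.mk _ Q ∧ Q.x = x

/-- Proof: by representatives. -/
theorem fct (G : MvPolynomial (Fin N) F) : Fct (Xh G) where
  id L _ _ x := by
    induction x using Quotient.inductionOn with
    | h P => rfl
  comp L M N _ _ _ _ _ _ σ τ x := by
    induction x using Quotient.inductionOn with
    | h P => rfl
  gal K Ω _ _ _ _ _ _ M E _ _ _ _ _ γ w x y h := by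
    obtain ⟨P, Q, rfl, rfl, h1⟩ := h
    refine ⟨P, Q.mp (γ.restrictScalars F : Ω →ₐ[F] Ω), rfl, rfl, fun i => ?_⟩
    obtain ⟨h2, h3⟩ := h1 i
    refine ⟨h2, ?_⟩
    rw [temb_res]
    exact congrArg γ h3

instance (G : MvPolynomial (Fin N) F) : Hf (Xh G) := ⟨fct G⟩

end var

section loc

variable {F : Type} [Field F] {N : ℕ} (G : MvPolynomial (Fin N) F) {K Ω : Type} [Field K]
  [Field Ω] [Algebra K Ω] [Algebra F K] [Algebra F Ω] [IsScalarTower F K Ω] (L : Ld K Ω)

/-- The points have primitive integral coordinates which are congruent modulo the numbers of norm `≤ r`. -/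
def Nrh (r : ℝ) (P P' : (Xh G).pt Ω) : Prop :=
  ∃ x x' : Fin N → Ω, Co P x ∧ Co P' x' ∧ (∀ i, L.nm (x i) ≤ 1) ∧ (∀ i, L.nm (x' i) ≤ 1) ∧
    (∃ i, L.nm (x i) = 1) ∧ (∃ i, L.nm (x' i) = 1) ∧ ∀ i, L.nm (x i - x' i) ≤ r

/-- The coordinates are in the integers of `M`. -/
def Iv (M : IntermediateField K Ω) (x : Fin N → Ω) : Prop := ∀ i, x i ∈ M ∧ L.nm (x i) ≤ 1

/-- A vector of polynomials over the integers of `M`. -/
def Arc (M : IntermediateField K Ω) (a : Fin N → Polynomial Ω) : Prop :=
  ∀ i j, (a i).coeff j ∈ M ∧ L.nm ((a i).coeff j) ≤ 1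

/-- The point `a(c) + w v`. -/
def ac (a : Fin N → Polynomial Ω) (v : Fin N → Ω) (c w : Ω) : Fin N → Ω :=
  fun i => (a i).eval c + w * v i

/-- The derivative of `G` at `x` in the direction `v`. -/
noncomputable def dGo (x v : Fin N → Ω) : Ω :=
  ∑ i, MvPolynomial.aeval x (MvPolynomial.pderiv i G) * v i

/-- `G` is homogeneous of degree `n ≥ 2` with integral coefficients. -/
structure Gi (n : ℕ) : Prop where
  two : 2 ≤ n
  hom : G.IsHomogeneous n
  int : ∀ d, L.nm (algebraMap F Ω (G.coeff d)) ≤ 1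

/-- The hypersurface is smooth modulo the maximal ideal. -/
def Sm : Prop := ∃ s : ℕ, ∀ i, ∃ c : Fin N → MvPolynomial (Fin N) F,
  (∀ j d, L.nm (algebraMap F Ω ((c j).coeff d)) ≤ 1) ∧
    (MvPolynomial.X i : MvPolynomial (Fin N) F) ^ s = ∑ j, c j * MvPolynomial.pderiv j G

/-- The line `x + Y v` meets the special fibre in different points, none of them at infinity. -/
structure Gl (x v : Fin N → Ω) : Prop where
  lead : L.nm (MvPolynomial.aeval v G) = 1
  sep : ∀ w, L.nm w ≤ 1 → L.nm (MvPolynomial.aeval (fun i => x i + w * v i) G) < 1 →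
    L.nm (dGo G (fun i => x i + w * v i) v) = 1

/-- The displacements over `M` of level `s`: congruences modulo the numbers of norm `≤ nm p ^ s`. -/
noncomputable def Dl (s : ℕ) (M : IntermediateField K Ω) : AddSubgroup ((Xh G).pt Ω →₀ ℤ) :=
  Dsp L (Xh G) (Nrh G L (L.nm (L.p : Ω) ^ s)) M

open Classical in
/-- The reduction of the cycle is `0`. -/
def Zr (z : (Xh G).pt Ω →₀ ℤ) : Prop :=
  ∀ y : (Xh G).pt Ω, ∑ x ∈ z.support.filter (fun x => ∃ r < 1, Nrh G L r x y), z x = 0

end loc

end GM
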