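import Pool.Agent.Lib.MP_f80667_ag.Gm.GzC

/-! Orders at good points: approximations. -/

open ZC BE PE CV Polynomial IntermediateField IsLocalRing

namespace GM

variable {K Ω : Type} [Field K] [Field Ω] [Algebra K Ω] {L : Ld K Ω} {M : IntermediateField K Ω}
  {g : (OM L M)[X][X]} {P : Ω × Ω}

/-- **Approximations have the same order.** Proof: `ps` of the equation: `ps q * ps A = ps B * ps U + π ^ k ps W₂`, all coefficients are integral (`Gp.ps_le`), the constant coefficients of `ps q` and `ps U` have norm `1` (`Gp.cst`). Let `m` be the order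
of `ps B`. The coefficients of `ps q * ps A` of index `< m` have norm `≤ nm π ^ k` for all `k`, so they are `0`; for `nm π ^ k < nm (coeff m (ps B))` the coefficient of index `m` is not `0`. The order of `ps q` is `0` (`PowerSeries.order_mul`). -/
theorem Gp.od_app (h : Gp L M g P) {π : OM L M} (hπ : L.nm (om L M π) < 1)
    {q A B : (OM L M)[X][X]} (hq : L.nm (e2 L M P q) = 1) (hB : ps L M g P B ≠ 0)
    (hk : ∀ k : ℕ, ∃ U W₁ W₂ : (OM L M)[X][X], L.nm (e2 L M P U) = 1 ∧
      q * A = B * U + g * W₁ + C (C (π ^ k)) * W₂) :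
    ps L M g P A ≠ 0 ∧ od L M g P A = od L M g P B := by
  have hπ0 : 0 ≤ L.nm (om L M π) := L.nonneg _
  -- the equations for the power series
  have key : ∀ k : ℕ, ∃ U' W' : PowerSeries Ω, L.nm (PowerSeries.coeff 0 U') = 1 ∧
      (∀ i, L.nm (PowerSeries.coeff i W') ≤ 1) ∧
      ps L M g P q * ps L M g P A = ps L M g P B * U' + PowerSeries.C (om L M π ^ k) * W' := by
    intro k
    obtain ⟨U, W₁, W₂, hU, he⟩ := hk k
    refine ⟨ps L M g P U, ps L M g P W₂, ?_, fun i => h.ps_le W₂ i, ?_⟩
    · rw [PowerSeries.coeff_zero_eq_constantCoeff_apply, h.cst, hU]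
    · have h1 := congrArg (ps L M g P) he
      rw [map_mul, map_add, map_add, map_mul, map_mul, map_mul, h.ps_g, zero_mul, add_zero] at h1
      have h2 : ps L M g P (C (C (π ^ k))) = PowerSeries.C (om L M π ^ k) := by
        change pse P.1 _ (up₂ (om L M) (C (C (π ^ k)))) = _
        rw [up_CC, pse_C, map_pow]
      rw [h2] at h1
      exact h1
  obtain ⟨m, hm⟩ : ∃ m : ℕ, (ps L M g P B).order = m :=
    ⟨_, (ENat.natCast_toNat_eq_self.mpr (PowerSeries.order_eq_top.not.mpr hB)).symm⟩
  obtain ⟨hm1, hm2⟩ := PowerSeries.order_eq_nat.1 hm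
  have hCW : ∀ (k i : ℕ) (W' : PowerSeries Ω), (∀ i, L.nm (PowerSeries.coeff i W') ≤ 1) →
      L.nm (PowerSeries.coeff i (PowerSeries.C (om L M π ^ k) * W')) ≤ L.nm (om L M π) ^ k := by
    intro k i W' hW'
    rw [PowerSeries.coeff_C_mul, L.mul, L.pow]
    exact mul_le_of_le_one_right (pow_nonneg hπ0 k) (hW' i)
  have hlow : ∀ (U' : PowerSeries Ω) (i : ℕ), i < m →
      PowerSeries.coeff i (ps L M g P B * U') = 0 := by
    intro U' i hi
    rw [PowerSeries.coeff_mul]
    refine Finset.sum_eq_zero fun x hx => ?_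
    have h1 := Finset.HasAntidiagonal.mem_antidiagonal.1 hx
    rw [hm2 x.1 (by omega), zero_mul]
  have htop : ∀ U' : PowerSeries Ω, PowerSeries.coeff m (ps L M g P B * U') =
      PowerSeries.coeff m (ps L M g P B) * PowerSeries.coeff 0 U' := by
    intro U'
    rw [PowerSeries.coeff_mul, Finset.sum_eq_single (m, 0)]
    · rintro ⟨a, b⟩ hx hne
      have h1 : a + b = m := Finset.HasAntidiagonal.mem_antidiagonal.1 hx
      have h2 : a < m := by
        rcases Nat.lt_or_ge a m with h2 | h2
        · exact h2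
        · exact absurd (Prod.ext (show a = m by omega) (show b = 0 by omega)) hne
      rw [hm2 a h2, zero_mul]
    · intro h1
      exact absurd (Finset.HasAntidiagonal.mem_antidiagonal.2 (Nat.add_zero m)) h1
  have hQA : (ps L M g P q * ps L M g P A).order = m := by
    rw [PowerSeries.order_eq_nat]
    refine ⟨fun h0 => ?_, fun i hi => ?_⟩
    · obtain ⟨k, hk'⟩ := exists_pow_lt_of_lt_one (L.pos hm1) hπ
      obtain ⟨U', W', hU, hW, he⟩ := key k
      rw [he, map_add, htop] at h0
      have h1 : L.nm (PowerSeries.coeff m (ps L M g P B) * PowerSeries.coeff 0 U') ≤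
          L.nm (om L M π) ^ k := by
        rw [eq_neg_of_add_eq_zero_left h0, L.neg]
        exact hCW k m W' hW
      rw [L.mul, hU, mul_one] at h1
      exact absurd hk' (not_lt.2 h1)
    · by_contra h0
      obtain ⟨k, hk'⟩ := exists_pow_lt_of_lt_one (L.pos h0) hπ
      obtain ⟨U', W', hU, hW, he⟩ := key k
      rw [he, map_add, hlow U' i hi, zero_add] at hk'
      exact absurd hk' (not_lt.2 (hCW k i W' hW))
  have hq0 : (ps L M g P q).order = (0 : ℕ) := by
    rw [PowerSeries.order_eq_nat]
    refine ⟨?_, fun i hi => absurd hi (Nat.not_lt_zero i)⟩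
    rw [PowerSeries.coeff_zero_eq_constantCoeff_apply, h.cst]
    intro h0
    rw [h0, L.zero] at hq
    exact zero_ne_one hq
  rw [PowerSeries.order_mul, hq0, Nat.cast_zero, zero_add] at hQA
  refine ⟨?_, ?_⟩
  · intro h0
    rw [h0, PowerSeries.order_zero] at hQA
    exact ENat.top_ne_natCast m hQA
  · rw [od_eq, od_eq, hQA, hm]

end GM
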