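import Pool.Agent.Lib.MP_f80667_ag.Gm.GzCa
import Pool.Agent.Lib.MP_f80667_ag.Gm.GzE

/-! The orders of the function of the moving lemma. -/

open ZC BE PE CV Polynomial IntermediateField IsLocalRing

namespace GM

variable {K Ω : Type} [Field K] [Field Ω] [Algebra K Ω] {L : Ld K Ω} {M : IntermediateField K Ω}
  {g : (OM L M)[X][X]} {P : Ω × Ω}

theorem nm_sub_unit {x y : Ω} (hx : L.nm x = 1) (hy : L.nm y < 1) : L.nm (x - y) = 1 := by
  refine le_antisymm ((L.sub x y).trans (max_le hx.le hy.le)) ?_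
  by_contra hcon
  rw [not_le] at hcon
  have h1 : L.nm (x - y + y) ≤ max (L.nm (x - y)) (L.nm y) := L.add _ _
  rw [sub_add_cancel, hx] at h1
  exact absurd h1 (not_le.2 (max_lt hcon hy))

theorem nm_add_unit {x y : Ω} (hx : L.nm x = 1) (hy : L.nm y < 1) : L.nm (x + y) = 1 := by
  rw [← sub_neg_eq_add]
  exact nm_sub_unit hx (by rw [L.neg]; exact hy)

theorem nm_mul_lt {x y : Ω} (hx : L.nm x < 1) (hy : L.nm y ≤ 1) : L.nm (x * y) < 1 := by
  rw [L.mul]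
  exact mul_lt_one_of_nonneg_of_lt_one_left (L.nonneg _) hx hy

theorem nm_pow_lt {π : OM L M} (hπ : L.nm (om L M π) < 1) {r : ℕ} (hr : r ≠ 0) :
    L.nm (om L M (π ^ r)) < 1 := by
  rw [map_pow, L.pow]
  exact pow_lt_one₀ (L.nonneg _) hπ hr

theorem e2_sub (P : Ω × Ω) (A B : (OM L M)[X][X]) :
    e2 L M P (A - B) = e2 L M P A - e2 L M P B := map_sub (e2 L M P) A B

private theorem gla_r0 {R : Type} [CommRing R] {h Z F₂ p E d c U g W₁ k W₂ q F₁ A B : R}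
    (e : h = Z * (F₂ + p * (E * d)) * (1 + c * U) + g * W₁ + k * W₂) (e1 : F₁ = F₂ + p * d)
    (e2 : q * (1 - E) = g * A + F₁ * F₂ * B) :
    q * h = F₁ * ((q - p * (d * F₂ * B)) * (Z * (1 + c * U))) +
      g * (-(p * d * A) * (Z * (1 + c * U)) + q * W₁) + k * (q * W₂) := by
  have e3 : q * (F₂ + p * (E * d)) = F₁ * (q - p * (d * F₂ * B)) - g * (p * d * A) := by
    linear_combination (-p * d) * e2 - q * e1
  rw [e]
  linear_combination (Z * (1 + c * U)) * e3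

private theorem gla_r1 {R : Type} [CommRing R] {h Z F₂ p E d c U g W₁ k W₂ q F₁ A B : R}
    (e : h = Z * (F₂ + p * (E * d)) * (1 + c * U) + g * W₁ + k * W₂)
    (e2 : q * E = g * A + F₁ * F₂ * B) :
    q * h = F₂ * ((q + p * (d * F₁ * B)) * (Z * (1 + c * U))) +
      g * ((p * d * A) * (Z * (1 + c * U)) + q * W₁) + k * (q * W₂) := by
  have e3 : q * (F₂ + p * (E * d)) = F₂ * (q + p * (d * F₁ * B)) + g * (p * d * A) := by
    linear_combination (p * d) * e2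
  rw [e]
  linear_combination (Z * (1 + c * U)) * e3

private theorem gla_r2 {R : Type} [CommRing R] {h Z F₂ p E d c U g W₁ k W₂ : R}
    (e : h = Z * (F₂ + p * (E * d)) * (1 + c * U) + g * W₁ + k * W₂) :
    1 * h = Z * ((F₂ + p * (E * d)) * (1 + c * U)) + g * W₁ + k * W₂ := by
  rw [e]
  ring

section

variable {π : OM L M} {b f₁ f₂ δ W : (OM L M)[X]} {H T E q A B : (OM L M)[X][X]} {l s r : ℕ}

private theorem gla_e (h : Gp L M g P) (hr : L.nm (om L M π) < 1) (B : (OM L M)[X][X]) :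
    L.nm (e2 L M P (C (C π) * B)) < 1 := by
  rw [map_mul, e2_CC]
  exact nm_mul_lt hr (e2_le h.le₁ h.le₂ _)

private theorem gla_u (h : Gp L M g P) (hπ : L.nm (om L M π) < 1) (hs : s ≠ 0)
    (hb : L.nm (e2 L M P (C b)) = 1) (U : (OM L M)[X][X]) :
    L.nm (e2 L M P ((C b - C (C (π ^ s)) * T) ^ l * (1 + C (C π) * U))) = 1 := by
  rw [map_mul, map_pow, e2_sub, map_add, map_one, L.mul, L.pow,
    nm_sub_unit hb (gla_e h (nm_pow_lt hπ hs) T), one_pow, one_mul,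
    nm_add_unit L.one (gla_e h hπ U)]

/-- On the sheet. -/
theorem od_t0 (h : Gp L M g P) (hπ : L.nm (om L M π) < 1) (hs : s ≠ 0) (hr : r ≠ 0)
    (hh : ∀ k : ℕ, ∃ U W₁ W₂ : (OM L M)[X][X], C (b ^ l * f₂) - C (C (π ^ r)) * H =
      (C b - C (C (π ^ s)) * T) ^ l * (C f₂ + C (C (π ^ r)) * (E * C δ)) * (1 + C (C π) * U) +
        g * W₁ + C (C (π ^ k)) * W₂) (hf : f₁ = f₂ + C (π ^ r) * δ)
    (hf1 : ps L M g P (C f₁) ≠ 0) (hE : q * (1 - E) = g * A + C (f₁ * f₂) * B)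
    (hq : L.nm (e2 L M P q) = 1) (hb : L.nm (e2 L M P (C b)) = 1) :
    ps L M g P (C (b ^ l * f₂) - C (C (π ^ r)) * H) ≠ 0 ∧
      od L M g P (C (b ^ l * f₂) - C (C (π ^ r)) * H) = od L M g P (C f₁) := by
  refine h.od_app hπ hq hf1 fun k => ?_
  obtain ⟨U, W₁, W₂, e⟩ := hh k
  have e1 : (C f₁ : (OM L M)[X][X]) = C f₂ + C (C (π ^ r)) * C δ := by rw [hf, C_add, C_mul]
  have e2 : q * (1 - E) = g * A + C f₁ * C f₂ * B := by rw [hE, C_mul]
  have e3 := gla_r0 (R := (OM L M)[X][X]) e e1 e2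
  refine ⟨_, _, _, ?_, e3⟩
  rw [map_mul, L.mul, gla_u h hπ hs hb, mul_one, e2_sub]
  exact nm_sub_unit hq (gla_e h (nm_pow_lt hπ hr) _)

/-- Above the disc, off the sheet. -/
theorem od_t1 (h : Gp L M g P) (hπ : L.nm (om L M π) < 1) (hs : s ≠ 0) (hr : r ≠ 0)
    (hh : ∀ k : ℕ, ∃ U W₁ W₂ : (OM L M)[X][X], C (b ^ l * f₂) - C (C (π ^ r)) * H =
      (C b - C (C (π ^ s)) * T) ^ l * (C f₂ + C (C (π ^ r)) * (E * C δ)) * (1 + C (C π) * U) +
        g * W₁ + C (C (π ^ k)) * W₂)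
    (hf2 : ps L M g P (C f₂) ≠ 0) (hE : (X - C W) * E = g * A + C (f₁ * f₂) * B)
    (hq : L.nm (e2 L M P (X - C W)) = 1) (hb : L.nm (e2 L M P (C b)) = 1) :
    ps L M g P (C (b ^ l * f₂) - C (C (π ^ r)) * H) ≠ 0 ∧
      od L M g P (C (b ^ l * f₂) - C (C (π ^ r)) * H) = od L M g P (C f₂) := by
  refine h.od_app hπ hq hf2 fun k => ?_
  obtain ⟨U, W₁, W₂, e⟩ := hh k
  have e2 : (X - C W) * E = g * A + C f₁ * C f₂ * B := by rw [hE, C_mul]
  have e3 := gla_r1 (R := (OM L M)[X][X]) e e2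
  refine ⟨_, _, _, ?_, e3⟩
  rw [map_mul, L.mul, gla_u h hπ hs hb, mul_one, map_add]
  exact nm_add_unit hq (gla_e h (nm_pow_lt hπ hr) _)

/-- Above the bulk. -/
theorem od_tb (h : Gp L M g P) (hπ : L.nm (om L M π) < 1) (hr : r ≠ 0)
    (hh : ∀ k : ℕ, ∃ U W₁ W₂ : (OM L M)[X][X], C (b ^ l * f₂) - C (C (π ^ r)) * H =
      (C b - C (C (π ^ s)) * T) ^ l * (C f₂ + C (C (π ^ r)) * (E * C δ)) * (1 + C (C π) * U) +
        g * W₁ + C (C (π ^ k)) * W₂)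
    (hB : ps L M g P (C b - C (C (π ^ s)) * T) ≠ 0) (hf2 : L.nm (e2 L M P (C f₂)) = 1) :
    ps L M g P (C (b ^ l * f₂) - C (C (π ^ r)) * H) ≠ 0 ∧
      od L M g P (C (b ^ l * f₂) - C (C (π ^ r)) * H) =
        l * od L M g P (C b - C (C (π ^ s)) * T) := by
  rw [← od_pow hB]
  have h1 : L.nm (e2 L M P 1) = 1 := by rw [map_one, L.one]
  refine h.od_app hπ h1 (by rw [map_pow]; exact pow_ne_zero l hB) fun k => ?_
  obtain ⟨U, W₁, W₂, e⟩ := hh k
  have e3 := gla_r2 (R := (OM L M)[X][X]) e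
  refine ⟨_, _, _, ?_, e3⟩
  rw [map_mul, L.mul, map_add, nm_add_unit hf2 (gla_e h (nm_pow_lt hπ hr) _), map_add, map_one,
    nm_add_unit L.one (gla_e h hπ U), one_mul]

end

end GM
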