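import Pool.Agent.Lib.MP_f80667_ag.Gm.GzC

/-! Orders at good points: polynomials in `z`. -/

open ZC BE PE CV Polynomial IntermediateField IsLocalRing

namespace GM

variable {K Ω : Type} [Field K] [Field Ω] [Algebra K Ω] {L : Ld K Ω} {M : IntermediateField K Ω}
  {g : (OM L M)[X][X]} {P : Ω × Ω}

/-- **The order of a polynomial in `z` is the multiplicity of the root.** Proof: `f(c + t)` as a power series; `f = (X - c) ^ m q` in `Ω[X]`, `q(c) ≠ 0` (`Polynomial.exists_eq_pow_rootMultiplicity_mul_and_not_dvd`),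
`pse c W (C (X - C c)) = t`, the constant coefficient of `q(c + t)` is `q(c)`. No hypothesis on `P`. -/
theorem od_C {f : (OM L M)[X]} (hf : f ≠ 0) : ps L M g P (C f) ≠ 0 ∧
    od L M g P (C f) = (f.map (om L M)).rootMultiplicity P.1 := by
  obtain ⟨W, hW⟩ : ∃ W, W = hrt (up₂ (om L M) g) P := ⟨_, rfl⟩
  obtain ⟨F, hF⟩ : ∃ F, F = f.map (om L M) := ⟨_, rfl⟩
  have hF0 : F ≠ 0 := by
    rw [hF]
    exact (Polynomial.map_ne_zero_iff om_inj).2 hf
  have e0 : ps L M g P (C f) = pse P.1 W (C F) := by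
    rw [hW, hF, ← up_C]
    rfl
  obtain ⟨q, hq, hnd⟩ := F.exists_eq_pow_rootMultiplicity_mul_and_not_dvd hF0 P.1
  have hq0 : q.eval P.1 ≠ 0 := fun h => hnd (dvd_iff_isRoot.2 h)
  have e1 : pse P.1 W (C (X - C P.1)) = PowerSeries.X := by
    rw [C_sub, map_sub, pse_z, pse_C, add_sub_cancel_left]
  have e2 : PowerSeries.constantCoeff (pse P.1 W (C q)) = q.eval P.1 := by
    have key : ((PowerSeries.constantCoeff (R := Ω)).comp (pse P.1 W)).comp C =
        evalRingHom P.1 := by
      refine Polynomial.ringHom_ext (fun a => ?_) ?_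
      · change PowerSeries.constantCoeff (pse P.1 W (C (C a))) = evalRingHom P.1 (C a)
        rw [pse_C]
        simp
      · change PowerSeries.constantCoeff (pse P.1 W (C X)) = evalRingHom P.1 X
        rw [pse_z]
        simp
    exact congrArg (fun φ => φ q) key
  obtain ⟨m, hm⟩ : ∃ m, m = F.rootMultiplicity P.1 := ⟨_, rfl⟩
  have e3 : pse P.1 W (C F) = PowerSeries.X ^ m * pse P.1 W (C q) := by
    rw [hq, ← hm, C_mul, C_pow, map_mul, map_pow, e1]
  have e4 : PowerSeries.coeff m (pse P.1 W (C F)) = q.eval P.1 := by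
    rw [e3, PowerSeries.coeff_X_pow_mul', if_pos le_rfl, Nat.sub_self,
      PowerSeries.coeff_zero_eq_constantCoeff_apply, e2]
  have e5 : (pse P.1 W (C F)).order = m := by
    rw [PowerSeries.order_eq_nat]
    refine ⟨by rw [e4]; exact hq0, fun i hi => ?_⟩
    rw [e3, PowerSeries.coeff_X_pow_mul', if_neg (not_le.2 hi)]
  constructor
  · rw [e0]
    intro h
    rw [h, map_zero] at e4
    exact hq0 e4.symm
  · rw [od_eq, e0, e5, ← hF, ← hm]
    rfl

end GM
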