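import Pool.Agent.Lib.MP_f80667_ag.Gm.GzA

/-! The common zeros of the curve and of a function of unit type are integral. -/

open ZC BE PE CV Polynomial IntermediateField IsLocalRing

namespace GM

variable {K Ω : Type} [Field K] [Field Ω] [Algebra K Ω] {L : Ld K Ω} {M : IntermediateField K Ω}
  {g : (OM L M)[X][X]} {P : Ω × Ω}

private theorem gzF_eq (A : (OM L M)[X][X]) :
    e2 L M P A = A.eval₂ (eval₂RingHom (om L M) P.1) P.2 := by
  have key : e2 L M P = eval₂RingHom (eval₂RingHom (om L M) P.1) P.2 := by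
    refine Polynomial.ringHom_ext' (Polynomial.ringHom_ext' (RingHom.ext fun a => ?_) ?_) ?_
    · change e2 L M P (C (C a)) = eval₂ (eval₂RingHom (om L M) P.1) P.2 (C (C a))
      rw [e2_CC, eval₂_C, coe_eval₂RingHom, eval₂_C]
    · change e2 L M P (C X) = eval₂ (eval₂RingHom (om L M) P.1) P.2 (C X)
      rw [e2_z, eval₂_C, coe_eval₂RingHom, eval₂_X]
    · change e2 L M P X = eval₂ (eval₂RingHom (om L M) P.1) P.2 X
      rw [e2_Y, eval₂_X]
  exact congrArg (fun φ => φ A) key

private theorem gzF_le {c : Ω} {R : ℝ} (hc : L.nm c ≤ R) (hR : 1 ≤ R) (f : (OM L M)[X]) :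
    L.nm (f.eval₂ (om L M) c) ≤ R ^ f.natDegree := by
  rw [eval₂_eq_sum_range]
  refine L.sum_le _ _ (pow_nonneg (zero_le_one.trans hR) _) fun i hi => ?_
  rw [L.mul, L.pow]
  refine (mul_le_of_le_one_left (pow_nonneg (L.nonneg _) _) (om_le _)).trans ?_
  exact (pow_le_pow_left₀ (L.nonneg _) hc i).trans
    (pow_le_pow_right₀ hR (Nat.lt_succ_iff.1 (Finset.mem_range.1 hi)))

/-- Proof: `w` is a root of the monic polynomial `g(c, .)` with integral coefficients (`Lf.root_le`, see `Cv/OmP.lean` for a use; the polynomial is the image of `g` under evaluation of the inner variable; a finite sum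
`e2 P g = ∑ (g.coeff j)(c) w ^ j`). -/
theorem w_le (hg : g.Monic) (h1 : L.nm P.1 ≤ 1) (h0 : e2 L M P g = 0) : L.nm P.2 ≤ 1 := by
  refine L.root_le (f := g.map (eval₂RingHom (om L M) P.1)) (hg.map _) (fun i => ?_) ?_
  · rw [coeff_map]
    exact (gzF_le h1 le_rfl (g.coeff i)).trans (one_pow _).le
  · rw [eval_map, ← gzF_eq, h0]

/-- **Common zeros are integral.** Proof: let `R = nm c > 1`. If `nm w > R ^ ρ` then in `g(c, w) = w ^ n + ∑ j < n, g_j(c) w ^ j` all terms but the first have a norm `≤ R ^ ((n - j) ρ) nm w ^ j < nm w ^ n`: contradiction. So `nm w ≤ R ^ ρ`, and in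
`x(c, w) = c ^ D + ∑ A_j(c) w ^ j`, `natDegree A_j + j ρ < D`, all terms but the first have a norm `< R ^ D`: contradiction. So `nm c ≤ 1`; `w_le`. (Compare the valuations in `GpH.lean`.) -/
theorem int_ut {ρ n D : ℕ} {x : (OM L M)[X][X]} (hg : Mc ρ n g) (hx : Ut ρ D x)
    (h0 : e2 L M P g = 0) (h1 : e2 L M P x = 0) : L.nm P.1 ≤ 1 ∧ L.nm P.2 ≤ 1 := by
  have key : L.nm P.1 ≤ 1 := by
    by_contra hlt
    rw [not_le] at hlt
    obtain ⟨R, hR⟩ : ∃ R, R = L.nm P.1 := ⟨_, rfl⟩
    rw [← hR] at hlt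
    have hR0 : 0 < R := one_pos.trans hlt
    have hw : L.nm P.2 ≤ R ^ ρ := by
      by_contra hw
      rw [not_le] at hw
      obtain ⟨S, hS⟩ : ∃ S, S = R ^ ρ := ⟨_, rfl⟩
      obtain ⟨W, hW⟩ : ∃ W, W = L.nm P.2 := ⟨_, rfl⟩
      rw [← hS, ← hW] at hw
      have hS0 : 0 < S := hS ▸ pow_pos hR0 ρ
      have hW0 : 0 < W := hS0.trans hw
      have h2 := congrArg (fun A => eval₂ (eval₂RingHom (om L M) P.1) P.2 A) hg.monic.as_sum
      simp only [eval₂_add, eval₂_pow, eval₂_X, eval₂_finset_sum, eval₂_mul, eval₂_C] at h2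
      rw [← gzF_eq, h0, hg.deg] at h2
      rcases n with _ | n
      · rw [pow_zero, Finset.range_zero, Finset.sum_empty, add_zero] at h2
        exact zero_ne_one h2
      · have h3 := eq_neg_of_add_eq_zero_left h2.symm
        have h4 : L.nm (P.2 ^ (n + 1)) ≤ S * W ^ n := by
          rw [h3, L.neg]
          refine L.sum_le _ _ (mul_nonneg hS0.le (pow_nonneg hW0.le _)) fun i hi => ?_
          have hi' : i < n + 1 := Finset.mem_range.1 hi
          rw [L.mul, L.pow, ← hW]
          have h5 : L.nm (eval₂RingHom (om L M) P.1 (g.coeff i)) ≤ S ^ (n - i) * S := by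
            refine (gzF_le hR.symm.le hlt.le (g.coeff i)).trans ?_
            refine (pow_le_pow_right₀ hlt.le (hg.le i)).trans ?_
            rw [← pow_succ, hS, ← pow_mul, mul_comm ρ]
            refine pow_le_pow_right₀ hlt.le (Nat.mul_le_mul_right _ ?_)
            omega
          calc L.nm (eval₂RingHom (om L M) P.1 (g.coeff i)) * W ^ i
              ≤ (S ^ (n - i) * S) * W ^ i := mul_le_mul_of_nonneg_right h5 (pow_nonneg hW0.le _)
            _ ≤ (W ^ (n - i) * S) * W ^ i := by gcongr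
            _ = S * W ^ (n - i + i) := by rw [pow_add]; ring
            _ = S * W ^ n := by rw [Nat.sub_add_cancel (Nat.lt_succ_iff.1 hi')]
        rw [L.pow, ← hW, pow_succ, mul_comm] at h4
        exact absurd (le_of_mul_le_mul_right h4 (pow_pos hW0 n)) (not_le.2 hw)
    have h2 : e2 L M P (x - C (X ^ D)) = -P.1 ^ D := by
      refine (map_sub (e2 L M P) x (C (X ^ D))).trans ?_
      rw [h1, zero_sub, C_pow, map_pow, e2_z]
    have h3 : L.nm (e2 L M P (x - C (X ^ D))) = R ^ D := by
      rw [h2, L.neg, L.pow, ← hR]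
    rcases D with _ | D
    · have h4 : x - C (X ^ 0) = 0 := by
        ext1 j
        rw [coeff_zero]
        by_contra hj
        exact absurd (hx j hj) (Nat.not_lt_zero _)
      rw [h4, map_zero, L.zero, pow_zero] at h3
      exact zero_ne_one h3
    · have h4 : L.nm (e2 L M P (x - C (X ^ (D + 1)))) ≤ R ^ D := by
        rw [gzF_eq, eval₂_eq_sum_range]
        refine L.sum_le _ _ (pow_nonneg hR0.le _) fun j _ => ?_
        rcases eq_or_ne ((x - C (X ^ (D + 1))).coeff j) 0 with hj | hj
        · rw [hj, map_zero, zero_mul, L.zero]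
          exact pow_nonneg hR0.le _
        · have h5 := hx j hj
          rw [L.mul, L.pow]
          have h6 : L.nm P.2 ^ j ≤ R ^ (j * ρ) := by
            rw [mul_comm, pow_mul]
            exact pow_le_pow_left₀ (L.nonneg _) hw j
          refine (mul_le_mul (gzF_le hR.symm.le hlt.le _) h6 (pow_nonneg (L.nonneg _) _)
            (pow_nonneg hR0.le _)).trans ?_
          rw [← pow_add]
          exact pow_le_pow_right₀ hlt.le (Nat.lt_succ_iff.1 h5)
      rw [h3] at h4
      exact absurd (pow_lt_pow_right₀ hlt (Nat.lt_succ_self D)) (not_lt.2 h4)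
  exact ⟨key, w_le hg.monic key h0⟩

end GM
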