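import Pool.Agent.Lib.MP_f80667_ag.Gm.GzA
import Pool.Agent.Lib.MP_f80667_ag.Cv.Ex

/-! Sums over points and sums over roots. -/

open ZC BE PE CV Polynomial IntermediateField IsLocalRing

namespace GM

variable {K Ω : Type} [Field K] [Field Ω] [Algebra K Ω] {L : Ld K Ω} {M : IntermediateField K Ω}
  {g : (OM L M)[X][X]}

/-- Proof: `c` is a root of `f`, `w` a root of `g(c, .)`, which is monic. -/
theorem fin_zf (hg : g.Monic) {f : (OM L M)[X]} (hf : f ≠ 0) :
    {P : Ω × Ω | e2 L M P g = 0 ∧ e2 L M P (C f) = 0}.Finite := by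
  have hf' : f.map (om L M) ≠ 0 := (Polynomial.map_ne_zero_iff om_inj).2 hf
  have hG : ∀ c : Ω, ((up₂ (om L M) g).map (evalRingHom c)).Monic := by
    intro c
    refine Monic.map _ ?_
    unfold up₂
    rw [coe_mapRingHom]
    exact hg.map _
  refine Set.Finite.subset ((Polynomial.finite_setOfPred_isRoot hf').biUnion fun c _ =>
    (Polynomial.finite_setOfPred_isRoot (hG c).ne_zero).image (Prod.mk c)) ?_
  rintro ⟨c, w⟩ ⟨h1, h2⟩
  rw [e2_C, ← eval_map] at h2
  rw [e2_eq, ev₂_eq, ← map_evalRingHom_eval] at h1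
  rw [Set.mem_iUnion₂]
  exact ⟨c, h2, w, h1, rfl⟩

/-- Proof: the left side is the sum over `f.roots.toFinset` with the multiplicities (`Finset.sum_multiset_map_count`, `Polynomial.count_roots`); `c ↦ (c, w c)` is a bijection of `f.roots.toFinset` to the set of the `P ∈ Φ` with a root multiplicity `≠ 0`. -/
theorem rcy_pt {F : Type} [Field F] [Algebra F Ω] {V : Vr F} {f : Polynomial Ω} (hf : f ≠ 0)
    {P : Ω → V.pt Ω} {pt : Ω × Ω → V.pt Ω} {w : Ω → Ω} (hP : ∀ c, f.IsRoot c → P c = pt (c, w c))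
    {Φ : Finset (Ω × Ω)} (h1 : ∀ c, f.IsRoot c → (c, w c) ∈ Φ)
    (h2 : ∀ Q ∈ Φ, f.IsRoot Q.1 → Q.2 = w Q.1) :
    rcy P f = ∑ Q ∈ Φ, Finsupp.single (pt Q) (f.rootMultiplicity Q.1 : ℤ) := by
  classical
  rw [rcy, Finset.sum_multiset_map_count]
  have e : ∀ c ∈ f.roots.toFinset, f.roots.count c • Finsupp.single (P c) (1 : ℤ) =
      Finsupp.single (pt (c, w c)) (f.rootMultiplicity c : ℤ) := by
    intro c hc
    rw [hP c (isRoot_of_mem_roots (Multiset.mem_toFinset.1 hc)), count_roots,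
      Finsupp.smul_single, nsmul_eq_mul, mul_one]
  rw [Finset.sum_congr rfl e, ← Finset.sum_image (s := f.roots.toFinset) (g := fun c => (c, w c))
    (f := fun Q => Finsupp.single (pt Q) (f.rootMultiplicity Q.1 : ℤ))
    (fun x _ y _ hxy => congrArg Prod.fst hxy)]
  refine Finset.sum_subset ?_ ?_
  · intro Q hQ
    obtain ⟨c, hc, rfl⟩ := Finset.mem_image.1 hQ
    exact h1 c (isRoot_of_mem_roots (Multiset.mem_toFinset.1 hc))
  · intro Q hQ hQ'
    have h3 : ¬ f.IsRoot Q.1 := by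
      intro h
      refine hQ' (Finset.mem_image.2 ⟨Q.1, Multiset.mem_toFinset.2 ((mem_roots hf).2 h), ?_⟩)
      rw [← h2 Q hQ h]
    rw [rootMultiplicity_eq_zero h3, Nat.cast_zero, Finsupp.single_zero]

end GM
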