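import Pool.Agent.Lib.MP_f80667_ag.Gm.GzGe
import Pool.Agent.Lib.MP_f80667_ag.Gm.GzJ
import Pool.Agent.Lib.MP_f80667_ag.Cv.UxA

/-! Displaced zeros: the cycles. -/

open ZC BE PE CV Polynomial IntermediateField IsLocalRing

namespace GM

variable {F : Type} [Field F] {K Ω : Type} [Field K] [CharZero K] [Field Ω] [Algebra K Ω]
  [Algebra F K] [Algebra F Ω] [IsScalarTower F K Ω] [IsAlgClosure K Ω] {L : Ld K Ω}
  {M : IntermediateField K Ω} {g B : (OM L M)[X][X]} {b : (OM L M)[X]}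

omit [Field F] [CharZero K] [Algebra F K] [Algebra F Ω] [IsScalarTower F K Ω] [IsAlgClosure K Ω] in
private theorem gzH_act {P : Ω × Ω} (h : Zp L M g B P) {γ : Ω ≃ₐ[K] Ω}
    (hγ : γ ∈ M.fixingSubgroup) : Zp L M g B (γ P.1, γ P.2) := by
  refine ⟨?_, ?_, ?_, ?_⟩
  · change L.nm (γ P.1) ≤ 1
    rw [L.act]
    exact h.le₁
  · change L.nm (γ P.2) ≤ 1
    rw [L.act]
    exact h.le₂
  · rw [e2_act hγ, h.eq, map_zero]
  · rw [e2_act hγ, h.eq', map_zero]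

omit [Field F] [CharZero K] [Algebra F K] [Algebra F Ω] [IsScalarTower F K Ω] [IsAlgClosure K Ω] in
private theorem gzH_nn {P Q : Ω × Ω} (h : Nn L P Q) (γ : Ω ≃ₐ[K] Ω) :
    Nn L (γ P.1, γ P.2) (γ Q.1, γ Q.2) := by
  constructor
  · change L.nm (γ P.1 - γ Q.1) < 1
    rw [← map_sub, L.act]
    exact h.1
  · change L.nm (γ P.2 - γ Q.2) < 1
    rw [← map_sub, L.act]
    exact h.2

omit [Field F] [CharZero K] [Algebra F K] [Algebra F Ω] [IsScalarTower F K Ω] [IsAlgClosure K Ω] in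
private theorem gzH_sy {P Q : Ω × Ω} (h : Nn L P Q) : Nn L Q P :=
  ⟨by rw [L.sub_comm]; exact h.1, by rw [L.sub_comm]; exact h.2⟩

omit [Field F] [CharZero K] [Algebra F K] [Algebra F Ω] [IsScalarTower F K Ω] [IsAlgClosure K Ω] in
private theorem gzH_tr {P Q R : Ω × Ω} (h : Nn L P Q) (h' : Nn L Q R) : Nn L P R := by
  constructor
  · rw [← sub_add_sub_cancel P.1 Q.1 R.1]
    exact (L.add _ _).trans_lt (max_lt h.1 h'.1)
  · rw [← sub_add_sub_cancel P.2 Q.2 R.2]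
    exact (L.add _ _).trans_lt (max_lt h.2 h'.2)

omit [Field F] [CharZero K] [Algebra F K] [Algebra F Ω] [IsScalarTower F K Ω] [IsAlgClosure K Ω] in
private theorem gzH_b : Pb L M b (C b) := by
  refine ⟨0, 0, ?_, ?_⟩
  · rw [map_zero, L.zero]
    exact zero_lt_one
  · rw [mul_zero, add_zero]

/-- The action on the zeros. -/
private noncomputable def gzH_ma (L : Ld K Ω) (M : IntermediateField K Ω)
    (g B : (OM L M)[X][X]) : MulAction M.fixingSubgroup {P : Ω × Ω // Zp L M g B P} where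
  smul γ P := ⟨((γ : Ω ≃ₐ[K] Ω) P.1.1, (γ : Ω ≃ₐ[K] Ω) P.1.2), gzH_act P.2 γ.2⟩
  one_smul _ := rfl
  mul_smul _ _ _ := rfl

/-- **The cycle of the displaced zeros.** Proof: the set of the zeros of `g`, `b` is finite (`fin_zf`), so that of `g`, `B` by `tau_bij`. `CV.orb_dsp` (`Cv/UxA.lean`) for `I` = the zeros of `g`, `b` (a subtype) with the action `γ P = (γ c, γ w)` of `M.fixingSubgroup`,
`a P = pt (τ P)`, `b P = pt P`: `τ (γ P) = γ (τ P)` by `zp_uniq`; `N` = the product of the numbers of `zp_fix` (`Ld.ur_dvd`). -/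
theorem tau_sum [FiniteDimensional K M] {V : Vr F} {nr : V.pt Ω → V.pt Ω → Prop}
    (hs : Sp L M g b) (hB : Pb L M b B) {pt : Ω × Ω → V.pt Ω}
    (hact : ∀ γ ∈ M.fixingSubgroup, ∀ P, Zp L M g (C b) P ∨ Zp L M g B P →
      V.act γ (pt P) = pt (γ P.1, γ P.2))
    (hnr : ∀ P P', Zp L M g (C b) P → Zp L M g B P' → Nn L P P' → nr (pt P') (pt P)) :
    ∃ Φ Φ' : Finset (Ω × Ω), (∀ P, P ∈ Φ ↔ Zp L M g (C b) P) ∧ (∀ P, P ∈ Φ' ↔ Zp L M g B P) ∧
      (∑ P ∈ Φ', Finsupp.single (pt P) (1 : ℤ) - ∑ P ∈ Φ, Finsupp.single (pt P) 1) ∈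
        Dsp L V nr M := by
  classical
  have hfin : {P : Ω × Ω | Zp L M g (C b) P}.Finite :=
    (fin_zf hs.gm hs.bm.ne_zero).subset fun P hP => ⟨hP.eq, hP.eq'⟩
  obtain ⟨τ, hτ, hnn⟩ := tau_bij hs gzH_b hB
  have hmem : ∀ P, P ∈ hfin.toFinset ↔ Zp L M g (C b) P := fun P => hfin.mem_toFinset
  have hτB : ∀ P, Zp L M g (C b) P → Zp L M g B (τ P) := fun P hP => hτ.mapsTo hP
  refine ⟨hfin.toFinset, hfin.toFinset.image τ, hmem, fun P => ?_, ?_⟩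
  · rw [Finset.mem_image]
    constructor
    · rintro ⟨Q, hQ, rfl⟩
      exact hτB Q ((hmem Q).1 hQ)
    · intro hP
      obtain ⟨Q, hQ, hQP⟩ := hτ.surjOn hP
      exact ⟨Q, (hmem Q).2 hQ, hQP⟩
  · rw [Finset.sum_image fun P hP Q hQ h => hτ.injOn ((hmem P).1 hP) ((hmem Q).1 hQ) h,
      ← Finset.sum_sub_distrib, Finset.sum_subtype (p := fun P => Zp L M g (C b) P)
      (F := hfin.fintype) hfin.toFinset hmem]
    letI : Fintype {P : Ω × Ω // Zp L M g (C b) P} := hfin.fintype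
    letI : MulAction M.fixingSubgroup {P : Ω × Ω // Zp L M g (C b) P} := gzH_ma L M g (C b)
    choose N hN0 hN using fun P : {P : Ω × Ω // Zp L M g (C b) P} => zp_fix hs gzH_b P.2
    refine orb_dsp (L := L) (nr := nr) (fun P : {P : Ω × Ω // Zp L M g (C b) P} => pt (τ P.1))
      (fun P => pt P.1) (fun γ P => ?_) (fun γ P => ?_) (fun P => ?_)
      (N := ∏ P, N P) (Finset.prod_ne_zero_iff.2 fun P _ => hN0 P) (fun γ hγ P => ?_)
    · rw [hact γ γ.2 _ (Or.inr (hτB P.1 P.2))]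
      change pt (τ ((γ : Ω ≃ₐ[K] Ω) P.1.1, (γ : Ω ≃ₐ[K] Ω) P.1.2)) = _
      have h1 : Zp L M g (C b) ((γ : Ω ≃ₐ[K] Ω) P.1.1, (γ : Ω ≃ₐ[K] Ω) P.1.2) :=
        gzH_act P.2 γ.2
      rw [zp_uniq hs hB (hτB _ h1) (gzH_act (hτB P.1 P.2) γ.2)
        (gzH_tr (gzH_sy (hnn _ h1)) (gzH_nn (hnn P.1 P.2) γ))]
    · rw [hact γ γ.2 _ (Or.inl P.2)]
      rfl
    · exact hnr P.1 (τ P.1) P.2 (hτB P.1 P.2) (hnn P.1 P.2)
    · obtain ⟨h1, h2⟩ := hN P γ (fix_le (Ld.ur_dvd M (Finset.dvd_prod_of_mem N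
        (Finset.mem_univ P))) hγ)
      exact Subtype.ext (Prod.ext h1 h2)

end GM
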