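import Pool.Agent.Lib.MP_f80667_ag.Gm.GlA
import Pool.Agent.Lib.MP_f80667_ag.Gm.GzCb
import Pool.Agent.Lib.MP_f80667_ag.Gm.GzF
import Pool.Agent.Lib.MP_f80667_ag.Gm.GzH
import Pool.Agent.Lib.MP_f80667_ag.Gm.GpL

/-! The divisor of the function of the moving lemma. -/

open ZC BE PE CV Polynomial IntermediateField IsLocalRing

namespace GM

section defs

variable {K Ω : Type} [Field K] [Field Ω] [Algebra K Ω] (L : Ld K Ω) (M : IntermediateField K Ω)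

/-- An integral point of the curve where `δ` is a unit. -/
structure Gd (g : (OM L M)[X][X]) (δ : (OM L M)[X]) (P : Ω × Ω) : Prop where
  le₁ : L.nm P.1 ≤ 1
  le₂ : L.nm P.2 ≤ 1
  eq : e2 L M P g = 0
  unit : L.nm (e2 L M P (C δ)) = 1

/-- The function `h` of the moving lemma: its orders. -/
structure Lah (g : (OM L M)[X][X]) (δ b f₁ f₂ : (OM L M)[X]) (h B : (OM L M)[X][X]) (w₀ : OM L M)
    (l : ℕ) : Prop where
  gm : g.Monic
  bez : ∃ B₁ B₂ : (OM L M)[X][X], B₁ * g + B₂ * dY g = C δ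
  δ0 : L.nm (om L M (δ.coeff 0)) = 1
  l0 : l ≠ 0
  bm : b.Monic
  m₁ : f₁.Monic
  m₂ : f₂.Monic
  hb : ∀ c : Ω, L.nm c ≤ 1 → L.nm (b.eval₂ (om L M) c) < 1 → L.nm c = 1 ∧
    L.nm (δ.eval₂ (om L M) c) = 1 ∧ L.nm (b.derivative.eval₂ (om L M) c) = 1
  r₁ : ∀ c : Ω, f₁.eval₂ (om L M) c = 0 → L.nm c < 1
  r₂ : ∀ c : Ω, f₂.eval₂ (om L M) c = 0 → L.nm c < 1
  u₂ : ∀ c : Ω, L.nm c ≤ 1 → L.nm (f₂.eval₂ (om L M) c) < 1 → L.nm c < 1
  hB : Pb L M b B
  t0 : ∀ P, Gp L M g P → L.nm P.1 < 1 → L.nm (P.2 - om L M w₀) < 1 →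
    ps L M g P h ≠ 0 ∧ od L M g P h = od L M g P (C f₁)
  t1 : ∀ P, Gp L M g P → L.nm P.1 < 1 → L.nm (P.2 - om L M w₀) = 1 →
    ps L M g P h ≠ 0 ∧ od L M g P h = od L M g P (C f₂)
  tb : ∀ P, Gp L M g P → L.nm (e2 L M P (C b)) < 1 → ps L M g P B ≠ 0 →
    ps L M g P h ≠ 0 ∧ od L M g P h = l * od L M g P B
  cg : ∀ P : Ω × Ω, L.nm P.1 ≤ 1 → L.nm P.2 ≤ 1 → e2 L M P h = 0 →
    L.nm (b.eval₂ (om L M) P.1) < 1 ∨ L.nm (f₂.eval₂ (om L M) P.1) < 1

end defs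

variable {K Ω : Type} [Field K] [Field Ω] [Algebra K Ω] {L : Ld K Ω} {M : IntermediateField K Ω}
  {g h B : (OM L M)[X][X]} {δ b f₁ f₂ : (OM L M)[X]} {w₀ : OM L M} {l : ℕ} {P : Ω × Ω}

/-- Where `δ` is a unit and `g` is small, `g_Y` is a unit. -/
theorem gy_unit {B₁ B₂ : (OM L M)[X][X]} (hb : B₁ * g + B₂ * dY g = C δ) (h1 : L.nm P.1 ≤ 1)
    (h2 : L.nm P.2 ≤ 1) (h3 : L.nm (e2 L M P g) < 1) (h4 : L.nm (e2 L M P (C δ)) = 1) :
    L.nm (e2 L M P (dY g)) = 1 := by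
  have e1 := congrArg (e2 L M P) hb
  rw [map_add, map_mul, map_mul] at e1
  have h5 : L.nm (e2 L M P B₂ * e2 L M P (dY g)) = 1 := by
    rw [show e2 L M P B₂ * e2 L M P (dY g) = e2 L M P (C δ) - e2 L M P g * e2 L M P B₁ by
      rw [← e1]
      ring]
    exact nm_sub_unit h4 (nm_mul_lt h3 (e2_le h1 h2 _))
  rw [L.mul] at h5
  refine le_antisymm (e2_le h1 h2 _) ?_
  have h6 := e2_le (L := L) (M := M) h1 h2 B₂
  have h7 : L.nm (e2 L M P B₂) * L.nm (e2 L M P (dY g)) ≤ 1 * L.nm (e2 L M P (dY g)) :=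
    mul_le_mul_of_nonneg_right h6 (L.nonneg _)
  rw [h5, one_mul] at h7
  exact h7

/-- The value of a polynomial at an element of the open unit disc. -/
theorem ev_zero {c : Ω} (hc : L.nm c < 1) (f : (OM L M)[X]) :
    L.nm (f.eval₂ (om L M) c - om L M (f.coeff 0)) < 1 := by
  have e1 : f = X * f.divX + C (f.coeff 0) := (X_mul_divX_add f).symm
  have e2 : f.eval₂ (om L M) c = c * f.divX.eval₂ (om L M) c + om L M (f.coeff 0) := by
    conv_lhs => rw [e1]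
    rw [eval₂_add, eval₂_mul, eval₂_X, eval₂_C]
  rw [e2, add_sub_cancel_right]
  have h1 : L.nm (f.divX.eval₂ (om L M) c) ≤ 1 := by
    have h2 := e2_le (L := L) (M := M) (P := (c, 0)) hc.le (by rw [L.zero]; exact zero_le_one)
      (C f.divX)
    rwa [e2_C] at h2
  exact nm_mul_lt hc h1

theorem unit_zero {c : Ω} (hc : L.nm c < 1) {f : (OM L M)[X]}
    (hf : L.nm (om L M (f.coeff 0)) = 1) : L.nm (f.eval₂ (om L M) c) = 1 := by
  have h1 := nm_add_unit hf (ev_zero hc f)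
  rwa [add_sub_cancel] at h1

namespace Lah

variable (H : Lah L M g δ b f₁ f₂ h B w₀ l)

include H

theorem gp (h : Gd L M g δ P) : Gp L M g P := by
  obtain ⟨B₁, B₂, hb⟩ := H.bez
  exact ⟨h.le₁, h.le₂, h.eq, gy_unit hb h.le₁ h.le₂ (by rw [h.eq, L.zero]; exact zero_lt_one)
    h.unit⟩

theorem sp : Sp L M g b where
  gm := H.gm
  bm := H.bm
  gy P h1 h2 h3 h4 := by
    obtain ⟨B₁, B₂, hb⟩ := H.bez
    rw [e2_C] at h4
    exact gy_unit hb h1 h2 h3 (by rw [e2_C]; exact (H.hb _ h1 h4).2.1)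
  bz P h1 h2 := by
    rw [e2_C] at h2 ⊢
    exact (H.hb _ h1 h2).2.2

/-- Points above the open unit disc. -/
theorem gd_c (h1 : L.nm P.1 < 1) (h2 : e2 L M P g = 0) : Gd L M g δ P :=
  ⟨h1.le, w_le H.gm h1.le h2, h2, by rw [e2_C]; exact unit_zero h1 H.δ0⟩

/-- The bulk polynomial is a unit above the open unit disc. -/
theorem b_unit (h1 : L.nm P.1 < 1) : L.nm (e2 L M P (C b)) = 1 := by
  rw [e2_C]
  have h2 : L.nm (b.eval₂ (om L M) P.1) ≤ 1 := by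
    have h3 := e2_le (L := L) (M := M) (P := (P.1, 0)) h1.le (by rw [L.zero]; exact zero_le_one)
      (C b)
    rwa [e2_C] at h3
  by_contra hcon
  exact h1.ne (H.hb _ h1.le (lt_of_le_of_ne h2 hcon)).1

/-- Points where the bulk polynomial is small. -/
theorem gd_b (h1 : L.nm P.1 ≤ 1) (h2 : L.nm P.2 ≤ 1) (h3 : e2 L M P g = 0)
    (h4 : L.nm (e2 L M P (C b)) < 1) : Gd L M g δ P := by
  refine ⟨h1, h2, h3, ?_⟩
  rw [e2_C] at h4 ⊢
  exact (H.hb _ h1 h4).2.1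

theorem f_unit (h1 : L.nm P.1 ≤ 1) (h4 : L.nm (e2 L M P (C b)) < 1) :
    L.nm (e2 L M P (C f₂)) = 1 := by
  rw [e2_C] at h4 ⊢
  have h2 : L.nm (f₂.eval₂ (om L M) P.1) ≤ 1 := by
    have h3 := e2_le (L := L) (M := M) (P := (P.1, 0)) h1 (by rw [L.zero]; exact zero_le_one)
      (C f₂)
    rwa [e2_C] at h3
  by_contra hcon
  exact absurd (H.hb _ h1 h4).1 (H.u₂ _ h1 (lt_of_le_of_ne h2 hcon)).ne

theorem gd_zp {B' : (OM L M)[X][X]} (hB' : Pb L M b B') (h : Zp L M g B' P) : Gd L M g δ P :=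
  H.gd_b h.le₁ h.le₂ h.eq (zp_lt hB' h)

/-- The orders of the two functions where the bulk polynomial is small. -/
theorem od_b (hP : Gp L M g P) (h4 : L.nm (e2 L M P (C b)) < 1) [Decidable (Zp L M g B P)]
    [Decidable (Zp L M g (C b) P)] :
    ((od L M g P h : ℤ) - od L M g P (C (b ^ l * f₂))) =
      l * ((if Zp L M g B P then 1 else 0) - (if Zp L M g (C b) P then 1 else 0)) := by
  have hb0 : b ≠ 0 := H.bm.ne_zero
  have hf0 : f₂ ≠ 0 := H.m₂.ne_zero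
  have hPb : Pb L M b (C b) := ⟨0, 0, by rw [map_zero, L.zero]; exact zero_lt_one, by simp⟩
  have key : ∀ B' : (OM L M)[X][X], Pb L M b B' → ∀ [Decidable (Zp L M g B' P)],
      ps L M g P B' ≠ 0 ∧ (od L M g P B' : ℤ) = if Zp L M g B' P then 1 else 0 := by
    intro B' hB' _
    by_cases hz : Zp L M g B' P
    · rw [if_pos hz]
      obtain ⟨h1, h2⟩ := zp_od H.sp hB' hz
      exact ⟨h1, by rw [h2]; rfl⟩
    · rw [if_neg hz]
      obtain ⟨h1, h2⟩ := hP.od_zero (A := B') fun h5 => hz ⟨hP.le₁, hP.le₂, hP.eq, h5⟩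
      exact ⟨h1, by rw [h2]; rfl⟩
  obtain ⟨k1, k2⟩ := key B H.hB
  obtain ⟨k3, k4⟩ := key (C b) hPb
  obtain ⟨-, k5⟩ := H.tb P hP h4 k1
  have k6 := hP.od_zero (A := C f₂) fun h5 => by
    have h6 := H.f_unit hP.le₁ h4
    rw [h5, L.zero] at h6
    exact zero_ne_one h6
  have k7 : od L M g P (C (b ^ l * f₂)) = l * od L M g P (C b) := by
    rw [C_mul, C_pow, od_mul (by rw [map_pow]; exact pow_ne_zero _ k3) k6.1, od_pow k3, k6.2,
      add_zero]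
  rw [k5, k7, Nat.cast_mul, Nat.cast_mul, k2, k4]
  ring

/-- The orders of the two functions above the open unit disc. -/
theorem od_c (h1 : L.nm P.1 < 1) (h2 : e2 L M P g = 0) [Decidable (L.nm (P.2 - om L M w₀) < 1)] :
    ps L M g P h ≠ 0 ∧ ((od L M g P h : ℤ) - od L M g P (C (b ^ l * f₂))) =
      if L.nm (P.2 - om L M w₀) < 1 then
        ((f₁.map (om L M)).rootMultiplicity P.1 : ℤ) - (f₂.map (om L M)).rootMultiplicity P.1
      else 0 := by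
  have hd := H.gd_c h1 h2
  have hP := H.gp hd
  have hb0 : b ≠ 0 := H.bm.ne_zero
  have hf0 : f₂ ≠ 0 := H.m₂.ne_zero
  obtain ⟨j1, j2⟩ := od_C (g := g) (P := P) H.m₁.ne_zero
  obtain ⟨j3, j4⟩ := od_C (g := g) (P := P) hf0
  obtain ⟨k3, k4⟩ := hP.od_zero (A := C b) fun h5 => by
    have h6 := H.b_unit h1
    rw [h5, L.zero] at h6
    exact zero_ne_one h6
  have k7 : od L M g P (C (b ^ l * f₂)) = od L M g P (C f₂) := by
    rw [C_mul, C_pow, od_mul (by rw [map_pow]; exact pow_ne_zero _ k3) j3, od_pow k3, k4,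
      mul_zero, zero_add]
  by_cases hs : L.nm (P.2 - om L M w₀) < 1
  · obtain ⟨t1, t2⟩ := H.t0 P hP h1 hs
    refine ⟨t1, ?_⟩
    rw [if_pos hs, t2, k7, j2, j4]
  · have hs' : L.nm (P.2 - om L M w₀) = 1 :=
      le_antisymm ((L.sub _ _).trans (max_le hd.le₂ (om_le w₀))) (not_lt.1 hs)
    obtain ⟨t1, t2⟩ := H.t1 P hP h1 hs'
    refine ⟨t1, ?_⟩
    rw [if_neg hs, t2, k7, sub_self]

/-- The zeros of the function. -/
theorem zero_h (h1 : L.nm P.1 ≤ 1) (h2 : L.nm P.2 ≤ 1) (h3 : e2 L M P g = 0)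
    (h4 : e2 L M P h = 0) : Zp L M g B P ∨ e2 L M P (C (f₁ * f₂)) = 0 := by
  rcases H.cg P h1 h2 h4 with h5 | h5
  · left
    have h5' : L.nm (e2 L M P (C b)) < 1 := by rwa [e2_C]
    have hP := H.gp (H.gd_b h1 h2 h3 h5')
    refine ⟨h1, h2, h3, ?_⟩
    by_contra hcon
    obtain ⟨k1, k2⟩ := hP.od_zero hcon
    obtain ⟨k3, k4⟩ := H.tb P hP h5' k1
    have k5 := hP.od_pos k3 h4
    rw [k4, k2, mul_zero] at k5
    exact lt_irrefl _ k5
  · right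
    have h6 := H.u₂ _ h1 h5
    have hd := H.gd_c h6 h3
    have hP := H.gp hd
    have hroot : ∀ {f : (OM L M)[X]}, f ≠ 0 → 0 < od L M g P (C f) → e2 L M P (C f) = 0 := by
      intro f hf h7
      rw [(od_C hf).2, rootMultiplicity_pos ((Polynomial.map_ne_zero_iff om_inj).2 hf)] at h7
      rw [e2_C, ← eval_map]
      exact h7
    rw [C_mul, map_mul]
    by_cases hs : L.nm (P.2 - om L M w₀) < 1
    · obtain ⟨t1, t2⟩ := H.t0 P hP h6 hs
      have k5 := hP.od_pos t1 h4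
      rw [t2] at k5
      rw [hroot H.m₁.ne_zero k5, zero_mul]
    · have hs' : L.nm (P.2 - om L M w₀) = 1 :=
        le_antisymm ((L.sub _ _).trans (max_le hd.le₂ (om_le w₀))) (not_lt.1 hs)
      obtain ⟨t1, t2⟩ := H.t1 P hP h6 hs'
      have k5 := hP.od_pos t1 h4
      rw [t2] at k5
      rw [hroot H.m₂.ne_zero k5, mul_zero]

end Lah

end GM
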