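import Pool.Agent.Lib.MP_f80667_ag.Gm.GlB

/-! The moving lemma from the function `h`. -/

open ZC BE PE CV Polynomial IntermediateField IsLocalRing

namespace GM

section

variable {K Ω : Type} [Field K] [Field Ω] [Algebra K Ω] {L : Ld K Ω} {M : IntermediateField K Ω}

theorem up_cf {R R' : Type} [CommRing R] [CommRing R'] (f : R →+* R') (A : R[X][X]) (j : ℕ) :
    (up₂ f A).coeff j = (A.coeff j).map f := by
  simp [up₂]

theorem rm_up (A : (OM L M)[X][X]) : Rm M (up₂ (om L M) A) := by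
  intro i j
  rw [up_cf, coeff_map]
  exact om_mem _

theorem mc_up {ρ n : ℕ} {g : (OM L M)[X][X]} (hg : Mc ρ n g) : Mc ρ n (up₂ (om L M) g) where
  monic := hg.monic.map _
  deg := by
    change (g.map (mapRingHom (om L M))).natDegree = n
    rw [hg.monic.natDegree_map, hg.deg]
  le j := by
    rw [up_cf, natDegree_map_eq_of_injective om_inj]
    exact hg.le j

theorem wl_up {ρ D : ℕ} {A : (OM L M)[X][X]} (hA : Wl ρ D A) : Wl ρ D (up₂ (om L M) A) := by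
  intro j hj
  rw [up_cf] at hj ⊢
  rw [natDegree_map_eq_of_injective om_inj]
  refine hA j fun h => hj ?_
  rw [h, Polynomial.map_zero]

theorem ut_up {ρ D : ℕ} {A : (OM L M)[X][X]} (hA : Ut ρ D A) : Ut ρ D (up₂ (om L M) A) := by
  have h1 : up₂ (om L M) (A - C (X ^ D)) = up₂ (om L M) A - C (X ^ D) := by
    have h2 : up₂ (om L M) (A - C (X ^ D)) = up₂ (om L M) A - up₂ (om L M) (C (X ^ D)) :=
      map_sub (up₂ (om L M)) A (C (X ^ D))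
    rw [h2, up_C, Polynomial.map_pow, map_X]
  have h3 := wl_up (L := L) (M := M) hA
  rw [h1] at h3
  exact h3

end

variable {F : Type} [Field F] {K Ω : Type} [Field K] [CharZero K] [Field Ω] [Algebra K Ω]
  [Algebra F K] [Algebra F Ω] [IsScalarTower F K Ω] [IsAlgClosure K Ω] {L : Ld K Ω}
  {M : IntermediateField K Ω} {g h B : (OM L M)[X][X]} {δ b f₁ f₂ : (OM L M)[X]} {w₀ : OM L M}
  {l : ℕ}

private theorem glc_sum {V : Vr F} {Φ S S' : Finset (Ω × Ω)} (pt : Ω × Ω → V.pt Ω)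
    (hS : S ⊆ Φ) (hS' : S' ⊆ Φ) (l : ℕ) [DecidablePred (· ∈ S)] [DecidablePred (· ∈ S')] :
    ∑ P ∈ Φ, Finsupp.single (pt P) ((l : ℤ) * ((if P ∈ S' then 1 else 0) -
      (if P ∈ S then 1 else 0))) =
        l • (∑ P ∈ S', Finsupp.single (pt P) (1 : ℤ) - ∑ P ∈ S, Finsupp.single (pt P) 1) := by
  classical
  have h1 : ∀ T ⊆ Φ, ∀ [DecidablePred (· ∈ T)], ∑ P ∈ T, Finsupp.single (pt P) (1 : ℤ) =
      ∑ P ∈ Φ, Finsupp.single (pt P) (if P ∈ T then 1 else 0) := by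
    intro T hT _
    rw [← Finset.sum_filter_add_sum_filter_not Φ (· ∈ T)]
    have e1 : ∑ P ∈ Φ with P ∉ T, Finsupp.single (pt P) (if P ∈ T then (1 : ℤ) else 0) = 0 := by
      refine Finset.sum_eq_zero fun P hP => ?_
      rw [if_neg (Finset.mem_filter.1 hP).2, Finsupp.single_zero]
    rw [e1, add_zero]
    have e2 : Φ.filter (· ∈ T) = T := by
      ext P
      rw [Finset.mem_filter]
      exact ⟨fun h => h.2, fun h => ⟨hT h, h⟩⟩
    rw [e2]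
    refine Finset.sum_congr rfl fun P hP => ?_
    rw [if_pos hP]
  rw [h1 S' hS', h1 S hS, ← Finset.sum_sub_distrib, Finset.smul_sum]
  refine Finset.sum_congr rfl fun P _ => ?_
  rw [← Finsupp.single_sub, Finsupp.smul_single, nsmul_eq_mul]

/-- **The moving lemma.** -/
theorem Lah.main [FiniteDimensional K M] {V : Vr F} {nr : V.pt Ω → V.pt Ω → Prop}
    (H : Lah L M g δ b f₁ f₂ h B w₀ l) {ρ n D : ℕ} (hg : Mc ρ n g) (hh : Ut ρ D h)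
    (hy : Ut ρ D (C (b ^ l * f₂))) {pt : Ω × Ω → V.pt Ω}
    (hact : ∀ γ ∈ M.fixingSubgroup, ∀ P, Gd L M g δ P → V.act γ (pt P) = pt (γ P.1, γ P.2))
    (hpr : ∀ Φ : Finset (Ω × Ω), (∀ P ∈ Φ, Gd L M g δ P) → Gpm V M (up₂ (om L M) g) Φ pt)
    (hnr : ∀ P P', Zp L M g (C b) P → Zp L M g B P' → Nn L P P' → nr (pt P') (pt P))
    {P : Ω → V.pt Ω} (hP : ∀ c, L.nm c < 1 → ∃ w, L.nm (w - om L M w₀) < 1 ∧
      e2 L M (c, w) g = 0 ∧ P c = pt (c, w)) :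
    ∃ z ∈ Dsp L V nr M, rcy P (f₁.map (om L M)) - rcy P (f₂.map (om L M)) - l • z ∈
      V.ratEq M Ω := by
  classical
  have hPb : Pb L M b (C b) := ⟨0, 0, by rw [map_zero, L.zero]; exact zero_lt_one, by simp⟩
  obtain ⟨Φ₁, Φ₂, hΦ₁, hΦ₂, hΦ⟩ := tau_sum (V := V) (nr := nr) H.sp H.hB (pt := pt)
    (fun γ hγ Q hQ => hact γ hγ Q (hQ.elim (H.gd_zp hPb) (H.gd_zp H.hB))) hnr
  have hff : f₁ * f₂ ≠ 0 := (H.m₁.mul H.m₂).ne_zero
  obtain ⟨Φ₀, hΦ₀⟩ : ∃ Φ₀ : Finset (Ω × Ω), ∀ Q, Q ∈ Φ₀ ↔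
      e2 L M Q g = 0 ∧ e2 L M Q (C (f₁ * f₂)) = 0 :=
    ⟨(fin_zf H.gm hff).toFinset, fun Q => by rw [Set.Finite.mem_toFinset]; rfl⟩
  have hroot : ∀ Q : Ω × Ω, e2 L M Q (C (f₁ * f₂)) = 0 → L.nm Q.1 < 1 := by
    intro Q hQ
    rw [C_mul, map_mul, e2_C, e2_C] at hQ
    rcases mul_eq_zero.1 hQ with h1 | h1
    · exact H.r₁ _ h1
    · exact H.r₂ _ h1
  have hbu : ∀ Q ∈ Φ₁ ∪ Φ₂, L.nm (e2 L M Q (C b)) < 1 ∧ Gd L M g δ Q := by
    intro Q hQ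
    rcases Finset.mem_union.1 hQ with h1 | h1
    · have h2 := (hΦ₁ Q).1 h1
      exact ⟨zp_lt hPb h2, H.gd_zp hPb h2⟩
    · have h2 := (hΦ₂ Q).1 h1
      exact ⟨zp_lt H.hB h2, H.gd_zp H.hB h2⟩
  have hdisj : Disjoint Φ₀ (Φ₁ ∪ Φ₂) := by
    rw [Finset.disjoint_left]
    intro Q h1 h2
    obtain ⟨h3, h4⟩ := hbu Q h2
    rw [e2_C] at h3
    exact (hroot Q ((hΦ₀ Q).1 h1).2).ne (H.hb _ h4.le₁ h3).1
  have hgd : ∀ Q ∈ Φ₀ ∪ (Φ₁ ∪ Φ₂), Gd L M g δ Q := by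
    intro Q hQ
    rcases Finset.mem_union.1 hQ with h1 | h1
    · obtain ⟨h2, h3⟩ := (hΦ₀ Q).1 h1
      exact H.gd_c (hroot Q h3) h2
    · exact (hbu Q h1).2
  have hall : ∀ Q : Ω × Ω, ev₂ Q (up₂ (om L M) g) = 0 → ev₂ Q (up₂ (om L M) h) = 0 ∨
      ev₂ Q (up₂ (om L M) (C (b ^ l * f₂))) = 0 → Q ∈ Φ₀ ∪ (Φ₁ ∪ Φ₂) := by
    intro Q h1 h2
    have h1' : e2 L M Q g = 0 := h1
    have h2' : e2 L M Q h = 0 ∨ e2 L M Q (C (b ^ l * f₂)) = 0 := h2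
    obtain ⟨i1, i2⟩ : L.nm Q.1 ≤ 1 ∧ L.nm Q.2 ≤ 1 := by
      rcases h2' with h3 | h3
      · exact int_ut hg hh h1' h3
      · exact int_ut hg hy h1' h3
    rw [Finset.mem_union, Finset.mem_union]
    rcases h2' with h3 | h3
    · rcases H.zero_h i1 i2 h1' h3 with h4 | h4
      · exact Or.inr (Or.inr ((hΦ₂ Q).2 h4))
      · exact Or.inl ((hΦ₀ Q).2 ⟨h1', h4⟩)
    · rw [C_mul, map_mul, C_pow, map_pow] at h3
      rcases mul_eq_zero.1 h3 with h4 | h4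
      · exact Or.inr (Or.inl ((hΦ₁ Q).2 ⟨i1, i2, h1', eq_zero_of_pow_eq_zero h4⟩))
      · refine Or.inl ((hΦ₀ Q).2 ⟨h1', ?_⟩)
        rw [C_mul, map_mul, h4, mul_zero]
  have hpr1 := pr_m V (rm_up g) (rm_up h) (rm_up (C (b ^ l * f₂))) (mc_up hg) (ut_up hh)
    (ut_up hy) (Φ := Φ₀ ∪ (Φ₁ ∪ Φ₂)) (fun Q hQ => by
      have h1 := H.gp (hgd Q hQ)
      refine ⟨h1.eq, fun h2 => ?_⟩
      have h3 := h1.unit
      rw [e2_eq, up_dY, h2, L.zero] at h3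
      exact zero_ne_one h3) hall (hpr _ hgd)
  rw [Finset.sum_union hdisj] at hpr1
  -- the bulk
  have e1 : ∑ Q ∈ Φ₁ ∪ Φ₂, Finsupp.single (pt Q)
      ((odp (up₂ (om L M) g) Q (up₂ (om L M) h) : ℤ) -
        odp (up₂ (om L M) g) Q (up₂ (om L M) (C (b ^ l * f₂)))) =
      l • (∑ P ∈ Φ₂, Finsupp.single (pt P) (1 : ℤ) - ∑ P ∈ Φ₁, Finsupp.single (pt P) 1) := by
    rw [← glc_sum pt Finset.subset_union_left Finset.subset_union_right l]
    refine Finset.sum_congr rfl fun Q hQ => ?_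
    obtain ⟨h1, h2⟩ := hbu Q hQ
    have h3 := H.od_b (H.gp h2) h1
    have h4 : (if Zp L M g B Q then (1 : ℤ) else 0) = if Q ∈ Φ₂ then 1 else 0 :=
      if_congr (hΦ₂ Q).symm rfl rfl
    have h5 : (if Zp L M g (C b) Q then (1 : ℤ) else 0) = if Q ∈ Φ₁ then 1 else 0 :=
      if_congr (hΦ₁ Q).symm rfl rfl
    rw [h4, h5] at h3
    exact congrArg (Finsupp.single (pt Q)) h3
  -- the sheet
  let w : Ω → Ω := fun c => if hc : L.nm c < 1 then (hP c hc).choose else 0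
  have hw : ∀ c, L.nm c < 1 → L.nm (w c - om L M w₀) < 1 ∧ e2 L M (c, w c) g = 0 ∧
      P c = pt (c, w c) := by
    intro c hc
    have h1 : w c = (hP c hc).choose := dif_pos hc
    rw [h1]
    exact (hP c hc).choose_spec
  have hrc : ∀ f : (OM L M)[X], f.Monic → (∀ c, f.eval₂ (om L M) c = 0 → L.nm c < 1) → f ∣ f₁ * f₂ →
      rcy P (f.map (om L M)) = ∑ Q ∈ Φ₀ with L.nm (Q.2 - om L M w₀) < 1,
        Finsupp.single (pt Q) ((f.map (om L M)).rootMultiplicity Q.1 : ℤ) := by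
    intro f hf hr hd
    have hr' : ∀ c, (f.map (om L M)).IsRoot c → L.nm c < 1 := by
      intro c hc
      rw [IsRoot.def, eval_map] at hc
      exact hr c hc
    refine rcy_pt (w := w) (hf.map _).ne_zero (fun c hc => (hw c (hr' c hc)).2.2) (fun c hc => ?_)
      fun Q hQ hc => ?_
    · obtain ⟨h1, h2, h3⟩ := hw c (hr' c hc)
      rw [Finset.mem_filter, hΦ₀]
      refine ⟨⟨h2, ?_⟩, h1⟩
      obtain ⟨f', hf'⟩ := hd
      rw [hf', C_mul, map_mul, e2_C, ← eval_map]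
      rw [IsRoot.def] at hc
      rw [hc, zero_mul]
    · rw [Finset.mem_filter, hΦ₀] at hQ
      have h1 := hr' _ hc
      obtain ⟨h2, h3, h4⟩ := hw _ h1
      have h5 := H.gp (H.gd_c (P := Q) h1 hQ.1.1)
      refine sh_uniq (c := Q.1) h5 h3 (w_le (P := (Q.1, w Q.1)) H.gm h1.le h3) ?_
      rw [show Q.2 - w Q.1 = (Q.2 - om L M w₀) - (w Q.1 - om L M w₀) by ring]
      exact (L.sub _ _).trans_lt (max_lt hQ.2 h2)
  have e2' : ∑ Q ∈ Φ₀, Finsupp.single (pt Q)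
      ((odp (up₂ (om L M) g) Q (up₂ (om L M) h) : ℤ) -
        odp (up₂ (om L M) g) Q (up₂ (om L M) (C (b ^ l * f₂)))) =
      rcy P (f₁.map (om L M)) - rcy P (f₂.map (om L M)) := by
    rw [hrc f₁ H.m₁ H.r₁ (dvd_mul_right _ _), hrc f₂ H.m₂ H.r₂ (dvd_mul_left _ _),
      ← Finset.sum_sub_distrib, Finset.sum_filter]
    refine Finset.sum_congr rfl fun Q hQ => ?_
    obtain ⟨h1, h2⟩ := (hΦ₀ Q).1 hQ
    obtain ⟨-, h3⟩ := H.od_c (hroot Q h2) h1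
    have h4 : ((odp (up₂ (om L M) g) Q (up₂ (om L M) h) : ℤ) -
        odp (up₂ (om L M) g) Q (up₂ (om L M) (C (b ^ l * f₂)))) = _ := h3
    rw [h4]
    by_cases hs : L.nm (Q.2 - om L M w₀) < 1
    · rw [if_pos hs, if_pos hs, Finsupp.single_sub]
    · rw [if_neg hs, if_neg hs, Finsupp.single_zero]
  rw [e1, e2'] at hpr1
  refine ⟨-(∑ P ∈ Φ₂, Finsupp.single (pt P) (1 : ℤ) - ∑ P ∈ Φ₁, Finsupp.single (pt P) 1),
    neg_mem hΦ, ?_⟩
  rw [smul_neg, sub_neg_eq_add]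
  exact hpr1

end GM
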