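import Pool.Agent.Lib.MP_f80667_ag.Gm.GzA

/-! The bulk polynomial. -/

open ZC BE PE CV Polynomial IntermediateField IsLocalRing

namespace GM

/-- Proof: `b = (X ^ q - X) / gcd(X ^ q - X, d)` with `q = p t` large, `X ^ q - X` is separable (`galois_poly_separable`), so squarefree: `b` is prime to the gcd and to `d`. Normalize. -/
theorem exists_bk {k : Type} [Field k] {p : ℕ} [Fact p.Prime] [CharP k p] {d : k[X]} (hd : d ≠ 0)
    (D : ℕ) : ∃ b : k[X], b.Monic ∧ b.Separable ∧ IsCoprime b d ∧ D ≤ b.natDegree := by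
  have hp2 : 2 ≤ p := (Fact.out : p.Prime).two_le
  obtain ⟨q, hq⟩ : ∃ q, q = p * (D + d.natDegree + 1) := ⟨_, rfl⟩
  have hq1 : D + d.natDegree ≤ q := by
    rw [hq]
    nlinarith
  have hq2 : 1 < q := by
    rw [hq]
    nlinarith
  obtain ⟨f, hf⟩ : ∃ f : k[X], f = X ^ q - X := ⟨_, rfl⟩
  have hfs : f.Separable := by
    rw [hf]
    exact galois_poly_separable p q (by rw [hq]; exact dvd_mul_right _ _)
  have hfd : f.natDegree = q := by
    rw [hf]
    exact FiniteField.X_pow_card_sub_X_natDegree_eq k hq2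
  have hf0 : f ≠ 0 := by
    intro h
    rw [h, natDegree_zero] at hfd
    omega
  obtain ⟨g, hgf, hgd, hgu⟩ : ∃ g : k[X], g ∣ f ∧ g ∣ d ∧ ∀ z, z ∣ f → z ∣ d → z ∣ g := by
    classical
    exact ⟨EuclideanDomain.gcd f d, EuclideanDomain.gcd_dvd_left f d,
      EuclideanDomain.gcd_dvd_right f d, fun z h1 h2 => EuclideanDomain.dvd_gcd h1 h2⟩
  obtain ⟨b, hb⟩ := hgf
  have hb0 : b ≠ 0 := by
    rintro rfl
    rw [mul_zero] at hb
    exact hf0 hb
  have hg0 : g ≠ 0 := by
    rintro h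
    rw [h, zero_mul] at hb
    exact hf0 hb
  have hbs : b.Separable := hfs.of_dvd (by rw [hb]; exact dvd_mul_left _ _)
  have hgb : IsCoprime g b := by
    rw [hb] at hfs
    exact hfs.isCoprime
  have hbd : IsCoprime b d := by
    refine IsRelPrime.isCoprime fun z hz hz' => ?_
    have hzg : z ∣ g := hgu z (hz.trans (by rw [hb]; exact dvd_mul_left _ _)) hz'
    exact hgb.isUnit_of_dvd' hzg hz
  have hdeg : D ≤ b.natDegree := by
    have h1 : f.natDegree = g.natDegree + b.natDegree := by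
      rw [hb, natDegree_mul hg0 hb0]
    have h2 := natDegree_le_of_dvd hgd hd
    omega
  have hu : IsUnit (C (leadingCoeff b)⁻¹ : k[X]) :=
    isUnit_C.2 (isUnit_iff_ne_zero.2 (inv_ne_zero (leadingCoeff_ne_zero.2 hb0)))
  refine ⟨b * C (leadingCoeff b)⁻¹, monic_mul_leadingCoeff_inv hb0, ?_,
    (isCoprime_mul_unit_right_left hu b d).2 hbd, ?_⟩
  · exact hbs.of_dvd (hu.mul_right_dvd.2 dvd_rfl)
  · rw [natDegree_mul_leadingCoeff_inv b hb0]
    exact hdeg

variable {K Ω : Type} [Field K] [CharZero K] [Field Ω] [Algebra K Ω] {L : Ld K Ω}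
  {M : IntermediateField K Ω}

private theorem gzI_sum {ι : Type} (s : Finset ι) (f : ι → Ω) (h : ∀ i ∈ s, L.nm (f i) < 1) :
    L.nm (∑ i ∈ s, f i) < 1 := by
  classical
  induction s using Finset.induction_on with
  | empty =>
    rw [Finset.sum_empty, (L.zero_iff 0).2 rfl]
    exact zero_lt_one
  | insert a s ha ih =>
    rw [Finset.sum_insert ha]
    exact (L.add _ _).trans_lt (max_lt (h a (Finset.mem_insert_self _ _))
      (ih fun i hi => h i (Finset.mem_insert_of_mem hi)))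

private theorem gzI_le (f : (OM L M)[X]) {c : Ω} (hc : L.nm c ≤ 1) :
    L.nm (f.eval₂ (om L M) c) ≤ 1 := by
  have h := e2_le (L := L) (M := M) (P := (c, 0)) hc
    (by rw [(L.zero_iff 0).2 rfl]; exact zero_le_one) (C f)
  rwa [e2_C] at h

/-- The values of polynomials with coefficients in the maximal ideal. -/
private theorem gzI_lt (f : (OM L M)[X]) (hf : f.map (residue (OM L M)) = 0) {c : Ω}
    (hc : L.nm c ≤ 1) : L.nm (f.eval₂ (om L M) c) < 1 := by
  rw [eval₂_eq_sum_range]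
  refine gzI_sum _ _ fun i _ => ?_
  have h1 : residue (OM L M) (f.coeff i) = 0 := by
    rw [← coeff_map, hf, coeff_zero]
  have h2 : L.nm (om L M (f.coeff i)) < 1 := om_lt.2 ((residue_eq_zero_iff _).1 h1)
  rw [L.mul, L.pow]
  exact (mul_le_of_le_one_right (L.nonneg _) (pow_le_one₀ (L.nonneg _) hc)).trans_lt h2

/-- If the reductions of `b` and `e` are coprime, a small value of `b` makes the value of `e` a unit. -/
private theorem gzI_cop {b e : (OM L M)[X]}
    (h : IsCoprime (b.map (residue (OM L M))) (e.map (residue (OM L M)))) {c : Ω}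
    (hc : L.nm c ≤ 1) (hb : L.nm (b.eval₂ (om L M) c) < 1) : L.nm (e.eval₂ (om L M) c) = 1 := by
  obtain ⟨u₀, v₀, h0⟩ := h
  obtain ⟨u, rfl⟩ := Polynomial.map_surjective (residue (OM L M)) residue_surjective u₀
  obtain ⟨v, rfl⟩ := Polynomial.map_surjective (residue (OM L M)) residue_surjective v₀
  have h1 : (u * b + v * e - 1).map (residue (OM L M)) = 0 := by
    rw [Polynomial.map_sub, Polynomial.map_add, Polynomial.map_mul, Polynomial.map_mul,
      Polynomial.map_one, h0, sub_self]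
  have h2 := gzI_lt _ h1 hc
  rw [eval₂_sub, eval₂_add, eval₂_mul, eval₂_mul, eval₂_one] at h2
  obtain ⟨B, hB⟩ : ∃ B, B = b.eval₂ (om L M) c := ⟨_, rfl⟩
  obtain ⟨E, hE⟩ : ∃ E, E = e.eval₂ (om L M) c := ⟨_, rfl⟩
  obtain ⟨U, hU⟩ : ∃ U, U = u.eval₂ (om L M) c := ⟨_, rfl⟩
  obtain ⟨V, hV⟩ : ∃ V, V = v.eval₂ (om L M) c := ⟨_, rfl⟩
  have hU1 : L.nm U ≤ 1 := by
    rw [hU]
    exact gzI_le u hc
  have hV1 : L.nm V ≤ 1 := by
    rw [hV]
    exact gzI_le v hc
  have hE1 : L.nm E ≤ 1 := by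
    rw [hE]
    exact gzI_le e hc
  rw [← hB] at hb h2
  rw [← hE] at h2 ⊢
  rw [← hU, ← hV] at h2
  have h3 : L.nm (-(U * B)) < 1 := by
    rw [L.neg, L.mul]
    exact (mul_le_of_le_one_left (L.nonneg _) hU1).trans_lt hb
  have h4 : L.nm (V * E) = 1 := by
    have h5 : V * E = 1 + ((U * B + V * E - 1) + -(U * B)) := by ring
    rw [h5]
    exact L.one_add ((L.add _ _).trans_lt (max_lt h2 h3))
  rw [L.mul] at h4
  by_contra hne
  have h6 : L.nm E < 1 := lt_of_le_of_ne hE1 hne
  exact absurd h4 (mul_lt_one_of_nonneg_of_lt_one_right hV1 (L.nonneg _) h6).ne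

/-- **The bulk polynomial.** Proof: `exists_bk` for the residue field of `OM L M` (its characteristic is `L.p`: `nm p < 1`, compare `Ld.char_κ`), `d = X δ` modulo the maximal ideal, not `0` because `δ(0)` is a unit; a monic lift `b` (`Polynomial.lifts_and_natDegree_eq_and_monic`).
`u b + v b' = 1`, `u b + v X δ = 1` lift to equations modulo the maximal ideal; evaluate at `c` (integral: values at `c` of polynomials with coefficients in the maximal ideal have norm `< 1`). -/
theorem exists_blk [FiniteDimensional K M] {δ : (OM L M)[X]} (hδ : L.nm (om L M (δ.coeff 0)) = 1)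
    (D : ℕ) : ∃ b : (OM L M)[X], b.Monic ∧ D ≤ b.natDegree ∧ ∀ c : Ω, L.nm c ≤ 1 →
      L.nm (b.eval₂ (om L M) c) < 1 → L.nm c = 1 ∧ L.nm (δ.eval₂ (om L M) c) = 1 ∧
        L.nm (b.derivative.eval₂ (om L M) c) = 1 := by
  have hfp : Fact L.p.Prime := ⟨L.pp⟩
  have hchar : CharP (ResidueField (OM L M)) L.p := by
    rw [CharP.charP_iff_prime_eq_zero L.pp]
    have h1 : residue (OM L M) ((L.p : ℕ) : OM L M) = 0 := by
      rw [residue_eq_zero_iff, ← om_lt, map_natCast]
      exact L.lt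
    rwa [map_natCast] at h1
  have hd : ((X * δ).map (residue (OM L M))) ≠ 0 := by
    intro h
    have h1 : residue (OM L M) (δ.coeff 0) = 0 := by
      have h2 : ((X * δ).map (residue (OM L M))).coeff 1 = 0 := by
        rw [h, coeff_zero]
      rwa [coeff_map, coeff_X_mul] at h2
    have h2 : L.nm (om L M (δ.coeff 0)) < 1 := om_lt.2 ((residue_eq_zero_iff _).1 h1)
    exact absurd hδ h2.ne
  obtain ⟨b₀, hm, hs, hcop, hD⟩ := exists_bk (p := L.p) hd D
  obtain ⟨q₀, hq₀⟩ := Polynomial.map_surjective (residue (OM L M)) residue_surjective b₀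
  obtain ⟨b, hb, hdeg, hbm⟩ := Polynomial.lifts_and_natDegree_eq_and_monic
    ((Polynomial.mem_lifts b₀).2 ⟨q₀, hq₀⟩) hm
  refine ⟨b, hbm, by rw [hdeg]; exact hD, fun c hc hlt => ?_⟩
  have h1 := gzI_cop (b := b) (e := X * δ) (by rw [hb]; exact hcop) hc hlt
  have h2 := gzI_cop (b := b) (e := b.derivative)
    (by rw [← derivative_map, hb]; exact hs) hc hlt
  rw [eval₂_mul, eval₂_X, L.mul] at h1
  have h3 := gzI_le δ hc
  refine ⟨?_, ?_, h2⟩
  · by_contra hne
    exact absurd h1 (mul_lt_one_of_nonneg_of_lt_one_left (L.nonneg _)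
      (lt_of_le_of_ne hc hne) h3).ne
  · by_contra hne
    exact absurd h1 (mul_lt_one_of_nonneg_of_lt_one_right hc (L.nonneg _)
      (lt_of_le_of_ne h3 hne)).ne

end GM
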