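import Pool.Agent.Lib.MP_f80667_ag.Gm.GlC
import Pool.Agent.Lib.MP_f80667_ag.Gm.GzI
import Pool.Agent.Lib.MP_f80667_ag.Gm.GaA
import Pool.Agent.Lib.MP_f80667_ag.Gm.GaC
import Pool.Agent.Lib.MP_f80667_ag.Cv.OmP

/-! The function `h` of the moving lemma exists. -/

open ZC BE PE CV Polynomial IntermediateField IsLocalRing

namespace GM

private theorem gld_neg {R : Type} [CommRing R] (a x T : R) : a - x * T = a + x * -T := by ring

section wt

variable {R : Type} [CommRing R] {ρ D : ℕ}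

theorem wl_sub {A B : R[X][X]} (hA : Wl ρ D A) (hB : Wl ρ D B) : Wl ρ D (A - B) := by
  intro j hj
  rw [coeff_sub] at hj ⊢
  by_cases h1 : A.coeff j = 0
  · rw [h1, zero_sub] at hj ⊢
    rw [natDegree_neg]
    exact hB j (neg_ne_zero.1 hj)
  · by_cases h2 : B.coeff j = 0
    · rw [h2, sub_zero]
      exact hA j h1
    · have h3 := natDegree_sub_le (A.coeff j) (B.coeff j)
      have h4 := hA j h1
      have h5 := hB j h2
      rcases max_cases (A.coeff j).natDegree (B.coeff j).natDegree with h6 | h6 <;> omega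

theorem wl_CC {A : R[X][X]} (hA : Wl ρ D A) (a : R) : Wl ρ D (C (C a) * A) := by
  intro j hj
  rw [coeff_C_mul] at hj ⊢
  have h1 : A.coeff j ≠ 0 := fun h => hj (by rw [h, mul_zero])
  have h2 := hA j h1
  have h3 := natDegree_C_mul_le a (A.coeff j)
  omega

theorem ut_C [Nontrivial R] {f : R[X]} (hf : f.Monic) : Ut ρ f.natDegree (C f) := by
  intro j hj
  have e : (C f - C (X ^ f.natDegree) : R[X][X]) = C (f - X ^ f.natDegree) := (C_sub).symm
  rw [e] at hj ⊢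
  rw [coeff_C] at hj ⊢
  by_cases h0 : j = 0
  · rw [if_pos h0] at hj ⊢
    rw [h0, zero_mul, add_zero]
    have hd : f.natDegree ≠ 0 := by
      intro hd
      rw [hd, pow_zero, hf.natDegree_eq_zero.1 hd, sub_self] at hj
      exact hj rfl
    refine natDegree_lt_iff_degree_lt hj |>.2 ?_
    refine (degree_sub_lt_left ?_ hf.ne_zero ?_).trans_le ?_
    · rw [degree_X_pow, degree_eq_natDegree hf.ne_zero]
    · rw [hf.leadingCoeff, leadingCoeff_X_pow]
    · rw [degree_eq_natDegree hf.ne_zero]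
  · rw [if_neg h0] at hj
    exact absurd rfl hj

theorem ut_sub {x : R[X][X]} {A : R[X][X]} (hx : Ut ρ D x) (hA : Wl ρ D A) (a : R) :
    Ut ρ D (x - C (C a) * A) := by
  have e : x - C (C a) * A - C (X ^ D) = (x - C (X ^ D)) - C (C a) * A := by ring
  have h1 := wl_sub hx (wl_CC hA a)
  rw [← e] at h1
  exact h1

end wt

variable {K Ω : Type} [Field K] [Field Ω] [Algebra K Ω] {L : Ld K Ω} {M : IntermediateField K Ω}
  {g : (OM L M)[X][X]} {δ f₁ f₂ δ' : (OM L M)[X]} {w₀ π ε : OM L M} {l u s ρ n : ℕ}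

/-- Values at points over `M`. -/
theorem e2_om (c w : OM L M) (A : (OM L M)[X][X]) :
    e2 L M (om L M c, om L M w) A = om L M (ev₂ (c, w) A) := by
  have key : e2 L M (om L M c, om L M w) = (om L M).comp (ev₂ (c, w)) := by
    refine Polynomial.ringHom_ext' (Polynomial.ringHom_ext' (RingHom.ext fun a => ?_) ?_) ?_
    · change e2 L M _ (C (C a)) = om L M (ev₂ (c, w) (C (C a)))
      rw [e2_CC]
      simp [ev₂]
    · change e2 L M _ (C X) = om L M (ev₂ (c, w) (C X))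
      rw [e2_z]
      simp [ev₂]
    · change e2 L M _ X = om L M (ev₂ (c, w) X)
      rw [e2_Y]
      simp [ev₂]
  exact congrArg (fun φ => φ A) key

theorem u_of {f : (OM L M)[X]} (hm : f.Monic) (hf : ∀ i < f.natDegree, π ∣ f.coeff i)
    (hπ : L.nm (om L M π) < 1) {c : Ω} (h1 : L.nm c ≤ 1)
    (h2 : L.nm (f.eval₂ (om L M) c) < 1) : L.nm c < 1 := by
  obtain ⟨h, hh⟩ := om_xp hm hf
  by_contra hcon
  have h3 : L.nm c = 1 := le_antisymm h1 (not_lt.1 hcon)
  have e1 : f.eval₂ (om L M) c = c ^ f.natDegree + om L M π * h.eval₂ (om L M) c := by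
    conv_lhs => rw [hh]
    rw [eval₂_add, eval₂_X_pow, eval₂_mul, eval₂_C]
  have h4 : L.nm (h.eval₂ (om L M) c) ≤ 1 := by
    have h5 := e2_le (L := L) (M := M) (P := (c, 0)) h1 (by rw [L.zero]; exact zero_le_one) (C h)
    rwa [e2_C] at h5
  have h5 : L.nm (f.eval₂ (om L M) c) = 1 := by
    rw [e1]
    exact nm_add_unit (by rw [L.pow, h3, one_pow]) (nm_mul_lt hπ h4)
  exact h2.ne h5

/-- **The function of the moving lemma.** -/
theorem exists_lah [CharZero K] [FiniteDimensional K M] (hπ : Irreducible π) (hg : Mc ρ n g)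
    (hbez : ∃ B₁ B₂ : (OM L M)[X][X], B₁ * g + B₂ * dY g = C δ)
    (hδ : L.nm (om L M (δ.coeff 0)) = 1) (hw : L.nm (om L M (ev₂ (0, w₀) g)) < 1)
    (m₁ : f₁.Monic) (m₂ : f₂.Monic) (c₁ : ∀ i < f₁.natDegree, f₁.coeff i ∈ maximalIdeal (OM L M))
    (c₂ : ∀ i < f₂.natDegree, f₂.coeff i ∈ maximalIdeal (OM L M))
    (r₁ : ∀ c : Ω, f₁.eval₂ (om L M) c = 0 → L.nm c < 1)
    (r₂ : ∀ c : Ω, f₂.eval₂ (om L M) c = 0 → L.nm c < 1)
    (hf : f₁ = f₂ + C (π ^ (s + u)) * δ') (hs : Lus l u s) (hε : IsUnit ε)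
    (hl : (l : OM L M) = ε * π ^ u) :
    ∃ (b : (OM L M)[X]) (h T : (OM L M)[X][X]),
      Lah L M g δ b f₁ f₂ h (C b - C (C (π ^ s)) * T) w₀ l ∧
        Ut ρ (b ^ l * f₂).natDegree h ∧ Ut ρ (b ^ l * f₂).natDegree (C (b ^ l * f₂)) := by
  have hπ1 : L.nm (om L M π) < 1 := by
    rw [om_lt, (IsDiscreteValuationRing.irreducible_iff_uniformizer π).1 hπ]
    exact Ideal.mem_span_singleton_self π
  have hdvd : ∀ x ∈ maximalIdeal (OM L M), π ∣ x := by
    intro x hx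
    rw [(IsDiscreteValuationRing.irreducible_iff_uniformizer π).1 hπ] at hx
    exact Ideal.mem_span_singleton.1 hx
  have hs0 := hs.s_ne
  have hr0 : s + u ≠ 0 := by omega
  have hl0 : l ≠ 0 := by
    rcases hs with h | h
    · rw [h.1]
      exact one_ne_zero
    · exact h.1.ne_zero
  obtain ⟨B₁, B₂, hbz⟩ := hbez
  -- the sheet
  have z0 : ((0 : Ω), om L M w₀) = (om L M 0, om L M w₀) := by rw [map_zero]
  have hgy : IsUnit (ev₂ (0, w₀) (dY g)) := by
    rw [← om_unit, ← e2_om, ← z0]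
    refine gy_unit hbz (by rw [L.zero]; exact zero_le_one) (om_le w₀) ?_ ?_
    · rw [z0, e2_om]
      exact hw
    · rw [e2_C]
      exact unit_zero (by rw [L.zero]; exact zero_lt_one) hδ
  have hD : (f₁ * f₂).IsDistinguishedAt (maximalIdeal (OM L M)) :=
    IsDistinguishedAt.mul ⟨⟨fun {i} hi => c₁ i hi⟩, m₁⟩ ⟨⟨fun {i} hi => c₂ i hi⟩, m₂⟩
  obtain ⟨W, q, E, hW, hq, ⟨A₁, A₁', hA₁⟩, A₂, A₂', hA₂⟩ :=
    ga_idem hg.monic (om_lt.1 hw) hgy hD
  -- the bulk
  obtain ⟨b, bm, bD, hb⟩ := exists_blk hδ ((n - 1) * ρ)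
  -- the equation
  obtain ⟨H, T, hH, hh⟩ := ga_main hπ hg bm m₂ bD hs hε hl (E * C δ')
  have hdeg : (b ^ l * f₂).natDegree = l * b.natDegree + f₂.natDegree := by
    rw [(bm.pow l).natDegree_mul m₂, bm.natDegree_pow]
  have hy : Ut ρ (b ^ l * f₂).natDegree (C (b ^ l * f₂)) := ut_C ((bm.pow l).mul m₂)
  have hbu : ∀ P : Ω × Ω, L.nm P.1 < 1 → L.nm (e2 L M P (C b)) = 1 := by
    intro P h1
    rw [e2_C]
    have h2 : L.nm (b.eval₂ (om L M) P.1) ≤ 1 := by
      have h3 := e2_le (L := L) (M := M) (P := (P.1, 0)) h1.le (by rw [L.zero]; exact zero_le_one)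
        (C b)
      rwa [e2_C] at h3
    by_contra hcon
    exact h1.ne (hb _ h1.le (lt_of_le_of_ne h2 hcon)).1
  have hu2 : ∀ c : Ω, L.nm c ≤ 1 → L.nm (f₂.eval₂ (om L M) c) < 1 → L.nm c < 1 :=
    fun c h1 h2 => u_of m₂ (fun i hi => hdvd _ (c₂ i hi)) hπ1 h1 h2
  refine ⟨b, C (b ^ l * f₂) - C (C (π ^ (s + u))) * H, T, ?_, ?_, hy⟩
  · refine ⟨hg.monic, ⟨B₁, B₂, hbz⟩, hδ, hl0, bm, m₁, m₂, hb, r₁, r₂, hu2, ?_, ?_, ?_, ?_, ?_⟩
    · refine ⟨π ^ s, -T, nm_pow_lt hπ1 hs0, ?_⟩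
      exact gld_neg (R := (OM L M)[X][X]) _ _ _
    · intro P hP h1 h2
      refine od_t0 hP hπ1 hs0 hr0 hh hf (od_C m₁.ne_zero).1 hA₂ ?_ (hbu P h1)
      obtain ⟨r, hr1, hr2, hr3⟩ : ∃ r : ℝ, L.nm P.1 ≤ r ∧ L.nm (P.2 - om L M w₀) ≤ r ∧ r < 1 :=
        ⟨max (L.nm P.1) (L.nm (P.2 - om L M w₀)), le_max_left _ _, le_max_right _ _,
          max_lt h1 h2⟩
      have h3 := e2_near (L := L) (M := M) (P := P) (P' := (0, om L M w₀)) hP.le₁ hP.le₂
        (by rw [L.zero]; exact zero_le_one) (om_le w₀) (r := r) (by rwa [sub_zero]) hr2 q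
      have h4 : L.nm (e2 L M (0, om L M w₀) q) = 1 := by
        rw [z0, e2_om, om_unit]
        exact hq
      have h5 := nm_add_unit h4 (h3.trans_lt hr3)
      rwa [add_sub_cancel] at h5
    · intro P hP h1 h2
      refine od_t1 hP hπ1 hs0 hr0 hh (od_C m₂.ne_zero).1 hA₁ ?_ (hbu P h1)
      rw [e2_sub, e2_Y, e2_C]
      have h3 : L.nm (om L M (W.coeff 0) - om L M w₀) < 1 := by
        rw [← map_sub, om_lt, coeff_zero_eq_eval_zero]
        exact hW
      have h4 : L.nm (W.eval₂ (om L M) P.1 - om L M w₀) < 1 := by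
        rw [show W.eval₂ (om L M) P.1 - om L M w₀ = (W.eval₂ (om L M) P.1 - om L M (W.coeff 0)) +
          (om L M (W.coeff 0) - om L M w₀) by ring]
        exact (L.add _ _).trans_lt (max_lt (ev_zero h1 W) h3)
      rw [show P.2 - W.eval₂ (om L M) P.1 = (P.2 - om L M w₀) -
        (W.eval₂ (om L M) P.1 - om L M w₀) by ring]
      exact nm_sub_unit h2 h4
    · intro P hP h1 h2
      refine od_tb hP hπ1 hr0 hh h2 ?_
      rw [e2_C] at h1 ⊢
      have h3 := (hb _ hP.le₁ h1).1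
      have h4 : L.nm (f₂.eval₂ (om L M) P.1) ≤ 1 := by
        have h5 := e2_le (L := L) (M := M) hP.le₁ hP.le₂ (C f₂)
        rwa [e2_C] at h5
      by_contra hcon
      exact (hu2 _ hP.le₁ (lt_of_le_of_ne h4 hcon)).ne h3
    · intro P h1 h2 h3
      rw [e2_sub, C_mul, map_mul, C_pow, map_pow, e2_C, e2_C, map_mul, e2_CC, sub_eq_zero] at h3
      have h4 : L.nm (b.eval₂ (om L M) P.1 ^ l * f₂.eval₂ (om L M) P.1) < 1 := by
        rw [h3]
        exact nm_mul_lt (nm_pow_lt hπ1 hr0) (e2_le h1 h2 _)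
      by_contra hcon
      rw [not_or, not_lt, not_lt] at hcon
      have h5 : ∀ f : (OM L M)[X], L.nm (f.eval₂ (om L M) P.1) ≤ 1 := fun f => by
        have h5 := e2_le (L := L) (M := M) h1 h2 (C f)
        rwa [e2_C] at h5
      rw [L.mul, L.pow, le_antisymm (h5 b) hcon.1, le_antisymm (h5 f₂) hcon.2, one_pow,
        one_mul] at h4
      exact lt_irrefl _ h4
  · refine ut_sub hy ?_ _
    rw [hdeg]
    exact hH

end GM
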