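import Pool.Agent.Lib.MP_f80667_ag.Gm.GlD

/-! **The moving lemma (LA)** for an abstract variety. -/

open ZC BE PE CV Polynomial IntermediateField IsLocalRing

namespace GM

variable {F : Type} [Field F] {K Ω : Type} [Field K] [CharZero K] [Field Ω] [Algebra K Ω]
  [Algebra F K] [Algebra F Ω] [IsScalarTower F K Ω] [IsAlgClosure K Ω] {L : Ld K Ω}
  {M : IntermediateField K Ω} {g : (OM L M)[X][X]} {δ : (OM L M)[X]} {w₀ π : OM L M}
  {l u s ρ n : ℕ}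

private theorem gle_close {f₁ f₂ : (OM L M)[X]} {r : ℕ}
    (h : ∀ i, L.nm (om L M (f₁.coeff i) - om L M (f₂.coeff i)) ≤ L.nm (om L M π) ^ r) :
    ∃ δ' : (OM L M)[X], f₁ = f₂ + C (π ^ r) * δ' := by
  have h3 : C (π ^ r) ∣ f₁ - f₂ := by
    rw [C_dvd_iff_dvd_coeff]
    intro i
    rw [dvd_iff_nm, coeff_sub]
    have h4 : (((f₁.coeff i - f₂.coeff i : OM L M) : M) : Ω) =
        om L M (f₁.coeff i) - om L M (f₂.coeff i) := rfl
    have h5 : (((π ^ r : OM L M) : M) : Ω) = om L M π ^ r := rfl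
    rw [h4, h5, L.pow]
    exact h i
  obtain ⟨q, hq⟩ := h3
  exact ⟨q, by rw [← hq, add_sub_cancel]⟩

/-- **The moving lemma.** `pt P` are points of a variety `V`, `P` a point of the curve `g = 0` where `δ` is a unit. -/
theorem la_abs [FiniteDimensional K M] {V : Vr F} {nr : V.pt Ω → V.pt Ω → Prop}
    (hπ : Irreducible π) (hg : Mc ρ n g)
    (hbez : ∃ B₁ B₂ : (OM L M)[X][X], B₁ * g + B₂ * dY g = C δ)
    (hδ : L.nm (om L M (δ.coeff 0)) = 1) (hw : L.nm (om L M (ev₂ (0, w₀) g)) < 1)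
    {pt : Ω × Ω → V.pt Ω}
    (hact : ∀ γ ∈ M.fixingSubgroup, ∀ P, Gd L M g δ P → V.act γ (pt P) = pt (γ P.1, γ P.2))
    (hpr : ∀ Φ : Finset (Ω × Ω), (∀ P ∈ Φ, Gd L M g δ P) → Gpm V M (up₂ (om L M) g) Φ pt)
    (hnr : ∀ P P', Gd L M g δ P → Gd L M g δ P' → L.nm (P'.1 - P.1) ≤ L.nm (om L M π) ^ s →
      L.nm (P'.2 - P.2) ≤ L.nm (om L M π) ^ s → nr (pt P') (pt P))
    {P : Ω → V.pt Ω} (hP : ∀ c, L.nm c < 1 → ∃ w, L.nm (w - om L M w₀) < 1 ∧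
      e2 L M (c, w) g = 0 ∧ P c = pt (c, w)) {q q' : Polynomial Ω} (hq : Dpo L M q)
    (hq' : Dpo L M q')
    (hs : (l = 1 ∧ u = 0 ∧ s ≠ 0) ∨
      (l.Prime ∧ L.nm (l : Ω) = L.nm (om L M π) ^ u ∧ u < (l - 1) * s))
    (hqq : ∀ i, L.nm (q.coeff i - q'.coeff i) ≤ L.nm (om L M π) ^ (s + u)) :
    ∃ z ∈ Dsp L V nr M, rcy P q - rcy P q' - l • z ∈ V.ratEq M Ω := by
  obtain ⟨f₁, e₁, -, m₁, c₁⟩ := om_dpo hq
  obtain ⟨f₂, e₂, -, m₂, c₂⟩ := om_dpo hq'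
  have e₁' : f₁.map (om L M) = q := e₁
  have e₂' : f₂.map (om L M) = q' := e₂
  have hc : ∀ {f : (OM L M)[X]} {q : Polynomial Ω}, f.map (om L M) = q → ∀ i,
      om L M (f.coeff i) = q.coeff i := by
    intro f q h i
    rw [← h, coeff_map]
  obtain ⟨δ', hf⟩ := gle_close (f₁ := f₁) (f₂ := f₂) (π := π) (r := s + u) fun i => by
    rw [hc e₁', hc e₂']
    exact hqq i
  have hls : Lus l u s := by
    rcases hs with h | h
    · exact Or.inl h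
    · exact Or.inr ⟨h.1, h.2.2⟩
  obtain ⟨ε, hε, hl⟩ : ∃ ε : OM L M, IsUnit ε ∧ (l : OM L M) = ε * π ^ u := by
    rcases hs with ⟨h1, h2, -⟩ | ⟨-, h2, -⟩
    · exact ⟨1, isUnit_one, by rw [h1, h2, pow_zero, mul_one, Nat.cast_one]⟩
    · have h3 : (((l : OM L M) : M) : Ω) = (l : Ω) := map_natCast (om L M) l
      have h5 : (((π ^ u : OM L M) : M) : Ω) = om L M π ^ u := rfl
      have h6 : Associated (π ^ u) (l : OM L M) := by
        refine associated_of_dvd_dvd ?_ ?_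
        · rw [dvd_iff_nm, h3, h5, L.pow, h2]
        · rw [dvd_iff_nm, h3, h5, L.pow, h2]
      obtain ⟨ε, h7⟩ := h6
      exact ⟨ε, ε.isUnit, by rw [← h7, mul_comm]⟩
  have hr : ∀ {f : (OM L M)[X]} {q : Polynomial Ω}, f.map (om L M) = q → Dpo L M q →
      ∀ c : Ω, f.eval₂ (om L M) c = 0 → L.nm c < 1 := by
    intro f q h1 h2 c h3
    refine om_root h2 ?_
    rw [IsRoot.def, ← h1, eval_map]
    exact h3
  obtain ⟨b, h, T, H, hh, hy⟩ := exists_lah hπ hg hbez hδ hw m₁ m₂ c₁ c₂ (hr e₁' hq) (hr e₂' hq')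
    hf hls hε hl
  have hπ1 : L.nm (om L M π) < 1 := by
    rw [om_lt, (IsDiscreteValuationRing.irreducible_iff_uniformizer π).1 hπ]
    exact Ideal.mem_span_singleton_self π
  have hPb : Pb L M b (C b) := ⟨0, 0, by rw [map_zero, L.zero]; exact zero_lt_one, by simp⟩
  have h9 := H.main (V := V) (nr := nr) hg hh hy hact hpr (fun P P' h1 h2 h3 => by
    obtain ⟨h4, h5⟩ := zp_le H.sp hπ1 hls.s_ne h1 h2 h3
    exact hnr P P' (H.gd_zp hPb h1) (H.gd_zp H.hB h2) h4 h5) hP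
  rw [e₁', e₂'] at h9
  exact h9

end GM
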