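import Pool.Agent.Lib.MP_f80667_ag.Cv.PlD
import Pool.Agent.Lib.MP_f80667_ag.Cv.PlR
import Pool.Agent.Lib.MP_f80667_ag.ZC.Place

/-!
Places above regular homomorphisms `φ : A → Ω` of a Noetherian domain `A`.
-/

open ZC CV

namespace GM

section fac

variable {K A : Type} [Field K] [CommRing A] [IsDomain A] [IsNoetherianRing A] [Algebra K A]
  {Ω : Type} [Field Ω] [Algebra K Ω]

/-- Every element is a power of `t` up to a unit of the local ring. -/
theorem rg_fac {φ : A →ₐ[K] Ω} {t : A} (h : Rg φ t) {x : A} (hx : x ≠ 0) :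
    ∃ m : ℕ, Lu φ x (t ^ m) := by
  obtain ⟨ht, s0, hs0, hdiv⟩ := h
  by_contra hcon
  push Not at hcon
  have key : ∀ n : ℕ, ∃ s : A, φ s ≠ 0 ∧ t ^ n ∣ s * x := by
    intro n
    induction n with
    | zero => exact ⟨1, by rw [map_one]; exact one_ne_zero, by rw [pow_zero]; exact one_dvd _⟩
    | succ n ih =>
      obtain ⟨s, hs, y, hy⟩ := ih
      by_cases hφ : φ y = 0
      · obtain ⟨z, hz⟩ := hdiv y hφ
        refine ⟨s0 * s, ?_, z, ?_⟩
        · rw [map_mul]
          exact mul_ne_zero hs0 hs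
        · rw [mul_assoc, hy, pow_succ, mul_left_comm, hz]
          ring
      · exact absurd ⟨s, y, hs, hφ, by rw [hy, mul_comm]⟩ (hcon n)
  set P : Ideal A := RingHom.ker φ.toRingHom with hP
  have hPp : P.IsPrime := RingHom.ker_isPrime _
  have hmem : ∀ a : A, a ∈ P ↔ φ a = 0 := fun a => RingHom.mem_ker
  let R := Localization.AtPrime P
  have hRn : IsNoetherianRing R := IsLocalization.isNoetherianRing P.primeCompl R inferInstance
  have hle : P.primeCompl ≤ nonZeroDivisors A := P.primeCompl_le_nonZeroDivisors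
  have hinj : Function.Injective (algebraMap A R) := IsLocalization.injective R hle
  have hRd : IsDomain R := IsLocalization.isDomain_of_le_nonZeroDivisors R hle
  have hI : Ideal.span {algebraMap A R t} ≠ ⊤ := by
    rw [Ne, Ideal.span_singleton_eq_top, IsLocalization.AtPrime.isUnit_to_map_iff R P]
    intro h1
    exact h1 ((hmem t).2 ht)
  have hbot := Ideal.iInf_pow_eq_bot_of_isDomain _ hI
  have hx0 : algebraMap A R x ∈ ⨅ n : ℕ, Ideal.span {algebraMap A R t} ^ n := by
    rw [Ideal.mem_iInf]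
    intro n
    obtain ⟨s, hs, hsx⟩ := key n
    rw [Ideal.span_singleton_pow, Ideal.mem_span_singleton]
    have hu : IsUnit (algebraMap A R s) :=
      (IsLocalization.AtPrime.isUnit_to_map_iff R P s).2 (fun h1 => hs ((hmem s).1 h1))
    have h2 : algebraMap A R t ^ n ∣ algebraMap A R s * algebraMap A R x := by
      rw [← map_pow, ← map_mul]
      exact map_dvd _ hsx
    exact (hu.dvd_mul_left).1 h2
  rw [hbot, Ideal.mem_bot] at hx0
  exact hx (hinj (by rw [hx0, map_zero]))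

end fac

section plc

variable {K A E : Type} [Field K] [CommRing A] [IsDomain A] [IsNoetherianRing A] [Algebra K A]
  [Field E] [Algebra A E] [IsFractionRing A E] [Algebra K E] [IsScalarTower K A E] {Ω : Type}
  [Field Ω] [Algebra K Ω]

omit [IsDomain A] [IsNoetherianRing A] [IsFractionRing A E] [IsScalarTower K A E] in
/-- An element which does not vanish is a unit. -/
theorem ab_unit {w : Place K E Ω} {φ : A →ₐ[K] Ω} (hw : Ab w φ) {a : A} (ha : φ a ≠ 0) :
    algebraMap A E a ≠ 0 ∧ algebraMap A E a ∈ w.V ∧ (algebraMap A E a)⁻¹ ∈ w.V := by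
  obtain ⟨h, hr⟩ := hw a
  have hu : IsUnit (⟨algebraMap A E a, h⟩ : w.V) := by
    by_contra hcon
    have h1 := w.res_zero _ hcon
    rw [hr] at h1
    exact ha h1
  obtain ⟨b, hb⟩ := hu.exists_right_inv
  have hb' : algebraMap A E a * (b : E) = 1 := congrArg Subtype.val hb
  have hne : algebraMap A E a ≠ 0 := left_ne_zero_of_mul_eq_one hb'
  refine ⟨hne, h, ?_⟩
  rw [inv_eq_of_mul_eq_one_right hb']
  exact b.2

omit [IsDomain A] [IsNoetherianRing A] [IsFractionRing A E] [IsScalarTower K A E] in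
/-- An element which vanishes is not a unit. -/
private theorem plh_non {w : Place K E Ω} {φ : A →ₐ[K] Ω} (hw : Ab w φ) {a : A} (ha : φ a = 0) :
    (algebraMap A E a)⁻¹ ∈ w.V → algebraMap A E a = 0 := by
  intro h1
  by_contra hne
  obtain ⟨h, hr⟩ := hw a
  have h2 : (⟨algebraMap A E a, h⟩ : w.V) * ⟨(algebraMap A E a)⁻¹, h1⟩ = 1 :=
    Subtype.ext (mul_inv_cancel₀ hne)
  have h3 := congrArg w.res h2
  rw [map_mul, hr, ha, zero_mul, map_one] at h3
  exact zero_ne_one h3

omit [IsDomain A] [IsNoetherianRing A] [IsFractionRing A E] [IsScalarTower K A E] in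
/-- The quotient is a unit times a power of the parameter. -/
private theorem plh_quo {w : Place K E Ω} {φ : A →ₐ[K] Ω} {t : A} (ht : algebraMap A E t ≠ 0)
    (hw : Ab w φ) {x y : A} {m n : ℕ} (hx : Lu φ x (t ^ m)) (hy : Lu φ y (t ^ n)) :
    ∃ U : E, U ∈ w.V ∧ U⁻¹ ∈ w.V ∧ U ≠ 0 ∧ algebraMap A E y ≠ 0 ∧
      algebraMap A E x / algebraMap A E y = U * (algebraMap A E t ^ m / algebraMap A E t ^ n) := by
  obtain ⟨a, a', ha, ha', h1⟩ := hx
  obtain ⟨b, b', hb, hb', h2⟩ := hy
  obtain ⟨a1, a2, a3⟩ := ab_unit hw ha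
  obtain ⟨a1', a2', a3'⟩ := ab_unit hw ha'
  obtain ⟨b1, b2, b3⟩ := ab_unit hw hb
  obtain ⟨b1', b2', b3'⟩ := ab_unit hw hb'
  have e1 : algebraMap A E a * algebraMap A E x = algebraMap A E a' * algebraMap A E t ^ m := by
    rw [← map_mul, h1, map_mul, map_pow]
  have e2 : algebraMap A E b * algebraMap A E y = algebraMap A E b' * algebraMap A E t ^ n := by
    rw [← map_mul, h2, map_mul, map_pow]
  have hy0 : algebraMap A E y ≠ 0 := by
    intro h0
    rw [h0, mul_zero] at e2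
    exact mul_ne_zero b1' (pow_ne_zero n ht) e2.symm
  refine ⟨(algebraMap A E a)⁻¹ * algebraMap A E a' * (algebraMap A E b * (algebraMap A E b')⁻¹),
    mul_mem (mul_mem a3 a2') (mul_mem b2 b3'), ?_, ?_, hy0, ?_⟩
  · rw [mul_inv, mul_inv, mul_inv, inv_inv, inv_inv]
    exact mul_mem (mul_mem a2 a3') (mul_mem b3 b2')
  · exact mul_ne_zero (mul_ne_zero (inv_ne_zero a1) a1') (mul_ne_zero b1 (inv_ne_zero b1'))
  · have ht' : algebraMap A E t ^ n ≠ 0 := pow_ne_zero n ht
    rw [eq_comm]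
    field_simp
    linear_combination (-(algebraMap A E b * algebraMap A E y)) * e1 +
      (algebraMap A E a * algebraMap A E x) * e2

omit [IsNoetherianRing A] [IsScalarTower K A E] [IsDomain A] in
/-- The valuation ring of a place above `φ`. -/
theorem rg_mem {w : Place K E Ω} {φ : A →ₐ[K] Ω} {t : A} (ht0 : t ≠ 0) (h : Rg φ t)
    (hw : Ab w φ) {x y : A} {m n : ℕ} (hx : Lu φ x (t ^ m)) (hy : Lu φ y (t ^ n)) :
    algebraMap A E x / algebraMap A E y ∈ w.V ↔ n ≤ m := by
  have ht : algebraMap A E t ≠ 0 := by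
    rw [Ne, FaithfulSMul.algebraMap_eq_zero_iff]
    exact ht0
  obtain ⟨U, hU1, hU2, hU3, hy0, hU⟩ := plh_quo ht hw hx hy
  rw [hU]
  constructor
  · intro h1
    by_contra hcon
    push Not at hcon
    have h2 : algebraMap A E t ^ m / algebraMap A E t ^ n ∈ w.V := by
      have h3 := mul_mem hU2 h1
      rwa [inv_mul_cancel_left₀ hU3] at h3
    have h3 : (algebraMap A E t)⁻¹ ∈ w.V := by
      have h4 : (algebraMap A E t)⁻¹ = algebraMap A E t ^ (n - m - 1) *
          (algebraMap A E t ^ m / algebraMap A E t ^ n) := by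
        rw [eq_comm, ← mul_div_assoc, ← pow_add, div_eq_iff (pow_ne_zero n ht),
          show n = (n - m - 1 + m) + 1 by omega, pow_succ _ (n - m - 1 + m)]
        rw [show n - m - 1 + m + 1 - m - 1 + m = n - m - 1 + m by omega]
        field_simp
      rw [h4]
      exact mul_mem (pow_mem (hw t).1 _) h2
    exact ht (plh_non hw h.1 h3)
  · intro h1
    refine mul_mem hU1 ?_
    have h2 : algebraMap A E t ^ m / algebraMap A E t ^ n = algebraMap A E t ^ (m - n) := by
      rw [div_eq_iff (pow_ne_zero n ht), ← pow_add, Nat.sub_add_cancel h1]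
    rw [h2]
    exact pow_mem (hw t).1 _

omit [IsScalarTower K A E] in
/-- An element of the valuation ring is a quotient with denominator not vanishing. -/
private theorem plh_res {w : Place K E Ω} {φ : A →ₐ[K] Ω} {t : A} (ht0 : t ≠ 0)
    (h : Rg φ t) (hw : Ab w φ) {z : E} (hz : z ∈ w.V) :
    ∃ x y : A, φ y ≠ 0 ∧ z * algebraMap A E y = algebraMap A E x := by
  obtain ⟨x, y, hy0, rfl⟩ := IsFractionRing.div_surjective (A := A) z
  have hy1 : y ≠ 0 := nonZeroDivisors.ne_zero hy0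
  by_cases hx0 : x = 0
  · refine ⟨0, 1, ?_, ?_⟩
    · rw [map_one]
      exact one_ne_zero
    · rw [hx0, map_zero, zero_div, zero_mul]
  obtain ⟨m, hm⟩ := rg_fac h hx0
  obtain ⟨n, hn⟩ := rg_fac h hy1
  have hnm := (rg_mem ht0 h hw hm hn).1 hz
  obtain ⟨a, a', ha, ha', h1⟩ := hm
  obtain ⟨b, b', hb, hb', h2⟩ := hn
  refine ⟨a' * b * t ^ (m - n), a * b', ?_, ?_⟩
  · rw [map_mul]
    exact mul_ne_zero ha hb'
  · have hye : algebraMap A E y ≠ 0 := by
      rw [Ne, FaithfulSMul.algebraMap_eq_zero_iff]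
      exact hy1
    have e3 : a * x * (b' * t ^ n) = a' * b * t ^ (m - n) * y * t ^ n := by
      rw [h1, ← h2]
      have e4 : t ^ m = t ^ (m - n) * t ^ n := by rw [← pow_add, Nat.sub_add_cancel hnm]
      rw [e4]
      ring
    have ht1 : t ^ n ≠ 0 := pow_ne_zero n ht0
    have e5 : a * x * b' = a' * b * t ^ (m - n) * y := by
      apply mul_right_cancel₀ ht1
      rw [← e3]
      ring
    rw [div_mul_eq_mul_div, div_eq_iff hye, ← map_mul, ← map_mul, ← e5]
    congr 1
    ring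

omit [IsDomain A] [IsNoetherianRing A] [IsFractionRing A E] [IsScalarTower K A E] in
private theorem plh_val {w : Place K E Ω} {φ : A →ₐ[K] Ω} (hw : Ab w φ) {z : E} (hz : z ∈ w.V)
    {x y : A} (hy : φ y ≠ 0) (e : z * algebraMap A E y = algebraMap A E x) :
    w.res ⟨z, hz⟩ = φ x / φ y := by
  obtain ⟨h1, h2⟩ := hw x
  obtain ⟨h3, h4⟩ := hw y
  have h5 : (⟨z, hz⟩ : w.V) * ⟨algebraMap A E y, h3⟩ = ⟨algebraMap A E x, h1⟩ := Subtype.ext e
  have h6 := congrArg w.res h5
  rw [map_mul, h2, h4] at h6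
  rw [eq_div_iff hy]
  exact h6

omit [IsScalarTower K A E] in
/-- At a regular `φ` there is one place. -/
theorem rg_uniq {w w' : Place K E Ω} {φ : A →ₐ[K] Ω} {t : A} (ht0 : t ≠ 0) (h : Rg φ t)
    (hw : Ab w φ) (hw' : Ab w' φ) : w = w' := by
  have key : ∀ {w w' : Place K E Ω}, Ab w φ → Ab w' φ → ∀ z : E, z ∈ w.V → z ∈ w'.V := by
    intro w w' hw hw' z hz
    obtain ⟨x, y, hy, e⟩ := plh_res ht0 h hw hz
    obtain ⟨h1, h2, h3⟩ := ab_unit hw' hy
    rw [← eq_mul_inv_iff_mul_eq₀ h1] at e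
    rw [e]
    exact mul_mem (hw' x).1 h3
  refine Place.ext' (SetLike.ext fun z => ⟨key hw hw' z, key hw' hw z⟩) fun z hz hz' => ?_
  obtain ⟨x, y, hy, e⟩ := plh_res ht0 h hw hz
  rw [plh_val hw hz hy e, plh_val hw' hz' hy e]

omit [IsScalarTower K A E] in
/-- The order at a regular `φ`. -/
theorem rg_ord {w : Place K E Ω} {φ : A →ₐ[K] Ω} {t : A} (ht0 : t ≠ 0) (h : Rg φ t)
    (hw : Ab w φ) {x y : A} {m n : ℕ} (hx : Lu φ x (t ^ m)) (hy : Lu φ y (t ^ n)) :
    w.IsOrd (algebraMap A E x / algebraMap A E y) (m - n : ℤ) := by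
  have ht : algebraMap A E t ≠ 0 := by
    rw [Ne, FaithfulSMul.algebraMap_eq_zero_iff]
    exact ht0
  obtain ⟨U, hU1, hU2, hU3, hy0, hU⟩ := plh_quo ht hw hx hy
  refine ⟨algebraMap A E t, U, ht, fun z => ?_, hU1, hU2, hU3, ?_⟩
  · obtain ⟨a, b, hb0, rfl⟩ := IsFractionRing.div_surjective (A := A) z
    have hb1 : b ≠ 0 := nonZeroDivisors.ne_zero hb0
    have hbe : algebraMap A E b ≠ 0 := by
      rw [Ne, FaithfulSMul.algebraMap_eq_zero_iff]
      exact hb1
    by_cases ha0 : a = 0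
    · rw [ha0, map_zero, zero_div, zero_div]
      refine ⟨fun _ => zero_mem _, fun _ => ?_⟩
      rw [ValuationSubring.mem_nonunits_iff, map_zero]
      exact zero_lt_one
    have hae : algebraMap A E a ≠ 0 := by
      rw [Ne, FaithfulSMul.algebraMap_eq_zero_iff]
      exact ha0
    obtain ⟨i, hi⟩ := rg_fac h ha0
    obtain ⟨j, hj⟩ := rg_fac h hb1
    have h1 : algebraMap A E a / algebraMap A E b ∈ w.V.nonunits ↔
        ¬ algebraMap A E b / algebraMap A E a ∈ w.V := by
      have h2 := w.V.inv_mem_nonunits_iff (x := algebraMap A E b / algebraMap A E a)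
      rw [inv_div] at h2
      rw [h2, or_iff_right (div_ne_zero hbe hae)]
    have hjt : Lu φ (b * t) (t ^ (j + 1)) := by
      obtain ⟨s, s', hs, hs', h2⟩ := hj
      exact ⟨s, s', hs, hs', by rw [← mul_assoc, h2, pow_succ, mul_assoc]⟩
    have h3 := rg_mem ht0 h hw hi hjt
    rw [map_mul, ← div_div] at h3
    rw [h1, rg_mem ht0 h hw hj hi, h3]
    omega
  · rw [hU, zpow_sub₀ ht, zpow_natCast, zpow_natCast]

end plc

end GM
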