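import Pool.Agent.Lib.MP_f80667_ag.Gm.GpA
import Pool.Agent.Lib.MP_f80667_ag.Pe.PlcA

/-!
Function fields of one variable and places: `A` is finite over `K[z]`.
-/

open ZC CV

namespace GM

/-- `z` is transcendental and `A` is finite over `K[z]`. -/
structure Fz (K : Type) {A : Type} [Field K] [CommRing A] [Algebra K A] (z : A) : Prop where
  tr : Transcendental K z
  fin : Module.Finite (Algebra.adjoin K {z}) A

namespace Fz

variable {K A : Type} [Field K] [CommRing A] [Algebra K A] {z : A}

theorem noeth (h : Fz K z) : IsNoetherianRing A := by
  have h1 := h.fin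
  have h2 : IsNoetherianRing (Algebra.adjoin K {z}) := by
    have h3 : Algebra.FiniteType K (Algebra.adjoin K {z}) := by
      rw [← Subalgebra.fg_iff_finiteType]
      exact ⟨{z}, by rw [Finset.coe_singleton]⟩
    exact Algebra.FiniteType.isNoetherianRing K _
  exact IsNoetherianRing.of_finite (Algebra.adjoin K {z}) A

variable {E : Type} [Field E] [Algebra A E] [IsFractionRing A E] [Algebra K E]
  [IsScalarTower K A E]

/-- `E` is a function field of one variable. -/
theorem ff (h : Fz K z) : IsFunField K E := by
  have hfin := h.fin
  have hinj : Function.Injective (algebraMap A E) := IsFractionRing.injective A E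
  refine ⟨algebraMap A E z, (transcendental_algebraMap_iff hinj).2 h.tr, ?_⟩
  have hF : ∀ y ∈ Algebra.adjoin K {z},
      algebraMap A E y ∈ IntermediateField.adjoin K {algebraMap A E z} := by
    intro y hy
    have h1 : algebraMap A E y ∈ (Algebra.adjoin K {z}).map (IsScalarTower.toAlgHom K A E) :=
      ⟨y, hy, rfl⟩
    rw [AlgHom.map_adjoin, Set.image_singleton] at h1
    exact IntermediateField.algebra_adjoin_le_adjoin K _ h1
  obtain ⟨j, hj⟩ : ∃ j : Algebra.adjoin K {z} →+* IntermediateField.adjoin K {algebraMap A E z},
      ∀ y, ((j y : IntermediateField.adjoin K {algebraMap A E z}) : E) = algebraMap A E y := by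
    refine ⟨((algebraMap A E).comp (Algebra.adjoin K {z}).subtype).codRestrict
      (IntermediateField.adjoin K {algebraMap A E z}).toSubring (fun y => hF y.1 y.2), fun y => rfl⟩
  have hint : ∀ a : A, IsIntegral (IntermediateField.adjoin K {algebraMap A E z})
      (algebraMap A E a) := by
    intro a
    have h1 : IsIntegral (Algebra.adjoin K {z}) a := Algebra.IsIntegral.isIntegral a
    refine h1.map_of_comp_eq j (algebraMap A E) ?_
    ext y
    exact hj y
  obtain ⟨S, hS⟩ := hfin.fg_top
  have hfd : FiniteDimensional (IntermediateField.adjoin K {algebraMap A E z})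
      (IntermediateField.adjoin (IntermediateField.adjoin K {algebraMap A E z})
        ((algebraMap A E) '' (S : Set A))) := by
    have hSf : Finite ((algebraMap A E) '' (S : Set A)) := (S.finite_toSet.image _)
    apply IntermediateField.finiteDimensional_adjoin
    rintro _ ⟨a, _, rfl⟩
    exact hint a
  have hA : ∀ a : A, algebraMap A E a ∈
      IntermediateField.adjoin (IntermediateField.adjoin K {algebraMap A E z})
        ((algebraMap A E) '' (S : Set A)) := by
    intro a
    have h1 : a ∈ Submodule.span (Algebra.adjoin K {z}) (S : Set A) := by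
      rw [hS]
      exact Submodule.mem_top
    induction h1 using Submodule.span_induction with
    | mem s hs => exact IntermediateField.subset_adjoin _ _ ⟨s, hs, rfl⟩
    | zero =>
      rw [map_zero]
      exact zero_mem _
    | add u v _ _ hu hv =>
      rw [map_add]
      exact add_mem hu hv
    | smul y u _ hu =>
      have h2 : algebraMap A E (y • u) = (j y) • algebraMap A E u := by
        rw [Algebra.smul_def, Algebra.smul_def, map_mul]
        congr 1
        exact (hj y).symm
      rw [h2]
      exact (IntermediateField.adjoin (IntermediateField.adjoin K {algebraMap A E z})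
        ((algebraMap A E) '' (S : Set A))).smul_mem hu
  have htop : IntermediateField.adjoin (IntermediateField.adjoin K {algebraMap A E z})
        ((algebraMap A E) '' (S : Set A)) = ⊤ := by
    rw [eq_top_iff]
    intro e _
    obtain ⟨a, b, _, rfl⟩ := IsFractionRing.div_surjective (A := A) e
    exact div_mem (hA a) (hA b)
  rw [htop] at hfd
  exact Module.Finite.equiv
    (IntermediateField.topEquiv (F := IntermediateField.adjoin K {algebraMap A E z})
      (E := E)).toLinearEquiv

variable {Ω : Type} [Field Ω] [Algebra K Ω]

omit [IsFractionRing A E] in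
/-- A place is at infinity or above a homomorphism. Proof: `A` is integral over `K[z]`; if `z ∈ w.V` then `A ⊆ w.V`, take the residues. -/
theorem inf_or_ab (h : Fz K z) (w : Place K E Ω) : algebraMap A E z ∉ w.V ∨
    ∃ φ : A →ₐ[K] Ω, Ab w φ := by
  by_cases hz : algebraMap A E z ∈ w.V
  · right
    have hfin := h.fin
    have hc : ∀ c : K, algebraMap A E (algebraMap K A c) = algebraMap K E c := fun c =>
      (IsScalarTower.algebraMap_apply K A E c).symm
    have hadj : ∀ y ∈ Algebra.adjoin K {z}, algebraMap A E y ∈ w.V := by
      intro y hy
      induction hy using Algebra.adjoin_induction with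
      | mem x hx =>
        rw [Set.mem_singleton_iff.1 hx]
        exact hz
      | algebraMap r =>
        rw [hc]
        exact w.mem r
      | add x y _ _ hx hy =>
        rw [map_add]
        exact add_mem hx hy
      | mul x y _ _ hx hy =>
        rw [map_mul]
        exact mul_mem hx hy
    have hA : ∀ a : A, algebraMap A E a ∈ w.V := by
      intro a
      have h1 : IsIntegral (Algebra.adjoin K {z}) a := Algebra.IsIntegral.isIntegral a
      let j : Algebra.adjoin K {z} →+* w.V :=
        ((algebraMap A E).comp (Algebra.adjoin K {z}).subtype).codRestrict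
          w.V.toSubring (fun y => hadj y.1 y.2)
      have h2 : IsIntegral w.V (algebraMap A E a) := h1.map_of_comp_eq j (algebraMap A E) (by
        ext y
        rfl)
      obtain ⟨b, hb⟩ := IsIntegrallyClosed.isIntegral_iff.1 h2
      rw [← hb]
      exact b.2
    let r : A →+* Ω :=
      { toFun := fun a => w.res ⟨algebraMap A E a, hA a⟩
        map_one' := by
          rw [← map_one w.res]
          exact congrArg w.res (Subtype.ext (map_one _))
        map_mul' := by
          intro x y
          rw [← map_mul w.res]
          exact congrArg w.res (Subtype.ext (map_mul _ _ _))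
        map_zero' := by
          rw [← map_zero w.res]
          exact congrArg w.res (Subtype.ext (map_zero _))
        map_add' := by
          intro x y
          rw [← map_add w.res]
          exact congrArg w.res (Subtype.ext (map_add _ _ _)) }
    have hr : ∀ c : K, r (algebraMap K A c) = algebraMap K Ω c := by
      intro c
      change w.res ⟨algebraMap A E (algebraMap K A c), _⟩ = algebraMap K Ω c
      rw [← w.res_k c]
      exact congrArg w.res (Subtype.ext (hc c))
    let φ : A →ₐ[K] Ω := { r with commutes' := hr }
    exact ⟨φ, fun a => ⟨hA a, rfl⟩⟩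
  · exact Or.inl hz

/-- There is a place above every homomorphism. -/
theorem exists_ab [CharZero K] [IsAlgClosure K Ω] (h : Fz K z) (φ : A →ₐ[K] Ω) :
    ∃ w : Place K E Ω, Ab w φ := by
  have hΩ : IsAlgClosed Ω := IsAlgClosure.isAlgClosed K
  have halg : Algebra.IsAlgebraic K Ω := IsAlgClosure.isAlgebraic
  have hinj : Function.Injective (IsScalarTower.toAlgHom K A E) := IsFractionRing.injective A E
  let e : A ≃ₐ[K] (IsScalarTower.toAlgHom K A E).range :=
    AlgEquiv.ofInjective (IsScalarTower.toAlgHom K A E) hinj
  obtain ⟨p, hp, hpx⟩ := halg.isAlgebraic (φ z)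
  have ha0 : Polynomial.aeval z p ≠ 0 := by
    intro h0
    exact hp ((transcendental_iff.1 h.tr) p h0)
  have haφ : φ (Polynomial.aeval z p) = 0 := by
    rw [← Polynomial.aeval_algHom_apply, hpx]
  obtain ⟨w, hw⟩ := PE.exists_plcA (Ω := Ω) (h.ff (E := E)) (IsScalarTower.toAlgHom K A E).range
    (φ.comp e.symm.toAlgHom) (e (Polynomial.aeval z p))
    (fun h0 => ha0 (e.injective (h0.trans (map_zero e).symm)))
    (by
      change φ (e.symm (e (Polynomial.aeval z p))) = 0
      rw [e.symm_apply_apply, haφ])
  refine ⟨w, fun a => ?_⟩
  obtain ⟨h, hres⟩ := hw (e a)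
  refine ⟨h, ?_⟩
  have h2 : (φ.comp e.symm.toAlgHom) (e a) = φ a := by
    change φ (e.symm (e a)) = φ a
    rw [e.symm_apply_apply]
  rw [← h2, ← hres]
  rfl

end Fz

end GM
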