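import Pool.Agent.Lib.MP_f80667_ag.Gm.GpB

/-!
The divisor of `x / y` for elements `x`, `y` of a domain which is finite over `K[z]`.
-/

open ZC BE CV

namespace GM

variable {F : Type} [Field F] {K A : Type} [Field K] [CharZero K] [CommRing A] [IsDomain A]
  [Algebra K A] [Algebra F K] {E : Type} [Field E] [Algebra A E] [IsFractionRing A E] [Algebra K E]
  [IsScalarTower K A E] [Algebra F E] [IsScalarTower F K E] {Ω : Type} [Field Ω]
  [Algebra K Ω] [Algebra F Ω] [IsAlgClosure K Ω]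

/-- **The divisor of `x / y`.** `S` is a finite set of homomorphisms `φ : A → Ω` at which `A` is regular, `x ~ t ^ a`, `y ~ t ^ b` for a generator `t` of the maximal
ideal of the local ring; at the other homomorphisms `x` and `y` differ by a unit of the local ring; `x / y` is a unit at the places at infinity. `P` is an `E`-point of
the variety `V`, `f φ` its value at the places above `φ ∈ S`. -/
theorem div_gen (V : Vr F) {z : A} (hz : Fz K z) {x y : A} (hx0 : x ≠ 0) (hy0 : y ≠ 0)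
    (S : Finset (A →ₐ[K] Ω)) (a b : (A →ₐ[K] Ω) → ℕ)
    (hS : ∀ φ ∈ S, ∃ t, t ≠ 0 ∧ Rg φ t ∧ Lu φ x (t ^ a φ) ∧ Lu φ y (t ^ b φ))
    (hn : ∀ φ, φ ∉ S → Lu φ x y)
    (hinf : ∀ w : Place K E Ω, algebraMap A E z ∉ w.V →
      algebraMap A E x / algebraMap A E y ∈ w.V ∧ (algebraMap A E x / algebraMap A E y)⁻¹ ∈ w.V)
    (P : V.pt (AlgebraicClosure E)) (hP : V.Rat E P) (f : (A →ₐ[K] Ω) → V.pt Ω)
    (hf : ∀ φ ∈ S, ∀ w : Place K E Ω, Ab w φ → V.IsVal w P (f φ)) :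
    ∑ φ ∈ S, Finsupp.single (f φ) ((a φ : ℤ) - b φ) ∈ V.ratEq K Ω := by
  classical
  have hno : IsNoetherianRing A := hz.noeth
  have halg : Algebra.IsAlgebraic K Ω := IsAlgClosure.isAlgebraic
  have hinj : Function.Injective (algebraMap A E) := IsFractionRing.injective A E
  have hx1 : algebraMap A E x ≠ 0 := (map_ne_zero_iff _ hinj).2 hx0
  have hy1 : algebraMap A E y ≠ 0 := (map_ne_zero_iff _ hinj).2 hy0
  have hff : IsFunField K E := hz.ff
  have hex : ∀ φ : A →ₐ[K] Ω, ∃ w : Place K E Ω, Ab w φ := fun φ => hz.exists_ab φ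
  choose W hW using hex
  rcases S.eq_empty_or_nonempty with rfl | ⟨φ₀, hφ₀⟩
  · rw [Finset.sum_empty]
    exact zero_mem _
  let m' : Place K E Ω → ℤ := fun w =>
    if h : ∃ φ, Ab w φ then (a h.choose : ℤ) - b h.choose else 0
  let y' : Place K E Ω → V.pt Ω := fun w =>
    if h : ∃ φ, Ab w φ then f h.choose else f φ₀
  have hch : ∀ φ (h : ∃ ψ, Ab (W φ) ψ), h.choose = φ := fun φ h =>
    plR_ab_inj h.choose_spec (hW φ)
  have hmW : ∀ φ, m' (W φ) = (a φ : ℤ) - b φ := by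
    intro φ
    have h : ∃ ψ, Ab (W φ) ψ := ⟨φ, hW φ⟩
    change (if h : ∃ ψ, Ab (W φ) ψ then (a h.choose : ℤ) - b h.choose else 0) = _
    rw [dif_pos h, hch φ h]
  have hyW : ∀ φ, y' (W φ) = f φ := by
    intro φ
    have h : ∃ ψ, Ab (W φ) ψ := ⟨φ, hW φ⟩
    change (if h : ∃ ψ, Ab (W φ) ψ then f h.choose else f φ₀) = _
    rw [dif_pos h, hch φ h]
  have hWinj : ∀ φ ψ, W φ = W ψ → φ = ψ := fun φ ψ h =>
    plR_ab_inj (hW φ) (h ▸ hW ψ)
  refine AddSubgroup.subset_closure ⟨E, inferInstance, inferInstance, inferInstance,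
    inferInstance, hff, algebraMap A E x / algebraMap A E y, P, div_ne_zero hx1 hy1, hP,
    S.image W, m', y', ?_, ?_, ?_⟩
  · intro w hw
    rcases hz.inf_or_ab w with h | ⟨φ, h⟩
    · exact hinf w h
    · by_cases hφ : φ ∈ S
      · obtain ⟨t, ht0, ht, -, -⟩ := hS φ hφ
        have h1 : w = W φ := rg_uniq ht0 ht h (hW φ)
        exact absurd (Finset.mem_image.2 ⟨φ, hφ, h1.symm⟩) hw
      · exact CV.Dg.lu_unit h hx0 hy0 (hn φ hφ)
  · intro w hw
    obtain ⟨φ, hφ, h1⟩ := Finset.mem_image.1 hw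
    subst h1
    obtain ⟨t, ht0, ht, hxt, hyt⟩ := hS φ hφ
    rw [hmW, hyW]
    exact ⟨rg_ord ht0 ht (hW φ) hxt hyt, hf φ hφ _ (hW φ)⟩
  · rw [Finset.sum_image (fun φ _ ψ _ h => hWinj φ ψ h)]
    exact Finset.sum_congr rfl fun φ _ => by rw [hmW, hyW]

end GM
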