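import Pool.Agent.Lib.MP_f80667_ag.Gm.GpB
import Pool.Agent.Lib.MP_f80667_ag.Gm.GpD

/-!
The ring `A = k[z, Y] / (g)` for a monic prime `g`; points `P = (c, w)` and homomorphisms `A → Ω`.
-/

open Polynomial ZC CV

namespace GM

variable {k Ω : Type} [Field k] [Field Ω] [Algebra k Ω]

/-- The value of `A ∈ k[z, Y]` at a point over `Ω`. -/
noncomputable def evk (P : Ω × Ω) : k[X][X] →ₐ[k] Ω where
  toRingHom := (ev₂ P).comp (up₂ (algebraMap k Ω))
  commutes' c := by
    change ev₂ P (up₂ (algebraMap k Ω) (C (C c))) = _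
    simp [ev₂, up₂]

theorem evk_eq (P : Ω × Ω) (A : k[X][X]) : evk P A = ev₂ P (up₂ (algebraMap k Ω) A) := rfl

theorem evk_z (P : Ω × Ω) : evk P (C X : k[X][X]) = P.1 := by
  rw [evk_eq]
  simp [ev₂, up₂]

theorem evk_Y (P : Ω × Ω) : evk P (X : k[X][X]) = P.2 := by
  rw [evk_eq]
  simp [ev₂, up₂]

theorem evk_Cf (P : Ω × Ω) (f : k[X]) : evk P (C f) = aeval P.1 f := by
  rw [evk_eq]
  simp [ev₂, up₂]

/-- An algebra homomorphism is the value at a point. Proof: `Polynomial` homomorphisms are determined by the values of the constants and variables. -/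
theorem evk_ext (φ : k[X][X] →ₐ[k] Ω) (A : k[X][X]) : φ A = evk (φ (C X), φ X) A := by
  have h : (φ : k[X][X] →+* Ω) = (evk (φ (C X), φ X) : k[X][X] →ₐ[k] Ω) := by
    refine Polynomial.ringHom_ext' (Polynomial.ringHom_ext' ?_ ?_) ?_
    · ext c
      have h1 : (C (C c) : k[X][X]) = algebraMap k k[X][X] c := rfl
      change φ (C (C c)) = evk (φ (C X), φ X) (C (C c))
      rw [h1, AlgHom.commutes, AlgHom.commutes]
    · change φ (C X) = evk (φ (C X), φ X) (C X)
      rw [evk_z]
    · change φ X = evk (φ (C X), φ X) X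
      rw [evk_Y]
  exact RingHom.congr_fun h A

variable {g : k[X][X]}

/-- The homomorphism given by a point. -/
noncomputable def phi (g : k[X][X]) {P : Ω × Ω} (h : evk P g = 0) : AdjoinRoot g →ₐ[k] Ω :=
  Ideal.Quotient.liftₐ (Ideal.span {g}) (evk P) fun a ha => by
    obtain ⟨b, rfl⟩ := Ideal.mem_span_singleton'.1 ha
    rw [map_mul, h, mul_zero]

theorem phi_mk {P : Ω × Ω} (h : evk P g = 0) (A : k[X][X]) :
    phi g h (AdjoinRoot.mk g A) = evk P A := rfl

/-- Every homomorphism is given by a point. Proof: `evk_ext` for the composition with `mk g` (as a homomorphism of `k`-algebras). -/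
theorem exists_phi (φ : AdjoinRoot g →ₐ[k] Ω) : ∃ (P : Ω × Ω) (h : evk P g = 0), φ = phi g h := by
  have h1 : ∀ A : k[X][X], φ (AdjoinRoot.mk g A) =
      evk (φ (AdjoinRoot.mk g (C X)), φ (AdjoinRoot.mk g X)) A := fun A =>
    evk_ext (φ.comp (Ideal.Quotient.mkₐ k (Ideal.span {g}))) A
  refine ⟨(φ (AdjoinRoot.mk g (C X)), φ (AdjoinRoot.mk g X)), ?_, ?_⟩
  · rw [← h1, AdjoinRoot.mk_self, map_zero]
  · refine AlgHom.ext fun a => ?_
    obtain ⟨A, rfl⟩ := AdjoinRoot.mk_surjective a
    rw [phi_mk]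
    exact h1 A

theorem phi_inj {P P' : Ω × Ω} (h : evk P g = 0) (h' : evk P' g = 0) (e : phi g h = phi g h') :
    P = P' := by
  have h1 := DFunLike.congr_fun e (AdjoinRoot.mk g (C X))
  have h2 := DFunLike.congr_fun e (AdjoinRoot.mk g X)
  rw [phi_mk, phi_mk, evk_z, evk_z] at h1
  rw [phi_mk, phi_mk, evk_Y, evk_Y] at h2
  exact Prod.ext h1 h2

/-- A monic prime has a positive degree in `Y`. -/
theorem prime_deg (hm : g.Monic) (hp : Prime g) : 0 < g.natDegree :=
  hm.natDegree_pos_of_not_isUnit hp.not_isUnit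

/-- `k[z, Y] / (g)` is finite over `k[z]`. Proof: transcendental: `g ∣ C p` implies `p = 0` (the degree in `Y`); `Module.Finite` over `k[X]` by `Monic.finite_adjoinRoot` (or `AdjoinRoot.powerBasis'`), and `Algebra.adjoin k {z}` is the image of `k[X]`. -/
theorem fz_adj (hm : g.Monic) (hp : Prime g) : Fz k (AdjoinRoot.mk g (C X)) := by
  have hC : ∀ p : k[X], aeval (AdjoinRoot.mk g (C X)) p = AdjoinRoot.mk g (C p) := by
    intro p
    induction p using Polynomial.induction_on' with
    | add p q hp hq => rw [map_add, hp, hq, C_add, map_add]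
    | monomial n a =>
      rw [aeval_monomial, ← C_mul_X_pow_eq_monomial, C_mul, C_pow, map_mul, map_pow]
      rfl
  refine ⟨?_, ?_⟩
  · rw [transcendental_iff]
    intro p h
    rw [hC, AdjoinRoot.mk_eq_zero] at h
    by_contra hp0
    refine hm.not_dvd_of_natDegree_lt (C_ne_zero.2 hp0) ?_ h
    rw [natDegree_C]
    exact prime_deg hm hp
  · have hfin : Module.Finite k[X] (AdjoinRoot g) := hm.finite_adjoinRoot
    obtain ⟨T, hT⟩ := hfin.fg_top
    refine ⟨⟨T, eq_top_iff.2 fun a _ => ?_⟩⟩
    have ha : a ∈ Submodule.span k[X] (T : Set (AdjoinRoot g)) := by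
      rw [hT]
      exact Submodule.mem_top
    induction ha using Submodule.span_induction with
    | mem s hs => exact Submodule.subset_span hs
    | zero => exact zero_mem _
    | add u v _ _ hu hv => exact add_mem (hu trivial) (hv trivial)
    | smul y u _ hu =>
      have hy : AdjoinRoot.mk g (C y) ∈ Algebra.adjoin k {AdjoinRoot.mk g (C X)} := by
        have h1 : aeval (AdjoinRoot.mk g (C X)) y ∈
            Algebra.adjoin k {AdjoinRoot.mk g (C X)} := aeval_mem_adjoin_singleton k _
        rw [hC y] at h1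
        exact h1
      have h2 : y • u = (⟨AdjoinRoot.mk g (C y), hy⟩ :
          Algebra.adjoin k {AdjoinRoot.mk g (C X)}) • u := by
        rw [Algebra.smul_def, Algebra.smul_def]
        rfl
      rw [h2]
      exact Submodule.smul_mem _ _ (hu trivial)

/-- The curve `g = 0` has infinitely many points, so a polynomial with finitely many zeros on it is not `0`. Proof: for every `c ∈ Ω` the polynomial `g(c, Y)` is monic of positive degree. -/
theorem mk_ne [IsAlgClosed Ω] (hm : g.Monic) (hp : Prime g) {x : k[X][X]} (Φ : Finset (Ω × Ω))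
    (h : ∀ P, evk P g = 0 → evk P x = 0 → P ∈ Φ) : AdjoinRoot.mk g x ≠ 0 := by
  intro hx
  rw [AdjoinRoot.mk_eq_zero] at hx
  obtain ⟨b, rfl⟩ := hx
  have hroot : ∀ c : Ω, ∃ w : Ω, evk (c, w) g = 0 := by
    intro c
    have hm1 : (up₂ (algebraMap k Ω) g).Monic := hm.map _
    have hd1 : (up₂ (algebraMap k Ω) g).natDegree = g.natDegree := hm.natDegree_map _
    have hm2 : ((up₂ (algebraMap k Ω) g).map (evalRingHom c)).Monic := hm1.map _
    have hd2 : ((up₂ (algebraMap k Ω) g).map (evalRingHom c)).natDegree = g.natDegree := by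
      rw [hm1.natDegree_map, hd1]
    have hdeg : ((up₂ (algebraMap k Ω) g).map (evalRingHom c)).degree ≠ 0 := by
      refine ne_of_gt (natDegree_pos_iff_degree_pos.1 ?_)
      rw [hd2]
      exact prime_deg hm hp
    obtain ⟨w, hw⟩ := IsAlgClosed.exists_root _ hdeg
    refine ⟨w, ?_⟩
    rw [IsRoot.def, map_evalRingHom_eval] at hw
    rw [evk_eq, ev₂_eq]
    exact hw
  choose w hw using hroot
  have hmem : ∀ c : Ω, (c, w c) ∈ Φ := by
    intro c
    refine h _ (hw c) ?_
    rw [map_mul, hw c, zero_mul]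
  have hinf : Infinite Ω := IsAlgClosed.instInfinite
  have hinj : Function.Injective (fun c : Ω => (⟨(c, w c), hmem c⟩ : Φ)) := by
    intro c c' hcc
    have h1 := congrArg (fun t : Φ => t.1.1) hcc
    exact h1
  exact not_injective_infinite_finite _ hinj

end GM
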