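import Pool.Agent.Lib.MP_f80667_ag.Gm.GpE

/-!
A simple point is regular.
-/

open Polynomial ZC CV

namespace GM

variable {k Ω : Type} [Field k] [Field Ω] [Algebra k Ω] {g : k[X][X]}

/-- The value at a point through `k[X] / τ`. -/
private theorem gpf_ev {P : Ω × Ω} {τ : k[X]} (hτ : τ.eval₂ (algebraMap k Ω) P.1 = 0) (A : k[X][X]) :
    evk P A = (A.map (AdjoinRoot.mk τ)).eval₂ (AdjoinRoot.lift (algebraMap k Ω) P.1 hτ) P.2 := by
  have h : ((evk P : k[X][X] →ₐ[k] Ω) : k[X][X] →+* Ω) =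
      (eval₂RingHom (AdjoinRoot.lift (algebraMap k Ω) P.1 hτ) P.2).comp
        (mapRingHom (AdjoinRoot.mk τ)) := by
    refine Polynomial.ringHom_ext' (Polynomial.ringHom_ext (fun a => ?_) ?_) ?_
    · simp [evk_Cf]
    · simp [evk_z]
    · simp [evk_Y]
  exact DFunLike.congr_fun h A

/-- **A simple point is regular.** Proof: let `k' = k(c) ⊆ Ω`, `A ↦ A(c, Y) ∈ k'[Y]` is onto (`c` is algebraic) with the kernel `(C τ)`, `τ = minpoly k c` (`Polynomial.ker_mapRingHom`). Let `μ` be the minimal polynomial of `w` over `k'`, `g(c, Y) = μ ν`; `ν(w) ≠ 0`, because `g_Y(P) ≠ 0`. Let `S` be a lift of `ν`. If `A(P) = 0` then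
`A(c, Y) = μ β`, `S A - g B` is in the kernel for a lift `B` of `β`, so `τ ∣ S A` modulo `g`. -/
theorem rg_pt [Algebra.IsAlgebraic k Ω] {P : Ω × Ω} (h : evk P g = 0) (h1 : evk P (dY g) ≠ 0) :
    Rg (phi g h) (AdjoinRoot.mk g (C (minpoly k P.1))) := by
  have hint : IsIntegral k P.1 := (Algebra.IsAlgebraic.isAlgebraic P.1).isIntegral
  have hτ : (minpoly k P.1).eval₂ (algebraMap k Ω) P.1 = 0 := minpoly.aeval k P.1
  have hirr : Fact (Irreducible (minpoly k P.1)) := ⟨minpoly.irreducible hint⟩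
  have hev := gpf_ev (P := P) hτ
  have h0 : evk P (C (minpoly k P.1)) = 0 := by rw [evk_Cf, minpoly.aeval]
  generalize minpoly k P.1 = τ at hτ hirr hev h0 ⊢
  set j : AdjoinRoot τ →+* Ω := AdjoinRoot.lift (algebraMap k Ω) P.1 hτ with hj
  set I : Ideal (AdjoinRoot τ)[X] := RingHom.ker (eval₂RingHom j P.2) with hI
  have hmem : ∀ q : (AdjoinRoot τ)[X], q ∈ I ↔ q.eval₂ j P.2 = 0 := fun q => RingHom.mem_ker
  have hμ : ∀ q : (AdjoinRoot τ)[X], q.eval₂ j P.2 = 0 → ∃ β, q = Submodule.IsPrincipal.generator I * β := by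
    intro q hq
    obtain ⟨β, hβ⟩ := (Submodule.IsPrincipal.mem_iff_eq_smul_generator I).1 ((hmem q).2 hq)
    exact ⟨β, by rw [hβ, smul_eq_mul, mul_comm]⟩
  have hμ0 : (Submodule.IsPrincipal.generator I).eval₂ j P.2 = 0 :=
    (hmem _).1 (Submodule.IsPrincipal.generator_mem I)
  generalize Submodule.IsPrincipal.generator I = μ at hμ hμ0
  obtain ⟨ν, hν⟩ := hμ (g.map (AdjoinRoot.mk τ)) (by rw [← hev, h])
  have hν0 : ν.eval₂ j P.2 ≠ 0 := by
    intro hn
    apply h1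
    rw [hev]
    unfold dY
    rw [← derivative_map, hν, derivative_mul, eval₂_add, eval₂_mul, eval₂_mul, hn, hμ0]
    ring
  have hsurj : Function.Surjective (Polynomial.map (AdjoinRoot.mk τ)) :=
    Polynomial.map_surjective _ AdjoinRoot.mk_surjective
  obtain ⟨S, hS⟩ := hsurj ν
  refine ⟨by rw [phi_mk, h0], AdjoinRoot.mk g S, ?_, ?_⟩
  · rw [phi_mk, hev, hS]
    exact hν0
  · intro x hx
    obtain ⟨A, rfl⟩ := AdjoinRoot.mk_surjective x
    rw [phi_mk, hev] at hx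
    obtain ⟨β, hβ⟩ := hμ _ hx
    obtain ⟨B, hB⟩ := hsurj β
    have hz : (S * A - g * B).map (AdjoinRoot.mk τ) = 0 := by
      rw [Polynomial.map_sub, Polynomial.map_mul, Polynomial.map_mul, hS, hβ, hB, hν]
      ring
    have hd : C τ ∣ S * A - g * B := by
      rw [C_dvd_iff_dvd_coeff]
      intro i
      rw [← AdjoinRoot.mk_eq_zero, ← coeff_map, hz, coeff_zero]
    have h2 := map_dvd (AdjoinRoot.mk g) hd
    rwa [map_sub, map_mul, map_mul, AdjoinRoot.mk_self, zero_mul, sub_zero] at h2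

end GM
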