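import Pool.Agent.Lib.MP_f80667_ag.Gm.GpF

/-!
The order at a simple point of a factor of `g`.
-/

open Polynomial ZC CV

namespace GM

variable {k Ω : Type} [Field k] [Field Ω] [Algebra k Ω] {g g₁ : k[X][X]}

private theorem gpg_dY (a b : k[X][X]) : dY (a * b) = dY a * b + a * dY b := derivative_mul

/-- Factors. Proof: `g = g₁ q`, `g_Y = (g₁)_Y q + g₁ q_Y`. -/
theorem fac_dY {P : Ω × Ω} (hd : g₁ ∣ g) (h0 : evk P g₁ = 0) (h1 : evk P (dY g) ≠ 0) :
    evk P (dY g₁) ≠ 0 := by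
  obtain ⟨q, rfl⟩ := hd
  rw [gpg_dY, map_add, map_mul, map_mul, h0, zero_mul, add_zero] at h1
  exact left_ne_zero_of_mul h1

/-- The factors which vanish at `P` are unique. Proof: as `fac_dY`. -/
theorem fac_uniq {P : Ω × Ω} {h h' : k[X][X]} (hd : h * h' ∣ g) (h0 : evk P h = 0)
    (h1 : evk P (dY g) ≠ 0) : evk P h' ≠ 0 := by
  intro h2
  apply h1
  obtain ⟨q, rfl⟩ := hd
  rw [gpg_dY, gpg_dY, map_add, map_mul, map_add, map_mul, map_mul, map_mul, map_mul, h0, h2]
  ring

/-- The Hensel root of `g` is a Hensel root of the factor which vanishes at `P`. Proof: `g = g₁ q`, `q(P) ≠ 0`; `Ω⟦t⟧` is a domain. -/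
theorem hr_fac {P : Ω × Ω} (hd : g₁ ∣ g) (h0 : evk P g₁ = 0) (h1 : evk P (dY g) ≠ 0)
    {W : PowerSeries Ω} (hW : Hr (up₂ (algebraMap k Ω) g) P W) :
    Hr (up₂ (algebraMap k Ω) g₁) P W := by
  obtain ⟨q, rfl⟩ := hd
  obtain ⟨h2, h3⟩ := hW
  refine ⟨h2, ?_⟩
  rw [map_mul, map_mul] at h3
  refine (mul_eq_zero.1 h3).resolve_right fun h4 => ?_
  have h5 := cst_pse P h2 (up₂ (algebraMap k Ω) q)
  rw [h4, map_zero, ← evk_eq] at h5
  exact fac_uniq (dvd_refl (g₁ * q)) h0 h1 h5.symm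

private theorem gpg_order {f : PowerSeries Ω} (h : PowerSeries.constantCoeff f ≠ 0) :
    f.order = 0 :=
  PowerSeries.order_zero_of_unit (PowerSeries.isUnit_iff_constantCoeff.2 (isUnit_iff_ne_zero.2 h))

/-- `τ(c + t)` has the order one. -/
private theorem gpg_tau [CharZero k] [Algebra.IsAlgebraic k Ω] (c : Ω)
    (W : PowerSeries Ω) : (pse c W (up₂ (algebraMap k Ω) (C (minpoly k c)))).order = 1 := by
  have hi : IsIntegral k c := Algebra.IsIntegral.isIntegral c
  have hsep : (minpoly k c).Separable := (minpoly.irreducible hi).separable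
  have h0 : aeval c (minpoly k c) = 0 := minpoly.aeval k c
  have h1 := hsep.aeval_derivative_ne_zero h0
  obtain ⟨u, hu⟩ : X - C c ∣ (minpoly k c).map (algebraMap k Ω) := by
    rw [dvd_iff_isRoot, IsRoot.def, eval_map_algebraMap]
    exact h0
  have h2 : eval c u ≠ 0 := by
    intro h3
    apply h1
    have h4 := congrArg (fun f => eval c (derivative f)) hu
    simp only [derivative_mul, derivative_sub, derivative_X, derivative_C, eval_add, eval_mul,
      eval_sub, eval_X, eval_C, sub_self, zero_mul, add_zero, h3, mul_zero] at h4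
    rw [derivative_map, eval_map_algebraMap] at h4
    exact h4
  have h3 : up₂ (algebraMap k Ω) (C (minpoly k c)) = C (X - C c) * C u := by
    rw [← C_mul, ← hu]
    simp [up₂]
  have h4 : pse c W (C (X - C c)) = PowerSeries.X := by
    rw [C_sub, map_sub, pse_z, pse_C]
    ring
  have h5 : PowerSeries.constantCoeff (pse c W (C u)) = eval c u := by
    have h6 : pse c W (C u) = eval₂ PowerSeries.C (PowerSeries.C c + PowerSeries.X) u := by
      simp [pse]
    rw [h6, hom_eval₂]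
    simp
  rw [h3, map_mul, h4, PowerSeries.order_mul, PowerSeries.order_X, gpg_order (by rwa [h5]),
    add_zero]

/-- **The order.** Proof: `rg_fac` (`GpA.lean`, `fz_adj ..` gives Noetherian) for `rg_pt`: `s a = s' τ ^ m`. The homomorphism `ψ : A → Ω⟦t⟧`, `B ↦ B(c + t, W)`, `W = hrt g P` (`hrt_hr`, `hr_fac`), has the constant coefficient `phi` (`cst_pse`), so `ψ s`, `ψ s'` have the order `0`, and `ψ τ = τ(c + t)` has the order `1` (`τ` is separable: characteristic `0`). So the order of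
`ψ a` is `m` (`PowerSeries.order_mul`, `order_pow`), `odp` is `m`. -/
theorem lu_odp [CharZero k] [Algebra.IsAlgebraic k Ω] (hm : g₁.Monic) (hp : Prime g₁) (hd : g₁ ∣ g)
    {P : Ω × Ω} (h0 : evk P g₁ = 0) (h1 : evk P (dY g) ≠ 0) {x : k[X][X]}
    (hx : AdjoinRoot.mk g₁ x ≠ 0) :
    Lu (phi g₁ h0) (AdjoinRoot.mk g₁ x)
      (AdjoinRoot.mk g₁ (C (minpoly k P.1)) ^
        odp (up₂ (algebraMap k Ω) g) P (up₂ (algebraMap k Ω) x)) := by
  have := AdjoinRoot.isDomain_of_prime hp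
  have := (fz_adj hm hp).noeth
  have hg0 : ev₂ P (up₂ (algebraMap k Ω) g) = 0 := by
    obtain ⟨q, rfl⟩ := hd
    rw [← evk_eq, map_mul, h0, zero_mul]
  have hdY : ev₂ P (dY (up₂ (algebraMap k Ω) g)) = evk P (dY g) := by
    rw [evk_eq]
    congr 1
    unfold dY up₂
    rw [coe_mapRingHom, derivative_map]
  have hW := hrt_hr hg0 (isUnit_iff_ne_zero.2 (by rw [hdY]; exact h1))
  obtain ⟨m, s, s', hs, hs', hss⟩ := rg_fac (rg_pt h0 (fac_dY hd h0 h1)) hx
  have hW1 := hr_fac hd h0 h1 hW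
  obtain ⟨S, rfl⟩ := AdjoinRoot.mk_surjective s
  obtain ⟨S', rfl⟩ := AdjoinRoot.mk_surjective s'
  have hS : (pse P.1 (hrt (up₂ (algebraMap k Ω) g) P) (up₂ (algebraMap k Ω) S)).order = 0 := by
    refine gpg_order ?_
    rw [cst_pse P hW.1, ← evk_eq]
    exact hs
  have hS' : (pse P.1 (hrt (up₂ (algebraMap k Ω) g) P) (up₂ (algebraMap k Ω) S')).order = 0 := by
    refine gpg_order ?_
    rw [cst_pse P hW.1, ← evk_eq]
    exact hs'
  have hdvd : g₁ ∣ S * x - S' * C (minpoly k P.1) ^ m := by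
    rw [← AdjoinRoot.mk_eq_mk, map_mul, map_mul, map_pow]
    exact hss
  have h6 : pse P.1 (hrt (up₂ (algebraMap k Ω) g) P) (up₂ (algebraMap k Ω) (S * x)) =
      pse P.1 (hrt (up₂ (algebraMap k Ω) g) P)
        (up₂ (algebraMap k Ω) (S' * C (minpoly k P.1) ^ m)) := by
    obtain ⟨q, hq⟩ := hdvd
    rw [← sub_eq_zero, ← map_sub, ← map_sub, hq, map_mul, map_mul, hW1.2, zero_mul]
  have h7 := congrArg PowerSeries.order h6
  rw [map_mul, map_mul, map_mul, map_mul, map_pow, map_pow, PowerSeries.order_mul,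
    PowerSeries.order_mul, PowerSeries.order_pow, hS, hS', gpg_tau P.1 _, zero_add,
    zero_add] at h7
  have h8 : odp (up₂ (algebraMap k Ω) g) P (up₂ (algebraMap k Ω) x) = m := by
    unfold odp
    rw [h7]
    simp
  rw [h8]
  exact ⟨_, _, hs, hs', hss⟩

end GM
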