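import Pool.Agent.Lib.MP_f80667_ag.Gm.GpD
import Pool.Agent.Lib.MP_f80667_ag.ZC.Place

/-!
The places at infinity.
-/

open Polynomial ZC

namespace GM

variable {k E : Type} [Field k] [Field E] (V : ValuationSubring E) (ψ : k[X][X] →+* E)
  (hV : ∀ c : k, ψ (C (C c)) ∈ V) (hz : ψ (C X) ∉ V)

include hV hz

omit hV in
private theorem gph_one : 1 < V.valuation (ψ (C X)) := by
  rw [← not_le, ValuationSubring.valuation_le_one_iff]
  exact hz

private theorem gph_pol (f : k[X]) {m : ℕ} (hf : f.natDegree ≤ m) :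
    V.valuation (ψ (C f)) ≤ V.valuation (ψ (C X)) ^ m := by
  have h1 := (gph_one V ψ hz).le
  have h2 : ψ (C f) = ∑ i ∈ Finset.range (f.natDegree + 1),
      ψ (C (C (f.coeff i))) * ψ (C X) ^ i := by
    conv_lhs => rw [f.as_sum_range_C_mul_X_pow]
    rw [map_sum, map_sum]
    refine Finset.sum_congr rfl fun i _ => ?_
    rw [C_mul, map_mul, C_pow, map_pow]
  rw [h2]
  refine V.valuation.map_sum_le fun i hi => ?_
  rw [map_mul, map_pow]
  have h3 : V.valuation (ψ (C (C (f.coeff i)))) ≤ 1 :=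
    (V.valuation_le_one_iff _).2 (hV _)
  have h4 : i ≤ m := by
    have := Finset.mem_range.1 hi
    omega
  calc V.valuation (ψ (C (C (f.coeff i)))) * V.valuation (ψ (C X)) ^ i
      ≤ 1 * V.valuation (ψ (C X)) ^ m := mul_le_mul' h3 (pow_le_pow_right₀ h1 h4)
    _ = _ := one_mul _

omit hV in
set_option linter.unusedSectionVars false in
private theorem gph_div (x : E) (m : ℕ) :
    V.valuation (x / ψ (C X) ^ m) = V.valuation x / V.valuation (ψ (C X)) ^ m := by
  rw [map_div₀, map_pow]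

omit hV in
private theorem gph_pos (m : ℕ) : 0 < V.valuation (ψ (C X)) ^ m := by
  have h1 : (0 : V.ValueGroup) < V.valuation (ψ (C X)) :=
    lt_trans zero_lt_one (gph_one V ψ hz)
  exact pow_pos h1 m

/-- Proof: `z ≠ 0`, `z⁻¹ ∈ V` is a nonunit; the coefficients of `f` are in `V`. -/
theorem inf_pol {f : k[X]} {m : ℕ} (hf : f.natDegree ≤ m) : ψ (C f) / ψ (C X) ^ m ∈ V := by
  rw [← V.valuation_le_one_iff, gph_div V ψ hz, div_le_one₀ (gph_pos V ψ hz m)]
  exact gph_pol V ψ hV hz f hf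

private theorem gph_Y {ρ n : ℕ} {g : k[X][X]} (hg : Mc ρ n g) (h0 : ψ g = 0) :
    V.valuation (ψ X) ≤ V.valuation (ψ (C X)) ^ ρ := by
  by_contra hcon
  rw [not_le] at hcon
  have h1 := gph_one V ψ hz
  have hY : 0 < V.valuation (ψ X) := lt_trans (gph_pos V ψ hz ρ) hcon
  have h2 : ψ g = (∑ j ∈ Finset.range n, ψ (C (g.coeff j)) * ψ X ^ j) + ψ X ^ n := by
    conv_lhs => rw [g.as_sum_range_C_mul_X_pow]
    rw [map_sum, Finset.sum_range_succ, hg.deg]
    have h3 : g.coeff n = 1 := by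
      have h4 := hg.monic.coeff_natDegree
      rwa [hg.deg] at h4
    rw [h3, C_1, one_mul, map_pow]
    congr 1
    refine Finset.sum_congr rfl fun i _ => ?_
    rw [map_mul, map_pow]
  have h5 : V.valuation (∑ j ∈ Finset.range n, ψ (C (g.coeff j)) * ψ X ^ j) <
      V.valuation (ψ X) ^ n := by
    refine V.valuation.map_sum_lt (pow_pos hY n).ne' fun j hj => ?_
    have hjn := Finset.mem_range.1 hj
    rw [map_mul, map_pow]
    have h6 := gph_pol V ψ hV hz (g.coeff j) (hg.le j)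
    have h7 : V.valuation (ψ (C X)) ^ ((n - j) * ρ) < V.valuation (ψ X) ^ (n - j) := by
      rw [mul_comm, pow_mul]
      exact pow_lt_pow_left₀ hcon (gph_pos V ψ hz ρ).le (by omega)
    calc V.valuation (ψ (C (g.coeff j))) * V.valuation (ψ X) ^ j
        ≤ V.valuation (ψ (C X)) ^ ((n - j) * ρ) * V.valuation (ψ X) ^ j :=
          mul_le_mul_left h6 _
      _ < V.valuation (ψ X) ^ (n - j) * V.valuation (ψ X) ^ j :=
          mul_lt_mul_of_pos_right h7 (pow_pos hY j)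
      _ = V.valuation (ψ X) ^ n := by
        rw [← pow_add]
        congr 1
        omega
  have h8 : ψ X ^ n = -∑ j ∈ Finset.range n, ψ (C (g.coeff j)) * ψ X ^ j := by
    rw [h0] at h2
    exact eq_neg_of_add_eq_zero_right h2.symm
  have h9 := congrArg V.valuation h8
  rw [Valuation.map_neg, map_pow] at h9
  exact h5.ne h9.symm

/-- `Y / z ^ ρ` is in the valuation ring. Proof: it satisfies a monic equation of degree `n` over `V` (divide `g(z, Y) = 0` by `z ^ (n ρ)`), `V` is integrally closed. -/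
theorem inf_Y {ρ n : ℕ} {g : k[X][X]} (hg : Mc ρ n g) (h0 : ψ g = 0) : ψ X / ψ (C X) ^ ρ ∈ V := by
  rw [← V.valuation_le_one_iff, gph_div V ψ hz, div_le_one₀ (gph_pos V ψ hz ρ)]
  exact gph_Y V ψ hV hz hg h0

private theorem gph_Wl {ρ n D : ℕ} {g : k[X][X]} (hg : Mc ρ n g) (h0 : ψ g = 0) {A : k[X][X]}
    (hA : Wl ρ D A) : V.valuation (ψ A) < V.valuation (ψ (C X)) ^ D := by
  have h1 := gph_one V ψ hz
  have h2 : ψ A = ∑ j ∈ Finset.range (A.natDegree + 1), ψ (C (A.coeff j)) * ψ X ^ j := by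
    conv_lhs => rw [A.as_sum_range_C_mul_X_pow]
    rw [map_sum]
    refine Finset.sum_congr rfl fun i _ => ?_
    rw [map_mul, map_pow]
  rw [h2]
  refine V.valuation.map_sum_lt (gph_pos V ψ hz D).ne' fun j _ => ?_
  by_cases hj : A.coeff j = 0
  · rw [hj, C_0, map_zero, zero_mul, map_zero]
    exact gph_pos V ψ hz D
  · rw [map_mul, map_pow]
    have h6 := gph_pol V ψ hV hz (A.coeff j) le_rfl
    have h7 : V.valuation (ψ X) ^ j ≤ V.valuation (ψ (C X)) ^ (j * ρ) := by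
      rw [mul_comm, pow_mul]
      exact pow_le_pow_left₀ zero_le (gph_Y V ψ hV hz hg h0) j
    calc V.valuation (ψ (C (A.coeff j))) * V.valuation (ψ X) ^ j
        ≤ V.valuation (ψ (C X)) ^ (A.coeff j).natDegree * V.valuation (ψ (C X)) ^ (j * ρ) :=
          mul_le_mul' h6 h7
      _ = V.valuation (ψ (C X)) ^ ((A.coeff j).natDegree + j * ρ) := (pow_add _ _ _).symm
      _ < V.valuation (ψ (C X)) ^ D := pow_lt_pow_right₀ h1 (hA j hj)

/-- Proof: the terms `z ^ i Y ^ j`, `i + j ρ < D`, divided by `z ^ D` are `(Y / z ^ ρ) ^ j z ^ (-(D - i - j ρ))`. -/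
theorem inf_Wl {ρ n D : ℕ} {g : k[X][X]} (hg : Mc ρ n g) (h0 : ψ g = 0) {A : k[X][X]}
    (hA : Wl ρ D A) : ψ A / ψ (C X) ^ D ∈ V.nonunits := by
  rw [ValuationSubring.mem_nonunits_iff, gph_div V ψ hz, div_lt_one₀ (gph_pos V ψ hz D)]
  exact gph_Wl V ψ hV hz hg h0 hA

private theorem gph_Ut {ρ n D : ℕ} {g : k[X][X]} (hg : Mc ρ n g) (h0 : ψ g = 0) {x : k[X][X]}
    (hx : Ut ρ D x) : V.valuation (ψ x) = V.valuation (ψ (C X)) ^ D := by
  have h1 := gph_Wl V ψ hV hz hg h0 hx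
  have h2 : ψ x = ψ (x - C (X ^ D)) + ψ (C X) ^ D := by
    rw [map_sub, C_pow, map_pow, sub_add_cancel]
  rw [← map_pow] at h1 ⊢
  rw [h2, add_comm]
  exact V.valuation.map_add_eq_of_lt_left h1

/-- **The quotient is a unit.** Proof: `x / z ^ D` and `y / z ^ D` are `1` modulo the nonunits. -/
theorem inf_quo {ρ n D : ℕ} {g : k[X][X]} (hg : Mc ρ n g) (h0 : ψ g = 0) {x y : k[X][X]}
    (hx : Ut ρ D x) (hy : Ut ρ D y) : ψ x / ψ y ∈ V ∧ (ψ x / ψ y)⁻¹ ∈ V := by
  have h1 : V.valuation (ψ x / ψ y) = 1 := by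
    rw [map_div₀, gph_Ut V ψ hV hz hg h0 hx, gph_Ut V ψ hV hz hg h0 hy]
    exact div_self (gph_pos V ψ hz D).ne'
  refine ⟨(V.valuation_le_one_iff _).1 h1.le, (V.valuation_le_one_iff _).1 ?_⟩
  rw [map_inv₀, h1, inv_one]

end GM
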