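import Pool.Agent.Lib.MP_f80667_ag.Gm.GpC
import Pool.Agent.Lib.MP_f80667_ag.Gm.GpG
import Pool.Agent.Lib.MP_f80667_ag.Gm.GpH

/-!
The principal divisor on one component.
-/

open Polynomial ZC BE CV

namespace GM

section

variable {F : Type} [Field F] {k : Type} [Field k] [CharZero k] [Algebra F k] {Ω : Type} [Field Ω]
  [Algebra k Ω] [Algebra F Ω] [IsAlgClosure k Ω]

/-- `V` has a point over the function field of the component `g₁` with the values `pt P` at the points `P ∈ Φ`. -/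
def Gpt (V : Vr F) (g₁ : k[X][X]) (Φ : Finset (Ω × Ω)) (pt : Ω × Ω → V.pt Ω) : Prop :=
  ∀ (E : Type) (_ : Field E) (_ : Algebra (AdjoinRoot g₁) E) (_ : IsFractionRing (AdjoinRoot g₁) E)
    (_ : Algebra k E) (_ : IsScalarTower k (AdjoinRoot g₁) E) (_ : Algebra F E)
    (_ : IsScalarTower F k E), ∃ Q : V.pt (AlgebraicClosure E), V.Rat E Q ∧
      ∀ P ∈ Φ, ∀ w : Place k E Ω, (∀ A : k[X][X],
        ∃ h : algebraMap (AdjoinRoot g₁) E (AdjoinRoot.mk g₁ A) ∈ w.V,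
          w.res ⟨algebraMap (AdjoinRoot g₁) E (AdjoinRoot.mk g₁ A), h⟩ = evk P A) →
        V.IsVal w Q (pt P)

open Classical in
/-- **One component.** Proof: `div_gen` (`GpC.lean`) for `A = AdjoinRoot g₁` (a domain: `AdjoinRoot.isDomain_of_prime`), `E = FractionRing A`, `fz_adj`, `S` = the `phi g₁ _` of the points `P ∈ Φ` with `g₁(P) = 0`, `a`, `b` the orders `odp`; `x`, `y ≠ 0` by `mk_ne`; `Rg` by `rg_pt`, `fac_dY`, `Lu` by `lu_odp`, the
generator is not `0` (`fz_adj .tr`, `minpoly.ne_zero`). For `φ ∉ S`, `φ = phi g₁ P` (`exists_phi`), `P ∉ Φ`, so `x(P)`, `y(P) ≠ 0` and `Lu` is trivial. Infinity: `inf_quo` for the composition of `mk g₁` and `algebraMap A E` (it is `0` on `g`). -/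
theorem pr_one (V : Vr F) {g x y : k[X][X]} {ρ n D : ℕ} (hg : Mc ρ n g) {g₁ : k[X][X]}
    (hm : g₁.Monic) (hp : Prime g₁) (hd : g₁ ∣ g) (hx : Ut ρ D x) (hy : Ut ρ D y)
    (Φ : Finset (Ω × Ω)) (hΦ : ∀ P ∈ Φ, evk P g = 0 ∧ evk P (dY g) ≠ 0)
    (hall : ∀ P : Ω × Ω, evk P g = 0 → evk P x = 0 ∨ evk P y = 0 → P ∈ Φ) (pt : Ω × Ω → V.pt Ω)
    (hpt : Gpt V g₁ Φ pt) :
    ∑ P ∈ Φ with evk P g₁ = 0, Finsupp.single (pt P)
      ((odp (up₂ (algebraMap k Ω) g) P (up₂ (algebraMap k Ω) x) : ℤ) -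
        odp (up₂ (algebraMap k Ω) g) P (up₂ (algebraMap k Ω) y)) ∈ V.ratEq k Ω := by
  have hdom : IsDomain (AdjoinRoot g₁) := AdjoinRoot.isDomain_of_prime hp
  have hΩ : IsAlgClosed Ω := IsAlgClosure.isAlgClosed k
  have halg : Algebra.IsAlgebraic k Ω := IsAlgClosure.isAlgebraic
  have hfz : Fz k (AdjoinRoot.mk g₁ (C X)) := fz_adj hm hp
  have hg0 : ∀ P : Ω × Ω, evk P g₁ = 0 → evk P g = 0 := by
    intro P h
    obtain ⟨q, hq⟩ := hd
    rw [hq, map_mul, h, zero_mul]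
  have hx0 : AdjoinRoot.mk g₁ x ≠ 0 :=
    mk_ne hm hp Φ fun P h h' => hall P (hg0 P h) (Or.inl h')
  have hy0 : AdjoinRoot.mk g₁ y ≠ 0 :=
    mk_ne hm hp Φ fun P h h' => hall P (hg0 P h) (Or.inr h')
  -- the function field
  obtain ⟨Q, hQ, hval⟩ := hpt (FractionRing (AdjoinRoot g₁)) inferInstance inferInstance
    inferInstance inferInstance inferInstance inferInstance inferInstance
  -- the point of a homomorphism
  let pp : (AdjoinRoot g₁ →ₐ[k] Ω) → Ω × Ω := fun φ =>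
    (φ (AdjoinRoot.mk g₁ (C X)), φ (AdjoinRoot.mk g₁ X))
  have hpp : ∀ (P : Ω × Ω) (h : evk P g₁ = 0), pp (phi g₁ h) = P := by
    intro P h
    change (phi g₁ h (AdjoinRoot.mk g₁ (C X)), phi g₁ h (AdjoinRoot.mk g₁ X)) = P
    rw [phi_mk, phi_mk, evk_z, evk_Y]
  let Φ₁ : Finset (Ω × Ω) := Φ.filter fun P => evk P g₁ = 0
  have hΦ₁ : ∀ P ∈ Φ₁, P ∈ Φ ∧ evk P g₁ = 0 := fun P hP => Finset.mem_filter.1 hP
  let S : Finset (AdjoinRoot g₁ →ₐ[k] Ω) := Φ₁.attach.image fun P => phi g₁ (hΦ₁ P.1 P.2).2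
  have hS : ∀ φ ∈ S, ∃ (P : Ω × Ω) (h : evk P g₁ = 0), P ∈ Φ ∧ φ = phi g₁ h := by
    intro φ hφ
    obtain ⟨P, -, hP⟩ := Finset.mem_image.1 hφ
    exact ⟨P.1, (hΦ₁ P.1 P.2).2, (hΦ₁ P.1 P.2).1, hP.symm⟩
  have hS' : ∀ (P : Ω × Ω) (h : evk P g₁ = 0), P ∈ Φ → phi g₁ h ∈ S := by
    intro P h hP
    exact Finset.mem_image.2 ⟨⟨P, Finset.mem_filter.2 ⟨hP, h⟩⟩, Finset.mem_attach _ _, rfl⟩
  have key := div_gen V hfz hx0 hy0 S
    (fun φ => odp (up₂ (algebraMap k Ω) g) (pp φ) (up₂ (algebraMap k Ω) x))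
    (fun φ => odp (up₂ (algebraMap k Ω) g) (pp φ) (up₂ (algebraMap k Ω) y))
    (E := FractionRing (AdjoinRoot g₁)) ?_ ?_ ?_ Q hQ (fun φ => pt (pp φ)) ?_
  · have e1 : ∑ φ ∈ S, Finsupp.single (pt (pp φ))
        ((odp (up₂ (algebraMap k Ω) g) (pp φ) (up₂ (algebraMap k Ω) x) : ℤ) -
          odp (up₂ (algebraMap k Ω) g) (pp φ) (up₂ (algebraMap k Ω) y)) =
        ∑ P ∈ Φ₁, Finsupp.single (pt P)
        ((odp (up₂ (algebraMap k Ω) g) P (up₂ (algebraMap k Ω) x) : ℤ) -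
          odp (up₂ (algebraMap k Ω) g) P (up₂ (algebraMap k Ω) y)) := by
      rw [Finset.sum_image]
      · rw [← Finset.sum_attach Φ₁]
        refine Finset.sum_congr rfl fun P _ => ?_
        rw [hpp]
      · intro P _ P' _ h
        exact Subtype.ext (phi_inj _ _ h)
    rw [← e1]
    exact key
  · intro φ hφ
    obtain ⟨P, h0, hP, rfl⟩ := hS φ hφ
    rw [hpp]
    have h1 : evk P (dY g) ≠ 0 := (hΦ P hP).2
    refine ⟨AdjoinRoot.mk g₁ (C (minpoly k P.1)), ?_, rg_pt h0 (fac_dY hd h0 h1),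
      lu_odp hm hp hd h0 h1 hx0, lu_odp hm hp hd h0 h1 hy0⟩
    intro h2
    have h3 : Polynomial.aeval (AdjoinRoot.mk g₁ (C X : k[X][X])) (minpoly k P.1) = 0 := by
      rw [← h2]
      have h4 : ∀ f : k[X], Polynomial.aeval (AdjoinRoot.mk g₁ (C X : k[X][X])) f =
          AdjoinRoot.mk g₁ (C f) := by
        intro f
        induction f using Polynomial.induction_on' with
        | add p q hp hq => rw [map_add, hp, hq, map_add, map_add]
        | monomial n a =>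
          rw [Polynomial.aeval_monomial, ← Polynomial.C_mul_X_pow_eq_monomial, map_mul, map_mul,
            map_pow, map_pow]
          rfl
      exact h4 _
    exact minpoly.ne_zero (Algebra.IsIntegral.isIntegral P.1)
      ((transcendental_iff.1 hfz.tr) _ h3)
  · intro φ hφ
    obtain ⟨P, h, rfl⟩ := exists_phi φ
    have hP : P ∉ Φ := fun hP => hφ (hS' P h hP)
    have hxP : evk P x ≠ 0 := fun h1 => hP (hall P (hg0 P h) (Or.inl h1))
    have hyP : evk P y ≠ 0 := fun h1 => hP (hall P (hg0 P h) (Or.inr h1))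
    exact ⟨AdjoinRoot.mk g₁ y, AdjoinRoot.mk g₁ x, by rw [phi_mk]; exact hyP,
      by rw [phi_mk]; exact hxP, mul_comm _ _⟩
  · intro w hw
    have hV : ∀ c : k, ((algebraMap (AdjoinRoot g₁) (FractionRing (AdjoinRoot g₁))).comp
        (AdjoinRoot.mk g₁)) (C (C c)) ∈ w.V := fun c => w.mem c
    have h0 : ((algebraMap (AdjoinRoot g₁) (FractionRing (AdjoinRoot g₁))).comp
        (AdjoinRoot.mk g₁)) g = 0 := by
      obtain ⟨q, hq⟩ := hd
      rw [hq, map_mul, RingHom.comp_apply, AdjoinRoot.mk_self, map_zero, zero_mul]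
    exact inf_quo w.V _ hV hw hg h0 hx hy
  · intro φ hφ w hw
    obtain ⟨P, h0, hP, rfl⟩ := hS φ hφ
    rw [hpp]
    exact hval P hP w fun B => hw (AdjoinRoot.mk g₁ B)

end

end GM
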