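import Pool.Agent.Lib.MP_f80667_ag.Gm.GpI

/-!
**PR.** The principal divisors on the curve `g = 0`.
-/

open Polynomial ZC BE CV

namespace GM

section

variable {F : Type} [Field F] {k : Type} [Field k] [CharZero k] [Algebra F k] {Ω : Type} [Field Ω]
  [Algebra k Ω] [Algebra F Ω] [IsAlgClosure k Ω]

omit [CharZero k] in
/-- A monic polynomial `h ≠ 1` in `k[z, Y]` has a monic prime factor. Proof: unique factorization (`WfDvdMonoid.exists_irreducible_factor`, `UniqueFactorizationMonoid.irreducible_iff_prime`); the leading coefficient of a factor of a monic polynomial is a unit. -/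
theorem exists_fac {h : k[X][X]} (hm : h.Monic) (h1 : h ≠ 1) :
    ∃ g₁ h' : k[X][X], g₁.Monic ∧ Prime g₁ ∧ h'.Monic ∧ h = g₁ * h' ∧
      h'.natDegree < h.natDegree := by
  have hu : ¬ IsUnit h := fun h2 => h1 (hm.eq_one_of_isUnit h2)
  obtain ⟨p, hp, q, hq⟩ := WfDvdMonoid.exists_irreducible_factor hu hm.ne_zero
  have hlc : p.leadingCoeff * q.leadingCoeff = 1 := by
    rw [← leadingCoeff_mul, ← hq]
    exact hm
  have hpu : IsUnit p.leadingCoeff := IsUnit.of_mul_eq_one _ hlc
  have hqu : IsUnit q.leadingCoeff := IsUnit.of_mul_eq_one _ (by rw [mul_comm]; exact hlc)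
  have h2 : (C q.leadingCoeff * p).Monic := by
    rw [Monic, leadingCoeff_mul, leadingCoeff_C, mul_comm]
    exact hlc
  have h3 : (C p.leadingCoeff * q).Monic := by
    rw [Monic, leadingCoeff_mul, leadingCoeff_C]
    exact hlc
  have h4 : h = (C q.leadingCoeff * p) * (C p.leadingCoeff * q) := by
    have h5 : C q.leadingCoeff * p * (C p.leadingCoeff * q) =
        C (p.leadingCoeff * q.leadingCoeff) * (p * q) := by
      rw [C_mul]
      ring
    rw [h5, hlc, C_1, one_mul, hq]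
  have hpr : Prime (C q.leadingCoeff * p) := by
    have h5 : Prime p := hp.prime
    have h6 : Associated p (C q.leadingCoeff * p) := by
      rw [mul_comm]
      exact associated_mul_unit_right p _ (isUnit_C.2 hqu)
    exact h6.prime h5
  have hdeg : 0 < (C q.leadingCoeff * p).natDegree := by
    by_contra h0
    have h5 := (h2.natDegree_eq_zero).1 (by omega)
    exact hpr.not_isUnit (by rw [h5]; exact isUnit_one)
  refine ⟨_, _, h2, hpr, h3, h4, ?_⟩
  have h5 := congrArg natDegree h4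
  rw [h2.natDegree_mul h3] at h5
  omega

open Classical in
/-- Induction over the monic divisors `h` of `g`. Proof: induction over `natDegree h`; `h = 1`: no point. `h = g₁ h'` (`exists_fac`): the set of the points of `Φ` with `h(P) = 0` is the disjoint union of those with `g₁(P) = 0` and those with `h'(P) = 0` (`fac_uniq`); `pr_one` if there is a `P ∈ Φ` with `g₁(P) = 0`, otherwise the sum over the first set is `0`. -/
theorem pr_dvd (V : Vr F) {g x y : k[X][X]} {ρ n D : ℕ} (hg : Mc ρ n g) {h : k[X][X]}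
    (hm : h.Monic) (hd : h ∣ g) (hx : Ut ρ D x) (hy : Ut ρ D y)
    (Φ : Finset (Ω × Ω)) (hΦ : ∀ P ∈ Φ, evk P g = 0 ∧ evk P (dY g) ≠ 0)
    (hall : ∀ P : Ω × Ω, evk P g = 0 → evk P x = 0 ∨ evk P y = 0 → P ∈ Φ) (pt : Ω × Ω → V.pt Ω)
    (hpt : ∀ g₁ : k[X][X], g₁.Monic → Prime g₁ → g₁ ∣ g → (∃ P ∈ Φ, evk P g₁ = 0) →
      Gpt V g₁ Φ pt) :
    ∑ P ∈ Φ with evk P h = 0, Finsupp.single (pt P)
      ((odp (up₂ (algebraMap k Ω) g) P (up₂ (algebraMap k Ω) x) : ℤ) -
        odp (up₂ (algebraMap k Ω) g) P (up₂ (algebraMap k Ω) y)) ∈ V.ratEq k Ω := by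
  induction hn : h.natDegree using Nat.strong_induction_on generalizing h with
  | _ n' ih =>
    by_cases h1 : h = 1
    · have h2 : Φ.filter (fun P => evk P h = 0) = ∅ := by
        refine Finset.filter_eq_empty_iff.2 fun P _ => ?_
        rw [h1, map_one]
        exact one_ne_zero
      rw [h2, Finset.sum_empty]
      exact (V.ratEq k Ω).zero_mem
    · obtain ⟨g₁, h', hm1, hp, hm', hh, hlt⟩ := exists_fac hm h1
      have hd1 : g₁ ∣ g := (Dvd.intro _ hh.symm).trans hd
      have hd' : h' ∣ g := (Dvd.intro_left _ hh.symm).trans hd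
      have hsplit : Φ.filter (fun P => evk P h = 0) =
          Φ.filter (fun P => evk P g₁ = 0) ∪ Φ.filter (fun P => evk P h' = 0) := by
        rw [← Finset.filter_or]
        refine Finset.filter_congr fun P _ => ?_
        rw [hh, map_mul, mul_eq_zero]
      have hdis : Disjoint (Φ.filter (fun P => evk P g₁ = 0))
          (Φ.filter (fun P => evk P h' = 0)) := by
        rw [Finset.disjoint_filter]
        intro P hP h2
        exact fac_uniq (g := g) (by rw [← hh]; exact hd) h2 (hΦ P hP).2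
      rw [hsplit, Finset.sum_union hdis]
      refine (V.ratEq k Ω).add_mem ?_ (ih _ (by omega) hm' hd' rfl)
      by_cases hex : ∃ P ∈ Φ, evk P g₁ = 0
      · exact pr_one V hg hm1 hp hd1 hx hy Φ hΦ hall pt (hpt g₁ hm1 hp hd1 hex)
      · have h2 : Φ.filter (fun P => evk P g₁ = 0) = ∅ :=
          Finset.filter_eq_empty_iff.2 fun P hP h3 => hex ⟨P, hP, h3⟩
        rw [h2, Finset.sum_empty]
        exact (V.ratEq k Ω).zero_mem

/-- **PR.** -/
theorem pr_gen (V : Vr F) {g x y : k[X][X]} {ρ n D : ℕ} (hg : Mc ρ n g) (hx : Ut ρ D x)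
    (hy : Ut ρ D y) (Φ : Finset (Ω × Ω)) (hΦ : ∀ P ∈ Φ, evk P g = 0 ∧ evk P (dY g) ≠ 0)
    (hall : ∀ P : Ω × Ω, evk P g = 0 → evk P x = 0 ∨ evk P y = 0 → P ∈ Φ) (pt : Ω × Ω → V.pt Ω)
    (hpt : ∀ g₁ : k[X][X], g₁.Monic → Prime g₁ → g₁ ∣ g → (∃ P ∈ Φ, evk P g₁ = 0) →
      Gpt V g₁ Φ pt) :
    ∑ P ∈ Φ, Finsupp.single (pt P)
      ((odp (up₂ (algebraMap k Ω) g) P (up₂ (algebraMap k Ω) x) : ℤ) -
        odp (up₂ (algebraMap k Ω) g) P (up₂ (algebraMap k Ω) y)) ∈ V.ratEq k Ω := by
  classical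
  have h := pr_dvd V hg hg.monic dvd_rfl hx hy Φ hΦ hall pt hpt
  rwa [Finset.filter_true_of_mem fun P hP => (hΦ P hP).1] at h

end

end GM
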