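import Pool.Agent.Lib.MP_f80667_ag.Gm.GeD
import Pool.Agent.Lib.MP_f80667_ag.Gm.GpJ
import Pool.Agent.Lib.MP_f80667_ag.Be.PlX

/-!
**PR** for hypersurfaces: `g` is a plane curve over `k`, the points `[A_i(c, w)]` are on the hypersurface.
-/

open Polynomial ZC BE CV

namespace GM

section

variable {F : Type} [Field F] {N : ℕ} {G : MvPolynomial (Fin N) F} {k : Type} [Field k]
  [Algebra F k] {Ω : Type} [Field Ω] [Algebra k Ω] [Algebra F Ω]

/-- Homomorphisms and equations. -/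
theorem gpk_eq {R S : Type} [CommRing R] [CommRing S] [Algebra F R] [Algebra F S] (ψ : R →+* S)
    (hψ : ∀ c : F, ψ (algebraMap F R c) = algebraMap F S c) (A : Fin N → R)
    (G : MvPolynomial (Fin N) F) :
    MvPolynomial.aeval (fun i => ψ (A i)) G = ψ (MvPolynomial.aeval A G) := by
  rw [MvPolynomial.aeval_def, MvPolynomial.aeval_def, MvPolynomial.eval₂_comp_left ψ]
  have h : ψ.comp (algebraMap F R) = algebraMap F S := RingHom.ext hψ
  rw [h]
  rfl

/-- The point of the hypersurface over the function field of the component `g₁` and its values. -/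
theorem gpt_h [IsAlgClosed Ω] {g g₁ B : k[X][X]} (hp : Prime g₁) (hd : g₁ ∣ g)
    {A : Fin N → k[X][X]} (hA : g ∣ B * MvPolynomial.aeval A G) {Φ : Finset (Ω × Ω)}
    (hB : ∀ P ∈ Φ, evk P B ≠ 0) {pt : Ω × Ω → (Xh G).pt Ω}
    (hpt : ∀ P ∈ Φ, Co (pt P) fun i => evk P (A i)) (hex : ∃ P ∈ Φ, evk P g₁ = 0) :
    Gpt (Xh G) g₁ Φ pt := by
  intro E _ _ _ _ _ _ _
  obtain ⟨P₀, hP₀, hg₁⟩ := hex
  have h1 : g₁ ∣ MvPolynomial.aeval A G := by
    refine (hp.dvd_or_dvd (hd.trans hA)).resolve_left fun h => ?_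
    obtain ⟨b, rfl⟩ := h
    exact hB P₀ hP₀ (by rw [map_mul, hg₁, zero_mul])
  let ψ : k[X][X] →+* E := (algebraMap (AdjoinRoot g₁) E).comp (AdjoinRoot.mk g₁)
  have hψF : ∀ c : F, ψ (algebraMap F k[X][X] c) = algebraMap F E c := by
    intro c
    have h2 : algebraMap F k[X][X] c = C (C (algebraMap F k c)) := rfl
    have h3 : AdjoinRoot.mk g₁ (C (C (algebraMap F k c))) =
      algebraMap k (AdjoinRoot g₁) (algebraMap F k c) := rfl
    rw [h2]
    change algebraMap (AdjoinRoot g₁) E (AdjoinRoot.mk g₁ (C (C (algebraMap F k c)))) = _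
    rw [h3, ← IsScalarTower.algebraMap_apply k (AdjoinRoot g₁) E,
      ← IsScalarTower.algebraMap_apply F k E]
  have hψ0 : ψ (MvPolynomial.aeval A G) = 0 := by
    change algebraMap (AdjoinRoot g₁) E (AdjoinRoot.mk g₁ (MvPolynomial.aeval A G)) = 0
    rw [AdjoinRoot.mk_eq_zero.2 h1, map_zero]
  let ψ' : k[X][X] →+* AlgebraicClosure E := (algebraMap E (AlgebraicClosure E)).comp ψ
  have hne : (fun i => ψ' (A i)) ≠ 0 := by
    intro h
    obtain ⟨Q, -, hQ⟩ := hpt P₀ hP₀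
    apply Q.ne
    rw [hQ]
    funext i
    have h2 : algebraMap E (AlgebraicClosure E) (ψ (A i)) = 0 := congrFun h i
    have h3 : algebraMap (AdjoinRoot g₁) E (AdjoinRoot.mk g₁ (A i)) = 0 :=
      (map_eq_zero _).1 h2
    have h4 : AdjoinRoot.mk g₁ (A i) = 0 :=
      IsFractionRing.injective (AdjoinRoot g₁) E (by rw [h3, map_zero])
    change evk P₀ (A i) = 0
    rw [← phi_mk hg₁, h4, map_zero]
  let q : Hp G (AlgebraicClosure E) :=
    { x := fun i => ψ' (A i)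
      ne := hne
      eq := by
        rw [gpk_eq ψ' (fun c => ?_)]
        · change algebraMap E (AlgebraicClosure E) (ψ _) = 0
          rw [hψ0, map_zero]
        · change algebraMap E (AlgebraicClosure E) (ψ _) = _
          rw [hψF, ← IsScalarTower.algebraMap_apply F E (AlgebraicClosure E)] }
  refine ⟨Quotient.mk _ q, ?_, ?_⟩
  · intro σ
    refine Quotient.sound ⟨1, one_ne_zero, funext fun i => ?_⟩
    change ψ' (A i) = 1 * σ (ψ' (A i))
    rw [one_mul]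
    exact (σ.commutes (ψ (A i))).symm
  · intro P hP w hw
    obtain ⟨W, h2, h3⟩ := exists_above w
    obtain ⟨Q, hQ, hQx⟩ := hpt P hP
    refine ⟨W, h2, h3, q, Q, rfl, hQ, fun i => ?_⟩
    obtain ⟨h4, h5⟩ := hw (A i)
    refine ⟨(h2 _).2 h4, ?_⟩
    rw [hQx]
    change W.res ⟨algebraMap E (AlgebraicClosure E) (ψ (A i)), _⟩ = evk P (A i)
    rw [← h5]
    exact h3 _ h4 _

/-- **PR.** The divisor of the function `x / y` on the curve `g = 0`. The points `pt P`, `P ∈ Φ`, have the coordinates `A_i(P)`. For a hypersurface and the arc `a(z) + Y v`: `B = 1`. -/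
theorem pr_h [CharZero k] [IsAlgClosure k Ω] {g x y B : k[X][X]} {A : Fin N → k[X][X]}
    (hA : g ∣ B * MvPolynomial.aeval A G) {ρ n D : ℕ} (hg : Mc ρ n g) (hx : Ut ρ D x)
    (hy : Ut ρ D y) {Φ : Finset (Ω × Ω)}
    (hΦ : ∀ P ∈ Φ, evk P g = 0 ∧ evk P (dY g) ≠ 0 ∧ evk P B ≠ 0)
    (hall : ∀ P : Ω × Ω, evk P g = 0 → evk P x = 0 ∨ evk P y = 0 → P ∈ Φ)
    {pt : Ω × Ω → (Xh G).pt Ω} (hpt : ∀ P ∈ Φ, Co (pt P) fun i => evk P (A i)) :
    ∑ P ∈ Φ, Finsupp.single (pt P)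
      ((odp (up₂ (algebraMap k Ω) g) P (up₂ (algebraMap k Ω) x) : ℤ) -
        odp (up₂ (algebraMap k Ω) g) P (up₂ (algebraMap k Ω) y)) ∈ (Xh G).ratEq k Ω := by
  have : IsAlgClosed Ω := IsAlgClosure.isAlgClosed k
  exact pr_gen (Xh G) hg hx hy Φ (fun P hP => ⟨(hΦ P hP).1, (hΦ P hP).2.1⟩) hall pt
    fun g₁ _ hp hd hex => gpt_h hp hd hA (fun P hP => (hΦ P hP).2.2) hpt hex

end

end GM
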