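import Pool.Agent.Lib.MP_f80667_ag.Gm.GsJ

/-! Polynomials of small degree split over `kJ`. -/

open ZC BE PE CV IntermediateField

namespace GM

variable {K Ω : Type} [Field K] [CharZero K] [Field Ω] [Algebra K Ω] [IsAlgClosure K Ω]
  {L : Ld K Ω} {N : ℕ} {J : Submonoid ℕ}

omit [CharZero K] [IsAlgClosure K Ω] in
private theorem gsjs_pow {x : L.κ} {s : ℕ} (h : x ^ L.p ^ (N * s) = x) {t : ℕ} (hst : s ∣ t) :
    x ^ L.p ^ (N * t) = x := by
  obtain ⟨u, rfl⟩ := hst
  rw [← mul_assoc, pow_mul L.p (N * s) u]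
  induction u with
  | zero => rw [pow_zero, pow_one]
  | succ u ih => rw [pow_succ, pow_mul, ih, h]

omit [CharZero K] [IsAlgClosure K Ω] in
/-- A common `s` for the coefficients. -/
private theorem gsjs_coeff (f : Polynomial (kJ L N J)) :
    ∃ s ∈ J, ∀ i, ((f.coeff i : kJ L N J) : L.κ) ^ L.p ^ (N * s) = f.coeff i := by
  choose s hs hx using fun i => (f.coeff i).2
  refine ⟨∏ i ∈ f.support, s i, Submonoid.prod_mem _ fun i _ => hs i, fun i => ?_⟩
  by_cases hi : i ∈ f.support
  · exact gsjs_pow (hx i) (Finset.dvd_prod_of_mem s hi)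
  · rw [Polynomial.notMem_support_iff.1 hi]
    exact zero_pow (pow_ne_zero _ L.pp.ne_zero)

/-- Proof: the coefficients of `f` are fixed by `F : x ↦ x ^ p ^ (N s)` for some `s ∈ J`. Let `x` be a root in `L.κ`. Among the `n + 1` roots `F ^ i x`,
`i ≤ n`, two are equal, so `F ^ e x = x` with `1 ≤ e ≤ n`: `x` is in `kJ` because `s e ∈ J`. -/
theorem kJ_spl (hN : N ≠ 0) (h0 : 0 ∉ J) {n : ℕ} (hJ : ∀ d, d ≠ 0 → d ≤ n → d ∈ J)
    (f : Polynomial (kJ L N J)) (hf : f ≠ 0) (hd : f.natDegree ≤ n) :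
    Multiset.card f.roots = f.natDegree := by
  classical
  have hp : Fact L.p.Prime := ⟨L.pp⟩
  have hc := L.char_κ
  have hΩ : IsAlgClosed Ω := IsAlgClosure.isAlgClosed K
  have hκ : IsAlgClosed L.κ := L.κ_closed
  obtain ⟨s, hs, hx⟩ := gsjs_coeff f
  obtain ⟨φ, hφ⟩ : ∃ φ : L.κ →+* L.κ, ∀ x, φ x = x ^ L.p ^ (N * s) :=
    ⟨iterateFrobenius L.κ L.p (N * s), fun x => iterateFrobenius_def _ _ _⟩
  obtain ⟨g, hg⟩ : ∃ g, g = f.map (kJ L N J).subtype := ⟨_, rfl⟩
  have hg0 : g ≠ 0 := by
    rw [hg]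
    exact (Polynomial.map_ne_zero_iff (kJ L N J).subtype.injective).2 hf
  have hgφ : g.map φ = g := by
    ext i
    rw [Polynomial.coeff_map, hφ, hg, Polynomial.coeff_map]
    exact hx i
  have hroot : ∀ x, x ∈ g.roots → φ x ∈ g.roots := by
    intro x h1
    rw [Polynomial.mem_roots hg0, Polynomial.IsRoot.def] at h1 ⊢
    rw [← hgφ, Polynomial.eval_map, Polynomial.eval₂_at_apply, h1, map_zero]
  rw [← Polynomial.splits_iff_card_roots]
  refine Polynomial.Splits.of_splits_map (kJ L N J).subtype (IsAlgClosed.splits _) ?_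
  rw [← hg]
  intro a ha
  have hit : ∀ i, φ^[i] a ∈ g.roots := by
    intro i
    induction i with
    | zero => exact ha
    | succ i ih =>
      rw [Function.iterate_succ_apply']
      exact hroot _ ih
  have hcard : g.roots.toFinset.card < (Finset.range (n + 1)).card := by
    rw [Finset.card_range]
    refine Nat.lt_succ_of_le ((Multiset.toFinset_card_le _).trans ?_)
    refine (Polynomial.card_roots' g).trans ?_
    rw [hg]
    exact Polynomial.natDegree_map_le.trans hd
  obtain ⟨i, hi, j, hj, hij, he⟩ := Finset.exists_ne_map_eq_of_card_lt_of_maps_to hcard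
    (f := fun i => φ^[i] a) (fun i _ => Multiset.mem_toFinset.2 (hit i))
  have key : ∀ i j, i < j → j ≤ n → φ^[i] a = φ^[j] a → a ∈ kJ L N J := by
    intro i j hij hj he
    have h1 : φ^[j - i] a = a := by
      have h2 : φ^[j] a = φ^[i] (φ^[j - i] a) := by
        rw [← Function.iterate_add_apply]
        congr 2
        omega
      rw [h2] at he
      exact (φ.injective.iterate i he).symm
    have h3 : ∀ e, φ^[e] a = a ^ (L.p ^ (N * s)) ^ e := by
      intro e
      induction e with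
      | zero => rw [pow_zero, pow_one]; rfl
      | succ e ih => rw [Function.iterate_succ_apply', ih, hφ, ← pow_mul, ← pow_succ]
    refine ⟨s * (j - i), J.mul_mem hs (hJ _ (by omega) (by omega)), ?_⟩
    rw [h3, ← pow_mul, mul_assoc] at h1
    exact h1
  have hmem : a ∈ kJ L N J := by
    rw [Finset.mem_range] at hi hj
    rcases Nat.lt_or_gt_of_ne hij with h | h
    · exact key i j h (by omega) he
    · exact key j i h (by omega) he.symm
  exact ⟨⟨a, hmem⟩, rfl⟩

end GM
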