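import Pool.Agent.Lib.MP_f80667_ag.Gm.GsJt
import Pool.Agent.Lib.MP_f80667_ag.Gm.GsJs

/-!
* `Rdv L k x y`: the vector `y` over the subfield `k` of `L.κ` is the residue of the vector `x`.
* `Rdp L k G g`: the polynomial `g` is the residue of the polynomial `G`.
-/

open ZC BE PE CV IntermediateField

namespace GM

section rd

variable {F : Type} [Field F] {n : ℕ} {K Ω : Type} [Field K] [Field Ω] [Algebra K Ω]
  [Algebra F K] [Algebra F Ω] [IsScalarTower F K Ω] (L : Ld K Ω) (k : Subfield L.κ)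

/-- The vector `y` is the residue of the vector `x`. -/
def Rdv (x : Fin n → Ω) (y : Fin n → k) : Prop := ∀ i, L.rs.Hv (x i) (y i : L.κ)

/-- The polynomial `g` is the residue of the polynomial `G`. -/
def Rdp (G : MvPolynomial (Fin n) F) (g : MvPolynomial (Fin n) k) : Prop :=
  ∀ d, L.rs.Hv (algebraMap F Ω (G.coeff d)) ((g.coeff d : k) : L.κ)

variable {L k}

theorem Rdv.add {x x' : Fin n → Ω} {y y' : Fin n → k} (h : Rdv L k x y) (h' : Rdv L k x' y') :
    Rdv L k (x + x') (y + y') := fun i => (h i).add (h' i)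

theorem Rdv.smul {x : Fin n → Ω} {y : Fin n → k} (h : Rdv L k x y) {c : Ω} {t : k}
    (hc : L.rs.Hv c (t : L.κ)) : Rdv L k (c • x) (t • y) := fun i => hc.mul (h i)

section hvs

variable {L₁ Ω₁ : Type} [Field L₁] [Field Ω₁]

private theorem gsA_sum {w : Rs L₁ Ω₁} {ι : Type} (S : Finset ι) {f : ι → L₁} {r : ι → Ω₁}
    (h : ∀ i, w.Hv (f i) (r i)) : w.Hv (∑ i ∈ S, f i) (∑ i ∈ S, r i) := by
  classical
  induction S using Finset.induction_on with
  | empty =>
    rw [Finset.sum_empty, Finset.sum_empty]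
    exact Rs.Hv.zero
  | insert a S ha ih =>
    rw [Finset.sum_insert ha, Finset.sum_insert ha]
    exact (h a).add ih

private theorem gsA_prod {w : Rs L₁ Ω₁} {ι : Type} (S : Finset ι) {f : ι → L₁} {r : ι → Ω₁}
    (h : ∀ i, w.Hv (f i) (r i)) : w.Hv (∏ i ∈ S, f i) (∏ i ∈ S, r i) := by
  classical
  induction S using Finset.induction_on with
  | empty =>
    rw [Finset.prod_empty, Finset.prod_empty]
    exact Rs.Hv.one
  | insert a S ha ih =>
    rw [Finset.prod_insert ha, Finset.prod_insert ha]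
    exact (h a).mul ih

end hvs

/-- Proof: `G` is the sum of its monomials (`MvPolynomial.aeval_def`, `eval₂_eq`), the supports of `g` and `G` (coefficients with residue `0`). -/
theorem Rdp.aeval {G : MvPolynomial (Fin n) F} {g : MvPolynomial (Fin n) k} (h : Rdp L k G g)
    {x : Fin n → Ω} {y : Fin n → k} (hx : Rdv L k x y) :
    L.rs.Hv (MvPolynomial.aeval x G) ((MvPolynomial.eval y g : k) : L.κ) := by
  classical
  have h1 : MvPolynomial.aeval x G = ∑ d ∈ G.support ∪ g.support,
      algebraMap F Ω (G.coeff d) * ∏ i, x i ^ d i := by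
    rw [MvPolynomial.aeval_def, MvPolynomial.eval₂_eq']
    refine Finset.sum_subset Finset.subset_union_left fun d _ hd => ?_
    rw [MvPolynomial.notMem_support_iff.1 hd, map_zero, zero_mul]
  have h2 : ((MvPolynomial.eval y g : k) : L.κ) = ∑ d ∈ G.support ∪ g.support,
      ((g.coeff d : k) : L.κ) * ∏ i, (y i : L.κ) ^ d i := by
    have h3 : MvPolynomial.eval y g = ∑ d ∈ G.support ∪ g.support,
        g.coeff d * ∏ i, y i ^ d i := by
      rw [MvPolynomial.eval_eq']
      refine Finset.sum_subset Finset.subset_union_right fun d _ hd => ?_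
      rw [MvPolynomial.notMem_support_iff.1 hd, zero_mul]
    rw [h3]
    change k.subtype _ = _
    rw [map_sum]
    refine Finset.sum_congr rfl fun d _ => ?_
    rw [map_mul, map_prod]
    simp only [map_pow]
    rfl
  rw [h1, h2]
  exact gsA_sum _ fun d => (h d).mul (gsA_prod _ fun i => (hx i).pow (d i))

/-- Proof: `MvPolynomial.coeff_pderiv` (or by monomials). -/
theorem Rdp.pderiv {G : MvPolynomial (Fin n) F} {g : MvPolynomial (Fin n) k} (h : Rdp L k G g)
    (i : Fin n) : Rdp L k (MvPolynomial.pderiv i G) (MvPolynomial.pderiv i g) := by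
  intro d
  rw [MvPolynomial.coeff_pderiv, MvPolynomial.coeff_pderiv, map_mul]
  have h1 : algebraMap F Ω ((d i : F) + 1) = ((d i + 1 : ℕ) : Ω) := by
    rw [map_add, map_natCast, map_one, Nat.cast_succ]
  have h2 : (((g.coeff (d + Finsupp.single i 1)) * ((d i : k) + 1) : k) : L.κ) =
      ((g.coeff (d + Finsupp.single i 1) : k) : L.κ) * ((d i + 1 : ℕ) : L.κ) := by
    have h3 : (((d i : k) + 1 : k) : L.κ) = ((d i + 1 : ℕ) : L.κ) := by
      change k.subtype ((d i : k) + 1) = _
      rw [map_add, map_natCast, map_one, Nat.cast_succ]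
    rw [← h3]
    rfl
  rw [h1, h2]
  exact (h _).mul (Rs.Hv.nat _)

theorem Rdp.dG {G : MvPolynomial (Fin n) F} {g : MvPolynomial (Fin n) k} (h : Rdp L k G g)
    {x v : Fin n → Ω} {y u : Fin n → k} (hx : Rdv L k x y) (hv : Rdv L k v u) :
    L.rs.Hv (dGo G x v) ((dG g y u : k) : L.κ) := by
  have h1 : ((GM.dG g y u : k) : L.κ) =
      ∑ i, ((MvPolynomial.eval y (MvPolynomial.pderiv i g) : k) : L.κ) * (u i : L.κ) := by
    change k.subtype (∑ i, MvPolynomial.eval y (MvPolynomial.pderiv i g) * u i) = _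
    rw [map_sum]
    refine Finset.sum_congr rfl fun i _ => ?_
    rw [map_mul]
    rfl
  rw [h1]
  exact gsA_sum _ fun i => ((h.pderiv i).aeval hx).mul (hv i)

/-- Homogeneous of the same degree. -/
theorem Rdp.hom {G : MvPolynomial (Fin n) F} {g : MvPolynomial (Fin n) k} (h : Rdp L k G g)
    {e : ℕ} (hG : G.IsHomogeneous e) : g.IsHomogeneous e := by
  intro d hd
  refine hG fun h0 => hd ?_
  have h1 := h d
  rw [h0, map_zero] at h1
  have h2 : ((g.coeff d : k) : L.κ) = 0 := h1.uniq Rs.Hv.zero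
  exact Subtype.ext h2

end rd

end GM
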