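import Pool.Agent.Lib.MP_f80667_ag.Gm.AlG

/-!
The functions on the pairs (point, tangent vector), without coordinates.

* `gl g v b`: the restriction of `g` to the line `b + Y v`. `pw g v y u`: the projection of `u` to the tangent space along `v`.
* `Ft g T`: a function `T` with values in an abelian group which is additive in the tangent vector and satisfies the relations of the curves.
* `Fv g ℓ`: the same for functions with values in the field, linear in the tangent vector.
* `gA A g`: the polynomial `g (A x)`.
-/

open MvPolynomial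

namespace GM

variable {k : Type} [Field k] {N : ℕ}

/-- The restriction of `g` to the line `b + Y v`. -/
noncomputable def gl (g : MvPolynomial (Fin N) k) (v b : Fin N → k) : Polynomial k :=
  aeval (fun i => Polynomial.C (b i) + Polynomial.C (v i) * Polynomial.X) g

/-- The projection of `u` to the tangent space along `v`. -/
noncomputable def pw (g : MvPolynomial (Fin N) k) (v y u : Fin N → k) : Fin N → k :=
  u - (dG g y u / dG g y v) • v

open Classical in
/-- `T` is additive in the tangent vector, homogeneous, `0` on the radial vectors and satisfies the relations of the curves. -/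
structure Ft {B : Type} [AddCommGroup B] (g : MvPolynomial (Fin N) k)
    (T : (Fin N → k) → (Fin N → k) → B) : Prop where
  add : ∀ y u u', Tg g y u → Tg g y u' → T y (u + u') = T y u + T y u'
  hom : ∀ y u (t : k), t ≠ 0 → Tg g y u → T (t • y) (t • u) = T y u
  rad : ∀ y (t : k), Tg g y y → T y (t • y) = 0
  crv : ∀ (v : Fin N → k) (a : Fin N → Polynomial k) (ρ j : ℕ) (S : Finset k) (τ : k),
    eval v g ≠ 0 → (∀ i, (a i).natDegree ≤ ρ) → j * ρ < S.card →
    (∀ c ∈ S, (gl g v (av a c)).Separable) →
    ∑ c ∈ S, ((gl g v (av a c)).roots.map fun w => T (av a c + w • v)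
      ((τ * w ^ j * (∏ c' ∈ S.erase c, (c - c'))⁻¹) • pw g v (av a c + w • v) (dv a c))).sum = 0

open Classical in
/-- The same for functions with values in `k`, linear in the tangent vector. -/
structure Fv (g : MvPolynomial (Fin N) k) (ℓ : (Fin N → k) → (Fin N → k) → k) : Prop where
  add : ∀ y u u', Tg g y u → Tg g y u' → ℓ y (u + u') = ℓ y u + ℓ y u'
  smul : ∀ y u (t : k), Tg g y u → ℓ y (t • u) = t * ℓ y u
  hom : ∀ y u (t : k), t ≠ 0 → Tg g y u → ℓ (t • y) (t • u) = ℓ y u
  rad : ∀ y, Tg g y y → ℓ y y = 0
  crv : ∀ (v : Fin N → k) (a : Fin N → Polynomial k) (ρ j : ℕ) (S : Finset k),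
    eval v g ≠ 0 → (∀ i, (a i).natDegree ≤ ρ) → j * ρ < S.card →
    (∀ c ∈ S, (gl g v (av a c)).Separable) →
    ∑ c ∈ S, (∏ c' ∈ S.erase c, (c - c'))⁻¹ *
      ((gl g v (av a c)).roots.map fun w => w ^ j * ℓ (av a c + w • v)
        (pw g v (av a c + w • v) (dv a c))).sum = 0

/-- Proof: `aeval` and `eval`. -/
theorem gl_eval (g : MvPolynomial (Fin N) k) (v b : Fin N → k) (w : k) :
    (gl g v b).eval w = eval (b + w • v) g := by
  have h : (Polynomial.evalRingHom w).comp
      (aeval (fun i => Polynomial.C (b i) + Polynomial.C (v i) * Polynomial.X) :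
        MvPolynomial (Fin N) k →ₐ[k] Polynomial k).toRingHom =
      MvPolynomial.eval (b + w • v) := by
    apply MvPolynomial.ringHom_ext
    · intro r
      simp
    · intro i
      simp only [AlgHom.toRingHom_eq_coe, RingHom.coe_comp, RingHom.coe_coe, Function.comp_apply,
        aeval_X, Polynomial.coe_evalRingHom, Polynomial.eval_add, Polynomial.eval_mul,
        Polynomial.eval_C, Polynomial.eval_X, eval_X, Pi.add_apply, Pi.smul_apply, smul_eq_mul]
      ring
  exact DFunLike.congr_fun h g

theorem gl_der (g : MvPolynomial (Fin N) k) (v b : Fin N → k) (w : k) :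
    (Polynomial.derivative (gl g v b)).eval w = dG g (b + w • v) v := by
  induction g using MvPolynomial.induction_on with
  | C a => simp [gl, dG]
  | add p q hp hq =>
    have h1 : gl (p + q) v b = gl p v b + gl q v b := by simp [gl]
    have h2 : dG (p + q) (b + w • v) v = dG p (b + w • v) v + dG q (b + w • v) v := by
      unfold dG
      rw [← Finset.sum_add_distrib]
      refine Finset.sum_congr rfl fun i _ => ?_
      rw [map_add, map_add, add_mul]
    rw [h1, h2, Polynomial.derivative_add, Polynomial.eval_add, hp, hq]
  | mul_X p i hp =>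
    have h1 : gl (p * X i) v b =
        gl p v b * (Polynomial.C (b i) + Polynomial.C (v i) * Polynomial.X) := by simp [gl]
    have h2 : dG (p * X i) (b + w • v) v =
        dG p (b + w • v) v * (b i + w * v i) + eval (b + w • v) p * v i := by
      have h3 : ∀ j, eval (b + w • v) (pderiv j (p * X i)) * v j =
          eval (b + w • v) (pderiv j p) * v j * (b i + w * v i) +
            (if i = j then eval (b + w • v) p * v i else 0) := by
        intro j
        rw [Derivation.leibniz, pderiv_X, Pi.single_apply]
        by_cases hj : i = j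
        · subst hj
          simp
          ring
        · simp [hj]
          ring
      unfold dG
      rw [Finset.sum_congr rfl fun j _ => h3 j, Finset.sum_add_distrib, ← Finset.sum_mul,
        Finset.sum_ite_eq]
      simp
    rw [h1, h2, Polynomial.derivative_mul, Polynomial.eval_add, Polynomial.eval_mul,
      Polynomial.eval_mul, hp, gl_eval]
    simp only [Polynomial.derivative_add, Polynomial.derivative_mul, Polynomial.derivative_C,
      Polynomial.derivative_X, Polynomial.eval_add, Polynomial.eval_mul, Polynomial.eval_C,
      Polynomial.eval_X, zero_mul, mul_one, zero_add]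
    ring

/-- The tangent vectors of the curve are tangent vectors. Proof: `w` is a root of `gl g v b`, simple if `gl g v b` is separable: `dG g y v ≠ 0`; `y ≠ 0` because of `n ≥ 2`. -/
theorem tg_pw {g : MvPolynomial (Fin N) k} {n : ℕ} (hg : g.IsHomogeneous n) (hn : 2 ≤ n)
    {v b u : Fin N → k} (h : (gl g v b).Separable) {w : k} (hw : (gl g v b).IsRoot w) :
    Tg g (b + w • v) (pw g v (b + w • v) u) ∧ dG g (b + w • v) v ≠ 0 := by
  have h0 : dG g (b + w • v) v ≠ 0 := by
    intro h1
    obtain ⟨a, c, hac⟩ := h
    have h2 := congrArg (Polynomial.eval w) hac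
    rw [Polynomial.eval_add, Polynomial.eval_mul, Polynomial.eval_mul, gl_der, h1, hw.eq_zero,
      mul_zero, mul_zero, add_zero, Polynomial.eval_one] at h2
    exact zero_ne_one h2
  refine ⟨⟨?_, ?_, ?_⟩, h0⟩
  · intro hy
    apply h0
    rw [hy]
    obtain ⟨m, rfl⟩ : ∃ m, n = m + 1 := ⟨n - 1, by omega⟩
    have h3 := dG_hom hg (0 : Fin N → k) v 0
    rw [zero_smul, zero_pow (by omega), zero_mul] at h3
    exact h3
  · rw [← gl_eval]
    exact hw
  · have h4 : pw g v (b + w • v) u =
        u + (-(dG g (b + w • v) u / dG g (b + w • v) v)) • v := by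
      unfold pw
      rw [neg_smul, sub_eq_add_neg]
    rw [h4, dG_add, dG_smul]
    field_simp
    ring

end GM
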