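import Pool.Agent.Lib.MP_f80667_ag.Gm.GsA
import Pool.Agent.Lib.MP_f80667_ag.Gm.GsD
import Pool.Agent.Lib.MP_f80667_ag.Gm.GxB

/-! Values of `G` at integral vectors. -/

open ZC BE PE CV IntermediateField

namespace GM

variable {F : Type} [Field F] {N n : ℕ} {G : MvPolynomial (Fin N) F} {K Ω : Type} [Field K]
  [CharZero K] [Field Ω] [Algebra K Ω] [Algebra F K] [Algebra F Ω] [IsScalarTower F K Ω]
  [IsAlgClosure K Ω] {L : Ld K Ω}

/-- The value of a polynomial with integral coefficients at an integral vector. -/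
theorem gi_int (hG : Gi G L n) {x : Fin N → Ω} (hx : ∀ i, L.nm (x i) ≤ 1) :
    L.nm (MvPolynomial.aeval x G) ≤ 1 :=
  ae_le hG.int hx

/-- The values are in `M`. -/
theorem gi_mem {M : IntermediateField K Ω} {x : Fin N → Ω} (hx : ∀ i, x i ∈ M) :
    MvPolynomial.aeval x G ∈ M := by
  rw [MvPolynomial.aeval_def, MvPolynomial.eval₂_eq']
  refine sum_mem fun d _ => mul_mem ?_ (prod_mem fun i _ => pow_mem (hx i) _)
  rw [IsScalarTower.algebraMap_apply F K Ω]
  exact M.algebraMap_mem _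

/-- The values of the derivatives are in `M` and integral. -/
theorem gi_dG (hG : Gi G L n) {M : IntermediateField K Ω} {x u : Fin N → Ω} (hx : Iv L M x)
    (hu : Iv L M u) : dGo G x u ∈ M ∧ L.nm (dGo G x u) ≤ 1 := by
  unfold dGo
  refine ⟨sum_mem fun i _ => mul_mem (gi_mem fun j => (hx j).1) (hu i).1,
    L.sum_le _ _ zero_le_one fun i _ => ?_⟩
  rw [L.mul]
  exact mul_le_one₀ (ae_le (pd_int hG.int i) fun j => (hx j).2) (L.nonneg _) (hu i).2

/-- Congruent vectors have congruent values. -/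
theorem gi_cong (hG : Gi G L n) {x x' : Fin N → Ω} (hx : ∀ i, L.nm (x i) ≤ 1)
    (hx' : ∀ i, L.nm (x' i) ≤ 1) {r : ℝ} (hr : 0 ≤ r) (h : ∀ i, L.nm (x i - x' i) ≤ r) :
    L.nm (MvPolynomial.aeval x G - MvPolynomial.aeval x' G) ≤ r :=
  ae_close hG.int hx hx' hr h

theorem gi_cong' (hG : Gi G L n) {x x' u : Fin N → Ω} (hx : ∀ i, L.nm (x i) ≤ 1)
    (hx' : ∀ i, L.nm (x' i) ≤ 1) (hu : ∀ i, L.nm (u i) ≤ 1) {r : ℝ} (hr : 0 ≤ r)
    (h : ∀ i, L.nm (x i - x' i) ≤ r) : L.nm (dGo G x u - dGo G x' u) ≤ r :=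
  dGo_close hG.int hx hx' hu hr h

end GM
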