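import Pool.Agent.Lib.MP_f80667_ag.Gm.GsB

/-! Taylor formula. -/

open ZC BE PE CV IntermediateField

namespace GM

variable {F : Type} [Field F] {N n : ℕ} {G : MvPolynomial (Fin N) F} {K Ω : Type} [Field K]
  [CharZero K] [Field Ω] [Algebra K Ω] [Algebra F K] [Algebra F Ω] [IsScalarTower F K Ω]
  [IsAlgClosure K Ω] {L : Ld K Ω}

/-- the value and the derivative of `P` are integral, and Taylor's formula holds -/
private def TyQ (L : Ld K Ω) (x u : Fin N → Ω) (t : Ω) (P : MvPolynomial (Fin N) F) : Prop :=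
  L.nm (MvPolynomial.aeval x P) ≤ 1 ∧ L.nm (dGo P x u) ≤ 1 ∧
    L.nm (MvPolynomial.aeval (fun i => x i + t * u i) P - MvPolynomial.aeval x P -
      t * dGo P x u) ≤ L.nm t ^ 2

omit [CharZero K] [Algebra F K] [IsScalarTower F K Ω] [IsAlgClosure K Ω] in
private theorem tyq_C {x u : Fin N → Ω} {t : Ω} {c : F} (hc : L.nm (algebraMap F Ω c) ≤ 1) :
    TyQ L x u t (MvPolynomial.C c : MvPolynomial (Fin N) F) := by
  have h0 : dGo (MvPolynomial.C c : MvPolynomial (Fin N) F) x u = 0 := by
    unfold dGo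
    refine Finset.sum_eq_zero fun i _ => ?_
    rw [MvPolynomial.pderiv_C, map_zero, zero_mul]
  refine ⟨?_, ?_, ?_⟩
  · rw [MvPolynomial.aeval_C]
    exact hc
  · rw [h0, L.zero]
    exact zero_le_one
  · rw [h0, MvPolynomial.aeval_C, MvPolynomial.aeval_C, sub_self, mul_zero, sub_zero, L.zero]
    exact pow_nonneg (L.nonneg t) 2

omit [CharZero K] [Algebra F K] [IsScalarTower F K Ω] [IsAlgClosure K Ω] in
private theorem tyq_X {x u : Fin N → Ω} {t : Ω} (hx : ∀ i, L.nm (x i) ≤ 1)
    (hu : ∀ i, L.nm (u i) ≤ 1) (i : Fin N) :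
    TyQ L x u t (MvPolynomial.X i : MvPolynomial (Fin N) F) := by
  have h0 : dGo (MvPolynomial.X i : MvPolynomial (Fin N) F) x u = u i := by
    unfold dGo
    rw [Finset.sum_eq_single i]
    · rw [MvPolynomial.pderiv_X_self, map_one, one_mul]
    · intro j _ hj
      rw [MvPolynomial.pderiv_X_of_ne hj.symm, map_zero, zero_mul]
    · intro h
      exact absurd (Finset.mem_univ i) h
  refine ⟨?_, ?_, ?_⟩
  · rw [MvPolynomial.aeval_X]
    exact hx i
  · rw [h0]
    exact hu i
  · rw [h0, MvPolynomial.aeval_X, MvPolynomial.aeval_X, add_sub_cancel_left, sub_self, L.zero]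
    exact pow_nonneg (L.nonneg t) 2

omit [CharZero K] [Algebra F K] [IsScalarTower F K Ω] [IsAlgClosure K Ω] in
private theorem tyq_add {x u : Fin N → Ω} {t : Ω} {P Q : MvPolynomial (Fin N) F}
    (hP : TyQ L x u t P) (hQ : TyQ L x u t Q) : TyQ L x u t (P + Q) := by
  have h0 : dGo (P + Q) x u = dGo P x u + dGo Q x u := by
    unfold dGo
    rw [← Finset.sum_add_distrib]
    refine Finset.sum_congr rfl fun i _ => ?_
    rw [map_add, map_add, add_mul]
  obtain ⟨h1, h2, h3⟩ := hP
  obtain ⟨k1, k2, k3⟩ := hQ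
  refine ⟨?_, ?_, ?_⟩
  · rw [map_add]
    exact (L.add _ _).trans (max_le h1 k1)
  · rw [h0]
    exact (L.add _ _).trans (max_le h2 k2)
  · have h4 : MvPolynomial.aeval (fun i => x i + t * u i) (P + Q) -
        MvPolynomial.aeval x (P + Q) - t * dGo (P + Q) x u =
        (MvPolynomial.aeval (fun i => x i + t * u i) P - MvPolynomial.aeval x P -
          t * dGo P x u) + (MvPolynomial.aeval (fun i => x i + t * u i) Q -
          MvPolynomial.aeval x Q - t * dGo Q x u) := by
      rw [h0, map_add, map_add]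
      ring
    rw [h4]
    exact (L.add _ _).trans (max_le h3 k3)

omit [CharZero K] [Algebra F K] [IsScalarTower F K Ω] [IsAlgClosure K Ω] in
private theorem tyq_mul {x u : Fin N → Ω} {t : Ω} (ht : L.nm t ≤ 1)
    {P Q : MvPolynomial (Fin N) F}
    (hP : TyQ L x u t P) (hQ : TyQ L x u t Q) : TyQ L x u t (P * Q) := by
  have h0 : dGo (P * Q) x u = dGo P x u * MvPolynomial.aeval x Q +
      MvPolynomial.aeval x P * dGo Q x u := by
    unfold dGo
    rw [Finset.sum_mul, Finset.mul_sum, ← Finset.sum_add_distrib]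
    refine Finset.sum_congr rfl fun i _ => ?_
    rw [MvPolynomial.pderiv_mul, map_add, map_mul, map_mul]
    ring
  obtain ⟨h1, h2, h3⟩ := hP
  obtain ⟨k1, k2, k3⟩ := hQ
  have ht0 := L.nonneg t
  have hb : ∀ {y z : Ω} {r s : ℝ}, L.nm y ≤ r → L.nm z ≤ s → L.nm (y * z) ≤ r * s :=
    fun {y z r s} hy hz => by
      rw [L.mul]
      exact mul_le_mul hy hz (L.nonneg _) ((L.nonneg _).trans hy)
  have hone : (1 : ℝ) * 1 = 1 := one_mul 1
  refine ⟨?_, ?_, ?_⟩
  · rw [map_mul, ← hone]
    exact hb h1 k1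
  · rw [h0]
    refine (L.add _ _).trans (max_le ?_ ?_)
    · rw [← hone]
      exact hb h2 k1
    · rw [← hone]
      exact hb h1 k2
  · obtain ⟨E, hE⟩ : ∃ E, E = MvPolynomial.aeval (fun i => x i + t * u i) P -
        MvPolynomial.aeval x P - t * dGo P x u := ⟨_, rfl⟩
    obtain ⟨E', hE'⟩ : ∃ E', E' = MvPolynomial.aeval (fun i => x i + t * u i) Q -
        MvPolynomial.aeval x Q - t * dGo Q x u := ⟨_, rfl⟩
    rw [← hE] at h3
    rw [← hE'] at k3
    have h4 : MvPolynomial.aeval (fun i => x i + t * u i) (P * Q) -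
        MvPolynomial.aeval x (P * Q) - t * dGo (P * Q) x u =
        MvPolynomial.aeval x P * E' + E * (MvPolynomial.aeval x Q) +
          t ^ 2 * (dGo P x u * dGo Q x u) + (t * dGo P x u) * E' + E * (t * dGo Q x u) +
          E * E' := by
      rw [h0, map_mul, map_mul, hE, hE']
      ring
    rw [h4]
    have ht2 : L.nm (t ^ 2) ≤ L.nm t ^ 2 := le_of_eq (by
      rw [sq, L.mul, ← sq])
    have ht3 : L.nm t ^ 2 ≤ 1 := pow_le_one₀ ht0 ht
    have e1 : L.nm (t * dGo P x u) ≤ 1 := by
      rw [← hone]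
      exact hb ht h2
    have e2 : L.nm (t * dGo Q x u) ≤ 1 := by
      rw [← hone]
      exact hb ht k2
    have e3 : L.nm (dGo P x u * dGo Q x u) ≤ 1 := by
      rw [← hone]
      exact hb h2 k2
    refine (L.add _ _).trans (max_le ((L.add _ _).trans (max_le ((L.add _ _).trans (max_le
      ((L.add _ _).trans (max_le ((L.add _ _).trans (max_le ?_ ?_)) ?_)) ?_)) ?_)) ?_)
    · rw [← one_mul (L.nm t ^ 2)]
      exact hb h1 k3
    · rw [← mul_one (L.nm t ^ 2)]
      exact hb h3 k1
    · rw [← mul_one (L.nm t ^ 2)]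
      exact hb ht2 e3
    · rw [← one_mul (L.nm t ^ 2)]
      exact hb e1 k3
    · rw [← mul_one (L.nm t ^ 2)]
      exact hb h3 e2
    · rw [← mul_one (L.nm t ^ 2)]
      exact hb h3 (k3.trans ht3)

/-- Taylor's formula up to the second order. Proof: for a monomial; `MvPolynomial.induction_on`. -/
theorem gi_taylor (hG : Gi G L n) {x u : Fin N → Ω} (hx : ∀ i, L.nm (x i) ≤ 1)
    (hu : ∀ i, L.nm (u i) ≤ 1) {t : Ω} (ht : L.nm t ≤ 1) :
    L.nm (MvPolynomial.aeval (fun i => x i + t * u i) G - MvPolynomial.aeval x G -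
      t * dGo G x u) ≤ L.nm t ^ 2 := by
  classical
  have hone : L.nm (algebraMap F Ω (1 : F)) ≤ 1 := by
    rw [map_one]
    exact le_of_eq L.one
  have h1 : TyQ L x u t (1 : MvPolynomial (Fin N) F) := by
    have h2 := tyq_C (N := N) (L := L) (x := x) (u := u) (t := t) hone
    rwa [MvPolynomial.C_1] at h2
  have hpow : ∀ (i : Fin N) (k : ℕ),
      TyQ L x u t ((MvPolynomial.X i : MvPolynomial (Fin N) F) ^ k) := by
    intro i k
    induction k with
    | zero =>
      rw [pow_zero]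
      exact h1
    | succ k ih =>
      rw [pow_succ]
      exact tyq_mul ht ih (tyq_X hx hu i)
  have hprod : ∀ (d : Fin N →₀ ℕ) (s : Finset (Fin N)),
      TyQ L x u t (∏ i ∈ s, (MvPolynomial.X i : MvPolynomial (Fin N) F) ^ d i) := by
    intro d s
    exact Finset.prod_induction _ (fun P => TyQ L x u t P) (fun _ _ ha hb => tyq_mul ht ha hb) h1
      fun i _ => hpow i (d i)
  have hG2 : TyQ L x u t G := by
    rw [MvPolynomial.as_sum G]
    refine Finset.sum_induction _ (fun P => TyQ L x u t P) (fun _ _ ha hb => tyq_add ha hb) ?_ ?_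
    · have h2 := tyq_C (N := N) (F := F) (L := L) (x := x) (u := u) (t := t) (c := 0) (by
        rw [map_zero, L.zero]
        exact zero_le_one)
      rwa [MvPolynomial.C_0] at h2
    · intro d _
      rw [MvPolynomial.monomial_eq]
      exact tyq_mul ht (tyq_C (hG.int d)) (hprod d d.support)
  exact hG2.2.2

end GM
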