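import Pool.Agent.Lib.MP_f80667_ag.Gm.GeD
import Pool.Agent.Lib.MP_f80667_ag.Cv.HdB

/-!
Coordinates of the points of a hypersurface; the action of the Galois group.
-/

open ZC BE PE CV IntermediateField

namespace GM

section co

variable {F : Type} [Field F] {N n : ℕ} {G : MvPolynomial (Fin N) F} {E : Type} [Field E]
  [Algebra F E]

theorem co_ne {P : (Xh G).pt E} {x : Fin N → E} (h : Co P x) : x ≠ 0 := by
  obtain ⟨Q, -, rfl⟩ := h
  exact Q.ne

theorem co_zero {P : (Xh G).pt E} {x : Fin N → E} (h : Co P x) : MvPolynomial.aeval x G = 0 := by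
  obtain ⟨Q, -, rfl⟩ := h
  exact Q.eq

theorem exists_co (P : (Xh G).pt E) : ∃ x, Co P x := by
  induction P using Quotient.inductionOn with
  | h Q => exact ⟨Q.x, Q, rfl, rfl⟩

theorem co_mk {x : Fin N → E} (hx : x ≠ 0) (h0 : MvPolynomial.aeval x G = 0) :
    ∃ P : (Xh G).pt E, Co P x := ⟨Quotient.mk _ ⟨x, hx, h0⟩, _, rfl, rfl⟩

theorem co_eq {P P' : (Xh G).pt E} {x : Fin N → E} (h : Co P x) (h' : Co P' x) : P = P' := by
  obtain ⟨Q, rfl, hQ⟩ := h
  obtain ⟨Q', rfl, hQ'⟩ := h'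
  refine Quotient.sound ⟨1, one_ne_zero, ?_⟩
  rw [hQ', hQ]
  exact funext fun i => (one_mul _).symm

theorem co_rel {P : (Xh G).pt E} {x x' : Fin N → E} (h : Co P x) (h' : Co P x') :
    ∃ c, c ≠ 0 ∧ ∀ i, x' i = c * x i := by
  obtain ⟨Q, rfl, rfl⟩ := h
  obtain ⟨Q', hQ, rfl⟩ := h'
  obtain ⟨c, hc, h1⟩ := Quotient.exact hQ
  exact ⟨c, hc, fun i => congrFun h1 i⟩

/-- Proof: `IsHomogeneous.eval₂` or `MvPolynomial.IsHomogeneous.aeval`; the class of the multiple. -/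
theorem co_smul (hG : G.IsHomogeneous n) {P : (Xh G).pt E} {x : Fin N → E} (h : Co P x) {c : E}
    (hc : c ≠ 0) : Co P fun i => c * x i := by
  obtain ⟨Q, rfl, rfl⟩ := h
  have h1 : (fun i => c * Q.x i) ≠ 0 := by
    intro h0
    apply Q.ne
    funext i
    exact (mul_eq_zero.1 (congrFun h0 i)).resolve_left hc
  have h2 : MvPolynomial.aeval (fun i => c * Q.x i) G = 0 := by
    have h3 : (fun i => c * Q.x i) = c • Q.x := rfl
    rw [h3, ZCTr.aeval_smul hG, Q.eq, mul_zero]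
  exact ⟨⟨fun i => c * Q.x i, h1, h2⟩, Quotient.sound ⟨c, hc, rfl⟩, rfl⟩

/-- If one coordinate is equal to `1` for both, the coordinates are equal. -/
theorem co_one {P : (Xh G).pt E} {x x' : Fin N → E} (h : Co P x) (h' : Co P x') {i : Fin N}
    (hi : x i = 1) (hi' : x' i = 1) : x = x' := by
  obtain ⟨c, -, h1⟩ := co_rel h h'
  have h2 := h1 i
  rw [hi, hi', mul_one] at h2
  funext j
  rw [h1 j, ← h2, one_mul]

end co

section act

variable {F : Type} [Field F] {N n : ℕ} {G : MvPolynomial (Fin N) F} {K Ω : Type} [Field K]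
  [Field Ω] [Algebra K Ω] [Algebra F K] [Algebra F Ω] [IsScalarTower F K Ω]

theorem co_act (γ : Ω ≃ₐ[K] Ω) {P : (Xh G).pt Ω} {x : Fin N → Ω} (h : Co P x) :
    Co ((Xh G).act γ P) fun i => γ (x i) := by
  obtain ⟨Q, rfl, rfl⟩ := h
  exact ⟨Q.mp (γ.restrictScalars F : Ω →ₐ[F] Ω), rfl, rfl⟩

theorem fp_co {M : IntermediateField K Ω} {P : (Xh G).pt Ω} {x : Fin N → Ω} (h : Co P x)
    (hx : ∀ i, x i ∈ M) : Fp (Xh G) M P := by
  intro γ hγ
  have h1 := co_act γ h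
  have h2 : (fun i => γ (x i)) = x := funext fun i =>
    (IntermediateField.mem_fixingSubgroup_iff M γ).1 hγ _ (hx i)
  rw [h2] at h1
  exact co_eq h1 h

variable [CharZero K] [IsAlgClosure K Ω]

/-- The coordinates are in `M` if one of them is equal to `1`. Proof: `co_act`, `co_one`, `mem_of_fix`. -/
theorem fp_mem {M : IntermediateField K Ω} {P : (Xh G).pt Ω} (hP : Fp (Xh G) M P)
    {x : Fin N → Ω} (h : Co P x) {i : Fin N} (hi : x i = 1) (j : Fin N) : x j ∈ M := by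
  refine mem_of_fix M fun γ hγ => ?_
  have h1 := co_act γ h
  rw [hP γ hγ] at h1
  exact congrFun (co_one h1 h (by rw [hi, map_one]) hi) j

/-- Proof: the field generated by coordinates. -/
theorem exists_fph (P : (Xh G).pt Ω) :
    ∃ M : IntermediateField K Ω, FiniteDimensional K M ∧ Fp (Xh G) M P := by
  obtain ⟨x, hx⟩ := exists_co P
  have halg : Algebra.IsAlgebraic K Ω := IsAlgClosure.isAlgebraic
  refine ⟨IntermediateField.adjoin K (Set.range x), ?_, fp_co hx fun i =>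
    IntermediateField.subset_adjoin K _ ⟨i, rfl⟩⟩
  exact IntermediateField.finiteDimensional_adjoin fun z _ => (halg.isAlgebraic z).isIntegral

end act

section nrh

variable {F : Type} [Field F] {N n : ℕ} {G : MvPolynomial (Fin N) F} {K Ω : Type} [Field K]
  [Field Ω] [Algebra K Ω] [Algebra F K] [Algebra F Ω] [IsScalarTower F K Ω] {L : Ld K Ω}

/-- Normalized coordinates. Proof: `exists_co`, divide by a coordinate of the greatest norm (`Finset.exists_max_image`), `co_smul`. -/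
theorem exists_nco (hG : G.IsHomogeneous n) (P : (Xh G).pt Ω) :
    ∃ (x : Fin N → Ω) (i : Fin N), Co P x ∧ x i = 1 ∧ ∀ j, L.nm (x j) ≤ 1 := by
  obtain ⟨x, hx⟩ := exists_co P
  obtain ⟨k, hk⟩ : ∃ k, x k ≠ 0 := by
    by_contra hcon
    push Not at hcon
    exact co_ne hx (funext hcon)
  obtain ⟨i, -, hi⟩ := Finset.exists_max_image Finset.univ (fun i => L.nm (x i))
    ⟨k, Finset.mem_univ k⟩
  have h1 : 0 < L.nm (x i) := lt_of_lt_of_le (L.pos hk) (hi k (Finset.mem_univ k))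
  have h2 : x i ≠ 0 := L.ne_zero h1
  refine ⟨fun j => (x i)⁻¹ * x j, i, co_smul hG hx (inv_ne_zero h2), inv_mul_cancel₀ h2,
    fun j => ?_⟩
  rw [L.mul, L.inv, inv_mul_eq_div, div_le_one h1]
  exact hi j (Finset.mem_univ j)

theorem nrh_symm {r : ℝ} {P P' : (Xh G).pt Ω} (h : Nrh G L r P P') : Nrh G L r P' P := by
  obtain ⟨x, x', h1, h2, h3, h4, h5, h6, h7⟩ := h
  exact ⟨x', x, h2, h1, h4, h3, h6, h5, fun i => by rw [L.sub_comm]; exact h7 i⟩

theorem nrh_mono {r r' : ℝ} (hr : r ≤ r') {P P' : (Xh G).pt Ω} (h : Nrh G L r P P') :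
    Nrh G L r' P P' := by
  obtain ⟨x, x', h1, h2, h3, h4, h5, h6, h7⟩ := h
  exact ⟨x, x', h1, h2, h3, h4, h5, h6, fun i => (h7 i).trans hr⟩

theorem nrh_act (γ : Ω ≃ₐ[K] Ω) {r : ℝ} {P P' : (Xh G).pt Ω} (h : Nrh G L r P P') :
    Nrh G L r ((Xh G).act γ P) ((Xh G).act γ P') := by
  obtain ⟨x, x', h1, h2, h3, h4, ⟨i, h5⟩, ⟨i', h6⟩, h7⟩ := h
  refine ⟨_, _, co_act γ h1, co_act γ h2, fun i => ?_, fun i => ?_, ⟨i, ?_⟩, ⟨i', ?_⟩, fun i => ?_⟩
  · rw [L.act]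
    exact h3 i
  · rw [L.act]
    exact h4 i
  · rw [L.act, h5]
  · rw [L.act, h6]
  · rw [← map_sub, L.act]
    exact h7 i

/-- Two systems of primitive integral coordinates differ by a unit. -/
theorem co_unit {P : (Xh G).pt Ω} {x x' : Fin N → Ω} (h : Co P x) (h' : Co P x')
    (hx : ∀ i, L.nm (x i) ≤ 1) (hx' : ∀ i, L.nm (x' i) ≤ 1) (h1 : ∃ i, L.nm (x i) = 1)
    (h1' : ∃ i, L.nm (x' i) = 1) : ∃ c, L.nm c = 1 ∧ ∀ i, x' i = c * x i := by
  obtain ⟨c, -, hc⟩ := co_rel h h'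
  obtain ⟨i, hi⟩ := h1
  obtain ⟨i', hi'⟩ := h1'
  refine ⟨c, le_antisymm ?_ ?_, hc⟩
  · have h2 := hx' i
    rwa [hc i, L.mul, hi, mul_one] at h2
  · rw [hc i', L.mul] at hi'
    rw [← hi']
    exact mul_le_of_le_one_right (L.nonneg c) (hx i')

/-- Proof: `co_unit` for the coordinates of `P'`; multiply the coordinates of `P` by `c` (`co_smul`). -/
theorem nrh_trans (hG : G.IsHomogeneous n) {r : ℝ} {P P' P'' : (Xh G).pt Ω}
    (h : Nrh G L r P P') (h' : Nrh G L r P' P'') : Nrh G L r P P'' := by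
  obtain ⟨x, x', h1, h2, h3, h4, ⟨i, h5⟩, h6, h7⟩ := h
  obtain ⟨y, y', k1, k2, k3, k4, k5, k6, k7⟩ := h'
  obtain ⟨c, hc, hcx⟩ := co_unit h2 k1 h4 k3 h6 k5
  have hc0 : c ≠ 0 := L.ne_zero (by rw [hc]; exact zero_lt_one)
  refine ⟨fun j => c * x j, y', co_smul hG h1 hc0, k2, fun j => ?_, k4, ⟨i, ?_⟩, k6, fun j => ?_⟩
  · rw [L.mul, hc, one_mul]
    exact h3 j
  · rw [L.mul, hc, one_mul, h5]
  · have e1 : c * x j - y' j = c * (x j - x' j) + (y j - y' j) := by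
      rw [hcx j]
      ring
    rw [e1]
    refine (L.add _ _).trans (max_le ?_ (k7 j))
    rw [L.mul, hc, one_mul]
    exact h7 j

/-- Proof: `exists_nco`. -/
theorem nrh_refl (hG : G.IsHomogeneous n) {r : ℝ} (hr : 0 ≤ r) (P : (Xh G).pt Ω) :
    Nrh G L r P P := by
  obtain ⟨x, i, h1, h2, h3⟩ := exists_nco (L := L) hG P
  have h4 : L.nm (x i) = 1 := by rw [h2, L.one]
  refine ⟨x, x, h1, h1, h3, h3, ⟨i, h4⟩, ⟨i, h4⟩, fun j => ?_⟩
  rw [sub_self, L.zero]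
  exact hr

end nrh

end GM
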