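import Pool.Agent.Lib.MP_f80667_ag.Gm.GsC
import Pool.Agent.Lib.MP_f80667_ag.Gm.GxA

/-! Coordinates of points. -/

open ZC BE PE CV IntermediateField

namespace GM

variable {F : Type} [Field F] {N n : ℕ} {G : MvPolynomial (Fin N) F} {K Ω : Type} [Field K]
  [CharZero K] [Field Ω] [Algebra K Ω] [Algebra F K] [Algebra F Ω] [IsScalarTower F K Ω]
  [IsAlgClosure K Ω] {L : Ld K Ω}

/-- A point with coordinates in `M` is fixed. -/
theorem co_fp {M : IntermediateField K Ω} {P : (Xh G).pt Ω} {x : Fin N → Ω} (h : Co P x)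
    (hx : ∀ i, x i ∈ M) : Fp (Xh G) M P := fp_co h hx

/-- A fixed point has primitive integral coordinates in `M`. Proof: a coordinate `≠ 0` of maximal norm is divided out; `γ x = c x` and this coordinate is `1`, so `c = 1`
(`Be/Gal` `mem_of_fix`). -/
theorem fp_cop (hG : G.IsHomogeneous n) {M : IntermediateField K Ω} {P : (Xh G).pt Ω}
    (h : Fp (Xh G) M P) : ∃ x, Co P x ∧ Iv L M x ∧ ∃ i, L.nm (x i) = 1 := by
  obtain ⟨x, i, h1, h2, h3⟩ := exists_nco (L := L) hG P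
  exact ⟨x, h1, fun j => ⟨fp_mem h h1 h2 j, h3 j⟩, i, by rw [h2, L.one]⟩

/-- Two coordinate vectors of a point. -/
theorem co_uniq {P : (Xh G).pt Ω} {x x' : Fin N → Ω} (h : Co P x) (h' : Co P x') :
    ∃ c : Ω, c ≠ 0 ∧ x' = fun i => c * x i := by
  obtain ⟨c, hc, h1⟩ := co_rel h h'
  exact ⟨c, hc, funext h1⟩

theorem co_mul {P : (Xh G).pt Ω} {x : Fin N → Ω} (h : Co P x) {c : Ω} (hc : c ≠ 0)
    (hG : G.IsHomogeneous n) : Co P fun i => c * x i := co_smul hG h hc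

theorem exists_cop (x : Fin N → Ω) (hx : x ≠ 0) (h : MvPolynomial.aeval x G = 0) :
    ∃ P : (Xh G).pt Ω, Co P x := ⟨Quotient.mk _ ⟨x, hx, h⟩, ⟨x, hx, h⟩, rfl, rfl⟩

/-- The trace of `M` over itself. -/
private theorem gsco_rtr {M : IntermediateField K Ω} {z : (Xh G).pt Ω →₀ ℤ}
    (hz : ∀ γ ∈ M.fixingSubgroup, Finsupp.mapDomain ((Xh G).act γ) z = z) :
    rtr (Xh G) M M z = z := by
  have hs : Subsingleton (M.fixingSubgroup ⧸ M.fixingSubgroup.subgroupOf M.fixingSubgroup) := by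
    rw [Subgroup.subgroupOf_self]
    exact QuotientGroup.subsingleton_quotient_top
  letI hu : Unique (M.fixingSubgroup ⧸ M.fixingSubgroup.subgroupOf M.fixingSubgroup) :=
    uniqueOfSubsingleton ((1 : M.fixingSubgroup) : M.fixingSubgroup ⧸ M.fixingSubgroup.subgroupOf M.fixingSubgroup)
  unfold rtr
  rw [finsum_unique]
  exact hz _ (SetLike.coe_mem _)

/-- The points of two congruent coordinate vectors are near: a displacement of level `s` over `M`. -/
theorem dl_of {M : IntermediateField K Ω} {P P' : (Xh G).pt Ω} {x x' : Fin N → Ω} (hP : Co P x)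
    (hP' : Co P' x') (hx : Iv L M x) (hx' : Iv L M x') (h1 : ∃ i, L.nm (x i) = 1)
    {s : ℕ} (hs : s ≠ 0) (h : ∀ i, L.nm (x' i - x i) ≤ L.nm (L.p : Ω) ^ s) :
    (Finsupp.single P' 1 - Finsupp.single P 1 : (Xh G).pt Ω →₀ ℤ) ∈ Dl G L s M := by
  obtain ⟨i, hi⟩ := h1
  have hr : L.nm (L.p : Ω) ^ s < 1 := pow_lt_one₀ (L.nonneg _) L.lt hs
  have hi' : L.nm (x' i) = 1 := by
    have h2 : L.nm (x' i - x i) < L.nm (x i) := by
      rw [hi]
      exact (h i).trans_lt hr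
    rw [L.eq_of_close h2, hi]
  have hF : Fp (Xh G) M P := co_fp hP fun j => (hx j).1
  have hF' : Fp (Xh G) M P' := co_fp hP' fun j => (hx' j).1
  refine AddSubgroup.subset_closure ⟨1, M, P', P, one_ne_zero, le_rfl, Ld.ur_le, hF', hF,
    ⟨x', x, hP', hP, fun j => (hx' j).2, fun j => (hx j).2, ⟨i, hi'⟩, ⟨i, hi⟩, h⟩, ?_⟩
  refine (gsco_rtr fun γ hγ => ?_).symm
  rw [← Finsupp.mapDomain.addMonoidHom_apply, map_sub, Finsupp.mapDomain.addMonoidHom_apply,
    Finsupp.mapDomain.addMonoidHom_apply, Finsupp.mapDomain_single, Finsupp.mapDomain_single,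
    hF γ hγ, hF' γ hγ]

end GM
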