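import Pool.Agent.Lib.MP_f80667_ag.Gm.GsC
import Pool.Agent.Lib.MP_f80667_ag.Cv.Sml

/-! Traces of displacements. -/

open ZC BE PE CV IntermediateField

namespace GM

variable {F : Type} [Field F] {N n : ℕ} {G : MvPolynomial (Fin N) F} {K Ω : Type} [Field K]
  [CharZero K] [Field Ω] [Algebra K Ω] [Algebra F K] [Algebra F Ω] [IsScalarTower F K Ω]
  [IsAlgClosure K Ω] {L : Ld K Ω}

/-- Traces of displacements. Proof: `dsp_tr` (`Cv/Sml`, or `dsp_gen`, `nm_tr`). -/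
theorem dl_tr {M : IntermediateField K Ω} (hM : Um L M) {s : ℕ} {z : (Xh G).pt Ω →₀ ℤ}
    (hz : z ∈ Dl G L s M) : rtr (Xh G) ⊥ M z ∈ Dl G L s ⊥ :=
  dsp_tr ⟨bot_le, hM⟩ hz

/-- Traces of cycles rationally equivalent to `0`: for cycles fixed by the group of `M`. Proof: `nm_ratEq`, `rtr_eq`. -/
theorem rat_tr {M : IntermediateField K Ω} (hM : Um L M) {z : (Xh G).pt Ω →₀ ℤ}
    (hz : z ∈ (Xh G).ratEq M Ω) (hf : Fx M z) : rtr (Xh G) ⊥ M z ∈ (Xh G).ratEq K Ω := by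
  have h := hM.fd
  rw [rtr_eq bot_le]
  exact nm_ratEq hz hf

/-- Displacements are fixed. -/
theorem dl_fx {M : IntermediateField K Ω} [FiniteDimensional K M] {s : ℕ}
    {z : (Xh G).pt Ω →₀ ℤ} (hz : z ∈ Dl G L s M) : Fx M z :=
  dsp_fx hz

end GM
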