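import Pool.Agent.Lib.MP_f80667_ag.Gm.GsD

/-! Change of coordinates. `gA A g`: the polynomial `g (A x)`. -/

open MvPolynomial

namespace GM

variable {k : Type} [Field k] {N : ℕ}

/-- The polynomial `g (A x)`. -/
noncomputable def gA (A : Matrix (Fin N) (Fin N) k) (g : MvPolynomial (Fin N) k) :
    MvPolynomial (Fin N) k := aeval (fun i => ∑ j, C (A i j) * X j) g

theorem gA_eval (A : Matrix (Fin N) (Fin N) k) (g : MvPolynomial (Fin N) k) (x : Fin N → k) :
    eval x (gA A g) = eval (A.mulVec x) g := by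
  have h : (eval x).comp (aeval (fun i => ∑ j, C (A i j) * X j) :
      MvPolynomial (Fin N) k →ₐ[k] MvPolynomial (Fin N) k).toRingHom = eval (A.mulVec x) := by
    apply MvPolynomial.ringHom_ext
    · intro r
      simp
    · intro i
      simp [Matrix.mulVec, dotProduct]
  exact DFunLike.congr_fun h g

private theorem gsda_gl (A : Matrix (Fin N) (Fin N) k) (g : MvPolynomial (Fin N) k)
    (v b : Fin N → k) : gl (gA A g) v b = gl g (A.mulVec v) (A.mulVec b) := by
  have h : (aeval (fun i => Polynomial.C (b i) + Polynomial.C (v i) * Polynomial.X) :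
      MvPolynomial (Fin N) k →ₐ[k] Polynomial k).comp
      (aeval (fun i => ∑ j, C (A i j) * X j) :
        MvPolynomial (Fin N) k →ₐ[k] MvPolynomial (Fin N) k) =
      aeval (fun i => Polynomial.C (A.mulVec b i) + Polynomial.C (A.mulVec v i) *
        Polynomial.X) := by
    apply MvPolynomial.algHom_ext
    intro i
    rw [AlgHom.comp_apply, aeval_X, aeval_X, map_sum]
    have h1 : ∀ j, aeval (fun i => Polynomial.C (b i) + Polynomial.C (v i) * Polynomial.X)
        (C (A i j) * X j : MvPolynomial (Fin N) k) =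
        Polynomial.C (A i j * b j) + Polynomial.C (A i j * v j) * Polynomial.X := by
      intro j
      rw [map_mul, aeval_X, aeval_C]
      change Polynomial.C (A i j) * _ = _
      rw [Polynomial.C_mul, Polynomial.C_mul]
      ring
    rw [Finset.sum_congr rfl fun j _ => h1 j, Finset.sum_add_distrib, ← Finset.sum_mul,
      ← map_sum, ← map_sum]
    rfl
  exact DFunLike.congr_fun h g

private theorem gsda_dG (g : MvPolynomial (Fin N) k) (x u : Fin N → k) :
    dG g x u = (Polynomial.derivative (gl g u x)).eval 0 := by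
  rw [gl_der, zero_smul, add_zero]

theorem gA_dG (A : Matrix (Fin N) (Fin N) k) (g : MvPolynomial (Fin N) k) (x u : Fin N → k) :
    dG (gA A g) x u = dG g (A.mulVec x) (A.mulVec u) := by
  rw [gsda_dG, gsda_dG, gsda_gl]

/-- Proof: `gp (gA A g) m b = gl g (A e_m) (A b)`. -/
theorem gA_gp (A : Matrix (Fin N) (Fin N) k) (g : MvPolynomial (Fin N) k) (m : Fin N)
    (b : Fin N → k) : gp (gA A g) m b = gl g (A.mulVec (Pi.single m 1)) (A.mulVec b) := by
  rw [← gsda_gl]
  unfold gp gl
  have h : (fun i => Polynomial.C (b i) + if i = m then (Polynomial.X : Polynomial k) else 0) =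
      fun i => Polynomial.C (b i) + Polynomial.C ((Pi.single m 1 : Fin N → k) i) *
        Polynomial.X := by
    funext i
    by_cases hi : i = m
    · subst hi
      rw [if_pos rfl, Pi.single_eq_same, Polynomial.C_1, one_mul]
    · rw [if_neg hi, Pi.single_eq_of_ne hi, Polynomial.C_0, zero_mul]
  rw [h]

private theorem gsda_free {m : Fin N} {D : MvPolynomial (Fin N) k} (h : degreeOf m D = 0)
    (b : Fin N → k) : gp D m b = Polynomial.C (eval b D) := by
  classical
  have h1 : gp D m b = aeval (fun i => Polynomial.C (b i)) D := by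
    refine MvPolynomial.eval₂Hom_congr' rfl (fun i hi _ => ?_) rfl
    have him : i ≠ m := by
      rintro rfl
      obtain ⟨d, hd, hi⟩ := (mem_vars i).1 hi
      exact Finsupp.mem_support_iff.1 hi (Nat.le_zero.1 (degreeOf_le_iff.1 h.le d hd))
    rw [if_neg him, add_zero]
  rw [h1]
  exact aeval_algebraMap_apply (A := k) (B := Polynomial k) b D

private theorem gsda_sep {G : MvPolynomial (Fin N) k} {D : MvPolynomial (Fin N) k} {m : Fin N}
    (hD : Dsc G m D) {b : Fin N → k} (h : eval b D ≠ 0) : (gp G m b).Separable := by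
  obtain ⟨A, B, hAB⟩ := hD.bez
  have h1 : gp A m b * gp G m b + gp B m b * gp (pderiv m G) m b = Polynomial.C (eval b D) := by
    rw [← gsda_free hD.free, ← hAB]
    unfold gp
    rw [map_add, map_mul, map_mul]
  refine ⟨Polynomial.C (eval b D)⁻¹ * gp A m b, Polynomial.C (eval b D)⁻¹ * gp B m b, ?_⟩
  rw [gp_der, mul_assoc, mul_assoc, ← mul_add, h1, ← Polynomial.C_mul, inv_mul_cancel₀ h,
    Polynomial.C_1]

private theorem gsda_single (G : MvPolynomial (Fin N) k) (m : Fin N) (y : Fin N → k) :
    dG G y (Pi.single m 1) = eval y (pderiv m G) := by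
  unfold dG
  rw [Finset.sum_eq_single m]
  · rw [Pi.single_eq_same, mul_one]
  · intro i _ hi
    rw [Pi.single_eq_of_ne hi, mul_zero]
  · intro h
    exact absurd (Finset.mem_univ m) h

private theorem gsda_sh (A : Matrix (Fin N) (Fin N) k) (m : Fin N) (b : Fin N → k) (w : k) :
    A.mulVec (sh m b w) = A.mulVec b + w • A.mulVec (Pi.single m 1) := by
  have h : sh m b w = b + w • (Pi.single m 1 : Fin N → k) := by
    funext i
    rw [sh, Pi.add_apply, Pi.smul_apply, smul_eq_mul]
    by_cases hi : i = m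
    · subst hi
      rw [if_pos rfl, Pi.single_eq_same, mul_one]
    · rw [if_neg hi, Pi.single_eq_of_ne hi, mul_zero]
  rw [h, Matrix.mulVec_add, Matrix.mulVec_smul]

private theorem gsda_pv (A : Matrix (Fin N) (Fin N) k) (g : MvPolynomial (Fin N) k) (m : Fin N)
    (y u : Fin N → k) : A.mulVec (pv (gA A g) m y u) =
      pw g (A.mulVec (Pi.single m 1)) (A.mulVec y) (A.mulVec u) := by
  have h : pv (gA A g) m y u = u - (dG (gA A g) y u / eval y (pderiv m (gA A g))) •
      (Pi.single m 1 : Fin N → k) := by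
    funext i
    rw [pv, Pi.sub_apply, Pi.smul_apply, smul_eq_mul]
    by_cases hi : i = m
    · subst hi
      rw [if_pos rfl, Pi.single_eq_same, mul_one]
    · rw [if_neg hi, Pi.single_eq_of_ne hi, mul_zero]
  rw [h, Matrix.mulVec_sub, Matrix.mulVec_smul, ← gsda_single, gA_dG, gA_dG]
  rfl

/-- **Change of coordinates.** Proof: `gA_eval`, `gA_dG`, `gA_gp`; the arc `A a`; `Δ m (b) ≠ 0` implies that `gp (gA A g) m b` is separable (`bez`, `Δ m` does not depend on the variable `m`; as
in `Hy.sep`), and `eval (A e_m) g ≠ 0` (`hne`). -/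
theorem Fv.fn {g : MvPolynomial (Fin N) k} {ℓ : (Fin N → k) → (Fin N → k) → k} (h : Fv g ℓ)
    {A : Matrix (Fin N) (Fin N) k} (hA : IsUnit A) {Δ : Fin N → MvPolynomial (Fin N) k}
    (hD : ∀ m, Dsc (gA A g) m (Δ m)) (hne : ∀ m, eval (A.mulVec (Pi.single m 1)) g ≠ 0) :
    Fn (gA A g) Δ fun y u => ℓ (A.mulVec y) (A.mulVec u) := by
  have htg : ∀ y u, Tg (gA A g) y u → Tg g (A.mulVec y) (A.mulVec u) := by
    intro y u hu
    refine ⟨fun h0 => hu.1 ?_, ?_, ?_⟩
    · have h1 := Matrix.mulVec_injective_iff_isUnit.2 hA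
      exact h1 (by rw [h0, Matrix.mulVec_zero])
    · rw [← gA_eval]
      exact hu.2.1
    · rw [← gA_dG]
      exact hu.2.2
  refine ⟨?_, ?_, ?_, ?_, ?_⟩
  · intro y u u' hu hu'
    simp only [Matrix.mulVec_add]
    exact h.add _ _ _ (htg y u hu) (htg y u' hu')
  · intro y u t hu
    simp only [Matrix.mulVec_smul]
    exact h.smul _ _ t (htg y u hu)
  · intro y u t ht hu
    simp only [Matrix.mulVec_smul]
    exact h.hom _ _ t ht (htg y u hu)
  · intro y hy
    exact h.rad _ (htg y y hy)
  · intro m a ρ j s ha hj hs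
    obtain ⟨a', ha'⟩ : ∃ a' : Fin N → Polynomial k, a' = fun i => ∑ t, Polynomial.C (A i t) * a t :=
      ⟨_, rfl⟩
    have hav : ∀ c, av a' c = A.mulVec (av a c) := by
      intro c
      funext i
      rw [ha']
      simp only [av, Matrix.mulVec, dotProduct]
      rw [Polynomial.eval_finsetSum]
      exact Finset.sum_congr rfl fun t _ => by rw [Polynomial.eval_mul, Polynomial.eval_C]
    have hdv : ∀ c, dv a' c = A.mulVec (dv a c) := by
      intro c
      funext i
      rw [ha']
      simp only [dv, Matrix.mulVec, dotProduct]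
      rw [map_sum, Polynomial.eval_finsetSum]
      refine Finset.sum_congr rfl fun t _ => ?_
      rw [Polynomial.derivative_C_mul, Polynomial.eval_mul, Polynomial.eval_C]
    have h1 := h.crv (A.mulVec (Pi.single m 1)) a' ρ j s (hne m) (fun i => by
      rw [ha']
      refine Polynomial.natDegree_sum_le_of_forall_le _ _ fun t _ => ?_
      exact (Polynomial.natDegree_C_mul_le _ _).trans (ha t)) hj (fun c hc => by
        rw [hav, ← gA_gp]
        exact gsda_sep (hD m) (hs c hc))
    rw [dd, ← h1]
    refine Finset.sum_congr rfl fun c _ => ?_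
    congr 1
    unfold Pj
    rw [hav, hdv, ← gA_gp]
    refine congrArg _ (Multiset.map_congr rfl fun w _ => ?_)
    rw [← gsda_sh, ← gsda_pv]

end GM
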