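import Pool.Agent.Lib.MP_f80667_ag.Gm.GdB

/-! Good directions at a point. -/

open MvPolynomial

namespace GM

variable {k : Type} [Field k] {N : ℕ}

private theorem eval_det_mvPolynomialX_gsDd (a : Fin N × Fin N → k) :
    eval a (Matrix.mvPolynomialX (Fin N) (Fin N) k).det = (Matrix.of fun i j => a (i, j)).det := by
  rw [RingHom.map_det]
  congr 1
  ext i j
  simp [Matrix.mvPolynomialX_apply]

/-- A matrix whose columns are not zeros of `D`. Proof: the product of the determinant of the generic matrix and of the `D` of its columns is not `0`. -/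
theorem exists_dmat [Infinite k] {D : MvPolynomial (Fin N) k} (hD : D ≠ 0) :
    ∃ A : Matrix (Fin N) (Fin N) k, IsUnit A ∧ ∀ m, eval (fun i => A i m) D ≠ 0 := by
  classical
  obtain ⟨P, hP⟩ : ∃ P : MvPolynomial (Fin N × Fin N) k,
      P = (Matrix.mvPolynomialX (Fin N) (Fin N) k).det * ∏ m, rename (fun i => (i, m)) D :=
    ⟨_, rfl⟩
  have hP0 : P ≠ 0 := by
    rw [hP]
    refine mul_ne_zero (Matrix.det_mvPolynomialX_ne_zero (Fin N) k) ?_
    refine Finset.prod_ne_zero_iff.2 fun m _ => ?_
    intro h0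
    apply hD
    have hinj : Function.Injective fun i : Fin N => (i, m) := fun a b hab => (Prod.mk.inj hab).1
    exact rename_injective _ hinj (by rw [h0, map_zero])
  obtain ⟨a, ha⟩ : ∃ a, eval a P ≠ 0 := by
    by_contra hcon
    push Not at hcon
    exact hP0 (MvPolynomial.funext fun a => by rw [hcon a, map_zero])
  rw [hP, map_mul, map_prod] at ha
  refine ⟨Matrix.of fun i j => a (i, j), ?_, fun m => ?_⟩
  · rw [Matrix.isUnit_iff_isUnit_det, isUnit_iff_ne_zero]
    have h1 := left_ne_zero_of_mul ha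
    rw [eval_det_mvPolynomialX_gsDd] at h1
    exact h1
  · have h1 := Finset.prod_ne_zero_iff.1 (right_ne_zero_of_mul ha) m (Finset.mem_univ m)
    rw [eval_rename] at h1
    exact h1

/-- **The directions.** Through every point `y` of a smooth hypersurface there are `N` linearly independent lines which meet it in different points. Proof (block DIR): `Q(t) = g (v + t y)` in
`k[v][t]` is squarefree of degree `n - 1`; see `h65_g2.md`, section 5. -/
theorem exists_dirs [Infinite k] {p n : ℕ} (hp : p.Prime) [CharP k p] (hnp : n < p) (hn : 2 ≤ n)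
    (hN : 2 ≤ N) {g : MvPolynomial (Fin N) k} (hg : g.IsHomogeneous n)
    (hs : ∃ s : ℕ, ∀ i, (X i : MvPolynomial (Fin N) k) ^ s ∈
      Ideal.span (Set.range fun j => pderiv j g)) {y : Fin N → k} (hy : y ≠ 0)
    (hy0 : eval y g = 0) :
    ∃ A : Matrix (Fin N) (Fin N) k, IsUnit A ∧ ∀ m, eval (A.mulVec (Pi.single m 1)) g ≠ 0 ∧
      (gl g (A.mulVec (Pi.single m 1)) y).Separable := by
  obtain ⟨D, hD, h⟩ := dir_pol hn hg (fun i hi hin h0 => by
    rw [CharP.cast_eq_zero_iff k p] at h0
    exact absurd (Nat.le_of_dvd (Nat.pos_of_ne_zero hi) h0) (by omega)) hs hy hy0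
  obtain ⟨A, hA, hm⟩ := exists_dmat hD
  refine ⟨A, hA, fun m => ?_⟩
  have h1 : A.mulVec (Pi.single m 1) = fun i => A i m := by
    rw [Matrix.mulVec_single_one]
    rfl
  rw [h1]
  exact h _ (hm m)

end GM
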