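import Pool.Agent.Lib.MP_f80667_ag.Gm.GsDa

/-! The discriminants. -/

open MvPolynomial

namespace GM

variable {k : Type} [Field k] {N : ℕ}

/-- `G` as a polynomial in the variable `m`. -/
private noncomputable def pm (m : Fin N) (G : MvPolynomial (Fin N) k) :
    Polynomial (MvPolynomial (Fin N) k) :=
  aeval (fun i => if i = m then Polynomial.X else Polynomial.C (X i)) G

private theorem pm_C (m : Fin N) (a : k) :
    pm m (C a : MvPolynomial (Fin N) k) = Polynomial.C (C a) := by
  unfold pm
  rw [aeval_C]
  rfl

private theorem pm_add (m : Fin N) (p q : MvPolynomial (Fin N) k) :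
    pm m (p + q) = pm m p + pm m q := map_add _ _ _

private theorem pm_mul_X (m : Fin N) (p : MvPolynomial (Fin N) k) (i : Fin N) :
    pm m (p * X i) = pm m p * if i = m then Polynomial.X else Polynomial.C (X i) := by
  unfold pm
  rw [map_mul, aeval_X]

private theorem pm_map (m : Fin N) (z : Fin N → k) (G : MvPolynomial (Fin N) k) :
    (pm m G).map (eval z) = (gp G m z).comp (Polynomial.X - Polynomial.C (z m)) := by
  induction G using MvPolynomial.induction_on with
  | C a =>
    unfold gp
    rw [pm_C, Polynomial.map_C, eval_C, aeval_C, Polynomial.algebraMap_apply,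
      Algebra.algebraMap_self, RingHom.id_apply, Polynomial.C_comp]
  | add p q hp hq =>
    have e : gp (p + q) m z = gp p m z + gp q m z := map_add _ _ _
    rw [pm_add, Polynomial.map_add, hp, hq, e, Polynomial.add_comp]
  | mul_X p i hp =>
    have e : gp (p * X i) m z = gp p m z * (Polynomial.C (z i) + if i = m then Polynomial.X
        else 0) := by
      unfold gp
      rw [map_mul, aeval_X]
    rw [pm_mul_X, Polynomial.map_mul, hp, e, Polynomial.mul_comp]
    congr 1
    by_cases h : i = m
    · rw [if_pos h, if_pos h, Polynomial.map_X, Polynomial.add_comp, Polynomial.C_comp,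
        Polynomial.X_comp, h]
      ring
    · rw [if_neg h, if_neg h, Polynomial.map_C, eval_X, add_zero, Polynomial.C_comp]

private theorem pm_eval (m : Fin N) (G : MvPolynomial (Fin N) k) :
    (pm m G).eval (X m) = G := by
  induction G using MvPolynomial.induction_on with
  | C a => rw [pm_C, Polynomial.eval_C]
  | add p q hp hq => rw [pm_add, Polynomial.eval_add, hp, hq]
  | mul_X p i hp =>
    rw [pm_mul_X, Polynomial.eval_mul, hp]
    split_ifs with h
    · rw [Polynomial.eval_X, h]
    · rw [Polynomial.eval_C]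

private theorem pm_der (m : Fin N) (G : MvPolynomial (Fin N) k) :
    (Polynomial.derivative (pm m G)).eval (X m) = pderiv m G := by
  induction G using MvPolynomial.induction_on with
  | C a => rw [pm_C, Polynomial.derivative_C, Polynomial.eval_zero, pderiv_C]
  | add p q hp hq =>
    rw [pm_add, Polynomial.derivative_add, Polynomial.eval_add, hp, hq, map_add]
  | mul_X p i hp =>
    rw [pm_mul_X, Polynomial.derivative_mul, Polynomial.eval_add, Polynomial.eval_mul,
      Polynomial.eval_mul, hp, pm_eval, pderiv_mul]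
    by_cases h : i = m
    · subst h
      rw [if_pos rfl, Polynomial.eval_X, Polynomial.derivative_X, Polynomial.eval_one,
        pderiv_X_self]
    · rw [if_neg h, Polynomial.eval_C, Polynomial.derivative_C, Polynomial.eval_zero,
        pderiv_X_of_ne h]

/-- The variable `m` is replaced by `0`. -/
private noncomputable def kl (m : Fin N) : MvPolynomial (Fin N) k →ₐ[k] MvPolynomial (Fin N) k :=
  aeval (fun i => if i = m then 0 else X i)

private theorem pm_kl (m : Fin N) (G : MvPolynomial (Fin N) k) :
    (pm m G).map (kl m : MvPolynomial (Fin N) k →ₐ[k] MvPolynomial (Fin N) k).toRingHom =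
      pm m G := by
  induction G using MvPolynomial.induction_on with
  | C a =>
    rw [pm_C, Polynomial.map_C]
    congr 1
    exact aeval_C _ _
  | add p q hp hq => rw [pm_add, Polynomial.map_add, hp, hq]
  | mul_X p i hp =>
    rw [pm_mul_X, Polynomial.map_mul, hp]
    congr 1
    by_cases h : i = m
    · rw [if_pos h, Polynomial.map_X]
    · rw [if_neg h, Polynomial.map_C]
      congr 1
      show kl m (X i) = X i
      unfold kl
      rw [aeval_X, if_neg h]

private theorem kl_supp (m : Fin N) (F : MvPolynomial (Fin N) k) :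
    kl m F ∈ supported k {i : Fin N | i ≠ m} := by
  induction F using MvPolynomial.induction_on with
  | C a =>
    have e : kl m (C a : MvPolynomial (Fin N) k) = algebraMap k _ a := aeval_C _ _
    rw [e]
    exact Subalgebra.algebraMap_mem _ _
  | add p q hp hq =>
    rw [map_add]
    exact add_mem hp hq
  | mul_X p i hp =>
    rw [map_mul]
    refine mul_mem hp ?_
    unfold kl
    rw [aeval_X]
    split_ifs with h
    · exact zero_mem _
    · exact X_mem_supported.2 h

private theorem pm_sum (m : Fin N) (G : MvPolynomial (Fin N) k) :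
    pm m G = ∑ d ∈ G.support, Polynomial.C (C (coeff d G) * ∏ i ∈ Finset.univ.erase m,
      X i ^ d i) * Polynomial.X ^ d m := by
  unfold pm
  rw [aeval_def, eval₂_eq']
  refine Finset.sum_congr rfl fun d _ => ?_
  rw [← Finset.mul_prod_erase _ _ (Finset.mem_univ m), if_pos rfl, map_mul, map_prod]
  have e : ∏ i ∈ Finset.univ.erase m, (if i = m then (Polynomial.X :
      Polynomial (MvPolynomial (Fin N) k)) else Polynomial.C (X i)) ^ d i =
      ∏ i ∈ Finset.univ.erase m, Polynomial.C (X i ^ d i) := by
    refine Finset.prod_congr rfl fun i hi => ?_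
    rw [if_neg (Finset.ne_of_mem_erase hi), map_pow]
  rw [e]
  have e2 : algebraMap k (Polynomial (MvPolynomial (Fin N) k)) (coeff d G) =
      Polynomial.C (C (coeff d G)) := rfl
  rw [e2]
  ring

private theorem sup_single {n : ℕ} {G : MvPolynomial (Fin N) k} (hG : G.IsHomogeneous n)
    {d : Fin N →₀ ℕ} (hd : d ∈ G.support) (m : Fin N) :
    d m ≤ n ∧ (d m = n → d = Finsupp.single m n) ∧ (d m ≠ n → ∃ i, i ≠ m ∧ d i ≠ 0) := by
  have h1 : d.degree = n := by
    rw [Finsupp.degree_eq_weight_one]
    exact hG (mem_support_iff.1 hd)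
  rw [Finsupp.degree_eq_sum, ← Finset.add_sum_erase _ _ (Finset.mem_univ m)] at h1
  refine ⟨by omega, fun h => ?_, fun h => ?_⟩
  · have h2 : ∑ i ∈ Finset.univ.erase m, d i = 0 := by omega
    rw [Finset.sum_eq_zero_iff] at h2
    ext i
    by_cases hi : i = m
    · rw [hi, h, Finsupp.single_eq_same]
    · rw [h2 i (Finset.mem_erase.2 ⟨hi, Finset.mem_univ i⟩), Finsupp.single_eq_of_ne hi]
  · by_contra hcon
    push Not at hcon
    have h2 : ∑ i ∈ Finset.univ.erase m, d i = 0 :=
      Finset.sum_eq_zero fun i hi => hcon i (Finset.ne_of_mem_erase hi)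
    omega

private theorem pm_deg {n : ℕ} {G : MvPolynomial (Fin N) k} (hG : G.IsHomogeneous n) (m : Fin N) :
    (pm m G).natDegree ≤ n := by
  rw [pm_sum]
  refine Polynomial.natDegree_sum_le_of_forall_le _ _ fun d hd => ?_
  exact (Polynomial.natDegree_C_mul_X_pow_le _ _).trans (sup_single hG hd m).1

private theorem pm_coeff {n : ℕ} {G : MvPolynomial (Fin N) k} (hG : G.IsHomogeneous n)
    (m : Fin N) : (pm m G).coeff n = C (coeff (Finsupp.single m n) G) := by
  rw [pm_sum, Polynomial.finsetSum_coeff]
  by_cases h0 : Finsupp.single m n ∈ G.support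
  · rw [Finset.sum_eq_single (Finsupp.single m n)]
    · rw [Polynomial.coeff_C_mul_X_pow, Finsupp.single_eq_same, if_pos rfl]
      rw [Finset.prod_eq_one, mul_one]
      intro i hi
      rw [Finsupp.single_eq_of_ne (Finset.ne_of_mem_erase hi), pow_zero]
    · intro d hd hne
      rw [Polynomial.coeff_C_mul_X_pow, if_neg]
      intro h
      exact hne ((sup_single hG hd m).2.1 h.symm)
    · intro h
      exact absurd h0 h
  · rw [notMem_support_iff.1 h0, C_0]
    refine Finset.sum_eq_zero fun d hd => ?_
    rw [Polynomial.coeff_C_mul_X_pow, if_neg]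
    intro h
    exact h0 ((sup_single hG hd m).2.1 h.symm ▸ hd)

private theorem eval_single {n : ℕ} {G : MvPolynomial (Fin N) k} (hG : G.IsHomogeneous n)
    (m : Fin N) : eval (Pi.single m 1) G = coeff (Finsupp.single m n) G := by
  rw [eval_eq']
  have hz : ∀ d ∈ G.support, d ≠ Finsupp.single m n →
      coeff d G * ∏ i, (Pi.single m 1 : Fin N → k) i ^ d i = 0 := by
    intro d hd hne
    obtain ⟨i, hi, hdi⟩ := (sup_single hG hd m).2.2 fun h => hne ((sup_single hG hd m).2.1 h)
    rw [Finset.prod_eq_zero (Finset.mem_univ i), mul_zero]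
    rw [Pi.single_eq_of_ne hi, zero_pow hdi]
  by_cases h0 : Finsupp.single m n ∈ G.support
  · rw [Finset.sum_eq_single (Finsupp.single m n) hz fun h => absurd h0 h]
    rw [Finset.prod_eq_one, mul_one]
    intro i _
    by_cases hi : i = m
    · rw [hi, Pi.single_eq_same, one_pow]
    · rw [Finsupp.single_eq_of_ne hi, pow_zero]
  · rw [notMem_support_iff.1 h0]
    exact Finset.sum_eq_zero fun d hd => hz d hd fun h => h0 (h ▸ hd)

private theorem dsc_core {n : ℕ} (hn : 2 ≤ n) {G : MvPolynomial (Fin N) k}
    (hG : G.IsHomogeneous n) (m : Fin N) {z : Fin N → k} (h1 : eval (Pi.single m 1) G ≠ 0)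
    (h2 : (gp G m z).Separable) : ∃ Δ, Dsc G m Δ ∧ eval z Δ ≠ 0 := by
  rw [eval_single hG] at h1
  have hd1 := pm_deg hG m
  have hd2 : (Polynomial.derivative (pm m G)).natDegree ≤ n - 1 :=
    (Polynomial.natDegree_derivative_le _).trans (Nat.sub_le_sub_right hd1 1)
  obtain ⟨R, hR⟩ : ∃ R, R = Polynomial.resultant (pm m G) (Polynomial.derivative (pm m G)) n
    (n - 1) := ⟨_, rfl⟩
  -- the value at `z`
  obtain ⟨p, hp⟩ : ∃ p, p = (pm m G).map (eval z) := ⟨_, rfl⟩
  have hpn : p.coeff n ≠ 0 := by
    rw [hp, Polynomial.coeff_map, pm_coeff hG, eval_C]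
    exact h1
  have hpd : p.natDegree = n := by
    refine le_antisymm ?_ (Polynomial.le_natDegree_of_ne_zero hpn)
    rw [hp]
    exact (Polynomial.natDegree_map_le).trans hd1
  have hpc : IsCoprime p (Polynomial.derivative p) := by
    have h3 := IsCoprime.map (f := Polynomial.compRingHom (Polynomial.X - Polynomial.C (z m))) h2
    rw [Polynomial.coe_compRingHom_apply, Polynomial.coe_compRingHom_apply] at h3
    have h4 : Polynomial.derivative p = (Polynomial.derivative (gp G m z)).comp
        (Polynomial.X - Polynomial.C (z m)) := by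
      rw [hp, pm_map, Polynomial.derivative_comp, Polynomial.derivative_sub,
        Polynomial.derivative_X, Polynomial.derivative_C, sub_zero, one_mul]
    rw [h4, hp, pm_map]
    exact h3
  have hRz : eval z R ≠ 0 := by
    rw [hR, ← Polynomial.resultant_map_map, ← Polynomial.derivative_map, ← hp]
    have h5 : (Polynomial.derivative p).natDegree ≤ n - 1 := by
      rw [← hpd]
      exact Polynomial.natDegree_derivative_le _
    obtain ⟨j, hj⟩ := Nat.exists_eq_add_of_le h5
    have h6 := Polynomial.resultant_ne_zero p (Polynomial.derivative p) hpc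
    rw [hpd] at h6
    rw [hj, Polynomial.resultant_add_right_deg p (Polynomial.derivative p) n _ j le_rfl]
    exact mul_ne_zero (pow_ne_zero _ hpn) h6
  -- the relation
  have hRI : R ∈ Ideal.span {G, pderiv m G} := by
    obtain ⟨P, Q, -, -, h7⟩ := Polynomial.exists_mul_add_mul_eq_C_resultant (pm m G)
      (Polynomial.derivative (pm m G)) hd1 hd2 (Or.inl (by omega))
    rw [← hR] at h7
    have h8 := congrArg (Polynomial.eval (X m)) h7
    rw [Polynomial.eval_add, Polynomial.eval_mul, Polynomial.eval_mul, Polynomial.eval_C,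
      pm_eval, pm_der] at h8
    rw [Ideal.mem_span_pair]
    exact ⟨Polynomial.eval (X m) P, Polynomial.eval (X m) Q, by rw [← h8]; ring⟩
  -- no variable `m`
  have hRs : ∀ γ ∈ R.support, γ m = 0 := by
    have h7 : kl m R = R := by
      have h8 := Polynomial.resultant_map_map (f := pm m G) (g := Polynomial.derivative (pm m G))
        (m := n) (n := n - 1)
        (φ := (kl m : MvPolynomial (Fin N) k →ₐ[k] MvPolynomial (Fin N) k).toRingHom)
      rw [← Polynomial.derivative_map, pm_kl, ← hR] at h8
      exact h8.symm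
    have h9 := kl_supp m R
    rw [h7, mem_supported] at h9
    intro γ hγ
    by_contra h0
    have h10 : m ∈ R.vars := (mem_vars_iff_mem_support m).2 ⟨γ, hγ, Finsupp.mem_support_iff.2 h0⟩
    exact h9 h10 rfl
  -- a homogeneous component
  have hsum : ∑ e ∈ Finset.range (R.totalDegree + 1), eval z (homogeneousComponent e R) ≠ 0 := by
    rw [← map_sum, sum_homogeneousComponent]
    exact hRz
  obtain ⟨e, -, he⟩ := Finset.exists_ne_zero_of_sum_ne_zero hsum
  refine ⟨homogeneousComponent e R, ⟨?_, ⟨e, homogeneousComponent_isHomogeneous e R⟩, ?_, ?_⟩, he⟩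
  · intro h
    rw [h, map_zero] at he
    exact he rfl
  · rw [← Nat.le_zero, degreeOf_le_iff]
    intro γ hγ
    rw [Nat.le_zero]
    refine hRs γ ?_
    rw [mem_support_iff] at hγ ⊢
    intro h0
    apply hγ
    rw [coeff_homogeneousComponent, h0, ite_self]
  · let _ := MvPolynomial.gradedAlgebra (σ := Fin N) (R := k)
    have hI : (Ideal.span {G, pderiv m G} : Ideal (MvPolynomial (Fin N) k)).IsHomogeneous
        (homogeneousSubmodule (Fin N) k) := by
      refine Ideal.homogeneous_span _ _ fun x hx => ?_
      rcases hx with rfl | hx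
      · exact ⟨n, hG⟩
      · rw [Set.mem_singleton_iff] at hx
        rw [hx]
        exact ⟨n - 1, hG.pderiv⟩
    have h11 := homogeneousComponent_mem_of_mem hI hRI e
    rw [Ideal.mem_span_pair] at h11
    obtain ⟨A', B', h12⟩ := h11
    exact ⟨A', B', h12⟩

/-- **The discriminants.** Proof: the resultant of `gA A g` and its derivative as polynomials in the variable `m`
(`Polynomial.exists_mul_add_mul_eq_C_resultant`), not `0` at `A⁻¹ y` (`gA_gp`, `isUnit_resultant_iff_isCoprime`, `resultant_map_map`); then a homogeneous component which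
is not `0` at `A⁻¹ y`. -/
theorem exists_dsc {n : ℕ} (hn : 2 ≤ n) {g : MvPolynomial (Fin N) k} (hg : g.IsHomogeneous n)
    {A : Matrix (Fin N) (Fin N) k} (hA : IsUnit A) {y : Fin N → k} (m : Fin N)
    (h1 : eval (A.mulVec (Pi.single m 1)) g ≠ 0)
    (h2 : (gl g (A.mulVec (Pi.single m 1)) y).Separable) :
    ∃ Δ, Dsc (gA A g) m Δ ∧ eval (A⁻¹.mulVec y) Δ ≠ 0 := by
  have hG : (gA A g).IsHomogeneous n := by
    have h3 := hg.aeval (R := k) (S := k) (τ := Fin N) (n := 1)
      (fun i => ∑ j, C (A i j) * X j) (fun i => by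
        refine IsHomogeneous.sum _ _ _ fun j _ => ?_
        have h4 := (isHomogeneous_C (Fin N) (A i j)).mul (isHomogeneous_X k j)
        rwa [zero_add] at h4)
    rwa [one_mul] at h3
  refine dsc_core hn hG m ?_ ?_
  · rw [gA_eval]
    exact h1
  · rw [gA_gp, Matrix.mulVec_mulVec,
      Matrix.mul_nonsing_inv A ((Matrix.isUnit_iff_isUnit_det A).1 hA), Matrix.one_mulVec]
    exact h2

end GM
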