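import Pool.Agent.Lib.MP_f80667_ag.Gm.GsD

/-! From functions with values in an abelian group to functions with values in the field. -/

open MvPolynomial

namespace GM

variable {k : Type} [Field k] {N : ℕ}

/-- The additive maps from the field to `B`. -/
private def HB (k B : Type) [Field k] [AddCommGroup B] : Type := k →+ B

private noncomputable instance {B : Type} [AddCommGroup B] : AddCommGroup (HB k B) :=
  inferInstanceAs (AddCommGroup (k →+ B))

private def hbApp {B : Type} [AddCommGroup B] (φ : HB k B) (x : k) : B :=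
  (show k →+ B from φ) x

private theorem hbApp_add {B : Type} [AddCommGroup B] (φ ψ : HB k B) (x : k) :
    hbApp (φ + ψ) x = hbApp φ x + hbApp ψ x := rfl

private theorem hbApp_zero {B : Type} [AddCommGroup B] (x : k) :
    hbApp (0 : HB k B) x = 0 := rfl

private theorem hbApp_map_add {B : Type} [AddCommGroup B] (φ : HB k B) (x y : k) :
    hbApp φ (x + y) = hbApp φ x + hbApp φ y := AddMonoidHom.map_add (φ : k →+ B) x y

private theorem hbApp_map_zero {B : Type} [AddCommGroup B] (φ : HB k B) :
    hbApp φ 0 = 0 := AddMonoidHom.map_zero (φ : k →+ B)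

private theorem hb_ext {B : Type} [AddCommGroup B] {φ ψ : HB k B}
    (h : ∀ x, hbApp φ x = hbApp ψ x) : φ = ψ := by
  have h1 : (φ : k →+ B) = (ψ : k →+ B) := AddMonoidHom.ext h
  exact h1

private noncomputable instance {B : Type} [AddCommGroup B] : SMul k (HB k B) :=
  ⟨fun t φ => (φ : k →+ B).comp (AddMonoidHom.mulLeft t)⟩

private theorem hbApp_smul {B : Type} [AddCommGroup B] (t : k) (φ : HB k B) (x : k) :
    hbApp (t • φ) x = hbApp φ (t * x) := rfl

private noncomputable instance {B : Type} [AddCommGroup B] : Module k (HB k B) where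
  one_smul φ := hb_ext fun x => by rw [hbApp_smul, one_mul]
  mul_smul a b φ := hb_ext fun x => by
    rw [hbApp_smul, hbApp_smul, hbApp_smul]
    congr 1
    ring
  smul_zero a := hb_ext fun x => by
    rw [hbApp_smul, hbApp_zero, hbApp_zero]
  smul_add a φ ψ := hb_ext fun x => by
    rw [hbApp_smul, hbApp_add, hbApp_add, hbApp_smul, hbApp_smul]
  add_smul a b φ := hb_ext fun x => by
    rw [hbApp_smul, hbApp_add, hbApp_smul, hbApp_smul, add_mul, hbApp_map_add]
  zero_smul φ := hb_ext fun x => by
    rw [hbApp_smul, zero_mul, hbApp_map_zero, hbApp_zero]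

/-- The value at `x` as an additive map. -/
private noncomputable def hbEv (B : Type) [AddCommGroup B] (x : k) : HB k B →+ B where
  toFun φ := hbApp φ x
  map_zero' := hbApp_zero x
  map_add' φ ψ := hbApp_add φ ψ x

private theorem ef_dG_smul (g : MvPolynomial (Fin N) k) (y u : Fin N → k) (t : k) :
    dG g y (t • u) = t * dG g y u := by
  unfold dG
  rw [Finset.mul_sum]
  refine Finset.sum_congr rfl fun i _ => ?_
  rw [Pi.smul_apply, smul_eq_mul]
  ring

private theorem ef_dG_add (g : MvPolynomial (Fin N) k) (y u u' : Fin N → k) :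
    dG g y (u + u') = dG g y u + dG g y u' := by
  unfold dG
  rw [← Finset.sum_add_distrib]
  refine Finset.sum_congr rfl fun i _ => ?_
  rw [Pi.add_apply]
  ring

private theorem ef_tg_smul {g : MvPolynomial (Fin N) k} {y u : Fin N → k} (h : Tg g y u) (t : k) :
    Tg g y (t • u) := ⟨h.1, h.2.1, by rw [ef_dG_smul, h.2.2, mul_zero]⟩

private theorem ef_tg_add {g : MvPolynomial (Fin N) k} {y u u' : Fin N → k} (h : Tg g y u)
    (h' : Tg g y u') : Tg g y (u + u') :=
  ⟨h.1, h.2.1, by rw [ef_dG_add, h.2.2, h'.2.2, add_zero]⟩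

private theorem ef_eval_smul {f : MvPolynomial (Fin N) k} {m : ℕ} (hf : f.IsHomogeneous m)
    (y : Fin N → k) (t : k) : eval (t • y) f = t ^ m * eval y f := by
  rw [eval_eq, eval_eq, Finset.mul_sum]
  refine Finset.sum_congr rfl fun d hd => ?_
  have h1 : ∑ i ∈ d.support, d i = m := by
    have := hf (mem_support_iff.1 hd)
    rw [← this]
    rw [Finsupp.weight_apply, Finsupp.sum]
    simp
  have h2 : ∏ i ∈ d.support, (t • y) i ^ d i = t ^ m * ∏ i ∈ d.support, y i ^ d i := by
    rw [← h1, ← Finset.prod_pow_eq_pow_sum, ← Finset.prod_mul_distrib]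
    refine Finset.prod_congr rfl fun i _ => ?_
    rw [Pi.smul_apply, smul_eq_mul, mul_pow]
  rw [h2]
  ring

private theorem ef_tg_hom {g : MvPolynomial (Fin N) k} {n : ℕ} (hg : g.IsHomogeneous n)
    {y u : Fin N → k} (h : Tg g y u) {t : k} (ht : t ≠ 0) : Tg g (t • y) (t • u) := by
  refine ⟨smul_ne_zero ht h.1, ?_, ?_⟩
  · rw [ef_eval_smul hg, h.2.1, mul_zero]
  · rw [ef_dG_smul]
    have h1 : dG g (t • y) u = t ^ (n - 1) * dG g y u := by
      unfold dG
      rw [Finset.mul_sum]
      refine Finset.sum_congr rfl fun i _ => ?_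
      rw [ef_eval_smul (hg.pderiv (i := i)) y t]
      ring
    rw [h1, h.2.2, mul_zero, mul_zero]

open Classical in
/-- The additive map `x ↦ T y (x u)`. -/
private noncomputable def Lam {B : Type} [AddCommGroup B] {g : MvPolynomial (Fin N) k}
    {T : (Fin N → k) → (Fin N → k) → B} (h : Ft g T) (y u : Fin N → k) : HB k B :=
  if hu : Tg g y u then
    (AddMonoidHom.mk' (fun x : k => T y (x • u)) fun a b => by
      rw [add_smul]
      exact h.add y _ _ (ef_tg_smul hu a) (ef_tg_smul hu b) : k →+ B)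
  else 0

private theorem lam_app {B : Type} [AddCommGroup B] {g : MvPolynomial (Fin N) k}
    {T : (Fin N → k) → (Fin N → k) → B} (h : Ft g T) {y u : Fin N → k} (hu : Tg g y u) (x : k) :
    hbApp (Lam h y u) x = T y (x • u) := by
  unfold Lam
  rw [dif_pos hu]
  rfl

/-- **From `B` to `k`.** Proof: `H = (k →+ B)` is a vector space over `k`: `(t φ) x = φ (t x)`. `Λ y u = (x ↦ T y (x u))` is linear in `u` for tangent vectors `u`, and the relation `crv`
for all `τ` is the relation `∑ (∏ (c - c'))⁻¹ ∑ w ^ j Λ .. = 0` in `H`. `Λ y₀ u₀ ≠ 0` (value at `1`), so there is a linear functional `χ` on `H` with `χ (Λ y₀ u₀) ≠ 0`;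
`ℓ y u = χ (Λ y u)` if `Tg g y u`, `0` otherwise (`Λ` is defined with `if`). `tg_pw`. -/
theorem Ft.exists_fv {B : Type} [AddCommGroup B] {g : MvPolynomial (Fin N) k} {n : ℕ}
    (hg : g.IsHomogeneous n) (hn : 2 ≤ n) {T : (Fin N → k) → (Fin N → k) → B} (h : Ft g T)
    {y₀ u₀ : Fin N → k} (h₀ : Tg g y₀ u₀) (hT : T y₀ u₀ ≠ 0) :
    ∃ ℓ, Fv g ℓ ∧ ℓ y₀ u₀ ≠ 0 := by
  classical
  have h1 : Lam h y₀ u₀ ≠ 0 := by
    intro hz
    apply hT
    have h2 := lam_app h h₀ 1
    rw [hz, hbApp_zero, one_smul] at h2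
    exact h2.symm
  obtain ⟨χ, hχ⟩ : ∃ χ : Module.Dual k (HB k B), χ (Lam h y₀ u₀) ≠ 0 := by
    by_contra hcon
    push Not at hcon
    exact h1 ((Module.forall_dual_apply_eq_zero_iff k _).1 hcon)
  refine ⟨fun y u => χ (Lam h y u), ⟨?_, ?_, ?_, ?_, ?_⟩, hχ⟩
  · intro y u u' hu hu'
    have h2 : Lam h y (u + u') = Lam h y u + Lam h y u' := hb_ext fun x => by
      rw [hbApp_add, lam_app h (ef_tg_add hu hu'), lam_app h hu, lam_app h hu', smul_add]
      exact h.add y _ _ (ef_tg_smul hu x) (ef_tg_smul hu' x)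
    simp only [h2, map_add]
  · intro y u t hu
    have h2 : Lam h y (t • u) = t • Lam h y u := hb_ext fun x => by
      rw [hbApp_smul, lam_app h (ef_tg_smul hu t), lam_app h hu, smul_smul, mul_comm]
    simp only [h2, map_smul, smul_eq_mul]
  · intro y u t ht hu
    have h2 : Lam h (t • y) (t • u) = Lam h y u := hb_ext fun x => by
      rw [lam_app h (ef_tg_hom hg hu ht), lam_app h hu, smul_comm]
      exact h.hom y _ t ht (ef_tg_smul hu x)
    simp only [h2]
  · intro y hy
    have h2 : Lam h y y = 0 := hb_ext fun x => by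
      rw [lam_app h hy, hbApp_zero]
      exact h.rad y x hy
    simp only [h2, map_zero]
  · intro v a ρ j S hv ha hj hs
    have h2 : ∑ c ∈ S, (∏ c' ∈ S.erase c, (c - c'))⁻¹ •
        ((gl g v (av a c)).roots.map fun w => w ^ j • Lam h (av a c + w • v)
          (pw g v (av a c + w • v) (dv a c))).sum = 0 := by
      refine hb_ext fun τ => ?_
      rw [hbApp_zero]
      have h3 := h.crv v a ρ j S τ hv ha hj hs
      have h4 : hbEv B τ (∑ c ∈ S, (∏ c' ∈ S.erase c, (c - c'))⁻¹ •
        ((gl g v (av a c)).roots.map fun w => w ^ j • Lam h (av a c + w • v)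
          (pw g v (av a c + w • v) (dv a c))).sum) = 0 := by
        rw [map_sum, ← h3]
        refine Finset.sum_congr rfl fun c hc => ?_
        rw [Multiset.smul_sum, map_multiset_sum, Multiset.map_map, Multiset.map_map]
        refine congrArg Multiset.sum (Multiset.map_congr rfl fun w hw => ?_)
        obtain ⟨h5, -⟩ := tg_pw (u := dv a c) hg hn (hs c hc) (Polynomial.isRoot_of_mem_roots hw)
        change hbApp ((∏ c' ∈ S.erase c, (c - c'))⁻¹ • w ^ j • Lam h (av a c + w • v)
          (pw g v (av a c + w • v) (dv a c))) τ = _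
        rw [hbApp_smul, hbApp_smul, lam_app h h5]
        congr 2
        ring
      exact h4
    have h6 := congrArg χ h2
    rw [map_zero, map_sum] at h6
    rw [← h6]
    refine Finset.sum_congr rfl fun c hc => ?_
    rw [map_smul, smul_eq_mul, map_multiset_sum, Multiset.map_map]
    congr 1
    refine congrArg Multiset.sum (Multiset.map_congr rfl fun w hw => ?_)
    change _ = χ (w ^ j • Lam h (av a c + w • v) (pw g v (av a c + w • v) (dv a c)))
    rw [map_smul, smul_eq_mul]

end GM
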