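import Pool.Agent.Lib.MP_f80667_ag.Gm.GsDa
import Pool.Agent.Lib.MP_f80667_ag.Gm.GsDd
import Pool.Agent.Lib.MP_f80667_ag.Gm.GsDe

/-! The functions vanish. -/

open MvPolynomial

namespace GM

variable {k : Type} [Field k] {N : ℕ}

private theorem fz_inv {A : Matrix (Fin N) (Fin N) k} (hA : IsUnit A) : A * A⁻¹ = 1 :=
  Matrix.mul_nonsing_inv A ((Matrix.isUnit_iff_isUnit_det A).1 hA)

private theorem fz_inv' {A : Matrix (Fin N) (Fin N) k} (hA : IsUnit A) : A⁻¹ * A = 1 :=
  Matrix.nonsing_inv_mul A ((Matrix.isUnit_iff_isUnit_det A).1 hA)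

private theorem fz_vec {A : Matrix (Fin N) (Fin N) k} (hA : IsUnit A) (y : Fin N → k) :
    A.mulVec (A⁻¹.mulVec y) = y := by
  rw [Matrix.mulVec_mulVec, fz_inv hA, Matrix.one_mulVec]

private theorem fz_pderiv [Infinite k] (A : Matrix (Fin N) (Fin N) k)
    (g : MvPolynomial (Fin N) k) (j : Fin N) :
    pderiv j (gA A g) = ∑ l, C (A l j) * gA A (pderiv l g) := by
  apply MvPolynomial.funext
  intro x
  have h1 : dG (gA A g) x (Pi.single j 1) = eval x (pderiv j (gA A g)) := by
    unfold dG
    rw [Finset.sum_eq_single j]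
    · rw [Pi.single_eq_same, mul_one]
    · intro i _ hi
      rw [Pi.single_eq_of_ne hi, mul_zero]
    · intro h
      exact absurd (Finset.mem_univ j) h
  rw [← h1, gA_dG, map_sum]
  unfold dG
  refine Finset.sum_congr rfl fun l _ => ?_
  rw [map_mul, eval_C, gA_eval, Matrix.mulVec_single_one, mul_comm]
  rfl

/-- The coefficient of `x_i ^ n` is the value at `e_i`. -/
private theorem fz_coeff {n : ℕ} {G : MvPolynomial (Fin N) k} (hG : G.IsHomogeneous n)
    (i : Fin N) (h : eval (Pi.single i 1) G ≠ 0) : coeff (Finsupp.single i n) G ≠ 0 := by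
  classical
  intro h0
  apply h
  rw [eval_eq']
  refine Finset.sum_eq_zero fun d hd => ?_
  by_cases hd' : ∀ a, a ≠ i → d a = 0
  · exfalso
    have h1 : d = Finsupp.single i (d i) := by
      ext a
      by_cases ha : a = i
      · rw [ha, Finsupp.single_eq_same]
      · rw [hd' a ha, Finsupp.single_eq_of_ne (by simpa using ha)]
    have h2 : d.degree = n := by
      by_contra h3
      exact mem_support_iff.1 hd (hG.coeff_eq_zero h3)
    rw [h1, Finsupp.degree_single] at h2
    rw [h2] at h1
    rw [h1] at hd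
    exact mem_support_iff.1 hd h0
  · push Not at hd'
    obtain ⟨a, ha, ha0⟩ := hd'
    rw [Finset.prod_eq_zero (Finset.mem_univ a), mul_zero]
    rw [Pi.single_eq_of_ne ha, zero_pow ha0]

private theorem fz_smooth [Infinite k] {A : Matrix (Fin N) (Fin N) k} (hA : IsUnit A)
    {g : MvPolynomial (Fin N) k}
    (hs : ∃ s : ℕ, ∀ i, (X i : MvPolynomial (Fin N) k) ^ s ∈
      Ideal.span (Set.range fun j => pderiv j g)) :
    ∃ s : ℕ, ∀ i, (X i : MvPolynomial (Fin N) k) ^ s ∈
      Ideal.span (Set.range fun j => pderiv j (gA A g)) := by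
  obtain ⟨s, hs⟩ := hs
  obtain ⟨I, hI⟩ : ∃ I, I = Ideal.span (Set.range fun j => pderiv j (gA A g)) := ⟨_, rfl⟩
  rw [← hI]
  obtain ⟨φ, hφ⟩ : ∃ φ : MvPolynomial (Fin N) k →ₐ[k] MvPolynomial (Fin N) k,
      φ = aeval fun i => ∑ j, C (A i j) * X j := ⟨_, rfl⟩
  have hφg : ∀ f, φ f = gA A f := fun f => by rw [hφ]; rfl
  -- the polynomials `gA A (g_l)` are in the ideal
  have h1 : ∀ l, gA A (pderiv l g) ∈ I := by
    intro l
    have h2 : gA A (pderiv l g) = ∑ j, C (A⁻¹ j l) * pderiv j (gA A g) := by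
      simp only [fz_pderiv, Finset.mul_sum]
      rw [Finset.sum_comm]
      have h3 : ∀ l', ∑ j, C (A⁻¹ j l) * (C (A l' j) * gA A (pderiv l' g)) =
          (if l' = l then 1 else 0) * gA A (pderiv l' g) := by
        intro l'
        have h4 : ∑ j, A⁻¹ j l * A l' j = if l' = l then 1 else 0 := by
          have h5 := congrFun (congrFun (fz_inv hA) l') l
          rw [Matrix.mul_apply, Matrix.one_apply] at h5
          rw [← h5]
          exact Finset.sum_congr rfl fun j _ => mul_comm _ _
        have h6 : (C (∑ j, A⁻¹ j l * A l' j) : MvPolynomial (Fin N) k) =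
            if l' = l then 1 else 0 := by
          rw [h4]
          split_ifs
          · exact C_1
          · exact C_0
        rw [← h6, map_sum, Finset.sum_mul]
        refine Finset.sum_congr rfl fun j _ => ?_
        rw [C_mul, mul_assoc]
      rw [Finset.sum_congr rfl fun l' _ => h3 l']
      simp
    rw [h2, hI]
    exact Ideal.sum_mem _ fun j _ => Ideal.mul_mem_left _ _ (Ideal.subset_span ⟨j, rfl⟩)
  -- the powers of the linear forms are in the ideal
  have h2 : ∀ f ∈ Ideal.span (Set.range fun j => pderiv j g), φ f ∈ I := by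
    intro f hf
    have h3 : Ideal.span (Set.range fun j => pderiv j g) ≤ I.comap φ.toRingHom := by
      rw [Ideal.span_le]
      rintro _ ⟨j, rfl⟩
      change φ (pderiv j g) ∈ I
      rw [hφg]
      exact h1 j
    exact h3 hf
  have h3 : ∀ l, φ (X l) ∈ I.radical := fun l => ⟨s, by
    rw [← map_pow]
    exact h2 _ (hs l)⟩
  have h4 : ∀ i, (X i : MvPolynomial (Fin N) k) ∈ I.radical := by
    intro i
    have h5 : (X i : MvPolynomial (Fin N) k) = ∑ l, C (A⁻¹ i l) * φ (X l) := by
      have h6 : ∀ l, φ (X l) = ∑ j, C (A l j) * X j := fun l => by rw [hφ, aeval_X]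
      simp only [h6, Finset.mul_sum]
      rw [Finset.sum_comm]
      have h7 : ∀ j, ∑ l, C (A⁻¹ i l) * (C (A l j) * (X j : MvPolynomial (Fin N) k)) =
          (if i = j then 1 else 0) * X j := by
        intro j
        have h5 := congrFun (congrFun (fz_inv' hA) i) j
        rw [Matrix.mul_apply, Matrix.one_apply] at h5
        have h8 : (C (∑ l, A⁻¹ i l * A l j) : MvPolynomial (Fin N) k) =
            if i = j then 1 else 0 := by
          rw [h5]
          split_ifs
          · exact C_1
          · exact C_0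
        rw [← h8, map_sum, Finset.sum_mul]
        refine Finset.sum_congr rfl fun l _ => ?_
        rw [C_mul, mul_assoc]
      rw [Finset.sum_congr rfl fun j _ => h7 j]
      simp
    rw [h5]
    exact Ideal.sum_mem _ fun l _ => Ideal.mul_mem_left _ _ (h3 l)
  choose e he using fun i => (h4 i : ∃ e, (X i : MvPolynomial (Fin N) k) ^ e ∈ I)
  refine ⟨∑ i, e i, fun i => ?_⟩
  rw [← Finset.add_sum_erase _ _ (Finset.mem_univ i), pow_add]
  exact Ideal.mul_mem_right _ _ (he i)

/-- **The functions vanish.** Proof: `exists_dirs`, `exists_dsc`, `Fv.fn`; `Hy` for `gA A g` (homogeneous; the coefficient of `x_m ^ n` is `eval (A e_m) g`; `smooth`: the partial derivatives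
of `gA A g` are combinations of the polynomials `gA A (g_j)` with an invertible matrix, and `X_i` is a combination of the `gA A (X_j)`, so a high power of it is in the
ideal), `Hy.main` at `A⁻¹ y`. -/
theorem Fv.zero {p n : ℕ} (hn : 2 ≤ n) (hN : 4 ≤ N) (hp : p.Prime) [CharP k p] [Infinite k]
    (hnp : n < p) (hroot : ∀ x : k, ∃ y, y ^ p = x)
    (hspl : ∀ f : Polynomial k, f ≠ 0 → f.natDegree ≤ n → Multiset.card f.roots = f.natDegree)
    {g : MvPolynomial (Fin N) k} (hg : g.IsHomogeneous n)
    (hs : ∃ s : ℕ, ∀ i, (X i : MvPolynomial (Fin N) k) ^ s ∈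
      Ideal.span (Set.range fun j => pderiv j g))
    {ℓ : (Fin N → k) → (Fin N → k) → k} (h : Fv g ℓ) {y u : Fin N → k} (hu : Tg g y u) :
    ℓ y u = 0 := by
  obtain ⟨A, hA, hd⟩ := exists_dirs hp hnp hn (by omega) hg hs hu.1 hu.2.1
  have hD := fun m => exists_dsc hn hg hA m (hd m).1 (hd m).2
  choose Δ hΔ hΔ0 using hD
  have hhom : (gA A g).IsHomogeneous n := by
    have h1 := hg.aeval (fun i => ∑ j, C (A i j) * (X j : MvPolynomial (Fin N) k)) (n := 1)
      fun i => IsHomogeneous.sum _ _ _ fun j _ => by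
        have h2 := (isHomogeneous_C (Fin N) (A i j)).mul (isHomogeneous_X k j)
        rwa [zero_add] at h2
    rwa [one_mul] at h1
  have H : Hy p n (gA A g) Δ :=
    { two := hn
      dim := hN
      prime := hp
      char := inferInstance
      lt := hnp
      inf := inferInstance
      root := hroot
      spl := hspl
      hom := hhom
      ne := fun i => fz_coeff hhom i (by
        rw [gA_eval]
        exact (hd i).1)
      smooth := fz_smooth hA hs
      dsc := hΔ }
  have hℓ := h.fn hA hΔ fun m => (hd m).1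
  have hy := fz_vec hA y
  have hu' := fz_vec hA u
  have htg : Tg (gA A g) (A⁻¹.mulVec y) (A⁻¹.mulVec u) := by
    refine ⟨fun h0 => hu.1 ?_, ?_, ?_⟩
    · rw [← hy, h0, Matrix.mulVec_zero]
    · rw [gA_eval, hy]
      exact hu.2.1
    · rw [gA_dG, hy, hu']
      exact hu.2.2
  have h1 := H.main hℓ htg (hΔ0 ⟨0, by omega⟩)
  beta_reduce at h1
  rwa [hy, hu'] at h1

end GM
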