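import Pool.Agent.Lib.MP_f80667_ag.Gm.GsCo
import Pool.Agent.Lib.MP_f80667_ag.Gm.GsCt

/-! The function `T`: change of the field. -/

open ZC BE PE CV IntermediateField

namespace GM

variable {F : Type} [Field F] {N n : ℕ} {G : MvPolynomial (Fin N) F} {K Ω : Type} [Field K]
  [CharZero K] [Field Ω] [Algebra K Ω] [Algebra F K] [Algebra F Ω] [IsScalarTower F K Ω]
  [IsAlgClosure K Ω] {L : Ld K Ω} {B : Type} [AddCommGroup B]
  {lam : ((Xh G).pt Ω →₀ ℤ) →+ B} {M : IntermediateField K Ω} {R : ℕ}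
  {g : MvPolynomial (Fin N) (kI L R)}

private theorem smul_modEq {B : Type} [AddCommGroup B] {p m m' : ℕ} {b : B} (hb : p • b = 0)
    (h : (m : ZMod p) = (m' : ZMod p)) : m • b = m' • b := by
  have key : ∀ k : ℕ, k • b = (k % p) • b := by
    intro k
    conv_lhs => rw [← Nat.mod_add_div k p]
    rw [add_smul, mul_comm p, mul_smul, hb, smul_zero, add_zero]
  have h1 : m % p = m' % p := (ZMod.natCast_eq_natCast_iff m m' p).1 h
  rw [key m, key m', h1]

/-- `s⁻¹ s = 1` on the elements killed by `p`. -/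
theorem inv_smul_p {p s : ℕ} [Fact p.Prime] (hs : ¬ p ∣ s) {b : B} (hb : p • b = 0) :
    ((s : ZMod p)⁻¹).val • s • b = b := by
  have hc : s.Coprime p := (((Fact.out : p.Prime).coprime_iff_not_dvd).2 hs).symm
  rw [← mul_smul]
  conv_rhs => rw [← one_smul ℕ b]
  refine smul_modEq hb ?_
  rw [Nat.cast_mul, ZMod.natCast_zmod_val, mul_comm, ZMod.coe_mul_inv_eq_one s hc, Nat.cast_one]

/-- The value over a larger field. Proof: `rtr_mul`, `mu_rank`: the trace from `Mu (s s')` is `s'` times the trace from `Mu s`, the values of `lam` are killed by `p` (`dl_of`, `dl_tr`, `tor`). -/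
theorem vl_up (hl : Lm G L lam) (hM : Um L M) (hR : L.Rf M R) {s s' : ℕ} (hs : ¬ L.p ∣ s)
    (hs' : ¬ L.p ∣ s') {P P' : (Xh G).pt Ω} (hP : Fp (Xh G) (Mu L M R s) P)
    (hP' : Fp (Xh G) (Mu L M R s) P') (h : Nrh G L (L.nm (L.p : Ω)) P' P) :
    vl L lam M R (s * s') P P' = vl L lam M R s P P' := by
  have hp : Fact L.p.Prime := ⟨L.pp⟩
  have hs0 : s ≠ 0 := by
    rintro rfl
    exact hs (dvd_zero _)
  have hs0' : s' ≠ 0 := by
    rintro rfl
    exact hs' (dvd_zero _)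
  have hR0 : R ≠ 0 := hR.1
  have hu := mu_um hM hR0 hs0
  have hu' := mu_um hM hR0 (Nat.mul_ne_zero hs0 hs0')
  have hfd : FiniteDimensional K (Mu L M R (s * s')) := hu'.fd
  have hz : Fx (Mu L M R s) (Finsupp.single P' 1 - Finsupp.single P 1 : (Xh G).pt Ω →₀ ℤ) :=
    (fx_single hP' 1).sub (fx_single hP 1)
  have hd : Module.finrank K (Mu L M R (s * s')) = s' * Module.finrank K (Mu L M R s) := by
    rw [mu_rank hM hR (Nat.mul_ne_zero hs0 hs0'), mu_rank hM hR hs0]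
    ring
  have h1 := rtr_mul (V := Xh G) (mu_mono s') hd hz
  unfold vl
  rw [h1, map_nsmul, ← mul_smul]
  have hb : L.p • lam (rtr (Xh G) ⊥ (Mu L M R s)
      (Finsupp.single P' 1 - Finsupp.single P 1)) = 0 := by
    refine hl.tor _ (AddSubgroup.subset_closure ?_)
    obtain ⟨N', hN', hle⟩ := hu
    exact ⟨N', _, P', P, hN', bot_le, hle, hP', hP, by rw [pow_one]; exact h, rfl⟩
  refine smul_modEq hb ?_
  have hc : s.Coprime L.p := ((L.pp.coprime_iff_not_dvd).2 hs).symm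
  have hc' : (s * s').Coprime L.p := Nat.Coprime.mul_left hc ((L.pp.coprime_iff_not_dvd).2 hs').symm
  have e1 := ZMod.coe_mul_inv_eq_one s hc
  have e2 := ZMod.coe_mul_inv_eq_one (s * s') hc'
  rw [Nat.cast_mul, ZMod.natCast_zmod_val, ZMod.natCast_zmod_val]
  calc ((s * s' : ℕ) : ZMod L.p)⁻¹ * (s' : ZMod L.p)
      = ((s * s' : ℕ) : ZMod L.p)⁻¹ * (s' : ZMod L.p) * ((s : ZMod L.p) * (s : ZMod L.p)⁻¹) := by
        rw [e1, mul_one]
    _ = (((s * s' : ℕ) : ZMod L.p) * ((s * s' : ℕ) : ZMod L.p)⁻¹) * (s : ZMod L.p)⁻¹ := by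
        rw [Nat.cast_mul]
        ring
    _ = (s : ZMod L.p)⁻¹ := by rw [e2, one_mul]

end GM
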