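import Pool.Agent.Lib.MP_f80667_ag.Gm.GsAs
import Pool.Agent.Lib.MP_f80667_ag.Gm.GsE
import Pool.Agent.Lib.MP_f80667_ag.Gm.GsDd

/-! Good directions. -/

open ZC BE PE CV IntermediateField

namespace GM

variable {F : Type} [Field F] {N n : ℕ} {G : MvPolynomial (Fin N) F} {K Ω : Type} [Field K]
  [CharZero K] [Field Ω] [Algebra K Ω] [Algebra F K] [Algebra F Ω] [IsScalarTower F K Ω]
  [IsAlgClosure K Ω] {L : Ld K Ω} {B : Type} [AddCommGroup B]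
  {lam : ((Xh G).pt Ω →₀ ℤ) →+ B} {M : IntermediateField K Ω} {R : ℕ}
  {g : MvPolynomial (Fin N) (kI L R)}

/-- A good direction at `y`. Proof: `exists_dirs` over `kI` (`kJ_inf`, `kJ_char`; `L.p > n`), `kJ_te`: `s` and lifts of the coordinates of the direction; `gl_lift`. -/
theorem exists_dirh [L.Unr] (hN : 2 ≤ N) (hG : Gi G L n) (hs : Sm G L) (hp : n < L.p)
    (hM : Um L M) (hR : L.Rf M R) (hg : Rdp L (kI L R) G g) {y : Fin N → kI L R} (hy : y ≠ 0)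
    (hy0 : MvPolynomial.eval y g = 0) :
    ∃ s, ¬ L.p ∣ s ∧ ∃ v, Iv L (Mu L M R s) v ∧
      ∀ x : Fin N → Ω, Rdv L (kI L R) x y → Gl G L x v := by
  have hfd : FiniteDimensional K M := hM.fd
  have hJ0 : (0 : ℕ) ∉ Jc L.p L.pp := fun h => h (dvd_zero _)
  have h1J : (1 : ℕ) ∈ Jc L.p L.pp := (Jc L.p L.pp).one_mem
  have hinf : Infinite (kI L R) := by
    refine kJ_inf hR.ne fun b => ⟨L.p * b + 1, ?_, ?_⟩
    · intro h
      exact L.pp.one_lt.ne' (Nat.dvd_one.1 ((Nat.dvd_add_right (dvd_mul_right _ _)).1 h))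
    · exact (Nat.le_mul_of_pos_left b L.pp.pos).trans (Nat.le_succ _)
  have hc : CharP (kI L R) L.p := kJ_char L R _
  have hk : ∀ x : K, L.nm (algebraMap K Ω x) ≤ 1 →
      ∃ t : kI L R, L.rs.Hv (algebraMap K Ω x) (t : L.κ) := fun x hx =>
    kJ_res hR h1J one_ne_zero ((L.Ur M (R * 1)).algebraMap_mem x) hx
  obtain ⟨A, -, hA⟩ := exists_dirs L.pp hp hG.two hN (hg.hom hG.hom) (hg.sm hs hk) hy hy0
  obtain ⟨hu0, husep⟩ := hA ⟨0, by omega⟩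
  obtain ⟨s, hsJ, hsx⟩ := kJ_te hR.ne hJ0 (A.mulVec (Pi.single ⟨0, by omega⟩ 1))
  choose v hv hvu using hsx
  have hs0 : s ≠ 0 := fun h => hJ0 (h ▸ hsJ)
  exact ⟨s, hsJ, v, fun i => ⟨Ld.te_ur (hv i), Ld.te_int (mul_ne_zero hR.ne hs0) (hv i)⟩,
    fun x hx => gl_lift hG hg hx hvu hu0 husep⟩

end GM
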