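import Pool.Agent.Lib.MP_f80667_ag.Gm.GsEd

/-! Four points. -/

open ZC BE PE CV IntermediateField

namespace GM

variable {F : Type} [Field F] {N n : ℕ} {G : MvPolynomial (Fin N) F} {K Ω : Type} [Field K]
  [CharZero K] [Field Ω] [Algebra K Ω] [Algebra F K] [Algebra F Ω] [IsScalarTower F K Ω]
  [IsAlgClosure K Ω] {L : Ld K Ω} {B : Type} [AddCommGroup B]
  {lam : ((Xh G).pt Ω →₀ ℤ) →+ B} {M : IntermediateField K Ω} {R : ℕ}
  {g : MvPolynomial (Fin N) (kI L R)}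

omit [CharZero K] [IsAlgClosure K Ω] in
private theorem four_fp {M : IntermediateField K Ω} {P : (Xh G).pt Ω} {x : Fin N → Ω}
    (h : Co P x) (hx : ∀ i, x i ∈ M) : Fp (Xh G) M P := by
  intro γ hγ
  obtain ⟨Q, rfl, rfl⟩ := h
  refine Quotient.sound ⟨1, one_ne_zero, funext fun i => ?_⟩
  rw [one_mul]
  exact ((IntermediateField.mem_fixingSubgroup_iff M γ).1 hγ _ (hx i)).symm

private theorem four_zero {E : Type} [Field E] [Algebra F E] {P : (Xh G).pt E} {x : Fin N → E}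
    (h : Co P x) : MvPolynomial.aeval x G = 0 := by
  obtain ⟨Q, -, rfl⟩ := h
  exact Q.eq

omit [CharZero K] [IsAlgClosure K Ω] in
private theorem four_fx {M : IntermediateField K Ω} {P₁ P₂ P₃ P₄ : (Xh G).pt Ω}
    (h₁ : Fp (Xh G) M P₁) (h₂ : Fp (Xh G) M P₂) (h₃ : Fp (Xh G) M P₃) (h₄ : Fp (Xh G) M P₄) :
    Fx M (Finsupp.single P₁ 1 + Finsupp.single P₄ 1 -
      Finsupp.single P₂ 1 - Finsupp.single P₃ 1 : (Xh G).pt Ω →₀ ℤ) := by
  intro γ hγ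
  rw [smul_sub, smul_sub, smul_add, fx_single h₁ 1 γ hγ, fx_single h₂ 1 γ hγ,
    fx_single h₃ 1 γ hγ, fx_single h₄ 1 γ hγ]

/-- Two numbers over an unramified field with the same residue. -/
private theorem four_lt [L.Unr] {M : IntermediateField K Ω} (hM : Um L M) {x x' : Ω} (hx : x ∈ M)
    (hx' : x' ∈ M) {r : L.κ} (h : L.rs.Hv x r) (h' : L.rs.Hv x' r) :
    L.nm (x' - x) ≤ L.nm (L.p : Ω) := by
  obtain ⟨m, hm, hMm⟩ := hM
  have h1 : L.nm (x' - x) < L.nm (L.p : Ω) ^ 0 := by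
    rw [pow_zero]
    exact (L.hv_sub h' h).1 rfl
  have h2 := Ld.ur_lt hm (hMm (M.sub_mem hx' hx)) h1
  rwa [zero_add, pow_one] at h2

/-- The midpoint. -/
private theorem four_mid [L.Unr] (hG : Gi G L n) (hs : Sm G L) (hp : 2 < L.p)
    {M : IntermediateField K Ω} (hM : Um L M) {x x' : Fin N → Ω} (hx : Iv L M x)
    (hx' : Iv L M x') (h0 : MvPolynomial.aeval x G = 0) (h0' : MvPolynomial.aeval x' G = 0)
    (h1 : ∃ i, L.nm (x i) = 1) (h : ∀ i, L.nm (x' i - x i) ≤ L.nm (L.p : Ω)) :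
    ∃ (x₅ : Fin N → Ω) (P₅ : (Xh G).pt Ω), Iv L M x₅ ∧ Co P₅ x₅ ∧
      ∀ i, L.nm (2 * x₅ i - (x i + x' i)) ≤ L.nm (L.p : Ω) ^ 2 := by
  have hcz : CharZero Ω := charZero_of_injective_algebraMap (algebraMap K Ω).injective
  have h2 : L.nm (2 : Ω) = 1 := by
    have h3 := L.nat_unit (n := 2) fun h => absurd (Nat.le_of_dvd two_pos h) (not_le.2 hp)
    rwa [Nat.cast_ofNat] at h3
  have hp0 : (L.p : Ω) ≠ 0 := Nat.cast_ne_zero.2 L.pp.ne_zero
  have hpp : 0 < L.nm (L.p : Ω) := L.p_pos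
  have hu : ∀ i, L.nm ((x' i - x i) / (L.p : Ω)) ≤ 1 := fun i => by
    rw [L.div, div_le_one hpp]
    exact h i
  have ht1 := gi_taylor hG (fun i => (hx i).2) hu (t := (L.p : Ω)) L.lt.le
  have ht2 := gi_taylor hG (fun i => (hx i).2) hu (t := (L.p : Ω) / 2) (by
    rw [L.div, h2, div_one]
    exact L.lt.le)
  have he1 : (fun i => x i + (L.p : Ω) * ((x' i - x i) / (L.p : Ω))) = x' := by
    funext i
    field_simp
    ring
  have he2 : (fun i => x i + (L.p : Ω) / 2 * ((x' i - x i) / (L.p : Ω))) =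
      fun i => (x i + x' i) / 2 := by
    funext i
    field_simp
    ring
  rw [he1, h0', h0, sub_zero, zero_sub, L.neg] at ht1
  rw [he2, h0, sub_zero, L.div, h2, div_one] at ht2
  have hm0 : L.nm (MvPolynomial.aeval (fun i => (x i + x' i) / 2) G) ≤ L.nm (L.p : Ω) ^ 2 := by
    have h4 := L.add (MvPolynomial.aeval (fun i => (x i + x' i) / 2) G -
      (L.p : Ω) / 2 * dGo G x fun i => (x' i - x i) / (L.p : Ω))
      ((L.p : Ω) / 2 * dGo G x fun i => (x' i - x i) / (L.p : Ω))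
    rw [sub_add_cancel] at h4
    refine h4.trans (max_le ht2 ?_)
    rw [L.mul, L.div, h2, div_one, ← L.mul]
    exact ht1
  have hm : Iv L M fun i => (x i + x' i) / 2 := fun i => by
    refine ⟨M.div_mem (M.add_mem (hx i).1 (hx' i).1) (by
      have h5 := M.natCast_mem 2
      rwa [Nat.cast_ofNat] at h5), ?_⟩
    rw [L.div, h2, div_one]
    exact (L.add _ _).trans (max_le (hx i).2 (hx' i).2)
  obtain ⟨i, hi⟩ := h1
  have hmi : L.nm ((x i + x' i) / 2) = 1 := by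
    have h6 : L.nm ((x i + x' i) / 2) = L.nm (x i) := by
      refine L.eq_of_close ?_
      have h7 : (x i + x' i) / 2 - x i = (x' i - x i) / 2 := by ring
      rw [h7, L.div, h2, div_one, hi]
      exact (h i).trans_lt L.lt
    rw [h6, hi]
  obtain ⟨j, hj⟩ := sm_unit hG hs (fun i => (hm i).2) ⟨i, hmi⟩
  obtain ⟨x₅, h5, h50, h5m⟩ := lift_h hG hM hm two_ne_zero hm0 hj
  have hp2 : L.nm (L.p : Ω) ^ 2 < 1 := pow_lt_one₀ hpp.le L.lt two_ne_zero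
  have hx5 : L.nm (x₅ i) = 1 := by
    have h8 : L.nm (x₅ i) = L.nm ((x i + x' i) / 2) := by
      refine L.eq_of_close ?_
      rw [hmi]
      exact (h5m i).trans_lt hp2
    rw [h8, hmi]
  have hne : x₅ ≠ 0 := by
    intro h9
    rw [h9] at hx5
    have h10 : L.nm (0 : Ω) = 1 := hx5
    rw [L.zero] at h10
    exact zero_ne_one h10
  refine ⟨x₅, Quotient.mk _ ⟨x₅, hne, h50⟩, h5, ⟨_, rfl, rfl⟩, fun j => ?_⟩
  have h11 : 2 * x₅ j - (x j + x' j) = 2 * (x₅ j - (x j + x' j) / 2) := by ring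
  rw [h11, L.mul, h2, one_mul]
  exact h5m j

/-- **Four points.** If `x₁ + x₄ = x₂ + x₃` modulo `p ^ 2` for coordinates with the residue `y` then `lam` is `0` on the trace of
`[P₁] + [P₄] - [P₂] - [P₃]`. Proof: replace `s` by `s s'` (`exists_dirh`, `mu_mono`, `rtr_mul`; the value is killed by `p` because `[P₁] - [P₂]`, `[P₄] - [P₃]` are displacements, so it is
enough that its `s'`-fold is `0`). Midpoint `x₅` (`lift_h` for `(x₁ + x₄) / 2`, `G` of it is `0` modulo `p ^ 2` by `gi_taylor`): `jen` twice;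
`rat_tr`, `dl_tr`, `hl.rat`, `hl.two`. -/
theorem four [L.Unr] (hN : 2 ≤ N) (hG : Gi G L n) (hs : Sm G L) (hp : n < L.p)
    (hl : Lm G L lam) (hM : Um L M) (hR : L.Rf M R) (hg : Rdp L (kI L R) G g)
    {y : Fin N → kI L R} (hy : y ≠ 0) {s : ℕ} (hs0 : ¬ L.p ∣ s) {x₁ x₂ x₃ x₄ : Fin N → Ω}
    (h₁ : Iv L (Mu L M R s) x₁) (h₂ : Iv L (Mu L M R s) x₂) (h₃ : Iv L (Mu L M R s) x₃)
    (h₄ : Iv L (Mu L M R s) x₄) (g₁ : Rdv L (kI L R) x₁ y) (g₂ : Rdv L (kI L R) x₂ y)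
    (g₃ : Rdv L (kI L R) x₃ y) (g₄ : Rdv L (kI L R) x₄ y)
    (h : ∀ i, L.nm (x₁ i + x₄ i - x₂ i - x₃ i) ≤ L.nm (L.p : Ω) ^ 2)
    {P₁ P₂ P₃ P₄ : (Xh G).pt Ω} (hP₁ : Co P₁ x₁) (hP₂ : Co P₂ x₂) (hP₃ : Co P₃ x₃)
    (hP₄ : Co P₄ x₄) :
    lam (rtr (Xh G) ⊥ (Mu L M R s) (Finsupp.single P₁ 1 + Finsupp.single P₄ 1 -
      Finsupp.single P₂ 1 - Finsupp.single P₃ 1)) = 0 := by
  have hp2 : 2 < L.p := lt_of_le_of_lt hG.two hp
  have hy0 : MvPolynomial.eval y g = 0 := by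
    have h1 := hg.aeval g₁
    rw [four_zero hP₁] at h1
    have h2 : ((MvPolynomial.eval y g : kI L R) : L.κ) = 0 := h1.uniq Rs.Hv.zero
    exact Subtype.ext h2
  obtain ⟨s', hs', v, hv, hgl⟩ := exists_dirh hN hG hs hp hM hR hg hy hy0
  have hR0 := hR.ne
  have hn : s ≠ 0 := fun h => hs0 (h ▸ dvd_zero _)
  have hn' : s' ≠ 0 := fun h => hs' (h ▸ dvd_zero _)
  have hMs : Um L (Mu L M R s) := mu_um hM hR0 hn
  have hMT : Um L (Mu L M R (s * s')) := mu_um hM hR0 (mul_ne_zero hn hn')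
  have hfT : FiniteDimensional K (Mu L M R (s * s')) := hMT.fd
  have hle : Mu L M R s ≤ Mu L M R (s * s') := mu_mono s'
  have hle' : Mu L M R s' ≤ Mu L M R (s * s') := by
    rw [mul_comm s s']
    exact mu_mono s
  have hup : ∀ x : Fin N → Ω, Iv L (Mu L M R s) x → Iv L (Mu L M R (s * s')) x :=
    fun x hx i => ⟨hle (hx i).1, (hx i).2⟩
  have hvT : Iv L (Mu L M R (s * s')) v := fun i => ⟨hle' (hv i).1, (hv i).2⟩
  have hcl : ∀ x x' : Fin N → Ω, Iv L (Mu L M R s) x → Iv L (Mu L M R s) x' →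
      Rdv L (kI L R) x y → Rdv L (kI L R) x' y → ∀ i, L.nm (x' i - x i) ≤ L.nm (L.p : Ω) :=
    fun x x' hx hx' hr hr' i => four_lt hMs (hx i).1 (hx' i).1 (hr i) (hr' i)
  -- the cycle
  obtain ⟨z, hz⟩ : ∃ z : (Xh G).pt Ω →₀ ℤ, z = Finsupp.single P₁ 1 + Finsupp.single P₄ 1 -
    Finsupp.single P₂ 1 - Finsupp.single P₃ 1 := ⟨_, rfl⟩
  rw [← hz]
  have hfx : ∀ M' : IntermediateField K Ω, Mu L M R s ≤ M' → Fx M' z := fun M' hM' => by
    rw [hz]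
    exact four_fx (four_fp hP₁ fun i => hM' (h₁ i).1) (four_fp hP₂ fun i => hM' (h₂ i).1)
      (four_fp hP₃ fun i => hM' (h₃ i).1) (four_fp hP₄ fun i => hM' (h₄ i).1)
  -- the value is killed by `p`
  have htor : L.p • lam (rtr (Xh G) ⊥ (Mu L M R s) z) = 0 := by
    refine hl.tor _ (dl_tr hMs ?_)
    have h3 : z = (Finsupp.single P₁ 1 - Finsupp.single P₂ 1) -
        (Finsupp.single P₃ 1 - Finsupp.single P₄ 1) := by
      rw [hz]
      abel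
    rw [h3]
    refine AddSubgroup.sub_mem _ (dl_of hP₂ hP₁ h₂ h₁ (rdv_prim g₂ hy).2 one_ne_zero ?_)
      (dl_of hP₄ hP₃ h₄ h₃ (rdv_prim g₄ hy).2 one_ne_zero ?_)
    · intro i
      rw [pow_one]
      exact hcl x₂ x₁ h₂ h₁ g₂ g₁ i
    · intro i
      rw [pow_one]
      exact hcl x₄ x₃ h₄ h₃ g₄ g₃ i
  -- the trace from the larger field
  have hmul : rtr (Xh G) ⊥ (Mu L M R (s * s')) z = s' • rtr (Xh G) ⊥ (Mu L M R s) z := by
    refine rtr_mul hle ?_ (hfx _ le_rfl)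
    rw [mu_rank hM hR (mul_ne_zero hn hn'), mu_rank hM hR hn]
    ring
  have hT : lam (rtr (Xh G) ⊥ (Mu L M R (s * s')) z) = 0 := by
    obtain ⟨x₅, P₅, h₅, hP₅, hm⟩ := four_mid hG hs hp2 hMT (hup _ h₁) (hup _ h₄)
      (four_zero hP₁) (four_zero hP₄) (rdv_prim g₁ hy).2 (hcl x₁ x₄ h₁ h₄ g₁ g₄)
    have j1 := jen hG hp2 hMT hvT (hup _ h₁) (hup _ h₄) h₅ (hgl x₁ g₁)
      (hcl x₁ x₄ h₁ h₄ g₁ g₄) (fun i => by
        rw [sub_sub]
        exact hm i) hP₁ hP₄ hP₅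
    have j2 := jen hG hp2 hMT hvT (hup _ h₂) (hup _ h₃) h₅ (hgl x₂ g₂)
      (hcl x₂ x₃ h₂ h₃ g₂ g₃) (fun i => by
        have h4 : 2 * x₅ i - x₂ i - x₃ i = (2 * x₅ i - (x₁ i + x₄ i)) +
            (x₁ i + x₄ i - x₂ i - x₃ i) := by ring
        rw [h4]
        exact (L.add _ _).trans (max_le (hm i) (h i))) hP₂ hP₃ hP₅
    have j3 := AddSubgroup.sub_mem _ j1 j2
    have h5 : (Finsupp.single P₁ 1 + Finsupp.single P₄ 1 - Finsupp.single P₅ 2 : (Xh G).pt Ω →₀ ℤ) -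
        (Finsupp.single P₂ 1 + Finsupp.single P₃ 1 - Finsupp.single P₅ 2) = z := by
      rw [hz]
      abel
    rw [h5] at j3
    obtain ⟨d, hd, r, hr, hdr⟩ := AddSubgroup.mem_sup.1 j3
    have hrf : Fx (Mu L M R (s * s')) r := by
      intro γ hγ
      have h6 : r = z - d := by rw [← hdr]; abel
      rw [h6, smul_sub, hfx _ hle γ hγ, dl_fx hd γ hγ]
    rw [← hdr, map_add, map_add, hl.two _ (dl_tr hMT hd), hl.rat _ (rat_tr hMT hr hrf), add_zero]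
  rw [hmul, map_nsmul] at hT
  have h7 : addOrderOf (lam (rtr (Xh G) ⊥ (Mu L M R s) z)) ∣ Nat.gcd L.p s' :=
    Nat.dvd_gcd (addOrderOf_dvd_iff_nsmul_eq_zero.2 htor) (addOrderOf_dvd_iff_nsmul_eq_zero.2 hT)
  rw [(Nat.Prime.coprime_iff_not_dvd L.pp).2 hs'] at h7
  exact AddMonoid.addOrderOf_eq_one_iff.1 (Nat.dvd_one.1 h7)

end GM
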