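import Pool.Agent.Lib.MP_f80667_ag.Gm.GsE

/-! Existence of the values of `T`. -/

open ZC BE PE CV IntermediateField

namespace GM

variable {F : Type} [Field F] {N n : ℕ} {G : MvPolynomial (Fin N) F} {K Ω : Type} [Field K]
  [CharZero K] [Field Ω] [Algebra K Ω] [Algebra F K] [Algebra F Ω] [IsScalarTower F K Ω]
  [IsAlgClosure K Ω] {L : Ld K Ω} {B : Type} [AddCommGroup B]
  {lam : ((Xh G).pt Ω →₀ ℤ) →+ B} {M : IntermediateField K Ω} {R : ℕ}
  {g : MvPolynomial (Fin N) (kI L R)}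

omit [CharZero K] [IsAlgClosure K Ω] in
/-- A vector congruent to a vector with residue `y` has residue `y`. -/
private theorem gsex_rdv {k : Subfield L.κ} {x x' : Fin N → Ω} {y : Fin N → k}
    (hx : Rdv L k x y) (h : ∀ i, L.nm (x' i - x i) < 1) : Rdv L k x' y := by
  intro i
  have h1 := (L.hv_zero.2 (h i)).add (hx i)
  rwa [sub_add_cancel, zero_add] at h1

/-- Elements of norm `< nm p ^ i` of an unramified extension. -/
private theorem gsex_lt [L.Unr] {M : IntermediateField K Ω} (hM : Um L M) {x : Ω} (hx : x ∈ M)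
    {i : ℕ} (h : L.nm x < L.nm (L.p : Ω) ^ i) : L.nm x ≤ L.nm (L.p : Ω) ^ (i + 1) := by
  obtain ⟨N, hN, hle⟩ := hM
  exact Ld.ur_lt hN (hle hx) h

/-- Existence. Proof: `kJ_te`: `s` and lifts of the coordinates of `y` and `u`; `lift_h` (`r = 1`) gives `x`, `lift_h` (`r = 2`) for `x + p u`
gives `x'` (`gi_taylor`; `Rdp.aeval`, `Rdp.dG`, `sm_unit`, `rdv_prim`). -/
theorem tv_ex [L.Unr] (hG : Gi G L n) (hs : Sm G L) (hM : Um L M) (hR : L.Rf M R)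
    (hg : Rdp L (kI L R) G g) {y u : Fin N → kI L R} (h : Tg g y u) :
    ∃ b, Tv L lam M R y u b := by
  have hp0 : 0 < L.nm (L.p : Ω) := L.p_pos
  have hp1 : L.nm (L.p : Ω) < 1 := L.lt
  have hpn : (L.p : Ω) ≠ 0 := L.ne_zero hp0
  have h0 : (0 : ℕ) ∉ Jc L.p L.pp := fun h => h (dvd_zero _)
  obtain ⟨s, hsJ, hf⟩ := kJ_te hR.ne h0 (Sum.elim y u)
  have hps : ¬ L.p ∣ s := hsJ
  have hs0 : s ≠ 0 := fun h => h0 (h ▸ hsJ)
  choose f hf1 hf2 using hf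
  have hU : Um L (Mu L M R s) := mu_um hM hR.ne hs0
  have hx0 : Iv L (Mu L M R s) (fun i => f (Sum.inl i)) := fun i =>
    ⟨Ld.te_ur (hf1 _), L.hv_int (hf2 (Sum.inl i))⟩
  have hu0 : Iv L (Mu L M R s) (fun i => f (Sum.inr i)) := fun i =>
    ⟨Ld.te_ur (hf1 _), L.hv_int (hf2 (Sum.inr i))⟩
  have hy0 : Rdv L (kI L R) (fun i => f (Sum.inl i)) y := fun i => hf2 (Sum.inl i)
  have hv0 : Rdv L (kI L R) (fun i => f (Sum.inr i)) u := fun i => hf2 (Sum.inr i)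
  generalize (fun i => f (Sum.inl i)) = x₀ at hx0 hy0
  generalize (fun i => f (Sum.inr i)) = u₀ at hu0 hv0
  -- the first lift
  have h1 : L.nm (MvPolynomial.aeval x₀ G) < 1 := by
    have h2 := hg.aeval hy0
    rw [h.2.1] at h2
    exact L.hv_zero.1 h2
  have h2 : L.nm (MvPolynomial.aeval x₀ G) ≤ L.nm (L.p : Ω) ^ 1 :=
    gsex_lt (i := 0) hU (gi_mem fun i => (hx0 i).1) (by rwa [pow_zero])
  obtain ⟨hpi, hpr⟩ := rdv_prim hy0 h.1
  obtain ⟨i₀, hi₀⟩ := sm_unit hG hs hpi hpr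
  obtain ⟨x, hx, hxG, hxx⟩ := lift_h hG hU hx0 one_ne_zero h2 hi₀
  have hxy : Rdv L (kI L R) x y := gsex_rdv hy0 fun i =>
    (hxx i).trans_lt (by rwa [pow_one])
  obtain ⟨hxi, hxr⟩ := rdv_prim hxy h.1
  -- the second lift
  have hpM : (L.p : Ω) ∈ Mu L M R s := _root_.natCast_mem _ _
  have hx1 : Iv L (Mu L M R s) (fun i => x i + (L.p : Ω) * u₀ i) := by
    intro i
    refine ⟨add_mem (hx i).1 (mul_mem hpM (hu0 i).1), (L.add _ _).trans (max_le (hx i).2 ?_)⟩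
    rw [L.mul]
    exact mul_le_one₀ hp1.le (L.nonneg _) (hu0 i).2
  have hx1y : Rdv L (kI L R) (fun i => x i + (L.p : Ω) * u₀ i) y := gsex_rdv hxy fun i => by
    rw [add_sub_cancel_left, L.mul]
    exact mul_lt_one_of_nonneg_of_lt_one_left (L.nonneg _) hp1 (hu0 i).2
  have h3 : L.nm (dGo G x u₀) ≤ L.nm (L.p : Ω) := by
    have h4 := hg.dG hxy hv0
    rw [h.2.2] at h4
    have h5 := gsex_lt (i := 0) hU (gi_dG hG hx hu0).1 (by
      rw [pow_zero]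
      exact L.hv_zero.1 h4)
    rwa [zero_add, pow_one] at h5
  have h4 : L.nm (MvPolynomial.aeval (fun i => x i + (L.p : Ω) * u₀ i) G) ≤
      L.nm (L.p : Ω) ^ 2 := by
    have h5 := gi_taylor hG hxi (fun i => (hu0 i).2) hp1.le
    rw [hxG, sub_zero] at h5
    have h6 : MvPolynomial.aeval (fun i => x i + (L.p : Ω) * u₀ i) G =
        (MvPolynomial.aeval (fun i => x i + (L.p : Ω) * u₀ i) G - (L.p : Ω) * dGo G x u₀) +
          (L.p : Ω) * dGo G x u₀ := (sub_add_cancel _ _).symm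
    rw [h6]
    refine (L.add _ _).trans (max_le h5 ?_)
    rw [L.mul, sq]
    exact mul_le_mul_of_nonneg_left h3 hp0.le
  obtain ⟨hpi', hpr'⟩ := rdv_prim hx1y h.1
  obtain ⟨i₁, hi₁⟩ := sm_unit hG hs hpi' hpr'
  obtain ⟨x', hx', hxG', hxx'⟩ := lift_h hG hU hx1 two_ne_zero h4 hi₁
  have hp2 : L.nm (L.p : Ω) ^ 2 < 1 := pow_lt_one₀ hp0.le hp1 two_ne_zero
  have hxy' : Rdv L (kI L R) x' y := gsex_rdv hx1y fun i => (hxx' i).trans_lt hp2
  obtain ⟨-, hxr'⟩ := rdv_prim hxy' h.1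
  have hne : ∀ {z : Fin N → Ω}, (∃ i, L.nm (z i) = 1) → z ≠ 0 := by
    rintro z ⟨i, hi⟩ rfl
    rw [Pi.zero_apply, L.zero] at hi
    exact zero_ne_one hi
  obtain ⟨P, hP⟩ := exists_cop x (hne hxr) hxG
  obtain ⟨P', hP'⟩ := exists_cop x' (hne hxr') hxG'
  refine ⟨vl L lam M R s P P', s, hps, x, x', P, P', hx, hx', hP, hP', hxy, fun i => ?_, rfl⟩
  have h7 : L.nm ((x' i - (x i + (L.p : Ω) * u₀ i)) / (L.p : Ω)) < 1 := by
    rw [L.div]
    refine lt_of_le_of_lt ?_ hp1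
    rw [div_le_iff₀ hp0, ← sq]
    exact hxx' i
  have h8 := (L.hv_zero.2 h7).add (hv0 i)
  rw [zero_add] at h8
  have h9 : (x' i - x i) / (L.p : Ω) = (x' i - (x i + (L.p : Ω) * u₀ i)) / (L.p : Ω) + u₀ i := by
    field_simp
    ring
  rw [h9]
  exact h8

end GM
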