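import Pool.Agent.Lib.MP_f80667_ag.Gm.GsEf
import Pool.Agent.Lib.MP_f80667_ag.Gm.GsEx

/-! Uniqueness and additivity of the values of `T`. -/

open ZC BE PE CV IntermediateField

namespace GM

variable {F : Type} [Field F] {N n : ℕ} {G : MvPolynomial (Fin N) F} {K Ω : Type} [Field K]
  [CharZero K] [Field Ω] [Algebra K Ω] [Algebra F K] [Algebra F Ω] [IsScalarTower F K Ω]
  [IsAlgClosure K Ω] {L : Ld K Ω} {B : Type} [AddCommGroup B]
  {lam : ((Xh G).pt Ω →₀ ℤ) →+ B} {M : IntermediateField K Ω} {R : ℕ}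
  {g : MvPolynomial (Fin N) (kI L R)}

private theorem eu_um (hM : Um L M) (hR : L.Rf M R) {s : ℕ} (hs : ¬ L.p ∣ s) :
    Um L (Mu L M R s) :=
  mu_um hM hR.ne fun h => hs (h ▸ dvd_zero _)

private theorem eu_lt [L.Unr] {M' : IntermediateField K Ω} (hM : Um L M') {z : Ω} (hz : z ∈ M')
    (h : L.nm z < 1) : L.nm z ≤ L.nm (L.p : Ω) := by
  obtain ⟨N', hN', hM'⟩ := hM
  have h1 := PE.Ld.ur_lt hN' (hM' hz) (i := 0) (by rw [pow_zero]; exact h)
  rwa [zero_add, pow_one] at h1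

omit [CharZero K] [IsAlgClosure K Ω] in
private theorem eu_zero {P : (Xh G).pt Ω} {x : Fin N → Ω} (h : Co P x) :
    MvPolynomial.aeval x G = 0 := by
  obtain ⟨Q, -, rfl⟩ := h
  exact Q.eq

private theorem eu_p0 (L : Ld K Ω) : (L.p : Ω) ≠ 0 := L.ne_zero L.p_pos

private theorem eu_le {z : Ω} {r : L.κ} (h : L.rs.Hv (z / (L.p : Ω)) r) :
    L.nm z ≤ L.nm (L.p : Ω) := by
  have h1 := L.hv_int h
  rw [L.div, div_le_one L.p_pos] at h1
  exact h1

private theorem eu_rdv {k : Subfield L.κ} {x x' : Fin N → Ω} {y : Fin N → k}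
    (hx : Rdv L k x y) (h : ∀ i, L.nm (x' i - x i) < 1) : Rdv L k x' y := by
  intro i
  have h1 := (hx i).add (L.hv_zero.2 (h i))
  rw [add_sub_cancel, add_zero] at h1
  exact h1

private theorem eu_near {k : Subfield L.κ} {x x' : Fin N → Ω} {y : Fin N → k} {u : Fin N → L.κ}
    (hx : Rdv L k x y) (h : ∀ i, L.rs.Hv ((x' i - x i) / (L.p : Ω)) (u i)) : Rdv L k x' y :=
  eu_rdv hx fun i => (eu_le (h i)).trans_lt L.lt

private theorem eu_nrh {k : Subfield L.κ} {x x' : Fin N → Ω} {y : Fin N → k} {u : Fin N → L.κ}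
    (hy : y ≠ 0) (hx : Rdv L k x y) (h : ∀ i, L.rs.Hv ((x' i - x i) / (L.p : Ω)) (u i))
    {P P' : (Xh G).pt Ω} (hP : Co P x) (hP' : Co P' x') : Nrh G L (L.nm (L.p : Ω)) P' P := by
  have h1 := rdv_prim hx hy
  have h2 := rdv_prim (eu_near hx h) hy
  exact ⟨x', x, hP', hP, h2.1, h1.1, h2.2, h1.2, fun i => eu_le (h i)⟩

omit [CharZero K] [IsAlgClosure K Ω] in
private theorem eu_iv {s : ℕ} (s' : ℕ) (h : Mu L M R s ≤ Mu L M R (s * s')) {x : Fin N → Ω}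
    (hx : Iv L (Mu L M R s) x) : Iv L (Mu L M R (s * s')) x :=
  fun i => ⟨h (hx i).1, (hx i).2⟩

/-- Uniqueness. Proof: raise both to `Mu (s s')` (`vl_up`), `four` for `x₁ = x'`, `x₂ = x`, `x₃ = x'₂`, `x₄ = x₂`. -/
theorem tv_uniq [L.Unr] (hN : 2 ≤ N) (hG : Gi G L n) (hs : Sm G L) (hp : n < L.p)
    (hl : Lm G L lam) (hM : Um L M) (hR : L.Rf M R) (hg : Rdp L (kI L R) G g)
    {y u : Fin N → kI L R} (hy : y ≠ 0) {b b' : B} (h : Tv L lam M R y u b)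
    (h' : Tv L lam M R y u b') : b = b' := by
  obtain ⟨s, hs1, x, x', P, P', hx, hx', hP, hP', hxy, hu, rfl⟩ := h
  obtain ⟨s₂, hs2, x₂, x₂', P₂, P₂', hx2, hx2', hP2, hP2', hxy2, hu2, rfl⟩ := h'
  have hss : ¬ L.p ∣ s * s₂ := fun h => (L.pp.dvd_mul.1 h).elim hs1 hs2
  have e1 := vl_up hl hM hR hs1 hs2 (co_fp hP fun i => (hx i).1) (co_fp hP' fun i => (hx' i).1)
    (eu_nrh hy hxy hu hP hP')
  have e2 := vl_up hl hM hR hs2 hs1 (co_fp hP2 fun i => (hx2 i).1) (co_fp hP2' fun i => (hx2' i).1)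
    (eu_nrh hy hxy2 hu2 hP2 hP2')
  rw [mul_comm s₂ s] at e2
  have hm : Mu L M R s₂ ≤ Mu L M R (s * s₂) := by
    rw [mul_comm s s₂]
    exact mu_mono s
  have hx_ : Iv L (Mu L M R (s * s₂)) x := eu_iv s₂ (mu_mono s₂) hx
  have hx'_ : Iv L (Mu L M R (s * s₂)) x' := eu_iv s₂ (mu_mono s₂) hx'
  have hx2_ : Iv L (Mu L M R (s * s₂)) x₂ := fun i => ⟨hm (hx2 i).1, (hx2 i).2⟩
  have hx2'_ : Iv L (Mu L M R (s * s₂)) x₂' := fun i => ⟨hm (hx2' i).1, (hx2' i).2⟩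
  have hM' : Um L (Mu L M R (s * s₂)) := eu_um hM hR hss
  have hp0 : (L.p : Ω) ≠ 0 := eu_p0 L
  have h4 := four hN hG hs hp hl hM hR hg hy hss hx'_ hx_ hx2'_ hx2_ (eu_near hxy hu) hxy
    (eu_near hxy2 hu2) hxy2 (fun i => by
      have h5 : x' i + x₂ i - x i - x₂' i =
          (L.p : Ω) * ((x' i - x i) / (L.p : Ω) - (x₂' i - x₂ i) / (L.p : Ω)) := by
        field_simp
        ring
      have h6 : (x' i - x i) / (L.p : Ω) - (x₂' i - x₂ i) / (L.p : Ω) ∈ Mu L M R (s * s₂) :=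
        sub_mem (div_mem (sub_mem (hx'_ i).1 (hx_ i).1) (_root_.natCast_mem _ _))
          (div_mem (sub_mem (hx2'_ i).1 (hx2_ i).1) (_root_.natCast_mem _ _))
      have h7 := eu_lt hM' h6 ((L.hv_sub (hu i) (hu2 i)).1 rfl)
      rw [h5, L.mul, pow_two]
      exact mul_le_mul_of_nonneg_left h7 (L.nonneg _)) hP' hP hP2' hP2
  rw [← e1, ← e2]
  unfold vl
  congr 1
  have h8 : (Finsupp.single P' 1 - Finsupp.single P 1 : (Xh G).pt Ω →₀ ℤ) =
      (Finsupp.single P' 1 + Finsupp.single P₂ 1 - Finsupp.single P 1 - Finsupp.single P₂' 1) +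
        (Finsupp.single P₂' 1 - Finsupp.single P₂ 1) := by
    abel
  rw [h8, map_add, map_add, h4, zero_add]

/-- Additivity. Proof: over a common field: `P`, `P'`; `P`, `P''` (the second with the same `P`: uniqueness does not depend on the choice; take `x'' = x + p u'` lifted by `lift_h`), `x'''` a lift of
`x' + x'' - x`; `four`. -/
theorem tv_add [L.Unr] (hN : 2 ≤ N) (hG : Gi G L n) (hs : Sm G L) (hp : n < L.p)
    (hl : Lm G L lam) (hM : Um L M) (hR : L.Rf M R) (hg : Rdp L (kI L R) G g)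
    {y u u' : Fin N → kI L R} (hu : Tg g y u) (hu' : Tg g y u') {b b' : B}
    (h : Tv L lam M R y u b) (h' : Tv L lam M R y u' b') : Tv L lam M R y (u + u') (b + b') := by
  have hy : y ≠ 0 := hu.1
  obtain ⟨s, hs1, x, x', P, P', hx, hx', hP, hP', hxy, hu1, rfl⟩ := h
  obtain ⟨s₂, hs2, x₂, x₂', P₂, P₂', hx2, hx2', hP2, hP2', hxy2, hu2, rfl⟩ := h'
  have hss : ¬ L.p ∣ s * s₂ := fun h => (L.pp.dvd_mul.1 h).elim hs1 hs2
  have e1 := vl_up hl hM hR hs1 hs2 (co_fp hP fun i => (hx i).1) (co_fp hP' fun i => (hx' i).1)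
    (eu_nrh hy hxy hu1 hP hP')
  have e2 := vl_up hl hM hR hs2 hs1 (co_fp hP2 fun i => (hx2 i).1) (co_fp hP2' fun i => (hx2' i).1)
    (eu_nrh hy hxy2 hu2 hP2 hP2')
  rw [mul_comm s₂ s] at e2
  have hm : Mu L M R s₂ ≤ Mu L M R (s * s₂) := by
    rw [mul_comm s s₂]
    exact mu_mono s
  have hx_ : Iv L (Mu L M R (s * s₂)) x := eu_iv s₂ (mu_mono s₂) hx
  have hx'_ : Iv L (Mu L M R (s * s₂)) x' := eu_iv s₂ (mu_mono s₂) hx'
  have hx2_ : Iv L (Mu L M R (s * s₂)) x₂ := fun i => ⟨hm (hx2 i).1, (hx2 i).2⟩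
  have hx2'_ : Iv L (Mu L M R (s * s₂)) x₂' := fun i => ⟨hm (hx2' i).1, (hx2' i).2⟩
  have hM' : Um L (Mu L M R (s * s₂)) := eu_um hM hR hss
  have hp0 : (L.p : Ω) ≠ 0 := eu_p0 L
  have hp2 : L.nm (L.p : Ω) ^ 2 ≤ L.nm (L.p : Ω) := by
    rw [pow_two]
    exact mul_le_of_le_one_left (L.nonneg _) L.lt.le
  -- the vector `w`
  have hw : Iv L (Mu L M R (s * s₂)) fun i => (x₂' i - x₂ i) / (L.p : Ω) := fun i =>
    ⟨div_mem (sub_mem (hx2'_ i).1 (hx2_ i).1) (_root_.natCast_mem _ _), L.hv_int (hu2 i)⟩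
  have hx'y : Rdv L (kI L R) x' y := eu_near hxy hu1
  have hz : Iv L (Mu L M R (s * s₂)) fun i => x' i + (L.p : Ω) * ((x₂' i - x₂ i) / (L.p : Ω)) := by
    intro i
    refine ⟨add_mem (hx'_ i).1 (mul_mem (_root_.natCast_mem _ _) (hw i).1), ?_⟩
    refine (L.add _ _).trans (max_le (hx'_ i).2 ?_)
    rw [L.mul]
    exact (mul_le_of_le_one_left (L.nonneg _) L.lt.le).trans (hw i).2
  have hzy : Rdv L (kI L R) (fun i => x' i + (L.p : Ω) * ((x₂' i - x₂ i) / (L.p : Ω))) y := by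
    refine eu_rdv hx'y fun i => ?_
    rw [add_sub_cancel_left, L.mul]
    exact (mul_le_of_le_one_right (L.nonneg _) (hw i).2).trans_lt L.lt
  have hd1 : L.nm (dGo G x' fun i => (x₂' i - x₂ i) / (L.p : Ω)) < 1 := by
    rw [← L.hv_zero]
    have h5 := hg.dG (v := fun i => (x₂' i - x₂ i) / (L.p : Ω)) (u := u') hx'y hu2
    rw [hu'.2.2] at h5
    exact h5
  have hd2 := eu_lt hM' (gi_dG hG hx'_ hw).1 hd1
  have hGz : L.nm (MvPolynomial.aeval
      (fun i => x' i + (L.p : Ω) * ((x₂' i - x₂ i) / (L.p : Ω))) G) ≤ L.nm (L.p : Ω) ^ 2 := by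
    have h5 := gi_taylor hG (x := x') (u := fun i => (x₂' i - x₂ i) / (L.p : Ω))
      (fun i => (hx'_ i).2) (fun i => (hw i).2) L.lt.le
    rw [eu_zero hP', sub_zero] at h5
    have h6 := L.add _ ((L.p : Ω) * dGo G x' fun i => (x₂' i - x₂ i) / (L.p : Ω)) |>.trans
      (max_le h5 (by
        rw [L.mul, pow_two]
        exact mul_le_mul_of_nonneg_left hd2 (L.nonneg _)))
    rwa [sub_add_cancel] at h6
  obtain ⟨i₀, hi₀⟩ := sm_unit hG hs (fun i => (hz i).2) (rdv_prim hzy hy).2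
  obtain ⟨x₃, hx3, hG3, h3⟩ := lift_h hG hM' hz two_ne_zero hGz hi₀
  have hx3y : Rdv L (kI L R) x₃ y :=
    eu_rdv hzy fun i => ((h3 i).trans hp2).trans_lt L.lt
  obtain ⟨P₃, hP3⟩ := exists_cop x₃ (by
    rintro rfl
    obtain ⟨i, hi⟩ := (rdv_prim hx3y hy).2
    rw [Pi.zero_apply, L.zero] at hi
    exact zero_ne_one hi) hG3
  have h4 := four hN hG hs hp hl hM hR hg hy hss hx3 hx'_ hx2'_ hx2_ hx3y hx'y
    (eu_near hxy2 hu2) hxy2 (fun i => by
      have h5 : x₃ i + x₂ i - x' i - x₂' i =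
          x₃ i - (x' i + (L.p : Ω) * ((x₂' i - x₂ i) / (L.p : Ω))) := by
        rw [mul_div_cancel₀ _ hp0]
        ring
      rw [h5]
      exact h3 i) hP3 hP' hP2' hP2
  refine ⟨s * s₂, hss, x, x₃, P, P₃, hx_, hx3, hP, hP3, hxy, fun i => ?_, ?_⟩
  · have h5 : L.nm ((x₃ i - (x' i + (L.p : Ω) * ((x₂' i - x₂ i) / (L.p : Ω)))) / (L.p : Ω)) < 1 := by
      rw [L.div]
      refine (div_le_of_le_mul₀ (L.nonneg _) (L.nonneg _) ?_).trans_lt L.lt
      rw [← pow_two]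
      exact h3 i
    have h6 := ((hu1 i).add (hu2 i)).add (L.hv_zero.2 h5)
    rw [add_zero] at h6
    refine h6.congr ?_ rfl
    field_simp
    ring
  · rw [← e1, ← e2]
    unfold vl
    rw [← smul_add]
    congr 1
    have h8 : (Finsupp.single P₃ 1 - Finsupp.single P 1 : (Xh G).pt Ω →₀ ℤ) =
        (Finsupp.single P₃ 1 + Finsupp.single P₂ 1 - Finsupp.single P' 1 - Finsupp.single P₂' 1) +
          (Finsupp.single P' 1 - Finsupp.single P 1 +
            (Finsupp.single P₂' 1 - Finsupp.single P₂ 1)) := by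
      abel
    rw [h8, map_add, map_add, h4, zero_add, map_add, map_add]

end GM
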