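import Pool.Agent.Lib.MP_f80667_ag.Gm.GsFc
import Pool.Agent.Lib.MP_f80667_ag.Gm.GsDz
import Pool.Agent.Lib.MP_f80667_ag.Gm.GsDf
import Pool.Agent.Lib.MP_f80667_ag.Gm.GsAs

/-! The function `T` vanishes. -/

open ZC BE PE CV IntermediateField

namespace GM

section tgl

variable {k : Type} [Field k] {N : ℕ}

private theorem gsf_add {g : MvPolynomial (Fin N) k} {y u u' : Fin N → k} (h : Tg g y u)
    (h' : Tg g y u') : Tg g y (u + u') :=
  ⟨h.1, h.2.1, by rw [dG_add, h.2.2, h'.2.2, add_zero]⟩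

private theorem gsf_smul {g : MvPolynomial (Fin N) k} {y u : Fin N → k} (h : Tg g y u) (t : k) :
    Tg g y (t • u) := ⟨h.1, h.2.1, by rw [dG_smul, h.2.2, mul_zero]⟩

private theorem gsf_ev {f : MvPolynomial (Fin N) k} {m : ℕ} (hf : f.IsHomogeneous m)
    (y : Fin N → k) (t : k) : MvPolynomial.eval (t • y) f = t ^ m * MvPolynomial.eval y f := by
  rw [MvPolynomial.eval_eq, MvPolynomial.eval_eq, Finset.mul_sum]
  refine Finset.sum_congr rfl fun d hd => ?_
  have h1 : ∑ i ∈ d.support, d i = m := by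
    have := hf (MvPolynomial.mem_support_iff.1 hd)
    rw [← this]
    rw [Finsupp.weight_apply, Finsupp.sum]
    simp
  have h2 : ∏ i ∈ d.support, (t • y) i ^ d i = t ^ m * ∏ i ∈ d.support, y i ^ d i := by
    rw [← h1, ← Finset.prod_pow_eq_pow_sum, ← Finset.prod_mul_distrib]
    refine Finset.prod_congr rfl fun i _ => ?_
    rw [Pi.smul_apply, smul_eq_mul, mul_pow]
  rw [h2]
  ring

private theorem gsf_hom {g : MvPolynomial (Fin N) k} {n : ℕ} (hn : 1 ≤ n) (hg : g.IsHomogeneous n)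
    {y u : Fin N → k} (h : Tg g y u) {t : k} (ht : t ≠ 0) : Tg g (t • y) (t • u) := by
  refine ⟨smul_ne_zero ht h.1, ?_, ?_⟩
  · rw [gsf_ev hg, h.2.1, mul_zero]
  · obtain ⟨m, rfl⟩ : ∃ m, n = m + 1 := ⟨n - 1, by omega⟩
    rw [dG_smul, dG_hom hg, h.2.2, mul_zero, mul_zero]

private theorem gsf_erase {α : Type} (i₁ i₂ : DecidableEq α) (S : Finset α) (c : α) :
    @Finset.erase α i₁ S c = @Finset.erase α i₂ S c := by
  rw [Subsingleton.elim i₁ i₂]

end tgl

variable {F : Type} [Field F] {N n : ℕ} {G : MvPolynomial (Fin N) F} {K Ω : Type} [Field K]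
  [CharZero K] [Field Ω] [Algebra K Ω] [Algebra F K] [Algebra F Ω] [IsScalarTower F K Ω]
  [IsAlgClosure K Ω] {L : Ld K Ω} {B : Type} [AddCommGroup B]
  {lam : ((Xh G).pt Ω →₀ ℤ) →+ B} {M : IntermediateField K Ω} {R : ℕ}
  {g : MvPolynomial (Fin N) (kI L R)}

/-- Proof: `tf_eq`, `tv_ex`, `tv_add`, `tv_hom`, `tv_rad`, `tf_crv`. -/
theorem tf_ft [L.Unr] (hN : 2 ≤ N) (hG : Gi G L n) (hs : Sm G L) (hp : n < L.p)
    (hl : Lm G L lam) (hM : Um L M) (hR : L.Rf M R) (hg : Rdp L (kI L R) G g) :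
    Ft g (Tf L lam M R g) where
  add y u u' hu hu' := by
    obtain ⟨b, hb⟩ := tv_ex (lam := lam) hG hs hM hR hg hu
    obtain ⟨b', hb'⟩ := tv_ex (lam := lam) hG hs hM hR hg hu'
    rw [tf_eq hN hG hs hp hl hM hR hg hu hb, tf_eq hN hG hs hp hl hM hR hg hu' hb',
      tf_eq hN hG hs hp hl hM hR hg (gsf_add hu hu')
        (tv_add hN hG hs hp hl hM hR hg hu hu' hb hb')]
  hom y u t ht hu := by
    obtain ⟨b, hb⟩ := tv_ex (lam := lam) hG hs hM hR hg hu
    rw [tf_eq hN hG hs hp hl hM hR hg hu hb,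
      tf_eq hN hG hs hp hl hM hR hg
        (gsf_hom (le_trans one_le_two hG.two) (hg.hom hG.hom) hu ht)
        (tv_hom hG hl hM hR hu.1 ht hb)]
  rad y t hy := tf_eq hN hG hs hp hl hM hR hg (gsf_smul hy t)
    (tv_rad hG hs hM hR hg hy.1 hy.2.1 t)
  crv v a ρ j S τ hv ha hj hS := by
    have h := tf_crv hN hG hs hp hl hM hR hg v a ρ j S τ hv ha hj hS
    rw [← h]
    refine Finset.sum_congr rfl fun c _ => ?_
    refine congrArg Multiset.sum (Multiset.map_congr rfl fun w _ => ?_)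
    refine congrArg (Tf L lam M R g _) ?_
    refine congrArg (fun t : kI L R => t • pw g v (av a c + w • v) (dv a c)) ?_
    refine congrArg (fun t : kI L R => τ * w ^ j * t⁻¹) ?_
    exact Finset.prod_congr (gsf_erase _ _ S c) fun _ _ => rfl

/-- `T = 0`. Proof: `Ft.exists_fv` and `Fv.zero` over `kI` (`kJ_inf`, `kJ_root`, `kJ_spl`, `kJ_char`, `Rdp.sm`, `Rdp.hom`). -/
theorem tf_zero [L.Unr] (hN : 4 ≤ N) (hG : Gi G L n) (hs : Sm G L) (hp : n < L.p)
    (hl : Lm G L lam) (hM : Um L M) (hR : L.Rf M R) (hg : Rdp L (kI L R) G g)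
    {y u : Fin N → kI L R} (hu : Tg g y u) : Tf L lam M R g y u = 0 := by
  by_contra hne
  have hF := tf_ft (by omega) hG hs hp hl hM hR hg
  obtain ⟨ℓ, hℓ, h0⟩ := hF.exists_fv (hg.hom hG.hom) hG.two hu hne
  apply h0
  have hJ0 : 0 ∉ Jc L.p L.pp := fun h => h (dvd_zero _)
  have hfd : FiniteDimensional K M := hM.fd
  have hc : CharP (kI L R) L.p := kJ_char L R _
  have hinf : Infinite (kI L R) := by
    refine kJ_inf hR.ne fun b => ⟨L.p * b + 1, ?_, ?_⟩
    · intro h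
      have h1 : L.p ∣ 1 := (Nat.dvd_add_right (dvd_mul_right L.p b)).1 h
      exact L.pp.one_lt.ne' (Nat.dvd_one.1 h1)
    · exact le_trans (Nat.le_mul_of_pos_left b L.pp.pos) (Nat.le_succ _)
  refine Fv.zero hG.two hN L.pp hp (kJ_root hR.ne hJ0) (kJ_spl hR.ne hJ0 ?_)
    (hg.hom hG.hom) (hg.sm hs ?_) hℓ hu
  · intro d hd hdn h
    exact absurd (Nat.le_of_dvd (Nat.pos_of_ne_zero hd) h) (by omega)
  · intro x hx
    exact kJ_res hR (Jc L.p L.pp).one_mem one_ne_zero (Ld.ur_le (M.algebraMap_mem x)) hx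

end GM
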