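import Pool.Agent.Lib.MP_f80667_ag.Gm.GsFd

/-! The relation of the curves for `T`. -/

open ZC BE PE CV IntermediateField

namespace GM

variable {F : Type} [Field F] {N n : ℕ} {G : MvPolynomial (Fin N) F} {K Ω : Type} [Field K]
  [CharZero K] [Field Ω] [Algebra K Ω] [Algebra F K] [Algebra F Ω] [IsScalarTower F K Ω]
  [IsAlgClosure K Ω] {L : Ld K Ω} {B : Type} [AddCommGroup B]
  {lam : ((Xh G).pt Ω →₀ ℤ) →+ B} {M : IntermediateField K Ω} {R : ℕ}
  {g : MvPolynomial (Fin N) (kI L R)}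

section res

omit [CharZero K] [IsAlgClosure K Ω] in
private theorem hv_sum {ι : Type} (S : Finset ι) {f : ι → Ω} {r : ι → L.κ}
    (h : ∀ i ∈ S, L.rs.Hv (f i) (r i)) : L.rs.Hv (∑ i ∈ S, f i) (∑ i ∈ S, r i) := by
  classical
  induction S using Finset.induction_on with
  | empty =>
    rw [Finset.sum_empty, Finset.sum_empty]
    exact Rs.Hv.zero
  | insert a S ha ih =>
    rw [Finset.sum_insert ha, Finset.sum_insert ha]
    exact (h a (Finset.mem_insert_self a S)).add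
      (ih fun i hi => h i (Finset.mem_insert_of_mem hi))

omit [CharZero K] [IsAlgClosure K Ω] in
private theorem hv_prod {ι : Type} (S : Finset ι) {f : ι → Ω} {r : ι → L.κ}
    (h : ∀ i ∈ S, L.rs.Hv (f i) (r i)) : L.rs.Hv (∏ i ∈ S, f i) (∏ i ∈ S, r i) := by
  classical
  induction S using Finset.induction_on with
  | empty =>
    rw [Finset.prod_empty, Finset.prod_empty]
    exact Rs.Hv.one
  | insert a S ha ih =>
    rw [Finset.prod_insert ha, Finset.prod_insert ha]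
    exact (h a (Finset.mem_insert_self a S)).mul
      (ih fun i hi => h i (Finset.mem_insert_of_mem hi))

/-- The value of a polynomial. -/
private theorem hv_eval {k : Subfield L.κ} {f : Polynomial Ω} {h : Polynomial k}
    (hf : ∀ j, L.rs.Hv (f.coeff j) ((h.coeff j : k) : L.κ)) {x : Ω} {y : k}
    (hx : L.rs.Hv x (y : L.κ)) : L.rs.Hv (f.eval x) ((h.eval y : k) : L.κ) := by
  have h1 : f.natDegree < max f.natDegree h.natDegree + 1 := by omega
  have h2 : h.natDegree < max f.natDegree h.natDegree + 1 := by omega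
  rw [Polynomial.eval_eq_sum_range' h1, Polynomial.eval_eq_sum_range' h2]
  change L.rs.Hv _ (k.subtype _)
  rw [map_sum]
  refine hv_sum _ fun i _ => ?_
  rw [map_mul, map_pow]
  exact (hf i).mul (hx.pow i)

private theorem hv_der {k : Subfield L.κ} {f : Polynomial Ω} {h : Polynomial k}
    (hf : ∀ j, L.rs.Hv (f.coeff j) ((h.coeff j : k) : L.κ)) (j : ℕ) :
    L.rs.Hv ((Polynomial.derivative f).coeff j)
      (((Polynomial.derivative h).coeff j : k) : L.κ) := by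
  rw [Polynomial.coeff_derivative, Polynomial.coeff_derivative]
  have h3 : (((h.coeff (j + 1)) * ((j : k) + 1) : k) : L.κ) =
      ((h.coeff (j + 1) : k) : L.κ) * ((j + 1 : ℕ) : L.κ) := by
    change k.subtype (h.coeff (j + 1) * ((j : k) + 1)) = _
    rw [map_mul, map_add, map_natCast, map_one, Nat.cast_succ]
    rfl
  rw [h3, show (j : Ω) + 1 = ((j + 1 : ℕ) : Ω) by rw [Nat.cast_succ]]
  exact (hf (j + 1)).mul (Rs.Hv.nat _)

omit [CharZero K] [IsAlgClosure K Ω] in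
/-- The line over a larger field. -/
private theorem gl_map {k k' : Type} [Field k] [Field k'] (ι : k →+* k')
    (g : MvPolynomial (Fin N) k) (v b : Fin N → k) :
    gl (g.map ι) (fun i => ι (v i)) (fun i => ι (b i)) = (gl g v b).map ι := by
  unfold gl
  have h1 : (Polynomial.mapRingHom ι) (MvPolynomial.aeval (fun i => Polynomial.C (b i) +
      Polynomial.C (v i) * Polynomial.X) g) = _ := MvPolynomial.map_aeval _ _ _
  rw [Polynomial.coe_mapRingHom] at h1
  rw [h1, MvPolynomial.aeval_def, MvPolynomial.eval₂_map, MvPolynomial.coe_eval₂Hom]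
  congr 1
  · ext x
    simp
  · funext i
    simp

/-- The residues of the roots. -/
private theorem root_res (hG : Gi G L n) (hp : n < L.p) (hR : R ≠ 0)
    (hg : Rdp L (kI L R) G g) {x v : Fin N → Ω} {y u : Fin N → kI L R}
    (hx : Rdv L (kI L R) x y) (hv : Rdv L (kI L R) v u) (h0 : gl g u y ≠ 0) {w : Ω}
    (hw1 : L.nm w ≤ 1) (hw : MvPolynomial.aeval (fun i => x i + w * v i) G = 0) :
    ∃ t : kI L R, (gl g u y).IsRoot t ∧ L.rs.Hv w (t : L.κ) := by
  obtain ⟨r, hr⟩ := L.hv_of hw1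
  have hle : kI L R ≤ (⊤ : Subfield L.κ) := le_top
  obtain ⟨ι, hι⟩ : ∃ ι : kI L R →+* (⊤ : Subfield L.κ), ∀ z, ((ι z : (⊤ : Subfield L.κ)) : L.κ) =
      (z : L.κ) := ⟨Subfield.inclusion hle, fun z => rfl⟩
  have hg' : Rdp L ⊤ G (g.map ι) := by
    intro d
    rw [MvPolynomial.coeff_map, hι]
    exact hg d
  have hx' : Rdv L ⊤ x (fun i => ι (y i)) := fun i => by
    rw [hι]
    exact hx i
  have hv' : Rdv L ⊤ v (fun i => ι (u i)) := fun i => by
    rw [hι]
    exact hv i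
  have h1 : Rdv L ⊤ (fun i => x i + w * v i)
      ((fun i => ι (y i)) + (⟨r, Subfield.mem_top r⟩ : (⊤ : Subfield L.κ)) • fun i => ι (u i)) :=
    hx'.add (hv'.smul hr)
  have h2 := hg'.aeval h1
  rw [hw] at h2
  have h3 : (gl (g.map ι) (fun i => ι (u i)) (fun i => ι (y i))).eval
      (⟨r, Subfield.mem_top r⟩ : (⊤ : Subfield L.κ)) = 0 := by
    rw [gl_eval]
    exact Subtype.ext (h2.uniq Rs.Hv.zero)
  have hc : ∀ d, d ≠ 0 → d ≤ n → d ∈ Jc L.p L.pp := by
    intro d hd hdn hdvd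
    have := Nat.le_of_dvd (Nat.pos_of_ne_zero hd) hdvd
    omega
  have hdeg : (gl g u y).natDegree ≤ n := by
    have h4 := MvPolynomial.aeval_natDegree_le (m := n) (n := 1) g (hg.hom hG.hom).totalDegree_le
      (fun i => Polynomial.C (y i) + Polynomial.C (u i) * Polynomial.X) (fun i => by
        refine (Polynomial.natDegree_add_le _ _).trans (max_le ?_ ?_)
        · rw [Polynomial.natDegree_C]
          exact zero_le_one
        · exact (Polynomial.natDegree_C_mul_le _ _).trans Polynomial.natDegree_X_le)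
    rwa [mul_one] at h4
  have h00 : (0 : ℕ) ∉ Jc L.p L.pp := fun h => h (dvd_zero _)
  have hspl := kJ_spl hR h00 hc (gl g u y) h0 hdeg
  have h5 := Polynomial.C_leadingCoeff_mul_prod_multiset_X_sub_C hspl
  rw [gl_map, ← h5, Polynomial.map_mul, Polynomial.eval_mul, mul_eq_zero] at h3
  rcases h3 with h3 | h3
  · rw [Polynomial.map_C, Polynomial.eval_C, map_eq_zero, Polynomial.leadingCoeff_eq_zero] at h3
    exact absurd h3 h0
  · rw [Polynomial.map_multiset_prod, Polynomial.eval_multiset_prod, Multiset.prod_eq_zero_iff,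
      Multiset.mem_map] at h3
    obtain ⟨f, hf, hf0⟩ := h3
    rw [Multiset.mem_map] at hf
    obtain ⟨f', hf', rfl⟩ := hf
    rw [Multiset.mem_map] at hf'
    obtain ⟨t, ht, rfl⟩ := hf'
    rw [Polynomial.map_sub, Polynomial.map_X, Polynomial.map_C, Polynomial.eval_sub,
      Polynomial.eval_X, Polynomial.eval_C, sub_eq_zero] at hf0
    refine ⟨t, (Polynomial.mem_roots h0).1 ht, ?_⟩
    have h6 := congrArg (fun z : (⊤ : Subfield L.κ) => (z : L.κ)) hf0
    simp only [hι] at h6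
    rw [← h6]
    exact hr

omit [CharZero K] [IsAlgClosure K Ω] in
private theorem ev_mem {M : IntermediateField K Ω} {f : Polynomial Ω} (hf : ∀ j, f.coeff j ∈ M)
    {x : Ω} (hx : x ∈ M) : f.eval x ∈ M := by
  rw [Polynomial.eval_eq_sum_range]
  exact sum_mem fun i _ => mul_mem (hf i) (pow_mem hx i)

private theorem fc_alg {E : Type} [Field E] {x y p q e : E} (hp : p ≠ 0) :
    (x - y) / p - q * e = (x - (y + p * q * e)) / p := by
  rw [← sub_sub, sub_div (x - y), mul_assoc, mul_div_cancel_left₀ _ hp]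

end res

open Classical in
/-- **The relation.** Proof: `lift_data`; `cr` over `Mu L M R s` for the set `S' = σ(S)` and the finite set `T` of all pairs `(c', w')`, `c' ∈ S'`,
`G (a'(c') + w' v') = 0` (finite: `G (v')` is a unit; rational over `Mu L M R s`: `root_int`, `Rdp.aeval`: the residue of `w'` is a root of the line, `root_mem`); `q ↦` residues is a
bijection from `T` to the pairs `(c, w)`, `c ∈ S`, `w` a root (`root_lift`, `root_uniq`; the roots are distinct: separable).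
`T (y, u) = s⁻¹ lam (tr ([P'] - [P]))` for the points of `cr` (`tf_eq`, `tg_pw`); `rat_tr` and `hl.rat`. -/
theorem tf_crv [L.Unr] (hN : 2 ≤ N) (hG : Gi G L n) (hs : Sm G L) (hp : n < L.p)
    (hl : Lm G L lam) (hM : Um L M) (hR : L.Rf M R) (hg : Rdp L (kI L R) G g)
    (v : Fin N → kI L R) (a : Fin N → Polynomial (kI L R)) (ρ j : ℕ) (S : Finset (kI L R))
    (τ : kI L R) (hv : MvPolynomial.eval v g ≠ 0) (ha : ∀ i, (a i).natDegree ≤ ρ)
    (hj : j * ρ < S.card) (hS : ∀ c ∈ S, (gl g v (av a c)).Separable) :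
    ∑ c ∈ S, ((gl g v (av a c)).roots.map fun w => Tf L lam M R g (av a c + w • v)
      ((τ * w ^ j * (∏ c' ∈ S.erase c, (c - c'))⁻¹) •
        pw g v (av a c + w • v) (dv a c))).sum = 0 := by
  have hgh := hg.hom hG.hom
  obtain ⟨s, hs0, v', a', σ, τ', hv', hvv, ha', had, hac, hσ, hτ, hττ, hroots⟩ :=
    lift_data (g := g) hR (v := v) (a := a) (S := S) τ
  have hs1 : s ≠ 0 := by
    rintro rfl
    exact hs0 (dvd_zero _)
  have hMM : Um L (Mu L M R s) := mu_um hM hR.ne hs1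
  have hfd : FiniteDimensional K (Mu L M R s) := hMM.fd
  have hτ1 : L.nm τ' ≤ 1 := L.hv_int hττ
  have hσ1 : ∀ c ∈ S, L.nm (σ c) ≤ 1 := fun c hc => L.hv_int (hσ c hc).2
  have hxI : ∀ c ∈ S, ∀ i, (a' i).eval (σ c) ∈ Mu L M R s ∧ L.nm ((a' i).eval (σ c)) ≤ 1 :=
    fun c hc i => ⟨ev_mem (fun j => (ha' i j).1) (hσ c hc).1,
      L.eval_le (fun j => (ha' i j).2) (hσ1 c hc)⟩
  have hxv : ∀ c ∈ S, Rdv L (kI L R) (fun i => (a' i).eval (σ c)) (av a c) :=
    fun c hc i => hv_eval (hac i) (hσ c hc).2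
  have hdv : ∀ c ∈ S, Rdv L (kI L R) (fun i => (Polynomial.derivative (a' i)).eval (σ c))
      (dv a c) := fun c hc i => hv_eval (hv_der (hac i)) (hσ c hc).2
  have hgl : ∀ c ∈ S, Gl G L (fun i => (a' i).eval (σ c)) v' :=
    fun c hc => gl_lift hG hg (hxv c hc) hvv hv (hS c hc)
  have hlift : ∀ c w, ∃ z : Ω, c ∈ S → (gl g v (av a c)).IsRoot w →
      MvPolynomial.aeval (fun i => (a' i).eval (σ c) + z * v' i) G = 0 ∧
        L.rs.Hv z (w : L.κ) := by
    intro c w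
    by_cases h : c ∈ S ∧ (gl g v (av a c)).IsRoot w
    · obtain ⟨z, h1, h2⟩ := root_lift hG hg (hxv c h.1) hvv hv h.2
      exact ⟨z, fun _ _ => ⟨h1, h2⟩⟩
    · exact ⟨0, fun h1 h2 => absurd ⟨h1, h2⟩ h⟩
  choose ω hω using hlift
  obtain ⟨I, hI⟩ : ∃ I : Finset (Σ _ : kI L R, kI L R),
      I = S.sigma fun c => (gl g v (av a c)).roots.toFinset := ⟨_, rfl⟩
  have hmI : ∀ q : (Σ _ : kI L R, kI L R), q ∈ I ↔
      q.1 ∈ S ∧ (gl g v (av a q.1)).IsRoot q.2 := by
    intro q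
    rw [hI, Finset.mem_sigma, Multiset.mem_toFinset]
    constructor
    · rintro ⟨h1, h2⟩
      exact ⟨h1, (Polynomial.mem_roots (hS q.1 h1).ne_zero).1 h2⟩
    · rintro ⟨h1, h2⟩
      exact ⟨h1, (Polynomial.mem_roots (hS q.1 h1).ne_zero).2 h2⟩
  obtain ⟨φ, hφ⟩ : ∃ φ : (Σ _ : kI L R, kI L R) → Ω × Ω, ∀ q, φ q = (σ q.1, ω q.1 q.2) :=
    ⟨_, fun q => rfl⟩
  have hinjσ : ∀ c ∈ S, ∀ c' ∈ S, σ c = σ c' → c = c' := by
    intro c hc c' hc' h
    have h1 := (hσ c hc).2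
    rw [h] at h1
    exact Subtype.ext (h1.uniq (hσ c' hc').2)
  have hinj : ∀ q ∈ I, ∀ q' ∈ I, φ q = φ q' → q = q' := by
    rintro ⟨c, w⟩ hq ⟨c', w'⟩ hq' h
    rw [hmI] at hq hq'
    rw [hφ, hφ, Prod.mk.injEq] at h
    obtain ⟨h1, h2⟩ := h
    have h3 := hinjσ c hq.1 c' hq'.1 h1
    subst h3
    have h4 := (hω c w hq.1 hq.2).2
    have h2' : ω c w = ω c w' := h2
    rw [h2'] at h4
    have h5 : w = w' := Subtype.ext (h4.uniq (hω c w' hq'.1 hq'.2).2)
    rw [h5]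
  have hroot1 : ∀ q ∈ I, ω q.1 q.2 ∈ Mu L M R s ∧ L.nm (ω q.1 q.2) ≤ 1 := by
    intro q hq
    rw [hmI] at hq
    obtain ⟨h1, h2⟩ := hω q.1 q.2 hq.1 hq.2
    obtain ⟨w', hw', hw''⟩ := hroots q.1 hq.1 q.2
      ((Polynomial.mem_roots (hS q.1 hq.1).ne_zero).2 hq.2)
    exact ⟨root_mem hG (hxI q.1 hq.1) hv' (hgl q.1 hq.1) h1 hw' ((L.hv_sub h2 hw'').1 rfl),
      L.hv_int h2⟩
  have hT : ∀ q : Ω × Ω, q ∈ I.image φ ↔
      q.1 ∈ S.image σ ∧ MvPolynomial.aeval (ac a' v' q.1 q.2) G = 0 := by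
    rintro ⟨z, w⟩
    rw [Finset.mem_image, Finset.mem_image]
    constructor
    · rintro ⟨q, hq, h⟩
      rw [hφ, Prod.mk.injEq] at h
      obtain ⟨h1, h2⟩ := h
      rw [hmI] at hq
      refine ⟨⟨q.1, hq.1, h1⟩, ?_⟩
      have h3 := (hω q.1 q.2 hq.1 hq.2).1
      rw [← h1, ← h2]
      exact h3
    · rintro ⟨⟨c, hc, h1⟩, h2⟩
      have h1' : σ c = z := h1
      subst h1'
      have h3 : L.nm w ≤ 1 := root_int hG (fun i => (hxI c hc i).2) (fun i => (hv' i).2)
        (hgl c hc).lead h2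
      obtain ⟨t, ht, ht'⟩ := root_res hG hp hR.ne hg (hxv c hc) hvv (hS c hc).ne_zero h3 h2
      refine ⟨⟨c, t⟩, (hmI _).2 ⟨hc, ht⟩, ?_⟩
      rw [hφ]
      obtain ⟨h4, h5⟩ := hω c t hc ht
      have h6 : ω c t = w := root_uniq hG (fun i => (hxI c hc i).2) (fun i => (hv' i).2)
        (hgl c hc) h4 h2 ((L.hv_sub h5 ht').1 rfl)
      change (σ c, ω c t) = (σ c, w)
      rw [h6]
  have hT' : ∀ q ∈ I.image φ, q.2 ∈ Mu L M R s := by
    intro q hq
    rw [Finset.mem_image] at hq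
    obtain ⟨q', hq', rfl⟩ := hq
    rw [hφ]
    exact (hroot1 q' hq').1
  have hS1 : ∀ c ∈ S.image σ, c ∈ Mu L M R s ∧ L.nm c ≤ 1 ∧
      Gl G L (fun i => (a' i).eval c) v' := by
    intro z hz
    rw [Finset.mem_image] at hz
    obtain ⟨c, hc, rfl⟩ := hz
    exact ⟨(hσ c hc).1, hσ1 c hc, hgl c hc⟩
  have hS2 : ∀ c ∈ S.image σ, ∀ c' ∈ S.image σ, c ≠ c' → L.nm (c - c') = 1 := by
    intro z hz z' hz' hne
    rw [Finset.mem_image] at hz hz'
    obtain ⟨c, hc, rfl⟩ := hz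
    obtain ⟨c', hc', rfl⟩ := hz'
    have h1 : (c : L.κ) ≠ (c' : L.κ) := fun h => hne (by rw [Subtype.ext h])
    have h2 : ¬ L.nm (σ c - σ c') < 1 := fun h =>
      h1 ((L.hv_sub (hσ c hc).2 (hσ c' hc').2).2 h)
    exact le_antisymm ((L.sub _ _).trans (max_le (hσ1 c hc) (hσ1 c' hc'))) (not_lt.1 h2)
  have hcard : j * ρ < (S.image σ).card := by
    rw [Finset.card_image_of_injOn fun c hc c' hc' h => hinjσ c hc c' hc' h]
    exact hj
  have hval : ∀ x ∈ Mu L M R s, x ≠ 0 → ∃ k : ℤ, L.nm x = L.nm (L.p : Ω) ^ k := by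
    obtain ⟨N', hN', hM'⟩ := hMM
    exact fun x hx h0 => Ld.ur_unr hN' (hM' hx) h0
  obtain ⟨P, P', x', h1, h2⟩ := cr hG (M := Mu L M R s) (π := (L.p : Ω)) (_root_.natCast_mem _ _)
    L.p_pos L.lt hval ha' (fun i => (had i).trans (ha i)) hv' hS1 hS2 hcard hτ hτ1 hT hT'
  have hfx : ∀ q ∈ I.image φ, Fx (Mu L M R s)
      (Finsupp.single (P' q) (1 : ℤ) - Finsupp.single (P q) 1 : (Xh G).pt Ω →₀ ℤ) := by
    intro q hq
    obtain ⟨h3, h4, h5, -⟩ := h1 q hq
    have h6 : ∀ i, ac a' v' q.1 q.2 i ∈ Mu L M R s := by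
      have h7 := ((hT q).1 hq).1
      exact fun i => add_mem (ev_mem (fun j => (ha' i j).1) (hS1 q.1 h7).1)
        (mul_mem (hT' q hq) (hv' i).1)
    exact (fx_single (co_fp h4 fun i => (h5 i).1) 1).sub (fx_single (co_fp h3 h6) 1)
  have hfx' : Fx (Mu L M R s) (∑ q ∈ I.image φ,
      (Finsupp.single (P' q) (1 : ℤ) - Finsupp.single (P q) 1) : (Xh G).pt Ω →₀ ℤ) := by
    intro γ hγ
    rw [Finset.smul_sum]
    exact Finset.sum_congr rfl fun q hq => hfx q hq γ hγ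
  have hsum : ∑ q ∈ I.image φ, vl L lam M R s (P q) (P' q) = 0 := by
    unfold vl
    rw [← Finset.smul_sum, ← map_sum, ← map_sum, hl.rat _ (rat_tr hMM h2 hfx'), smul_zero]
  rw [← hsum, Finset.sum_image hinj, hI, Finset.sum_sigma]
  refine Finset.sum_congr rfl fun c hc => ?_
  have hnd := Polynomial.nodup_roots (hS c hc)
  have h3 : ∀ f : kI L R → B, ((gl g v (av a c)).roots.map f).sum =
      ∑ w ∈ (gl g v (av a c)).roots.toFinset, f w := by
    intro f
    rw [Finset.sum, Multiset.toFinset_val, hnd.dedup]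
  rw [h3]
  refine Finset.sum_congr rfl fun w hw => ?_
  rw [Multiset.mem_toFinset, Polynomial.mem_roots (hS c hc).ne_zero] at hw
  have hq : (⟨c, w⟩ : Σ _ : kI L R, kI L R) ∈ I := (hmI _).2 ⟨hc, hw⟩
  have hq' : φ ⟨c, w⟩ ∈ I.image φ := Finset.mem_image_of_mem φ hq
  obtain ⟨h4, h5, h6, h7⟩ := h1 _ hq'
  obtain ⟨hω1, hω2⟩ := hω c w hc hw
  have hφ' : φ ⟨c, w⟩ = (σ c, ω c w) := hφ _
  have hxx : Rdv L (kI L R) (ac a' v' (σ c) (ω c w)) (av a c + w • v) :=
    (hxv c hc).add (hvv.smul hω2)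
  obtain ⟨htg, hdG⟩ := tg_pw hgh hG.two (u := dv a c) (hS c hc) hw
  refine tf_eq hN hG hs hp hl hM hR hg ?_ ⟨s, hs0, ac a' v' (σ c) (ω c w), x' (φ ⟨c, w⟩),
    P (φ ⟨c, w⟩), P' (φ ⟨c, w⟩), ?_, h6, ?_, h5, hxx, ?_, rfl⟩
  · refine ⟨htg.1, htg.2.1, ?_⟩
    rw [dG_smul, htg.2.2, mul_zero]
  · exact fun i => ⟨add_mem (hxI c hc i).1 (mul_mem (hroot1 _ hq).1 (hv' i).1),
      (L.add _ _).trans (max_le (hxI c hc i).2 (by
        rw [L.mul]
        exact mul_le_one₀ (hroot1 _ hq).2 (L.nonneg _) (hv' i).2))⟩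
  · rw [hφ'] at h4 ⊢
    exact h4
  · intro i
    have h8 := h7 i
    rw [hφ'] at h8 ⊢
    have hm0 : (∏ c' ∈ S.erase c, (c - c') : kI L R) ≠ 0 := by
      rw [Finset.prod_ne_zero_iff]
      exact fun c' hc' => sub_ne_zero.2 (Finset.ne_of_mem_erase hc').symm
    have hm1 : (Polynomial.derivative (∏ c ∈ S.image σ, (Polynomial.X - Polynomial.C c))).eval
        (σ c) = ∏ c' ∈ S.erase c, (σ c - σ c') := by
      have h9 : (∏ c ∈ S.image σ, (Polynomial.X - Polynomial.C c)) = Lagrange.nodal S σ := by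
        rw [Lagrange.nodal_eq, Finset.prod_image fun c hc c' hc' h => hinjσ c hc c' hc' h]
      rw [h9, Lagrange.eval_nodal_derivative_eval_node_eq hc, Lagrange.eval_nodal]
    have hm2 : L.rs.Hv ((Polynomial.derivative (∏ c ∈ S.image σ,
        (Polynomial.X - Polynomial.C c))).eval (σ c))
        ((∏ c' ∈ S.erase c, (c - c') : kI L R) : L.κ) := by
      rw [hm1]
      change L.rs.Hv _ ((kI L R).subtype (∏ c' ∈ S.erase c, (c - c')))
      rw [map_prod]
      exact hv_prod _ fun c' hc' => (hσ c hc).2.sub (hσ c' (Finset.mem_of_mem_erase hc')).2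
    have hm3 : ((∏ c' ∈ S.erase c, (c - c') : kI L R) : L.κ) ≠ 0 := fun h =>
      hm0 (Subtype.ext h)
    have hQ : L.rs.Hv (τ' * ω c w ^ j / (Polynomial.derivative (∏ c ∈ S.image σ,
        (Polynomial.X - Polynomial.C c))).eval (σ c))
        ((τ * w ^ j * (∏ c' ∈ S.erase c, (c - c'))⁻¹ : kI L R) : L.κ) := by
      refine ((hττ.mul (hω2.pow j)).div hm2 hm3).congr rfl ?_
      rw [div_eq_mul_inv]
      rfl
    have hd1 := hg.dG hxx (hdv c hc)
    have hd2 := hg.dG hxx hvv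
    have hd3 : ((dG g (av a c + w • v) v : kI L R) : L.κ) ≠ 0 := fun h => hdG (Subtype.ext h)
    have hE := (hdv c hc i).sub ((hd1.div hd2 hd3).mul (hvv i))
    have hB := hQ.mul hE
    have hp0 : (L.p : Ω) ≠ 0 := L.ne_zero L.p_pos
    have h10 : L.rs.Hv ((x' (σ c, ω c w) i - ac a' v' (σ c) (ω c w) i) / (L.p : Ω) -
        (τ' * ω c w ^ j / (Polynomial.derivative (∏ c ∈ S.image σ,
          (Polynomial.X - Polynomial.C c))).eval (σ c)) *
        ((Polynomial.derivative (a' i)).eval (σ c) -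
          dGo G (ac a' v' (σ c) (ω c w)) (fun i => (Polynomial.derivative (a' i)).eval (σ c)) /
            dGo G (ac a' v' (σ c) (ω c w)) v' * v' i)) 0 := by
      rw [L.hv_zero]
      rw [fc_alg hp0, L.div, div_lt_one L.p_pos]
      refine h8.trans_lt ?_
      rw [pow_two]
      exact mul_lt_of_lt_one_left L.p_pos L.lt
    have h12 := h10.add hB
    refine h12.congr (sub_add_cancel _ _) ?_
    rw [zero_add]
    rfl

end GM
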