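import Pool.Agent.Lib.MP_f80667_ag.Gm.GsEr

/-! Lifting the data of a relation. -/

open ZC BE PE CV IntermediateField

namespace GM

variable {F : Type} [Field F] {N n : ℕ} {G : MvPolynomial (Fin N) F} {K Ω : Type} [Field K]
  [CharZero K] [Field Ω] [Algebra K Ω] [Algebra F K] [Algebra F Ω] [IsScalarTower F K Ω]
  [IsAlgClosure K Ω] {L : Ld K Ω} {B : Type} [AddCommGroup B]
  {lam : ((Xh G).pt Ω →₀ ℤ) →+ B} {M : IntermediateField K Ω} {R : ℕ}
  {g : MvPolynomial (Fin N) (kI L R)}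

/-- A common lift of the elements of a finite set. -/
private theorem gsFd_lift (hR : L.Rf M R) (T : Finset (kI L R)) :
    ∃ s, ¬ L.p ∣ s ∧ ∃ f : kI L R → Ω, ∀ t ∈ T,
      f t ∈ Mu L M R s ∧ L.nm (f t) ≤ 1 ∧ L.rs.Hv (f t) (t : L.κ) := by
  have h0 : 0 ∉ Jc L.p L.pp := fun h => h (dvd_zero _)
  obtain ⟨s, hs, hx⟩ := kJ_te hR.ne h0 (fun t : T => (t : kI L R))
  have hs0 : s ≠ 0 := fun h => h0 (h ▸ hs)
  have hex : ∀ t : kI L R, ∃ x : Ω, t ∈ T → x ∈ L.Te (R * s) ∧ L.rs.Hv x (t : L.κ) := by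
    intro t
    by_cases ht : t ∈ T
    · obtain ⟨x, h1, h2⟩ := hx ⟨t, ht⟩
      exact ⟨x, fun _ => ⟨h1, h2⟩⟩
    · exact ⟨0, fun h => absurd h ht⟩
  choose f hf using hex
  refine ⟨s, hs, f, fun t ht => ?_⟩
  obtain ⟨h1, h2⟩ := hf t ht
  exact ⟨Ld.te_ur h1, Ld.te_int (mul_ne_zero hR.ne hs0) h1, h2⟩

open Classical in
/-- The data of a relation over `kI` lift to one `Mu L M R s`: the coefficients of the arc, the direction, the elements of `S`, `τ` and all the roots of the lines. Proof: `kJ_te` for all of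
them (the type of the indices is finite: `Fin N × Fin (ρ + 1) ⊕ Fin N ⊕ S ⊕ Unit ⊕ roots`). -/
theorem lift_data (hR : L.Rf M R) {v : Fin N → kI L R} {a : Fin N → Polynomial (kI L R)}
    {S : Finset (kI L R)} (τ : kI L R) :
    ∃ s, ¬ L.p ∣ s ∧ ∃ (v' : Fin N → Ω) (a' : Fin N → Polynomial Ω) (σ : kI L R → Ω) (τ' : Ω),
      Iv L (Mu L M R s) v' ∧ Rdv L (kI L R) v' v ∧ Arc L (Mu L M R s) a' ∧
      (∀ i, (a' i).natDegree ≤ (a i).natDegree) ∧
      (∀ i j, L.rs.Hv ((a' i).coeff j) ((a i).coeff j : L.κ)) ∧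
      (∀ c ∈ S, σ c ∈ Mu L M R s ∧ L.rs.Hv (σ c) (c : L.κ)) ∧ τ' ∈ Mu L M R s ∧
      L.rs.Hv τ' (τ : L.κ) ∧
      ∀ c ∈ S, ∀ w ∈ (gl g v (av a c)).roots, ∃ w' ∈ Mu L M R s, L.rs.Hv w' (w : L.κ) := by
  let Tv' : Finset (kI L R) := Finset.univ.image v
  let Ta : Finset (kI L R) := Finset.univ.biUnion fun i => (a i).support.image (a i).coeff
  let Tr : Finset (kI L R) := S.biUnion fun c => (gl g v (av a c)).roots.toFinset
  obtain ⟨s, hs, f, hf⟩ := gsFd_lift hR (Tv' ∪ (Ta ∪ (S ∪ ({τ} ∪ Tr))))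
  have m1 : ∀ i, v i ∈ Tv' ∪ (Ta ∪ (S ∪ ({τ} ∪ Tr))) := fun i =>
    Finset.mem_union_left _ (Finset.mem_image_of_mem v (Finset.mem_univ i))
  have m2 : ∀ i, ∀ j ∈ (a i).support, (a i).coeff j ∈ Tv' ∪ (Ta ∪ (S ∪ ({τ} ∪ Tr))) :=
    fun i j hj => Finset.mem_union_right _ (Finset.mem_union_left _
      (Finset.mem_biUnion.2 ⟨i, Finset.mem_univ i, Finset.mem_image_of_mem _ hj⟩))
  have m3 : ∀ c ∈ S, c ∈ Tv' ∪ (Ta ∪ (S ∪ ({τ} ∪ Tr))) := fun c hc =>
    Finset.mem_union_right _ (Finset.mem_union_right _ (Finset.mem_union_left _ hc))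
  have m4 : τ ∈ Tv' ∪ (Ta ∪ (S ∪ ({τ} ∪ Tr))) :=
    Finset.mem_union_right _ (Finset.mem_union_right _ (Finset.mem_union_right _
      (Finset.mem_union_left _ (Finset.mem_singleton_self τ))))
  have m5 : ∀ c ∈ S, ∀ w ∈ (gl g v (av a c)).roots, w ∈ Tv' ∪ (Ta ∪ (S ∪ ({τ} ∪ Tr))) :=
    fun c hc w hw => Finset.mem_union_right _ (Finset.mem_union_right _
      (Finset.mem_union_right _ (Finset.mem_union_right _
        (Finset.mem_biUnion.2 ⟨c, hc, Multiset.mem_toFinset.2 hw⟩))))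
  have hco : ∀ i j, (∑ l ∈ (a i).support, Polynomial.monomial l (f ((a i).coeff l))).coeff j =
      if j ∈ (a i).support then f ((a i).coeff j) else 0 := by
    intro i j
    rw [Polynomial.finsetSum_coeff]
    simp only [Polynomial.coeff_monomial]
    rw [Finset.sum_ite_eq']
  refine ⟨s, hs, fun i => f (v i),
    fun i => ∑ l ∈ (a i).support, Polynomial.monomial l (f ((a i).coeff l)), f, f τ,
    fun i => ⟨(hf _ (m1 i)).1, (hf _ (m1 i)).2.1⟩, fun i => (hf _ (m1 i)).2.2, fun i j => ?_,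
    fun i => ?_, fun i j => ?_, fun c hc => ⟨(hf c (m3 c hc)).1, (hf c (m3 c hc)).2.2⟩,
    (hf τ m4).1, (hf τ m4).2.2, fun c hc w hw => ⟨f w, (hf w (m5 c hc w hw)).1,
      (hf w (m5 c hc w hw)).2.2⟩⟩
  · rw [hco]
    by_cases hj : j ∈ (a i).support
    · rw [if_pos hj]
      exact ⟨(hf _ (m2 i j hj)).1, (hf _ (m2 i j hj)).2.1⟩
    · rw [if_neg hj]
      exact ⟨zero_mem _, by rw [L.zero]; exact zero_le_one⟩
  · refine Polynomial.natDegree_sum_le_of_forall_le _ _ fun l hl => ?_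
    exact (Polynomial.natDegree_monomial_le _).trans (Polynomial.le_natDegree_of_mem_supp l hl)
  · rw [hco]
    by_cases hj : j ∈ (a i).support
    · rw [if_pos hj]
      exact (hf _ (m2 i j hj)).2.2
    · rw [if_neg hj, Polynomial.notMem_support_iff.1 hj]
      exact Rs.Hv.zero

end GM
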