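import Pool.Agent.Lib.MP_f80667_ag.Gm.GsF
import Pool.Agent.Lib.MP_f80667_ag.Cv.Eis

/-! `lam` vanishes on the displacements. -/

open ZC BE PE CV IntermediateField

namespace GM

variable {F : Type} [Field F] {N n : ℕ} {G : MvPolynomial (Fin N) F} {K Ω : Type} [Field K]
  [CharZero K] [Field Ω] [Algebra K Ω] [Algebra F K] [Algebra F Ω] [IsScalarTower F K Ω]
  [IsAlgClosure K Ω] {L : Ld K Ω} {B : Type} [AddCommGroup B]
  {lam : ((Xh G).pt Ω →₀ ℤ) →+ B} {M : IntermediateField K Ω} {R : ℕ}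
  {g : MvPolynomial (Fin N) (kI L R)}

/-- The extension of degree `1`. -/
private theorem gsfl_one (hR : L.Rf M R) : Mu L M R 1 = M := by
  have h1 : L.Ur M (R * 1) ≤ M := by
    rw [mul_one]
    exact sup_le le_rfl (le_trans le_sup_right hR.le)
  exact le_antisymm h1 Ld.ur_le

/-- Congruent coordinates with values in `M`, one of them is `1`. -/
private theorem gsfl_co (hG : G.IsHomogeneous n) {P P' : (Xh G).pt Ω} (hP : Fp (Xh G) M P)
    (hP' : Fp (Xh G) M P') {r : ℝ} (hr : r < 1) (h : Nrh G L r P' P) :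
    ∃ (x x' : Fin N → Ω) (i : Fin N), Co P x ∧ Co P' x' ∧ Iv L M x ∧ Iv L M x' ∧ x i = 1 ∧
      ∀ j, L.nm (x' j - x j) ≤ r := by
  obtain ⟨a', a, h1, h2, h3, h4, ⟨i, hi'⟩, -, h5⟩ := h
  have hi : L.nm (a i) = 1 := by
    have e : a i = a' i - (a' i - a i) := by ring
    have h6 : L.nm (a' i - a i) < L.nm (a' i) := by
      rw [hi']
      exact (h5 i).trans_lt hr
    refine le_antisymm (h4 i) ?_
    by_contra hlt
    rw [not_le] at hlt
    have h7 : L.nm (a' i) ≤ max (L.nm (a' i - a i)) (L.nm (a i)) := by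
      have e' : a' i = (a' i - a i) + a i := by ring
      calc L.nm (a' i) = L.nm ((a' i - a i) + a i) := by rw [← e']
        _ ≤ _ := L.add _ _
    rcases le_max_iff.1 h7 with h8 | h8
    · exact absurd h6 (not_lt.2 h8)
    · rw [hi'] at h8
      exact absurd hlt (not_lt.2 h8)
  have ha : a i ≠ 0 := L.ne_zero (by rw [hi]; exact zero_lt_one)
  have ha' : a' i ≠ 0 := L.ne_zero (by rw [hi']; exact zero_lt_one)
  have c1 := co_smul hG h2 (inv_ne_zero ha)
  have c2 := co_smul hG h1 (inv_ne_zero ha')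
  have e1 : (fun j => (a i)⁻¹ * a j) i = 1 := inv_mul_cancel₀ ha
  have e2 : (fun j => (a' i)⁻¹ * a' j) i = 1 := inv_mul_cancel₀ ha'
  refine ⟨fun j => (a i)⁻¹ * a j, fun j => (a' i)⁻¹ * a' j, i, c1, c2, fun j => ⟨fp_mem hP c1 e1 j, ?_⟩,
    fun j => ⟨fp_mem hP' c2 e2 j, ?_⟩, e1, fun j => ?_⟩
  · rw [L.mul, L.inv, hi, inv_one, one_mul]
    exact h4 j
  · rw [L.mul, L.inv, hi', inv_one, one_mul]
    exact h3 j
  · have e3 : (a' i)⁻¹ * a' j - (a i)⁻¹ * a j =
        ((a' i)⁻¹ * (a i)⁻¹) * ((a' j - a j) * a i + a j * (-(a' i - a i))) := by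
      field_simp
      ring
    rw [e3, L.mul, L.mul, L.inv, L.inv, hi, hi', inv_one, one_mul, one_mul]
    refine (L.add _ _).trans (max_le ?_ ?_)
    · rw [L.mul, hi, mul_one]
      exact h5 j
    · rw [L.mul, L.neg]
      have h6 := h5 i
      have h7 := h4 j
      have h8 := L.nonneg (a' i - a i)
      calc L.nm (a j) * L.nm (a' i - a i) ≤ 1 * L.nm (a' i - a i) :=
            mul_le_mul_of_nonneg_right h7 h8
        _ ≤ r := by rw [one_mul]; exact h6

/-- `lam` is `0` on the displacements of level `1`. Proof: a generator is the trace of `[P'] - [P]`, `P`, `P'` over `M` unramified (`dsp_gen`; `exists_ur` of `Cv/Eis`: `Rf M R`); `fp_co`, coordinates `x`, `x'` congruent modulo `p`;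
`g` from `exists_rdp`; `y`, `u` the residues of `x`, `(x' - x) / p` (`kJ_res` with `s = 1`; `Mu L M R 1 = M`), `Tg g y u` (`gi_taylor`, `Rdp.aeval`, `Rdp.dG`);
`Tv` with `s = 1`; `tf_eq`, `tf_zero`. -/
theorem lam_zero [L.Unr] (hN : 4 ≤ N) (hG : Gi G L n) (hs : Sm G L) (hp : n < L.p)
    (hl : Lm G L lam) {z : (Xh G).pt Ω →₀ ℤ}
    (hz : z ∈ Dl G L 1 (⊥ : IntermediateField K Ω)) : lam z = 0 := by
  have hcz : CharZero Ω := charZero_of_injective_algebraMap (algebraMap K Ω).injective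
  have hp0 : (L.p : Ω) ≠ 0 := Nat.cast_ne_zero.2 L.pp.ne_zero
  have hpp := L.p_pos
  have hp1 : L.nm (L.p : Ω) < 1 := L.lt
  have key : Dl G L 1 (⊥ : IntermediateField K Ω) ≤ lam.ker := by
    unfold Dl Dsp
    rw [AddSubgroup.closure_le]
    rintro z ⟨N', M, P', P, hN', -, hM', hP', hP, hn, rfl⟩
    change lam _ = 0
    have hM : Um L M := ⟨N', hN', hM'⟩
    have hfd := hM.fd
    obtain ⟨R, hR0, hR⟩ := exists_ur (L := L) M
    have hMu : Mu L M R 1 = M := gsfl_one hR
    rw [pow_one] at hn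
    obtain ⟨x, x', i, cx, cx', hx, hx', hi, hd⟩ := gsfl_co hG.hom hP hP' hp1 hn
    have h1J : 1 ∈ Jc L.p L.pp := fun h => L.pp.one_lt.ne' (Nat.dvd_one.1 h)
    -- residues of elements of `M`
    have hres : ∀ w ∈ M, L.nm w ≤ 1 → ∃ t : kI L R, L.rs.Hv w (t : L.κ) := by
      intro w hw hw1
      exact kJ_res hR h1J one_ne_zero (Ld.ur_le hw) hw1
    have hk : ∀ w : K, L.nm (algebraMap K Ω w) ≤ 1 →
        ∃ t : kI L R, L.rs.Hv (algebraMap K Ω w) (t : L.κ) := fun w hw =>
      hres _ (M.algebraMap_mem w) hw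
    obtain ⟨g, hg⟩ := exists_rdp (G := G) hG.int hk
    have hv : ∀ j, ((x' j - x j) / (L.p : Ω)) ∈ M ∧ L.nm ((x' j - x j) / (L.p : Ω)) ≤ 1 := by
      intro j
      refine ⟨div_mem (sub_mem (hx' j).1 (hx j).1) (_root_.natCast_mem M L.p), ?_⟩
      rw [div_eq_mul_inv, L.mul, L.inv, ← div_eq_mul_inv, div_le_one hpp]
      exact hd j
    have hy0 : ∀ j, ∃ t : kI L R, L.rs.Hv (x j) (t : L.κ) := fun j => hres _ (hx j).1 (hx j).2
    have hu0 : ∀ j, ∃ t : kI L R, L.rs.Hv ((x' j - x j) / (L.p : Ω)) (t : L.κ) := fun j =>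
      hres _ (hv j).1 (hv j).2
    choose y hy using hy0
    choose u hu using hu0
    have hyv : Rdv L (kI L R) x y := hy
    have huv : Rdv L (kI L R) (fun j => (x' j - x j) / (L.p : Ω)) u := hu
    have hTg : Tg g y u := by
      refine ⟨fun h0 => ?_, ?_, ?_⟩
      · have h1 := hy i
        rw [h0, hi] at h1
        have h2 : (((0 : Fin N → kI L R) i : kI L R) : L.κ) = 1 := h1.uniq Rs.Hv.one
        exact zero_ne_one h2
      · have h1 := hg.aeval hyv
        rw [co_zero cx] at h1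
        exact Subtype.ext (h1.uniq Rs.Hv.zero)
      · have h1 := hg.dG hyv huv
        have h2 := gi_taylor hG (fun j => (hx j).2) (fun j => (hv j).2) hp1.le
        have h3 : (fun j => x j + (L.p : Ω) * ((x' j - x j) / (L.p : Ω))) = x' := by
          funext j
          field_simp
          ring
        rw [h3, co_zero cx, co_zero cx', sub_zero, zero_sub, L.neg, L.mul, pow_two] at h2
        have h4 := le_of_mul_le_mul_left h2 hpp
        have h5 : L.nm (dGo G x (fun j => (x' j - x j) / (L.p : Ω)) - 0) < 1 := by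
          rw [sub_zero]
          exact h4.trans_lt hp1
        exact Subtype.ext ((L.hv_sub h1 Rs.Hv.zero).2 h5)
    have hTv : Tv L lam M R y u (vl L lam M R 1 P P') := by
      refine ⟨1, h1J, x, x', P, P', ?_, ?_, cx, cx', hyv, hu, rfl⟩
      · rw [hMu]; exact hx
      · rw [hMu]; exact hx'
    have h1 := tf_eq (by omega) hG hs hp hl hM hR hg hTg hTv
    rw [tf_zero hN hG hs hp hl hM hR hg hTg] at h1
    unfold vl at h1
    rw [hMu] at h1
    have hF : Fact L.p.Prime := ⟨L.pp⟩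
    have h2 : (((1 : ℕ) : ZMod L.p)⁻¹).val = 1 := by
      rw [Nat.cast_one, inv_one]
      have : Fact (1 < L.p) := ⟨L.pp.one_lt⟩
      exact ZMod.val_one _
    rw [h2, one_smul] at h1
    exact h1.symm
  exact key hz

end GM
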