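import Pool.Agent.Lib.MP_f80667_ag.Gm.GeD

/-!
The union `kJ L N J` of the subfields with `p ^ (N s)` elements, `s ∈ J`, of the residue field `L.κ` of `Ω`.
-/

open ZC BE PE CV IntermediateField

namespace GM

/-- The numbers which are not divisible by `p`. -/
def Jc (p : ℕ) (hp : p.Prime) : Submonoid ℕ where
  carrier := {s | ¬ p ∣ s}
  one_mem' := fun h => hp.one_lt.ne' (Nat.dvd_one.1 h)
  mul_mem' := fun ha hb h => (hp.dvd_mul.1 h).elim ha hb

section kJ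

variable {K Ω : Type} [Field K] [CharZero K] [Field Ω] [Algebra K Ω] [IsAlgClosure K Ω]
  (L : Ld K Ω) (N : ℕ) (J : Submonoid ℕ)

omit [CharZero K] [IsAlgClosure K Ω] in
private theorem gsj_pow {x : L.κ} {q : ℕ} (h : x ^ q = x) (t : ℕ) : x ^ q ^ t = x := by
  induction t with
  | zero => rw [pow_zero, pow_one]
  | succ t ih => rw [pow_succ, pow_mul, ih, h]

omit [CharZero K] [IsAlgClosure K Ω] in
private theorem gsj_mul {x : L.κ} {s : ℕ} (h : x ^ L.p ^ (N * s) = x) (t : ℕ) :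
    x ^ L.p ^ (N * (s * t)) = x := by
  rw [← mul_assoc, pow_mul L.p (N * s) t]
  exact gsj_pow L h t

omit [CharZero K] [IsAlgClosure K Ω] in
private theorem gsj_mul' {x : L.κ} {s : ℕ} (h : x ^ L.p ^ (N * s) = x) (t : ℕ) :
    x ^ L.p ^ (N * (t * s)) = x := by
  rw [mul_comm t s]
  exact gsj_mul L N h t

omit [CharZero K] [IsAlgClosure K Ω] in
private theorem gsj_add (x y : L.κ) (k : ℕ) : (x + y) ^ L.p ^ k = x ^ L.p ^ k + y ^ L.p ^ k := by
  have hp : Fact L.p.Prime := ⟨L.pp⟩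
  have hc := L.char_κ
  exact add_pow_char_pow x y L.p k

/-- The union of the subfields with `p ^ (N s)` elements. Closure: `x ^ p ^ (N s) = x` implies `x ^ p ^ (N s s') = x`; characteristic `p` (`Ld.char_κ`). -/
def kJ : Subfield L.κ where
  carrier := {x | ∃ s ∈ J, x ^ L.p ^ (N * s) = x}
  mul_mem' := by
    rintro x y ⟨s, hs, hx⟩ ⟨t, ht, hy⟩
    exact ⟨s * t, J.mul_mem hs ht, by rw [mul_pow, gsj_mul L N hx t, gsj_mul' L N hy s]⟩
  one_mem' := ⟨1, J.one_mem, one_pow _⟩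
  add_mem' := by
    rintro x y ⟨s, hs, hx⟩ ⟨t, ht, hy⟩
    exact ⟨s * t, J.mul_mem hs ht, by rw [gsj_add, gsj_mul L N hx t, gsj_mul' L N hy s]⟩
  zero_mem' := ⟨1, J.one_mem, zero_pow (pow_ne_zero _ L.pp.ne_zero)⟩
  neg_mem' := by
    rintro x ⟨s, hs, hx⟩
    refine ⟨s, hs, ?_⟩
    have h := gsj_add L x (-x) (N * s)
    rw [add_neg_cancel, zero_pow (pow_ne_zero _ L.pp.ne_zero), hx] at h
    exact (neg_eq_of_add_eq_zero_right h.symm).symm
  inv_mem' := by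
    rintro x ⟨s, hs, hx⟩
    exact ⟨s, hs, by rw [inv_pow, hx]⟩

theorem mem_kJ {x : L.κ} : x ∈ kJ L N J ↔ ∃ s ∈ J, x ^ L.p ^ (N * s) = x := Iff.rfl

theorem kJ_char : CharP (kJ L N J) L.p := by
  have hc := L.char_κ
  exact (RingHom.charP_iff (kJ L N J).subtype Subtype.val_injective L.p).2 hc

variable {L N J}

/-- Proof: `L.κ` is algebraically closed (`Ld.κ_closed`), `X ^ (p ^ (N s)) - X` has `p ^ (N s)` roots. -/
theorem kJ_inf (hN : N ≠ 0) (hJ : ∀ b : ℕ, ∃ s ∈ J, b ≤ s) : Infinite (kJ L N J) := by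
  by_contra hfin
  rw [not_infinite_iff_finite] at hfin
  have hp : Fact L.p.Prime := ⟨L.pp⟩
  have hc := L.char_κ
  have hΩ : IsAlgClosed Ω := IsAlgClosure.isAlgClosed K
  have hκ : IsAlgClosed L.κ := L.κ_closed
  obtain ⟨s, hs, hb⟩ := hJ (Nat.card (kJ L N J) + 1)
  have hs0 : N * s ≠ 0 := mul_ne_zero hN (by omega)
  have hq : 1 < L.p ^ (N * s) := Nat.one_lt_pow hs0 L.pp.one_lt
  have hcard : Fintype.card
      ((Polynomial.X ^ L.p ^ (N * s) - Polynomial.X : Polynomial L.κ).rootSet L.κ) =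
      L.p ^ (N * s) := by
    rw [Polynomial.card_rootSet_eq_natDegree
      (galois_poly_separable L.p _ (dvd_pow_self L.p hs0)) (IsAlgClosed.splits _),
      FiniteField.X_pow_card_sub_X_natDegree_eq L.κ hq]
  have hmem : ∀ x : (Polynomial.X ^ L.p ^ (N * s) - Polynomial.X :
      Polynomial L.κ).rootSet L.κ, (x : L.κ) ∈ kJ L N J := by
    intro x
    have h1 := (Polynomial.mem_rootSet.1 x.2).2
    rw [map_sub, map_pow, Polynomial.aeval_X, sub_eq_zero] at h1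
    exact ⟨s, hs, h1⟩
  have h2 := Nat.card_le_card_of_injective
    (fun x : (Polynomial.X ^ L.p ^ (N * s) - Polynomial.X : Polynomial L.κ).rootSet L.κ =>
      (⟨x, hmem x⟩ : kJ L N J)) fun x y hxy =>
      Subtype.ext (congrArg (fun w : kJ L N J => (w : L.κ)) hxy)
  rw [Nat.card_eq_fintype_card, hcard] at h2
  have h3 : s < L.p ^ (N * s) := by
    refine lt_of_lt_of_le (Nat.lt_pow_self L.pp.one_lt) (Nat.pow_le_pow_right L.pp.pos ?_)
    exact Nat.le_mul_of_pos_left s (Nat.pos_of_ne_zero hN)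
  omega

/-- Proof: `x = (x ^ (p ^ (N s - 1))) ^ p`. -/
theorem kJ_root (hN : N ≠ 0) (h0 : 0 ∉ J) (x : kJ L N J) : ∃ y, y ^ L.p = x := by
  obtain ⟨s, hs, hx⟩ := x.2
  have hs0 : s ≠ 0 := fun h => h0 (h ▸ hs)
  obtain ⟨k, hk⟩ := Nat.exists_eq_succ_of_ne_zero (mul_ne_zero hN hs0)
  refine ⟨x ^ L.p ^ k, Subtype.ext ?_⟩
  rw [hk, Nat.succ_eq_add_one, pow_succ] at hx
  rw [← pow_mul]
  exact hx

end kJ

end GM
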