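import Mathlib

/-! The Nullstellensatz for polynomials whose only common zero is `0`, and Euler's identity. -/

open MvPolynomial

namespace GM

/-- The Nullstellensatz for polynomials whose only common zero is `0`. -/
theorem nst {k K : Type} [Field k] [Field K] [Algebra k K] [IsAlgClosed K] {N : ℕ} {ι : Type}
    (f : ι → MvPolynomial (Fin N) k) (h : ∀ x : Fin N → K, (∀ j, aeval x (f j) = 0) → x = 0) :
    ∃ s : ℕ, ∀ i, (X i : MvPolynomial (Fin N) k) ^ s ∈ Ideal.span (Set.range f) := by
  have h1 : ∀ i : Fin N, ∃ s : ℕ, (X i : MvPolynomial (Fin N) k) ^ s ∈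
      Ideal.span (Set.range f) := by
    intro i
    have h2 : (X i : MvPolynomial (Fin N) k) ∈ vanishingIdeal k (zeroLocus K
        (Ideal.span (Set.range f))) := by
      intro x hx
      have h3 : x = 0 := h x fun j => hx _ (Ideal.subset_span ⟨j, rfl⟩)
      rw [aeval_X, h3, Pi.zero_apply]
    rw [vanishingIdeal_zeroLocus_eq_radical] at h2
    exact h2
  choose s hs using h1
  refine ⟨∑ i, s i, fun i => ?_⟩
  rw [← Finset.add_sum_erase _ s (Finset.mem_univ i), pow_add]
  exact Ideal.mul_mem_right _ _ (hs i)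

/-- Euler's identity. -/
theorem euler {R : Type} [CommRing R] {N n : ℕ} {G : MvPolynomial (Fin N) R}
    (hG : G.IsHomogeneous n) : ∑ i, X i * pderiv i G = (n : MvPolynomial (Fin N) R) * G := by
  rw [hG.sum_X_mul_pderiv, nsmul_eq_mul]

end GM
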