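import Mathlib

/-! The powers of the variables in an ideal generated by homogeneous polynomials over a local ring: Nakayama. -/

open MvPolynomial IsLocalRing

namespace GM

section nak

variable {O : Type} [CommRing O] {N : ℕ}

private theorem hcn {n : ℕ} {G : MvPolynomial (Fin N) O} (hG : G.IsHomogeneous n)
    (S : MvPolynomial (Fin N) O) (k : ℕ) :
    homogeneousComponent (n + k) (G * S) = G * homogeneousComponent k S := by
  have h1 : ∀ r, homogeneousComponent (n + k) (G * homogeneousComponent r S) =
      if r = k then G * homogeneousComponent k S else 0 := by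
    intro r
    have h2 : G * homogeneousComponent r S ∈ homogeneousSubmodule (Fin N) O (n + r) :=
      hG.mul (homogeneousComponent_isHomogeneous r S)
    rw [homogeneousComponent_of_mem h2]
    by_cases h : r = k
    · rw [if_pos h, if_pos (by omega), h]
    · rw [if_neg h, if_neg (by omega)]
  conv_lhs => rw [← sum_homogeneousComponent S, Finset.mul_sum, map_sum]
  simp only [h1]
  rw [Finset.sum_ite_eq']
  split_ifs with h
  · rfl
  · rw [Finset.mem_range] at h
    rw [homogeneousComponent_eq_zero k S (by omega), mul_zero]

/-- The homogeneous polynomials of degree `D`. -/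
private noncomputable def Nd (O : Type) [CommRing O] (N D : ℕ) : Submodule O (MvPolynomial (Fin N) O) :=
  Submodule.span O ((fun e => monomial e (1 : O)) '' {e : Fin N →₀ ℕ | e.degree = D})

private theorem nd_fg (D : ℕ) : (Nd O N D).FG := by
  refine Submodule.fg_span (Set.Finite.image _ ?_)
  refine (Set.finite_Iic (Finsupp.equivFunOnFinite.symm fun _ : Fin N => D)).subset fun e he => ?_
  intro i
  have h1 : e.degree = D := he
  have h2 := Finsupp.le_degree i e
  rw [h1] at h2
  exact h2

private theorem nd_mem {D : ℕ} {P : MvPolynomial (Fin N) O} {I : Ideal O}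
    (h : ∀ d, P.coeff d ∈ I) : homogeneousComponent D P ∈ I • Nd O N D := by
  rw [homogeneousComponent_apply]
  refine Submodule.sum_mem _ fun d hd => ?_
  have h1 : monomial d (P.coeff d) = P.coeff d • monomial d (1 : O) := by
    rw [smul_monomial, smul_eq_mul, mul_one]
  rw [h1]
  exact Submodule.smul_mem_smul (h d) (Submodule.subset_span ⟨d, (Finset.mem_filter.1 hd).2, rfl⟩)

/-- **Nakayama for homogeneous ideals.** -/
theorem nak [IsLocalRing O] {n : ℕ} (f : Fin N → MvPolynomial (Fin N) O)
    (hf : ∀ j, (f j).IsHomogeneous n) {s : ℕ}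
    (h : ∀ i, (X i : MvPolynomial (Fin N) (ResidueField O)) ^ s ∈
      Ideal.span (Set.range fun j => map (residue O) (f j))) :
    ∃ D : ℕ, ∀ i, (X i : MvPolynomial (Fin N) O) ^ D ∈ Ideal.span (Set.range f) := by
  classical
  have hc : ∀ i, ∃ c : Fin N → MvPolynomial (Fin N) O,
      ∀ d, (X i ^ s - ∑ j, c j * f j : MvPolynomial (Fin N) O).coeff d ∈ maximalIdeal O := by
    intro i
    obtain ⟨c, hc⟩ := Ideal.mem_span_range_iff_exists_fun.1 (h i)
    have h1 : ∀ j, ∃ b : MvPolynomial (Fin N) O, map (residue O) b = c j := fun j =>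
      map_surjective _ residue_surjective (c j)
    choose b hb using h1
    refine ⟨b, fun d => ?_⟩
    rw [← residue_eq_zero_iff, ← coeff_map, map_sub, map_pow, map_X, map_sum, ← hc]
    simp only [map_mul, hb]
    rw [sub_self, coeff_zero]
  choose c hc using hc
  refine ⟨N * s + n + 1, fun i => ?_⟩
  set D := N * s + n + 1 with hD
  have hle : Nd O N D ≤ (Ideal.span (Set.range f)).restrictScalars O := by
    refine Submodule.le_of_le_smul_of_le_jacobson_bot (nd_fg D)
      (maximalIdeal_le_jacobson (⊥ : Ideal O)) ?_
    refine Submodule.span_le.2 ?_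
    rintro _ ⟨e, he, rfl⟩
    have he : e.degree = D := he
    obtain ⟨i₀, hi₀⟩ : ∃ i₀, s ≤ e i₀ := by
      by_contra hne
      rw [not_exists] at hne
      have h1 : e.degree ≤ N * s := by
        rw [Finsupp.degree_eq_sum]
        refine (Finset.sum_le_sum fun i _ => (not_le.1 (hne i)).le).trans ?_
        rw [Finset.sum_const, Finset.card_univ, Fintype.card_fin, smul_eq_mul]
      omega
    set e' : Fin N →₀ ℕ := e - Finsupp.single i₀ s with he'
    have h1 : Finsupp.single i₀ s + e' = e := by
      rw [he', add_tsub_cancel_of_le]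
      rw [Finsupp.single_le_iff]
      exact hi₀
    have h2 : (monomial e (1 : O) : MvPolynomial (Fin N) O) = X i₀ ^ s * monomial e' 1 := by
      rw [X_pow_eq_monomial, monomial_mul, mul_one, h1]
    have h3 : homogeneousComponent D (monomial e (1 : O)) = monomial e 1 := by
      have h4 : (monomial e (1 : O) : MvPolynomial (Fin N) O) ∈
          homogeneousSubmodule (Fin N) O D := isHomogeneous_monomial _ he
      rw [homogeneousComponent_of_mem h4, if_pos rfl]
    have h5 : (monomial e (1 : O) : MvPolynomial (Fin N) O) =
        homogeneousComponent D (∑ j, f j * (c i₀ j * monomial e' 1)) +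
          homogeneousComponent D ((X i₀ ^ s - ∑ j, c i₀ j * f j) * monomial e' 1) := by
      rw [← map_add]
      conv_lhs => rw [← h3]
      congr 1
      rw [h2, sub_mul, Finset.sum_mul]
      have h6 : ∀ j, f j * (c i₀ j * monomial e' (1 : O)) = c i₀ j * f j * monomial e' 1 :=
        fun j => by ring
      simp only [h6]
      ring
    have key : (monomial e (1 : O) : MvPolynomial (Fin N) O) ∈
        (Ideal.span (Set.range f)).restrictScalars O ⊔ maximalIdeal O • Nd O N D := by
      rw [h5]
      refine Submodule.add_mem_sup ?_ (nd_mem fun d => ?_)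
      · rw [map_sum]
        refine Submodule.sum_mem _ fun j _ => ?_
        have h7 : D = n + (N * s + 1) := by omega
        rw [h7, hcn (hf j)]
        exact Ideal.mul_mem_right _ _ (Ideal.subset_span ⟨j, rfl⟩)
      · rw [coeff_mul]
        exact Ideal.sum_mem _ fun x _ => Ideal.mul_mem_right _ _ (hc i₀ x.1)
    exact key
  have h1 : (X i : MvPolynomial (Fin N) O) ^ D ∈ Nd O N D := by
    rw [X_pow_eq_monomial]
    refine Submodule.subset_span ⟨_, ?_, rfl⟩
    change (Finsupp.single i D).degree = D
    rw [Finsupp.degree_single]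
  exact hle h1

end nak

end GM
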