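import Pool.Agent.Lib.MP_f80667_ag.Gm.GwC
import Pool.Agent.Lib.MP_f80667_ag.Gm.GwN

/-! Smooth reduction gives `Sm`: Nullstellensatz over the residue field of `F ∩ V`, Nakayama. -/

open ZC BE PE CV IntermediateField IsDedekindDomain NumberField IsLocalRing

namespace GM

variable {F : Type} [Field F] {N n : ℕ} {G : MvPolynomial (Fin N) F} {K Ω : Type} [Field K]
  [CharZero K] [Field Ω] [Algebra K Ω] [Algebra F K] [Algebra F Ω] [IsScalarTower F K Ω]
  [IsAlgClosure K Ω] {L : Ld K Ω}

/-- The homomorphism of the valuation ring of `F` to that of `Ω`. -/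
private def iV (L : Ld K Ω) (F : Type) [Field F] [Algebra F Ω] :
    (L.V.comap (algebraMap F Ω)) →+* L.V where
  toFun x := ⟨algebraMap F Ω x, x.2⟩
  map_one' := Subtype.ext (map_one _)
  map_mul' _ _ := Subtype.ext (map_mul _ _ _)
  map_zero' := Subtype.ext (map_zero _)
  map_add' _ _ := Subtype.ext (map_add _ _ _)

omit [CharZero K] [Algebra F K] [IsScalarTower F K Ω] [IsAlgClosure K Ω] in
private theorem iV_loc : IsLocalHom (iV L F) := by
  refine ⟨fun x hx => ?_⟩
  obtain ⟨u, hu⟩ := hx
  have h1 : algebraMap F Ω (x : F) * ((u⁻¹ : (L.V)ˣ) : L.V).1 = 1 := by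
    have h4 := congrArg Subtype.val (Units.mul_inv u)
    rw [hu] at h4
    exact h4
  have h2 : algebraMap F Ω (x : F) ≠ 0 := left_ne_zero_of_mul_eq_one h1
  have h3 : (x : F) ≠ 0 := fun h => h2 (by rw [h, map_zero])
  have h4 : (x : F)⁻¹ ∈ L.V.comap (algebraMap F Ω) := by
    change algebraMap F Ω (x : F)⁻¹ ∈ L.V
    rw [map_inv₀, ← eq_inv_of_mul_eq_one_right h1]
    exact ((u⁻¹ : (L.V)ˣ) : L.V).2
  exact IsUnit.of_mul_eq_one (⟨_, h4⟩ : L.V.comap (algebraMap F Ω))
    (Subtype.ext (mul_inv_cancel₀ h3))

omit [CharZero K] [Algebra F K] [IsScalarTower F K Ω] in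
/-- Proof: `O = F ∩ V`, `k` its residue field, `κ` the residue field of `V` (algebraically closed). A common zero `≠ 0` in `κ` of the partial derivatives
modulo the maximal ideal lifts to a primitive vector; by Euler's identity (`n < p`) it is a zero of `G` modulo the maximal ideal. So the
Nullstellensatz `nst` gives `X_i ^ s` in the ideal of the partial derivatives over `k`; the homogeneous polynomials of degree `N s` over `O` are in the
ideal of the partial derivatives modulo the maximal ideal; Nakayama. -/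
theorem sm_of (h : Grh G L.V n) (hp : n < L.p) : Sm G L := by
  have hcl : IsAlgClosed Ω := IsAlgClosure.isAlgClosed K
  have hκ : IsAlgClosed L.κ := L.κ_closed
  set O := L.V.comap (algebraMap F Ω) with hO
  have hloc : IsLocalHom (iV L F) := iV_loc
  let j : ResidueField O →+* L.κ := ResidueField.map (iV L F)
  let alg : Algebra (ResidueField O) L.κ := j.toAlgebra
  have hj : ∀ x : O, algebraMap (ResidueField O) L.κ (residue O x) = residue L.V (iV L F x) :=
    fun x => rfl
  -- the polynomial over `O`
  obtain ⟨G₀, hG₀⟩ : ∃ G₀ : MvPolynomial (Fin N) O, MvPolynomial.map O.subtype G₀ = G := by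
    have h1 : G ∈ Set.range (MvPolynomial.map O.subtype : MvPolynomial (Fin N) O →+* _) := by
      rw [MvPolynomial.mem_range_map_iff_coeffs_subset]
      intro x hx
      obtain ⟨d, -, rfl⟩ := MvPolynomial.mem_coeffs_iff.1 hx
      exact ⟨⟨_, h.int d⟩, rfl⟩
    exact h1
  have hinj : Function.Injective (MvPolynomial.map O.subtype : MvPolynomial (Fin N) O →+* _) :=
    MvPolynomial.map_injective _ Subtype.val_injective
  have hh : G₀.IsHomogeneous n := by
    intro d hd
    refine h.hom (d := d) ?_
    rw [← hG₀, MvPolynomial.coeff_map]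
    exact fun h1 => hd (Subtype.ext h1)
  have hpd : ∀ i, MvPolynomial.map O.subtype (MvPolynomial.pderiv i G₀) =
      MvPolynomial.pderiv i G := fun i => by
    rw [← MvPolynomial.pderiv_map, hG₀]
  -- values
  have hval : ∀ (P : MvPolynomial (Fin N) O) (x : Fin N → L.V),
      MvPolynomial.aeval (fun i => residue L.V (x i)) (MvPolynomial.map (residue O) P) =
        residue L.V (MvPolynomial.eval₂ (iV L F) x P) := by
    intro P x
    rw [MvPolynomial.aeval_def, MvPolynomial.eval₂_map, MvPolynomial.hom_eval₂]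
    rfl
  have hval' : ∀ (P : MvPolynomial (Fin N) O) (x : Fin N → L.V),
      ((MvPolynomial.eval₂ (iV L F) x P : L.V) : Ω) =
        MvPolynomial.aeval (fun i => (x i : Ω)) (MvPolynomial.map O.subtype P) := by
    intro P x
    rw [MvPolynomial.aeval_def, MvPolynomial.eval₂_map]
    exact MvPolynomial.hom_eval₂ P (iV L F) L.V.subtype x
  obtain ⟨s, hs⟩ := nst (K := L.κ) (fun i => MvPolynomial.map (residue O)
    (MvPolynomial.pderiv i G₀)) (by
    intro x hx
    obtain ⟨y, hy⟩ : ∃ y : Fin N → L.V, (fun i => residue L.V (y i)) = x := by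
      choose y hy using fun i => residue_surjective (x i)
      exact ⟨y, funext hy⟩
    subst hy
    by_contra hne
    obtain ⟨i, hi⟩ : ∃ i, residue L.V (y i) ≠ 0 := by
      by_contra h1
      rw [not_exists] at h1
      exact hne (funext fun i => not_not.1 (h1 i))
    have hn1 : ∀ z : L.V, residue L.V z = 0 → (z : Ω) ∈ L.V.nonunits := fun z hz =>
      ValuationSubring.coe_mem_nonunits_iff.2 ((residue_eq_zero_iff _).1 hz)
    have hPm : Pmv L.V fun i => (y i : Ω) := by
      refine ⟨fun i => (y i).2, i, fun h1 => hi ?_⟩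
      rw [residue_eq_zero_iff]
      exact ValuationSubring.coe_mem_nonunits_iff.1 h1
    have hd : ∀ i, MvPolynomial.aeval (fun i => (y i : Ω)) (MvPolynomial.pderiv i G) ∈
        L.V.nonunits := by
      intro i
      rw [← hpd, ← hval']
      refine hn1 _ ?_
      rw [← hval]
      exact hx i
    have hG : MvPolynomial.aeval (fun i => (y i : Ω)) G ∈ L.V.nonunits := by
      have h1 := congrArg (MvPolynomial.aeval fun i => (y i : Ω)) (euler h.hom)
      rw [map_sum, map_mul, map_natCast] at h1
      have h2 : L.nm (n : Ω) = 1 := L.nat_unit fun h3 =>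
        absurd (Nat.le_of_dvd (by have := h.two; omega) h3) (not_le.2 hp)
      have h4 : L.nm (MvPolynomial.aeval (fun i => (y i : Ω)) G) =
          L.nm (∑ i, MvPolynomial.aeval (fun i => (y i : Ω))
            (MvPolynomial.X i * MvPolynomial.pderiv i G)) := by
        rw [h1, L.mul, h2, one_mul]
      rw [non_iff, h4, ← non_iff]
      refine sum_mem fun i _ => ?_
      rw [map_mul, MvPolynomial.aeval_X, non_iff, L.mul]
      exact mul_lt_one_of_nonneg_of_lt_one_right (y i).2 (L.nonneg _) (non_iff.1 (hd i))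
    obtain ⟨i, hi⟩ := h.smooth _ hPm hG
    exact hi (hd i))
  obtain ⟨D, hD⟩ := nak (fun i => MvPolynomial.pderiv i G₀) (fun i => hh.pderiv) hs
  refine ⟨D, fun i => ?_⟩
  obtain ⟨c, hc⟩ := Ideal.mem_span_range_iff_exists_fun.1 (hD i)
  refine ⟨fun j => MvPolynomial.map O.subtype (c j), fun j d => ?_, ?_⟩
  · rw [MvPolynomial.coeff_map]
    exact ((c j).coeff d).2
  · have h1 := congrArg (MvPolynomial.map O.subtype) hc
    rw [map_sum, map_pow, MvPolynomial.map_X] at h1
    rw [← h1]
    refine Finset.sum_congr rfl fun j _ => ?_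
    rw [map_mul, hpd]

end GM
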