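import Pool.Agent.Lib.MP_f80667_ag.Gm.GwD
import Pool.Agent.Lib.MP_f80667_ag.Gm.GwA
import Pool.Agent.Lib.MP_f80667_ag.Cv.Gr

/-! The valuation ring of the algebraic closure and the absolute value. -/

open ZC BE PE CV IntermediateField IsDedekindDomain NumberField

namespace GM

section loc

variable {F : Type} [Field F] {N n : ℕ} {G : MvPolynomial (Fin N) F} {K Ω : Type} [Field K]
  [CharZero K] [Field Ω] [Algebra K Ω] [Algebra F K] [Algebra F Ω] [IsScalarTower F K Ω]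
  [IsAlgClosure K Ω] {L : Ld K Ω}

/-- The valuation ring of `Ω` above the integers of `K` is unique. Proof: as `Gr_uniq`. -/
theorem v_uniq (L : Ld K Ω) (V : ValuationSubring Ω) (h : V.comap (algebraMap K Ω) = Ok L) :
    V = L.V := by
  have hle : ∀ x : Ω, L.nm x ≤ 1 → x ∈ V := by
    intro x hx
    obtain ⟨p, hp, hpx, hc⟩ := Gr_int L hx
    have h2 : ∀ i, algebraMap K Ω (p.coeff i) ∈ V := fun i => by
      have h3 := hc i
      rw [← h] at h3
      exact h3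
    have h3 : p.map (algebraMap K Ω) ∈ Polynomial.lifts V.subtype := by
      rw [Polynomial.lifts_iff_coeff_lifts]
      intro n
      rw [Polynomial.coeff_map]
      exact ⟨⟨_, h2 n⟩, rfl⟩
    obtain ⟨q, hq, -, hqm⟩ := Polynomial.lifts_and_degree_eq_and_monic h3 (hp.map _)
    have h4 : IsIntegral V x := by
      refine ⟨q, hqm, ?_⟩
      have h5 : Polynomial.eval₂ (algebraMap V Ω) x q = Polynomial.eval x (q.map V.subtype) :=
        (Polynomial.eval_map _ _).symm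
      rw [h5, hq, Polynomial.eval_map_algebraMap, hpx]
    obtain ⟨y, hy⟩ := (IsIntegrallyClosed.isIntegral_iff (R := V) (K := Ω)).1 h4
    rw [← hy]
    exact y.2
  refine SetLike.ext fun x => ⟨fun hx => ?_, hle x⟩
  by_contra hx'
  have h1 : 1 < L.nm x := not_le.1 hx'
  have hx0 : x ≠ 0 := by
    rintro rfl
    rw [L.zero] at h1
    exact absurd h1 (by norm_num)
  have htop : ∀ z : Ω, z ∈ V := by
    intro z
    obtain ⟨n, hn⟩ := pow_unbounded_of_one_lt (L.nm z) h1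
    have h2 : z * (x ^ n)⁻¹ ∈ V := by
      refine hle _ ?_
      rw [L.mul, L.inv, L.pow, ← div_eq_mul_inv, div_le_one (pow_pos (zero_lt_one.trans h1) n)]
      exact hn.le
    have h3 : z = z * (x ^ n)⁻¹ * x ^ n := by
      rw [inv_mul_cancel_right₀ (pow_ne_zero n hx0)]
    rw [h3]
    exact V.mul_mem _ _ h2 (pow_mem hx n)
  have h4 : ((L.p : K))⁻¹ ∈ Ok L := by
    rw [← h]
    exact htop _
  have h5 : L.nm (algebraMap K Ω (L.p : K)⁻¹) ≤ 1 := h4
  rw [map_inv₀, map_natCast, L.inv] at h5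
  exact absurd L.lt (not_lt.2 ((inv_le_one₀ L.p_pos).1 h5))

omit [CharZero K] [IsAlgClosure K Ω] in
theorem non_iff {x : Ω} : x ∈ L.V.nonunits ↔ L.nm x < 1 := by
  rw [← L.hv_zero, ValuationSubring.mem_nonunits_iff_exists_mem_maximalIdeal]
  constructor
  · rintro ⟨h, h1⟩
    exact ⟨h, (IsLocalRing.residue_eq_zero_iff _).2 h1⟩
  · rintro ⟨h, h1⟩
    exact ⟨h, (IsLocalRing.residue_eq_zero_iff _).1 h1⟩

omit [CharZero K] [IsAlgClosure K Ω] in
theorem pmv_iff {x : Fin N → Ω} :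
    Pmv L.V x ↔ (∀ i, L.nm (x i) ≤ 1) ∧ ∃ i, L.nm (x i) = 1 := by
  constructor
  · rintro ⟨h, i, hi⟩
    exact ⟨h, i, le_antisymm (h i) (not_lt.1 fun h1 => hi (non_iff.2 h1))⟩
  · rintro ⟨h, i, hi⟩
    exact ⟨h, i, fun h1 => absurd (non_iff.1 h1) (by rw [hi]; exact lt_irrefl _)⟩

omit [CharZero K] [Algebra F K] [IsScalarTower F K Ω] [IsAlgClosure K Ω] in
/-- Proof: `non_iff`. -/
theorem srd_iff {P P' : (Xh G).pt Ω} : Srd G L.V P P' ↔ ∃ r < 1, Nrh G L r P P' := by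
  constructor
  · rintro ⟨x, x', h1, h2, h3, h4, h5⟩
    obtain ⟨h3, h3'⟩ := pmv_iff.1 h3
    obtain ⟨h4, h4'⟩ := pmv_iff.1 h4
    have hne : Nonempty (Fin N) := ⟨h3'.choose⟩
    obtain ⟨i₀, hi₀⟩ := Finite.exists_max fun i => L.nm (x i - x' i)
    exact ⟨_, non_iff.1 (h5 i₀), x, x', h1, h2, h3, h4, h3', h4', hi₀⟩
  · rintro ⟨r, hr, x, x', h1, h2, h3, h4, h3', h4', h5⟩
    exact ⟨x, x', h1, h2, pmv_iff.2 ⟨h3, h3'⟩, pmv_iff.2 ⟨h4, h4'⟩,
      fun i => non_iff.2 ((h5 i).trans_lt hr)⟩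

omit [CharZero K] [Algebra F K] [IsScalarTower F K Ω] [IsAlgClosure K Ω] in
theorem zrd_iff {z : (Xh G).pt Ω →₀ ℤ} : Zrd G L.V z ↔ Zr G L z := by
  classical
  unfold Zrd Zr
  refine forall_congr' fun Q => ?_
  have h : ∀ P ∈ z.support, Srd G L.V P Q ↔ ∃ r < 1, Nrh G L r P Q := fun P _ => srd_iff
  rw [Finset.filter_congr h]

omit [IsAlgClosure K Ω] in
/-- Proof: `nm x < 1` gives `nm (x / p) ≤ 1`; for a uniformizer `π` of `K` this gives `nm π = nm p`. The number `p` is the residue characteristic: `nm p < 1`. -/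
theorem urp_unr {p : ℕ} (h : Urp L.V K p) : L.p = p ∧ L.Unr := by
  obtain ⟨hp, h1, h2⟩ := h
  have h3 : L.p = p := by
    by_contra hne
    have h4 : L.nm (p : Ω) = 1 := L.nat_unit fun h5 =>
      hne ((Nat.prime_dvd_prime_iff_eq L.pp hp).1 h5)
    exact absurd (non_iff.1 h1) (by rw [h4]; exact lt_irrefl _)
  refine ⟨h3, ⟨fun x hx => ?_⟩⟩
  subst h3
  obtain ⟨π, hπ, h0, h4, h5⟩ := L.unif ⊥ inferInstance
  obtain ⟨y, rfl⟩ := IntermediateField.mem_bot.1 hπ
  have hpp := L.p_pos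
  have h6 : L.nm (algebraMap K Ω y) ≤ L.nm (L.p : Ω) := by
    have h7 : L.nm (algebraMap K Ω y / (L.p : Ω)) ≤ 1 := h2 y (non_iff.2 h4)
    rw [div_eq_mul_inv, L.mul, L.inv, ← div_eq_mul_inv, div_le_one hpp] at h7
    exact h7
  have hp0 : (L.p : Ω) ≠ 0 := L.ne_zero hpp
  obtain ⟨k, hk⟩ := h5 (L.p : Ω) (by
    rw [← map_natCast (algebraMap K Ω)]
    exact IntermediateField.algebraMap_mem _ _) hp0
  have hk1 : 0 < k := by
    have h8 := L.lt
    rw [hk, ← zpow_zero (L.nm (algebraMap K Ω y))] at h8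
    exact (zpow_lt_zpow_iff_right_of_lt_one₀ h0 h4).1 h8
  have h9 : L.nm (L.p : Ω) ≤ L.nm (algebraMap K Ω y) := by
    rw [hk]
    have h10 := (zpow_le_zpow_iff_right_of_lt_one₀ h0 h4).2 (show (1 : ℤ) ≤ k by omega)
    rwa [zpow_one] at h10
  rw [le_antisymm h9 h6]
  refine h5 _ (IntermediateField.algebraMap_mem _ _) ?_
  rw [Ne, map_eq_zero]
  exact hx

omit [CharZero K] [Algebra F K] [IsScalarTower F K Ω] [IsAlgClosure K Ω] in
theorem gi_of (h : Grh G L.V n) : Gi G L n where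
  two := h.two
  hom := h.hom
  int := h.int

end loc

end GM
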