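import Pool.Agent.Lib.MP_f80667_ag.Gm.GeD
import Pool.Agent.Lib.MP_f80667_ag.Cv.LdI

/-!
Smooth hypersurfaces over number fields: the statements. `V` is a valuation ring of `Ω`.

* `Pmv V x`: the coordinates `x` are primitive: they are in `V`, one of them is a unit.
* `Srd G V P P'`: the points `P`, `P'` of the hypersurface `G = 0` have the same reduction. `Zrd G V z`: the reduction of the
  cycle `z` is `0`: over each point of the reduction the sum of the coefficients is `0`.
* `Urp K V p`: the prime number `p` is a uniformizer of `V ∩ K`.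
* `Smh G`: the hypersurface `G = 0` is smooth. `Grh G V n`: `G` is homogeneous of degree `n ≥ 2` with coefficients in `V`, and
  the hypersurface is smooth modulo the maximal ideal of `V`.
* `Dvk G K V`: every cycle over `K` with reduction `0` is, for all `m ≠ 0`, rationally equivalent to `m` times a cycle over `K` with
  reduction `0`.
-/

open ZC BE PE CV IntermediateField IsDedekindDomain NumberField

namespace GM

section defs

variable {F : Type} [Field F] {N : ℕ} (G : MvPolynomial (Fin N) F) {Ω : Type} [Field Ω]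
  [Algebra F Ω] (V : ValuationSubring Ω)

/-- The coordinates are primitive. -/
def Pmv (x : Fin N → Ω) : Prop := (∀ i, x i ∈ V) ∧ ∃ i, x i ∉ V.nonunits

/-- The points have the same reduction. -/
def Srd (P P' : (Xh G).pt Ω) : Prop :=
  ∃ x x' : Fin N → Ω, Co P x ∧ Co P' x' ∧ Pmv V x ∧ Pmv V x' ∧ ∀ i, x i - x' i ∈ V.nonunits

open Classical in
/-- The reduction of the cycle is `0`. -/
def Zrd (z : (Xh G).pt Ω →₀ ℤ) : Prop :=
  ∀ Q : (Xh G).pt Ω, ∑ P ∈ z.support.filter (fun P => Srd G V P Q), z P = 0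

/-- The hypersurface is smooth. -/
def Smh : Prop := ∀ x : Fin N → AlgebraicClosure F, x ≠ 0 → MvPolynomial.aeval x G = 0 →
  ∃ j, MvPolynomial.aeval x (MvPolynomial.pderiv j G) ≠ 0

/-- The hypersurface is smooth modulo the maximal ideal of `V`. -/
structure Grh (n : ℕ) : Prop where
  two : 2 ≤ n
  hom : G.IsHomogeneous n
  int : ∀ d, algebraMap F Ω (G.coeff d) ∈ V
  smooth : ∀ x : Fin N → Ω, Pmv V x → MvPolynomial.aeval x G ∈ V.nonunits →
    ∃ j, MvPolynomial.aeval x (MvPolynomial.pderiv j G) ∉ V.nonunits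

/-- `p` is a uniformizer of `V ∩ K`. -/
def Urp (K : Type) [Field K] [Algebra K Ω] (p : ℕ) : Prop :=
  p.Prime ∧ (p : Ω) ∈ V.nonunits ∧
    ∀ x : K, algebraMap K Ω x ∈ V.nonunits → algebraMap K Ω x / (p : Ω) ∈ V

/-- The cycles over `K` with reduction `0` are divisible. -/
def Dvk (K : Type) [Field K] [Algebra F K] [Algebra K Ω] [IsScalarTower F K Ω] : Prop :=
  ∀ m : ℕ, m ≠ 0 → ∀ z ∈ (Xh G).cyc K Ω, Zrd G V z →
    ∃ z' ∈ (Xh G).cyc K Ω, Zrd G V z' ∧ z - m • z' ∈ (Xh G).ratEq K Ω

end defs

end GM
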