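import Pool.Agent.Lib.MP_f80667_ag.Gm.GwB
import Pool.Agent.Lib.MP_f80667_ag.Pe.GlE

/-! Almost all places. -/

open ZC BE PE CV IntermediateField IsDedekindDomain NumberField

namespace GM

section sm

variable {F : Type} [Field F] {N n : ℕ} {G : MvPolynomial (Fin N) F}

/-- A smooth hypersurface over a field of characteristic `0`: the powers `X_i ^ s` are in the ideal of the partial derivatives. -/
theorem smh_nst [CharZero F] (h2 : 2 ≤ n) (hG : G.IsHomogeneous n) (hs : Smh G) :
    ∃ (s : ℕ) (c : Fin N → Fin N → MvPolynomial (Fin N) F), ∀ i,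
      (MvPolynomial.X i : MvPolynomial (Fin N) F) ^ s = ∑ j, c i j * MvPolynomial.pderiv j G := by
  obtain ⟨s, hs'⟩ := nst (K := AlgebraicClosure F) (fun j => MvPolynomial.pderiv j G) (by
    intro x hx
    by_contra hx0
    have h3 := congrArg (MvPolynomial.aeval x) (euler hG)
    rw [map_sum, Finset.sum_eq_zero (fun j _ => by rw [map_mul, hx j, mul_zero]), map_mul,
      map_natCast] at h3
    have h4 : (n : AlgebraicClosure F) ≠ 0 := Nat.cast_ne_zero.2 (by omega)
    obtain ⟨j, hj⟩ := hs x hx0 ((mul_eq_zero.1 h3.symm).resolve_left h4)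
    exact hj (hx j))
  have h5 : ∀ i, ∃ c : Fin N → MvPolynomial (Fin N) F,
      (MvPolynomial.X i : MvPolynomial (Fin N) F) ^ s = ∑ j, c j * MvPolynomial.pderiv j G := by
    intro i
    obtain ⟨c, hc⟩ := Ideal.mem_span_range_iff_exists_fun.1 (hs' i)
    exact ⟨c, hc.symm⟩
  choose c hc using h5
  exact ⟨s, c, hc⟩

/-- The value of a polynomial with coefficients in `V` at a vector in `V`. -/
theorem aeval_mem {Ω : Type} [Field Ω] [Algebra F Ω] {V : ValuationSubring Ω}
    {P : MvPolynomial (Fin N) F} (hP : ∀ d, algebraMap F Ω (P.coeff d) ∈ V) {x : Fin N → Ω}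
    (hx : ∀ i, x i ∈ V) : MvPolynomial.aeval x P ∈ V := by
  rw [MvPolynomial.aeval_def, MvPolynomial.eval₂_eq']
  exact sum_mem fun d _ => mul_mem (hP d) (prod_mem fun i _ => pow_mem (hx i) _)

/-- Smooth reduction from the identities `X_i ^ s = ∑ c_i,j ∂_j G` with coefficients in `V`. -/
theorem grh_of {Ω : Type} [Field Ω] [Algebra F Ω] {V : ValuationSubring Ω} (h2 : 2 ≤ n)
    (hG : G.IsHomogeneous n) (h : ∀ d, algebraMap F Ω (G.coeff d) ∈ V) {s : ℕ}
    {c : Fin N → Fin N → MvPolynomial (Fin N) F} (hc : ∀ i j d, algebraMap F Ω ((c i j).coeff d) ∈ V)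
    (hs : ∀ i, (MvPolynomial.X i : MvPolynomial (Fin N) F) ^ s =
      ∑ j, c i j * MvPolynomial.pderiv j G) : Grh G V n where
  two := h2
  hom := hG
  int := h
  smooth := by
    rintro x ⟨hx, i, hi⟩ -
    by_contra hne
    rw [not_exists] at hne
    refine hi ?_
    have h3 := congrArg (MvPolynomial.aeval x) (hs i)
    rw [map_pow, MvPolynomial.aeval_X, map_sum] at h3
    have h4 : x i ^ s ∈ V.nonunits := by
      rw [h3]
      refine sum_mem fun j _ => ?_
      rw [map_mul]
      have h5 := aeval_mem (hc i j) hx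
      have h6 := not_not.1 (hne j)
      rw [ValuationSubring.mem_nonunits_iff] at h6 ⊢
      rw [map_mul]
      exact mul_lt_one_of_nonneg_of_lt_one_right ((V.valuation_le_one_iff _).2 h5) zero_le h6
    rw [ValuationSubring.mem_nonunits_iff] at h4 ⊢
    by_contra h7
    rw [map_pow] at h4
    exact absurd h4 (not_lt.2 (one_le_pow₀ (not_lt.1 h7)))

end sm

variable {F : Type} [Field F] [NumberField F] {N n : ℕ} {G : MvPolynomial (Fin N) F}

/-- The valuation ring of the algebraic closure of `F_v` on `F`. -/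
theorem mem_v {v : HeightOneSpectrum (𝓞 F)} {V : ValuationSubring (AlgebraicClosure (FK F v))}
    (hV : V.comap (algebraMap (FK F v) _) = CV.Iv v) {x : F} (hx : v.valuation F x ≤ 1) :
    algebraMap F (AlgebraicClosure (FK F v)) x ∈ V := by
  have h1 : algebraMap F (FK F v) x ∈ CV.Iv v := by
    change Valued.v (algebraMap F (v.adicCompletion F) x) ≤ (1 : WithZero (Multiplicative ℤ))
    exact (HeightOneSpectrum.valuedAdicCompletion_eq_valuation' v x).trans_le hx
  rw [← hV] at h1
  rw [IsScalarTower.algebraMap_apply F (FK F v)]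
  exact h1

/-- The valuation of `F_v`. -/
private noncomputable def vl (v : HeightOneSpectrum (𝓞 F)) :
    Valuation (v.adicCompletion F) (WithZero (Multiplicative ℤ)) := Valued.v

/-- Proof: `x / p` for `x` in the maximal ideal of `F_v` is integral. -/
theorem urp_of {v : HeightOneSpectrum (𝓞 F)} {V : ValuationSubring (AlgebraicClosure (FK F v))}
    (hV : V.comap (algebraMap (FK F v) _) = CV.Iv v) {p : ℕ} (hp : p.Prime)
    (hv : v.valuation F (p : F) = WithZero.exp (-1 : ℤ)) : Urp V (FK F v) p := by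
  have hval : vl v (algebraMap F (v.adicCompletion F) (p : F)) =
      (WithZero.exp (-1 : ℤ) : WithZero (Multiplicative ℤ)) :=
    (HeightOneSpectrum.valuedAdicCompletion_eq_valuation' v (p : F)).trans hv
  have hmem : ∀ x : v.adicCompletion F,
      algebraMap (FK F v) (AlgebraicClosure (FK F v)) x ∈ V ↔ vl v x ≤ 1 := by
    intro x
    have h1 : (x : FK F v) ∈ V.comap (algebraMap (FK F v) (AlgebraicClosure (FK F v))) ↔
        (x : FK F v) ∈ CV.Iv v := by
      rw [hV]
    exact h1
  have hpe : algebraMap (FK F v) (AlgebraicClosure (FK F v)) (algebraMap F (FK F v) (p : F)) =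
      (p : AlgebraicClosure (FK F v)) := by
    rw [map_natCast, map_natCast]
  refine ⟨hp, ?_, fun x hx => ?_⟩
  · rw [← hpe, ValuationSubring.mem_nonunits_iff_or]
    right
    rw [← map_inv₀]
    refine fun h => ?_
    have h1 : vl v (algebraMap F (v.adicCompletion F) (p : F))⁻¹ ≤ 1 := (hmem _).1 h
    rw [map_inv₀, hval, ← WithZero.exp_neg, ← WithZero.exp_zero, WithZero.exp_le_exp] at h1
    omega
  · rw [← hpe, ← map_div₀]
    refine (hmem _).2 ?_
    revert x
    refine fun (y : v.adicCompletion F) hx => ?_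
    change vl v (y / algebraMap F (v.adicCompletion F) (p : F)) ≤ 1
    have e : vl v (y / algebraMap F (v.adicCompletion F) (p : F)) =
        vl v y / WithZero.exp (-1 : ℤ) := by
      rw [map_div₀, hval]
    refine le_of_eq_of_le e ?_
    by_cases hx0 : y = 0
    · rw [hx0, map_zero, zero_div]
      exact zero_le
    · rw [ValuationSubring.mem_nonunits_iff_or] at hx
      have h1 : (algebraMap (FK F v) (AlgebraicClosure (FK F v)) y)⁻¹ ∉ V :=
        hx.resolve_left fun h => hx0 ((map_eq_zero (algebraMap (FK F v)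
          (AlgebraicClosure (FK F v)))).1 h)
      have h2 : ¬ vl v (y⁻¹) ≤ 1 := by
        intro h3
        apply h1
        rw [← map_inv₀]
        exact (hmem _).2 h3
      have h3 : vl v y ≠ 0 := (Valuation.ne_zero_iff _).2 hx0
      obtain ⟨k, hk⟩ : ∃ k : ℤ, vl v y = WithZero.exp k :=
        ⟨_, (WithZero.exp_log h3).symm⟩
      rw [map_inv₀, hk, ← WithZero.exp_neg, ← WithZero.exp_zero, WithZero.exp_le_exp] at h2
      rw [hk, div_eq_mul_inv, ← WithZero.exp_neg, ← WithZero.exp_add, ← WithZero.exp_zero,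
        WithZero.exp_le_exp]
      omega

/-- **Almost all places are good.** Proof: `X_i ^ s = ∑ c_i,j ∂_j G` over `F` (`nst`, Euler's identity); at almost all `v` the coefficients of `G` and of the `c_i,j` are integral,
`F_v` is unramified (`gln_unr`) and `p > n` (`gln_one` for `n!`). -/
theorem almost (h2 : 2 ≤ n) (hG : G.IsHomogeneous n) (hs : Smh G) :
    {v : HeightOneSpectrum (𝓞 F) | ¬ ∀ V : ValuationSubring (AlgebraicClosure (FK F v)),
      V.comap (algebraMap (FK F v) _) = CV.Iv v →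
        Grh G V n ∧ ∃ p : ℕ, n < p ∧ Urp V (FK F v) p}.Finite := by
  obtain ⟨s, c, hc⟩ := smh_nst h2 hG hs
  have hA : {v : HeightOneSpectrum (𝓞 F) | ¬ ∀ d, v.valuation F (G.coeff d) ≤ 1}.Finite := by
    refine (G.support.finite_toSet.biUnion (t := fun d =>
      {v : HeightOneSpectrum (𝓞 F) | ¬ v.valuation F (G.coeff d) ≤ 1}) fun d _ => gln_le _).subset
      fun v hv => ?_
    obtain ⟨d, hd⟩ := not_forall.1 hv
    refine Set.mem_biUnion (x := d) ?_ hd
    refine Finset.mem_coe.2 (MvPolynomial.mem_support_iff.2 fun h0 => hd ?_)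
    rw [h0, map_zero]
    exact zero_le
  have hB : {v : HeightOneSpectrum (𝓞 F) | ¬ ∀ i j d, v.valuation F ((c i j).coeff d) ≤ 1}.Finite := by
    have h1 : ∀ i j, {v : HeightOneSpectrum (𝓞 F) |
        ¬ ∀ d, v.valuation F ((c i j).coeff d) ≤ 1}.Finite := by
      intro i j
      refine ((c i j).support.finite_toSet.biUnion (t := fun d =>
        {v : HeightOneSpectrum (𝓞 F) | ¬ v.valuation F ((c i j).coeff d) ≤ 1})
        fun d _ => gln_le _).subset fun v hv => ?_
      obtain ⟨d, hd⟩ := not_forall.1 hv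
      refine Set.mem_biUnion (x := d) ?_ hd
      refine Finset.mem_coe.2 (MvPolynomial.mem_support_iff.2 fun h0 => hd ?_)
      rw [h0, map_zero]
      exact zero_le
    refine (Set.finite_iUnion fun i => Set.finite_iUnion fun j => h1 i j).subset fun v hv => ?_
    obtain ⟨i, hi⟩ := not_forall.1 hv
    obtain ⟨j, hj⟩ := not_forall.1 hi
    exact Set.mem_iUnion.2 ⟨i, Set.mem_iUnion.2 ⟨j, hj⟩⟩
  have hn : ((n.factorial : ℕ) : F) ≠ 0 := Nat.cast_ne_zero.2 n.factorial_ne_zero
  refine (((hA.union hB).union (gln_unr (F := F))).union (gln_one hn)).subset fun v hv => ?_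
  by_contra h
  simp only [Set.mem_union, not_or] at h
  obtain ⟨⟨⟨h3, h4⟩, h5⟩, h6⟩ := h
  have h3 : ∀ d, v.valuation F (G.coeff d) ≤ 1 := not_not.1 h3
  have h4 : ∀ i j d, v.valuation F ((c i j).coeff d) ≤ 1 := not_not.1 h4
  have h5 : ∃ p : ℕ, p.Prime ∧ v.valuation F (p : F) = WithZero.exp (-1 : ℤ) := not_not.1 h5
  have h6 : v.valuation F ((n.factorial : ℕ) : F) = 1 := not_not.1 h6
  obtain ⟨p, hp, hvp⟩ := h5
  refine hv fun V hV => ⟨grh_of h2 hG (fun d => mem_v hV (h3 d))
    (fun i j d => mem_v hV (h4 i j d)) hc, p, ?_, urp_of hV hp hvp⟩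
  by_contra hle
  obtain ⟨a, ha⟩ := (hp.dvd_factorial (n := n)).2 (not_lt.1 hle)
  have h7 : v.valuation F ((a : ℕ) : F) ≤ 1 := by
    have e : algebraMap (𝓞 F) F ((a : ℕ) : 𝓞 F) = ((a : ℕ) : F) := map_natCast _ _
    rw [← e]
    exact v.valuation_le_one _
  rw [ha, Nat.cast_mul, map_mul, hvp] at h6
  have h9 : (WithZero.exp (-1 : ℤ) : WithZero (Multiplicative ℤ)) < 1 := by
    rw [← WithZero.exp_zero, WithZero.exp_lt_exp]
    omega
  exact absurd h6 (mul_lt_one_of_lt_of_le h9 h7).ne

end GM
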