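import Pool.Agent.Lib.MP_f80667_ag.Gm.GwE
import Pool.Agent.Lib.MP_f80667_ag.Gm.GeC

/-! The theorems for smooth hypersurfaces. -/

open ZC BE PE CV IntermediateField IsDedekindDomain NumberField

namespace GM

section loc

variable {F : Type} [Field F] {N n : ℕ} {G : MvPolynomial (Fin N) F} {K Ω : Type} [Field K]
  [CharZero K] [Field Ω] [Algebra K Ω] [Algebra F K] [Algebra F Ω] [IsScalarTower F K Ω]
  [IsAlgClosure K Ω] {L : Ld K Ω}

/-- The local theorem for `L.V`. -/
theorem locV [L.Unr] (hN : 4 ≤ N) (hG : Gi G L n) (hs : Sm G L) (hp : n < L.p) :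
    Dvk G L.V K := by
  intro m hm z hz h
  obtain ⟨z', h1, h2, h3⟩ := loc hN hG hs hp hz (zrd_iff.1 h) hm
  exact ⟨z', h1, zrd_iff.2 h2, h3⟩

end loc

/-- **The local theorem** for the completions of number fields. -/
theorem fin_loc {F₀ : Type} [Field F₀] [NumberField F₀] {v : HeightOneSpectrum (𝓞 F₀)}
    {F : Type} [Field F] [Algebra F (FK F₀ v)] {N n : ℕ} {G : MvPolynomial (Fin N) F}
    {V : ValuationSubring (AlgebraicClosure (FK F₀ v))}
    (hV : V.comap (algebraMap (FK F₀ v) _) = CV.Iv v) {p : ℕ} (hu : Urp V (FK F₀ v) p)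
    (hp : n < p) (hN : 4 ≤ N) (hG : Grh G V n) : Dvk G V (FK F₀ v) := by
  have hch : CharZero (FK F₀ v) :=
    charZero_of_injective_algebraMap (algebraMap F₀ (FK F₀ v)).injective
  obtain ⟨L, hL⟩ := exists_ldI v
  have h1 : V.comap (algebraMap (FK F₀ v) _) = Ok L := by
    rw [hV]
    exact SetLike.ext fun x => (hL x).symm
  obtain rfl := v_uniq L V h1
  obtain ⟨rfl, hU⟩ := urp_unr hu
  exact locV hN (gi_of hG) (sm_of hG hp) hp

/-- **Almost all places.** -/
theorem fin_all {F : Type} [Field F] [NumberField F] {N n : ℕ} {G : MvPolynomial (Fin N) F}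
    (hN : 4 ≤ N) (h2 : 2 ≤ n) (hG : G.IsHomogeneous n) (hs : Smh G) :
    {v : HeightOneSpectrum (𝓞 F) | ¬ ∀ V : ValuationSubring (AlgebraicClosure (FK F v)),
      V.comap (algebraMap (FK F v) _) = CV.Iv v → Dvk G V (FK F v)}.Finite := by
  refine (almost h2 hG hs).subset fun v hv h => hv fun V hV => ?_
  obtain ⟨h3, p, hp, hu⟩ := h V hV
  exact fin_loc hV hu hp hN h3

end GM
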