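import Pool.Agent.Lib.MP_f80667_ag.Gm.GxA

/-! Normalized coordinates of congruent points. -/

open ZC BE PE CV IntermediateField

namespace GM

variable {F : Type} [Field F] {N n : ℕ} {G : MvPolynomial (Fin N) F} {K Ω : Type} [Field K]
  [Field Ω] [Algebra K Ω] [Algebra F K] [Algebra F Ω] [IsScalarTower F K Ω] {L : Ld K Ω}

private theorem nrh_dv {r : ℝ} {x x' : Fin N → Ω} {i : Fin N} (hi : L.nm (x i) = 1)
    (hi' : L.nm (x' i) = 1) (hx' : ∀ j, L.nm (x' j) ≤ 1) (h : ∀ j, L.nm (x j - x' j) ≤ r)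
    (j : Fin N) : L.nm ((x i)⁻¹ * x j - (x' i)⁻¹ * x' j) ≤ r := by
  have h0 : x i ≠ 0 := L.ne_zero (by rw [hi]; exact zero_lt_one)
  have h0' : x' i ≠ 0 := L.ne_zero (by rw [hi']; exact zero_lt_one)
  have e : (x i)⁻¹ * x j - (x' i)⁻¹ * x' j =
      (x i)⁻¹ * (x' i)⁻¹ * ((x j - x' j) * x' i - x' j * (x i - x' i)) := by
    field_simp
    ring
  rw [e, L.mul, L.mul, L.inv, L.inv, hi, hi', inv_one, one_mul, one_mul]
  refine (L.sub _ _).trans (max_le ?_ ?_)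
  · rw [L.mul, hi', mul_one]
    exact h j
  · rw [L.mul]
    exact (mul_le_of_le_one_left (L.nonneg _) (hx' j)).trans (h i)

private theorem nrh_cl {r : ℝ} (hr : r < 1) {x x' : Ω} (hi : L.nm x = 1)
    (h : L.nm (x - x') ≤ r) : L.nm x' = 1 := by
  have h1 : L.nm (x' - x) < L.nm x := by
    rw [L.sub_comm, hi]
    exact h.trans_lt hr
  rw [L.eq_of_close h1, hi]

private theorem nrh_le {x : Fin N → Ω} {i : Fin N} (hi : L.nm (x i) = 1)
    (hx : ∀ j, L.nm (x j) ≤ 1) (j : Fin N) : L.nm ((x i)⁻¹ * x j) ≤ 1 := by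
  rw [L.mul, L.inv, hi, inv_one, one_mul]
  exact hx j

/-- Normalized coordinates of two congruent points. Proof: `x`, `x'` the coordinates of the definition, `nm (x i) = 1`, so
`nm (x' i) = 1`; divide by `x i` and `x' i` (`co_smul`); `x j / x i - x' j / x' i = ((x j - x' j) x' i - x' j (x i - x' i)) / (x i x' i)`. -/
theorem nrh_nco (hG : G.IsHomogeneous n) {r : ℝ} (hr : r < 1) {P P' : (Xh G).pt Ω}
    (h : Nrh G L r P P') : ∃ (x x' : Fin N → Ω) (i : Fin N), Co P x ∧ Co P' x' ∧ x i = 1 ∧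
      x' i = 1 ∧ (∀ j, L.nm (x j) ≤ 1) ∧ (∀ j, L.nm (x' j) ≤ 1) ∧ ∀ j, L.nm (x j - x' j) ≤ r := by
  obtain ⟨x, x', h1, h2, h3, h4, ⟨i, h5⟩, -, h7⟩ := h
  have h6 : L.nm (x' i) = 1 := nrh_cl hr h5 (h7 i)
  have h0 : x i ≠ 0 := L.ne_zero (by rw [h5]; exact zero_lt_one)
  have h0' : x' i ≠ 0 := L.ne_zero (by rw [h6]; exact zero_lt_one)
  exact ⟨fun j => (x i)⁻¹ * x j, fun j => (x' i)⁻¹ * x' j, i, co_smul hG h1 (inv_ne_zero h0),
    co_smul hG h2 (inv_ne_zero h0'), inv_mul_cancel₀ h0, inv_mul_cancel₀ h0',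
    fun j => nrh_le h5 h3 j, fun j => nrh_le h6 h4 j, fun j => nrh_dv h5 h6 h4 h7 j⟩

/-- For given normalized coordinates. Proof: `nrh_nco`; both systems of coordinates are multiples of those by the units `x i` (`x`
the coordinates of `nrh_nco`), see `nrh_nco`. -/
theorem nrh_one (hG : G.IsHomogeneous n) {r : ℝ} (hr : r < 1) {P P' : (Xh G).pt Ω}
    (h : Nrh G L r P P') {x x' : Fin N → Ω} (hx : Co P x) (hx' : Co P' x') {i : Fin N}
    (hi : x i = 1) (hi' : x' i = 1) (h1 : ∀ j, L.nm (x j) ≤ 1) (h1' : ∀ j, L.nm (x' j) ≤ 1)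
    (j : Fin N) : L.nm (x j - x' j) ≤ r := by
  obtain ⟨y, y', k1, k2, k3, k4, k5, -, k7⟩ := h
  obtain ⟨c, hc, hcy⟩ := co_unit k1 hx k3 h1 k5 ⟨i, by rw [hi, L.one]⟩
  have h5 : L.nm (y i) = 1 := by
    have h2 := congrArg L.nm (hcy i)
    rw [hi, L.one, L.mul, hc, one_mul] at h2
    exact h2.symm
  have h6 : L.nm (y' i) = 1 := nrh_cl hr h5 (k7 i)
  have h0 : y i ≠ 0 := L.ne_zero (by rw [h5]; exact zero_lt_one)
  have h0' : y' i ≠ 0 := L.ne_zero (by rw [h6]; exact zero_lt_one)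
  have e1 : x = fun j => (y i)⁻¹ * y j :=
    co_one hx (co_smul hG k1 (inv_ne_zero h0)) hi (inv_mul_cancel₀ h0)
  have e2 : x' = fun j => (y' i)⁻¹ * y' j :=
    co_one hx' (co_smul hG k2 (inv_ne_zero h0')) hi' (inv_mul_cancel₀ h0')
  rw [e1, e2]
  exact nrh_dv h5 h6 k4 k7 j

/-- Normalized coordinates of `P'` for given ones of `P`. Proof: as `nrh_one`: `nm (x' i) = 1` for primitive coordinates `x'` of `P'`. -/
theorem nrh_co' (hG : G.IsHomogeneous n) {r : ℝ} (hr : r < 1) {P P' : (Xh G).pt Ω}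
    (h : Nrh G L r P P') {x : Fin N → Ω} (hx : Co P x) {i : Fin N} (hi : x i = 1)
    (h1 : ∀ j, L.nm (x j) ≤ 1) :
    ∃ x' : Fin N → Ω, Co P' x' ∧ x' i = 1 ∧ (∀ j, L.nm (x' j) ≤ 1) ∧
      ∀ j, L.nm (x j - x' j) ≤ r := by
  obtain ⟨y, y', k1, k2, k3, k4, k5, -, k7⟩ := h
  obtain ⟨c, hc, hcy⟩ := co_unit k1 hx k3 h1 k5 ⟨i, by rw [hi, L.one]⟩
  have h5 : L.nm (y i) = 1 := by
    have h2 := congrArg L.nm (hcy i)
    rw [hi, L.one, L.mul, hc, one_mul] at h2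
    exact h2.symm
  have h6 : L.nm (y' i) = 1 := nrh_cl hr h5 (k7 i)
  have h0 : y i ≠ 0 := L.ne_zero (by rw [h5]; exact zero_lt_one)
  have h0' : y' i ≠ 0 := L.ne_zero (by rw [h6]; exact zero_lt_one)
  have e1 : x = fun j => (y i)⁻¹ * y j :=
    co_one hx (co_smul hG k1 (inv_ne_zero h0)) hi (inv_mul_cancel₀ h0)
  refine ⟨fun j => (y' i)⁻¹ * y' j, co_smul hG k2 (inv_ne_zero h0'), inv_mul_cancel₀ h0',
    fun j => nrh_le h6 k4 j, fun j => ?_⟩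
  rw [e1]
  exact nrh_dv h5 h6 k4 k7 j

/-- Points with congruent integral coordinates, primitive for the first. -/
theorem nrh_mk {r : ℝ} (hr : r < 1) {P P' : (Xh G).pt Ω} {x x' : Fin N → Ω} (h : Co P x)
    (h' : Co P' x') (hx : ∀ i, L.nm (x i) ≤ 1) (hx' : ∀ i, L.nm (x' i) ≤ 1)
    (h1 : ∃ i, L.nm (x i) = 1) (hr' : ∀ i, L.nm (x i - x' i) ≤ r) : Nrh G L r P P' := by
  obtain ⟨i, hi⟩ := h1
  exact ⟨x, x', h, h', hx, hx', ⟨i, hi⟩, ⟨i, nrh_cl hr hi (hr' i)⟩, hr'⟩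

/-- Over an unramified field congruent points are congruent modulo `p`. Proof: `nrh_nco`, `fp_mem`, `Ld.ur_lt` for `i = 0`. -/
theorem nrh_up [CharZero K] [IsAlgClosure K Ω] [L.Unr] (hG : G.IsHomogeneous n)
    {M : IntermediateField K Ω} (hM : Um L M) {r : ℝ} (hr : r < 1) {P P' : (Xh G).pt Ω}
    (h : Nrh G L r P P') (hP : Fp (Xh G) M P) (hP' : Fp (Xh G) M P') :
    Nrh G L (L.nm (L.p : Ω)) P P' := by
  obtain ⟨x, x', i, k1, k2, k3, k4, k5, k6, k7⟩ := nrh_nco hG hr h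
  obtain ⟨N', hN', hM'⟩ := hM
  refine ⟨x, x', k1, k2, k5, k6, ⟨i, by rw [k3, L.one]⟩, ⟨i, by rw [k4, L.one]⟩, fun j => ?_⟩
  have h1 : x j - x' j ∈ L.Ur ⊥ N' :=
    hM' (sub_mem (fp_mem hP k1 k3 j) (fp_mem hP' k2 k4 j))
  have h2 := PE.Ld.ur_lt hN' h1 (i := 0) (by rw [pow_zero]; exact (k7 j).trans_lt hr)
  rwa [zero_add, pow_one] at h2

end GM
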