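import Pool.Agent.Lib.MP_f80667_ag.Gm.GxBb

/-! The root near `0` of the polynomial `G(x + Y v)`. -/

open ZC BE PE CV IntermediateField Polynomial

namespace GM

variable {F : Type} [Field F] {N n : ℕ} {G : MvPolynomial (Fin N) F} {K Ω : Type} [Field K]
  [Field Ω] [Algebra K Ω] [Algebra F K] [Algebra F Ω] [IsScalarTower F K Ω] {L : Ld K Ω}

/-- The Taylor expansion of an integral polynomial. -/
private theorem gxbc_exp {q : Polynomial Ω} (hq : ∀ j, L.nm (q.coeff j) ≤ 1) {a t : Ω}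
    (ha : L.nm a ≤ 1) (ht : L.nm t ≤ 1) :
    ∃ z, L.nm z ≤ 1 ∧ q.eval (a + t) = q.eval a + (derivative q).eval a * t + z * t ^ 2 := by
  have h1 : q ∈ Polynomial.lifts L.V.subtype := by
    rw [Polynomial.lifts_iff_coeff_lifts]
    exact fun j => ⟨⟨q.coeff j, hq j⟩, rfl⟩
  obtain ⟨P, rfl⟩ := (Polynomial.mem_lifts q).1 h1
  obtain ⟨k, hk⟩ := Polynomial.binomExpansion P (⟨a, ha⟩ : L.V) (⟨t, ht⟩ : L.V)
  refine ⟨L.V.subtype k, k.2, ?_⟩
  have h2 := congrArg L.V.subtype hk
  rw [map_add, map_add, map_mul, map_mul, map_pow, ← Polynomial.eval_map_apply,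
    ← Polynomial.eval_map_apply, ← Polynomial.eval_map_apply, ← Polynomial.derivative_map] at h2
  exact h2

private theorem gxbc_prod (s : Multiset Ω) (h : ∀ w ∈ s, 1 ≤ L.nm w) :
    1 ≤ L.nm ((s.map fun w => eval 0 (X - C w)).prod) := by
  induction s using Multiset.induction_on with
  | empty =>
    rw [Multiset.map_zero, Multiset.prod_zero, L.one]
  | cons a s ih =>
    rw [Multiset.map_cons, Multiset.prod_cons, L.mul, eval_sub, eval_X, eval_C, zero_sub, L.neg]
    have h1 := h a (Multiset.mem_cons_self a s)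
    have h2 := ih fun w hw => h w (Multiset.mem_cons_of_mem hw)
    exact one_le_mul_of_one_le_of_one_le h1 h2

private theorem gxbc_move (hG : Gi G L n) {x v : Fin N → Ω} (hx : ∀ i, L.nm (x i) ≤ 1)
    (hv : ∀ i, L.nm (v i) ≤ 1) (hd : L.nm (dGo G x v) = 1) {w : Ω} (hw : L.nm w < 1) :
    L.nm (dGo G (fun i => x i + w * v i) v) = 1 := by
  have h1 : ∀ i, L.nm (w * v i) ≤ L.nm w := fun i => by
    rw [L.mul]
    exact mul_le_of_le_one_right (L.nonneg _) (hv i)
  have h2 := dGo_close (G := G) (L := L) (x := fun i => x i + w * v i) (y := x) (v := v) hG.int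
    (fun i => (L.add _ _).trans (max_le (hx i) ((h1 i).trans hw.le))) hx hv (L.nonneg w)
    (fun i => by
      rw [add_sub_cancel_left]
      exact h1 i)
  have h3 := L.eq_of_close (x := dGo G (fun i => x i + w * v i) v) (y := dGo G x v)
    (by
      rw [hd]
      exact h2.trans_lt hw)
  rw [h3, hd]

/-- A root near `0`. Proof: `q = lp G x v` has degree `n` and leading coefficient of norm `1` (`lp_deg`), `q = G(v) ∏ (Y - w_i)` and
`nm (q 0) < 1`, so one of the `nm (w_i)` is `< 1`. -/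
theorem br_ex [IsAlgClosed Ω] (hG : Gi G L n) {x v : Fin N → Ω} (hx : ∀ i, L.nm (x i) ≤ 1)
    (hv : ∀ i, L.nm (v i) ≤ 1) (hl : L.nm (MvPolynomial.aeval v G) = 1)
    (h0 : L.nm (MvPolynomial.aeval x G) < 1) :
    ∃ w, L.nm w < 1 ∧ MvPolynomial.aeval (fun i => x i + w * v i) G = 0 := by
  have hdeg := lp_deg hG.hom x v
  have hq0 : (lp G x v).coeff n ≠ 0 := by
    rw [hdeg.2]
    exact L.ne_zero (by rw [hl]; exact zero_lt_one)
  have hqn : (lp G x v).natDegree = n := le_antisymm hdeg.1 (le_natDegree_of_ne_zero hq0)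
  have hlc : L.nm (lp G x v).leadingCoeff = 1 := by
    rw [leadingCoeff, hqn, hdeg.2, hl]
  have hne : lp G x v ≠ 0 := by
    intro h1
    rw [h1, coeff_zero] at hq0
    exact hq0 rfl
  have h1 := (IsAlgClosed.splits (lp G x v)).eq_prod_roots
  have h2 : (lp G x v).eval 0 = MvPolynomial.aeval x G := by
    rw [lp_eval]
    simp only [zero_mul, add_zero]
  by_contra hcon
  push Not at hcon
  have h3 : ∀ w ∈ (lp G x v).roots, 1 ≤ L.nm w := by
    intro w hw
    by_contra h4
    refine hcon w (not_le.1 h4) ?_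
    rw [← lp_eval]
    exact (mem_roots hne).1 hw
  have h4 := gxbc_prod (L := L) _ h3
  have h5 : (lp G x v).eval 0 = (lp G x v).leadingCoeff *
      (((lp G x v).roots.map fun w => eval 0 (X - C w)).prod) := by
    conv_lhs => rw [h1]
    rw [eval_mul, eval_C, eval_multiset_prod, Multiset.map_map]
    rfl
  rw [← h2, h5, L.mul, hlc, one_mul] at h0
  exact absurd h4 (not_le.2 h0)

/-- Proof: `q w - q w' = (w - w') (q'(w) + (w - w') z)`, `z` integral (`Polynomial.binomExpansion`), `q'` from `lp_deriv`, `dGo_close`. -/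
theorem br_uniq (hG : Gi G L n) {x v : Fin N → Ω} (hx : ∀ i, L.nm (x i) ≤ 1)
    (hv : ∀ i, L.nm (v i) ≤ 1) (hd : L.nm (dGo G x v) = 1) {w w' : Ω} (hw : L.nm w < 1)
    (hw' : L.nm w' < 1) (h : MvPolynomial.aeval (fun i => x i + w * v i) G = 0)
    (h' : MvPolynomial.aeval (fun i => x i + w' * v i) G = 0) : w = w' := by
  have hwt : L.nm (w - w') < 1 := (L.sub w w').trans_lt (max_lt hw hw')
  obtain ⟨z, hz, h1⟩ := gxbc_exp (L := L) (lp_int hG.int hx hv) hw'.le hwt.le
  rw [add_sub_cancel, lp_eval, lp_eval, h, h', zero_add, lp_deriv] at h1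
  have h2 := gxbc_move hG hx hv hd hw'
  have h3 : L.nm (z * (w - w')) < 1 := by
    rw [L.mul]
    exact mul_lt_one_of_nonneg_of_lt_one_right hz (L.nonneg _) hwt
  have h4 : L.nm (dGo G (fun i => x i + w' * v i) v + z * (w - w')) = 1 := by
    rw [L.add_eq' (by rw [h2]; exact h3), h2]
  have h5 : (dGo G (fun i => x i + w' * v i) v + z * (w - w')) * (w - w') = 0 := by
    rw [h1]
    ring
  rcases mul_eq_zero.1 h5 with h6 | h6
  · rw [h6, L.zero] at h4
    exact absurd h4 zero_ne_one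
  · exact sub_eq_zero.1 h6

/-- Proof: `0 = q w = q 0 + w (q'(0) + w z)`, `z` integral. -/
theorem br_le (hG : Gi G L n) {x v : Fin N → Ω} (hx : ∀ i, L.nm (x i) ≤ 1)
    (hv : ∀ i, L.nm (v i) ≤ 1) (hd : L.nm (dGo G x v) = 1) {w : Ω} (hw : L.nm w < 1)
    (h : MvPolynomial.aeval (fun i => x i + w * v i) G = 0) :
    L.nm w ≤ L.nm (MvPolynomial.aeval x G) := by
  obtain ⟨z, hz, h1⟩ := gxbc_exp (L := L) (lp_int hG.int hx hv) (a := 0)
    (by rw [L.zero]; exact zero_le_one) hw.le
  have h0 : (fun i => x i + 0 * v i) = x := funext fun i => by rw [zero_mul, add_zero]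
  rw [zero_add, lp_eval, lp_eval, h, lp_deriv, h0] at h1
  have h3 : L.nm (z * w) < 1 := by
    rw [L.mul]
    exact mul_lt_one_of_nonneg_of_lt_one_right hz (L.nonneg _) hw
  have h4 : L.nm (dGo G x v + z * w) = 1 := by
    rw [L.add_eq' (by rw [hd]; exact h3), hd]
  have h5 : MvPolynomial.aeval x G = -((dGo G x v + z * w) * w) := by
    linear_combination -h1
  rw [h5, L.neg, L.mul, h4, one_mul]

end GM
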