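import Pool.Agent.Lib.MP_f80667_ag.Gm.GxBc
import Pool.Agent.Lib.MP_f80667_ag.Gm.GxAb

/-! The branch of an arc. -/

open ZC BE PE CV IntermediateField Polynomial

namespace GM

variable {F : Type} [Field F] {N n : ℕ} {G : MvPolynomial (Fin N) F} {K Ω : Type} [Field K]
  [Field Ω] [Algebra K Ω] [Algebra F K] [Algebra F Ω] [IsScalarTower F K Ω] {L : Ld K Ω}

private theorem gxbd_add (L : Ld K Ω) {x v : Fin N → Ω} (hx : ∀ i, L.nm (x i) ≤ 1)
    (hv : ∀ i, L.nm (v i) ≤ 1) {w : Ω} (hw : L.nm w ≤ 1) (i : Fin N) :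
    L.nm (x i + w * v i) ≤ 1 := by
  refine (L.add _ _).trans (max_le (hx i) ?_)
  rw [L.mul]
  exact mul_le_one₀ hw (L.nonneg _) (hv i)

private theorem gxbd_max (L : Ld K Ω) {x : Fin N → Ω} (h : ∀ i, L.nm (x i) < 1) :
    ∃ r : ℝ, 0 ≤ r ∧ r < 1 ∧ ∀ i, L.nm (x i) ≤ r := by
  let f : Fin N → NNReal := fun i => ⟨L.nm (x i), L.nonneg _⟩
  have h1 : Finset.univ.sup f < 1 := (Finset.sup_lt_iff zero_lt_one).2 fun i _ => h i
  refine ⟨(Finset.univ.sup f : NNReal), NNReal.coe_nonneg _, NNReal.coe_lt_one.2 h1, fun i => ?_⟩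
  have h2 : f i ≤ Finset.univ.sup f := Finset.le_sup (Finset.mem_univ i)
  exact NNReal.coe_le_coe.2 h2

private theorem gxbd_lt (L : Ld K Ω) {x y : Ω} {r : ℝ} (hr : r < 1) (h : L.nm (x - y) ≤ r)
    (hy : L.nm y < 1) : L.nm x < 1 := by
  have h1 := L.add (x - y) y
  rw [sub_add_cancel] at h1
  exact h1.trans_lt (max_lt (h.trans_lt hr) hy)

/-- Good lines at congruent points. Proof: `ae_close`, `dGo_close`. -/
theorem gl_close (hG : Gi G L n) {x y v : Fin N → Ω} (hx : ∀ i, L.nm (x i) ≤ 1)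
    (hy : ∀ i, L.nm (y i) ≤ 1) (hv : ∀ i, L.nm (v i) ≤ 1) (h : ∀ i, L.nm (x i - y i) < 1)
    (hl : Gl G L x v) : Gl G L y v := by
  obtain ⟨r, hr0, hr1, hr⟩ := gxbd_max L h
  refine ⟨hl.lead, fun w hw h1 => ?_⟩
  have h2 : ∀ i, L.nm ((x i + w * v i) - (y i + w * v i)) ≤ r := fun i => by
    rw [add_sub_add_right_eq_sub]
    exact hr i
  have h3 := ae_close hG.int (gxbd_add L hx hv hw) (gxbd_add L hy hv hw) hr0 h2
  have h4 := dGo_close hG.int (gxbd_add L hx hv hw) (gxbd_add L hy hv hw) hv hr0 h2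
  have h5 := hl.sep w hw (gxbd_lt L hr1 h3 h1)
  have h6 : L.nm (dGo G (fun i => y i + w * v i) v) = L.nm (dGo G (fun i => x i + w * v i) v) := by
    refine L.eq_of_close ?_
    rw [L.sub_comm, h5]
    exact h4.trans_lt hr1
  rw [h6, h5]

/-- Proof: the definition for `w = 0`. -/
theorem gl_dGo {x v : Fin N → Ω} (hl : Gl G L x v) (h0 : L.nm (MvPolynomial.aeval x G) < 1) :
    L.nm (dGo G x v) = 1 := by
  have h1 := hl.sep 0 (by rw [L.zero]; exact zero_le_one)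
  simp only [zero_mul, add_zero] at h1
  exact h1 h0

/-- **The branch of an arc.** Proof: for `nm c < 1` the number `w` is unique (`br_ex`, `br_uniq` for `x = a(c)`, which is congruent to `a(0)`:
`Polynomial.eval` is continuous, `L.eval_close`); the coordinates are not all `0` (`dGo_prim`). For `γ ∈ M.fixingSubgroup` the number `γ w` is the root above `γ c`. -/
theorem exists_br [CharZero K] [IsAlgClosure K Ω] (hG : Gi G L n) {M : IntermediateField K Ω}
    {a : Fin N → Polynomial Ω} (ha : Arc L M a) {v : Fin N → Ω} (hv : Iv L M v)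
    (hl : Gl G L (fun i => (a i).eval 0) v)
    (hx : L.nm (MvPolynomial.aeval (fun i => (a i).eval 0) G) < 1) :
    ∃ P : Ω → (Xh G).pt Ω, (∀ c, L.nm c < 1 → ∃ w, L.nm w < 1 ∧ Co (P c) (ac a v c w)) ∧
      (∀ γ ∈ M.fixingSubgroup, ∀ c, L.nm c < 1 → (Xh G).act γ (P c) = P (γ c)) ∧
      ∀ c, L.nm c < 1 → ∀ Q : (Xh G).pt Ω, Co Q (fun i => (a i).eval c) → Q = P c := by
  have hac : IsAlgClosed Ω := IsAlgClosure.isAlgClosed K
  have hv' : ∀ i, L.nm (v i) ≤ 1 := fun i => (hv i).2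
  have ha' : ∀ i j, L.nm ((a i).coeff j) ≤ 1 := fun i j => (ha i j).2
  have h0 : L.nm (0 : Ω) < 1 := by
    rw [L.zero]
    exact zero_lt_one
  have he : ∀ c, L.nm c < 1 → ∀ i, L.nm ((a i).eval c) ≤ 1 := fun c hc i =>
    L.eval_le (ha' i) hc.le
  have hle : ∀ c, L.nm c < 1 → ∀ i, L.nm ((a i).eval c - (a i).eval 0) ≤ L.nm c :=
    fun c hc i => by
      have h1 := L.eval_close (ha' i) hc.le h0.le
      rwa [sub_zero] at h1
  have hgl : ∀ c, L.nm c < 1 → Gl G L (fun i => (a i).eval c) v := fun c hc =>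
    gl_close hG (he 0 h0) (he c hc) hv' (fun i => by
      rw [L.sub_comm]
      exact (hle c hc i).trans_lt hc) hl
  have hx' : ∀ c, L.nm c < 1 → L.nm (MvPolynomial.aeval (fun i => (a i).eval c) G) < 1 :=
    fun c hc => gxbd_lt L hc (ae_close hG.int (he c hc) (he 0 h0) (L.nonneg c) (hle c hc)) hx
  have hd : ∀ c, L.nm c < 1 → L.nm (dGo G (fun i => (a i).eval c) v) = 1 := fun c hc =>
    gl_dGo (hgl c hc) (hx' c hc)
  have hw : ∀ c, L.nm c < 1 → ∃ w, L.nm w < 1 ∧ MvPolynomial.aeval (ac a v c w) G = 0 :=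
    fun c hc => br_ex hG (he c hc) hv' hl.lead (hx' c hc)
  have hpr : ∀ c, L.nm c < 1 → ∀ w, L.nm w < 1 → MvPolynomial.aeval (ac a v c w) G = 0 →
      ∃ P : (Xh G).pt Ω, Co P (ac a v c w) := by
    intro c hc w hw h
    refine co_mk ?_ h
    intro hz
    have h1 : L.nm (dGo G (ac a v c w) v) = 1 := by
      refine (hgl c hc).sep w hw.le ?_
      change L.nm (MvPolynomial.aeval (ac a v c w) G) < 1
      rw [h]
      exact h0
    obtain ⟨i, hi⟩ := dGo_prim hG (gxbd_add L (he c hc) hv' hw.le) hv' h1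
    have h2 : L.nm (ac a v c w i) = 1 := hi
    rw [hz] at h2
    have h3 : L.nm (0 : Ω) = 1 := h2
    exact h0.ne h3
  have hex : ∀ c, ∃ P : (Xh G).pt Ω, L.nm c < 1 → ∃ w, L.nm w < 1 ∧ Co P (ac a v c w) := by
    intro c
    by_cases hc : L.nm c < 1
    · obtain ⟨w, h1, h2⟩ := hw c hc
      obtain ⟨P, hP⟩ := hpr c hc w h1 h2
      exact ⟨P, fun _ => ⟨w, h1, hP⟩⟩
    · obtain ⟨w, h1, h2⟩ := hw 0 h0
      obtain ⟨P, hP⟩ := hpr 0 h0 w h1 h2
      exact ⟨P, fun h => absurd h hc⟩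
  choose P hP using hex
  have hun : ∀ c, L.nm c < 1 → ∀ w w', L.nm w < 1 → L.nm w' < 1 →
      MvPolynomial.aeval (ac a v c w) G = 0 → MvPolynomial.aeval (ac a v c w') G = 0 → w = w' :=
    fun c hc w w' h1 h2 h3 h4 => br_uniq hG (he c hc) hv' (hd c hc) h1 h2 h3 h4
  refine ⟨P, hP, ?_, ?_⟩
  · intro γ hγ c hc
    obtain ⟨w, h1, h2⟩ := hP c hc
    have hc' : L.nm (γ c) < 1 := by
      rw [L.act]
      exact hc
    obtain ⟨w', h1', h2'⟩ := hP (γ c) hc'
    have h3 := co_act γ h2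
    have hfix : ∀ z ∈ M, γ z = z := fun z hz =>
      (IntermediateField.mem_fixingSubgroup_iff M γ).1 hγ z hz
    have h4 : (fun i => γ (ac a v c w i)) = ac a v (γ c) (γ w) := by
      funext i
      change γ ((a i).eval c + w * v i) = (a i).eval (γ c) + γ w * v i
      rw [map_add, map_mul, hfix _ (hv i).1, eval_eq_sum_range, eval_eq_sum_range, map_sum]
      congr 1
      refine Finset.sum_congr rfl fun j _ => ?_
      rw [map_mul, map_pow, hfix _ (ha i j).1]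
    rw [h4] at h3
    have h5 : γ w = w' := hun _ hc' _ _ (by rw [L.act]; exact h1) h1' (co_zero h3) (co_zero h2')
    rw [h5] at h3
    exact co_eq h3 h2'
  · intro c hc Q hQ
    obtain ⟨w, h1, h2⟩ := hP c hc
    have h3 : (fun i => (a i).eval c) = ac a v c 0 := by
      funext i
      change (a i).eval c = (a i).eval c + 0 * v i
      rw [zero_mul, add_zero]
    rw [h3] at hQ
    have h4 : (0 : Ω) = w := hun c hc 0 w h0 h1 (co_zero hQ) (co_zero h2)
    rw [← h4] at h2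
    exact co_eq hQ h2

end GM
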