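import Pool.Agent.Lib.MP_f80667_ag.Gm.GeA
import Pool.Agent.Lib.MP_f80667_ag.Gm.GxBd
import Pool.Agent.Lib.MP_f80667_ag.Gm.GxC

/-! The relation of three points on an arc (JEN). -/

open ZC BE PE CV IntermediateField Polynomial

namespace GM

variable {F : Type} [Field F] {N n : ℕ} {G : MvPolynomial (Fin N) F} {K Ω : Type} [Field K]
  [CharZero K] [Field Ω] [Algebra K Ω] [Algebra F K] [Algebra F Ω] [IsScalarTower F K Ω]
  [IsAlgClosure K Ω] {L : Ld K Ω}

/-- `p` is a uniformizer of an unramified field. Proof: `Ld.ur_unr`. -/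
theorem um_val [L.Unr] {M : IntermediateField K Ω} (hM : Um L M) :
    ∀ x ∈ M, x ≠ 0 → ∃ k : ℤ, L.nm x = L.nm (L.p : Ω) ^ k := by
  obtain ⟨N', hN', hM'⟩ := hM
  exact fun x hx h0 => Ld.ur_unr hN' (hM' hx) h0

/-- Congruent points over `M` are congruent to order `s` if their coordinates are. Proof: `nrh_mk`, `dsp_pt`. -/
theorem dl_pt [L.Unr] {M : IntermediateField K Ω} [FiniteDimensional K M] {s : ℕ}
    {P P' : (Xh G).pt Ω} (hP : Fp (Xh G) M P) (hP' : Fp (Xh G) M P')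
    (h : Nrh G L (L.nm (L.p : Ω) ^ s) P P') :
    (Finsupp.single P 1 - Finsupp.single P' 1 : (Xh G).pt Ω →₀ ℤ) ∈ Dl G L s M :=
  dsp_pt hP hP' h

private theorem gxe_coeff {Ω : Type} [Field Ω] (s t : Ω) (i : ℕ) :
    ((X - C s) * (X - C t) : Polynomial Ω).coeff i =
      if i = 0 then s * t else if i = 1 then -(s + t) else if i = 2 then 1 else 0 := by
  have h1 : ((X - C s) * (X - C t) : Polynomial Ω) = X ^ 2 + C (-(s + t)) * X + C (s * t) := by
    rw [C_neg, C_add, C_mul]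
    ring
  rw [h1, coeff_add, coeff_add, coeff_X_pow, coeff_C_mul, coeff_X, coeff_C]
  by_cases h0 : i = 0
  · subst h0
    simp
  · by_cases h2 : i = 1
    · subst h2
      simp
    · by_cases h3 : i = 2
      · subst h3
        simp
      · rw [if_neg h3, if_neg (Ne.symm h2), if_neg h0, if_neg h0, if_neg h2]
        ring

private theorem gxe_deg {Ω : Type} [Field Ω] (s t : Ω) :
    ((X - C s) * (X - C t) : Polynomial Ω).natDegree = 2 := by
  rw [natDegree_mul (X_sub_C_ne_zero s) (X_sub_C_ne_zero t), natDegree_X_sub_C,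
    natDegree_X_sub_C]

private theorem gxe_dpo {K Ω : Type} [Field K] [Field Ω] [Algebra K Ω]
    {L : Ld K Ω} {M : IntermediateField K Ω} {s t : Ω}
    (hs : s ∈ M) (ht : t ∈ M) (hs1 : L.nm s < 1) (ht1 : L.nm t < 1) :
    Dpo L M ((X - C s) * (X - C t)) where
  monic := (monic_X_sub_C s).mul (monic_X_sub_C t)
  mem i := by
    rw [gxe_coeff]
    split_ifs
    · exact mul_mem hs ht
    · exact neg_mem (add_mem hs ht)
    · exact one_mem M
    · exact zero_mem M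
  lt i hi := by
    rw [gxe_deg] at hi
    rw [gxe_coeff]
    split_ifs
    · rw [L.mul]
      exact mul_lt_one_of_nonneg_of_lt_one_left (L.nonneg _) hs1 ht1.le
    · rw [L.neg]
      exact (L.add _ _).trans_lt (max_lt hs1 ht1)
    · omega
    · rw [L.zero]
      exact zero_lt_one

private theorem gxe_two {K Ω : Type} [Field K] [Field Ω] [Algebra K Ω]
    {L : Ld K Ω} (hp : 2 < L.p) : L.nm (2 : Ω) = 1 := by
  have h1 : ¬ L.p ∣ 2 := fun h => absurd (Nat.le_of_dvd two_pos h) (not_le.2 hp)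
  have h2 := L.nat_unit h1
  rwa [Nat.cast_ofNat] at h2

private theorem gxe_half {K Ω : Type} [Field K] [Field Ω] [Algebra K Ω]
    {L : Ld K Ω} (hp : 2 < L.p) (x : Ω) : L.nm (x / 2) = L.nm x := by
  rw [L.div, gxe_two hp, div_one]

/-- The value of the branch at the midpoint. `φ = aeval a G` has integral coefficients and the zeros `0` and `p`, so `φ = z (z - p) ψ`, `ψ` integral (`Polynomial.divByMonic`
by the monic polynomial `z (z - p)`, or: `φ(p/2) = φ(0) + ...`), `nm (φ(p / 2)) ≤ nm p ^ 2`. -/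
theorem mid_le (hp : 2 < L.p) {φ : Polynomial Ω} (hφ : ∀ j, L.nm (φ.coeff j) ≤ 1)
    (h0 : φ.eval 0 = 0) (h1 : φ.eval (L.p : Ω) = 0) :
    L.nm (φ.eval ((L.p : Ω) / 2)) ≤ L.nm (L.p : Ω) ^ 2 := by
  have hpos := L.p_pos
  have hp0 : (L.p : Ω) ≠ 0 := L.ne_zero hpos
  have hle : L.nm (L.p : Ω) ≤ 1 := L.lt.le
  obtain ⟨ψ, rfl⟩ : X ∣ φ := by
    rw [X_dvd_iff, coeff_zero_eq_eval_zero]
    exact h0
  rw [eval_mul, eval_X, mul_eq_zero] at h1
  have h2 := h1.resolve_left hp0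
  have hψ : ∀ j, L.nm (ψ.coeff j) ≤ 1 := fun j => by
    have h3 := hφ (j + 1)
    rwa [coeff_X_mul] at h3
  have h3 := L.eval_close hψ (x := (L.p : Ω) / 2) (y := (L.p : Ω))
    (by rw [gxe_half hp]; exact hle) hle
  have h20 : (2 : Ω) ≠ 0 := L.ne_zero (by rw [gxe_two hp]; exact zero_lt_one)
  have h4 : (L.p : Ω) / 2 - L.p = -((L.p : Ω) / 2) := by
    field_simp
    ring
  rw [h2, sub_zero, h4, L.neg, gxe_half hp] at h3
  rw [eval_mul, eval_X, L.mul, gxe_half hp, pow_two]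
  exact mul_le_mul_of_nonneg_left h3 hpos.le

/-- **JEN.** Proof: the arc `a i = x₁ i + z (x₂ i - x₁ i) / p`, the branch `P` (`exists_br`), `la` with `π = p`, `l = 1`, `u = 0`, `s = 2`, `f = X (X - p)`,
`g = (X - p / 2) ^ 2` (`f - g = - p ^ 2 / 4`, `nm 4 = 1`). `P 0 = P₁`, `P p = P₂` (third property of `exists_br`). `P (p / 2)` has the
coordinates `a(p/2) + w v`, `nm w ≤ nm G(a(p/2)) ≤ nm p ^ 2` (`br_le`, `ae_eval`, `lp_arc`, `mid_le`), so it is congruent to `P₃` modulo `p ^ 2` (`nrh_mk`, `dGo_prim`); it is a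
point over `M` by the second property. `rcy_mul`, `rcy_X_sub`. -/
theorem gx_jen [L.Unr] (hG : Gi G L n) (hp : 2 < L.p) {M : IntermediateField K Ω} (hM : Um L M)
    {v : Fin N → Ω} (hv : Iv L M v) {x₁ x₂ x₃ : Fin N → Ω} (h₁ : Iv L M x₁) (h₂ : Iv L M x₂)
    (h₃ : Iv L M x₃) (hl : Gl G L x₁ v) (h₁₂ : ∀ i, L.nm (x₂ i - x₁ i) ≤ L.nm (L.p : Ω))
    (h₁₃ : ∀ i, L.nm (2 * x₃ i - x₁ i - x₂ i) ≤ L.nm (L.p : Ω) ^ 2) {P₁ P₂ P₃ : (Xh G).pt Ω}
    (hP₁ : Co P₁ x₁) (hP₂ : Co P₂ x₂) (hP₃ : Co P₃ x₃) :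
    (Finsupp.single P₁ 1 + Finsupp.single P₂ 1 - Finsupp.single P₃ 2 : (Xh G).pt Ω →₀ ℤ) ∈
      Dl G L 2 M ⊔ (Xh G).ratEq M Ω := by
  have hfd : FiniteDimensional K M := hM.fd
  have hpos := L.p_pos
  have hp0 : (L.p : Ω) ≠ 0 := L.ne_zero hpos
  have hle : L.nm (L.p : Ω) ≤ 1 := L.lt.le
  have hpM : (L.p : Ω) ∈ M := IntermediateField.natCast_mem M L.p
  have h2M : (2 : Ω) ∈ M := by
    have h := IntermediateField.natCast_mem M 2
    rwa [Nat.cast_ofNat] at h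
  have h2n := gxe_two hp
  have h20 : (2 : Ω) ≠ 0 := L.ne_zero (by rw [h2n]; exact zero_lt_one)
  have hsq : L.nm (L.p : Ω) ^ 2 ≤ L.nm (L.p : Ω) := by
    rw [pow_two]
    exact mul_le_of_le_one_left hpos.le hle
  have hsq1 : L.nm (L.p : Ω) ^ 2 < 1 := hsq.trans_lt L.lt
  have hvi : ∀ i, L.nm (v i) ≤ 1 := fun i => (hv i).2
  have hx1 : ∀ i, L.nm (x₁ i) ≤ 1 := fun i => (h₁ i).2
  have hx2 : ∀ i, L.nm (x₂ i) ≤ 1 := fun i => (h₂ i).2
  have hx3 : ∀ i, L.nm (x₃ i) ≤ 1 := fun i => (h₃ i).2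
  -- the arc
  obtain ⟨a, ha⟩ : ∃ a : Fin N → Polynomial Ω, ∀ i, a i =
      C ((x₂ i - x₁ i) / L.p) * X + C (x₁ i) := ⟨_, fun _ => rfl⟩
  have hae : ∀ i c, (a i).eval c = (x₂ i - x₁ i) / L.p * c + x₁ i := fun i c => by
    rw [ha, eval_add, eval_mul, eval_C, eval_X, eval_C]
  have ha0 : (fun i => (a i).eval 0) = x₁ := funext fun i => by rw [hae]; ring
  have hap : (fun i => (a i).eval (L.p : Ω)) = x₂ := funext fun i => by
    rw [hae, div_mul_cancel₀ _ hp0]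
    ring
  have hah : ∀ i, (a i).eval ((L.p : Ω) / 2) = (x₁ i + x₂ i) / 2 := fun i => by
    rw [hae]
    field_simp
    ring
  have hdn : ∀ i, L.nm ((x₂ i - x₁ i) / L.p) ≤ 1 := fun i => by
    rw [L.div, div_le_one hpos]
    exact h₁₂ i
  have hArc : Arc L M a := by
    intro i j
    rw [ha, coeff_add, coeff_C_mul, coeff_X, coeff_C]
    rcases j with _ | _ | j
    · simp only [if_neg (show ¬ (1 = 0) by omega), if_true, mul_zero, zero_add]
      exact h₁ i
    · simp only [zero_add, if_true, if_neg (show ¬ (1 = 0) by omega), mul_one, add_zero]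
      exact ⟨div_mem (sub_mem (h₂ i).1 (h₁ i).1) hpM, hdn i⟩
    · rw [if_neg (by omega), if_neg (by omega), mul_zero, add_zero]
      exact ⟨zero_mem M, by rw [L.zero]; exact zero_le_one⟩
  have hl0 : Gl G L (fun i => (a i).eval 0) v := by
    rw [ha0]
    exact hl
  have hz1 := co_zero hP₁
  have hz2 := co_zero hP₂
  have hz3 := co_zero hP₃
  have hx0 : L.nm (MvPolynomial.aeval (fun i => (a i).eval 0) G) < 1 := by
    rw [ha0, hz1, L.zero]
    exact zero_lt_one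
  obtain ⟨P, hPa, hPb, hPc⟩ := exists_br hG hArc hv hl0 hx0
  have hP0 : P₁ = P 0 := hPc 0 (by rw [L.zero]; exact zero_lt_one) P₁ (by rw [ha0]; exact hP₁)
  have hPp : P₂ = P (L.p : Ω) := hPc _ L.lt P₂ (by rw [hap]; exact hP₂)
  have hph : L.nm ((L.p : Ω) / 2) < 1 := by
    rw [gxe_half hp]
    exact L.lt
  -- the moving lemma
  obtain ⟨z, hz, hz'⟩ := la hG hpM hpos L.lt (um_val hM) hArc hv hl0 hx0 hPa
    (gxe_dpo (zero_mem M) hpM (by rw [L.zero]; exact zero_lt_one) L.lt)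
    (gxe_dpo (div_mem hpM h2M) (div_mem hpM h2M) hph hph)
    (by rw [gxe_deg, gxe_deg]) (l := 1) (u := 0) (s := 2) (Or.inl ⟨rfl, rfl, two_ne_zero⟩)
    (fun i => by
      rw [gxe_coeff, gxe_coeff, add_zero]
      split_ifs
      · have h5 : (0 : Ω) * L.p - L.p / 2 * (L.p / 2) = -(L.p * L.p / (2 * 2)) := by
          field_simp
          ring
        rw [h5, L.neg, L.div, L.mul, L.mul, h2n, pow_two]
        simp
      · have h5 : -(0 + (L.p : Ω)) - -((L.p : Ω) / 2 + L.p / 2) = 0 := by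
          field_simp
          ring
        rw [h5, L.zero]
        exact pow_nonneg hpos.le 2
      · rw [sub_self, L.zero]
        exact pow_nonneg hpos.le 2
      · rw [sub_self, L.zero]
        exact pow_nonneg hpos.le 2)
  rw [rcy_mul _ (X_sub_C_ne_zero _) (X_sub_C_ne_zero _),
    rcy_mul _ (X_sub_C_ne_zero _) (X_sub_C_ne_zero _), rcy_X_sub, rcy_X_sub, rcy_X_sub, ← hP0,
    ← hPp, one_smul] at hz'
  -- the midpoint
  obtain ⟨w, hw, hPw⟩ := hPa _ hph
  obtain ⟨y, hy⟩ : ∃ y : Fin N → Ω, ∀ i, y i = (x₁ i + x₂ i) / 2 := ⟨_, fun _ => rfl⟩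
  have hay : (fun i => (a i).eval ((L.p : Ω) / 2)) = y := funext fun i => by rw [hah, hy]
  have hyi : ∀ i, L.nm (y i) ≤ 1 := fun i => by
    rw [hy, gxe_half hp]
    exact (L.add _ _).trans (max_le (hx1 i) (hx2 i))
  have hyx : ∀ i, L.nm (x₁ i - y i) < 1 := fun i => by
    have h5 : x₁ i - y i = -((x₂ i - x₁ i) / 2) := by
      rw [hy]
      field_simp
      ring
    rw [h5, L.neg, gxe_half hp]
    exact (h₁₂ i).trans_lt L.lt
  have hGy : L.nm (MvPolynomial.aeval y G) ≤ L.nm (L.p : Ω) ^ 2 := by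
    have h5 := mid_le hp (φ := MvPolynomial.aeval a G)
      (lp_arc hG.int (fun i j => (hArc i j).2))
      (by rw [ae_eval, ha0, hz1]) (by rw [ae_eval, hap, hz2])
    rwa [ae_eval, hay] at h5
  have hly := gl_close hG hx1 hyi hvi hyx hl
  have hdy := gl_dGo hly (hGy.trans_lt hsq1)
  have hwz : MvPolynomial.aeval (fun i => y i + w * v i) G = 0 := by
    have h5 := co_zero hPw
    have h6 : ac a v ((L.p : Ω) / 2) w = fun i => y i + w * v i := funext fun i => by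
      rw [ac, hah, hy]
    rwa [h6] at h5
  have hwn : L.nm w ≤ L.nm (L.p : Ω) ^ 2 := (br_le hG hyi hvi hdy hw hwz).trans hGy
  -- the third point
  have h13 : ∀ i, L.nm (y i - x₃ i) ≤ L.nm (L.p : Ω) ^ 2 := fun i => by
    have h5 : y i - x₃ i = -((2 * x₃ i - x₁ i - x₂ i) / 2) := by
      rw [hy]
      field_simp
      ring
    rw [h5, L.neg, gxe_half hp]
    exact h₁₃ i
  have hx13 : ∀ i, L.nm (x₁ i - x₃ i) < 1 := fun i => by
    have h5 : x₁ i - x₃ i = (x₁ i - y i) + (y i - x₃ i) := by ring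
    rw [h5]
    exact (L.add _ _).trans_lt (max_lt (hyx i) ((h13 i).trans_lt hsq1))
  have hl3 := gl_close hG hx1 hx3 hvi hx13 hl
  have hd3 := gl_dGo hl3 (by rw [hz3, L.zero]; exact zero_lt_one)
  have hpr := dGo_prim hG hx3 hvi hd3
  have hn : Nrh G L (L.nm (L.p : Ω) ^ 2) P₃ (P ((L.p : Ω) / 2)) := by
    refine nrh_mk hsq1 hP₃ hPw hx3 (fun i => ?_) hpr (fun i => ?_)
    · rw [ac, hah, ← hy]
      refine (L.add _ _).trans (max_le (hyi i) ?_)
      rw [L.mul]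
      exact mul_le_one₀ hw.le (L.nonneg _) (hvi i)
    · rw [ac, hah, ← hy]
      have h5 : x₃ i - (y i + w * v i) = -(y i - x₃ i) + -(w * v i) := by ring
      rw [h5]
      refine (L.add _ _).trans (max_le ?_ ?_)
      · rw [L.neg]
        exact h13 i
      · rw [L.neg, L.mul]
        exact (mul_le_of_le_one_right (L.nonneg _) (hvi i)).trans hwn
  have hF3 : Fp (Xh G) M P₃ := fp_co hP₃ fun i => (h₃ i).1
  have hFh : Fp (Xh G) M (P ((L.p : Ω) / 2)) := by
    intro γ hγ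
    rw [hPb γ hγ _ hph]
    congr 1
    exact (IntermediateField.mem_fixingSubgroup_iff M γ).1 hγ _ (div_mem hpM h2M)
  have hd := dl_pt hF3 hFh hn
  -- the sum
  have hfin : (Finsupp.single P₁ 1 + Finsupp.single P₂ 1 - Finsupp.single P₃ 2 :
      (Xh G).pt Ω →₀ ℤ) = (z - (2 : ℤ) • (Finsupp.single P₃ 1 -
        Finsupp.single (P ((L.p : Ω) / 2)) 1)) +
      (Finsupp.single P₁ 1 + Finsupp.single P₂ 1 - (Finsupp.single (P ((L.p : Ω) / 2)) 1 +
        Finsupp.single (P ((L.p : Ω) / 2)) 1) - z) := by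
    have h5 : (Finsupp.single P₃ 2 : (Xh G).pt Ω →₀ ℤ) = (2 : ℤ) • Finsupp.single P₃ 1 := by
      rw [Finsupp.smul_single, smul_eq_mul, mul_one]
    rw [h5, smul_sub, two_smul ℤ (Finsupp.single (P ((L.p : Ω) / 2)) (1 : ℤ))]
    abel
  rw [hfin]
  exact AddSubgroup.add_mem_sup (sub_mem hz (zsmul_mem hd 2)) hz'

end GM
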