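import Pool.Agent.Lib.MP_f80667_ag.Gm.GxE
import Pool.Agent.Lib.MP_f80667_ag.Gm.GdX

/-! Divisibility of displacements (D1). -/

open ZC BE PE CV IntermediateField Polynomial

namespace GM

variable {F : Type} [Field F] {N n : ℕ} {G : MvPolynomial (Fin N) F} {K Ω : Type} [Field K]
  [CharZero K] [Field Ω] [Algebra K Ω] [Algebra F K] [Algebra F Ω] [IsScalarTower F K Ω]
  [IsAlgClosure K Ω] {L : Ld K Ω}

private theorem gxf_dpo {K Ω : Type} [Field K] [Field Ω] [Algebra K Ω]
    {L : Ld K Ω} {M : IntermediateField K Ω} {c : Ω} (hc : c ∈ M) (hc1 : L.nm c < 1) :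
    Dpo L M (X - C c) where
  monic := monic_X_sub_C c
  mem i := by
    rw [coeff_sub, coeff_X, coeff_C]
    split_ifs
    · exact sub_mem (one_mem M) hc
    · exact sub_mem (one_mem M) (zero_mem M)
    · exact sub_mem (zero_mem M) hc
    · exact sub_mem (zero_mem M) (zero_mem M)
  lt i hi := by
    rw [natDegree_X_sub_C] at hi
    obtain rfl : i = 0 := by omega
    rw [coeff_sub, coeff_X_zero, coeff_C_zero, zero_sub, L.neg]
    exact hc1

/-- **D1 with a good direction over `M`.** Proof: the arc `a i = x i + z (x' i - x i) / p ^ (s + u)`, `exists_br`, `la` with `π = p`, `f = X - p ^ (s + u)`, `g = X`; `P 0 = P`,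
`P (p ^ (s + u)) = P'`; `rcy_X_sub`. `s ≠ 0` because `u < (l - 1) s`. -/
theorem d1_good [L.Unr] (hG : Gi G L n) {M : IntermediateField K Ω} (hM : Um L M)
    {x x' v : Fin N → Ω} (hx : Iv L M x) (hx' : Iv L M x') (hv : Iv L M v) (hl : Gl G L x v)
    {P P' : (Xh G).pt Ω} (hP : Co P x) (hP' : Co P' x') {l u s : ℕ} (hlp : l.Prime)
    (hu : L.nm (l : Ω) = L.nm (L.p : Ω) ^ u) (hus : u < (l - 1) * s)
    (h : ∀ i, L.nm (x' i - x i) ≤ L.nm (L.p : Ω) ^ (s + u)) :
    ∃ z ∈ Dl G L s M, (Finsupp.single P' 1 - Finsupp.single P 1 : (Xh G).pt Ω →₀ ℤ) - l • z ∈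
      (Xh G).ratEq M Ω := by
  have hfd : FiniteDimensional K M := hM.fd
  have hpos := L.p_pos
  have hp0 : (L.p : Ω) ≠ 0 := L.ne_zero hpos
  have hpM : (L.p : Ω) ∈ M := IntermediateField.natCast_mem M L.p
  have hs0 : s ≠ 0 := by
    rintro rfl
    omega
  -- the number `e = p ^ (s + u)`
  obtain ⟨e, he⟩ : ∃ e : Ω, e = (L.p : Ω) ^ (s + u) := ⟨_, rfl⟩
  have heM : e ∈ M := by
    rw [he]
    exact pow_mem hpM _
  have he0 : e ≠ 0 := by
    rw [he]
    exact pow_ne_zero _ hp0
  have hen : L.nm e = L.nm (L.p : Ω) ^ (s + u) := by rw [he, L.pow]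
  have hepos : 0 < L.nm e := by
    rw [hen]
    exact pow_pos hpos _
  have he1 : L.nm e < 1 := by
    rw [hen]
    exact pow_lt_one₀ hpos.le L.lt (by omega)
  have hx1 : ∀ i, L.nm (x i) ≤ 1 := fun i => (hx i).2
  -- the arc
  obtain ⟨a, ha⟩ : ∃ a : Fin N → Polynomial Ω, ∀ i, a i =
      C ((x' i - x i) / e) * X + C (x i) := ⟨_, fun _ => rfl⟩
  have hae : ∀ i c, (a i).eval c = (x' i - x i) / e * c + x i := fun i c => by
    rw [ha, eval_add, eval_mul, eval_C, eval_X, eval_C]
  have ha0 : (fun i => (a i).eval 0) = x := funext fun i => by rw [hae]; ring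
  have hap : (fun i => (a i).eval e) = x' := funext fun i => by
    rw [hae, div_mul_cancel₀ _ he0]
    ring
  have hdn : ∀ i, L.nm ((x' i - x i) / e) ≤ 1 := fun i => by
    rw [L.div, div_le_one hepos, hen]
    exact h i
  have hArc : Arc L M a := by
    intro i j
    rw [ha, coeff_add, coeff_C_mul, coeff_X, coeff_C]
    rcases j with _ | _ | j
    · simp only [if_neg (show ¬ (1 = 0) by omega), if_true, mul_zero, zero_add]
      exact hx i
    · simp only [zero_add, if_true, if_neg (show ¬ (1 = 0) by omega), mul_one, add_zero]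
      exact ⟨div_mem (sub_mem (hx' i).1 (hx i).1) heM, hdn i⟩
    · rw [if_neg (by omega), if_neg (by omega), mul_zero, add_zero]
      exact ⟨zero_mem M, by rw [L.zero]; exact zero_le_one⟩
  have hl0 : Gl G L (fun i => (a i).eval 0) v := by
    rw [ha0]
    exact hl
  have hz1 := co_zero hP
  have hx0 : L.nm (MvPolynomial.aeval (fun i => (a i).eval 0) G) < 1 := by
    rw [ha0, hz1, L.zero]
    exact zero_lt_one
  obtain ⟨Q, hQa, -, hQc⟩ := exists_br hG hArc hv hl0 hx0
  have hP0 : P = Q 0 := hQc 0 (by rw [L.zero]; exact zero_lt_one) P (by rw [ha0]; exact hP)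
  have hPe : P' = Q e := hQc _ he1 P' (by rw [hap]; exact hP')
  obtain ⟨z, hz, hz'⟩ := la hG hpM hpos L.lt (um_val hM) hArc hv hl0 hx0 hQa
    (gxf_dpo heM he1) (gxf_dpo (zero_mem M) (by rw [L.zero]; exact zero_lt_one))
    (by rw [natDegree_X_sub_C, natDegree_X_sub_C]) (l := l) (u := u) (s := s)
    (Or.inr ⟨hlp, hu, hus⟩)
    (fun i => by
      rw [coeff_sub, coeff_sub, coeff_C, coeff_C]
      by_cases hi : i = 0
      · rw [if_pos hi, if_pos hi, ← hen]
        have h5 : (X : Polynomial Ω).coeff i - e - ((X : Polynomial Ω).coeff i - 0) = -e := by ring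
        rw [h5, L.neg]
      · rw [if_neg hi, if_neg hi, sub_self, L.zero]
        exact pow_nonneg hpos.le _)
  rw [rcy_X_sub, rcy_X_sub, ← hP0, ← hPe] at hz'
  exact ⟨z, hz, hz'⟩

end GM
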