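import Pool.Agent.Lib.MP_f80667_ag.Gm.GxF

/-! Divisibility of displacements (D1). -/

open ZC BE PE CV IntermediateField Polynomial

namespace GM

variable {F : Type} [Field F] {N n : ℕ} {G : MvPolynomial (Fin N) F} {K Ω : Type} [Field K]
  [CharZero K] [Field Ω] [Algebra K Ω] [Algebra F K] [Algebra F Ω] [IsScalarTower F K Ω]
  [IsAlgClosure K Ω] {L : Ld K Ω}

/-- The cycles which are `l` times a displacement modulo rational equivalence. -/
noncomputable def lD (G : MvPolynomial (Fin N) F) (L : Ld K Ω) (l s : ℕ) :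
    AddSubgroup ((Xh G).pt Ω →₀ ℤ) :=
  (Dl G L s ⊥).map (nsmulAddMonoidHom l) ⊔ (Xh G).ratEq K Ω

theorem mem_lD {l s : ℕ} {z : (Xh G).pt Ω →₀ ℤ} :
    z ∈ lD G L l s ↔ ∃ z' ∈ Dl G L s ⊥, z - l • z' ∈ (Xh G).ratEq K Ω := by
  unfold lD
  rw [AddSubgroup.mem_sup]
  constructor
  · rintro ⟨_, ⟨y, hy, rfl⟩, r, hr, rfl⟩
    refine ⟨y, hy, ?_⟩
    change l • y + r - l • y ∈ _
    rwa [add_sub_cancel_left]
  · rintro ⟨z', hz', h⟩
    exact ⟨l • z', ⟨z', hz', rfl⟩, _, h, add_sub_cancel _ _⟩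

/-- **D1.** Proof: `dsp_gen` for `⊥` and closure induction with the group `lD`. A generator is `Nm ⊥ M' (single y 1 - single y' 1)`, `Um L M'`. Normalized
coordinates `x`, `x'` of `y`, `y'` (`nrh_nco`, `fp_mem`), `exists_dirx` for `x` over `M'`, `f` with `Rf L M' f` (`exists_ur`), `nm_two` with `H = lD`: for `d ≥ t₀` the
field `Ur M' (f d)` is unramified (`Um.up`), `d1_good` and `nm_div`. -/
theorem gx_d1 [L.Unr] (hG : Gi G L n) (hs : Sm G L) (hp : n < L.p) {l u s : ℕ} (hl : l.Prime)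
    (hu : L.nm (l : Ω) = L.nm (L.p : Ω) ^ u) (hus : u < (l - 1) * s) :
    ∀ z ∈ Dl G L (s + u) ⊥, ∃ z' ∈ Dl G L s ⊥, z - l • z' ∈ (Xh G).ratEq K Ω := by
  classical
  have hs0 : s ≠ 0 := by
    rintro rfl
    rw [Nat.mul_zero] at hus
    exact absurd hus (Nat.not_lt_zero u)
  have hr : L.nm (L.p : Ω) ^ (s + u) < 1 := pow_lt_one₀ (L.nonneg _) L.lt (by omega)
  intro z hz
  rw [← mem_lD]
  unfold Dl at hz
  rw [dsp_gen] at hz
  induction hz using AddSubgroup.closure_induction with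
  | zero => exact zero_mem _
  | add a b _ _ ha hb => exact add_mem ha hb
  | neg a _ ha => exact neg_mem ha
  | mem z hz =>
    obtain ⟨M', y, y', he, h4, h5, h6, rfl⟩ := hz
    have hfd : FiniteDimensional K M' := he.fd
    have hM' : Um L M' := by
      obtain ⟨-, N', hN', h⟩ := he
      exact ⟨N', hN', h⟩
    obtain ⟨x, x', i, hx, hx', hi, hi', h1, h1', h2⟩ := nrh_nco hG.hom hr h6
    have hxM : Iv L M' x := fun j => ⟨fp_mem h4 hx hi j, h1 j⟩
    have hxM' : Iv L M' x' := fun j => ⟨fp_mem h5 hx' hi' j, h1' j⟩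
    obtain ⟨t₀, ht₀⟩ := exists_dirx hG hs hp hxM ⟨i, by rw [hi, L.one]⟩
      (by rw [co_zero hx, L.zero]; exact zero_lt_one)
    obtain ⟨f, hf0, hf⟩ := exists_ur (L := L) M'
    refine nm_two hf ((fx_single h4 1).sub (fx_single h5 1)) (lD G L l s) (d₀ := t₀) ?_
    intro d hd hd0
    have hfd0 : f * d ≠ 0 := Nat.mul_ne_zero hf0 hd0
    obtain ⟨v, hv, hl'⟩ := ht₀ (f * d) (hd.trans (Nat.le_mul_of_pos_left d (by omega))) hfd0
    have hM'' : Um L (L.Ur M' (f * d)) := hM'.up ⟨Ld.ur_le, f * d, hfd0, le_rfl⟩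
    have hfd'' : FiniteDimensional K (L.Ur M' (f * d)) := hM''.fd
    have hle : M' ≤ L.Ur M' (f * d) := Ld.ur_le
    obtain ⟨z₁, hz₁, h7⟩ := d1_good hG hM'' (fun j => ⟨hle (hxM j).1, (hxM j).2⟩)
      (fun j => ⟨hle (hxM' j).1, (hxM' j).2⟩) hv hl' hx hx' hl hu hus
      (fun j => by rw [L.sub_comm]; exact h2 j)
    have hfx : Fx (L.Ur M' (f * d))
        (Finsupp.single y 1 - Finsupp.single y' 1 : (Xh G).pt Ω →₀ ℤ) := by
      have h8 : ∀ γ ∈ (L.Ur M' (f * d)).fixingSubgroup, γ ∈ M'.fixingSubgroup :=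
        fun γ hγ => (IntermediateField.fixingSubgroup_le hle) hγ
      exact fun γ hγ => ((fx_single h4 1).sub (fx_single h5 1)) γ (h8 γ hγ)
    obtain ⟨z₂, hz₂, h9⟩ := nm_div (V := Xh G) hM'' (l := l)
      (z := (Finsupp.single y 1 - Finsupp.single y' 1 : (Xh G).pt Ω →₀ ℤ))
      ⟨-z₁, neg_mem hz₁, by
        have h10 := neg_mem h7
        have h11 : -((Finsupp.single y' 1 - Finsupp.single y 1 : (Xh G).pt Ω →₀ ℤ) - l • z₁) =
            (Finsupp.single y 1 - Finsupp.single y' 1 : (Xh G).pt Ω →₀ ℤ) - l • (-z₁) := by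
          rw [smul_neg]
          abel
        rwa [h11] at h10⟩ hfx
    exact mem_lD.2 ⟨z₂, hz₂, h9⟩

end GM
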