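import Pool.Agent.Lib.MP_f80667_ag.Gm.GxE
import Pool.Agent.Lib.MP_f80667_ag.Gm.GdX

/-! Points over ramified extensions (RAM). -/

open ZC BE PE CV IntermediateField Polynomial

namespace GM

variable {F : Type} [Field F] {N n : ℕ} {G : MvPolynomial (Fin N) F} {K Ω : Type} [Field K]
  [CharZero K] [Field Ω] [Algebra K Ω] [Algebra F K] [Algebra F Ω] [IsScalarTower F K Ω]
  [IsAlgClosure K Ω] {L : Ld K Ω}

/-- **RAM with a good direction over `M₀`.** Proof: `eis`: `z`, `f`; the arc `a i = x₀ i + r i`, `r i` with `(r i)(z) = x i - x₀ i`; the line `a(0) + Y v` is good (`gl_close`);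
`exists_br`; `la` over `M₀` with `π = p`, `l = 1`, `u = 0`, `s = 1`, `f`, `g = X ^ e`, `e = natDegree f`. `P z = P` (third property of `exists_br`), so `rcy P f = Nm M₀ M (single P 1)` (`nm_rcy`);
`rcy P g = e • single (P 0) 1` (`rcy_X_pow`); `nm_rcy` for the constant map `P₀`: `Nm M₀ M (single P₀ 1) = e • single P₀ 1`; `single (P 0) 1 - single P₀ 1 ∈ Dl 1 M₀`
(`nrh_mk`, `nrh_up`, `dl_pt`). The lower coefficients of `f` are in `M₀` and have norm `< 1`, so `≤ nm p` (`Ld.ur_lt`). -/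
theorem ram_good [L.Unr] (hG : Gi G L n) {M M₀ : IntermediateField K Ω} [FiniteDimensional K M]
    (h : M₀ ≤ M) (h₀ : Um L M₀) (hr : ∀ b ∈ M, L.nm b ≤ 1 → ∃ a ∈ M₀, L.nm (b - a) < 1)
    {x x₀ v : Fin N → Ω} (hx : Iv L M x) (hx₀ : Iv L M₀ x₀) (hv : Iv L M₀ v) (hl : Gl G L x₀ v)
    {P P₀ : (Xh G).pt Ω} (hP : Co P x) (hP₀ : Co P₀ x₀) (hn : ∀ i, L.nm (x i - x₀ i) < 1) :
    Nm M₀ M (Finsupp.single P 1 - Finsupp.single P₀ 1 : (Xh G).pt Ω →₀ ℤ) ∈
      Dl G L 1 M₀ ⊔ (Xh G).ratEq M₀ Ω := by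
  classical
  have hM₀ : FiniteDimensional K M₀ := fin_le h
  obtain ⟨N', hN', hN⟩ := h₀
  have hp0 : 0 < L.nm (L.p : Ω) := L.p_pos
  obtain ⟨z, hz, hz1, f, hf, hfs, hfr, hfz, hpol⟩ := eis (L := L) h hr
  -- the arc
  have hrx : ∀ i, ∃ r, Ipo L M₀ r ∧ r.eval z = x i - x₀ i := fun i =>
    hpol _ (sub_mem (hx i).1 (h (hx₀ i).1)) (hn i)
  choose r hr1 hr2 using hrx
  obtain ⟨a, ha⟩ : ∃ a : Fin N → Polynomial Ω, a = fun i => C (x₀ i) + r i := ⟨_, rfl⟩
  have hev : ∀ i c, (a i).eval c = x₀ i + (r i).eval c := fun i c => by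
    rw [ha]
    simp only [eval_add, eval_C]
  have harc : Arc L M₀ a := by
    intro i j
    rw [ha]
    simp only [coeff_add, coeff_C]
    split_ifs with hj
    · refine ⟨add_mem (hx₀ i).1 ((hr1 i).mem j), ?_⟩
      exact (L.add _ _).trans (max_le (hx₀ i).2 ((hr1 i).le j))
    · rw [zero_add]
      exact ⟨(hr1 i).mem j, (hr1 i).le j⟩
  have ha0 : ∀ i, L.nm (x₀ i - (a i).eval 0) < 1 := by
    intro i
    rw [hev, sub_add_cancel_left, L.neg, ← coeff_zero_eq_eval_zero]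
    exact (hr1 i).lt
  have ha0i : ∀ i, L.nm ((a i).eval 0) ≤ 1 := fun i => by
    rw [← coeff_zero_eq_eval_zero]
    exact (harc i 0).2
  have hl' : Gl G L (fun i => (a i).eval 0) v :=
    gl_close hG (fun i => (hx₀ i).2) ha0i (fun i => (hv i).2) ha0 hl
  have hx0' : L.nm (MvPolynomial.aeval (fun i => (a i).eval 0) G) < 1 := by
    by_cases hN0 : Nonempty (Fin N)
    · obtain ⟨i₀, -, hi₀⟩ := Finset.exists_max_image Finset.univ
        (fun i => L.nm (x₀ i - (a i).eval 0)) Finset.univ_nonempty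
      have h1 := ae_close hG.int (fun i => (hx₀ i).2) ha0i (L.nonneg (x₀ i₀ - (a i₀).eval 0))
        fun i => hi₀ i (Finset.mem_univ i)
      rw [co_zero hP₀, zero_sub, L.neg] at h1
      exact h1.trans_lt (ha0 i₀)
    · have h1 : (fun i => (a i).eval 0) = x₀ := funext fun i => absurd ⟨i⟩ hN0
      rw [h1, co_zero hP₀, L.zero]
      exact zero_lt_one
  obtain ⟨B, hB1, hB2, hB3⟩ := exists_br hG harc hv hl' hx0'
  -- the point above the uniformizer
  have hBz : B z = P := by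
    refine (hB3 z hz1 P ?_).symm
    have h1 : (fun i => (a i).eval z) = x := funext fun i => by
      rw [hev, hr2, add_sub_cancel]
    rw [h1]
    exact hP
  have hγz : ∀ γ ∈ M₀.fixingSubgroup, (Xh G).act γ (B z) = B (γ z) := fun γ hγ =>
    hB2 γ hγ z hz1
  have hF : Nm M₀ M (Finsupp.single P 1 : (Xh G).pt Ω →₀ ℤ) = rcy B f := by
    rw [← hBz]
    exact nm_rcy h hfs hfr hfz B hγz
  have hP₀M : Fp (Xh G) M₀ P₀ := fp_co hP₀ fun i => (hx₀ i).1
  have hF0 : Nm M₀ M (Finsupp.single P₀ 1 : (Xh G).pt Ω →₀ ℤ) =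
      rcy (fun _ => P₀) f :=
    nm_rcy h hfs hfr hfz (fun _ => P₀) fun γ hγ => hP₀M γ hγ
  have hac : IsAlgClosed Ω := IsAlgClosure.isAlgClosed K
  have hcard : Multiset.card f.roots = f.natDegree :=
    (IsAlgClosed.splits f).natDegree_eq_card_roots.symm
  have hF1 : rcy (fun _ => P₀) f = (Finsupp.single P₀ (f.natDegree : ℤ) : (Xh G).pt Ω →₀ ℤ) := by
    rw [rcy, Multiset.map_const', Multiset.sum_replicate, hcard, Finsupp.smul_single,
      nsmul_eq_mul, mul_one]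
  -- the comparison
  have hg : Dpo L M₀ (X ^ f.natDegree : Polynomial Ω) := by
    refine ⟨monic_X_pow _, fun i => ?_, fun i hi => ?_⟩
    · rw [coeff_X_pow]
      split_ifs
      · exact one_mem _
      · exact zero_mem _
    · rw [natDegree_X_pow] at hi
      rw [coeff_X_pow, if_neg hi.ne, L.zero]
      exact zero_lt_one
  have hfg : ∀ i, L.nm (f.coeff i - (X ^ f.natDegree : Polynomial Ω).coeff i) ≤
      L.nm (L.p : Ω) ^ (1 + 0) := by
    intro i
    rw [add_zero, coeff_X_pow]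
    rcases lt_trichotomy i f.natDegree with hi | hi | hi
    · rw [if_neg hi.ne, sub_zero]
      exact Ld.ur_lt hN' (hN (hf.mem i)) (i := 0) (by rw [pow_zero]; exact hf.lt i hi)
    · rw [if_pos hi, hi, hf.monic.coeff_natDegree, sub_self, L.zero]
      exact pow_nonneg hp0.le _
    · rw [if_neg hi.ne', coeff_eq_zero_of_natDegree_lt hi, sub_self, L.zero]
      exact pow_nonneg hp0.le _
  have hpM : (L.p : Ω) ∈ M₀ := _root_.natCast_mem M₀ L.p
  obtain ⟨d, hd, hd1⟩ := la hG hpM hp0 L.lt (um_val ⟨N', hN', hN⟩) harc hv hl' hx0' hB1 hf hg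
    (natDegree_X_pow _).symm (l := 1) (u := 0) (s := 1) (Or.inl ⟨rfl, rfl, one_ne_zero⟩) hfg
  rw [one_smul, rcy_X_pow] at hd1
  -- the point above `0`
  have hB0 : Fp (Xh G) M₀ (B 0) := fun γ hγ => by
    rw [hB2 γ hγ 0 (by rw [L.zero]; exact zero_lt_one), map_zero]
  have hnear : Nrh G L (L.nm (L.p : Ω) ^ 1) (B 0) P₀ := by
    rw [pow_one]
    obtain ⟨w, hw, hcw⟩ := hB1 0 (by rw [L.zero]; exact zero_lt_one)
    obtain ⟨i₁, hi₁⟩ : ∃ i, L.nm (x₀ i) = 1 :=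
      dGo_prim hG (fun i => (hx₀ i).2) (fun i => (hv i).2) (gl_dGo hl (by
        rw [co_zero hP₀, L.zero]
        exact zero_lt_one))
    have hcl : ∀ i, L.nm (x₀ i - ac a v 0 w i) < 1 := fun i => by
      have h1 : x₀ i - ac a v 0 w i = (x₀ i - (a i).eval 0) - w * v i := by
        rw [ac]
        ring
      rw [h1]
      refine (L.sub _ _).trans_lt (max_lt (ha0 i) ?_)
      rw [L.mul]
      exact mul_lt_one_of_nonneg_of_lt_one_left (L.nonneg _) hw (hv i).2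
    obtain ⟨i₀, -, hi₀⟩ := Finset.exists_max_image Finset.univ
      (fun i => L.nm (x₀ i - ac a v 0 w i)) ⟨i₁, Finset.mem_univ i₁⟩
    refine nrh_up hG.hom ⟨N', hN', hN⟩ (hcl i₀) (nrh_symm (nrh_mk (hcl i₀) hP₀ hcw
      (fun i => (hx₀ i).2) (fun i => ?_) ⟨i₁, hi₁⟩ fun i => hi₀ i (Finset.mem_univ i))) hB0 hP₀M
    have h1 : ac a v 0 w i = x₀ i - (x₀ i - ac a v 0 w i) := by ring
    rw [h1]
    exact (L.sub _ _).trans (max_le (hx₀ i).2 (hcl i).le)
  have hD := dl_pt hB0 hP₀M hnear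
  -- the sum
  have hsub : Nm M₀ M (Finsupp.single P 1 - Finsupp.single P₀ 1 : (Xh G).pt Ω →₀ ℤ) =
      Nm M₀ M (Finsupp.single P 1 : (Xh G).pt Ω →₀ ℤ) -
        Nm M₀ M (Finsupp.single P₀ 1 : (Xh G).pt Ω →₀ ℤ) := by
    have h1 := nm_add h (Finsupp.single P 1 - Finsupp.single P₀ 1 : (Xh G).pt Ω →₀ ℤ)
      (Finsupp.single P₀ 1)
    rw [sub_add_cancel] at h1
    rw [h1, add_sub_cancel_right]
  have hfin : Nm M₀ M (Finsupp.single P 1 - Finsupp.single P₀ 1 : (Xh G).pt Ω →₀ ℤ) =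
      (d + f.natDegree • (Finsupp.single (B 0) 1 - Finsupp.single P₀ 1 : (Xh G).pt Ω →₀ ℤ)) +
        (rcy B f - Finsupp.single (B 0) (f.natDegree : ℤ) - d) := by
    rw [hsub, hF, hF0, hF1, smul_sub, Finsupp.smul_single, Finsupp.smul_single, nsmul_eq_mul,
      mul_one]
    abel
  rw [hfin]
  refine add_mem (AddSubgroup.mem_sup_left (add_mem ?_ (nsmul_mem hD _)))
    (AddSubgroup.mem_sup_right hd1)
  exact hd

end GM
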