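import Pool.Agent.Lib.MP_f80667_ag.Gm.GxG

/-! Points over ramified extensions (RAM). -/

open ZC BE PE CV IntermediateField Polynomial

namespace GM

variable {F : Type} [Field F] {N n : ℕ} {G : MvPolynomial (Fin N) F} {K Ω : Type} [Field K]
  [CharZero K] [Field Ω] [Algebra K Ω] [Algebra F K] [Algebra F Ω] [IsScalarTower F K Ω]
  [IsAlgClosure K Ω] {L : Ld K Ω}

/-- **RAM**, general form. Proof: normalized coordinates `x`, `x₀` (`nrh_nco`), over `M` and over `M₀ = Ur ⊥ f` (`fp_mem`); `exists_dirx` for `x₀` over `M₀`; `nm_two` for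
`a = single P 1 - single P₀ 1`: for `d ≥ t₀` let `M' = Ur M (f d)`, `M₀' = Ur ⊥ (f d) = Ur (Ur ⊥ f) (f d)` (`Ld.ur_ur`), `Ld.rf_ur` gives the residues, `ram_good`, `nm_sup`, `nm_tr`. -/
theorem ram_near [L.Unr] (hG : Gi G L n) (hs : Sm G L) (hp : n < L.p)
    {M : IntermediateField K Ω} [FiniteDimensional K M] {f : ℕ} (hf : L.Rf M f)
    {P P₀ : (Xh G).pt Ω} (hP : Fp (Xh G) M P) (hP₀ : Fp (Xh G) (L.Ur ⊥ f) P₀) {r : ℝ} (hr : r < 1)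
    (h : Nrh G L r P P₀) :
    Nm (K := K) ⊥ M (Finsupp.single P 1 - Finsupp.single P₀ 1 : (Xh G).pt Ω →₀ ℤ) ∈
      Dl G L 1 ⊥ ⊔ (Xh G).ratEq K Ω := by
  obtain ⟨x, x₀, i, hx, hx₀, hi, hi₀, h1, h1₀, hc⟩ := nrh_nco hG.hom hr h
  have hle : L.Ur ⊥ f ≤ M := hf.le
  have hMx : ∀ j, x j ∈ M := fp_mem hP hx hi
  have hMx₀ : ∀ j, x₀ j ∈ L.Ur ⊥ f := fp_mem hP₀ hx₀ hi₀
  have hM₀ : FiniteDimensional K (L.Ur ⊥ f) := Ld.ur_fin ⊥ f hf.ne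
  obtain ⟨t₀, ht₀⟩ := exists_dirx hG hs hp (M := L.Ur ⊥ f) (x := x₀) (fun j => ⟨hMx₀ j, h1₀ j⟩)
    ⟨i, by rw [hi₀, L.one]⟩ (by rw [co_zero hx₀, L.zero]; exact zero_lt_one)
  have hfx : Fx M (Finsupp.single P 1 - Finsupp.single P₀ 1 : (Xh G).pt Ω →₀ ℤ) :=
    (fx_single hP 1).sub ((fx_single hP₀ 1).mono hle)
  refine nm_two hf hfx _ (d₀ := t₀) fun d hd hd0 => ?_
  have hfd : f * d ≠ 0 := mul_ne_zero hf.ne hd0
  have hfin : FiniteDimensional K (L.Ur M (f * d)) := Ld.ur_fin M _ hfd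
  have hfin₀ : FiniteDimensional K (L.Ur ⊥ (f * d)) := Ld.ur_fin ⊥ _ hfd
  have hu : L.Ur (L.Ur ⊥ f) (f * d) = L.Ur ⊥ (f * d) := Ld.ur_ur ⊥ (Nat.dvd_mul_right f d)
  obtain ⟨v, hv, hl⟩ := ht₀ (f * d) (hd.trans (Nat.le_mul_of_pos_left d
    (Nat.pos_of_ne_zero hf.ne))) hfd
  rw [hu] at hv
  have hRf := Ld.rf_ur hf hd0
  have hle' : L.Ur ⊥ (f * d) ≤ L.Ur M (f * d) := Ld.ur_bot_ur M _
  have hum : Um L (L.Ur ⊥ (f * d)) := ⟨f * d, hfd, le_rfl⟩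
  have hres : ∀ b ∈ L.Ur M (f * d), L.nm b ≤ 1 → ∃ a ∈ L.Ur ⊥ (f * d), L.nm (b - a) < 1 := by
    intro b hb hb1
    obtain ⟨τ, hτ, h2⟩ := hRf.res b hb hb1
    exact ⟨τ, Ld.te_ur hτ, h2⟩
  have h3 := ram_good hG hle' hum hres (x := x) (x₀ := x₀) (v := v)
    (fun j => ⟨Ld.ur_le (hMx j), h1 j⟩)
    (fun j => ⟨Ld.ur_dvd ⊥ (Nat.dvd_mul_right f d) (hMx₀ j), h1₀ j⟩) hv hl hx hx₀
    fun j => (hc j).trans_lt hr
  have hfx' : Fx (L.Ur M (f * d)) (Finsupp.single P 1 - Finsupp.single P₀ 1 :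
      (Xh G).pt Ω →₀ ℤ) := hfx.mono Ld.ur_le
  rw [nm_tr bot_le hle' hfx']
  exact nm_sup hum h3 (nm_fx hle' hfx')

/-- **RAM.** Proof: `f` with `Rf L M f` (`exists_ur`), `M₀ = Ur ⊥ f`; normalized coordinates `x` of the point, in `M` (`fp_mem`); `τ j ∈ Te f` congruent to `x j` (`Rf.res`; `τ i = 1` for `x i = 1`),
`exists_lift`: `x₀`; `nrh_mk`, `ram_near`; `e = relIndex` (`relIndex_fix`), `nm_const`, `nm_tr`, `rtr_eq`. -/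
theorem gx_ram [L.Unr] (hG : Gi G L n) (hs : Sm G L) (hp : n < L.p) {M : IntermediateField K Ω}
    [FiniteDimensional K M] {x : (Xh G).pt Ω} (hx : Fp (Xh G) M x) :
    ∃ (M₀ : IntermediateField K Ω) (x₀ : (Xh G).pt Ω) (e : ℕ), M₀ ≤ M ∧ Um L M₀ ∧
      Fp (Xh G) M₀ x₀ ∧ (∃ r < 1, Nrh G L r x x₀) ∧
      Module.finrank K M = e * Module.finrank K M₀ ∧
      rtr (Xh G) ⊥ M (Finsupp.single x 1) - e • rtr (Xh G) ⊥ M₀ (Finsupp.single x₀ 1) ∈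
        Dl G L 1 ⊥ ⊔ (Xh G).ratEq K Ω := by
  obtain ⟨f, hf0, hf⟩ := exists_ur (L := L) M
  obtain ⟨y, i, hy, hi, hy1⟩ := exists_nco (L := L) hG.hom x
  have hyM : ∀ j, y j ∈ M := fp_mem hx hy hi
  have hM₀ : FiniteDimensional K (L.Ur ⊥ f) := Ld.ur_fin ⊥ f hf0
  have hτ : ∀ j, ∃ τ ∈ L.Te f, L.nm (y j - τ) < 1 := fun j => hf.res _ (hyM j) (hy1 j)
  choose τ hτ1 hτ2 using hτ
  have hcl : ∀ {u w : Fin N → Ω}, (∀ j, L.nm (u j - w j) < 1) → ∃ r < 1, 0 ≤ r ∧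
      ∀ j, L.nm (u j - w j) ≤ r := by
    intro u w huw
    obtain ⟨i₀, -, hi₀⟩ := Finset.exists_max_image Finset.univ
      (fun j => L.nm (u j - w j)) ⟨i, Finset.mem_univ i⟩
    exact ⟨_, huw i₀, L.nonneg _, fun j => hi₀ j (Finset.mem_univ j)⟩
  have hτi : ∀ j, L.nm (τ j) ≤ 1 := fun j => Ld.te_int hf0 (hτ1 j)
  have hτ0 : L.nm (MvPolynomial.aeval τ G) < 1 := by
    obtain ⟨r, hr, hr0, h1⟩ := hcl hτ2
    have h2 := ae_close hG.int hy1 hτi hr0 h1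
    rw [co_zero hy, zero_sub, L.neg] at h2
    exact h2.trans_lt hr
  have hτp : ∃ j, L.nm (τ j) = 1 := by
    refine ⟨i, le_antisymm (hτi i) ?_⟩
    by_contra hlt
    rw [not_le] at hlt
    have h1 := L.add (y i - τ i) (τ i)
    rw [sub_add_cancel, hi, L.one] at h1
    have h2 := hτ2 i
    rw [hi] at h2
    exact absurd (max_lt h2 hlt) (not_lt.2 h1)
  obtain ⟨x', hx', hx'0, hx'τ⟩ := exists_lift hG hs (M := L.Ur ⊥ f)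
    (fun j => ⟨Ld.te_ur (hτ1 j), hτi j⟩) hτp hτ0
  have hyx' : ∀ j, L.nm (y j - x' j) < 1 := fun j => by
    have h1 : y j - x' j = (y j - τ j) - (x' j - τ j) := by ring
    rw [h1]
    exact (L.sub _ _).trans_lt (max_lt (hτ2 j) ((hx'τ j).trans_lt hτ0))
  have hx'ne : x' ≠ 0 := by
    intro h0
    have h1 := hyx' i
    rw [h0, Pi.zero_apply, sub_zero, hi, L.one] at h1
    exact lt_irrefl _ h1
  obtain ⟨x₀, hx₀⟩ := co_mk hx'ne hx'0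
  have hfp : Fp (Xh G) (L.Ur ⊥ f) x₀ := fp_co hx₀ fun j => (hx' j).1
  obtain ⟨r, hr, hr0, hrr⟩ := hcl hyx'
  have hnear : Nrh G L r x x₀ :=
    nrh_mk hr hy hx₀ hy1 (fun j => (hx' j).2) ⟨i, by rw [hi, L.one]⟩ hrr
  have hle : L.Ur ⊥ f ≤ M := hf.le
  refine ⟨L.Ur ⊥ f, x₀, M.fixingSubgroup.relIndex (L.Ur ⊥ f).fixingSubgroup, hle,
    ⟨f, hf0, le_rfl⟩, hfp, ⟨r, hr, hnear⟩, (relIndex_fix hle).symm, ?_⟩
  have h1 := ram_near hG hs hp hf hx hfp hr hnear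
  have h2 : Nm (K := K) ⊥ M (Finsupp.single x₀ 1 : (Xh G).pt Ω →₀ ℤ) =
      M.fixingSubgroup.relIndex (L.Ur ⊥ f).fixingSubgroup •
        Nm (K := K) ⊥ (L.Ur ⊥ f) (Finsupp.single x₀ 1 : (Xh G).pt Ω →₀ ℤ) := by
    rw [nm_tr bot_le hle ((fx_single hfp 1).mono hle), nm_const hle (fx_single hfp 1),
      nm_nsmul bot_le]
  rw [rtr_eq bot_le, rtr_eq bot_le, ← h2]
  have h3 := (nmh (Xh G) M).map_sub (Finsupp.single x 1) (Finsupp.single x₀ 1)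
  rw [nmh_apply, nmh_apply, nmh_apply] at h3
  rwa [← h3]

end GM
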