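import Pool.Agent.Lib.MP_f80667_ag.Gm.GxGb

/-!
Equivariant sections; the lift of a residue class of points. `Nea G L`: congruent points.
-/

open ZC BE PE CV IntermediateField Polynomial

namespace GM

section sec

/-- **Equivariant sections.** Proof: `r c` a representative of the orbit of `c` (`Quotient.out` for `MulAction.orbitRel`), `g c • r c = c`, `x (r c)` from `h`; `s c = g c • x (r c)`. For
`γ`: `r (γ • c) = r c` and `(g (γ • c))⁻¹ * γ * g c` fixes `r c`, so it fixes `x (r c)`. -/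
theorem exists_sec {Γ C X : Type} [Group Γ] [MulAction Γ C] [MulAction Γ X] (R : C → X → Prop)
    (hR : ∀ (γ : Γ) c x, R c x → R (γ • c) (γ • x))
    (h : ∀ c, ∃ x, R c x ∧ ∀ γ : Γ, γ • c = c → γ • x = x) :
    ∃ s : C → X, (∀ (γ : Γ) c, s (γ • c) = γ • s c) ∧ ∀ c, R c (s c) := by
  classical
  choose x0 hx0 hst using h
  have hex : ∀ c : C, ∃ g : Γ,
      g • Quotient.out (Quotient.mk (MulAction.orbitRel Γ C) c) = c := by
    intro c
    have h1 : (MulAction.orbitRel Γ C) (Quotient.out (Quotient.mk (MulAction.orbitRel Γ C) c)) c :=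
      Quotient.exact (Quotient.out_eq _)
    rw [MulAction.orbitRel_apply] at h1
    obtain ⟨g, hg⟩ := h1
    exact ⟨g⁻¹, by rw [← hg]; exact inv_smul_smul g c⟩
  choose g hg using hex
  have hr : ∀ (γ : Γ) (c : C), Quotient.out (Quotient.mk (MulAction.orbitRel Γ C) (γ • c)) =
      Quotient.out (Quotient.mk (MulAction.orbitRel Γ C) c) := by
    intro γ c
    congr 1
    exact Quotient.sound (MulAction.orbitRel_apply.2 ⟨γ, rfl⟩)
  refine ⟨fun c => g c • x0 (Quotient.out (Quotient.mk (MulAction.orbitRel Γ C) c)), ?_, ?_⟩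
  · intro γ c
    have h1 := hg (γ • c)
    have h2 := hg c
    rw [hr γ c] at h1
    change g (γ • c) • x0 (Quotient.out (Quotient.mk (MulAction.orbitRel Γ C) (γ • c))) =
      γ • (g c • x0 (Quotient.out (Quotient.mk (MulAction.orbitRel Γ C) c)))
    rw [hr γ c]
    generalize Quotient.out (Quotient.mk (MulAction.orbitRel Γ C) c) = e at h1 h2
    have h3 : ((g (γ • c))⁻¹ * (γ * g c)) • e = e := by
      rw [mul_smul, mul_smul, h2, inv_smul_eq_iff, h1]
    have h4 := hst e _ h3
    rw [mul_smul, inv_smul_eq_iff, mul_smul] at h4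
    exact h4.symm
  · intro c
    have h1 := hR (g c) _ _ (hx0 (Quotient.out (Quotient.mk (MulAction.orbitRel Γ C) c)))
    rw [hg c] at h1
    exact h1

end sec

variable {F : Type} [Field F] {N n : ℕ} {G : MvPolynomial (Fin N) F} {K Ω : Type} [Field K]
  [CharZero K] [Field Ω] [Algebra K Ω] [Algebra F K] [Algebra F Ω] [IsScalarTower F K Ω]
  [IsAlgClosure K Ω] {L : Ld K Ω}

/-- Congruent points. -/
def Nea (G : MvPolynomial (Fin N) F) (L : Ld K Ω) (x y : (Xh G).pt Ω) : Prop :=
  ∃ r < 1, Nrh G L r x y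

theorem Nea.symm {x y : (Xh G).pt Ω} (h : Nea G L x y) : Nea G L y x := by
  obtain ⟨r, hr, h⟩ := h
  exact ⟨r, hr, nrh_symm h⟩

/-- Proof: `nrh_refl` for `r = 0`. -/
theorem Nea.refl (hG : Gi G L n) (x : (Xh G).pt Ω) : Nea G L x x :=
  ⟨0, zero_lt_one, nrh_refl hG.hom le_rfl x⟩

theorem Nea.trans (hG : Gi G L n) {x y z : (Xh G).pt Ω} (h : Nea G L x y) (h' : Nea G L y z) :
    Nea G L x z := by
  obtain ⟨r, hr, h⟩ := h
  obtain ⟨r', hr', h'⟩ := h'
  exact ⟨max r r', max_lt hr hr', nrh_trans hG.hom (nrh_mono (le_max_left _ _) h)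
    (nrh_mono (le_max_right _ _) h')⟩

theorem Nea.act (γ : Ω ≃ₐ[K] Ω) {x y : (Xh G).pt Ω} (h : Nea G L x y) :
    Nea G L ((Xh G).act γ x) ((Xh G).act γ y) := by
  obtain ⟨r, hr, h⟩ := h
  exact ⟨r, hr, nrh_act γ h⟩

/-- **The lift of a class.** Proof: normalized coordinates `x` of `P` (`exists_nco`), `x i = 1`; Teichmueller representatives `τ j` of `x j` (`Ld.te_rep`; `τ i = 1`), in one `Te N'`; `M` the field generated by the `τ j`;
`exists_lift`: a point `S` over `M` congruent to `P`. If `γ P` is congruent to `P` then `γ (τ j)` is congruent to `γ (x j)`, `x j` (`nrh_one`), `τ j`, so it is equal to `τ j` (`Ld.te_inj`): `γ` is in the group of `M` and `γ S = S`. -/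
theorem exists_cls (hG : Gi G L n) (hs : Sm G L) (P : (Xh G).pt Ω) :
    ∃ S : (Xh G).pt Ω, Nea G L P S ∧
      ∀ γ : Ω ≃ₐ[K] Ω, Nea G L ((Xh G).act γ P) P → (Xh G).act γ S = S := by
  classical
  obtain ⟨x, i, hx, hi, hx1⟩ := exists_nco (L := L) hG.hom P
  choose Nf hNf z hz hxz using fun j => Ld.te_rep (L := L) (hx1 j)
  have hN0 : ∏ j, Nf j ≠ 0 := Finset.prod_ne_zero_iff.2 fun j _ => hNf j
  have hz' : ∀ j, z j ∈ L.Te (∏ j, Nf j) := fun j =>
    Ld.te_dvd (Finset.dvd_prod_of_mem Nf (Finset.mem_univ j)) (hz j)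
  generalize ∏ j, Nf j = N' at hN0 hz'
  have hz1 : ∀ j, L.nm (z j) ≤ 1 := fun j => Ld.te_int hN0 (hz' j)
  have hzi : z i = 1 := by
    refine Ld.te_inj hN0 (hz' i) Ld.te_one ?_
    rw [L.sub_comm, ← hi]
    exact hxz i
  have halg : Algebra.IsAlgebraic K Ω := IsAlgClosure.isAlgebraic
  have hfd : FiniteDimensional K (IntermediateField.adjoin K (Set.range z)) :=
    IntermediateField.finiteDimensional_adjoin fun w _ => (halg.isAlgebraic w).isIntegral
  have hmem : ∀ j, z j ∈ IntermediateField.adjoin K (Set.range z) := fun j =>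
    IntermediateField.subset_adjoin K _ ⟨j, rfl⟩
  obtain ⟨m, -, hm⟩ := Finset.exists_max_image Finset.univ (fun j => L.nm (x j - z j))
    ⟨i, Finset.mem_univ i⟩
  have hm0 : 0 ≤ L.nm (x m - z m) := L.nonneg _
  have hae : L.nm (MvPolynomial.aeval z G) < 1 := by
    have h1 := ae_close hG.int hx1 hz1 hm0 fun j => hm j (Finset.mem_univ j)
    rw [co_zero hx, zero_sub, L.neg] at h1
    exact h1.trans_lt (hxz m)
  obtain ⟨x', hx', hx0', hxz'⟩ := exists_lift hG hs (M := IntermediateField.adjoin K (Set.range z))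
    (x := z) (fun j => ⟨hmem j, hz1 j⟩) ⟨i, by rw [hzi, L.one]⟩ hae
  have hne : x' ≠ 0 := by
    intro h0
    have h1 := hxz' i
    rw [h0, Pi.zero_apply, hzi, zero_sub, L.neg, L.one] at h1
    linarith
  obtain ⟨S, hS⟩ := co_mk hne hx0'
  refine ⟨S, ⟨max (L.nm (x m - z m)) (L.nm (MvPolynomial.aeval z G)), max_lt (hxz m) hae, ?_⟩, ?_⟩
  · refine nrh_mk (max_lt (hxz m) hae) hx hS hx1 (fun j => (hx' j).2) ⟨i, by rw [hi, L.one]⟩
      fun j => ?_
    have e : x j - x' j = (x j - z j) + (z j - x' j) := by ring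
    rw [e]
    refine (L.add _ _).trans (max_le_max (hm j (Finset.mem_univ j)) ?_)
    rw [L.sub_comm]
    exact hxz' j
  · rintro γ ⟨r, hr, hγ⟩
    have h1 : ∀ j, L.nm (γ (x j) - x j) ≤ r := nrh_one hG.hom hr hγ (co_act γ hx) hx
      (by rw [hi, map_one]) hi (fun j => by rw [L.act]; exact hx1 j) hx1
    have hγz : ∀ j, γ (z j) = z j := by
      intro j
      refine Ld.te_inj hN0 (Ld.te_act γ (hz' j)) (hz' j) ?_
      have e : γ (z j) - z j = γ (z j - x j) + ((γ (x j) - x j) + (x j - z j)) := by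
        rw [map_sub]
        ring
      rw [e]
      refine (L.add _ _).trans_lt (max_lt ?_ ((L.add _ _).trans_lt (max_lt ((h1 j).trans_lt hr)
        (hxz j))))
      rw [L.act, L.sub_comm]
      exact hxz j
    have hfix : ∀ y ∈ IntermediateField.adjoin K (Set.range z), γ y = y := by
      intro y hy
      induction hy using IntermediateField.adjoin_induction with
      | mem w hw =>
        obtain ⟨j, rfl⟩ := hw
        exact hγz j
      | algebraMap a => exact γ.commutes a
      | add a b _ _ ha hb => rw [map_add, ha, hb]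
      | inv a _ ha => rw [map_inv₀, ha]
      | mul a b _ _ ha hb => rw [map_mul, ha, hb]
    have h2 := co_act γ hS
    have h3 : (fun j => γ (x' j)) = x' := funext fun j => hfix _ (hx' j).1
    rw [h3] at h2
    exact co_eq h2 hS

end GM
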