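import Pool.Agent.Lib.MP_f80667_ag.Gm.GxH

/-! The equivariant lift of the residue classes. -/

open ZC BE PE CV IntermediateField Polynomial

namespace GM

variable {F : Type} [Field F] {N n : ℕ} {G : MvPolynomial (Fin N) F} {K Ω : Type} [Field K]
  [CharZero K] [Field Ω] [Algebra K Ω] [Algebra F K] [Algebra F Ω] [IsScalarTower F K Ω]
  [IsAlgClosure K Ω] {L : Ld K Ω}

/-- **The equivariant lift of the classes.** Proof: the quotient `C` of the points by `Nea` with the action of the group; `exists_sec` with `R c x = (⟦x⟧ = c)`, `exists_cls`. -/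
theorem exists_eqs (hG : Gi G L n) (hs : Sm G L) :
    ∃ s : (Xh G).pt Ω → (Xh G).pt Ω, (∀ (γ : Ω ≃ₐ[K] Ω) P, s ((Xh G).act γ P) = (Xh G).act γ (s P)) ∧
      (∀ P, Nea G L P (s P)) ∧ ∀ P P', Nea G L P P' → s P = s P' := by
  let sd : Setoid ((Xh G).pt Ω) := ⟨Nea G L, ⟨Nea.refl hG, Nea.symm, Nea.trans hG⟩⟩
  let iX : MulAction (Ω ≃ₐ[K] Ω) ((Xh G).pt Ω) :=
    { smul := fun γ P => (Xh G).act γ P
      one_smul := fun P => act_one (fct G) P
      mul_smul := fun γ δ P => act_mul (fct G) γ δ P }
  let iC : MulAction (Ω ≃ₐ[K] Ω) (Quotient sd) :=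
    { smul := fun γ => Quotient.map ((Xh G).act γ) fun _ _ h => Nea.act γ h
      one_smul := fun c => by
        induction c using Quotient.inductionOn with
        | h P => exact congrArg (Quotient.mk sd) (act_one (fct G) P)
      mul_smul := fun γ δ c => by
        induction c using Quotient.inductionOn with
        | h P => exact congrArg (Quotient.mk sd) (act_mul (fct G) γ δ P) }
  obtain ⟨s, hs1, hs2⟩ := exists_sec (Γ := Ω ≃ₐ[K] Ω) (C := Quotient sd) (X := (Xh G).pt Ω)
    (fun c x => Quotient.mk sd x = c)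
    (fun γ c x h => by
      rw [← h]
      rfl)
    (fun c => by
      induction c using Quotient.inductionOn with
      | h P =>
        obtain ⟨S, h1, h2⟩ := exists_cls hG hs P
        exact ⟨S, Quotient.sound h1.symm, fun γ hγ => h2 γ (Quotient.exact hγ)⟩)
  refine ⟨fun P => s (Quotient.mk sd P), fun γ P => hs1 γ (Quotient.mk sd P), fun P => ?_,
    fun P P' h => ?_⟩
  · exact Nea.symm (Quotient.exact (hs2 (Quotient.mk sd P)))
  · have h3 : Quotient.mk sd P = Quotient.mk sd P' := Quotient.sound h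
    change s (Quotient.mk sd P) = s (Quotient.mk sd P')
    rw [h3]

/-- Proof: group the sum by the values of `s`: for `y` the sum over the `x` with `s x = s y` is the sum over the `x` congruent to `y`. -/
theorem zr_map (hG : Gi G L n) {s : (Xh G).pt Ω → (Xh G).pt Ω} (hs : ∀ P, Nea G L P (s P))
    (hs' : ∀ P P', Nea G L P P' → s P = s P') {z : (Xh G).pt Ω →₀ ℤ} :
    Zr G L z ↔ Finsupp.mapDomain s z = 0 := by
  classical
  have hm : ∀ y, Finsupp.mapDomain s z y = ∑ x ∈ z.support.filter (fun x => s x = y), z x := by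
    intro y
    rw [Finsupp.mapDomain, Finsupp.sum, Finsupp.finsetSum_apply, Finset.sum_filter]
    exact Finset.sum_congr rfl fun x _ => Finsupp.single_apply
  have hk : ∀ x y, Nea G L x y ↔ s x = s y := by
    intro x y
    refine ⟨hs' x y, fun h => ?_⟩
    have h1 := hs x
    rw [h] at h1
    exact h1.trans hG (hs y).symm
  constructor
  · intro h
    ext y
    rw [hm, Finsupp.zero_apply]
    by_cases hy : ∃ x0, s x0 = y
    · obtain ⟨x0, rfl⟩ := hy
      have h1 := h x0
      rw [← h1]
      refine Finset.sum_congr (Finset.filter_congr fun x _ => ?_) fun _ _ => rfl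
      exact (hk x x0).symm
    · refine Finset.sum_eq_zero fun x hx => ?_
      exact absurd ⟨x, (Finset.mem_filter.1 hx).2⟩ hy
  · intro h y
    have h1 := hm (s y)
    rw [h, Finsupp.zero_apply] at h1
    rw [h1]
    refine Finset.sum_congr (Finset.filter_congr fun x _ => ?_) fun _ _ => rfl
    exact hk x y

/-- If `f` is the residue degree of the field of `P` then `s P` is a point over `Ur ⊥ f`. Proof: normalized coordinates of `P` are congruent to elements of `Te f` (`Rf.res`), so `γ P` is congruent to `P` for `γ` over `Ur ⊥ f`. -/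
theorem eqs_fp (hG : Gi G L n) {s : (Xh G).pt Ω → (Xh G).pt Ω}
    (h1 : ∀ (γ : Ω ≃ₐ[K] Ω) P, s ((Xh G).act γ P) = (Xh G).act γ (s P))
    (h2 : ∀ P P', Nea G L P P' → s P = s P') {M : IntermediateField K Ω} {f : ℕ}
    (hf : L.Rf M f) {P : (Xh G).pt Ω} (hP : Fp (Xh G) M P) : Fp (Xh G) (L.Ur ⊥ f) (s P) := by
  obtain ⟨x, i, hx, hi, hx1⟩ := exists_nco (L := L) hG.hom P
  have h3 : ∀ j, ∃ z ∈ L.Te f, L.nm (x j - z) < 1 := fun j =>
    hf.res (x j) (fp_mem hP hx hi j) (hx1 j)
  choose z hz hxz using h3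
  obtain ⟨j0, -, hj0⟩ := Finset.exists_max_image Finset.univ (fun j => L.nm (x j - z j))
    ⟨i, Finset.mem_univ i⟩
  intro γ hγ
  have h4 : Nea G L ((Xh G).act γ P) P := by
    refine ⟨L.nm (x j0 - z j0), hxz j0, nrh_mk (hxz j0) (co_act γ hx) hx (fun j => ?_) hx1
      ⟨i, ?_⟩ fun j => ?_⟩
    · rw [L.act]
      exact hx1 j
    · rw [L.act, hi, L.one]
    · have h5 : γ (z j) = z j :=
        (IntermediateField.mem_fixingSubgroup_iff _ γ).1 hγ _ (Ld.te_ur (hz j))
      have h6 : γ (x j) - x j = γ (x j - z j) + (z j - x j) := by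
        rw [map_sub, h5]
        ring
      rw [h6]
      refine (L.add _ _).trans (max_le ?_ ?_)
      · rw [L.act]
        exact hj0 j (Finset.mem_univ j)
      · rw [L.sub_comm]
        exact hj0 j (Finset.mem_univ j)
  rw [← h1]
  exact h2 _ _ h4

end GM
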