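import Pool.Agent.Lib.MP_f80667_ag.Gm.GyB

/-!
First order estimates for zeros near approximate zeros.
-/

open ZC BE PE CV IntermediateField

namespace GM

variable {K Ω : Type} [Field K] [Field Ω] [Algebra K Ω] {L : Ld K Ω}
  {A x g : Polynomial (Polynomial Ω)} {P Q Q' : Ω × Ω}

private theorem gybn_ip (hP : Ip L P) (h1 : L.nm (Q.1 - P.1) < 1) (h2 : L.nm (Q.2 - P.2) < 1) :
    Ip L Q := by
  have e1 : Q.1 = (Q.1 - P.1) + P.1 := by ring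
  have e2 : Q.2 = (Q.2 - P.2) + P.2 := by ring
  refine ⟨?_, ?_⟩
  · rw [e1]
    exact (L.add _ _).trans (max_le h1.le hP.1)
  · rw [e2]
    exact (L.add _ _).trans (max_le h2.le hP.2)

private theorem gybn_mul {a b : Ω} {M : ℝ} (ha : L.nm a ≤ M) (hb : L.nm b ≤ 1) :
    L.nm (a * b) ≤ M := by
  rw [L.mul]
  exact (mul_le_of_le_one_right (L.nonneg _) hb).trans ha

/-- Proof: let `Δ` be the maximum of the norms of the differences; the linear equations of `tay_nm` for `x` and `g` with the determinant `jac` (Cramer) give `Δ ≤ max r (Δ ^ 2)`, and `Δ < 1`. -/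
theorem near_le (hx : In₂ L x) (hg : In₂ L g) (hP : Ip L P) (hJ : L.nm (jac x g P) = 1)
    (h1 : L.nm (Q.1 - P.1) < 1) (h2 : L.nm (Q.2 - P.2) < 1) (hQx : ev₂ Q x = 0)
    (hQg : ev₂ Q g = 0) {r : ℝ} (h3 : L.nm (ev₂ P x) ≤ r) (h4 : L.nm (ev₂ P g) ≤ r) :
    L.nm (Q.1 - P.1) ≤ r ∧ L.nm (Q.2 - P.2) ≤ r := by
  have hQ : Ip L Q := gybn_ip hP h1 h2
  have hr : 0 ≤ r := (L.nonneg _).trans h3
  obtain ⟨D, hD⟩ : ∃ D, D = max (L.nm (Q.1 - P.1)) (L.nm (Q.2 - P.2)) := ⟨_, rfl⟩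
  have hs : L.nm (Q.1 - P.1) ≤ D := hD ▸ le_max_left _ _
  have ht : L.nm (Q.2 - P.2) ≤ D := hD ▸ le_max_right _ _
  have hD1 : D < 1 := hD ▸ max_lt h1 h2
  have hD0 : 0 ≤ D := (L.nonneg _).trans hs
  have key : ∀ A : Polynomial (Polynomial Ω), In₂ L A → ev₂ Q A = 0 → L.nm (ev₂ P A) ≤ r →
      L.nm (ev₂ P (dZ A) * (Q.1 - P.1) + ev₂ P (dY A) * (Q.2 - P.2)) ≤ max r (D ^ 2) := by
    intro A hA hQA hPA
    have h := tay_nm hA hP hQ hs ht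
    rw [hQA] at h
    have e : ev₂ P (dZ A) * (Q.1 - P.1) + ev₂ P (dY A) * (Q.2 - P.2) =
        (0 - ev₂ P A) -
          (0 - ev₂ P A - (ev₂ P (dZ A) * (Q.1 - P.1) + ev₂ P (dY A) * (Q.2 - P.2))) := by
      ring
    rw [e]
    refine (L.sub _ _).trans (max_le_max ?_ h)
    rw [L.sub_comm, sub_zero]
    exact hPA
  have hx' := key x hx hQx h3
  have hg' := key g hg hQg h4
  have c1 : L.nm (jac x g P * (Q.1 - P.1)) ≤ max r (D ^ 2) := by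
    have e : jac x g P * (Q.1 - P.1) =
        (ev₂ P (dZ x) * (Q.1 - P.1) + ev₂ P (dY x) * (Q.2 - P.2)) * ev₂ P (dY g) -
          (ev₂ P (dZ g) * (Q.1 - P.1) + ev₂ P (dY g) * (Q.2 - P.2)) * ev₂ P (dY x) := by
      rw [jac]
      ring
    rw [e]
    exact (L.sub _ _).trans (max_le (gybn_mul hx' (ev_le hg.dY hP)) (gybn_mul hg' (ev_le hx.dY hP)))
  have c2 : L.nm (jac x g P * (Q.2 - P.2)) ≤ max r (D ^ 2) := by
    have e : jac x g P * (Q.2 - P.2) =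
        (ev₂ P (dZ g) * (Q.1 - P.1) + ev₂ P (dY g) * (Q.2 - P.2)) * ev₂ P (dZ x) -
          (ev₂ P (dZ x) * (Q.1 - P.1) + ev₂ P (dY x) * (Q.2 - P.2)) * ev₂ P (dZ g) := by
      rw [jac]
      ring
    rw [e]
    exact (L.sub _ _).trans (max_le (gybn_mul hg' (ev_le hx.dZ hP)) (gybn_mul hx' (ev_le hg.dZ hP)))
  rw [L.mul, hJ, one_mul] at c1 c2
  have c3 : D ≤ max r (D ^ 2) := by
    rw [hD]
    rw [hD] at c1 c2
    exact max_le c1 c2
  have c4 : D ≤ r := by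
    rcases le_max_iff.1 c3 with h | h
    · exact h
    · nlinarith
  exact ⟨hs.trans c4, ht.trans c4⟩

/-- Proof: `near_le` with `r = 0`. -/
theorem near_uniq (hx : In₂ L x) (hg : In₂ L g) (hP : Ip L P) (hJ : L.nm (jac x g P) = 1)
    (h1 : L.nm (Q.1 - P.1) < 1) (h2 : L.nm (Q.2 - P.2) < 1) (hQx : ev₂ Q x = 0)
    (hQg : ev₂ Q g = 0) (h3 : ev₂ P x = 0) (h4 : ev₂ P g = 0) : Q = P := by
  have h0 : L.nm (0 : Ω) ≤ 0 := ((L.zero_iff 0).2 rfl).le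
  have h := near_le hx hg hP hJ h1 h2 hQx hQg (r := 0) (by rw [h3]; exact h0)
    (by rw [h4]; exact h0)
  have e1 : Q.1 - P.1 = 0 := (L.zero_iff _).1 (le_antisymm h.1 (L.nonneg _))
  have e2 : Q.2 - P.2 = 0 := (L.zero_iff _).1 (le_antisymm h.2 (L.nonneg _))
  exact Prod.ext (sub_eq_zero.1 e1) (sub_eq_zero.1 e2)

end GM
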