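import Pool.Agent.Lib.MP_f80667_ag.Gm.GyB

/-!
The functions of the relation of the curves.
-/

open ZC BE PE CV IntermediateField

namespace GM

section ut

variable {k : Type} [Field k]

/-- The function `∏ (z - c) - a Y ^ j`. -/
noncomputable def xcr (S : Finset k) (a : k) (j : ℕ) : Polynomial (Polynomial k) :=
  Polynomial.C (∏ c ∈ S, (Polynomial.X - Polynomial.C c)) -
    Polynomial.C (Polynomial.C a) * Polynomial.X ^ j

/-- The coefficients of `∏ (z - c)` are in a subring. -/
private theorem gyc_sub {k : Type} [Field k] (T : Subring k) {S : Finset k} (hS : ∀ c ∈ S, c ∈ T)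
    (j : ℕ) : (∏ c ∈ S, (Polynomial.X - Polynomial.C c)).coeff j ∈ T := by
  refine Finset.prod_induction (fun c => Polynomial.X - Polynomial.C c)
    (fun q : Polynomial k => ∀ j, q.coeff j ∈ T) ?_ ?_ ?_ j
  · intro p q hp hq j
    rw [Polynomial.coeff_mul]
    exact T.sum_mem fun x _ => T.mul_mem (hp _) (hq _)
  · intro j
    rw [Polynomial.coeff_one]
    split_ifs
    · exact T.one_mem
    · exact T.zero_mem
  · intro c hc j
    rw [Polynomial.coeff_sub, Polynomial.coeff_X, Polynomial.coeff_C]
    refine T.sub_mem ?_ ?_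
    · split_ifs
      · exact T.one_mem
      · exact T.zero_mem
    · split_ifs
      · exact hS c hc
      · exact T.zero_mem

private theorem gyc_coeff {k : Type} [Field k] (S : Finset k) (a : k) (j i : ℕ) :
    (xcr S a j).coeff i = (if i = 0 then ∏ c ∈ S, (Polynomial.X - Polynomial.C c) else 0) -
      (if i = j then Polynomial.C a else 0) := by
  unfold xcr
  rw [Polynomial.coeff_sub, Polynomial.coeff_C, Polynomial.coeff_C_mul_X_pow]

private theorem gyc_in {k : Type} [Field k] (T : Subring k) {S : Finset k} (hS : ∀ c ∈ S, c ∈ T)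
    {a : k} (ha : a ∈ T) (j i l : ℕ) : ((xcr S a j).coeff i).coeff l ∈ T := by
  rw [gyc_coeff, Polynomial.coeff_sub]
  refine T.sub_mem ?_ ?_
  · split_ifs
    · exact gyc_sub T hS l
    · rw [Polynomial.coeff_zero]
      exact T.zero_mem
  · split_ifs
    · rw [Polynomial.coeff_C]
      split_ifs
      · exact ha
      · exact T.zero_mem
    · rw [Polynomial.coeff_zero]
      exact T.zero_mem

/-- Proof: the polynomial `∏ (z - c) - z ^ D` has a degree `< D`. -/
theorem ut_xcr {S : Finset k} {a : k} {ρ j : ℕ} (hj : j * ρ < S.card) :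
    Ut ρ S.card (xcr S a j) := by
  have hD : 0 < S.card := lt_of_le_of_lt (Nat.zero_le _) hj
  have hm : (∏ c ∈ S, (Polynomial.X - Polynomial.C c)).Monic :=
    Polynomial.monic_prod_of_monic _ _ fun c _ => Polynomial.monic_X_sub_C c
  have hdeg : (∏ c ∈ S, (Polynomial.X - Polynomial.C c)).natDegree = S.card := by
    rw [Polynomial.natDegree_prod_of_monic _ _ fun c _ => Polynomial.monic_X_sub_C c]
    simp
  have hlt : (∏ c ∈ S, (Polynomial.X - Polynomial.C c) - Polynomial.X ^ S.card).natDegree <
      S.card := by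
    rcases eq_or_ne (∏ c ∈ S, (Polynomial.X - Polynomial.C c) - Polynomial.X ^ S.card) 0
      with h0 | h0
    · rw [h0, Polynomial.natDegree_zero]
      exact hD
    · rw [Polynomial.natDegree_lt_iff_degree_lt h0]
      have h1 : (∏ c ∈ S, (Polynomial.X - Polynomial.C c)).degree =
          ((S.card : ℕ) : WithBot ℕ) := by
        rw [Polynomial.degree_eq_natDegree hm.ne_zero, hdeg]
      have h2 := Polynomial.degree_sub_lt_left (p := ∏ c ∈ S, (Polynomial.X - Polynomial.C c))
        (q := Polynomial.X ^ S.card) (by rw [h1, Polynomial.degree_X_pow]) hm.ne_zero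
        (by rw [hm.leadingCoeff, (Polynomial.monic_X_pow _).leadingCoeff])
      rw [h1] at h2
      exact h2
  intro i hi
  rw [Polynomial.coeff_sub, gyc_coeff, Polynomial.coeff_C] at hi ⊢
  rcases eq_or_ne i 0 with rfl | h0
  · rw [if_pos rfl, if_pos rfl, Nat.zero_mul, Nat.add_zero]
    have e : (∏ c ∈ S, (Polynomial.X - Polynomial.C c)) -
        (if 0 = j then Polynomial.C a else 0) - Polynomial.X ^ S.card =
        (∏ c ∈ S, (Polynomial.X - Polynomial.C c) - Polynomial.X ^ S.card) -
          (if 0 = j then Polynomial.C a else 0) := by ring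
    rw [e]
    refine lt_of_le_of_lt (Polynomial.natDegree_sub_le _ _) (max_lt hlt ?_)
    split_ifs
    · rw [Polynomial.natDegree_C]
      exact hD
    · rw [Polynomial.natDegree_zero]
      exact hD
  · rw [if_neg h0, if_neg h0] at hi ⊢
    rcases eq_or_ne i j with rfl | h1
    · rw [if_pos rfl, zero_sub, sub_zero, Polynomial.natDegree_neg, Polynomial.natDegree_C,
        Nat.zero_add]
      exact hj
    · rw [if_neg h1, sub_zero, sub_zero] at hi
      exact absurd rfl hi

theorem xcr_zero (S : Finset k) (j : ℕ) :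
    xcr S 0 j = Polynomial.C (∏ c ∈ S, (Polynomial.X - Polynomial.C c)) := by
  simp [xcr]

theorem ev_xcr (S : Finset k) (a : k) (j : ℕ) (P : k × k) :
    ev₂ P (xcr S a j) = ∏ c ∈ S, (P.1 - c) - a * P.2 ^ j := by
  simp [xcr, ev₂, Polynomial.eval_prod]

theorem dZ_xcr (S : Finset k) (a : k) (j : ℕ) (P : k × k) :
    ev₂ P (dZ (xcr S a j)) =
      (Polynomial.derivative (∏ c ∈ S, (Polynomial.X - Polynomial.C c))).eval P.1 := by
  have h1 : ∀ A B : Polynomial (Polynomial k), dZ (A + B) = dZ A + dZ B := fun A B => by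
    unfold dZ
    rw [Polynomial.sum_add_index] <;> simp [add_mul]
  have h2 : ∀ q : Polynomial k, dZ (Polynomial.C q) = Polynomial.C (Polynomial.derivative q) := by
    intro q
    unfold dZ
    rw [Polynomial.sum_C_index]
    · simp
    · simp
  have h3 : ∀ b : k, dZ (Polynomial.C (Polynomial.C b) * Polynomial.X ^ j) = 0 := by
    intro b
    unfold dZ
    rw [Polynomial.C_mul_X_pow_eq_monomial, Polynomial.sum_monomial_index]
    · simp
    · simp
  have h4 : xcr S a j = Polynomial.C (∏ c ∈ S, (Polynomial.X - Polynomial.C c)) +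
      Polynomial.C (Polynomial.C (-a)) * Polynomial.X ^ j := by
    unfold xcr
    rw [Polynomial.C_neg, Polynomial.C_neg]
    ring
  rw [h4, h1, h2, h3, add_zero]
  simp [ev₂]

theorem dY_xcr (S : Finset k) (a : k) (j : ℕ) (P : k × k) :
    ev₂ P (dY (xcr S a j)) = - (a * (j * P.2 ^ (j - 1))) := by
  unfold xcr dY
  rw [Polynomial.derivative_sub, Polynomial.derivative_C, Polynomial.derivative_C_mul_X_pow]
  simp only [ev₂, RingHom.comp_apply, map_sub, map_zero, map_mul, map_pow,
    Polynomial.coe_evalRingHom, Polynomial.eval_C, Polynomial.eval_X, Polynomial.eval_natCast,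
    map_natCast]
  ring

end ut

variable {K Ω : Type} [Field K] [Field Ω] [Algebra K Ω] {L : Ld K Ω} {S : Finset Ω}

/-- The derivative of `∏ (z - c)` at a root is a unit. -/
theorem nm_der (hS' : ∀ c ∈ S, ∀ c' ∈ S, c ≠ c' → L.nm (c - c') = 1) {c : Ω} (hc : c ∈ S) :
    L.nm ((Polynomial.derivative (∏ c ∈ S, (Polynomial.X - Polynomial.C c))).eval c) = 1 := by
  classical
  rw [← Finset.mul_prod_erase S (fun c => Polynomial.X - Polynomial.C c) hc,
    Polynomial.derivative_mul, Polynomial.eval_add, Polynomial.eval_mul, Polynomial.eval_mul,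
    Polynomial.derivative_X_sub_C, Polynomial.eval_one, one_mul, Polynomial.eval_sub,
    Polynomial.eval_X, Polynomial.eval_C, sub_self, zero_mul, add_zero, Polynomial.eval_prod]
  refine Finset.prod_induction _ (fun x => L.nm x = 1) ?_ L.one ?_
  · intro x y hx hy
    rw [L.mul, hx, hy, one_mul]
  · intro c' hc'
    rw [Polynomial.eval_sub, Polynomial.eval_X, Polynomial.eval_C]
    exact hS' c hc c' (Finset.mem_of_mem_erase hc') (Finset.ne_of_mem_erase hc').symm

/-- Integral coefficients. -/
theorem in_xcr (hS : ∀ c ∈ S, L.nm c ≤ 1) {a : Ω} (ha : L.nm a ≤ 1) (j : ℕ) :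
    In₂ L (xcr S a j) :=
  fun i l => gyc_in L.V.toSubring hS ha j i l

/-- The coefficients are in `M`. -/
theorem rm_xcr {M : IntermediateField K Ω} (hS : ∀ c ∈ S, c ∈ M) {a : Ω} (ha : a ∈ M) (j : ℕ) :
    Rm M (xcr S a j) :=
  fun i l => gyc_in M.toSubalgebra.toSubring hS ha j i l

end GM
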