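import Pool.Agent.Lib.MP_f80667_ag.Gm.GyBz
import Pool.Agent.Lib.MP_f80667_ag.Gm.GyC

/-!
The relation of the curves, for an arbitrary variety.
-/

open ZC BE PE CV IntermediateField

namespace GM

/-- The data of the relation of the curves: a curve `g (z, Y) = 0` over the integers of `M`, a set `S` of values of `z` above which the curve is etale modulo
the maximal ideal, the set `T` of the points above `S`, which are rational over `M`. -/
structure Crd {K Ω : Type} [Field K] [Field Ω] [Algebra K Ω] (L : Ld K Ω)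
    (M : IntermediateField K Ω) (ρ n : ℕ) (g : Polynomial (Polynomial Ω)) (S : Finset Ω)
    (T : Finset (Ω × Ω)) : Prop where
  mc : Mc ρ n g
  ig : In₂ L g
  rg : Rm M g
  mS : ∀ c ∈ S, c ∈ M
  iS : ∀ c ∈ S, L.nm c ≤ 1
  dS : ∀ c ∈ S, ∀ c' ∈ S, c ≠ c' → L.nm (c - c') = 1
  good : ∀ c ∈ S, ∀ w, L.nm w ≤ 1 → L.nm (ev₂ (c, w) g) < 1 → L.nm (ev₂ (c, w) (dY g)) = 1
  mT : ∀ q, q ∈ T ↔ q.1 ∈ S ∧ ev₂ q g = 0
  rT : ∀ q ∈ T, q.2 ∈ M

section disp

variable {K Ω : Type} [Field K] [Field Ω] [Algebra K Ω] {L : Ld K Ω}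
  {M : IntermediateField K Ω} {ρ n : ℕ} {g : Polynomial (Polynomial Ω)} {S : Finset Ω}
  {T : Finset (Ω × Ω)}

theorem Crd.ip (h : Crd L M ρ n g S T) {q : Ω × Ω} (hq : q ∈ T) : Ip L q := by
  have h1 := (h.mT q).1 hq
  exact ⟨h.iS _ h1.1, w_int h.mc.monic h.ig (h.iS _ h1.1) h1.2⟩

theorem Crd.dy (h : Crd L M ρ n g S T) {q : Ω × Ω} (hq : q ∈ T) :
    L.nm (ev₂ q (dY g)) = 1 := by
  have h1 := (h.mT q).1 hq
  refine h.good q.1 h1.1 q.2 (h.ip hq).2 ?_
  change L.nm (ev₂ q g) < 1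
  rw [h1.2, L.zero]
  exact one_pos

end disp

end GM
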