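import Pool.Agent.Lib.MP_f80667_ag.Gm.GyD

/-!
The points above `S` are different modulo the maximal ideal; the Jacobian determinant.
-/

open ZC BE PE CV IntermediateField

namespace GM

section disp

variable {K Ω : Type} [Field K] [Field Ω] [Algebra K Ω] {L : Ld K Ω}
  {M : IntermediateField K Ω} {ρ n : ℕ} {g : Polynomial (Polynomial Ω)} {S : Finset Ω}
  {T : Finset (Ω × Ω)}

/-- Different points of `T` are different modulo the maximal ideal. Proof: `near_uniq` for the function `∏ (z - c)` (or directly). -/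
theorem Crd.inj (h : Crd L M ρ n g S T) {q q' : Ω × Ω} (hq : q ∈ T) (hq' : q' ∈ T)
    (h1 : L.nm (q.1 - q'.1) < 1) (h2 : L.nm (q.2 - q'.2) < 1) : q = q' := by
  have hS := (h.mT q).1 hq
  have hS' := (h.mT q').1 hq'
  have e1 : q.1 = q'.1 := by
    by_contra hne
    exact absurd (h.dS _ hS.1 _ hS'.1 hne) h1.ne
  have hz : L.nm (q.1 - q'.1) ≤ L.nm (q.2 - q'.2) := by
    rw [e1, sub_self, L.zero]
    exact L.nonneg _
  have h3 := tay_nm h.ig (h.ip hq') (h.ip hq) hz le_rfl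
  rw [hS.2, hS'.2, e1, sub_self, sub_self, mul_zero, zero_add, zero_sub, L.neg, L.mul, h.dy hq',
    one_mul] at h3
  have h4 : L.nm (q.2 - q'.2) = 0 := by
    by_contra hne
    have hpos : 0 < L.nm (q.2 - q'.2) := lt_of_le_of_ne (L.nonneg _) (Ne.symm hne)
    have h5 : L.nm (q.2 - q'.2) ^ 2 < L.nm (q.2 - q'.2) := by
      rw [sq]
      exact mul_lt_of_lt_one_left hpos h2
    exact absurd h5 (not_lt.2 h3)
  exact Prod.ext e1 (sub_eq_zero.1 ((L.zero_iff _).1 h4))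

/-- The Jacobian determinant of `∏ (z - c) - a Y ^ j` is a unit. -/
theorem Crd.jac (h : Crd L M ρ n g S T) {a : Ω} (ha : L.nm a < 1) (j : ℕ) {q : Ω × Ω}
    (hq : q ∈ T) : L.nm (jac (xcr S a j) g q) = 1 := by
  have hS := (h.mT q).1 hq
  have hip := h.ip hq
  have e1 : L.nm (ev₂ q (dZ (xcr S a j)) * ev₂ q (dY g)) = 1 := by
    rw [L.mul, h.dy hq, dZ_xcr, nm_der h.dS hS.1, mul_one]
  have e2 : L.nm (-(ev₂ q (dY (xcr S a j)) * ev₂ q (dZ g))) < 1 := by
    rw [L.neg, L.mul, dY_xcr, L.neg, L.mul]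
    have h1 : L.nm ((j : Ω) * q.2 ^ (j - 1)) ≤ 1 := by
      rw [L.mul, L.pow]
      exact mul_le_one₀ (L.nat_le j) (pow_nonneg (L.nonneg _) _)
        (pow_le_one₀ (L.nonneg _) hip.2)
    exact mul_lt_one_of_nonneg_of_lt_one_left (mul_nonneg (L.nonneg _) (L.nonneg _))
      (mul_lt_one_of_nonneg_of_lt_one_left (L.nonneg _) ha h1) (ev_le h.ig.dZ hip)
  unfold GM.jac
  rw [sub_eq_add_neg, L.add_eq' (by rw [e1]; exact e2), e1]

/-- The Jacobian determinant is a unit near `q`. -/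
theorem Crd.jac_near (h : Crd L M ρ n g S T) {a : Ω} (ha : L.nm a < 1) (j : ℕ) {q Q : Ω × Ω}
    (hq : q ∈ T) (h1 : L.nm (Q.1 - q.1) < 1) (h2 : L.nm (Q.2 - q.2) < 1) :
    L.nm (GM.jac (xcr S a j) g Q) = 1 ∧ L.nm (ev₂ Q (dY g)) = 1 := by
  have hip := h.ip hq
  have hQ : Ip L Q := by
    constructor
    · have h3 := L.add (Q.1 - q.1) q.1
      rw [sub_add_cancel] at h3
      exact h3.trans (max_le h1.le hip.1)
    · have h3 := L.add (Q.2 - q.2) q.2
      rw [sub_add_cancel] at h3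
      exact h3.trans (max_le h2.le hip.2)
  have hlt : max (L.nm (Q.1 - q.1)) (L.nm (Q.2 - q.2)) < 1 := max_lt h1 h2
  have key : ∀ {A : Polynomial (Polynomial Ω)}, In₂ L A → L.nm (ev₂ q A) = 1 →
      L.nm (ev₂ Q A) = 1 := by
    intro A hA e
    have h3 := (ev_sub_le hA hip hQ (le_max_left _ _) (le_max_right _ _)).trans_lt hlt
    rw [L.eq_of_close (by rw [e]; exact h3), e]
  refine ⟨?_, key h.ig.dY (h.dy hq)⟩
  have hx := in_xcr h.iS ha.le j
  have e : ∀ P : Ω × Ω, GM.jac (xcr S a j) g P =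
      ev₂ P (dZ (xcr S a j) * dY g - dY (xcr S a j) * dZ g) := by
    intro P
    unfold GM.jac
    rw [map_sub, map_mul, map_mul]
  rw [e]
  refine key ((hx.dZ.mul h.ig.dY).sub (hx.dY.mul h.ig.dZ)) ?_
  rw [← e]
  exact h.jac ha j hq

end disp

end GM
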