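import Pool.Agent.Lib.MP_f80667_ag.Gm.GyDa
import Pool.Agent.Lib.MP_f80667_ag.Gm.GyBn
import Pool.Agent.Lib.MP_f80667_ag.Gm.GyBx

/-!
The displaced points.
-/

open ZC BE PE CV IntermediateField

namespace GM

section disp

variable {K Ω : Type} [Field K] [Field Ω] [Algebra K Ω] {L : Ld K Ω}
  {M : IntermediateField K Ω} {ρ n : ℕ} {g : Polynomial (Polynomial Ω)} {S : Finset Ω}
  {T : Finset (Ω × Ω)}

/-- **The displaced points.** -/
theorem Crd.exists_disp [FiniteDimensional K M] (h : Crd L M ρ n g S T) {a : Ω} (ha : a ∈ M)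
    (ha1 : L.nm a < 1) (j : ℕ) {q : Ω × Ω} (hq : q ∈ T) :
    ∃ Q : Ω × Ω, Q.1 ∈ M ∧ Q.2 ∈ M ∧ Ip L Q ∧ L.nm (Q.1 - q.1) ≤ L.nm a ∧
      L.nm (Q.2 - q.2) ≤ L.nm a ∧ ev₂ Q (xcr S a j) = 0 ∧ ev₂ Q g = 0 := by
  have hqT := (h.mT q).1 hq
  have hip := h.ip hq
  have hx : In₂ L (xcr S a j) := in_xcr h.iS ha1.le j
  have e1 : ev₂ q (xcr S a j) = -(a * q.2 ^ j) := by
    rw [ev_xcr, Finset.prod_eq_zero hqT.1 (sub_self q.1), zero_sub]
  have e2 : L.nm (ev₂ q (xcr S a j)) ≤ L.nm a := by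
    have h1 : L.nm (-(a * q.2 ^ j)) = L.nm (a * q.2 ^ j) := by
      rw [← neg_one_mul, L.mul]
      have h2 : L.nm (-1) * L.nm (-1) = 1 := by
        rw [← L.mul, neg_one_mul, neg_neg, L.one]
      have h3 : L.nm (-1) = 1 := by
        nlinarith [L.nonneg (-1 : Ω)]
      rw [h3, one_mul]
    rw [e1, h1, L.mul, L.pow]
    exact mul_le_of_le_one_right (L.nonneg _) (pow_le_one₀ (L.nonneg _) hip.2)
  have e3 : L.nm (ev₂ q g) = 0 := by
    rw [hqT.2, L.zero]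
  have hJ := h.jac ha1 j hq
  obtain ⟨Q, m1, m2, n1, n2, z1, z2⟩ := near_ex hx h.ig (rm_xcr h.mS ha j) h.rg hip
    (h.mS _ hqT.1) (h.rT q hq) hJ (e2.trans_lt ha1) (by rw [e3]; exact one_pos)
  obtain ⟨k1, k2⟩ := near_le hx h.ig hip hJ n1 n2 z1 z2 e2 (by rw [e3]; exact L.nonneg a)
  refine ⟨Q, m1, m2, ⟨?_, ?_⟩, k1, k2, z1, z2⟩
  · have h1 := L.add (Q.1 - q.1) q.1
    rw [sub_add_cancel] at h1
    exact h1.trans (max_le n1.le hip.1)
  · have h1 := L.add (Q.2 - q.2) q.2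
    rw [sub_add_cancel] at h1
    exact h1.trans (max_le n2.le hip.2)

end disp

end GM
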