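import Pool.Agent.Lib.MP_f80667_ag.Gm.GyDa

/-!
Common zeros are near the points above `S`; the second order estimate.
-/

open ZC BE PE CV IntermediateField

namespace GM

section disp

variable {K Ω : Type} [Field K] [Field Ω] [Algebra K Ω] {L : Ld K Ω}
  {M : IntermediateField K Ω} {ρ n : ℕ} {g : Polynomial (Polynomial Ω)} {S : Finset Ω}
  {T : Finset (Ω × Ω)}

private theorem gydc_prod {S : Finset Ω} {f : Ω → Ω} (h : ∀ c ∈ S, 1 ≤ L.nm (f c)) :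
    1 ≤ L.nm (∏ c ∈ S, f c) := by
  classical
  induction S using Finset.induction_on with
  | empty => rw [Finset.prod_empty, L.one]
  | insert c S hc ih =>
    rw [Finset.prod_insert hc, L.mul]
    have h1 := h c (Finset.mem_insert_self c S)
    have h2 := ih fun c' hc' => h c' (Finset.mem_insert_of_mem hc')
    exact one_le_mul_of_one_le_of_one_le h1 h2

/-- Every common zero of `g` and `∏ (z - c) - a Y ^ j` is near a point of `T`. Proof: `z_int`; `∏ nm (c' - c) < 1`, so `c'` is near some `c ∈ S`; `near_root`. -/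
theorem Crd.near [IsAlgClosed Ω] (h : Crd L M ρ n g S T) {a : Ω} (ha1 : L.nm a < 1) {j : ℕ}
    (hj : j * ρ < S.card) {Q : Ω × Ω} (h0 : ev₂ Q (xcr S a j) = 0) (h1 : ev₂ Q g = 0) :
    ∃ q ∈ T, L.nm (Q.1 - q.1) < 1 ∧ L.nm (Q.2 - q.2) < 1 := by
  have hQ : Ip L Q := z_int h.mc h.ig (ut_xcr hj) (in_xcr h.iS ha1.le j) h1 h0
  rw [ev_xcr, sub_eq_zero] at h0
  obtain ⟨c, hc, hcQ⟩ : ∃ c ∈ S, L.nm (Q.1 - c) < 1 := by
    by_contra hcon
    push Not at hcon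
    have h2 := gydc_prod (L := L) (S := S) (f := fun c => Q.1 - c) hcon
    rw [h0, L.mul, L.pow] at h2
    have h3 : L.nm a * L.nm Q.2 ^ j ≤ L.nm a :=
      mul_le_of_le_one_right (L.nonneg _) (pow_le_one₀ (L.nonneg _) hQ.2)
    exact absurd (h2.trans h3) (not_le.2 ha1)
  have hI : Ip L (c, Q.2) := ⟨h.iS c hc, hQ.2⟩
  have h4 : L.nm (ev₂ (c, Q.2) g) < 1 := by
    have h5 := ev_sub_le h.ig hI hQ (r := L.nm (Q.1 - c)) le_rfl (by
      rw [sub_self, L.zero]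
      exact L.nonneg _)
    rw [h1, zero_sub, L.neg] at h5
    exact h5.trans_lt hcQ
  obtain ⟨w', hw', hww⟩ := near_root h.mc.monic h.ig (h.iS c hc) hQ.2 h4
  exact ⟨(c, w'), (h.mT _).2 ⟨hc, hw'⟩, hcQ, hww⟩

/-- The second order estimate. Proof: `tay_nm` for `∏ (z - c) - a Y ^ j` and for `g`. -/
theorem Crd.second (h : Crd L M ρ n g S T) {a : Ω} (ha1 : L.nm a < 1) (j : ℕ) {q Q : Ω × Ω}
    (hq : q ∈ T) (hQ : Ip L Q) (h1 : L.nm (Q.1 - q.1) ≤ L.nm a)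
    (h2 : L.nm (Q.2 - q.2) ≤ L.nm a) (h3 : ev₂ Q (xcr S a j) = 0) (h4 : ev₂ Q g = 0) :
    L.nm (Q.1 - q.1 - a * q.2 ^ j /
      (Polynomial.derivative (∏ c ∈ S, (Polynomial.X - Polynomial.C c))).eval q.1) ≤ L.nm a ^ 2 ∧
    L.nm (Q.2 - q.2 + ev₂ q (dZ g) / ev₂ q (dY g) * (Q.1 - q.1)) ≤ L.nm a ^ 2 := by
  have hqI := h.ip hq
  have hqT := (h.mT q).1 hq
  have hD := nm_der h.dS hqT.1
  have hY := h.dy hq
  obtain ⟨D, hDe⟩ : ∃ D, D = (Polynomial.derivative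
    (∏ c ∈ S, (Polynomial.X - Polynomial.C c))).eval q.1 := ⟨_, rfl⟩
  rw [← hDe] at hD ⊢
  have hD0 : D ≠ 0 := fun h0 => by
    rw [h0, L.zero] at hD
    exact zero_ne_one hD
  have hY0 : ev₂ q (dY g) ≠ 0 := fun h0 => by
    rw [h0, L.zero] at hY
    exact zero_ne_one hY
  constructor
  · have h5 := tay_nm (in_xcr h.iS ha1.le j) hqI hQ h1 h2
    rw [h3, dZ_xcr, dY_xcr, ev_xcr, Finset.prod_eq_zero hqT.1 (sub_self _), ← hDe] at h5
    have h6 : L.nm (a * (j * q.2 ^ (j - 1)) * (Q.2 - q.2)) ≤ L.nm a ^ 2 := by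
      have hj : L.nm ((j : Ω) * q.2 ^ (j - 1)) ≤ 1 := by
        rw [L.mul, L.pow]
        exact mul_le_one₀ (L.mem_V.1 (natCast_mem L.V j)) (pow_nonneg (L.nonneg _) _)
          (pow_le_one₀ (L.nonneg _) hqI.2)
      rw [L.mul, L.mul, sq]
      exact mul_le_mul (mul_le_of_le_one_right (L.nonneg _) hj) h2 (L.nonneg _) (L.nonneg _)
    have e : Q.1 - q.1 - a * q.2 ^ j / D =
        -((0 - (0 - a * q.2 ^ j) - (D * (Q.1 - q.1) + -(a * (j * q.2 ^ (j - 1))) *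
          (Q.2 - q.2))) - a * (j * q.2 ^ (j - 1)) * (Q.2 - q.2)) / D := by
      field_simp
      ring
    rw [e, L.div, hD, div_one, L.neg]
    exact (L.sub _ _).trans (max_le h5 h6)
  · have h5 := tay_nm h.ig hqI hQ h1 h2
    rw [h4, hqT.2] at h5
    have e : Q.2 - q.2 + ev₂ q (dZ g) / ev₂ q (dY g) * (Q.1 - q.1) =
        -(0 - 0 - (ev₂ q (dZ g) * (Q.1 - q.1) + ev₂ q (dY g) * (Q.2 - q.2))) /
          ev₂ q (dY g) := by
      field_simp
      ring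
    rw [e, L.div, hY, div_one, L.neg]
    exact h5

end disp

end GM
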