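import Pool.Agent.Lib.MP_f80667_ag.Gm.GyAo
import Pool.Agent.Lib.MP_f80667_ag.Gm.GyDb
import Pool.Agent.Lib.MP_f80667_ag.Gm.GyDc

/-!
The relation of the curves, for an arbitrary variety.
-/

open ZC BE PE CV IntermediateField

namespace GM

variable {F : Type} [Field F] {K Ω : Type} [Field K] [CharZero K] [Field Ω] [Algebra K Ω]
  [Algebra F K] [Algebra F Ω] [IsScalarTower F K Ω] [IsAlgClosure K Ω] {L : Ld K Ω}
  {M : IntermediateField K Ω} {ρ n : ℕ} {g : Polynomial (Polynomial Ω)} {S : Finset Ω}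
  {T : Finset (Ω × Ω)}

open Classical in
/-- **The relation of the curves (CR)**, for an arbitrary variety. `φ q` is the displaced point. -/
theorem Crd.cr [FiniteDimensional K M] (V : Vr F) (h : Crd L M ρ n g S T) {a : Ω} (ha : a ∈ M)
    (ha1 : L.nm a < 1) {j : ℕ} (hj : j * ρ < S.card) :
    ∃ φ : Ω × Ω → Ω × Ω,
      (∀ q ∈ T, (φ q).1 ∈ M ∧ (φ q).2 ∈ M ∧ Ip L (φ q) ∧ L.nm ((φ q).1 - q.1) ≤ L.nm a ∧
        L.nm ((φ q).2 - q.2) ≤ L.nm a ∧ ev₂ (φ q) g = 0 ∧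
        L.nm ((φ q).1 - q.1 - a * q.2 ^ j /
          (Polynomial.derivative (∏ c ∈ S, (Polynomial.X - Polynomial.C c))).eval q.1) ≤
            L.nm a ^ 2 ∧
        L.nm ((φ q).2 - q.2 + ev₂ q (dZ g) / ev₂ q (dY g) * ((φ q).1 - q.1)) ≤
          L.nm a ^ 2) ∧
      ∀ pt : Ω × Ω → V.pt Ω, Gpm V M g (T ∪ T.image φ) pt →
        ∑ q ∈ T, (Finsupp.single (pt (φ q)) (1 : ℤ) - Finsupp.single (pt q) 1) ∈
          V.ratEq M Ω := by
  have hcl : IsAlgClosed Ω := IsAlgClosure.isAlgClosed K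
  have hex : ∀ q : Ω × Ω, ∃ Q : Ω × Ω, q ∈ T → Q.1 ∈ M ∧ Q.2 ∈ M ∧ Ip L Q ∧
      L.nm (Q.1 - q.1) ≤ L.nm a ∧ L.nm (Q.2 - q.2) ≤ L.nm a ∧ ev₂ Q (xcr S a j) = 0 ∧
      ev₂ Q g = 0 := by
    intro q
    by_cases hq : q ∈ T
    · obtain ⟨Q, hQ⟩ := h.exists_disp ha ha1 j hq
      exact ⟨Q, fun _ => hQ⟩
    · exact ⟨q, fun h => absurd h hq⟩
  choose φ hφ using hex
  have hn : ∀ q ∈ T, L.nm ((φ q).1 - q.1) < 1 ∧ L.nm ((φ q).2 - q.2) < 1 := fun q hq =>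
    ⟨(hφ q hq).2.2.2.1.trans_lt ha1, (hφ q hq).2.2.2.2.1.trans_lt ha1⟩
  have hix : In₂ L (xcr S a j) := in_xcr h.iS ha1.le j
  -- the zeros of `x`
  have hzx : ∀ P : Ω × Ω, ev₂ P g = 0 → ev₂ P (xcr S a j) = 0 → P ∈ T.image φ := by
    intro P h1 h2
    obtain ⟨q, hq, h3, h4⟩ := h.near ha1 hj h2 h1
    obtain ⟨-, -, h5, -, -, h6, h7⟩ := hφ q hq
    have h8 := h.jac_near ha1 j hq (hn q hq).1 (hn q hq).2
    have h9 : L.nm (P.1 - (φ q).1) < 1 := by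
      have e : P.1 - (φ q).1 = (P.1 - q.1) - ((φ q).1 - q.1) := by ring
      rw [e]
      exact (L.sub _ _).trans_lt (max_lt h3 (hn q hq).1)
    have h10 : L.nm (P.2 - (φ q).2) < 1 := by
      have e : P.2 - (φ q).2 = (P.2 - q.2) - ((φ q).2 - q.2) := by ring
      rw [e]
      exact (L.sub _ _).trans_lt (max_lt h4 (hn q hq).2)
    rw [Finset.mem_image]
    exact ⟨q, hq, (near_uniq hix h.ig h5 h8.1 h9 h10 h2 h1 h6 h7).symm⟩
  -- the zeros of `y`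
  have hev : ∀ P : Ω × Ω, ev₂ P (xcr S 0 j) = ∏ c ∈ S, (P.1 - c) := by
    intro P
    rw [ev_xcr, zero_mul, sub_zero]
  have hzy : ∀ P : Ω × Ω, ev₂ P g = 0 → ev₂ P (xcr S 0 j) = 0 → P ∈ T := by
    intro P h1 h2
    rw [hev, Finset.prod_eq_zero_iff] at h2
    obtain ⟨c, hc, h3⟩ := h2
    rw [h.mT]
    exact ⟨by rw [sub_eq_zero.1 h3]; exact hc, h1⟩
  have hinj : ∀ q ∈ T, ∀ q' ∈ T, φ q = φ q' → q = q' := by
    intro q hq q' hq' he
    refine h.inj hq hq' ?_ ?_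
    · have e : q.1 - q'.1 = ((φ q').1 - q'.1) - ((φ q).1 - q.1) := by rw [he]; ring
      rw [e]
      exact (L.sub _ _).trans_lt (max_lt (hn q' hq').1 (hn q hq).1)
    · have e : q.2 - q'.2 = ((φ q').2 - q'.2) - ((φ q).2 - q.2) := by rw [he]; ring
      rw [e]
      exact (L.sub _ _).trans_lt (max_lt (hn q' hq').2 (hn q hq).2)
  have hne : ∀ z : Ω, L.nm z = 1 → z ≠ 0 := by
    rintro z hz rfl
    rw [L.zero] at hz
    exact zero_ne_one hz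
  refine ⟨φ, fun q hq => ?_, fun pt hpt => ?_⟩
  · obtain ⟨h1, h2, h3, h4, h5, h6, h7⟩ := hφ q hq
    obtain ⟨h8, h9⟩ := h.second ha1 j hq h3 h4 h5 h6 h7
    exact ⟨h1, h2, h3, h4, h5, h7, h8, h9⟩
  have hΦ : ∀ P ∈ T ∪ T.image φ, ev₂ P g = 0 ∧ ev₂ P (dY g) ≠ 0 := by
    intro P hP
    rcases Finset.mem_union.1 hP with hP | hP
    · exact ⟨((h.mT P).1 hP).2, hne _ (h.dy hP)⟩
    · obtain ⟨q, hq, rfl⟩ := Finset.mem_image.1 hP
      exact ⟨(hφ q hq).2.2.2.2.2.2,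
        hne _ (h.jac_near ha1 j hq (hn q hq).1 (hn q hq).2).2⟩
  have hall : ∀ P : Ω × Ω, ev₂ P g = 0 → ev₂ P (xcr S a j) = 0 ∨ ev₂ P (xcr S 0 j) = 0 →
      P ∈ T ∪ T.image φ := by
    rintro P h1 (h2 | h2)
    · exact Finset.mem_union_right _ (hzx P h1 h2)
    · exact Finset.mem_union_left _ (hzy P h1 h2)
  have key := pr_m V h.rg (rm_xcr h.mS ha j) (rm_xcr h.mS M.zero_mem j) h.mc (ut_xcr hj)
    (ut_xcr hj) hΦ hall hpt
  have hx1 : ∀ P ∈ T ∪ T.image φ, odp g P (xcr S a j) = if P ∈ T.image φ then 1 else 0 := by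
    intro P hP
    obtain ⟨h1, h2⟩ := hΦ P hP
    split_ifs with h3
    · obtain ⟨q, hq, rfl⟩ := Finset.mem_image.1 h3
      exact odp_one h1 h2 (hφ q hq).2.2.2.2.2.1
        (hne _ (h.jac_near ha1 j hq (hn q hq).1 (hn q hq).2).1)
    · exact odp_zero h1 h2 fun h4 => h3 (hzx P h1 h4)
  have hy1 : ∀ P ∈ T ∪ T.image φ, odp g P (xcr S 0 j) = if P ∈ T then 1 else 0 := by
    intro P hP
    obtain ⟨h1, h2⟩ := hΦ P hP
    split_ifs with h3
    · refine odp_one h1 h2 ?_ (hne _ (h.jac (a := 0) (by rw [L.zero]; exact one_pos) j h3))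
      rw [hev, Finset.prod_eq_zero_iff]
      exact ⟨P.1, ((h.mT P).1 h3).1, sub_self _⟩
    · exact odp_zero h1 h2 fun h4 => h3 (hzy P h1 h4)
  have hsum : ∑ P ∈ T ∪ T.image φ, Finsupp.single (pt P)
      ((odp g P (xcr S a j) : ℤ) - odp g P (xcr S 0 j)) =
      ∑ q ∈ T, (Finsupp.single (pt (φ q)) (1 : ℤ) - Finsupp.single (pt q) 1) := by
    have e1 : ∀ P ∈ T ∪ T.image φ, Finsupp.single (pt P)
        ((odp g P (xcr S a j) : ℤ) - odp g P (xcr S 0 j)) =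
        (if P ∈ T.image φ then Finsupp.single (pt P) (1 : ℤ) else 0) -
          (if P ∈ T then Finsupp.single (pt P) (1 : ℤ) else 0) := by
      intro P hP
      rw [hx1 P hP, hy1 P hP]
      split_ifs <;> simp
    rw [Finset.sum_congr rfl e1, Finset.sum_sub_distrib, Finset.sum_sub_distrib,
      Finset.sum_ite_mem, Finset.sum_ite_mem, Finset.union_inter_cancel_right,
      Finset.union_inter_cancel_left, Finset.sum_image hinj]
  rw [hsum] at key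
  exact key

end GM
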