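import Pool.Agent.Lib.MP_f80667_ag.Gm.GeD
import Pool.Agent.Lib.MP_f80667_ag.Gm.GyB

/-!
The curve `G (a (z) + Y v) = 0` of an arc `a` and a direction `v`.
-/

open ZC BE PE CV IntermediateField

namespace GM

variable {F : Type} [Field F] {N : ℕ} {K Ω : Type} [Field K] [Field Ω] [Algebra K Ω]
  [Algebra F K] [Algebra F Ω] [IsScalarTower F K Ω]

/-- The coordinates `a_i (z) + Y v_i`. -/
noncomputable def cav (a : Fin N → Polynomial Ω) (v : Fin N → Ω) (i : Fin N) :
    Polynomial (Polynomial Ω) :=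
  Polynomial.C (a i) + Polynomial.X * Polynomial.C (Polynomial.C (v i))

/-- The polynomial `G (a (z) + Y v) / G (v)`. -/
noncomputable def gav (G : MvPolynomial (Fin N) F) (a : Fin N → Polynomial Ω) (v : Fin N → Ω) :
    Polynomial (Polynomial Ω) :=
  Polynomial.C (Polynomial.C (MvPolynomial.aeval v G)⁻¹) * MvPolynomial.aeval (cav a v) G

section priv

private theorem gyF_mem {S : Subring Ω} {A : Polynomial (Polynomial Ω)} :
    A ∈ (Polynomial.mapRingHom (Polynomial.mapRingHom S.subtype)).rangeS ↔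
      ∀ i j, (A.coeff i).coeff j ∈ S := by
  constructor
  · rintro ⟨A', rfl⟩ i j
    have h1 : (((Polynomial.mapRingHom (Polynomial.mapRingHom S.subtype)) A').coeff i).coeff j =
        ((A'.coeff i).coeff j : Ω) := by
      simp
    rw [h1]
    exact ((A'.coeff i).coeff j).2
  · intro h
    have h1 : A ∈ Polynomial.lifts (Polynomial.mapRingHom S.subtype) := by
      rw [Polynomial.lifts_iff_coeff_lifts]
      intro i
      have h2 : A.coeff i ∈ Polynomial.lifts S.subtype := by
        rw [Polynomial.lifts_iff_coeff_lifts]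
        intro j
        exact ⟨⟨_, h i j⟩, rfl⟩
      exact (Polynomial.mem_lifts _).1 h2
    exact (Polynomial.mem_lifts _).1 h1

private theorem gyF_C {S : Subring Ω} {c : Ω} (h : c ∈ S) :
    (Polynomial.C (Polynomial.C c) : Polynomial (Polynomial Ω)) ∈
      (Polynomial.mapRingHom (Polynomial.mapRingHom S.subtype)).rangeS :=
  ⟨Polynomial.C (Polynomial.C ⟨c, h⟩), by simp⟩

private theorem gyF_CA {S : Subring Ω} {A : Polynomial Ω} (h : ∀ j, A.coeff j ∈ S) :
    (Polynomial.C A : Polynomial (Polynomial Ω)) ∈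
      (Polynomial.mapRingHom (Polynomial.mapRingHom S.subtype)).rangeS := by
  rw [gyF_mem]
  intro i j
  rw [Polynomial.coeff_C]
  split_ifs
  · exact h j
  · rw [Polynomial.coeff_zero]
    exact S.zero_mem

private theorem gyF_cav {S : Subring Ω} {a : Fin N → Polynomial Ω} {v : Fin N → Ω}
    (ha : ∀ i j, (a i).coeff j ∈ S) (hv : ∀ i, v i ∈ S) (i : Fin N) :
    cav a v i ∈ (Polynomial.mapRingHom (Polynomial.mapRingHom S.subtype)).rangeS :=
  add_mem (gyF_CA (ha i)) (mul_mem ⟨Polynomial.X, by simp⟩ (gyF_C (hv i)))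

private theorem gyF_aeval {S : Subring Ω} {G : MvPolynomial (Fin N) F}
    (hG : ∀ d, algebraMap F Ω (G.coeff d) ∈ S) {x : Fin N → Polynomial (Polynomial Ω)}
    (hx : ∀ i, x i ∈ (Polynomial.mapRingHom (Polynomial.mapRingHom S.subtype)).rangeS) :
    MvPolynomial.aeval x G ∈
      (Polynomial.mapRingHom (Polynomial.mapRingHom S.subtype)).rangeS := by
  rw [MvPolynomial.aeval_def, MvPolynomial.eval₂_eq]
  exact sum_mem fun d _ => mul_mem (gyF_C (hG d)) (prod_mem fun i _ => pow_mem (hx i) _)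

private theorem gyF_gav {S : Subring Ω} {G : MvPolynomial (Fin N) F}
    {a : Fin N → Polynomial Ω} {v : Fin N → Ω}
    (hG : ∀ d, algebraMap F Ω (G.coeff d) ∈ S)
    (ha : ∀ i j, (a i).coeff j ∈ S) (hv : ∀ i, v i ∈ S)
    (h : (MvPolynomial.aeval v G)⁻¹ ∈ S) :
    gav G a v ∈ (Polynomial.mapRingHom (Polynomial.mapRingHom S.subtype)).rangeS :=
  mul_mem (gyF_C h) (gyF_aeval hG (gyF_cav ha hv))

end priv

variable (G : MvPolynomial (Fin N) F) (a : Fin N → Polynomial Ω) (v : Fin N → Ω)

theorem ev_cav (P : Ω × Ω) (i : Fin N) : ev₂ P (cav a v i) = ac a v P.1 P.2 i := by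
  have h : ev₂ P (cav a v i) = (a i).eval P.1 + P.2 * v i := by
    simp only [cav, map_add, map_mul]
    simp [ev₂]
  exact h

theorem ev_gav (P : Ω × Ω) : ev₂ P (gav G a v) =
    (MvPolynomial.aeval v G)⁻¹ * MvPolynomial.aeval (ac a v P.1 P.2) G := by
  have h1 : ev₂ P (Polynomial.C (Polynomial.C (MvPolynomial.aeval v G)⁻¹)) =
      (MvPolynomial.aeval v G)⁻¹ := by simp [ev₂]
  have h2 : ev₂ P (MvPolynomial.aeval (cav a v) G) =
      MvPolynomial.aeval (ac a v P.1 P.2) G := by
    rw [MvPolynomial.map_aeval, MvPolynomial.aeval_def, MvPolynomial.coe_eval₂Hom]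
    have h3 : (ev₂ P).comp (algebraMap F (Polynomial (Polynomial Ω))) = algebraMap F Ω := by
      refine RingHom.ext fun c => ?_
      rw [RingHom.comp_apply, Polynomial.algebraMap_apply, Polynomial.algebraMap_apply]
      simp [ev₂]
    rw [h3]
    exact congrArg (fun f => MvPolynomial.eval₂ (algebraMap F Ω) f G)
      (funext fun i => ev_cav a v P i)
  rw [gav, map_mul, h1, h2]

variable {G a v}

variable {L : Ld K Ω} {M : IntermediateField K Ω}

/-- Proof: `In₂` is closed under sums and products. -/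
theorem in_cav (ha : Arc L M a) (hv : Iv L M v) (i : Fin N) : In₂ L (cav a v i) :=
  gyF_mem (S := L.V.toSubring) |>.1
    (gyF_cav (fun i j => (ha i j).2) (fun i => (hv i).2) i)

theorem in_gav (hG : ∀ d, L.nm (algebraMap F Ω (G.coeff d)) ≤ 1) (ha : Arc L M a)
    (hv : Iv L M v) (h1 : L.nm (MvPolynomial.aeval v G) = 1) : In₂ L (gav G a v) := by
  have h2 : L.nm (MvPolynomial.aeval v G)⁻¹ = 1 := by
    have h3 := L.mul (MvPolynomial.aeval v G) (MvPolynomial.aeval v G)⁻¹
    have h4 : MvPolynomial.aeval v G ≠ 0 := by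
      intro h5
      rw [h5, L.zero] at h1
      exact zero_ne_one h1
    rw [mul_inv_cancel₀ h4, h1, one_mul, L.one] at h3
    exact h3.symm
  exact gyF_mem (S := L.V.toSubring) |>.1
    (gyF_gav hG (fun i j => (ha i j).2) (fun i => (hv i).2) h2.le)

theorem rm_cav (ha : Arc L M a) (hv : Iv L M v) (i : Fin N) : Rm M (cav a v i) :=
  gyF_mem (S := M.toSubalgebra.toSubring) |>.1
    (gyF_cav (fun i j => (ha i j).1) (fun i => (hv i).1) i)

/-- Proof: the coefficients of `G` are in `K ≤ M`. -/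
theorem rm_gav (ha : Arc L M a) (hv : Iv L M v) : Rm M (gav G a v) := by
  have hG : ∀ c : F, algebraMap F Ω c ∈ M := by
    intro c
    rw [IsScalarTower.algebraMap_apply F K Ω]
    exact M.algebraMap_mem _
  have h1 : MvPolynomial.aeval v G ∈ M := by
    rw [MvPolynomial.aeval_def, MvPolynomial.eval₂_eq]
    exact sum_mem fun d _ => mul_mem (hG _) (prod_mem fun i _ => pow_mem (hv i).1 _)
  exact gyF_mem (S := M.toSubalgebra.toSubring) |>.1
    (gyF_gav (fun d => hG _) (fun i j => (ha i j).1) (fun i => (hv i).1) (M.inv_mem h1))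

end GM
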