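import Pool.Agent.Lib.MP_f80667_ag.Cv.MdL
import Pool.Agent.Lib.MP_f80667_ag.Gm.GpD

/-!
Curves over the integers of `M`: values, orders, good points.

* `om : OM L M → Ω`: the inclusion. `e2 P A`: the value at the point `P` of a polynomial over the integers of `M`.
* `ps g P A = A(c + t, W)` for the Hensel root `W` of `g` at `P = (c, w)`, `od g P A` its order.
* `Gp g P`: `P` is an integral point of the curve and `g_Y(P)` is a unit.
-/

open ZC BE PE CV Polynomial IntermediateField IsLocalRing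

namespace GM

section defs

variable {K Ω : Type} [Field K] [Field Ω] [Algebra K Ω] (L : Ld K Ω) (M : IntermediateField K Ω)

/-- The inclusion of the integers of `M`. -/
noncomputable def om : OM L M →+* Ω := (algebraMap M Ω).comp (algebraMap (OM L M) M)

/-- The value at the point `P`. -/
noncomputable def e2 (P : Ω × Ω) : (OM L M)[X][X] →+* Ω := (ev₂ P).comp (up₂ (om L M))

/-- The power series of a polynomial at the point `P` of the curve. -/
noncomputable def ps (g : (OM L M)[X][X]) (P : Ω × Ω) : (OM L M)[X][X] →+* PowerSeries Ω :=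
  (pse P.1 (hrt (up₂ (om L M) g) P)).comp (up₂ (om L M))

/-- The order at the point `P` of the curve. -/
noncomputable def od (g : (OM L M)[X][X]) (P : Ω × Ω) (A : (OM L M)[X][X]) : ℕ :=
  odp (up₂ (om L M) g) P (up₂ (om L M) A)

/-- An integral point of the curve where `g_Y` is a unit. -/
structure Gp (g : (OM L M)[X][X]) (P : Ω × Ω) : Prop where
  le₁ : L.nm P.1 ≤ 1
  le₂ : L.nm P.2 ≤ 1
  eq : e2 L M P g = 0
  unit : L.nm (e2 L M P (dY g)) = 1

end defs

variable {K Ω : Type} [Field K] [Field Ω] [Algebra K Ω] {L : Ld K Ω} {M : IntermediateField K Ω}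

theorem om_coe (x : OM L M) : om L M x = ((x : M) : Ω) := rfl

theorem om_inj : Function.Injective (om L M) := by
  intro x y h
  have h1 : ((x : M) : Ω) = ((y : M) : Ω) := h
  exact Subtype.ext (Subtype.ext h1)

theorem om_le (x : OM L M) : L.nm (om L M x) ≤ 1 := x.2

theorem om_mem (x : OM L M) : om L M x ∈ M := (x : M).2

theorem om_lt {x : OM L M} : L.nm (om L M x) < 1 ↔ x ∈ maximalIdeal (OM L M) :=
  (maxOM L M x).symm

theorem om_unit {x : OM L M} : L.nm (om L M x) = 1 ↔ IsUnit x := (unitOM L M x).symm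

theorem od_eq (g : (OM L M)[X][X]) (P : Ω × Ω) (A : (OM L M)[X][X]) :
    od L M g P A = (ps L M g P A).order.toNat := rfl

theorem e2_eq (P : Ω × Ω) (A : (OM L M)[X][X]) : e2 L M P A = ev₂ P (up₂ (om L M) A) := rfl

theorem up_CC {R R' : Type} [CommRing R] [CommRing R'] (f : R →+* R') (a : R) :
    up₂ f (C (C a)) = C (C (f a)) := by simp [up₂]

theorem up_C {R R' : Type} [CommRing R] [CommRing R'] (f : R →+* R') (a : R[X]) :
    up₂ f (C a) = C (a.map f) := by simp [up₂]

theorem up_X {R R' : Type} [CommRing R] [CommRing R'] (f : R →+* R') :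
    up₂ f (X : R[X][X]) = X := by simp [up₂]

theorem up_dY {R R' : Type} [CommRing R] [CommRing R'] (f : R →+* R') (A : R[X][X]) :
    up₂ f (dY A) = dY (up₂ f A) := by
  unfold up₂ dY
  rw [coe_mapRingHom, derivative_map]

theorem up_dZ {R R' : Type} [CommRing R] [CommRing R'] (f : R →+* R') (A : R[X][X]) :
    up₂ f (dZ A) = dZ (up₂ f A) := by
  have h1 : ∀ A B : R[X][X], dZ (A + B) = dZ A + dZ B := fun A B => by
    unfold dZ
    rw [sum_add_index] <;> simp [add_mul]
  have h2 : ∀ A B : R'[X][X], dZ (A + B) = dZ A + dZ B := fun A B => by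
    unfold dZ
    rw [sum_add_index] <;> simp [add_mul]
  induction A using Polynomial.induction_on' with
  | add p q hp hq => rw [h1, map_add, map_add, h2, hp, hq]
  | monomial j a =>
    have h3 : dZ (monomial j a) = C (derivative a) * X ^ j := by
      unfold dZ
      rw [sum_monomial_index]
      simp
    have h4 : up₂ f (monomial j a) = monomial j (a.map f) := by
      rw [← C_mul_X_pow_eq_monomial, ← C_mul_X_pow_eq_monomial, map_mul, map_pow, up_C, up_X]
    have h5 : dZ (monomial j (a.map f)) = C (derivative (a.map f)) * X ^ j := by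
      unfold dZ
      rw [sum_monomial_index]
      simp
    rw [h3, h4, h5, map_mul, map_pow, up_C, up_X, derivative_map]

theorem e2_CC (P : Ω × Ω) (a : OM L M) : e2 L M P (C (C a)) = om L M a := by
  rw [e2_eq, up_CC]
  simp [ev₂]

theorem e2_C (P : Ω × Ω) (f : (OM L M)[X]) : e2 L M P (C f) = f.eval₂ (om L M) P.1 := by
  rw [e2_eq, up_C]
  simp [ev₂, eval_map]

theorem e2_z (P : Ω × Ω) : e2 L M P (C X) = P.1 := by
  rw [e2_C, eval₂_X]

theorem e2_Y (P : Ω × Ω) : e2 L M P X = P.2 := by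
  rw [e2_eq, up_X]
  simp [ev₂]

/-- The values at integral points are values in the valuation ring. -/
theorem e2_V (c w : L.V) (A : (OM L M)[X][X]) :
    e2 L M ((c : Ω), (w : Ω)) A = (ev₂ (c, w) (up₂ (omV L M : OM L M →+* L.V) A) : L.V) := by
  have key : e2 L M ((c : Ω), (w : Ω)) = (L.V.subtype).comp ((ev₂ (c, w)).comp
      (up₂ (omV L M : OM L M →+* L.V))) := by
    refine Polynomial.ringHom_ext' (Polynomial.ringHom_ext' (RingHom.ext fun a => ?_) ?_) ?_
    · change e2 L M _ (C (C a)) = ((ev₂ (c, w) (up₂ _ (C (C a))) : L.V) : Ω)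
      rw [e2_CC, up_CC]
      simp [ev₂]
      rfl
    · change e2 L M _ (C X) = ((ev₂ (c, w) (up₂ _ (C X)) : L.V) : Ω)
      rw [e2_z, up_C]
      simp [ev₂]
    · change e2 L M _ X = ((ev₂ (c, w) (up₂ _ X) : L.V) : Ω)
      rw [e2_Y, up_X]
      simp [ev₂]
  exact congrArg (fun φ => φ A) key

theorem e2_le {P : Ω × Ω} (h1 : L.nm P.1 ≤ 1) (h2 : L.nm P.2 ≤ 1) (A : (OM L M)[X][X]) :
    L.nm (e2 L M P A) ≤ 1 := by
  rw [show P = (((⟨P.1, h1⟩ : L.V) : Ω), ((⟨P.2, h2⟩ : L.V) : Ω)) from rfl, e2_V]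
  exact (ev₂ (_, _) (up₂ _ A) : L.V).2

theorem e2_act {γ : Ω ≃ₐ[K] Ω} (hγ : γ ∈ M.fixingSubgroup) (P : Ω × Ω) (A : (OM L M)[X][X]) :
    e2 L M (γ P.1, γ P.2) A = γ (e2 L M P A) := by
  have key : e2 L M (γ P.1, γ P.2) = (γ : Ω →+* Ω).comp (e2 L M P) := by
    refine Polynomial.ringHom_ext' (Polynomial.ringHom_ext' (RingHom.ext fun a => ?_) ?_) ?_
    · change e2 L M _ (C (C a)) = γ (e2 L M P (C (C a)))
      rw [e2_CC, e2_CC]
      exact ((IntermediateField.mem_fixingSubgroup_iff _ γ).1 hγ _ (om_mem a)).symm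
    · change e2 L M _ (C X) = γ (e2 L M P (C X))
      rw [e2_z, e2_z]
    · change e2 L M _ X = γ (e2 L M P X)
      rw [e2_Y, e2_Y]
  exact congrArg (fun φ => φ A) key

end GM
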