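import Mathlib
import Pool.Agent.Lib.MP_f80667_ag.Gm.GpD

/-! Taylor's formula for polynomials in two variables. -/

open Polynomial

namespace GM

variable {R : Type} [CommRing R]

private theorem gzB_dZ_add (A B : R[X][X]) : dZ (A + B) = dZ A + dZ B := by
  rw [dZ, dZ, dZ]
  refine Polynomial.sum_add_index A B _ (fun j => ?_) fun j a b => ?_
  · rw [derivative_zero, C_0, zero_mul]
  · rw [derivative_add, C_add, add_mul]

private theorem gzB_dZ_mon (n : ℕ) (a : R[X]) : dZ (monomial n a) = C (derivative a) * X ^ n := by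
  rw [dZ, Polynomial.sum_monomial_index]
  rw [derivative_zero, C_0, zero_mul]

private theorem gzB_ev (P : R × R) (n : ℕ) (a : R[X]) :
    ev₂ P (C a * X ^ n) = a.eval P.1 * P.2 ^ n := by
  simp [ev₂]

/-- **Taylor.** Proof: first in `Y` for `A(c + x, .)` (`Polynomial.binomExpansion`), then in `z`; `derivative (A.eval (C w)) = (dZ A).eval (C w)`. -/
theorem ev₂_tay (c w x y : R) (A : R[X][X]) : ∃ k₁ k₂ k₃ : R,
    ev₂ (c + x, w + y) A = ev₂ (c, w) A + x * ev₂ (c, w) (dZ A) + y * ev₂ (c, w) (dY A) +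
      (x ^ 2 * k₁ + x * y * k₂ + y ^ 2 * k₃) := by
  induction A using Polynomial.induction_on' with
  | add A B hA hB =>
    obtain ⟨k₁, k₂, k₃, h⟩ := hA
    obtain ⟨l₁, l₂, l₃, h'⟩ := hB
    refine ⟨k₁ + l₁, k₂ + l₂, k₃ + l₃, ?_⟩
    have h1 : dY (A + B) = dY A + dY B := derivative_add
    rw [gzB_dZ_add, h1, map_add, map_add, map_add, map_add, h, h']
    ring
  | monomial n a =>
    obtain ⟨k, hk⟩ := Polynomial.binomExpansion a c x
    obtain ⟨l, hl⟩ := Polynomial.powAddExpansion w y n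
    have h1 : dY (monomial n a) = C (a * (n : R[X])) * X ^ (n - 1) := by
      rw [dY, derivative_monomial, C_mul_X_pow_eq_monomial]
    rw [gzB_dZ_mon, h1, ← C_mul_X_pow_eq_monomial, gzB_ev, gzB_ev, gzB_ev, gzB_ev]
    simp only [eval_mul, eval_natCast]
    rw [hk, hl]
    refine ⟨k * (w ^ n + n * w ^ (n - 1) * y + l * y ^ 2),
      a.derivative.eval c * (n * w ^ (n - 1)) + a.derivative.eval c * l * y, a.eval c * l, ?_⟩
    ring

/-- Proof: `ev₂_tay` or directly `Polynomial.sub_dvd_eval_sub` in both variables. -/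
theorem ev₂_sub (P P' : R × R) (A : R[X][X]) : ∃ k₁ k₂ : R,
    ev₂ P A - ev₂ P' A = (P.1 - P'.1) * k₁ + (P.2 - P'.2) * k₂ := by
  obtain ⟨k₁, k₂, k₃, h⟩ := ev₂_tay P'.1 P'.2 (P.1 - P'.1) (P.2 - P'.2) A
  rw [add_sub_cancel, add_sub_cancel] at h
  have h1 : ev₂ P A = ev₂ (P.1, P.2) A := rfl
  have h2 : ev₂ P' A = ev₂ (P'.1, P'.2) A := rfl
  refine ⟨ev₂ (P'.1, P'.2) (dZ A) + (P.1 - P'.1) * k₁ + (P.2 - P'.2) * k₂,
    ev₂ (P'.1, P'.2) (dY A) + (P.2 - P'.2) * k₃, ?_⟩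
  rw [h1, h2, h]
  ring

end GM
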