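import Pool.Agent.Lib.MP_f80667_ag.Gm.GzA

/-! Orders at good points. -/

open ZC BE PE CV Polynomial IntermediateField IsLocalRing

namespace GM

variable {K Ω : Type} [Field K] [Field Ω] [Algebra K Ω] {L : Ld K Ω} {M : IntermediateField K Ω}
  {g : (OM L M)[X][X]} {P : Ω × Ω}

private theorem GzC_zero (h : Gp L M g P) : ev₂ P (up₂ (om L M) g) = 0 := h.eq

private theorem GzC_unit (h : Gp L M g P) : IsUnit (ev₂ P (dY (up₂ (om L M) g))) := by
  rw [← up_dY, ← e2_eq, isUnit_iff_ne_zero]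
  intro h0
  have h1 := h.unit
  rw [h0, L.zero] at h1
  exact zero_ne_one h1

private theorem GzC_comp {R R' R'' : Type} [CommRing R] [CommRing R'] [CommRing R'']
    (f : R →+* R') (f' : R' →+* R'') (A : R[X][X]) : up₂ f' (up₂ f A) = up₂ (f'.comp f) A := by
  have key : (up₂ f').comp (up₂ f) = up₂ (f'.comp f) := by
    refine Polynomial.ringHom_ext' (Polynomial.ringHom_ext' (RingHom.ext fun a => ?_) ?_) ?_
    · change up₂ f' (up₂ f (C (C a))) = up₂ (f'.comp f) (C (C a))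
      rw [up_CC, up_CC, up_CC]
      rfl
    · change up₂ f' (up₂ f (C X)) = up₂ (f'.comp f) (C X)
      rw [up_C, up_C, up_C, map_X, map_X, map_X]
    · change up₂ f' (up₂ f X) = up₂ (f'.comp f) X
      rw [up_X, up_X, up_X]
  exact congrArg (fun φ => φ A) key

/-- Proof: `hrt_hr`, `up_dY`. -/
theorem Gp.hr (h : Gp L M g P) : Hr (up₂ (om L M) g) P (hrt (up₂ (om L M) g) P) :=
  hrt_hr (GzC_zero h) (GzC_unit h)

theorem Gp.ps_g (h : Gp L M g P) : ps L M g P g = 0 := h.hr.2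

/-- Proof: `cst_pse`. -/
theorem Gp.cst (h : Gp L M g P) (A : (OM L M)[X][X]) :
    PowerSeries.constantCoeff (ps L M g P A) = e2 L M P A :=
  cst_pse P h.hr.1 (up₂ (om L M) A)

/-- **The coefficients are integral.** Proof: the Hensel root over the ring `L.V` (`exists_hr` for `up₂ (omV L M) g` at the point `(c, w)` of `L.V × L.V`, `e2_V`; an element of norm `1` is a unit of `L.V`), mapped to `Ω` (`pse_map`), is the
Hensel root over `Ω` (`hrt_eq`). -/
theorem Gp.ps_le (h : Gp L M g P) (A : (OM L M)[X][X]) (i : ℕ) :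
    L.nm (PowerSeries.coeff i (ps L M g P A)) ≤ 1 := by
  obtain ⟨c, hc⟩ : ∃ c : L.V, (c : Ω) = P.1 := ⟨⟨P.1, h.le₁⟩, rfl⟩
  obtain ⟨w, hw⟩ : ∃ w : L.V, (w : Ω) = P.2 := ⟨⟨P.2, h.le₂⟩, rfl⟩
  have hP : P = ((c : Ω), (w : Ω)) := by rw [hc, hw]
  have h0 : ev₂ (c, w) (up₂ (omV L M : OM L M →+* L.V) g) = 0 := by
    have h1 := h.eq
    rw [hP, e2_V] at h1
    exact Subtype.ext h1
  have h1 : IsUnit (ev₂ (c, w) (dY (up₂ (omV L M : OM L M →+* L.V) g))) := by
    have h2 := h.unit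
    rw [hP, e2_V, up_dY] at h2
    exact (CV.unit_iff L (RingHom.id Ω) L.V (fun x => Iff.rfl) _).2 h2
  obtain ⟨W, hW⟩ := exists_hr h0 h1
  have hom : (L.V.subtype).comp (omV L M : OM L M →+* L.V) = om L M := RingHom.ext fun x => rfl
  have hmap : ∀ B : (OM L M)[X][X], pse P.1 (PowerSeries.map L.V.subtype W) (up₂ (om L M) B) =
      PowerSeries.map L.V.subtype (pse c W (up₂ (omV L M : OM L M →+* L.V) B)) := by
    intro B
    rw [← pse_map, GzC_comp, hom]
    rw [← hc]
    rfl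
  have hH : Hr (up₂ (om L M) g) P (PowerSeries.map L.V.subtype W) := by
    refine ⟨?_, ?_⟩
    · rw [← PowerSeries.coeff_zero_eq_constantCoeff_apply, PowerSeries.coeff_map,
        PowerSeries.coeff_zero_eq_constantCoeff_apply, hW.1]
      exact hw
    · rw [hmap, hW.2, map_zero]
  have e : ps L M g P A = PowerSeries.map L.V.subtype
      (pse c W (up₂ (omV L M : OM L M →+* L.V) A)) := by
    rw [← hmap, ← hrt_eq hH (GzC_unit h)]
    rfl
  rw [e, PowerSeries.coeff_map]
  exact (PowerSeries.coeff i (pse c W (up₂ (omV L M : OM L M →+* L.V) A)) : L.V).2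

end GM
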