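import Pool.Agent.Lib.MP_f80667_ag.Gm.GzC

/-! Orders at good points: products. -/

open ZC BE PE CV Polynomial IntermediateField IsLocalRing

namespace GM

variable {K Ω : Type} [Field K] [Field Ω] [Algebra K Ω] {L : Ld K Ω} {M : IntermediateField K Ω}
  {g : (OM L M)[X][X]} {P : Ω × Ω}

/-- Proof: `od_eq`, `PowerSeries.order_mul`. -/
theorem od_mul {A B : (OM L M)[X][X]} (hA : ps L M g P A ≠ 0) (hB : ps L M g P B ≠ 0) :
    od L M g P (A * B) = od L M g P A + od L M g P B := by
  rw [od_eq, od_eq, od_eq, map_mul, PowerSeries.order_mul]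
  exact ENat.toNat_add (fun h => hA (PowerSeries.order_eq_top.1 h))
    fun h => hB (PowerSeries.order_eq_top.1 h)

theorem od_pow {A : (OM L M)[X][X]} (hA : ps L M g P A ≠ 0) (l : ℕ) :
    od L M g P (A ^ l) = l * od L M g P A := by
  induction l with
  | zero =>
    rw [od_eq, pow_zero, map_one, zero_mul]
    have h1 : (1 : PowerSeries Ω).order = 0 := PowerSeries.order_one
    rw [h1]
    rfl
  | succ l ih =>
    have h1 : ps L M g P (A ^ l) ≠ 0 := by
      rw [map_pow]
      exact pow_ne_zero l hA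
    rw [pow_succ, od_mul h1 hA, ih, add_mul, one_mul]

/-- Proof: `Gp.cst`. -/
theorem Gp.od_zero (h : Gp L M g P) {A : (OM L M)[X][X]} (hA : e2 L M P A ≠ 0) :
    ps L M g P A ≠ 0 ∧ od L M g P A = 0 := by
  have h1 : PowerSeries.constantCoeff (ps L M g P A) ≠ 0 := by
    rw [h.cst]
    exact hA
  have h2 : ps L M g P A ≠ 0 := by
    intro h0
    rw [h0, map_zero] at h1
    exact h1 rfl
  refine ⟨h2, ?_⟩
  have h3 : (ps L M g P A).order = 0 := by
    by_contra h4
    exact h1 (PowerSeries.order_ne_zero_iff_constCoeff_eq_zero.1 h4)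
  rw [od_eq, h3]
  rfl

/-- Proof: `Gp.cst`: the constant coefficient is `0`. -/
theorem Gp.od_pos (h : Gp L M g P) {A : (OM L M)[X][X]} (hA : ps L M g P A ≠ 0)
    (h0 : e2 L M P A = 0) : 0 < od L M g P A := by
  have h1 : PowerSeries.constantCoeff (ps L M g P A) = 0 := by
    rw [h.cst]
    exact h0
  have h2 : (ps L M g P A).order ≠ 0 := PowerSeries.order_ne_zero_iff_constCoeff_eq_zero.2 h1
  have h3 : (ps L M g P A).order ≠ ⊤ := fun h => hA (PowerSeries.order_eq_top.1 h)
  rw [od_eq, Nat.pos_iff_ne_zero]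
  intro h4
  rcases ENat.toNat_eq_zero.1 h4 with h5 | h5
  · exact h2 h5
  · exact h3 h5

end GM
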