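import Pool.Agent.Lib.MP_f80667_ag.Gm.GzC

/-! Orders at good points: simple zeros. -/

open ZC BE PE CV Polynomial IntermediateField IsLocalRing

namespace GM

private theorem gzCc_one {R : Type} [CommRing R] (c : R) (a : R[X]) :
    PowerSeries.coeff 1 (a.eval₂ (PowerSeries.C (R := R)) (PowerSeries.C c + PowerSeries.X)) =
      (derivative a).eval c := by
  induction a using Polynomial.induction_on' with
  | add p q hp hq => rw [eval₂_add, map_add, hp, hq, map_add, eval_add]
  | monomial n r =>
    rw [eval₂_monomial, PowerSeries.coeff_C_mul, PowerSeries.coeff_one_pow, derivative_monomial,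
      eval_monomial, map_add, map_add, PowerSeries.coeff_one_X, PowerSeries.constantCoeff_C,
      PowerSeries.constantCoeff_X, add_zero, PowerSeries.coeff_C]
    simp
    ring

private theorem gzCc_zero {R : Type} [CommRing R] (c : R) (a : R[X]) :
    PowerSeries.constantCoeff
      (a.eval₂ (PowerSeries.C (R := R)) (PowerSeries.C c + PowerSeries.X)) = a.eval c := by
  rw [hom_eval₂, map_add, PowerSeries.constantCoeff_C, PowerSeries.constantCoeff_X, add_zero]
  have h : (PowerSeries.constantCoeff (R := R)).comp (PowerSeries.C (R := R)) = RingHom.id R :=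
    RingHom.ext fun x => PowerSeries.constantCoeff_C x
  rw [h, eval₂_id]

/-- The coefficient of `t`. Proof: additivity and the product rule: both sides are derivations of `R[X][X]`; or induction over `A` (`Polynomial.induction_on'`); `W = w + w₁ t + ...`. -/
theorem pse_one {R : Type} [CommRing R] (P : R × R) {W : PowerSeries R}
    (hW : PowerSeries.constantCoeff W = P.2) (A : R[X][X]) :
    PowerSeries.coeff 1 (pse P.1 W A) = ev₂ P (dZ A) + PowerSeries.coeff 1 W * ev₂ P (dY A) := by
  have hZ : ∀ A B : R[X][X], dZ (A + B) = dZ A + dZ B := fun A B => by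
    unfold dZ
    rw [sum_add_index] <;> simp [add_mul]
  have hY : ∀ A B : R[X][X], dY (A + B) = dY A + dY B := fun A B => by
    unfold dY
    rw [derivative_add]
  induction A using Polynomial.induction_on' with
  | add p q hp hq =>
    rw [map_add, map_add, hp, hq, hZ, hY, map_add, map_add]
    ring
  | monomial j a =>
    have h1 : pse P.1 W (monomial j a) =
        a.eval₂ (PowerSeries.C (R := R)) (PowerSeries.C P.1 + PowerSeries.X) * W ^ j := by
      unfold pse
      rw [coe_eval₂RingHom, eval₂_monomial, coe_eval₂RingHom]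
    have h2 : dZ (monomial j a) = C (derivative a) * X ^ j := by
      unfold dZ
      rw [sum_monomial_index]
      simp
    have h3 : ev₂ P (dZ (monomial j a)) = (derivative a).eval P.1 * P.2 ^ j := by
      rw [h2]
      simp [ev₂]
    have h4 : ev₂ P (dY (monomial j a)) = a.eval P.1 * (j * P.2 ^ (j - 1)) := by
      unfold dY
      rw [derivative_monomial]
      simp [ev₂, eval_monomial]
      ring
    rw [h1, PowerSeries.coeff_one_mul, gzCc_one, gzCc_zero, PowerSeries.coeff_one_pow, map_pow, hW,
      h3, h4]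
    ring

variable {K Ω : Type} [Field K] [Field Ω] [Algebra K Ω] {L : Ld K Ω} {M : IntermediateField K Ω}
  {g : (OM L M)[X][X]} {P : Ω × Ω}

/-- **Simple zeros.** Proof: `pse_one` for `g` (the value is `0`) and `A`: the coefficient of `t` is not `0`, `PowerSeries.order_eq_nat`. -/
theorem Gp.od_one (h : Gp L M g P) {A : (OM L M)[X][X]} (h0 : e2 L M P A = 0)
    (hJ : e2 L M P (dZ A) * e2 L M P (dY g) - e2 L M P (dY A) * e2 L M P (dZ g) ≠ 0) :
    ps L M g P A ≠ 0 ∧ od L M g P A = 1 := by
  have hr := h.hr
  have e1 := pse_one P hr.1 (up₂ (om L M) g)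
  rw [hr.2, map_zero, ← up_dZ, ← up_dY, ← e2_eq, ← e2_eq] at e1
  have e2' : PowerSeries.coeff 1 (ps L M g P A) = e2 L M P (dZ A) +
      PowerSeries.coeff 1 (hrt (up₂ (om L M) g) P) * e2 L M P (dY A) := by
    have h5 := pse_one P hr.1 (up₂ (om L M) A)
    rw [← up_dZ, ← up_dY, ← e2_eq, ← e2_eq] at h5
    exact h5
  have h1 : PowerSeries.coeff 1 (ps L M g P A) ≠ 0 := by
    intro hz
    apply hJ
    rw [hz] at e2'
    linear_combination (-e2 L M P (dY g)) * e2' + e2 L M P (dY A) * e1
  refine ⟨fun hz => h1 (by rw [hz, map_zero]), ?_⟩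
  rw [od_eq]
  have h2 : (ps L M g P A).order = ((1 : ℕ) : ℕ∞) := by
    rw [PowerSeries.order_eq_nat]
    refine ⟨h1, fun i hi => ?_⟩
    obtain rfl : i = 0 := by omega
    rw [PowerSeries.coeff_zero_eq_constantCoeff_apply, h.cst, h0]
  rw [h2]
  rfl

end GM
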