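import Pool.Agent.Lib.MP_f80667_ag.Gm.GzA

/-!
Displaced zeros: definitions.

* `Zp g B P`: `P` is an integral zero of `g` and `B`. `Nn P P'`: the points are congruent modulo the maximal ideal.
* `Sp g b`: the zeros of `g`, `b` modulo the maximal ideal are simple. `Pt b B`: `B` is congruent to `b` modulo the maximal ideal.
-/

open ZC BE PE CV Polynomial IntermediateField IsLocalRing

namespace GM

variable {K Ω : Type} [Field K] [Field Ω] [Algebra K Ω] (L : Ld K Ω) (M : IntermediateField K Ω)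

/-- An integral zero of `g` and `B`. -/
structure Zp (g B : (OM L M)[X][X]) (P : Ω × Ω) : Prop where
  le₁ : L.nm P.1 ≤ 1
  le₂ : L.nm P.2 ≤ 1
  eq : e2 L M P g = 0
  eq' : e2 L M P B = 0

/-- The points are congruent modulo the maximal ideal. -/
def Nn (P P' : Ω × Ω) : Prop := L.nm (P.1 - P'.1) < 1 ∧ L.nm (P.2 - P'.2) < 1

/-- The zeros of `g` and `b` modulo the maximal ideal are simple. -/
structure Sp (g : (OM L M)[X][X]) (b : (OM L M)[X]) : Prop where
  gm : g.Monic
  bm : b.Monic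
  gy : ∀ P : Ω × Ω, L.nm P.1 ≤ 1 → L.nm P.2 ≤ 1 → L.nm (e2 L M P g) < 1 →
    L.nm (e2 L M P (C b)) < 1 → L.nm (e2 L M P (dY g)) = 1
  bz : ∀ P : Ω × Ω, L.nm P.1 ≤ 1 → L.nm (e2 L M P (C b)) < 1 →
    L.nm (e2 L M P (C (derivative b))) = 1

/-- `B` is congruent to `b` modulo the maximal ideal. -/
def Pb (b : (OM L M)[X]) (B : (OM L M)[X][X]) : Prop :=
  ∃ (π : OM L M) (T : (OM L M)[X][X]), L.nm (om L M π) < 1 ∧ B = C b + C (C π) * T

end GM
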