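import Pool.Agent.Lib.MP_f80667_ag.Gm.GzG
import Pool.Agent.Lib.MP_f80667_ag.Gm.GzB
import Pool.Agent.Lib.MP_f80667_ag.Gm.GzCc

/-! Displaced zeros: values, orders. -/

open ZC BE PE CV Polynomial IntermediateField IsLocalRing

namespace GM

private theorem GzGa_dZ_add {R : Type} [CommRing R] (A B : R[X][X]) :
    dZ (A + B) = dZ A + dZ B := by
  unfold dZ
  rw [sum_add_index] <;> simp [add_mul]

private theorem GzGa_dZ_mon {R : Type} [CommRing R] (j : ℕ) (a : R[X]) :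
    dZ (monomial j a) = C (derivative a) * X ^ j := by
  unfold dZ
  rw [sum_monomial_index]
  simp

private theorem GzGa_dZ_C {R : Type} [CommRing R] (a : R[X]) : dZ (C a) = C (derivative a) := by
  rw [← monomial_zero_left, GzGa_dZ_mon, pow_zero, mul_one]

private theorem GzGa_dZ_CC {R : Type} [CommRing R] (π : R) (T : R[X][X]) :
    dZ (C (C π) * T) = C (C π) * dZ T := by
  induction T using Polynomial.induction_on' with
  | add p q hp hq => rw [mul_add, GzGa_dZ_add, GzGa_dZ_add, hp, hq, mul_add]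
  | monomial j a =>
    rw [C_mul_monomial, GzGa_dZ_mon, GzGa_dZ_mon, derivative_C_mul, C_mul, mul_assoc]

private theorem GzGa_dY {R : Type} [CommRing R] (b : R[X]) (π : R) (T : R[X][X]) :
    dY (C b + C (C π) * T) = C (C π) * dY T := by
  unfold dY
  rw [derivative_add, derivative_C, zero_add, derivative_C_mul]

variable {K Ω : Type} [Field K] [Field Ω] [Algebra K Ω] {L : Ld K Ω} {M : IntermediateField K Ω}
  {g B B' : (OM L M)[X][X]} {b : (OM L M)[X]} {P P' : Ω × Ω}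

/-- Proof: `ev₂_sub` over `L.V` (`e2_V`). -/
theorem e2_near (h1 : L.nm P.1 ≤ 1) (h2 : L.nm P.2 ≤ 1) (h1' : L.nm P'.1 ≤ 1)
    (h2' : L.nm P'.2 ≤ 1) {r : ℝ} (h3 : L.nm (P.1 - P'.1) ≤ r) (h4 : L.nm (P.2 - P'.2) ≤ r)
    (A : (OM L M)[X][X]) : L.nm (e2 L M P A - e2 L M P' A) ≤ r := by
  obtain ⟨k₁, k₂, hk⟩ := ev₂_sub ((⟨P.1, h1⟩, ⟨P.2, h2⟩) : L.V × L.V)
    ((⟨P'.1, h1'⟩, ⟨P'.2, h2'⟩) : L.V × L.V) (up₂ (omV L M : OM L M →+* L.V) A)
  have hk' := congrArg (Subtype.val : L.V → Ω) hk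
  have e1 : e2 L M P A = (ev₂ ((⟨P.1, h1⟩, ⟨P.2, h2⟩) : L.V × L.V)
      (up₂ (omV L M : OM L M →+* L.V) A) : L.V) :=
    e2_V (⟨P.1, h1⟩ : L.V) (⟨P.2, h2⟩ : L.V) A
  have e2' : e2 L M P' A = (ev₂ ((⟨P'.1, h1'⟩, ⟨P'.2, h2'⟩) : L.V × L.V)
      (up₂ (omV L M : OM L M →+* L.V) A) : L.V) :=
    e2_V (⟨P'.1, h1'⟩ : L.V) (⟨P'.2, h2'⟩ : L.V) A
  have hk2 : e2 L M P A - e2 L M P' A = (P.1 - P'.1) * (k₁ : Ω) + (P.2 - P'.2) * (k₂ : Ω) := by
    rw [e1, e2']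
    exact hk'
  have hr : 0 ≤ r := (L.nonneg _).trans h3
  rw [hk2]
  refine (L.add _ _).trans (max_le ?_ ?_)
  · rw [L.mul]
    exact (mul_le_of_le_one_right (L.nonneg _) k₁.2).trans h3
  · rw [L.mul]
    exact (mul_le_of_le_one_right (L.nonneg _) k₂.2).trans h4

/-- The value of `b` at a zero of `g`, `B` has norm `< 1`. -/
theorem zp_lt (hB : Pb L M b B) (h : Zp L M g B P) : L.nm (e2 L M P (C b)) < 1 := by
  obtain ⟨π, T, hπ, rfl⟩ := hB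
  have h1 := h.eq'
  rw [map_add, map_mul, e2_CC] at h1
  rw [eq_neg_of_add_eq_zero_left h1, L.neg, L.mul]
  exact mul_lt_one_of_nonneg_of_lt_one_left (L.nonneg _) hπ (e2_le h.le₁ h.le₂ T)

theorem zp_gp (hs : Sp L M g b) (hB : Pb L M b B) (h : Zp L M g B P) : Gp L M g P where
  le₁ := h.le₁
  le₂ := h.le₂
  eq := h.eq
  unit := hs.gy P h.le₁ h.le₂ (by rw [h.eq, L.zero]; exact zero_lt_one) (zp_lt hB h)

/-- The point of the sheet is unique. Proof: Taylor in `Y` (`Polynomial.binomExpansion` over `L.V` or `ev₂_tay` with `x = 0`). -/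
theorem sh_uniq {c w w' : Ω} (h : Gp L M g (c, w)) (h0 : e2 L M (c, w') g = 0)
    (h1 : L.nm w' ≤ 1) (h2 : L.nm (w - w') < 1) : w = w' := by
  obtain ⟨c₀, hc⟩ : ∃ c₀ : L.V, (c₀ : Ω) = c := ⟨⟨c, h.le₁⟩, rfl⟩
  obtain ⟨w₀, hw⟩ : ∃ w₀ : L.V, (w₀ : Ω) = w := ⟨⟨w, h.le₂⟩, rfl⟩
  obtain ⟨w₁, hw'⟩ : ∃ w₁ : L.V, (w₁ : Ω) = w' := ⟨⟨w', h1⟩, rfl⟩
  obtain ⟨k₁, k₂, k₃, hk⟩ := ev₂_tay c₀ w₀ 0 (w₁ - w₀) (up₂ (omV L M : OM L M →+* L.V) g)
  rw [add_zero, add_sub_cancel, ← up_dY] at hk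
  have hk' := congrArg (Subtype.val : L.V → Ω) hk
  have g0 := h.eq
  have gY := h.unit
  rw [← hc, ← hw, e2_V] at g0 gY
  rw [← hc, ← hw', e2_V] at h0
  have e : ((ev₂ (c₀, w₁) (up₂ (omV L M : OM L M →+* L.V) g) : L.V) : Ω) =
      (ev₂ (c₀, w₀) (up₂ (omV L M : OM L M →+* L.V) g) : L.V) +
      (0 : Ω) * (ev₂ (c₀, w₀) (dZ (up₂ (omV L M : OM L M →+* L.V) g)) : L.V) +
      ((w₁ : Ω) - w₀) * (ev₂ (c₀, w₀) (up₂ (omV L M : OM L M →+* L.V) (dY g)) : L.V) +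
      ((0 : Ω) ^ 2 * k₁ + 0 * ((w₁ : Ω) - w₀) * k₂ + ((w₁ : Ω) - w₀) ^ 2 * k₃) := hk'
  rw [h0, g0, hw, hw'] at e
  generalize (ev₂ (c₀, w₀) (dZ (up₂ (omV L M : OM L M →+* L.V) g)) : L.V) = u at e
  generalize (ev₂ (c₀, w₀) (up₂ (omV L M : OM L M →+* L.V) (dY g)) : L.V) = v at e gY
  have e' : (w' - w) * ((v : Ω) + (w' - w) * k₃) = 0 := by linear_combination -e
  have hv : L.nm ((v : Ω) + (w' - w) * k₃) = 1 := by
    rw [L.add_eq', gY]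
    rw [gY, L.mul, L.sub_comm]
    exact mul_lt_one_of_nonneg_of_lt_one_left (L.nonneg _) h2 k₃.2
  rcases mul_eq_zero.1 e' with h5 | h5
  · exact (sub_eq_zero.1 h5).symm
  · rw [h5, L.zero] at hv
    exact absurd hv zero_ne_one

/-- **The order is `1`.** Proof: `Gp.od_one`: the Jacobian is congruent to `b'(c) g_Y(P)` modulo the maximal ideal. -/
theorem zp_od (hs : Sp L M g b) (hB : Pb L M b B) (h : Zp L M g B P) :
    ps L M g P B ≠ 0 ∧ od L M g P B = 1 := by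
  have hg := zp_gp hs hB h
  have hlt := zp_lt hB h
  refine Gp.od_one hg h.eq' ?_
  obtain ⟨π, T, hπ, rfl⟩ := hB
  rw [GzGa_dY, GzGa_dZ_add, GzGa_dZ_C, GzGa_dZ_CC, map_add, map_mul, map_mul, e2_CC]
  have hT : ∀ A : (OM L M)[X][X], L.nm (om L M π * e2 L M P A) < 1 := fun A => by
    rw [L.mul]
    exact mul_lt_one_of_nonneg_of_lt_one_left (L.nonneg _) hπ (e2_le h.le₁ h.le₂ A)
  have h1 : L.nm (e2 L M P (C (derivative b)) + om L M π * e2 L M P (dZ T)) = 1 := by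
    have h2 := hs.bz P h.le₁ hlt
    rw [L.add_eq', h2]
    rw [h2]
    exact hT _
  have h2 : L.nm ((e2 L M P (C (derivative b)) + om L M π * e2 L M P (dZ T)) *
      e2 L M P (dY g)) = 1 := by rw [L.mul, h1, hg.unit, one_mul]
  have h3 : L.nm (om L M π * e2 L M P (dY T) * e2 L M P (dZ g)) < 1 := by
    rw [L.mul]
    exact mul_lt_one_of_nonneg_of_lt_one_left (L.nonneg _) (hT _) (e2_le h.le₁ h.le₂ _)
  intro h0
  rw [sub_eq_zero] at h0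
  rw [h0] at h2
  exact absurd h2 h3.ne

end GM
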