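import Mathlib
import Pool.Agent.Lib.MP_f80667_ag.Gm.GpD
import Pool.Agent.Lib.MP_f80667_ag.Cv.Newton

/-! Newton's lemma for two polynomials in two variables. -/

open Polynomial

namespace GM

variable {R : Type} [CommRing R]

/-- Polynomials in two variables. -/
noncomputable def mv₂ : R[X][X] →+* MvPolynomial (Fin 2) R :=
  eval₂RingHom (eval₂RingHom MvPolynomial.C (MvPolynomial.X 0)) (MvPolynomial.X 1)

private theorem mv₂_Y : mv₂ (X : R[X][X]) = MvPolynomial.X 1 := by simp [mv₂]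

private theorem mv₂_z : mv₂ (C X : R[X][X]) = MvPolynomial.X 0 := by simp [mv₂]

private theorem mv₂_C (a : R) : mv₂ (C (C a) : R[X][X]) = MvPolynomial.C a := by simp [mv₂]

private theorem mv₂_mon (j : ℕ) (a : R[X]) : mv₂ (C a * X ^ j : R[X][X]) =
    aeval (MvPolynomial.X 0 : MvPolynomial (Fin 2) R) a * MvPolynomial.X 1 ^ j := by
  rw [map_mul, map_pow, mv₂_Y]
  congr 1
  rw [mv₂, coe_eval₂RingHom, eval₂_C]
  rfl

theorem mv₂_eval (P : R × R) (A : R[X][X]) :
    MvPolynomial.eval ![P.1, P.2] (mv₂ A) = ev₂ P A := by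
  have key : (MvPolynomial.eval ![P.1, P.2]).comp mv₂ = ev₂ P := by
    refine Polynomial.ringHom_ext' (Polynomial.ringHom_ext' (RingHom.ext fun a => ?_) ?_) ?_
    · change MvPolynomial.eval ![P.1, P.2] (mv₂ (C (C a))) = ev₂ P (C (C a))
      rw [mv₂_C]
      simp [ev₂]
    · change MvPolynomial.eval ![P.1, P.2] (mv₂ (C X)) = ev₂ P (C X)
      rw [mv₂_z]
      simp [ev₂]
    · change MvPolynomial.eval ![P.1, P.2] (mv₂ X) = ev₂ P X
      rw [mv₂_Y]
      simp [ev₂]
  exact congrArg (fun φ => φ A) key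

private theorem dZ_add' (A B : R[X][X]) : dZ (A + B) = dZ A + dZ B := by
  unfold dZ
  exact sum_add_index A B _ (fun _ => by simp) (fun _ _ _ => by
    rw [derivative_add, C_add, add_mul])

private theorem dZ_mon' (j : ℕ) (a : R[X]) : dZ (monomial j a) = C (derivative a) * X ^ j := by
  unfold dZ
  exact sum_monomial_index a _ (by simp)

/-- Proof: for monomials by `Derivation.leibniz`, `Derivation.leibniz_pow`, `Derivation.map_aeval` or `MvPolynomial.pderiv`. -/
theorem mv₂_pd (A : R[X][X]) : MvPolynomial.pderiv 0 (mv₂ A) = mv₂ (dZ A) ∧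
    MvPolynomial.pderiv 1 (mv₂ A) = mv₂ (dY A) := by
  induction A using Polynomial.induction_on' with
  | add A B hA hB =>
    constructor
    · rw [map_add, map_add, hA.1, hB.1, dZ_add', map_add]
    · rw [map_add, map_add, hA.2, hB.2, dY, dY, dY, derivative_add, map_add]
  | monomial j a =>
    have h10 : MvPolynomial.pderiv (R := R) (0 : Fin 2) (MvPolynomial.X 1) = 0 :=
      MvPolynomial.pderiv_X_of_ne (by decide)
    have h01 : MvPolynomial.pderiv (R := R) (1 : Fin 2) (MvPolynomial.X 0) = 0 :=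
      MvPolynomial.pderiv_X_of_ne (by decide)
    have h00 : MvPolynomial.pderiv (R := R) (0 : Fin 2) (MvPolynomial.X 0) = 1 :=
      MvPolynomial.pderiv_X_self _
    have h11 : MvPolynomial.pderiv (R := R) (1 : Fin 2) (MvPolynomial.X 1) = 1 :=
      MvPolynomial.pderiv_X_self _
    constructor
    · rw [dZ_mon', ← C_mul_X_pow_eq_monomial, mv₂_mon, mv₂_mon, Derivation.leibniz,
        Derivation.leibniz_pow, h10, Derivation.map_aeval, h00]
      simp only [smul_eq_mul, mul_one, mul_zero, smul_zero, zero_add]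
      rw [mul_comm]
    · rw [dY, derivative_monomial, ← C_mul_X_pow_eq_monomial, ← C_mul_X_pow_eq_monomial, mv₂_mon,
        mv₂_mon, Derivation.leibniz, Derivation.leibniz_pow, h11, Derivation.map_aeval, h01]
      simp only [smul_eq_mul, mul_one, map_mul, map_natCast, nsmul_eq_mul]
      ring

/-- **Newton's lemma.** Proof: `CV.newton_zero` (`Cv/Newton.lean`, look at its namespace) with `e = 0`, `F = ![mv₂ A, mv₂ B]`, `W` the inverse of the Jacobian matrix. -/
theorem newtz {π : R} [IsAdicComplete (Ideal.span {π}) R] {A B : R[X][X]} {P : R × R}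
    (hA : π ∣ ev₂ P A) (hB : π ∣ ev₂ P B)
    (hJ : IsUnit (ev₂ P (dZ B) * ev₂ P (dY A) - ev₂ P (dY B) * ev₂ P (dZ A))) :
    ∃ P' : R × R, π ∣ P'.1 - P.1 ∧ π ∣ P'.2 - P.2 ∧ ev₂ P' A = 0 ∧ ev₂ P' B = 0 := by
  obtain ⟨u, hu⟩ := hJ.exists_right_inv
  obtain ⟨b, h1, h2⟩ := CV.newton_zero π 0 ![mv₂ A, mv₂ B] ![P.1, P.2]
    ![![-u * ev₂ P (dY B), u * ev₂ P (dY A)], ![u * ev₂ P (dZ B), -u * ev₂ P (dZ A)]]
    (by
      intro i j
      rw [Fin.sum_univ_two]
      fin_cases i <;> fin_cases j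
      · change MvPolynomial.eval ![P.1, P.2] (MvPolynomial.pderiv 0 (mv₂ A)) *
            (-u * ev₂ P (dY B)) + MvPolynomial.eval ![P.1, P.2]
            (MvPolynomial.pderiv 1 (mv₂ A)) * (u * ev₂ P (dZ B)) = if (0 : Fin 2) = 0 then π ^ 0 else 0
        rw [(mv₂_pd A).1, (mv₂_pd A).2, mv₂_eval, mv₂_eval, if_pos rfl, pow_zero, ← hu]
        ring
      · change MvPolynomial.eval ![P.1, P.2] (MvPolynomial.pderiv 0 (mv₂ A)) *
            (u * ev₂ P (dY A)) + MvPolynomial.eval ![P.1, P.2]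
            (MvPolynomial.pderiv 1 (mv₂ A)) * (-u * ev₂ P (dZ A)) = if (0 : Fin 2) = 1 then π ^ 0 else 0
        rw [(mv₂_pd A).1, (mv₂_pd A).2, mv₂_eval, mv₂_eval, if_neg (by decide)]
        ring
      · change MvPolynomial.eval ![P.1, P.2] (MvPolynomial.pderiv 0 (mv₂ B)) *
            (-u * ev₂ P (dY B)) + MvPolynomial.eval ![P.1, P.2]
            (MvPolynomial.pderiv 1 (mv₂ B)) * (u * ev₂ P (dZ B)) = if (1 : Fin 2) = 0 then π ^ 0 else 0
        rw [(mv₂_pd B).1, (mv₂_pd B).2, mv₂_eval, mv₂_eval, if_neg (by decide)]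
        ring
      · change MvPolynomial.eval ![P.1, P.2] (MvPolynomial.pderiv 0 (mv₂ B)) *
            (u * ev₂ P (dY A)) + MvPolynomial.eval ![P.1, P.2]
            (MvPolynomial.pderiv 1 (mv₂ B)) * (-u * ev₂ P (dZ A)) = if (1 : Fin 2) = 1 then π ^ 0 else 0
        rw [(mv₂_pd B).1, (mv₂_pd B).2, mv₂_eval, mv₂_eval, if_pos rfl, pow_zero, ← hu]
        ring)
    (by
      intro i
      fin_cases i
      · change π ^ 1 ∣ MvPolynomial.eval ![P.1, P.2] (mv₂ A)
        rw [pow_one, mv₂_eval]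
        exact hA
      · change π ^ 1 ∣ MvPolynomial.eval ![P.1, P.2] (mv₂ B)
        rw [pow_one, mv₂_eval]
        exact hB)
  have hb : b = ![b 0, b 1] := by
    funext i
    fin_cases i <;> rfl
  refine ⟨(b 0, b 1), ?_, ?_, ?_, ?_⟩
  · have := h1 0
    rw [zero_add, pow_one] at this
    exact this
  · have := h1 1
    rw [zero_add, pow_one] at this
    exact this
  · rw [← mv₂_eval]
    have := h2 0
    rw [hb] at this
    exact this
  · rw [← mv₂_eval]
    have := h2 1
    rw [hb] at this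
    exact this

end GM
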