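import Pool.Agent.Lib.MP_f80667_ag.Gm.GzGa
import Pool.Agent.Lib.MP_f80667_ag.Gm.GzN

/-! Displaced zeros: existence. -/

open ZC BE PE CV Polynomial IntermediateField IsLocalRing

namespace GM

variable {K Ω : Type} [Field K] [CharZero K] [Field Ω] [Algebra K Ω] [IsAlgClosure K Ω]
  {L : Ld K Ω} {M : IntermediateField K Ω} {g B B' : (OM L M)[X][X]} {b : (OM L M)[X]}
  {P P' : Ω × Ω}

omit [CharZero K] [IsAlgClosure K Ω] in
/-- The values over the integers of `M'`. -/
private theorem gzGb_e2 {M' : IntermediateField K Ω} (h : M ≤ M') (a : OM L M' × OM L M')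
    (A : (OM L M)[X][X]) :
    e2 L M (om L M' a.1, om L M' a.2) A =
      om L M' (ev₂ a (up₂ (omM L h : OM L M →+* OM L M') A)) := by
  have key : e2 L M (om L M' a.1, om L M' a.2) = (om L M').comp ((ev₂ a).comp
      (up₂ (omM L h : OM L M →+* OM L M'))) := by
    refine Polynomial.ringHom_ext' (Polynomial.ringHom_ext' (RingHom.ext fun x => ?_) ?_) ?_
    · change e2 L M _ (C (C x)) = om L M' (ev₂ a (up₂ _ (C (C x))))
      rw [e2_CC, up_CC]
      simp [ev₂]
      rfl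
    · change e2 L M _ (C X) = om L M' (ev₂ a (up₂ _ (C X)))
      rw [e2_z, up_C]
      simp [ev₂]
    · change e2 L M _ X = om L M' (ev₂ a (up₂ _ X))
      rw [e2_Y, up_X]
      simp [ev₂]
  exact congrArg (fun φ => φ A) key

private theorem gzGb_dZ_add {R : Type} [CommRing R] (A B : R[X][X]) :
    dZ (A + B) = dZ A + dZ B := by
  unfold dZ
  rw [sum_add_index] <;> simp [add_mul]

private theorem gzGb_dZ_mon {R : Type} [CommRing R] (j : ℕ) (a : R[X]) :
    dZ (monomial j a) = C (derivative a) * X ^ j := by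
  unfold dZ
  rw [sum_monomial_index]
  simp

private theorem gzGb_dZ {R : Type} [CommRing R] (b : R[X]) (π : R) (T : R[X][X]) :
    dZ (C b + C (C π) * T) = C (derivative b) + C (C π) * dZ T := by
  rw [gzGb_dZ_add]
  congr 1
  · rw [← monomial_zero_left, gzGb_dZ_mon, pow_zero, mul_one]
  · induction T using Polynomial.induction_on' with
    | add p q hp hq => rw [mul_add, gzGb_dZ_add, hp, hq, gzGb_dZ_add, mul_add]
    | monomial j a =>
      rw [C_mul_monomial, gzGb_dZ_mon, gzGb_dZ_mon, derivative_C_mul, C_mul, mul_assoc]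

private theorem gzGb_dY {R : Type} [CommRing R] (b : R[X]) (π : R) (T : R[X][X]) :
    dY (C b + C (C π) * T) = C (C π) * dY T := by
  unfold dY
  rw [derivative_add, derivative_C, zero_add, derivative_C_mul]

omit [CharZero K] [IsAlgClosure K Ω] in
private theorem gzGb_one (L : Ld K Ω) {u v : Ω} (hu : L.nm u = 1) (hv : L.nm v < 1) :
    L.nm (u + v) = 1 := by
  refine le_antisymm ((L.add u v).trans (max_le hu.le hv.le)) ?_
  by_contra hlt
  rw [not_le] at hlt
  have h1 := L.add (u + v) (-v)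
  rw [add_neg_cancel_right, L.neg, hu] at h1
  exact absurd (max_lt hlt hv) (not_lt.2 h1)

omit [CharZero K] [IsAlgClosure K Ω] in
/-- **Existence over `M'`.** Proof: `newtz` over `R = OM L M'` (complete: `acOM`, `π` a uniformizer of `M'` (`exists_unif`, `irr_of_nm`), the maximal ideal is generated by it), the polynomials `up₂ (omM L h) g` and `up₂ (omM L h) B`; values over `M'` and `e2`: by homomorphisms as `e2_V` in
`GzA.lean`. The Jacobian is congruent to `b'(c) g_Y(P)`, a unit. -/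
theorem zp_ex (hs : Sp L M g b) (hB : Pb L M b B) {M' : IntermediateField K Ω}
    [FiniteDimensional K M'] (h : M ≤ M') (m₁ : P.1 ∈ M') (m₂ : P.2 ∈ M') (h1 : L.nm P.1 ≤ 1)
    (h2 : L.nm P.2 ≤ 1) (h3 : L.nm (e2 L M P g) < 1) (h4 : L.nm (e2 L M P (C b)) < 1) :
    ∃ P', P'.1 ∈ M' ∧ P'.2 ∈ M' ∧ Zp L M g B P' ∧ Nn L P P' := by
  obtain ⟨π₀, T, hπ₀, rfl⟩ := hB
  obtain ⟨π, hπ⟩ := IsDiscreteValuationRing.exists_irreducible (OM L M')
  have hmax : maximalIdeal (OM L M') = Ideal.span {π} :=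
    (IsDiscreteValuationRing.irreducible_iff_uniformizer π).1 hπ
  have hac : IsAdicComplete (Ideal.span {π}) (OM L M') := hmax ▸ acOM L M'
  have hdvd : ∀ x : OM L M', π ∣ x ↔ L.nm (om L M' x) < 1 := fun x => by
    rw [om_lt, hmax, Ideal.mem_span_singleton]
  obtain ⟨a, ha1, ha2⟩ : ∃ a : OM L M' × OM L M', om L M' a.1 = P.1 ∧ om L M' a.2 = P.2 :=
    ⟨(⟨⟨P.1, m₁⟩, h1⟩, ⟨⟨P.2, m₂⟩, h2⟩), rfl, rfl⟩
  have hev : ∀ A, om L M' (ev₂ a (up₂ (omM L h : OM L M →+* OM L M') A)) = e2 L M P A :=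
    fun A => by rw [← gzGb_e2 h a A, ha1, ha2]
  have hlt : ∀ x : Ω, L.nm x ≤ 1 → L.nm (om L M π₀ * x) < 1 := fun x hx => by
    rw [L.mul]
    exact mul_lt_one_of_nonneg_of_lt_one_left (L.nonneg _) hπ₀ hx
  have hA : π ∣ ev₂ a (up₂ (omM L h : OM L M →+* OM L M') g) := by
    rw [hdvd, hev]
    exact h3
  have hB' : π ∣ ev₂ a (up₂ (omM L h : OM L M →+* OM L M') (C b + C (C π₀) * T)) := by
    rw [hdvd, hev, map_add, map_mul, e2_CC]
    exact (L.add _ _).trans_lt (max_lt h4 (hlt _ (e2_le h1 h2 T)))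
  have hJ : IsUnit (ev₂ a (dZ (up₂ (omM L h : OM L M →+* OM L M') (C b + C (C π₀) * T))) *
      ev₂ a (dY (up₂ (omM L h : OM L M →+* OM L M') g)) -
      ev₂ a (dY (up₂ (omM L h : OM L M →+* OM L M') (C b + C (C π₀) * T))) *
      ev₂ a (dZ (up₂ (omM L h : OM L M →+* OM L M') g))) := by
    rw [← om_unit, map_sub, map_mul, map_mul, ← up_dZ, ← up_dY, ← up_dY, ← up_dZ, hev, hev, hev,
      hev, gzGb_dZ, gzGb_dY, map_add, map_mul, map_mul, e2_CC]
    have e : (e2 L M P (C (derivative b)) + om L M π₀ * e2 L M P (dZ T)) * e2 L M P (dY g) -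
        om L M π₀ * e2 L M P (dY T) * e2 L M P (dZ g) =
        e2 L M P (C (derivative b)) * e2 L M P (dY g) +
          om L M π₀ * e2 L M P (dZ T * dY g - dY T * dZ g) := by
      rw [map_sub (e2 L M P), map_mul (e2 L M P), map_mul (e2 L M P)]
      ring
    rw [e]
    refine gzGb_one L ?_ (hlt _ (e2_le h1 h2 _))
    rw [L.mul, hs.bz P h1 h4, hs.gy P h1 h2 h3 h4, one_mul]
  obtain ⟨P', p1, p2, q1, q2⟩ := newtz hA hB' hJ
  refine ⟨(om L M' P'.1, om L M' P'.2), om_mem _, om_mem _, ⟨om_le _, om_le _, ?_, ?_⟩, ?_, ?_⟩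
  · rw [gzGb_e2 h, q1, map_zero]
  · rw [gzGb_e2 h, q2, map_zero]
  · have h5 := (hdvd _).1 p1
    rw [map_sub, ha1, L.sub_comm] at h5
    exact h5
  · have h5 := (hdvd _).1 p2
    rw [map_sub, ha2, L.sub_comm] at h5
    exact h5

end GM
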