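import Pool.Agent.Lib.MP_f80667_ag.Gm.GzGa

/-! Displaced zeros: uniqueness, estimates. -/

open ZC BE PE CV Polynomial IntermediateField IsLocalRing

namespace GM

variable {K Ω : Type} [Field K] [Field Ω] [Algebra K Ω] {L : Ld K Ω} {M : IntermediateField K Ω}
  {g B B' : (OM L M)[X][X]} {b : (OM L M)[X]} {P P' : Ω × Ω}

/-- Taylor with integral remainders. -/
private theorem GzGc_tay (h1 : L.nm P.1 ≤ 1) (h2 : L.nm P.2 ≤ 1) (h1' : L.nm P'.1 ≤ 1)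
    (h2' : L.nm P'.2 ≤ 1) (A : (OM L M)[X][X]) : ∃ k₁ k₂ k₃ : Ω, L.nm k₁ ≤ 1 ∧ L.nm k₂ ≤ 1 ∧
      L.nm k₃ ≤ 1 ∧ e2 L M P' A = e2 L M P A + (P'.1 - P.1) * e2 L M P (dZ A) +
        (P'.2 - P.2) * e2 L M P (dY A) + ((P'.1 - P.1) ^ 2 * k₁ +
          (P'.1 - P.1) * (P'.2 - P.2) * k₂ + (P'.2 - P.2) ^ 2 * k₃) := by
  obtain ⟨c, hc⟩ : ∃ c : L.V, (c : Ω) = P.1 := ⟨⟨P.1, h1⟩, rfl⟩
  obtain ⟨w, hw⟩ : ∃ w : L.V, (w : Ω) = P.2 := ⟨⟨P.2, h2⟩, rfl⟩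
  obtain ⟨c', hc'⟩ : ∃ c : L.V, (c : Ω) = P'.1 := ⟨⟨P'.1, h1'⟩, rfl⟩
  obtain ⟨w', hw'⟩ : ∃ w : L.V, (w : Ω) = P'.2 := ⟨⟨P'.2, h2'⟩, rfl⟩
  have hP : P = ((c : Ω), (w : Ω)) := by rw [hc, hw]
  have hP' : P' = ((c' : Ω), (w' : Ω)) := by rw [hc', hw']
  obtain ⟨k₁, k₂, k₃, hk⟩ := ev₂_tay c w (c' - c) (w' - w) (up₂ (omV L M : OM L M →+* L.V) A)
  rw [add_sub_cancel, add_sub_cancel] at hk
  refine ⟨k₁, k₂, k₃, k₁.2, k₂.2, k₃.2, ?_⟩
  rw [hP, hP', e2_V, e2_V, e2_V, e2_V, up_dZ, up_dY, hk]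
  push_cast
  rfl

private theorem GzGc_dYC {R : Type} [CommRing R] (b : R[X]) : dY (C b : R[X][X]) = 0 := by
  unfold dY
  exact derivative_C

private theorem GzGc_dZC {R : Type} [CommRing R] (b : R[X]) :
    dZ (C b : R[X][X]) = C (derivative b) := by
  unfold dZ
  rw [sum_C_index]
  · simp
  · simp

private theorem GzGc_max3 {a b c r : Ω} {t : ℝ} (h1 : L.nm a ≤ t) (h2 : L.nm b ≤ t)
    (h3 : L.nm c ≤ t) (h4 : L.nm r ≤ t) : L.nm (a + (b + c + r)) ≤ t :=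
  (L.add _ _).trans (max_le h1 ((L.add _ _).trans (max_le ((L.add _ _).trans (max_le h2 h3)) h4)))

private theorem GzGc_q {x y k : Ω} {s t : ℝ} (hk : L.nm k ≤ 1) (hx : L.nm x ≤ s)
    (hy : L.nm y ≤ t) : L.nm (x * y * k) ≤ s * t := by
  rw [L.mul, L.mul]
  have h0 : 0 ≤ L.nm x * L.nm y := mul_nonneg (L.nonneg _) (L.nonneg _)
  have h1 : L.nm x * L.nm y ≤ s * t :=
    mul_le_mul hx hy (L.nonneg _) ((L.nonneg _).trans hx)
  calc L.nm x * L.nm y * L.nm k ≤ L.nm x * L.nm y * 1 := mul_le_mul_of_nonneg_left hk h0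
    _ ≤ s * t := by rw [mul_one]; exact h1

/-- The comparison of the coordinates and of the values of `b`. -/
private theorem GzGc_key (h1 : L.nm P.1 ≤ 1) (h2 : L.nm P.2 ≤ 1) (h1' : L.nm P'.1 ≤ 1)
    (h2' : L.nm P'.2 ≤ 1) (hg : e2 L M P g = 0) (hg' : e2 L M P' g = 0)
    (hy : L.nm (e2 L M P (dY g)) = 1) (hb : L.nm (e2 L M P (C (derivative b))) = 1)
    (hn : Nn L P P') : L.nm (P'.2 - P.2) ≤ L.nm (P'.1 - P.1) ∧
      L.nm (P'.1 - P.1) ≤ L.nm (e2 L M P' (C b) - e2 L M P (C b)) := by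
  have hX : L.nm (P'.1 - P.1) < 1 := by rw [L.sub_comm]; exact hn.1
  have hY : L.nm (P'.2 - P.2) < 1 := by rw [L.sub_comm]; exact hn.2
  have hYX : L.nm (P'.2 - P.2) ≤ L.nm (P'.1 - P.1) := by
    obtain ⟨k₁, k₂, k₃, hk₁, hk₂, hk₃, he⟩ := GzGc_tay (M := M) h1 h2 h1' h2' g
    rw [hg, hg'] at he
    by_contra hlt
    push Not at hlt
    have hYp : 0 < L.nm (P'.2 - P.2) := (L.nonneg _).trans_lt hlt
    obtain ⟨t, ht⟩ : ∃ t, t = max (L.nm (P'.1 - P.1)) (L.nm (P'.2 - P.2) ^ 2) := ⟨_, rfl⟩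
    have htY : t < L.nm (P'.2 - P.2) := by
      rw [ht]
      refine max_lt hlt ?_
      calc L.nm (P'.2 - P.2) ^ 2 = L.nm (P'.2 - P.2) * L.nm (P'.2 - P.2) := sq _
        _ < L.nm (P'.2 - P.2) * 1 := mul_lt_mul_of_pos_left hY hYp
        _ = _ := mul_one _
    have e1 : (P'.2 - P.2) * e2 L M P (dY g) = -((P'.1 - P.1) * e2 L M P (dZ g) +
        ((P'.1 - P.1) * (P'.1 - P.1) * k₁ + (P'.1 - P.1) * (P'.2 - P.2) * k₂ +
          (P'.2 - P.2) * (P'.2 - P.2) * k₃)) := by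
      linear_combination -he
    have e2' : L.nm (P'.2 - P.2) = L.nm ((P'.2 - P.2) * e2 L M P (dY g)) := by
      rw [L.mul, hy, mul_one]
    have hXt : L.nm (P'.1 - P.1) ≤ t := by rw [ht]; exact le_max_left _ _
    have h3 : L.nm ((P'.2 - P.2) * e2 L M P (dY g)) ≤ t := by
      rw [e1, L.neg]
      refine GzGc_max3 ?_ ?_ ?_ ?_
      · rw [L.mul]
        calc L.nm (P'.1 - P.1) * L.nm (e2 L M P (dZ g)) ≤ L.nm (P'.1 - P.1) * 1 :=
              mul_le_mul_of_nonneg_left (e2_le h1 h2 _) (L.nonneg _)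
          _ ≤ t := by rw [mul_one]; exact hXt
      · refine (GzGc_q hk₁ le_rfl hX.le).trans ?_
        rw [mul_one]; exact hXt
      · refine (GzGc_q hk₂ le_rfl hY.le).trans ?_
        rw [mul_one]; exact hXt
      · refine (GzGc_q hk₃ le_rfl le_rfl).trans ?_
        rw [ht, ← sq]
        exact le_max_right _ _
    linarith
  refine ⟨hYX, ?_⟩
  obtain ⟨k₁, k₂, k₃, hk₁, hk₂, hk₃, he⟩ := GzGc_tay (M := M) h1 h2 h1' h2' (C b)
  rw [GzGc_dYC, GzGc_dZC, map_zero, mul_zero, add_zero] at he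
  rcases (L.nonneg (P'.1 - P.1)).eq_or_lt with h0 | h0
  · rw [← h0]; exact L.nonneg _
  have e1 : e2 L M P' (C b) - e2 L M P (C b) = (0 + ((P'.1 - P.1) * (P'.1 - P.1) * k₁ +
      (P'.1 - P.1) * (P'.2 - P.2) * k₂ + (P'.2 - P.2) * (P'.2 - P.2) * k₃)) +
      (P'.1 - P.1) * e2 L M P (C (derivative b)) := by
    rw [he]; ring
  have h3 : L.nm ((P'.1 - P.1) * e2 L M P (C (derivative b))) = L.nm (P'.1 - P.1) := by
    rw [L.mul, hb, mul_one]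
  have h4 : L.nm (0 + ((P'.1 - P.1) * (P'.1 - P.1) * k₁ +
      (P'.1 - P.1) * (P'.2 - P.2) * k₂ + (P'.2 - P.2) * (P'.2 - P.2) * k₃)) ≤
      L.nm (P'.1 - P.1) * L.nm (P'.1 - P.1) := by
    refine GzGc_max3 ?_ ?_ ?_ ?_
    · rw [L.zero]; positivity
    · exact GzGc_q hk₁ le_rfl le_rfl
    · exact GzGc_q hk₂ le_rfl hYX
    · exact GzGc_q hk₃ hYX hYX
  have h5 : L.nm (P'.1 - P.1) * L.nm (P'.1 - P.1) < L.nm (P'.1 - P.1) := by
    calc L.nm (P'.1 - P.1) * L.nm (P'.1 - P.1) < L.nm (P'.1 - P.1) * 1 :=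
          mul_lt_mul_of_pos_left hX h0
      _ = _ := mul_one _
  rw [e1, L.add_eq (by rw [h3]; exact h4.trans_lt h5), h3]

/-- **Uniqueness.** Proof: `ev₂_tay` over `L.V` (`e2_V`) for `g`: `nm (w' - w) ≤ nm (c' - c)` because `nm g_Y(P) = 1`; for `b` and `T` in `B = b + π T`: `b'(c) (c' - c) + k (c' - c) ^ 2 = - π (T(P') - T(P))`, the left side has norm `nm (c' - c)`, the right side
has norm `≤ nm π nm (c' - c)`. So `c' = c`. -/
theorem zp_uniq (hs : Sp L M g b) (hB : Pb L M b B) (h : Zp L M g B P) (h' : Zp L M g B P')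
    (hn : Nn L P P') : P = P' := by
  have hlt := zp_lt hB h
  have hg0 : L.nm (e2 L M P g) < 1 := by
    rw [h.eq, L.zero]; exact zero_lt_one
  obtain ⟨h1, h2⟩ := GzGc_key (b := b) h.le₁ h.le₂ h'.le₁ h'.le₂ h.eq h'.eq
    (hs.gy P h.le₁ h.le₂ hg0 hlt) (hs.bz P h.le₁ hlt) hn
  obtain ⟨π, T, hπ, hBT⟩ := hB
  have e1 : ∀ Q : Ω × Ω, Zp L M g B Q → e2 L M Q (C b) = -(om L M π * e2 L M Q T) := by
    intro Q hQ
    have h3 := hQ.eq'
    rw [hBT, map_add, map_mul, e2_CC] at h3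
    linear_combination h3
  have h3 : L.nm (e2 L M P' (C b) - e2 L M P (C b)) ≤ L.nm (om L M π) * L.nm (P'.1 - P.1) := by
    have e3 : e2 L M P' (C b) - e2 L M P (C b) = -(om L M π * (e2 L M P' T - e2 L M P T)) := by
      rw [e1 P' h', e1 P h]; ring
    rw [e3, L.neg, L.mul]
    exact mul_le_mul_of_nonneg_left (e2_near h'.le₁ h'.le₂ h.le₁ h.le₂ le_rfl h1 T) (L.nonneg _)
  have h4 : L.nm (P'.1 - P.1) = 0 := by
    rcases (L.nonneg (P'.1 - P.1)).eq_or_lt with h0 | h0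
    · exact h0.symm
    · exfalso
      have h5 : L.nm (om L M π) * L.nm (P'.1 - P.1) < 1 * L.nm (P'.1 - P.1) :=
        mul_lt_mul_of_pos_right hπ h0
      linarith [h2.trans h3]
  have h5 : L.nm (P'.2 - P.2) = 0 := le_antisymm (h1.trans h4.le) (L.nonneg _)
  have h6 := (L.zero_iff _).1 h4
  have h7 := (L.zero_iff _).1 h5
  exact Prod.ext (sub_eq_zero.1 h6).symm (sub_eq_zero.1 h7).symm

/-- **Estimates.** Proof: as `zp_uniq`, the first equation for `g`, the second `b(c') - b(c) = π ^ s T(P')`. -/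
theorem zp_le (hs : Sp L M g b) {π : OM L M} {s : ℕ} {T : (OM L M)[X][X]}
    (hπ : L.nm (om L M π) < 1) (hs0 : s ≠ 0) (h : Zp L M g (C b) P)
    (h' : Zp L M g (C b - C (C (π ^ s)) * T) P') (hn : Nn L P P') :
    L.nm (P'.1 - P.1) ≤ L.nm (om L M π) ^ s ∧ L.nm (P'.2 - P.2) ≤ L.nm (om L M π) ^ s := by
  have hlt : L.nm (e2 L M P (C b)) < 1 := by
    rw [h.eq', L.zero]; exact zero_lt_one
  have hg0 : L.nm (e2 L M P g) < 1 := by
    rw [h.eq, L.zero]; exact zero_lt_one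
  obtain ⟨h1, h2⟩ := GzGc_key (b := b) h.le₁ h.le₂ h'.le₁ h'.le₂ h.eq h'.eq
    (hs.gy P h.le₁ h.le₂ hg0 hlt) (hs.bz P h.le₁ hlt) hn
  have h3 : L.nm (e2 L M P' (C b) - e2 L M P (C b)) ≤ L.nm (om L M π) ^ s := by
    have e5 : ∀ A B : (OM L M)[X][X], e2 L M P' (A - B) = e2 L M P' A - e2 L M P' B :=
      fun A B => map_sub (e2 L M P') A B
    have e3 := h'.eq'
    rw [e5, map_mul, e2_CC, map_pow] at e3
    have e4 : e2 L M P' (C b) - e2 L M P (C b) = om L M π ^ s * e2 L M P' T := by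
      rw [h.eq']
      linear_combination e3
    rw [e4, L.mul, L.pow]
    calc L.nm (om L M π) ^ s * L.nm (e2 L M P' T) ≤ L.nm (om L M π) ^ s * 1 :=
          mul_le_mul_of_nonneg_left (e2_le h'.le₁ h'.le₂ T) (pow_nonneg (L.nonneg _) _)
      _ = _ := mul_one _
  exact ⟨h2.trans h3, h1.trans (h2.trans h3)⟩

end GM
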