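import Pool.Agent.Lib.MP_f80667_ag.Gm.GzGc
import Pool.Agent.Lib.MP_f80667_ag.Pe.Ur

/-! Displaced zeros: rationality. -/

open ZC BE PE CV Polynomial IntermediateField IsLocalRing

namespace GM

variable {K Ω : Type} [Field K] [CharZero K] [Field Ω] [Algebra K Ω] [IsAlgClosure K Ω]
  {L : Ld K Ω} {M : IntermediateField K Ω} {g B B' : (OM L M)[X][X]} {b : (OM L M)[X]}
  {P P' : Ω × Ω}

/-- Every integral point is congruent to a point over an unramified extension. Proof: `Ld.te_rep` for both coordinates, `te_dvd`, `te_ur`, `te_int` (`Pe/Ur.lean`). -/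
theorem nn_te (h1 : L.nm P.1 ≤ 1) (h2 : L.nm P.2 ≤ 1) : ∃ N : ℕ, N ≠ 0 ∧ ∃ Q : Ω × Ω,
    Q.1 ∈ L.Ur M N ∧ Q.2 ∈ L.Ur M N ∧ L.nm Q.1 ≤ 1 ∧ L.nm Q.2 ≤ 1 ∧ Nn L P Q := by
  obtain ⟨N₁, hN₁, x, hx, hxx⟩ := Ld.te_rep (L := L) h1
  obtain ⟨N₂, hN₂, y, hy, hyy⟩ := Ld.te_rep (L := L) h2
  exact ⟨N₁ * N₂, mul_ne_zero hN₁ hN₂, (x, y), Ld.te_ur (Ld.te_dvd (dvd_mul_right N₁ N₂) hx),
    Ld.te_ur (Ld.te_dvd (dvd_mul_left N₂ N₁) hy), Ld.te_int hN₁ hx, Ld.te_int hN₂ hy, hxx, hyy⟩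

private theorem gzgd_near {γ : Ω ≃ₐ[K] Ω} {x y : Ω} (h : L.nm (x - y) < 1) (hy : γ y = y) :
    L.nm (x - γ x) < 1 := by
  have h1 : x - γ x = (x - y) + γ (y - x) := by
    rw [map_sub, hy]
    ring
  rw [h1]
  refine (L.add _ _).trans_lt (max_lt h ?_)
  rw [L.act, L.sub_comm]
  exact h

/-- Proof: `nn_te`; for `γ` over `Ur M N` the points `γ P` and `P` are congruent (both are congruent to `Q`) zeros (`e2_act`), `zp_uniq`. -/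
theorem zp_fix (hs : Sp L M g b) (hB : Pb L M b B) (h : Zp L M g B P) : ∃ N : ℕ, N ≠ 0 ∧
    ∀ γ ∈ (L.Ur M N).fixingSubgroup, γ P.1 = P.1 ∧ γ P.2 = P.2 := by
  obtain ⟨N, hN, Q, q1, q2, -, -, hq1, hq2⟩ := nn_te (M := M) h.le₁ h.le₂
  refine ⟨N, hN, fun γ hγ => ?_⟩
  have hγM : γ ∈ M.fixingSubgroup :=
    IntermediateField.fixingSubgroup_le (Ld.ur_le : M ≤ L.Ur M N) hγ
  have f1 : γ Q.1 = Q.1 := (IntermediateField.mem_fixingSubgroup_iff _ γ).1 hγ _ q1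
  have f2 : γ Q.2 = Q.2 := (IntermediateField.mem_fixingSubgroup_iff _ γ).1 hγ _ q2
  have h' : Zp L M g B (γ P.1, γ P.2) := by
    refine ⟨?_, ?_, ?_, ?_⟩
    · change L.nm (γ P.1) ≤ 1
      rw [L.act]
      exact h.le₁
    · change L.nm (γ P.2) ≤ 1
      rw [L.act]
      exact h.le₂
    · rw [e2_act hγM, h.eq, map_zero]
    · rw [e2_act hγM, h.eq', map_zero]
  have hn : Nn L P (γ P.1, γ P.2) := ⟨gzgd_near hq1 f1, gzgd_near hq2 f2⟩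
  have he := zp_uniq hs hB h h' hn
  exact ⟨(congrArg Prod.fst he).symm, (congrArg Prod.snd he).symm⟩

end GM
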