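import Pool.Agent.Lib.MP_f80667_ag.Gm.GzGb
import Pool.Agent.Lib.MP_f80667_ag.Gm.GzGd

/-! Displaced zeros: the bijection. -/

open ZC BE PE CV Polynomial IntermediateField IsLocalRing

namespace GM

variable {K Ω : Type} [Field K] [CharZero K] [Field Ω] [Algebra K Ω] [IsAlgClosure K Ω]
  {L : Ld K Ω} {M : IntermediateField K Ω} {g B B' : (OM L M)[X][X]} {b : (OM L M)[X]}
  {P P' : Ω × Ω}

omit [CharZero K] [IsAlgClosure K Ω] in
private theorem gzGe_symm (h : Nn L P P') : Nn L P' P :=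
  ⟨by rw [L.sub_comm]; exact h.1, by rw [L.sub_comm]; exact h.2⟩

omit [CharZero K] [IsAlgClosure K Ω] in
private theorem gzGe_trans {P'' : Ω × Ω} (h : Nn L P P') (h' : Nn L P' P'') : Nn L P P'' := by
  constructor
  · rw [← sub_add_sub_cancel P.1 P'.1 P''.1]
    exact (L.add _ _).trans_lt (max_lt h.1 h'.1)
  · rw [← sub_add_sub_cancel P.2 P'.2 P''.2]
    exact (L.add _ _).trans_lt (max_lt h.2 h'.2)

omit [CharZero K] [IsAlgClosure K Ω] in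
private theorem gzGe_near (h1 : L.nm P.1 ≤ 1) (h2 : L.nm P.2 ≤ 1) (h1' : L.nm P'.1 ≤ 1)
    (h2' : L.nm P'.2 ≤ 1) (hn : Nn L P P') (A : (OM L M)[X][X])
    (hA : L.nm (e2 L M P A) < 1) : L.nm (e2 L M P' A) < 1 := by
  have h3 := e2_near (M := M) h1 h2 h1' h2' (r := max (L.nm (P.1 - P'.1)) (L.nm (P.2 - P'.2)))
    (le_max_left _ _) (le_max_right _ _) A
  have h4 : L.nm (e2 L M P A - e2 L M P' A) < 1 := h3.trans_lt (max_lt hn.1 hn.2)
  have h5 := (L.sub (e2 L M P A) (e2 L M P A - e2 L M P' A)).trans_lt (max_lt hA h4)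
  rwa [sub_sub_cancel] at h5

/-- Proof: `nn_te`, `zp_ex` for `M' = Ur M N` (`Ld.ur_fin`, `Ld.ur_le`) and the point `Q`; `e2_near`. -/
theorem zp_mv [FiniteDimensional K M] (hs : Sp L M g b) (hB : Pb L M b B) (hB' : Pb L M b B')
    (h : Zp L M g B P) : ∃ P', Zp L M g B' P' ∧ Nn L P P' := by
  obtain ⟨N, hN, Q, hQ1, hQ2, hQ3, hQ4, hPQ⟩ := nn_te (M := M) h.le₁ h.le₂
  have hfd : FiniteDimensional K (L.Ur M N) := Ld.ur_fin M N hN
  have h3 : L.nm (e2 L M Q g) < 1 := by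
    refine gzGe_near h.le₁ h.le₂ hQ3 hQ4 hPQ g ?_
    rw [h.eq, (L.zero_iff 0).2 rfl]
    exact zero_lt_one
  have h4 : L.nm (e2 L M Q (C b)) < 1 :=
    gzGe_near h.le₁ h.le₂ hQ3 hQ4 hPQ (C b) (zp_lt hB h)
  obtain ⟨P', -, -, h5, h6⟩ := zp_ex hs hB' (Ld.ur_le (L := L) (M := M) (N := N)) hQ1 hQ2 hQ3 hQ4
    h3 h4
  exact ⟨P', h5, gzGe_trans hPQ h6⟩

/-- **The bijection.** Proof: `zp_mv` in both directions, `zp_uniq`. -/
theorem tau_bij [FiniteDimensional K M] (hs : Sp L M g b) (hB : Pb L M b B)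
    (hB' : Pb L M b B') : ∃ τ : Ω × Ω → Ω × Ω,
      Set.BijOn τ {P | Zp L M g B P} {P | Zp L M g B' P} ∧
        ∀ P, Zp L M g B P → Nn L P (τ P) := by
  classical
  choose! τ hτ hτ' using fun P (h : Zp L M g B P) => zp_mv hs hB hB' h
  refine ⟨τ, ⟨fun P hP => hτ P hP, ?_, ?_⟩, hτ'⟩
  · intro P₁ h₁ P₂ h₂ he
    have h3 : Nn L P₂ (τ P₁) := by
      rw [he]
      exact hτ' P₂ h₂
    exact zp_uniq hs hB h₁ h₂ (gzGe_trans (hτ' P₁ h₁) (gzGe_symm h3))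
  · intro P' hP'
    obtain ⟨P, hP, hn⟩ := zp_mv hs hB' hB hP'
    exact ⟨P, hP, (zp_uniq hs hB' hP' (hτ P hP) (gzGe_trans hn (hτ' P hP))).symm⟩

end GM
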