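import Mathlib

/-!
The Koszul complex of a family `b : Fin N → R`: the elements of degree `j` are the functions on the subsets of `Fin N` with `j`
elements. `Kz.Ex b j I`: it is exact in degree `j` modulo the ideal `I`.
-/

namespace GM

variable {R : Type} [CommRing R] {N : ℕ}

/-- The sign of `i` with respect to `S`. -/
def ksg (i : Fin N) (S : Finset (Fin N)) : ℤ := (-1) ^ (S.filter (· < i)).card

/-- The differential: `(d f)(S) = ∑ i ∉ S, ± b i f(S ∪ {i})`. -/
def kd (b : Fin N → R) (f : Finset (Fin N) → R) : Finset (Fin N) → R := fun S =>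
  ∑ i ∈ Sᶜ, (ksg i S : R) * b i * f (insert i S)

/-- Multiplication with `e_i`. -/
def ke (i : Fin N) (f : Finset (Fin N) → R) : Finset (Fin N) → R := fun S =>
  if i ∈ S then (ksg i (S.erase i) : R) * f (S.erase i) else 0

theorem kd_add (b : Fin N → R) (f g : Finset (Fin N) → R) : kd b (f + g) = kd b f + kd b g := by
  funext S
  simp only [kd, Pi.add_apply, mul_add, Finset.sum_add_distrib]

theorem kd_smul (b : Fin N → R) (r : R) (f : Finset (Fin N) → R) :
    kd b (fun S => r * f S) = fun S => r * kd b f S := by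
  funext S
  simp only [kd, Finset.mul_sum]
  refine Finset.sum_congr rfl fun i _ => ?_
  ring

private theorem ksg_insert {i j : Fin N} {S : Finset (Fin N)} (hi : i ∉ S) :
    ksg j (insert i S) = if i < j then - ksg j S else ksg j S := by
  unfold ksg
  rw [Finset.filter_insert]
  split_ifs with h
  · rw [Finset.card_insert_of_notMem (by simp [hi]), pow_succ]
    ring
  · rfl

private theorem ksg_sq (i : Fin N) (S : Finset (Fin N)) : ((ksg i S : ℤ) : R) * (ksg i S : R) = 1 := by
  unfold ksg
  push_cast
  rw [← mul_pow]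
  simp

private theorem ksg_anti {i j : Fin N} {S : Finset (Fin N)} (hij : i ≠ j) (hi : i ∉ S)
    (hj : j ∉ S) : ksg i S * ksg j (insert i S) + ksg j S * ksg i (insert j S) = 0 := by
  rw [ksg_insert hi, ksg_insert hj]
  rcases lt_or_gt_of_ne hij with h | h
  · rw [if_pos h, if_neg (not_lt.2 h.le)]
    ring
  · rw [if_neg (not_lt.2 h.le), if_pos h]
    ring

private theorem ksg_anti2 {i j : Fin N} {S : Finset (Fin N)} (hij : i ≠ j) (hi : i ∉ S)
    (hj : j ∉ S) : ksg i (insert j S) * ksg j (insert i S) + ksg i S * ksg j S = 0 := by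
  rw [ksg_insert hi, ksg_insert hj]
  rcases lt_or_gt_of_ne hij with h | h
  · rw [if_pos h, if_neg (not_lt.2 h.le)]
    ring
  · rw [if_neg (not_lt.2 h.le), if_pos h]
    ring

/-- Proof: the terms for `(i, j)` and `(j, i)` cancel. -/
theorem kd_kd (b : Fin N → R) (f : Finset (Fin N) → R) : kd b (kd b f) = 0 := by
  funext S
  simp only [kd, Pi.zero_apply, Finset.mul_sum]
  rw [Finset.sum_sigma']
  refine Finset.sum_involution (fun x _ => ⟨x.2, x.1⟩) ?_ ?_ ?_ ?_
  · rintro ⟨i, j⟩ hx
    simp only [Finset.mem_sigma, Finset.mem_compl, Finset.mem_insert, not_or] at hx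
    obtain ⟨hi, hji, hj⟩ := hx
    have h := congrArg (Int.cast : ℤ → R) (ksg_anti (Ne.symm hji) hi hj)
    push_cast at h
    have hc : insert i (insert j S) = insert j (insert i S) := Finset.insert_comm i j S
    simp only
    rw [hc]
    linear_combination (b i * b j * f (insert j (insert i S))) * h
  · rintro ⟨i, j⟩ hx _ heq
    simp only [Finset.mem_sigma, Finset.mem_compl, Finset.mem_insert, not_or] at hx
    obtain ⟨hi, hji, hj⟩ := hx
    simp only [Sigma.mk.injEq] at heq
    exact hji heq.1
  · rintro ⟨i, j⟩ hx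
    simp only [Finset.mem_sigma, Finset.mem_compl, Finset.mem_insert, not_or] at hx ⊢
    obtain ⟨hi, hji, hj⟩ := hx
    exact ⟨hj, Ne.symm hji, hi⟩
  · rintro ⟨i, j⟩ hx
    rfl

/-- The homotopy: `d (e_i f) + e_i (d f) = b_i f`. -/
theorem kd_ke (b : Fin N → R) (i : Fin N) (f : Finset (Fin N) → R) (S : Finset (Fin N)) :
    kd b (ke i f) S + ke i (kd b f) S = b i * f S := by
  by_cases hi : i ∈ S
  · obtain ⟨T, hT, rfl⟩ : ∃ T, i ∉ T ∧ insert i T = S :=
      ⟨S.erase i, Finset.notMem_erase i S, Finset.insert_erase hi⟩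
    have hE : (insert i T).erase i = T := Finset.erase_insert hT
    have hc : Tᶜ = insert i (insert i T)ᶜ := by
      ext x
      simp only [Finset.mem_compl, Finset.mem_insert, not_or]
      constructor
      · intro h
        by_cases hx : x = i
        · exact Or.inl hx
        · exact Or.inr ⟨hx, h⟩
      · rintro (rfl | h)
        · exact hT
        · exact h.2
    have h2 : ke i (kd b f) (insert i T) = b i * f (insert i T) +
        ∑ j ∈ (insert i T)ᶜ, (ksg i T : R) * ((ksg j T : R) * b j * f (insert j T)) := by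
      simp only [ke, kd, if_pos (Finset.mem_insert_self i T), hE]
      rw [hc, Finset.sum_insert (by simp), mul_add, Finset.mul_sum]
      congr 1
      linear_combination (b i * f (insert i T)) * ksg_sq (R := R) i T
    have h1 : kd b (ke i f) (insert i T) =
        ∑ j ∈ (insert i T)ᶜ, (ksg j (insert i T) : R) * b j *
          ((ksg i (insert j T) : R) * f (insert j T)) := by
      simp only [kd]
      refine Finset.sum_congr rfl fun j hj => ?_
      simp only [Finset.mem_compl, Finset.mem_insert, not_or] at hj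
      have e1 : (insert j (insert i T)).erase i = insert j T := by
        rw [Finset.insert_comm, Finset.erase_insert]
        simp only [Finset.mem_insert, not_or]
        exact ⟨Ne.symm hj.1, hT⟩
      simp only [ke]
      rw [if_pos (by simp), e1]
    rw [h1, h2, add_left_comm, ← Finset.sum_add_distrib]
    rw [Finset.sum_eq_zero, add_zero]
    intro j hj
    simp only [Finset.mem_compl, Finset.mem_insert, not_or] at hj
    have h := congrArg (Int.cast : ℤ → R) (ksg_anti2 (Ne.symm hj.1) hT hj.2)
    push_cast at h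
    linear_combination (b j * f (insert j T)) * h
  · have h2 : ke i (kd b f) S = 0 := by
      simp only [ke]
      rw [if_neg hi]
    rw [h2, add_zero]
    simp only [kd]
    rw [Finset.sum_eq_single i]
    · simp only [ke]
      rw [if_pos (Finset.mem_insert_self i S), Finset.erase_insert hi]
      linear_combination (b i * f S) * ksg_sq (R := R) i S
    · intro j hj hji
      simp only [ke]
      rw [if_neg, mul_zero]
      simp only [Finset.mem_insert, not_or]
      exact ⟨Ne.symm hji, hi⟩
    · intro h
      exact absurd (Finset.mem_compl.2 hi) h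

/-- Exactness in degree `j` modulo `I`. -/
def KEx (b : Fin N → R) (j : ℕ) (I : Ideal R) : Prop :=
  ∀ f : Finset (Fin N) → R, (∀ S, S.card ≠ j → f S = 0) → (∀ S, kd b f S ∈ I) →
    ∃ g : Finset (Fin N) → R, (∀ S, S.card ≠ j + 1 → g S = 0) ∧ ∀ S, f S - kd b g S ∈ I

/-- There are no subsets with more than `N` elements. -/
theorem kex_top (b : Fin N → R) {j : ℕ} (hj : N < j) (I : Ideal R) : KEx b j I := by
  intro f hf _
  refine ⟨fun _ => 0, fun _ _ => rfl, fun S => ?_⟩
  have h1 : f S = 0 := hf S (by
    have := Finset.card_le_univ S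
    rw [Fintype.card_fin] at this
    omega)
  rw [h1]
  simp [kd]

private theorem kd_mem (b : Fin N → R) {I : Ideal R} {f : Finset (Fin N) → R} (h : ∀ S, f S ∈ I)
    (S : Finset (Fin N)) : kd b f S ∈ I :=
  Ideal.sum_mem _ fun i _ => I.mul_mem_left _ (h _)

private theorem kd_zero_of_card (b : Fin N → R) {j : ℕ} {f : Finset (Fin N) → R}
    (hf : ∀ S, S.card ≠ j + 1 → f S = 0) (S : Finset (Fin N)) (hS : S.card ≠ j) :
    kd b f S = 0 := by
  simp only [kd]
  refine Finset.sum_eq_zero fun i hi => ?_
  rw [hf (insert i S), mul_zero]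
  rw [Finset.card_insert_of_notMem (Finset.mem_compl.1 hi)]
  omega

/-- Proof: let `d f ∈ I`, `a = ∑ r_i b_i`, `h = ∑ r_i e_i f`: `d h = a f - e (d f)`, so `d h = a f` modulo `I` (`kd_ke`), `d h = 0` modulo `I + (a)`; so
`h = d u + a v + (element of I)`, `a f = d h = a d v` modulo `I` (`kd_kd`), and `f - d v ∈ I` because `a` is regular modulo `I`. -/
theorem kex_step (b : Fin N → R) {j : ℕ} {I : Ideal R} {a : R} (ha : a ∈ Ideal.span (Set.range b))
    (hreg : ∀ x, a * x ∈ I → x ∈ I) (h : KEx b (j + 1) (I ⊔ Ideal.span {a})) : KEx b j I := by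
  classical
  intro f hf hdf
  obtain ⟨r, hr⟩ : ∃ r : Fin N → R, ∑ i, r i * b i = a := by
    have := (Submodule.mem_span_range_iff_exists_fun R).1 ha
    simpa only [smul_eq_mul] using this
  set H : Finset (Fin N) → R := fun S => ∑ i, r i * ke i f S with hH
  have hHcard : ∀ S : Finset (Fin N), S.card ≠ j + 1 → H S = 0 := by
    intro S hS
    refine Finset.sum_eq_zero fun i _ => ?_
    simp only [ke]
    split_ifs with hi
    · rw [hf (S.erase i), mul_zero, mul_zero]
      have := Finset.card_erase_add_one hi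
      omega
    · rw [mul_zero]
  have hdH : ∀ S, kd b H S = a * f S - ∑ i, r i * ke i (kd b f) S := by
    intro S
    have h1 : kd b H S = ∑ i, r i * kd b (ke i f) S := by
      simp only [kd, hH]
      simp only [Finset.mul_sum]
      rw [Finset.sum_comm]
      refine Finset.sum_congr rfl fun i _ => Finset.sum_congr rfl fun k _ => ?_
      ring
    rw [h1, ← hr, Finset.sum_mul, ← Finset.sum_sub_distrib]
    refine Finset.sum_congr rfl fun i _ => ?_
    have := kd_ke b i f S
    linear_combination (r i) * this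
  have hke : ∀ S, ∑ i, r i * ke i (kd b f) S ∈ I := by
    intro S
    refine Ideal.sum_mem _ fun i _ => I.mul_mem_left _ ?_
    simp only [ke]
    split_ifs
    · exact I.mul_mem_left _ (hdf _)
    · exact I.zero_mem
  obtain ⟨u, hu, huI⟩ := h H hHcard (by
    intro S
    rw [hdH S]
    refine Ideal.sub_mem _ ?_ (Ideal.mem_sup_left (hke S))
    exact Ideal.mem_sup_right (Ideal.mul_mem_right _ _ (Ideal.mem_span_singleton_self a)))
  have hv : ∀ S : Finset (Fin N), ∃ v : R, (S.card ≠ j + 1 → v = 0) ∧
      H S - kd b u S - a * v ∈ I := by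
    intro S
    by_cases hS : S.card = j + 1
    · obtain ⟨y, hy, z, hz, hyz⟩ := Submodule.mem_sup.1 (huI S)
      obtain ⟨v, rfl⟩ := Ideal.mem_span_singleton'.1 hz
      refine ⟨v, fun h => absurd hS h, ?_⟩
      have : H S - kd b u S - a * v = y := by rw [← hyz]; ring
      rw [this]
      exact hy
    · refine ⟨0, fun _ => rfl, ?_⟩
      rw [hHcard S hS, kd_zero_of_card b hu S hS]
      simp
  choose v hv0 hvI using hv
  refine ⟨v, fun S hS => hv0 S hS, fun S => hreg _ ?_⟩
  have h1 := kd_mem b hvI S
  have h2 : kd b (fun S => H S - kd b u S - a * v S) S =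
      kd b H S - kd b (kd b u) S - a * kd b v S := by
    have e : (fun S => H S - kd b u S - a * v S) =
        H + ((fun S => (-1) * kd b u S) + (fun S => (-a) * v S)) := by
      funext S
      simp only [Pi.add_apply]
      ring
    rw [e, kd_add, kd_add, kd_smul, kd_smul]
    simp only [Pi.add_apply]
    ring
  rw [h2, kd_kd, hdH S, Pi.zero_apply] at h1
  have h3 := I.add_mem h1 (hke S)
  have e : a * (f S - kd b v S) = a * f S - ∑ i, r i * ke i (kd b f) S - 0 - a * kd b v S +
      ∑ i, r i * ke i (kd b f) S := by ring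
  rw [e]
  exact h3

/-- Exactness in degree `1`: the syzygies are the Koszul syzygies. Proof: `f {i} = c i`, `kd b f ∅ = ∑ b i c i = 0`; `f = kd b g`:
`c i = ∑ j ≠ i, ± b j g {i, j}`. -/
theorem syz_of_kex (b : Fin N → R) (h : KEx b 1 ⊥) {c : Fin N → R} (hc : ∑ i, c i * b i = 0)
    (i : Fin N) : c i ∈ Ideal.span (Set.range b) := by
  classical
  set f : Finset (Fin N) → R := fun S => if S.card = 1 then ∑ i ∈ S, c i else 0 with hf
  obtain ⟨g, hg, hfg⟩ := h f (fun S hS => if_neg hS) (by
    intro S
    rw [Ideal.mem_bot]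
    by_cases hS : S = ∅
    · subst hS
      simp only [kd, hf]
      rw [← hc, Finset.compl_empty]
      refine Finset.sum_congr rfl fun k _ => ?_
      simp [ksg]
      ring
    · refine kd_zero_of_card b (j := 0) (fun S hS => if_neg (by simpa using hS)) S ?_
      rwa [Ne, Finset.card_eq_zero])
  have h1 := hfg {i}
  rw [Ideal.mem_bot, sub_eq_zero] at h1
  have h2 : f {i} = c i := by simp [hf]
  rw [← h2, h1]
  simp only [kd]
  refine Ideal.sum_mem _ fun k _ => ?_
  refine Ideal.mul_mem_right _ _ (Ideal.mul_mem_left _ _ (Ideal.subset_span ⟨k, rfl⟩))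

end GM
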