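import Mathlib

/-! The planar lemma, preparations. -/

open MvPolynomial

namespace GM

variable {κ : Type} [Field κ]

/-- A function which is a polynomial of bounded degree in every variable is a polynomial. Proof: induction on the number of variables (`Fin M`): with
distinct `c_0, .., c_D`, `f b = ∑ r, L_r (b 0) f (update b 0 c_r)` (Lagrange interpolation in the first variable), and the functions
`f (update b 0 c_r)` are polynomials in the other variables. -/
theorem sep_fin [Infinite κ] {M : ℕ} (f : (Fin M → κ) → κ) (D : ℕ)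
    (h : ∀ (s : Fin M) (b : Fin M → κ), ∃ q : Polynomial κ, q.natDegree ≤ D ∧
      ∀ c, f (Function.update b s c) = q.eval c) :
    ∃ g : MvPolynomial (Fin M) κ, ∀ b, f b = eval b g := by
  induction M with
  | zero =>
    refine ⟨C (f fun i => i.elim0), fun b => ?_⟩
    rw [eval_C]
    congr 1
    exact Subsingleton.elim _ _
  | succ M ih =>
    let node : ℕ → κ := Infinite.natEmbedding κ
    have hnode : Function.Injective node := (Infinite.natEmbedding κ).injective
    have hr : ∀ r : ℕ, ∃ g : MvPolynomial (Fin M) κ, ∀ b : Fin M → κ,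
        f (Fin.cons (node r) b : Fin (M + 1) → κ) = eval b g := by
      intro r
      refine ih (fun b => f (Fin.cons (node r) b : Fin (M + 1) → κ)) fun s b => ?_
      obtain ⟨q, hq, hq2⟩ := h s.succ (Fin.cons (node r) b : Fin (M + 1) → κ)
      refine ⟨q, hq, fun c => ?_⟩
      rw [← hq2 c, Fin.cons_update]
    choose g hg using hr
    refine ⟨∑ r ∈ Finset.range (D + 1),
      Polynomial.eval₂ C (X 0) (Lagrange.basis (Finset.range (D + 1)) node r) *
        rename Fin.succ (g r), fun b => ?_⟩
    obtain ⟨q, hq, hq2⟩ := h 0 b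
    have h1 : q = Lagrange.interpolate (Finset.range (D + 1)) node fun i => q.eval (node i) := by
      refine Lagrange.eq_interpolate hnode.injOn ?_
      rw [Finset.card_range]
      refine lt_of_le_of_lt Polynomial.degree_le_natDegree ?_
      exact_mod_cast Nat.lt_succ_of_le hq
    have h2 : f b = q.eval (b 0) := by
      rw [← hq2 (b 0), Function.update_eq_self]
    rw [h2, h1, Lagrange.interpolate_apply, Polynomial.eval_finsetSum, map_sum]
    refine Finset.sum_congr rfl fun r _ => ?_
    have h3 : q.eval (node r) = eval (b ∘ Fin.succ) (g r) := by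
      rw [← hq2, ← hg]
      congr 1
      funext i
      refine Fin.cases ?_ (fun i => ?_) i
      · rw [Function.update_self, Fin.cons_zero]
      · rw [Function.update_of_ne (Fin.succ_ne_zero i), Fin.cons_succ]
        rfl
    have h4 : eval b (Polynomial.eval₂ C (X 0) (Lagrange.basis (Finset.range (D + 1)) node r)) =
        (Lagrange.basis (Finset.range (D + 1)) node r).eval (b 0) := by
      rw [Polynomial.hom_eval₂, eval_X]
      have h5 : (eval b).comp C = RingHom.id κ := RingHom.ext fun c => eval_C c
      rw [h5]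
      rfl
    rw [Polynomial.eval_mul, Polynomial.eval_C, map_mul, h4, eval_rename, h3, mul_comm]

/-- Proof: `sep_fin` and `Fintype.equivFin` (`MvPolynomial.rename`). -/
theorem sep_poly [Infinite κ] {σ : Type} [Fintype σ] [DecidableEq σ] (f : (σ → κ) → κ) (D : ℕ)
    (h : ∀ (s : σ) (b : σ → κ), ∃ q : Polynomial κ, q.natDegree ≤ D ∧
      ∀ c, f (Function.update b s c) = q.eval c) :
    ∃ g : MvPolynomial σ κ, ∀ b, f b = eval b g := by
  let e := Fintype.equivFin σ
  obtain ⟨g, hg⟩ := sep_fin (fun b => f (b ∘ e)) D fun s b => by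
    obtain ⟨q, hq, hq2⟩ := h (e.symm s) (b ∘ e)
    refine ⟨q, hq, fun c => ?_⟩
    rw [← hq2 c, Function.update_comp_equiv]
  refine ⟨rename e.symm g, fun b => ?_⟩
  rw [eval_rename, ← hg]
  congr 1
  funext i
  change b i = b (e.symm (e i))
  rw [e.symm_apply_apply]

/-- There is a basis of vectors with `Δ ≠ 0`. Proof: otherwise the vectors with `Δ ≠ 0` are in the kernel of a linear form `λ ≠ 0`, and `Δ λ`
vanishes everywhere (`κ` infinite: `MvPolynomial.funext`). -/
theorem exists_bs [Infinite κ] {σ : Type} [Fintype σ] (Δ : MvPolynomial σ κ) (h : Δ ≠ 0) :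
    ∃ B : Module.Basis σ κ (σ → κ), ∀ i, eval (B i) Δ ≠ 0 := by
  classical
  have hs : ⊤ ≤ Submodule.span κ {v : σ → κ | eval v Δ ≠ 0} := by
    by_contra hne
    obtain ⟨f, hf, hle⟩ := Submodule.exists_le_ker_of_lt_top _ (lt_top_iff_ne_top.2
      fun h => hne h.ge)
    have hLe : ∀ v : σ → κ, eval v (∑ i, C (f (Pi.single i 1)) * X i : MvPolynomial σ κ) =
        f v := by
      intro v
      rw [map_sum]
      have h1 : v = ∑ i, v i • (Pi.single i 1 : σ → κ) := by
        funext j
        rw [Finset.sum_apply, Finset.sum_eq_single j]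
        · rw [Pi.smul_apply, Pi.single_eq_same, smul_eq_mul, mul_one]
        · intro i _ hi
          rw [Pi.smul_apply, Pi.single_eq_of_ne (Ne.symm hi), smul_zero]
        · intro h
          exact absurd (Finset.mem_univ j) h
      conv_rhs => rw [h1]
      rw [map_sum]
      refine Finset.sum_congr rfl fun i _ => ?_
      rw [map_mul, eval_C, eval_X, map_smul, smul_eq_mul, mul_comm]
    have h0 : Δ * (∑ i, C (f (Pi.single i 1)) * X i : MvPolynomial σ κ) = 0 := by
      refine MvPolynomial.funext fun v => ?_
      rw [map_mul, hLe, map_zero]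
      by_cases hv : eval v Δ = 0
      · rw [hv, zero_mul]
      · have h2 : f v = 0 := hle (Submodule.subset_span hv)
        rw [h2, mul_zero]
    refine hf (LinearMap.ext fun v => ?_)
    rw [← hLe v, (mul_eq_zero.1 h0).resolve_left h, map_zero, LinearMap.zero_apply]
  have e := (Module.Basis.ofSpan hs).indexEquiv (Pi.basisFun κ σ)
  refine ⟨(Module.Basis.ofSpan hs).reindex e, fun i => ?_⟩
  rw [Module.Basis.reindex_apply]
  exact Module.Basis.ofSpan_subset hs ⟨_, rfl⟩

/-- Two polynomials which agree at all points with `Δ ≠ 0` are equal. Proof: `Δ (g - g')` vanishes everywhere. -/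
theorem eq_of_dense [Infinite κ] {σ : Type} {Δ g g' : MvPolynomial σ κ} (h : Δ ≠ 0)
    (hg : ∀ b, eval b Δ ≠ 0 → eval b g = eval b g') : g = g' := by
  have h1 : Δ * (g - g') = 0 := by
    refine MvPolynomial.funext fun b => ?_
    rw [map_mul, map_sub, map_zero]
    by_cases hb : eval b Δ = 0
    · rw [hb, zero_mul]
    · rw [hg b hb, sub_self, mul_zero]
  exact sub_eq_zero.1 ((mul_eq_zero.1 h1).resolve_left h)

/-- The polynomial `Δ` on a line in the direction `i`. Proof: the coefficient of `X ^ e` of the polynomial `c ↦ Δ (update b i c)` is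
`eval (Pi.single i 1) Δ` (homogeneous of degree `e`), so it is not `0` and has at most `e` roots. -/
theorem line_fin {σ : Type} [Fintype σ] [DecidableEq σ] {Δ : MvPolynomial σ κ} {e : ℕ}
    (hΔ : Δ.IsHomogeneous e) {i : σ} (hi : eval (Pi.single i 1) Δ ≠ 0) (b : σ → κ) :
    ∃ s : Finset κ, s.card ≤ e ∧ ∀ c, c ∉ s → eval (Function.update b i c) Δ ≠ 0 := by
  classical
  let f : σ → Polynomial κ := fun j => if j = i then Polynomial.X else Polynomial.C (b j)
  have hfi : f i = Polynomial.X := if_pos rfl
  have hfj : ∀ j, j ≠ i → f j = Polynomial.C (b j) := fun j hj => if_neg hj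
  have hdeg : (aeval f Δ).natDegree ≤ e := by
    have h1 := MvPolynomial.aeval_natDegree_le Δ hΔ.totalDegree_le f (n := 1) fun j => by
      by_cases hj : j = i
      · rw [hj, hfi]
        exact Polynomial.natDegree_X_le
      · rw [hfj j hj, Polynomial.natDegree_C]
        exact Nat.zero_le _
    rwa [mul_one] at h1
  have hev : ∀ c, (aeval f Δ).eval c = eval (Function.update b i c) Δ := by
    intro c
    have h1 : (aeval f Δ).eval c = (Polynomial.evalRingHom c) (aeval f Δ) := rfl
    rw [h1, aeval_def, hom_eval₂]
    have h2 : (Polynomial.evalRingHom c).comp (algebraMap κ (Polynomial κ)) = RingHom.id κ :=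
      RingHom.ext fun x => Polynomial.eval_C
    rw [h2, eval]
    congr 1
    funext j
    by_cases hj : j = i
    · subst hj
      rw [hfi, Function.update_self]
      exact Polynomial.eval_X
    · rw [hfj j hj, Function.update_of_ne hj]
      exact Polynomial.eval_C
  have hcoef : (aeval f Δ).coeff e = eval (Pi.single i 1) Δ := by
    rw [aeval_def, eval₂_eq', eval_eq', Polynomial.finsetSum_coeff]
    refine Finset.sum_congr rfl fun d hd => ?_
    have hde : d.degree = e := by
      by_contra hne
      exact (mem_support_iff.1 hd) (hΔ.coeff_eq_zero hne)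
    have hsum : ∑ j, d j = e := by
      rw [← hde, Finsupp.degree_eq_sum]
    have hprod : ∏ j, f j ^ d j =
        Polynomial.C (∏ j ∈ Finset.univ.erase i, b j ^ d j) * Polynomial.X ^ d i := by
      rw [← Finset.mul_prod_erase Finset.univ _ (Finset.mem_univ i), hfi, mul_comm, map_prod]
      congr 1
      refine Finset.prod_congr rfl fun j hj => ?_
      rw [hfj j (Finset.ne_of_mem_erase hj), map_pow]
    have hprod' : ∏ j, (Pi.single i 1 : σ → κ) j ^ d j =
        ∏ j ∈ Finset.univ.erase i, (0 : κ) ^ d j := by
      rw [← Finset.mul_prod_erase Finset.univ _ (Finset.mem_univ i), Pi.single_eq_same, one_pow,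
        one_mul]
      refine Finset.prod_congr rfl fun j hj => ?_
      rw [Pi.single_eq_of_ne (Finset.ne_of_mem_erase hj)]
    have halg : algebraMap κ (Polynomial κ) (coeff d Δ) = Polynomial.C (coeff d Δ) := rfl
    rw [hprod, hprod', halg, Polynomial.coeff_C_mul, Polynomial.coeff_C_mul,
      Polynomial.coeff_X_pow]
    have hsplit : d i + ∑ j ∈ Finset.univ.erase i, d j = e := by
      rw [← hsum, ← Finset.add_sum_erase Finset.univ (fun j => d j) (Finset.mem_univ i)]
    congr 1
    by_cases hdi : d i = e
    · rw [if_pos hdi.symm, mul_one]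
      have h0 : ∑ j ∈ Finset.univ.erase i, d j = 0 := by omega
      have h1 : ∀ j ∈ Finset.univ.erase i, d j = 0 := fun j hj =>
        (Finset.sum_eq_zero_iff.1 h0) j hj
      refine Finset.prod_congr rfl fun j hj => ?_
      rw [h1 j hj, pow_zero, pow_zero]
    · rw [if_neg (Ne.symm hdi), mul_zero]
      have h0 : ∑ j ∈ Finset.univ.erase i, d j ≠ 0 := by omega
      obtain ⟨j, hj, hj0⟩ := Finset.exists_ne_zero_of_sum_ne_zero h0
      exact (Finset.prod_eq_zero hj (zero_pow hj0)).symm
  have hne : aeval f Δ ≠ 0 := by
    intro h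
    rw [h, Polynomial.coeff_zero] at hcoef
    exact hi hcoef.symm
  refine ⟨(aeval f Δ).roots.toFinset, ?_, fun c hc h => hc ?_⟩
  · exact (Multiset.toFinset_card_le _).trans ((Polynomial.card_roots' _).trans hdeg)
  · rw [Multiset.mem_toFinset, Polynomial.mem_roots hne]
    exact (hev c).trans h

/-- The inverse of the matrix of the binomials: the numbers `(z + α_s) ^ r`, `s`, `r ≤ D`, `α_s` distinct. Proof: Lagrange interpolation with the nodes
`z + α_s` (whose differences are constants): the coefficients of the basis polynomials are polynomials in `z` of degree `≤ D`. -/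
theorem vdm_inv (D : ℕ) (α : Fin (D + 1) → κ) (hα : Function.Injective α) :
    ∃ W : Fin (D + 1) → Fin (D + 1) → Polynomial κ, (∀ r s, (W r s).natDegree ≤ D) ∧
      ∀ (x : Fin (D + 1) → κ) (z : κ) (r : Fin (D + 1)),
        ∑ s, (W r s).eval z * ∑ r', x r' * (z + α s) ^ (r' : ℕ) = x r := by
  classical
  refine ⟨fun r s => ∑ k ∈ Finset.range (D + 1),
    Polynomial.C (((k.choose r : ℕ) : κ) * (Lagrange.basis Finset.univ α s).coeff k) *
      (-Polynomial.X) ^ (k - r), fun r s => ?_, fun x z r => ?_⟩
  · refine Polynomial.natDegree_sum_le_of_forall_le _ _ fun k hk => ?_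
    refine (Polynomial.natDegree_C_mul_le _ _).trans ((Polynomial.natDegree_pow_le).trans ?_)
    rw [Polynomial.natDegree_neg, Polynomial.natDegree_X, mul_one]
    have := Finset.mem_range.1 hk
    omega
  · obtain ⟨p, hp⟩ : ∃ p : Polynomial κ,
        p = ∑ r' : Fin (D + 1), Polynomial.C (x r') * Polynomial.X ^ (r' : ℕ) := ⟨_, rfl⟩
    have hpe : ∀ y, p.eval y = ∑ r', x r' * y ^ (r' : ℕ) := by
      intro y
      rw [hp, Polynomial.eval_finsetSum]
      refine Finset.sum_congr rfl fun r' _ => ?_
      rw [Polynomial.eval_mul, Polynomial.eval_C, Polynomial.eval_pow, Polynomial.eval_X]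
    have hpd : p.natDegree ≤ D := by
      rw [hp]
      refine Polynomial.natDegree_sum_le_of_forall_le _ _ fun r' _ => ?_
      refine (Polynomial.natDegree_C_mul_X_pow_le _ _).trans ?_
      have := r'.2
      omega
    have hpc : p.coeff r = x r := by
      rw [hp, Polynomial.finsetSum_coeff, Finset.sum_eq_single r]
      · rw [Polynomial.coeff_C_mul, Polynomial.coeff_X_pow, if_pos rfl, mul_one]
      · intro r' _ hr'
        rw [Polynomial.coeff_C_mul, Polynomial.coeff_X_pow, if_neg, mul_zero]
        exact fun h => hr' (Fin.ext h.symm)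
      · intro h
        exact absurd (Finset.mem_univ r) h
    obtain ⟨q, hq⟩ : ∃ q, q = Polynomial.taylor z p := ⟨_, rfl⟩
    have hqd : q.natDegree ≤ D := by
      rw [hq, Polynomial.natDegree_taylor]
      exact hpd
    have hqp : p = Polynomial.taylor (-z) q := by
      rw [hq, Polynomial.taylor_taylor, neg_add_cancel, Polynomial.taylor_zero]
    have hqe : ∀ y, q.eval y = p.eval (z + y) := by
      intro y
      rw [hq, Polynomial.taylor_eval, add_comm]
    have hqi : q = Lagrange.interpolate Finset.univ α fun s => q.eval (α s) := by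
      refine Lagrange.eq_interpolate hα.injOn ?_
      rw [Finset.card_univ, Fintype.card_fin]
      refine lt_of_le_of_lt Polynomial.degree_le_natDegree ?_
      exact_mod_cast Nat.lt_succ_of_le hqd
    have hqc : ∀ k, q.coeff k =
        ∑ s, q.eval (α s) * (Lagrange.basis Finset.univ α s).coeff k := by
      intro k
      conv_lhs => rw [hqi]
      rw [Lagrange.interpolate_apply, Polynomial.finsetSum_coeff]
      exact Finset.sum_congr rfl fun s _ => Polynomial.coeff_C_mul _
    have hx : x r = ∑ k ∈ Finset.range (D + 1),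
        ((k.choose r : ℕ) : κ) * q.coeff k * (-z) ^ (k - r) := by
      rw [← hpc, hqp, Polynomial.taylor_coeff, Polynomial.hasseDeriv_apply,
        Polynomial.sum_over_range' _ _ (D + 1) (Nat.lt_succ_of_le hqd), Polynomial.eval_finsetSum]
      · exact Finset.sum_congr rfl fun k _ => Polynomial.eval_monomial
      · intro k
        rw [mul_zero, Polynomial.monomial_zero_right]
    rw [hx]
    simp only [Polynomial.eval_finsetSum, ← hpe]
    calc ∑ s, (∑ k ∈ Finset.range (D + 1), Polynomial.eval z
            (Polynomial.C (((k.choose r : ℕ) : κ) * (Lagrange.basis Finset.univ α s).coeff k) *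
              (-Polynomial.X) ^ (k - r))) * p.eval (z + α s)
        = ∑ s, ∑ k ∈ Finset.range (D + 1), ((k.choose r : ℕ) : κ) *
            (q.eval (α s) * (Lagrange.basis Finset.univ α s).coeff k) * (-z) ^ (k - r) := by
          refine Finset.sum_congr rfl fun s _ => ?_
          rw [Finset.sum_mul]
          refine Finset.sum_congr rfl fun k _ => ?_
          rw [Polynomial.eval_mul, Polynomial.eval_C, Polynomial.eval_pow, Polynomial.eval_neg,
            Polynomial.eval_X, hqe]
          ring
      _ = ∑ k ∈ Finset.range (D + 1), ((k.choose r : ℕ) : κ) * q.coeff k * (-z) ^ (k - r) := by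
          rw [Finset.sum_comm]
          refine Finset.sum_congr rfl fun k _ => ?_
          rw [hqc k, Finset.mul_sum, Finset.sum_mul]

end GM
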