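import Pool.Agent.Lib.MP_f80667_ag.Gm.PlA

/-!
The planar lemma: a function `P b u`, linear in `u`, such that `P (a(c)) (a'(c))` is a polynomial in `c` for all arcs `a` is
a polynomial in `b`.
-/

open MvPolynomial

namespace GM

variable {κ : Type} [Field κ] {σ : Type} [Fintype σ] [DecidableEq σ]

/-- The hypotheses. -/
structure Ar (Δ : MvPolynomial σ κ) (C : ℕ) (P : (σ → κ) → (σ → κ) → κ) : Prop where
  add : ∀ b, eval b Δ ≠ 0 → ∀ u u', P b (u + u') = P b u + P b u'
  smul : ∀ b, eval b Δ ≠ 0 → ∀ u (t : κ), P b (t • u) = t * P b u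
  arc : ∀ (ρ : ℕ) (a : σ → Polynomial κ), (∀ i, (a i).natDegree ≤ ρ) →
    ∃ q : Polynomial κ, q.natDegree ≤ C * ρ ∧ ∀ c, eval (fun i => (a i).eval c) Δ ≠ 0 →
      P (fun i => (a i).eval c) (fun i => (Polynomial.derivative (a i)).eval c) = q.eval c

variable {Δ : MvPolynomial σ κ} {C e : ℕ} {P : (σ → κ) → (σ → κ) → κ}

/-- The component `i` is a polynomial in the variable `i`: the coefficients are functions of the other variables. Proof: the arc `update b i X`
(`ρ = 1`): a polynomial `q` of degree `≤ C` with `P (update b i c) e_i = q c` for the good `c` (all but finitely many: `line_fin`); it depends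
only on `update b i 0`; `E r b = q.coeff r`. -/
theorem Ar.cmp [Infinite κ] (h : Ar Δ C P) (hΔ : Δ.IsHomogeneous e) {i : σ}
    (hi : eval (Pi.single i 1) Δ ≠ 0) :
    ∃ E : ℕ → (σ → κ) → κ, (∀ r b c, E r (Function.update b i c) = E r b) ∧
      ∀ b, eval b Δ ≠ 0 →
        P b (Pi.single i 1) = ∑ r ∈ Finset.range (C + 1), E r b * b i ^ r := by
  have h1 : ∀ b : σ → κ, ∃ q : Polynomial κ, q.natDegree ≤ C ∧ ∀ c,
      eval (Function.update b i c) Δ ≠ 0 →
        P (Function.update b i c) (Pi.single i 1) = q.eval c := by
    intro b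
    obtain ⟨q, hq, hq'⟩ := h.arc 1
      (Function.update (fun j => Polynomial.C (b j)) i Polynomial.X) (by
        intro j
        by_cases hj : j = i
        · subst hj
          rw [Function.update_self]
          exact Polynomial.natDegree_X_le
        · rw [Function.update_of_ne hj, Polynomial.natDegree_C]
          exact Nat.zero_le _)
    refine ⟨q, by omega, fun c hc => ?_⟩
    have e1 : (fun j => (Function.update (fun j => Polynomial.C (b j)) i Polynomial.X j).eval c) =
        Function.update b i c := by
      funext j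
      by_cases hj : j = i
      · subst hj
        rw [Function.update_self, Function.update_self, Polynomial.eval_X]
      · rw [Function.update_of_ne hj, Function.update_of_ne hj, Polynomial.eval_C]
    have e2 : (fun j => (Polynomial.derivative
        (Function.update (fun j => Polynomial.C (b j)) i Polynomial.X j)).eval c) =
        Pi.single i 1 := by
      funext j
      by_cases hj : j = i
      · subst hj
        rw [Function.update_self, Pi.single_eq_same, Polynomial.derivative_X,
          Polynomial.eval_one]
      · rw [Function.update_of_ne hj, Pi.single_eq_of_ne hj, Polynomial.derivative_C,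
          Polynomial.eval_zero]
    have h2 := hq' c
    rw [e1, e2] at h2
    exact h2 hc
  choose q hq hq' using h1
  refine ⟨fun r b => (q (Function.update b i 0)).coeff r, fun r b c => ?_, fun b hb => ?_⟩
  · simp only [Function.update_idem]
  · have h3 := hq' (Function.update b i 0) (b i)
    rw [Function.update_idem, Function.update_eq_self] at h3
    rw [h3 hb, Polynomial.eval_eq_sum_range' (Nat.lt_succ_of_le (hq _))]

omit [Fintype σ] [DecidableEq σ] in
private theorem PlB_eval (f : σ → Polynomial κ) (z : κ) (Γ : MvPolynomial σ κ) :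
    (aeval f Γ).eval z = eval (fun j => (f j).eval z) Γ := by
  induction Γ using MvPolynomial.induction_on with
  | C a => rw [aeval_C, eval_C, Polynomial.algebraMap_apply, Algebra.algebraMap_self_apply,
      Polynomial.eval_C]
  | add a b ha hb => rw [map_add, Polynomial.eval_add, map_add, ha, hb]
  | mul_X a j ha => rw [map_mul, Polynomial.eval_mul, map_mul, ha, aeval_X, eval_X]

private theorem PlB_key [Infinite κ] (h : Ar Δ C P) (hΔ : Δ.IsHomogeneous e) {p : ℕ}
    (hp : p.Prime) [CharP κ p] {i s : σ} (his : s ≠ i) (hi : eval (Pi.single i 1) Δ ≠ 0)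
    {E : ℕ → (σ → κ) → κ} (hE : ∀ r b c, E r (Function.update b i c) = E r b)
    (hE' : ∀ b, eval b Δ ≠ 0 →
      P b (Pi.single i 1) = ∑ r ∈ Finset.range (C + 1), E r b * b i ^ r) (b : σ → κ) {r : ℕ}
    (hr : r ≤ C) (z₀ : κ) :
    ∃ (q : Polynomial κ) (T : Finset κ), q.natDegree ≤ C * p + C ∧ z₀ ∉ T ∧
      ∀ z, z ∉ T → E r (Function.update b s (z ^ p)) = q.eval z := by
  classical
  -- the arcs
  let ar : κ → σ → Polynomial κ := fun α => Function.update
    (Function.update (fun j => Polynomial.C (b j)) s (Polynomial.X ^ p)) i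
      (Polynomial.X + Polynomial.C α)
  have hard : ∀ α j, (ar α j).natDegree ≤ p := by
    intro α j
    by_cases hj : j = i
    · subst hj
      simp only [ar, Function.update_self]
      rw [Polynomial.natDegree_X_add_C]
      exact hp.one_lt.le
    · by_cases hs : j = s
      · subst hs
        simp only [ar, Function.update_of_ne hj, Function.update_self]
        rw [Polynomial.natDegree_X_pow]
      · simp only [ar, Function.update_of_ne hj, Function.update_of_ne hs]
        rw [Polynomial.natDegree_C]
        exact Nat.zero_le _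
  have hare : ∀ α z, (fun j => (ar α j).eval z) =
      Function.update (Function.update b s (z ^ p)) i (z + α) := by
    intro α z
    funext j
    by_cases hj : j = i
    · subst hj
      simp only [ar, Function.update_self]
      rw [Polynomial.eval_add, Polynomial.eval_X, Polynomial.eval_C]
    · by_cases hs : j = s
      · subst hs
        simp only [ar, Function.update_of_ne hj, Function.update_self]
        rw [Polynomial.eval_pow, Polynomial.eval_X]
      · simp only [ar, Function.update_of_ne hj, Function.update_of_ne hs]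
        rw [Polynomial.eval_C]
  have hard' : ∀ α z, (fun j => (Polynomial.derivative (ar α j)).eval z) =
      (Pi.single i 1 : σ → κ) := by
    intro α z
    funext j
    by_cases hj : j = i
    · subst hj
      simp only [ar, Function.update_self, Pi.single_eq_same]
      rw [Polynomial.derivative_X_add_C, Polynomial.eval_one]
    · rw [Pi.single_eq_of_ne hj]
      by_cases hs : j = s
      · subst hs
        simp only [ar, Function.update_of_ne hj, Function.update_self]
        rw [Polynomial.derivative_X_pow, CharP.cast_eq_zero, Polynomial.C_0, zero_mul,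
          Polynomial.eval_zero]
      · simp only [ar, Function.update_of_ne hj, Function.update_of_ne hs]
        rw [Polynomial.derivative_C, Polynomial.eval_zero]
  have harc : ∀ α : κ, ∃ q : Polynomial κ, q.natDegree ≤ C * p ∧ ∀ z,
      eval (Function.update (Function.update b s (z ^ p)) i (z + α)) Δ ≠ 0 →
        ∑ r ∈ Finset.range (C + 1), E r (Function.update b s (z ^ p)) * (z + α) ^ r =
          q.eval z := by
    intro α
    obtain ⟨q, hq, hq'⟩ := h.arc p (ar α) (hard α)
    refine ⟨q, hq, fun z hz => ?_⟩
    have h1 := hq' z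
    rw [hare, hard'] at h1
    rw [← h1 hz, hE' _ hz]
    refine Finset.sum_congr rfl fun r _ => ?_
    rw [hE, Function.update_self]
  choose q hq hq' using harc
  -- good parameters
  obtain ⟨S, -, hS⟩ := line_fin hΔ hi (Function.update b s (z₀ ^ p))
  have hinf : {α : κ | z₀ + α ∉ S}.Infinite := by
    have h1 : ((S.image fun c => c - z₀ : Finset κ) : Set κ)ᶜ ⊆ {α : κ | z₀ + α ∉ S} := by
      intro α hα hcon
      apply hα
      rw [Finset.mem_coe, Finset.mem_image]
      exact ⟨z₀ + α, hcon, by ring⟩
    exact ((Finset.finite_toSet _).infinite_compl).mono h1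
  let em := hinf.natEmbedding
  let α : Fin (C + 1) → κ := fun j => (em j.val).1
  have hα : Function.Injective α := by
    intro j j' hj
    exact Fin.ext (em.injective (Subtype.ext hj))
  have hαS : ∀ j, z₀ + α j ∉ S := fun j => (em j.val).2
  obtain ⟨W, hW, hW'⟩ := vdm_inv C α hα
  let D : Fin (C + 1) → Polynomial κ := fun j => aeval (ar (α j)) Δ
  have hD : ∀ j z, (D j).eval z =
      eval (Function.update (Function.update b s (z ^ p)) i (z + α j)) Δ := by
    intro j z
    simp only [D]
    rw [PlB_eval, hare]
  have hD0 : ∀ j, (D j).eval z₀ ≠ 0 := by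
    intro j
    rw [hD]
    exact hS _ (hαS j)
  let T : Finset κ := Finset.univ.biUnion fun j => (D j).roots.toFinset
  have hT : ∀ z, z ∉ T ↔ ∀ j, (D j).eval z ≠ 0 := by
    intro z
    simp only [T, Finset.mem_biUnion, Finset.mem_univ, true_and, Multiset.mem_toFinset, not_exists]
    refine forall_congr' fun j => ?_
    have hDj : D j ≠ 0 := by
      intro h0
      apply hD0 j
      rw [h0, Polynomial.eval_zero]
    rw [Polynomial.mem_roots hDj]
    rfl
  refine ⟨∑ j, W ⟨r, Nat.lt_succ_of_le hr⟩ j * q (α j), T, ?_, (hT z₀).2 hD0, fun z hz => ?_⟩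
  · refine Polynomial.natDegree_sum_le_of_forall_le _ _ fun j _ => ?_
    refine Polynomial.natDegree_mul_le.trans ?_
    have h1 := hW ⟨r, Nat.lt_succ_of_le hr⟩ j
    have h2 := hq (α j)
    omega
  · have hz' := (hT z).1 hz
    have h1 := hW' (fun r' => E r' (Function.update b s (z ^ p))) z ⟨r, Nat.lt_succ_of_le hr⟩
    rw [Polynomial.eval_finsetSum]
    refine h1.symm.trans (Finset.sum_congr rfl fun j _ => ?_)
    rw [Polynomial.eval_mul]
    congr 1
    have h2 := hz' j
    rw [hD] at h2
    rw [← hq' (α j) z h2, Finset.sum_range]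

/-- The coefficients are polynomials in the `p`-th root of every other variable. Proof: for `α ∈ κ` the arc `a i = X + α`, `a s = X ^ p`, the others constant
(`ρ = p`), whose derivative is `e_i` (characteristic `p`): `∑ r, E r (update b s (z ^ p)) (z + α) ^ r = q_α(z)` for all `z` with
`Δ (..) ≠ 0`, `q_α` of degree `≤ C p`. Fix `z₀`; by `line_fin` there are distinct `α_0, .., α_C` with `Δ ≠ 0` at `z₀`, hence
at all but finitely many `z` (a polynomial in `z` which is not `0`); `vdm_inv`: `E r (update b s (z ^ p)) = ∑ s', W r s' q_(α_s')` for these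
`z`, among them `z₀`. Two such polynomials for different `z₀` agree at infinitely many `z`. -/
theorem Ar.root [Infinite κ] (h : Ar Δ C P) (hΔ : Δ.IsHomogeneous e) {p : ℕ} (hp : p.Prime)
    [CharP κ p] {i s : σ} (his : s ≠ i) (hi : eval (Pi.single i 1) Δ ≠ 0)
    {E : ℕ → (σ → κ) → κ} (hE : ∀ r b c, E r (Function.update b i c) = E r b)
    (hE' : ∀ b, eval b Δ ≠ 0 →
      P b (Pi.single i 1) = ∑ r ∈ Finset.range (C + 1), E r b * b i ^ r) (b : σ → κ) {r : ℕ}
    (hr : r ≤ C) :
    ∃ q : Polynomial κ, q.natDegree ≤ C * p + C ∧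
      ∀ z : κ, E r (Function.update b s (z ^ p)) = q.eval z := by
  obtain ⟨q, T, hq, -, hq'⟩ := PlB_key h hΔ hp his hi hE hE' b hr 0
  refine ⟨q, hq, fun z => ?_⟩
  obtain ⟨q₁, T₁, -, hz, hq₁⟩ := PlB_key h hΔ hp his hi hE hE' b hr z
  have h1 : q = q₁ := by
    classical
    refine Polynomial.eq_of_infinite_eval_eq q q₁ ?_
    refine ((Finset.finite_toSet (T ∪ T₁)).infinite_compl).mono fun x hx => ?_
    have hx' : x ∉ T ∪ T₁ := fun h0 => hx (Finset.mem_coe.2 h0)
    rw [Finset.mem_union, not_or] at hx'
    show q.eval x = q₁.eval x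
    rw [← hq' x hx'.1, ← hq₁ x hx'.2]
  rw [h1]
  exact hq₁ z hz

end GM
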